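import Pool.Agent.MP42.EO.If

/-!
# Breadth first search tree of the faces of a region, over middle real units
-/

set_option autoImplicit false

namespace Pool.Agent.MP42.EO

open Pool.Agent.MP42.NE

section Cyc

variable {P : Type*} {E : Equiv.Perm P}

lemma sE (x y : P) : E.SameCycle x (E y) ↔ E.SameCycle x y := Equiv.Perm.sameCycle_apply_right

lemma Es (x y : P) : E.SameCycle (E x) y ↔ E.SameCycle x y := Equiv.Perm.sameCycle_apply_left

lemma sR (x : P) : E.SameCycle x x := Equiv.Perm.SameCycle.refl _ _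

lemma s_pow (n : ℕ) (x : P) : E.SameCycle x ((E ^ n) x) := ⟨(n : ℤ), by rw [zpow_natCast]⟩

lemma cyc_eq [Finite P] {α : Type*} {g : P → α} (hg : ∀ x, g (E x) = g x) {x y : P}
    (h : E.SameCycle x y) : g y = g x := by
  obtain ⟨n, hn⟩ := h.exists_nat_pow_eq
  rw [← hn]
  clear hn h
  induction n with
  | zero => rfl
  | succ n ih => rw [pow_succ', Equiv.Perm.mul_apply, hg, ih]

lemma cyc_iff [Finite P] {g : P → Prop} (hg : ∀ x, g (E x) ↔ g x) {x y : P}
    (h : E.SameCycle x y) : g y ↔ g x := by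
  rw [cyc_eq (g := g) (fun x => propext (hg x)) h]

end Cyc

variable {P : Type*} {E : Equiv.Perm P} {τ : P → P} {ok : P → Bool → Bool → Bool → Prop}
  {MR : P → Prop}

lemma Reg.refl (x : P) : Reg E τ x x := Relation.EqvGen.refl _
lemma Reg.symm {x y : P} (h : Reg E τ x y) : Reg E τ y x := Relation.EqvGen.symm _ _ h
lemma Reg.trans {x y z : P} (h : Reg E τ x y) (h' : Reg E τ y z) : Reg E τ x z :=
  Relation.EqvGen.trans _ _ _ h h'
lemma reg_E (x : P) : Reg E τ x (E x) := Relation.EqvGen.rel _ _ (Or.inl rfl)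
lemma reg_τ (x : P) : Reg E τ x (τ x) := Relation.EqvGen.rel _ _ (Or.inr rfl)

lemma Reg.E_iff {x y : P} : Reg E τ x (E y) ↔ Reg E τ x y :=
  ⟨fun h => h.trans (reg_E y).symm, fun h => h.trans (reg_E y)⟩

lemma Reg.τ_iff {x y : P} : Reg E τ x (τ y) ↔ Reg E τ x y :=
  ⟨fun h => h.trans (reg_τ y).symm, fun h => h.trans (reg_τ y)⟩

lemma Reg.cyc [Finite P] {x y : P} (h : E.SameCycle x y) : Reg E τ x y :=
  (cyc_iff (g := fun z => Reg E τ x z) (fun _ => Reg.E_iff) h).2 (Reg.refl x)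

/-- invariant predicates -/
lemma Reg.inv {x y : P} (h : Reg E τ x y) {ψ : P → Prop} (h1 : ∀ x, ψ (E x) ↔ ψ x)
    (h2 : ∀ x, ψ (τ x) ↔ ψ x) : ψ x ↔ ψ y := by
  induction h with
  | rel a b h =>
    rcases h with h | h
    · rw [h, h1]
    · rw [h, h2]
  | refl a => rfl
  | symm a b _ ih => exact ih.symm
  | trans a b c _ _ ih1 ih2 => exact ih1.trans ih2

/-- predicates that are invariant along the faces and over the middle real units -/
lemma Loc.inv (L : Loc E τ ok MR) {x y : P} (h : Reg E τ x y) {ψ : P → Prop}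
    (h1 : ∀ x, ψ (E x) ↔ ψ x) (h2 : ∀ x, MR x → ψ x → ψ (τ x)) : ψ x ↔ ψ y := by
  refine h.inv h1 (L.conn ψ h1 ?_)
  intro z hz
  refine ⟨fun h => ?_, h2 z hz⟩
  have := h2 (τ z) (L.MRτ z hz) h
  rwa [L.ττ] at this

/-- levels -/
def Lv (E : Equiv.Perm P) (τ : P → P) (MR : P → Prop) (r : P) : ℕ → P → Prop
  | 0, x => E.SameCycle r x
  | n + 1, x => ∃ y, E.SameCycle x y ∧ MR y ∧ Lv E τ MR r n (τ y)

lemma Lv_E {r : P} (n : ℕ) (x : P) : Lv E τ MR r n (E x) ↔ Lv E τ MR r n x := by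
  cases n with
  | zero => exact sE r x
  | succ n =>
    constructor
    · rintro ⟨y, h1, h2⟩; exact ⟨y, (Es _ _).1 h1, h2⟩
    · rintro ⟨y, h1, h2⟩; exact ⟨y, (Es _ _).2 h1, h2⟩

lemma exists_Lv (L : Loc E τ ok MR) {r x : P} (h : Reg E τ r x) : ∃ n, Lv E τ MR r n x := by
  refine (L.inv h (ψ := fun x => ∃ n, Lv E τ MR r n x) ?_ ?_).1 ⟨0, sR r⟩
  · intro x
    constructor
    · rintro ⟨n, hn⟩; exact ⟨n, (Lv_E n x).1 hn⟩
    · rintro ⟨n, hn⟩; exact ⟨n, (Lv_E n x).2 hn⟩
  · rintro x hx ⟨n, hn⟩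
    exact ⟨n + 1, τ x, sR _, L.MRτ x hx, by rw [L.ττ]; exact hn⟩

/-- the search tree: `Pd y` = `y` is the dart of its face that leads to the parent -/
structure Bfs (E : Equiv.Perm P) (τ : P → P) (MR : P → Prop) (r : P) (dep : P → ℕ)
    (Pd : P → Prop) : Prop where
  dE : ∀ x, dep (E x) = dep x
  d0 : ∀ x, Reg E τ r x → (dep x = 0 ↔ E.SameCycle r x)
  pG : ∀ y, Pd y → Reg E τ r y
  p1 : ∀ y, Pd y → MR y
  p1' : ∀ y, Pd y → dep (τ y) + 1 = dep y
  p2 : ∀ y y', Pd y → Pd y' → E.SameCycle y y' → y = y'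
  p3 : ∀ x, Reg E τ r x → 0 < dep x → ∃ y, Pd y ∧ E.SameCycle x y

theorem exists_Bfs [Finite P] (L : Loc E τ ok MR) (r : P) : ∃ dep Pd, Bfs E τ MR r dep Pd := by
  classical
  set dep : P → ℕ := fun x => sInf {n | Lv E τ MR r n x} with hdep
  have dE : ∀ x, dep (E x) = dep x := by
    intro x
    simp only [hdep, Lv_E]
  have dspec : ∀ x, Reg E τ r x → Lv E τ MR r (dep x) x := fun x hx =>
    Nat.sInf_mem (s := {n | Lv E τ MR r n x}) (exists_Lv L hx)
  have dle : ∀ x n, Lv E τ MR r n x → dep x ≤ n := fun x n hn =>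
    Nat.sInf_le (s := {n | Lv E τ MR r n x}) hn
  have d3 : ∀ x, Reg E τ r x → 0 < dep x →
      ∃ y, E.SameCycle x y ∧ MR y ∧ dep (τ y) + 1 = dep x := by
    intro x hx h0
    have h1 := dspec x hx
    obtain ⟨n, hn⟩ : ∃ n, dep x = n + 1 := ⟨dep x - 1, by omega⟩
    rw [hn] at h1
    obtain ⟨y, h2, h3, h4⟩ := h1
    refine ⟨y, h2, h3, ?_⟩
    have h5 := dle _ _ h4
    have h6 : Reg E τ r (τ y) := Reg.τ_iff.2 (hx.trans (Reg.cyc h2))
    have h7 : Lv E τ MR r (dep (τ y) + 1) x := ⟨y, h2, h3, dspec _ h6⟩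
    have h8 := dle _ _ h7
    omega
  -- the choice on the faces
  let rep : P → P := fun x => (Quotient.mk (Equiv.Perm.SameCycle.setoid E) x).out
  have rep_same : ∀ x, E.SameCycle (rep x) x := fun x =>
    @Quotient.mk_out P (Equiv.Perm.SameCycle.setoid E) x
  have rep_congr : ∀ {x y}, E.SameCycle x y → rep x = rep y := by
    intro x y h
    show (Quotient.mk (Equiv.Perm.SameCycle.setoid E) x).out = _
    have : (Quotient.mk (Equiv.Perm.SameCycle.setoid E) x) =
        (Quotient.mk (Equiv.Perm.SameCycle.setoid E) y) := Quotient.sound h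
    rw [this]
  have hcho : ∀ x, ∃ y, (Reg E τ r x ∧ 0 < dep x) →
      (E.SameCycle x y ∧ MR y ∧ dep (τ y) + 1 = dep x) := by
    intro x
    by_cases h : Reg E τ r x ∧ 0 < dep x
    · obtain ⟨y, hy⟩ := d3 x h.1 h.2
      exact ⟨y, fun _ => hy⟩
    · exact ⟨x, fun h' => absurd h' h⟩
  choose pa hpa using hcho
  have hpa' : ∀ x, Reg E τ r x → 0 < dep x →
      E.SameCycle x (pa (rep x)) ∧ MR (pa (rep x)) ∧ dep (τ (pa (rep x))) + 1 = dep x := by
    intro x hx h0
    have h1 : dep (rep x) = dep x := (cyc_eq dE (rep_same x)).symm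
    have h2 := hpa (rep x) ⟨hx.trans (Reg.cyc (rep_same x)).symm, by rw [h1]; exact h0⟩
    rw [h1] at h2
    exact ⟨(rep_same x).symm.trans h2.1, h2.2⟩
  refine ⟨dep, fun y => Reg E τ r y ∧ 0 < dep y ∧ y = pa (rep y), dE, ?_, ?_, ?_, ?_, ?_, ?_⟩
  · intro x hx
    constructor
    · intro h
      have := dspec x hx
      rw [h] at this
      exact this
    · intro h
      have := dle x 0 h
      omega
  · intro y h; exact h.1
  · rintro y ⟨h1, h2, h3⟩
    have := (hpa' y h1 h2).2.1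
    rwa [← h3] at this
  · rintro y ⟨h1, h2, h3⟩
    have := (hpa' y h1 h2).2.2
    rwa [← h3] at this
  · rintro y y' ⟨h1, h2, h3⟩ ⟨h1', h2', h3'⟩ h
    rw [h3, h3', rep_congr h]
  · intro x hx h0
    have h1 := hpa' x hx h0
    have h2 : dep (pa (rep x)) = dep x := cyc_eq dE h1.1
    refine ⟨pa (rep x), ⟨hx.trans (Reg.cyc h1.1), by rw [h2]; exact h0, ?_⟩, h1.1⟩
    rw [← rep_congr h1.1]

/-- a face of depth one -/
lemma Bfs.exists_one {r : P} {dep : P → ℕ} {Pd : P → Prop} (B : Bfs E τ MR r dep Pd) {x : P}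
    (hx : Reg E τ r x) (h : ¬ E.SameCycle r x) : ∃ y, Pd y ∧ dep y = 1 := by
  have h0 : dep x ≠ 0 := fun h' => h ((B.d0 x hx).1 h')
  clear h
  induction hn : dep x using Nat.strong_induction_on generalizing x with
  | _ n ih =>
    obtain ⟨y, hy, hxy⟩ := B.p3 x hx (by omega)
    have h1 := B.p1' y hy
    by_cases h2 : dep (τ y) = 0
    · exact ⟨y, hy, by omega⟩
    · refine ih (dep (τ y)) ?_ (x := τ y) (Reg.τ_iff.2 (B.pG y hy)) h2 rfl
      have h3 : Reg E τ r y := B.pG y hy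
      have h4 : dep y = dep x := by
        obtain ⟨i, hi⟩ := hxy
        have : ∀ (i : ℤ) (x : P), dep ((E ^ i) x) = dep x := by
          intro i
          induction i using Int.induction_on with
          | zero => intro x; rfl
          | succ i ih =>
            intro x
            rw [zpow_add, zpow_one, Equiv.Perm.mul_apply, ih, B.dE]
          | pred i ih =>
            intro x
            have e1 := ih ((E ^ (-1 : ℤ)) x)
            have e2 : (E ^ (-(i : ℤ) - 1)) x = (E ^ (-(i : ℤ))) ((E ^ (-1 : ℤ)) x) := by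
              rw [← Equiv.Perm.mul_apply, ← zpow_add]
              rfl
            rw [e2, e1]
            have e3 := B.dE ((E ^ (-1 : ℤ)) x)
            have e4 : E ((E ^ (-1 : ℤ)) x) = x := by
              rw [zpow_neg_one]
              exact E.apply_symm_apply x
            rw [e4] at e3
            exact e3.symm
        rw [← hi]; exact this i x
      omega

end Pool.Agent.MP42.EO
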