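import Pool.Agent.MP42.NE.TSIns

/-!
# Insertion of the faces with two letters, with infinite stacks

Positions = corners; the corner `x` lies between the ribbons `x` and `E x`; the next corner round
the vertex is `nu x = τ (E x)`.  At a used vertex (any number of corners) every ribbon end carries
one strand with a sign; the corners are

* one host: pops one strand, then pushes one (`q = -1`),
* one third corner: pushes, then pops (`q = 1`),
* children (`Ch`): pop, pop (letter `1`) or push, push (letter `-1`).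

`c` = change of the face by its own entry or by the root ribbon, `sg` = letter of the face.
The root face may have arbitrary deep strands, the deep strands of the other faces are identified.
-/

set_option autoImplicit false

namespace Pool.Agent.MP42.EO

open Pool.Agent.MP42.NE

variable {P : Type*}

/-- the next corner round the vertex -/
def nu (E : Equiv.Perm P) (τ : P → P) (x : P) : P := τ (E x)

/-- insertion data with two letters -/
structure InsL (E : Equiv.Perm P) (τ : P → P) (v q c sg : P → ℤ) (Ch : P → Prop)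
    (rk : P → ℕ) : Prop where
  v_eq : ∀ x, v (E x) = q x - q (E x) + c (E x)
  qb : ∀ x, q x = 0 ∨ q x = 1 ∨ q x = -1
  qq : ∀ x, q x = 0 ∨ q (E x) = 0
  cq : ∀ x, c (E x) ≠ 0 → q x = 0 ∧ q (E x) = 0
  sg1 : ∀ x, sg x = 1 ∨ sg x = -1
  sgE : ∀ x, sg (E x) = sg x
  cs : ∀ x, c x = 0 ∨ c x = sg x
  reset : ∀ x, ∃ y, E.SameCycle x y ∧ c y ≠ 0
  ch : ∀ b, Ch b → c b ≠ 0 ∧ c (E b) ≠ 0
  rkE : ∀ x, rk (E x) = rk x
  host : ∀ h, q h = -1 → ∃ n : ℕ, (nu E τ)^[n + 1] h = h ∧ ∀ k < n,
    q ((nu E τ)^[k + 1] h) = 1 ∨ (Ch ((nu E τ)^[k + 1] h) ∧ rk h < rk ((nu E τ)^[k + 1] h))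
  par : ∀ x, (q x = 1 ∨ Ch x) → ∃ (h : P) (n : ℕ), q h = -1 ∧ (nu E τ)^[n + 1] h = x ∧
    ∀ k < n + 1,
      q ((nu E τ)^[k + 1] h) = 1 ∨ (Ch ((nu E τ)^[k + 1] h) ∧ rk h < rk ((nu E τ)^[k + 1] h))

namespace InsL

/-- the main strands -/
def M (E : Equiv.Perm P) (q : P → ℤ) (T : P → ℕ → Prop) (x : P) (m : ℕ) : Prop :=
  if q x = -1 then (if m = 0 then T (E.symm x) 0 else T x (m - 1)) else T x (m + q x).toNat

section

variable {E : Equiv.Perm P} {q : P → ℤ} {T : P → ℕ → Prop}

lemma M_zero {x : P} (h : q x = 0) (m : ℕ) : M E q T x m = T x m := by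
  unfold M
  rw [if_neg (by rw [h]; decide), h, show ((m : ℤ) + 0).toNat = m by omega]

lemma M_one {x : P} (h : q x = 1) (m : ℕ) : M E q T x m = T x (m + 1) := by
  unfold M
  rw [if_neg (by rw [h]; decide), h, show ((m : ℤ) + 1).toNat = m + 1 by omega]

lemma M_neg0 {x : P} (h : q x = -1) : M E q T x 0 = T (E.symm x) 0 := by
  unfold M
  rw [if_pos h, if_pos rfl]

lemma M_negs {x : P} (h : q x = -1) (m : ℕ) : M E q T x (m + 1) = T x m := by
  unfold M
  rw [if_pos h, if_neg (by omega), Nat.add_sub_cancel]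

end

/-- the strand at the first ribbon of a corner -/
def V (E : Equiv.Perm P) (v : P → ℤ) (T : P → ℕ → Prop) (x : P) : Prop :=
  if 0 < v x then T (E.symm x) 0 else T x 0

/-- the strand at the second ribbon of a corner -/
def W (E : Equiv.Perm P) (v : P → ℤ) (T : P → ℕ → Prop) (x : P) : Prop :=
  if 0 < v (E x) then T x 0 else T (E x) 0

section

variable {E : Equiv.Perm P} {τ : P → P} {v q c sg : P → ℤ} {Ch : P → Prop} {rk : P → ℕ}
  {T : P → ℕ → Prop}

variable (hI : InsL E τ v q c sg Ch rk)

lemma V_W (E : Equiv.Perm P) (v : P → ℤ) (T : P → ℕ → Prop) (x : P) :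
    V E v T (E x) ↔ W E v T x := by
  unfold V W
  rw [Equiv.symm_apply_apply]

include hI in
lemma c_zero {x : P} (h : q x ≠ 0) : c x = 0 ∧ c (E x) = 0 := by
  constructor
  · by_contra hc
    obtain ⟨y, rfl⟩ := E.surjective x
    exact h (hI.cq y hc).2
  · by_contra hc
    exact h (hI.cq x hc).1

include hI in
lemma q_near {x : P} (h : q x ≠ 0) : q (E.symm x) = 0 ∧ q (E x) = 0 := by
  constructor
  · rcases hI.qq (E.symm x) with h1 | h1
    · exact h1
    · rw [Equiv.apply_symm_apply] at h1
      exact absurd h1 h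
  · rcases hI.qq x with h1 | h1
    · exact absurd h1 h
    · exact h1

include hI in
lemma v_first (x : P) : v x = q (E.symm x) - q x + c x := by
  have := hI.v_eq (E.symm x)
  rwa [Equiv.apply_symm_apply] at this

include hI in
lemma v_used {x : P} (h : q x ≠ 0) : v x = - q x ∧ v (E x) = q x := by
  have h1 := v_first hI x
  have h2 := hI.v_eq x
  obtain ⟨h3, h4⟩ := c_zero hI h
  obtain ⟨h5, h6⟩ := q_near hI h
  omega

include hI in
lemma v_ch {x : P} (h : Ch x) :
    v x = sg x ∧ v (E x) = sg x ∧ q x = 0 ∧ q (E.symm x) = 0 ∧ q (E x) = 0 := by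
  obtain ⟨h1, h2⟩ := hI.ch x h
  have h3 := hI.cs x
  have h4 := hI.cs (E x)
  rw [hI.sgE] at h4
  have h5 := hI.cq (E.symm x)
  rw [Equiv.apply_symm_apply] at h5
  have h6 := hI.cq x h2
  have h7 := h5 h1
  have h8 := v_first hI x
  have h9 := hI.v_eq x
  have h10 : c x = sg x := h3.resolve_left h1
  have h11 : c (E x) = sg x := h4.resolve_left h2
  refine ⟨?_, ?_, h6.1, h7.1, h6.2⟩
  · rw [h8, h6.1, h7.1, h10]; ring
  · rw [h9, h6.1, h6.2, h11]; ring

/-- the strand of a ribbon seen from the two ends -/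
lemma W_V (hT : TS E τ v T) {x : P} (h : v (E x) = 1 ∨ v (E x) = -1) :
    W E v T x ↔ V E v T (nu E τ x) := by
  have hv : v (τ (E x)) = v (E x) := hT.vt (E x)
  unfold W V nu
  rcases h with h | h
  · rw [if_pos (by omega), if_pos (by omega)]
    have := hT.pop (E x) 0 0 (by rw [h]; rfl)
    rwa [Equiv.symm_apply_apply] at this
  · rw [if_neg (by omega), if_neg (by omega)]
    exact hT.push (E x) 0 0 (by rw [h]; rfl)

include hI in
lemma VW_third {x : P} (h : q x = 1) : V E v T x ↔ W E v T x := by
  obtain ⟨h1, h2⟩ := v_used hI (x := x) (by rw [h]; decide)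
  unfold V W
  rw [if_neg (by omega), if_pos (by omega)]

include hI in
lemma VW_child {x : P} (h : Ch x) {w : Prop}
    (hM : ∀ y, E.SameCycle x y → ∀ m, (M E q T y m ↔ w)) :
    (V E v T x ↔ w) ∧ (W E v T x ↔ w) := by
  obtain ⟨h1, h2, h3, h4, h5⟩ := v_ch hI h
  have m1 := hM (E.symm x) ⟨-1, by simp⟩ 0
  have m2 := hM x (Equiv.Perm.SameCycle.refl _ _) 0
  have m3 := hM (E x) ⟨1, by simp⟩ 0
  rw [M_zero h4] at m1
  rw [M_zero h3] at m2
  rw [M_zero h5] at m3
  unfold V W
  rcases hI.sg1 x with h6 | h6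
  · rw [if_pos (by omega), if_pos (by omega)]
    exact ⟨m1, m2⟩
  · rw [if_neg (by omega), if_neg (by omega)]
    exact ⟨m2, m3⟩

/-- the child faces are understood -/
def Okc (E : Equiv.Perm P) (q : P → ℤ) (Ch : P → Prop) (rk : P → ℕ) (T : P → ℕ → Prop)
    (val : P → Prop) (n : ℕ) : Prop :=
  ∀ b, Ch b → n < rk b → ∀ y, E.SameCycle b y → ∀ m, (M E q T y m ↔ val b)

include hI in
lemma v_pm {x : P} (h : q x ≠ 0 ∨ Ch x) : v (E x) = 1 ∨ v (E x) = -1 := by
  rcases h with h | h
  · have h1 := (v_used hI h).2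
    have h2 := hI.qb x
    omega
  · have h1 := (v_ch hI h).2.1
    have h2 := hI.sg1 x
    omega

include hI in
/-- the strand goes round the vertex -/
lemma round (hT : TS E τ v T) {val : P → Prop} {h : P} (hq : q h = -1)
    (hok : Okc E q Ch rk T val (rk h)) (n : ℕ)
    (hr : ∀ k < n, q ((nu E τ)^[k + 1] h) = 1 ∨
      (Ch ((nu E τ)^[k + 1] h) ∧ rk h < rk ((nu E τ)^[k + 1] h))) :
    W E v T ((nu E τ)^[n] h) ↔ W E v T h := by
  induction n with
  | zero => exact Iff.rfl
  | succ n ih =>
    have h1 := ih (fun k hk => hr k (by omega))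
    have h2 : v (E ((nu E τ)^[n] h)) = 1 ∨ v (E ((nu E τ)^[n] h)) = -1 := by
      apply v_pm hI
      rcases Nat.eq_zero_or_pos n with h0 | h0
      · subst h0
        left
        show q h ≠ 0
        rw [hq]; decide
      · obtain ⟨n, rfl⟩ := Nat.exists_eq_succ_of_ne_zero h0.ne'
        rcases hr n (by omega) with h3 | h3
        · left
          show q ((nu E τ)^[n + 1] h) ≠ 0
          rw [h3]; decide
        · right
          exact h3.1
    have h3 := W_V hT h2
    have h4 : nu E τ ((nu E τ)^[n] h) = (nu E τ)^[n + 1] h := by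
      rw [Function.iterate_succ_apply']
    rw [h4] at h3
    rw [← h1, h3]
    rcases hr n (by omega) with h5 | ⟨h5, h6⟩
    · exact (VW_third hI h5).symm
    · have h7 := VW_child hI h5 (hok _ h5 h6)
      exact h7.2.trans h7.1.symm

include hI in
/-- the host continues with the same value -/
lemma swap (hT : TS E τ v T) {val : P → Prop} {h : P} (hq : q h = -1)
    (hok : Okc E q Ch rk T val (rk h)) : T (E h) 0 ↔ T (E.symm h) 0 := by
  obtain ⟨n, hn, hr⟩ := hI.host h hq
  have h1 := round hI hT hq hok n hr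
  have h2 : v (E ((nu E τ)^[n] h)) = 1 ∨ v (E ((nu E τ)^[n] h)) = -1 := by
    apply v_pm hI
    rcases Nat.eq_zero_or_pos n with h0 | h0
    · subst h0
      left
      show q h ≠ 0
      rw [hq]; decide
    · obtain ⟨n, rfl⟩ := Nat.exists_eq_succ_of_ne_zero h0.ne'
      rcases hr n (by omega) with h3 | h3
      · left
        show q ((nu E τ)^[n + 1] h) ≠ 0
        rw [h3]; decide
      · right
        exact h3.1
  have h3 := W_V hT h2
  have h4 : nu E τ ((nu E τ)^[n] h) = h :=
    (Function.iterate_succ_apply' (nu E τ) n h).symm.trans hn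
  rw [h4] at h3
  obtain ⟨h5, h6⟩ := v_used hI (x := h) (by rw [hq]; decide)
  have h7 : V E v T h = T (E.symm h) 0 := by
    unfold V; rw [if_pos (by omega)]
  have h8 : W E v T h = T (E h) 0 := by
    unfold W; rw [if_neg (by omega)]
  rw [← h7, ← h8, ← h3]
  exact h1.symm

include hI in
/-- the main strands go along the ring -/
lemma tr (hT : TS E τ v T) {val : P → Prop} {x : P} (hok : Okc E q Ch rk T val (rk x)) (m n : ℕ)
    (hn : (n : ℤ) = c (E x) + m) : M E q T (E x) m ↔ M E q T x n := by
  have hv := hI.v_eq x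
  rcases hI.qb x with h0 | h0 | h0
  · rcases hI.qb (E x) with h1 | h1 | h1
    · rw [M_zero h0, M_zero h1]
      exact hT.st x m n (by omega)
    · have h2 := (c_zero hI (x := E x) (by rw [h1]; decide)).1
      rw [M_zero h0, M_one h1]
      exact hT.st x (m + 1) n (by push_cast; omega)
    · have h2 := (c_zero hI (x := E x) (by rw [h1]; decide)).1
      have h3 : n = m := by omega
      subst h3
      rw [M_zero h0]
      rcases Nat.eq_zero_or_pos n with h4 | h4
      · subst h4
        rw [M_neg0 h1, Equiv.symm_apply_apply]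
      · obtain ⟨n, rfl⟩ := Nat.exists_eq_succ_of_ne_zero h4.ne'
        rw [M_negs h1]
        exact hT.st x n (n + 1) (by push_cast; omega)
  · obtain ⟨-, h2⟩ := c_zero hI (x := x) (by rw [h0]; decide)
    obtain ⟨-, h3⟩ := q_near hI (x := x) (by rw [h0]; decide)
    rw [M_one h0, M_zero h3]
    exact hT.st x m (n + 1) (by push_cast; omega)
  · obtain ⟨-, h2⟩ := c_zero hI (x := x) (by rw [h0]; decide)
    obtain ⟨-, h3⟩ := q_near hI (x := x) (by rw [h0]; decide)
    have h4 : n = m := by omega
    subst h4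
    rw [M_zero h3]
    rcases Nat.eq_zero_or_pos n with h4 | h4
    · subst h4
      rw [M_neg0 h0]
      exact swap hI hT h0 hok
    · obtain ⟨n, rfl⟩ := Nat.exists_eq_succ_of_ne_zero h4.ne'
      rw [M_negs h0]
      exact hT.st x (n + 1) n (by push_cast; omega)

/-- induction along a cycle, backwards -/
lemma cyc_ind' [Finite P] {f : Equiv.Perm P} {Q : P → Prop} (h : ∀ x, Q (f x) → Q x) {x y : P}
    (hxy : f.SameCycle x y) (hx : Q x) : Q y := by
  refine TS.cyc_ind (f := f⁻¹) (Q := Q) (fun z hz => ?_) (Equiv.Perm.sameCycle_inv.2 hxy) hx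
  apply h
  show Q (f (f.symm z))
  rw [Equiv.apply_symm_apply]
  exact hz

lemma rk_cyc [Finite P] (hrk : ∀ x, rk (E x) = rk x) {x y : P} (hxy : E.SameCycle x y) :
    rk y = rk x :=
  TS.cyc_ind (Q := fun z => rk z = rk x) (fun z hz => (hrk z).trans hz) hxy rfl

include hI in
/-- a face with known deep strands -/
lemma all_deep [Finite P] (hT : TS E τ v T) {val : P → Prop} {x : P} {w : Prop} {K : ℕ}
    (hok : Okc E q Ch rk T val (rk x))
    (hK : ∀ y, E.SameCycle x y → ∀ j, K ≤ j → (T y j ↔ w)) :
    ∀ y, E.SameCycle x y → ∀ m, (M E q T y m ↔ w) := by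
  have hdeep : ∀ m, K + 1 ≤ m → ∀ y, E.SameCycle x y → (M E q T y m ↔ w) := by
    intro m hm y hy
    rcases hI.qb y with h0 | h0 | h0
    · rw [M_zero h0]; exact hK y hy m (by omega)
    · rw [M_one h0]; exact hK y hy _ (by omega)
    · obtain ⟨m, rfl⟩ : ∃ m', m = m' + 1 := ⟨m - 1, by omega⟩
      rw [M_negs h0]; exact hK y hy m (by omega)
  have key : ∀ n m, K + 1 - m = n → ∀ y, E.SameCycle x y → (M E q T y m ↔ w) := by
    intro n
    induction n with
    | zero =>
      intro m hm
      exact hdeep m (by omega)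
    | succ n ih =>
      intro m hm y hy
      obtain ⟨z, hz, hcz⟩ := hI.reset x
      have hnext := ih (m + 1) (by omega)
      have hsg : ∀ u, E.SameCycle x u → sg u = sg x := fun u hu =>
        TS.cyc_ind (Q := fun u => sg u = sg x) (fun u h => (hI.sgE u).trans h) hu rfl
      have hokk : ∀ u, E.SameCycle x u → Okc E q Ch rk T val (rk u) := by
        intro u hu
        rw [rk_cyc hI.rkE hu]; exact hok
      rcases hI.sg1 x with hs | hs
      · -- pops, forwards
        have step : ∀ u, E.SameCycle x u → (c (E u) ≠ 0 ∨ (M E q T u m ↔ w)) →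
            (M E q T (E u) m ↔ w) := by
          intro u hu h
          by_cases h0 : c (E u) = 0
          · rw [tr hI hT (hokk u hu) m m (by omega)]
            exact h.resolve_left (fun h' => h' h0)
          · have h1 := (hI.cs (E u)).resolve_left h0
            rw [hI.sgE, hsg u hu, hs] at h1
            rw [tr hI hT (hokk u hu) m (m + 1) (by push_cast; omega)]
            exact hnext u hu
        have hz' : E.SameCycle x (E.symm z) := hz.trans ⟨-1, by simp⟩
        have h1 : E.SameCycle x z ∧ (M E q T z m ↔ w) := by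
          refine ⟨hz, ?_⟩
          have := step (E.symm z) hz' (Or.inl (by rw [Equiv.apply_symm_apply]; exact hcz))
          rwa [Equiv.apply_symm_apply] at this
        have h2 := TS.cyc_ind (f := E) (Q := fun u => E.SameCycle x u ∧ (M E q T u m ↔ w))
          (fun u hu => ⟨hu.1.trans ⟨1, by simp⟩, step u hu.1 (Or.inr hu.2)⟩)
          (hz.symm.trans hy) h1
        exact h2.2
      · -- pushes, backwards
        have step : ∀ u, E.SameCycle x u → (c (E u) ≠ 0 ∨ (M E q T (E u) m ↔ w)) →
            (M E q T u m ↔ w) := by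
          intro u hu h
          by_cases h0 : c (E u) = 0
          · rw [← tr hI hT (hokk u hu) m m (by omega)]
            exact h.resolve_left (fun h' => h' h0)
          · have h1 := (hI.cs (E u)).resolve_left h0
            rw [hI.sgE, hsg u hu, hs] at h1
            rw [← tr hI hT (hokk u hu) (m + 1) m (by push_cast; omega)]
            exact hnext (E u) (hu.trans ⟨1, by simp⟩)
        have hz' : E.SameCycle x (E.symm z) := hz.trans ⟨-1, by simp⟩
        have h1 : E.SameCycle x (E.symm z) ∧ (M E q T (E.symm z) m ↔ w) := by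
          refine ⟨hz', ?_⟩
          exact step (E.symm z) hz' (Or.inl (by rw [Equiv.apply_symm_apply]; exact hcz))
        have h2 := cyc_ind' (f := E) (Q := fun u => E.SameCycle x u ∧ (M E q T u m ↔ w))
          (fun u hu => by
            have hu' : E.SameCycle x u := hu.1.trans ⟨-1, by simp⟩
            exact ⟨hu', step u hu' (Or.inr hu.2)⟩)
          (hz'.symm.trans hy) h1
        exact h2.2
  intro y hy m
  exact key _ m rfl y hy

include hI in
/-- a face with known exchanged strands -/
lemma all_top [Finite P] (hT : TS E τ v T) {val : P → Prop} {x : P} {w : Prop}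
    (hok : Okc E q Ch rk T val (rk x))
    (hV : ∀ y, E.SameCycle x y → c y ≠ 0 → (V E v T y ↔ w)) :
    ∀ y, E.SameCycle x y → ∀ m, (M E q T y m ↔ w) := by
  obtain ⟨z, hz, hcz⟩ := hI.reset x
  have hz' : E.SameCycle x (E.symm z) := hz.trans ⟨-1, by simp⟩
  have hsg : ∀ u, E.SameCycle x u → sg u = sg x := fun u hu =>
    TS.cyc_ind (Q := fun u => sg u = sg x) (fun u h => (hI.sgE u).trans h) hu rfl
  have hokk : ∀ u, E.SameCycle x u → Okc E q Ch rk T val (rk u) := by
    intro u hu
    rw [rk_cyc hI.rkE hu]; exact hok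
  have hvc : ∀ u, E.SameCycle x u → c (E u) ≠ 0 → v (E u) = sg x := by
    intro u hu h0
    have h1 := (hI.cs (E u)).resolve_left h0
    rw [hI.sgE, hsg u hu] at h1
    have h2 := hI.cq u h0
    have h3 := hI.v_eq u
    rw [h3, h2.1, h2.2, h1]; ring
  have key : ∀ m, ∀ y, E.SameCycle x y → (M E q T y m ↔ w) := by
    intro m
    induction m with
    | zero =>
      rcases hI.sg1 x with hs | hs
      · -- pops: backwards
        have step : ∀ u, E.SameCycle x u → (c (E u) ≠ 0 ∨ (M E q T (E u) 0 ↔ w)) →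
            (M E q T u 0 ↔ w) := by
          intro u hu h
          by_cases h0 : c (E u) = 0
          · rw [← tr hI hT (hokk u hu) 0 0 (by rw [h0]; rfl)]
            exact h.resolve_left (fun h' => h' h0)
          · have h1 := hV (E u) (hu.trans ⟨1, by simp⟩) h0
            have h2 := hvc u hu h0
            unfold V at h1
            rw [if_pos (by omega), Equiv.symm_apply_apply] at h1
            rw [M_zero (hI.cq u h0).1]
            exact h1
        have h1 : E.SameCycle x (E.symm z) ∧ (M E q T (E.symm z) 0 ↔ w) :=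
          ⟨hz', step (E.symm z) hz' (Or.inl (by rw [Equiv.apply_symm_apply]; exact hcz))⟩
        intro y hy
        exact (cyc_ind' (f := E) (Q := fun u => E.SameCycle x u ∧ (M E q T u 0 ↔ w))
          (fun u hu => by
            have hu' : E.SameCycle x u := hu.1.trans ⟨-1, by simp⟩
            exact ⟨hu', step u hu' (Or.inr hu.2)⟩)
          (hz'.symm.trans hy) h1).2
      · -- pushes: forwards
        have step : ∀ u, E.SameCycle x u → (c (E u) ≠ 0 ∨ (M E q T u 0 ↔ w)) →
            (M E q T (E u) 0 ↔ w) := by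
          intro u hu h
          by_cases h0 : c (E u) = 0
          · rw [tr hI hT (hokk u hu) 0 0 (by rw [h0]; rfl)]
            exact h.resolve_left (fun h' => h' h0)
          · have h1 := hV (E u) (hu.trans ⟨1, by simp⟩) h0
            have h2 := hvc u hu h0
            unfold V at h1
            rw [if_neg (by omega)] at h1
            rw [M_zero (hI.cq u h0).2]
            exact h1
        have h1 : E.SameCycle x z ∧ (M E q T z 0 ↔ w) := by
          refine ⟨hz, ?_⟩
          have := step (E.symm z) hz' (Or.inl (by rw [Equiv.apply_symm_apply]; exact hcz))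
          rwa [Equiv.apply_symm_apply] at this
        intro y hy
        exact (TS.cyc_ind (f := E) (Q := fun u => E.SameCycle x u ∧ (M E q T u 0 ↔ w))
          (fun u hu => ⟨hu.1.trans ⟨1, by simp⟩, step u hu.1 (Or.inr hu.2)⟩)
          (hz.symm.trans hy) h1).2
    | succ m ih =>
      rcases hI.sg1 x with hs | hs
      · have step : ∀ u, E.SameCycle x u → (c (E u) ≠ 0 ∨ (M E q T (E u) (m + 1) ↔ w)) →
            (M E q T u (m + 1) ↔ w) := by
          intro u hu h
          by_cases h0 : c (E u) = 0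
          · rw [← tr hI hT (hokk u hu) (m + 1) (m + 1) (by rw [h0]; simp)]
            exact h.resolve_left (fun h' => h' h0)
          · have h1 := (hI.cs (E u)).resolve_left h0
            rw [hI.sgE, hsg u hu, hs] at h1
            rw [← tr hI hT (hokk u hu) m (m + 1) (by push_cast; omega)]
            exact ih (E u) (hu.trans ⟨1, by simp⟩)
        have h1 : E.SameCycle x (E.symm z) ∧ (M E q T (E.symm z) (m + 1) ↔ w) :=
          ⟨hz', step (E.symm z) hz' (Or.inl (by rw [Equiv.apply_symm_apply]; exact hcz))⟩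
        intro y hy
        exact (cyc_ind' (f := E) (Q := fun u => E.SameCycle x u ∧ (M E q T u (m + 1) ↔ w))
          (fun u hu => by
            have hu' : E.SameCycle x u := hu.1.trans ⟨-1, by simp⟩
            exact ⟨hu', step u hu' (Or.inr hu.2)⟩)
          (hz'.symm.trans hy) h1).2
      · have step : ∀ u, E.SameCycle x u → (c (E u) ≠ 0 ∨ (M E q T u (m + 1) ↔ w)) →
            (M E q T (E u) (m + 1) ↔ w) := by
          intro u hu h
          by_cases h0 : c (E u) = 0
          · rw [tr hI hT (hokk u hu) (m + 1) (m + 1) (by rw [h0]; simp)]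
            exact h.resolve_left (fun h' => h' h0)
          · have h1 := (hI.cs (E u)).resolve_left h0
            rw [hI.sgE, hsg u hu, hs] at h1
            rw [tr hI hT (hokk u hu) (m + 1) m (by push_cast; omega)]
            exact ih u hu
        have h1 : E.SameCycle x z ∧ (M E q T z (m + 1) ↔ w) := by
          refine ⟨hz, ?_⟩
          have := step (E.symm z) hz' (Or.inl (by rw [Equiv.apply_symm_apply]; exact hcz))
          rwa [Equiv.apply_symm_apply] at this
        intro y hy
        exact (TS.cyc_ind (f := E) (Q := fun u => E.SameCycle x u ∧ (M E q T u (m + 1) ↔ w))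
          (fun u hu => ⟨hu.1.trans ⟨1, by simp⟩, step u hu.1 (Or.inr hu.2)⟩)
          (hz.symm.trans hy) h1).2
  intro y hy m
  exact key m y hy

include hI in
/-- **connectedness** of one region: the deep strands of the faces that are not the root are
identified, the ones of the root are arbitrary -/
theorem conn [Finite P] (hT : TS E τ v T) {Rt ρ : P → Prop} {K : ℕ} {x₀ : P}
    (hR : ∀ x, Rt x ↔ E.SameCycle x₀ x) (hρ : ∀ x, ρ (E x) ↔ ρ x)
    (hK : ∀ x j, ¬ Rt x → K ≤ j → (T x j ↔ ρ x)) (hne : ∀ b, Ch b → ¬ Rt b)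
    (face : ∀ x, ¬ Rt x → (∃ b, E.SameCycle x b ∧ Ch b) ∨
      ∃ y, Rt y ∧ c y ≠ 0 ∧ E.SameCycle x (τ y))
    (hroot : (∃ p, Rt p ∧ Rt (τ p) ∧ c p ≠ 0 ∧ ∀ y, Rt y → c y ≠ 0 → y = p ∨ y = τ p) ∨
      (∃ s, ¬ Rt s ∧ ∀ y, Rt y → c y ≠ 0 → c (τ y) ≠ 0 ∧ E.SameCycle s (τ y))) :
    ∃ w : Prop, (∀ x j, T x j ↔ w) ∧ ∀ x, ¬ Rt x → (ρ x ↔ w) := by
  classical
  have := Fintype.ofFinite P
  obtain ⟨B, hB⟩ : ∃ B, ∀ x, rk x ≤ B :=
    ⟨∑ x, rk x, fun x => Finset.single_le_sum (f := rk) (fun _ _ => Nat.zero_le _)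
      (Finset.mem_univ x)⟩
  have hRc : ∀ {x y}, E.SameCycle x y → (Rt x ↔ Rt y) := by
    intro x y hxy
    rw [hR, hR]
    exact ⟨fun h => h.trans hxy, fun h => h.trans hxy.symm⟩
  have hρc : ∀ {x y}, E.SameCycle x y → (ρ x ↔ ρ y) := fun hxy => TS.rho_cyc hρ hxy
  -- the faces that are not the root
  have hface : ∀ n x, B - rk x = n → ¬ Rt x →
      ∀ y, E.SameCycle x y → ∀ m, (M E q T y m ↔ ρ x) := by
    intro n
    induction n using Nat.strong_induction_on with
    | _ n ih =>
      intro x hx hxR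
      refine all_deep hI hT (val := ρ) (K := K) ?_ ?_
      · intro b hb hlt
        have := hB b
        exact ih (B - rk b) (by omega) b rfl (hne b hb)
      · intro y hy j hj
        rw [hK y j (fun h => hxR ((hRc hy).2 h)) hj]
        exact (hρc hy).symm
  have hokR : ∀ n, Okc E q Ch rk T ρ n := fun n b hb _ => hface _ b rfl (hne b hb)
  -- strands at a used ribbon
  have hVτ : ∀ y, c y ≠ 0 → (V E v T y ↔ V E v T (τ y)) := by
    intro y hy
    obtain ⟨z, rfl⟩ := E.surjective y
    have h1 := hI.cq z hy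
    have h2 := hI.v_eq z
    have h3 := hI.cs (E z)
    have h4 := hI.sg1 (E z)
    rw [V_W]
    exact W_V hT (by rcases h4 with h4 | h4 <;> omega)
  have hVρ : ∀ y, ¬ Rt y → c y ≠ 0 → (V E v T y ↔ ρ y) := by
    intro y hyR hy
    have h1 := hface _ y rfl hyR
    obtain ⟨z, rfl⟩ := E.surjective y
    have h2 := hI.cq z hy
    have h3 := h1 z ⟨-1, by simp⟩ 0
    have h4 := h1 (E z) (Equiv.Perm.SameCycle.refl _ _) 0
    rw [M_zero h2.1] at h3
    rw [M_zero h2.2] at h4
    unfold V
    rw [Equiv.symm_apply_apply]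
    split_ifs
    · exact h3
    · exact h4
  -- the root face
  obtain ⟨w, hw, hws⟩ : ∃ w : Prop, (∀ y, Rt y → c y ≠ 0 → (V E v T y ↔ w)) ∧
      (∀ y, Rt y → c y ≠ 0 → ¬ Rt (τ y) → (ρ (τ y) ↔ w)) := by
    rcases hroot with ⟨p, hp, hp', hcp, hall⟩ | ⟨s, hs, hall⟩
    · refine ⟨V E v T p, ?_, ?_⟩
      · intro y hy hcy
        rcases hall y hy hcy with rfl | rfl
        · exact Iff.rfl
        · exact (hVτ p hcp).symm
      · intro y hy hcy hn
        exfalso
        rcases hall y hy hcy with rfl | rfl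
        · exact hn hp'
        · rw [hT.tt] at hn; exact hn hp
    · refine ⟨ρ s, ?_, ?_⟩
      · intro y hy hcy
        obtain ⟨h1, h2⟩ := hall y hy hcy
        rw [hVτ y hcy, hVρ (τ y) (fun h => hs ((hRc h2).2 h)) h1]
        exact (hρc h2).symm
      · intro y hy hcy _
        exact (hρc (hall y hy hcy).2).symm
  have hrootM : ∀ y, Rt y → ∀ m, (M E q T y m ↔ w) := by
    intro y hy
    refine all_top hI hT (val := ρ) (x := y) (hokR _) ?_ y (Equiv.Perm.SameCycle.refl _ _)
    intro z hz
    exact hw z ((hRc hz).1 hy)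
  have hval : ∀ y, ∀ m, (M E q T y m ↔ if Rt y then w else ρ y) := by
    intro y m
    split_ifs with h
    · exact hrootM y h m
    · exact hface _ y rfl h y (Equiv.Perm.SameCycle.refl _ _) m
  -- the strand of a vertex
  have hvert : ∀ x, (q x = 1 ∨ Ch x) → ∃ h, q h = -1 ∧ (Ch x → rk h < rk x) ∧
      (W E v T x ↔ if Rt h then w else ρ h) := by
    intro x hx
    obtain ⟨h, n, h1, h2, h3⟩ := hI.par x hx
    refine ⟨h, h1, ?_, ?_⟩
    · intro hc
      rcases h3 n (by omega) with h4 | h4
      · rw [h2] at h4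
        have := (v_ch hI hc).2.2.1
        omega
      · rw [h2] at h4
        exact h4.2
    · have h4 := round hI hT h1 (hokR _) (n + 1) h3
      rw [h2] at h4
      rw [h4]
      obtain ⟨h5, h6⟩ := v_used hI (x := h) (by rw [h1]; decide)
      unfold W
      rw [if_neg (by omega)]
      have h7 := hval (E h) 0
      rw [M_zero (q_near hI (x := h) (by rw [h1]; decide)).2] at h7
      rw [h7]
      have h8 : Rt (E h) ↔ Rt h := (hRc (⟨1, by simp⟩ : E.SameCycle h (E h))).symm
      have h9 := hρ h
      by_cases h10 : Rt h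
      · rw [if_pos h10, if_pos (h8.2 h10)]
      · rw [if_neg h10, if_neg (fun h => h10 (h8.1 h))]
        exact h9
  have hρw : ∀ n x, rk x = n → ¬ Rt x → (ρ x ↔ w) := by
    intro n
    induction n using Nat.strong_induction_on with
    | _ n ih =>
      intro x hx hxR
      rcases face x hxR with ⟨b, hb, hbC⟩ | ⟨y, hy, hcy, hxy⟩
      · rw [hρc hb]
        obtain ⟨h, h1, h2, h3⟩ := hvert b (Or.inr hbC)
        have h4 := h2 hbC
        have h5 := rk_cyc hI.rkE hb
        have h6 := VW_child hI hbC (hface _ b rfl (hne b hbC))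
        rw [← h6.2, h3]
        split_ifs with h7
        · exact Iff.rfl
        · exact ih (rk h) (by omega) h rfl h7
      · rw [hρc hxy]
        exact hws y hy hcy (fun h => hxR ((hRc hxy).2 h))
  have hM : ∀ y m, (M E q T y m ↔ w) := by
    intro y m
    rw [hval y m]
    split_ifs with h
    · exact Iff.rfl
    · exact hρw _ y rfl h
  refine ⟨w, ?_, fun x hx => hρw _ x rfl hx⟩
  intro x j
  rcases hI.qb x with h0 | h0 | h0
  · have := hM x j
    rwa [M_zero h0] at this
  · rcases Nat.eq_zero_or_pos j with h1 | h1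
    · subst h1
      obtain ⟨h, h2, h3, h4⟩ := hvert x (Or.inl h0)
      have h5 := v_used hI (x := x) (by rw [h0]; decide)
      have h6 : W E v T x = T x 0 := by
        unfold W; rw [if_pos (by omega)]
      rw [← h6, h4]
      split_ifs with h7
      · exact Iff.rfl
      · exact hρw _ h rfl h7
    · obtain ⟨j, rfl⟩ := Nat.exists_eq_succ_of_ne_zero h1.ne'
      have := hM x j
      rwa [M_one h0] at this
  · have := hM x (j + 1)
    rwa [M_negs h0] at this

end

end InsL

end Pool.Agent.MP42.EO
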