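import Pool.Agent.MP42.EO.Cls
import Pool.Agent.MP42.EO.InsL

/-!
# The local facts of a spine

`E` = next ribbon to the east on the same face, `τ` = other side of the ribbon, on the darts of the
ribbons.  `Big x`: the vertex at the east end of `x` has at least three ribbons.
-/

set_option autoImplicit false

namespace Pool.Agent.MP42.EO

open Pool.Agent.MP42.NE

/-- the vertex at the east end of `x` has at least three ribbons -/
def Big {P : Type*} (E : Equiv.Perm P) (τ : P → P) (x : P) : Prop :=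
  nu E τ x ≠ x ∧ nu E τ (nu E τ x) ≠ x

/-- regions -/
def Reg {P : Type*} (E : Equiv.Perm P) (τ : P → P) (x y : P) : Prop :=
  Relation.EqvGen (fun a b => b = E a ∨ b = τ a) x y

/-- The local facts.  `MR x`: middle real unit. -/
structure Loc {P : Type*} (E : Equiv.Perm P) (τ : P → P) (ok : P → Bool → Bool → Bool → Prop)
    (MR : P → Prop) : Prop where
  ττ : ∀ x, τ (τ x) = x
  ne : ∀ x, τ x ≠ x
  oks : ∀ x s a b, ok x s a b → ok (τ x) s b a
  n3 : ∀ x, Big E τ x → nu E τ (nu E τ (nu E τ x)) = x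
  g3 : ∀ x, ¬ (Big E τ x ∧ Big E τ (τ x))
  MRb : ∀ x, MR x → ¬ Big E τ x
  MRτ : ∀ x, MR x → MR (τ x)
  MRok : ∀ x, MR x → ∀ s a, ok x s a a
  /-- the way round the third corner -/
  g2 : ∀ (q : P) (k : ℕ), MR q → Big E τ ((E ^ k) q) → (∀ i < k, ¬ Big E τ ((E ^ i) q)) →
    ∃ a b c, ok (nu E τ ((E ^ k) q)) false b a ∧ ok (nu E τ (nu E τ ((E ^ k) q))) true c b
  /-- the two faces of a ribbon are connected over middle real units -/
  conn : ∀ ψ : P → Prop, (∀ x, ψ (E x) ↔ ψ x) → (∀ x, MR x → (ψ (τ x) ↔ ψ x)) →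
    ∀ x, (ψ (τ x) ↔ ψ x)
  /-- regions with one face contain a real ribbon and a gate -/
  leaf : ∀ x, (∀ y, Reg E τ x y → E.SameCycle x y) →
    (∃ y, Reg E τ x y ∧ ∀ s a, ok y s a a) ∧ ∃ y, Reg E τ x y ∧ ∃ a, ∀ s, ok y s a (!a)

end Pool.Agent.MP42.EO
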