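import Pool.Agent.MP42.NG.Loc8

/-!
# The ribbons at a grid point: the local table (owner helper70)

Local states as in `NG/Loc8`.  `rib a b q`: the state `q` is a ribbon dart of the spine system with
the axes `a`, `b` (its east end is the grid point).  `nuL`: the next ribbon dart of the rotation.
-/

set_option autoImplicit false

namespace Pool.Agent.MP42NG.Loc8

/-- the ribbon darts -/
def rib (a b q : ℕ) : Bool :=
  (eax (q % 8) (q / 8) == a) || ((q / 8 == a) && !(eax (q % 8) (q / 8) == b))

/-- rotation to the next ribbon dart -/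
def nuL (a b m q : ℕ) : ℕ :=
  bif rib a b (kap m q) then kap m q
  else bif rib a b (kap m (kap m q)) then kap m (kap m q) else kap m (kap m (kap m q))

/-- the axis of the north direction -/
def nax (i a : ℕ) : ℕ := 3 - a - eax i a

/-- the inverse rotation -/
def kpi (m q : ℕ) : ℕ :=
  bif m.testBit (q % 8 ^^^ 2 ^ (q / 8) ^^^ 2 ^ nax (q % 8) (q / 8)) then
    (q % 8 ^^^ 2 ^ (q / 8) ^^^ 2 ^ nax (q % 8) (q / 8)) + 8 * nax (q % 8) (q / 8)
  else bif m.testBit (q % 8 ^^^ 2 ^ nax (q % 8) (q / 8)) then
    (q % 8 ^^^ 2 ^ nax (q % 8) (q / 8)) + 8 * (q / 8)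
  else q % 8 + 8 * nax (q % 8) (q / 8)

/-- good pattern: solid part and void part are connected -/
def gd (m : ℕ) : Bool := (flood m == m) && (flood (255 - m) == 255 - m)

/-- a ribbon dart of the pattern -/
def rd (a b m q : ℕ) : Bool := (stMask m).testBit q && rib a b q

/-- valence at least three -/
def bg (a b m q : ℕ) : Bool := !(nuL a b m q == q) && !(nuL a b m (nuL a b m q) == q)

/-- crossing the ribbon `q` with the sign `s` and the types `t`, `t'` -/
def okL (a b m q : ℕ) (s t t' : Bool) : Bool :=
  bif q / 8 == a then t == t'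
  else bif q / 8 == b then (bif kpi m q / 8 == b then (t == t') && (!s || t) else t && !t')
  else (bif kpi m q / 8 == b then !t && t' else (t == t') && (s || !t))

/-- no bad tripod -/
def noB (a b m : ℕ) : Bool := (List.range 24).all fun q => !(rd a b m q) || !(bg a b m q) ||
  (nuL a b m (nuL a b m (nuL a b m q)) == q)

/-- way round the third corner, for one dart -/
def way (a b m q : ℕ) : Bool :=
  [false, true].any fun t1 => [false, true].any fun t2 => [false, true].any fun t3 =>
    okL a b m (nuL a b m q) false t2 t1 && okL a b m (nuL a b m (nuL a b m q)) true t3 t2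

/-- ways round the third corner -/
def noK (a b m : ℕ) : Bool := (List.range 24).all fun q => !(rd a b m q) || !(bg a b m q) ||
  way a b m q

/-! ## Table -/

/-- check of one pattern -/
def allT (f : ℕ → ℕ → ℕ → ℕ → Bool) (m : ℕ) : Bool :=
  !(gd m) || (List.range 3).all fun a => (List.range 3).all fun b => (a == b) ||
    (List.range 24).all fun q => !(rd a b m q) || f a b m q

lemma allT_spec {f : ℕ → ℕ → ℕ → ℕ → Bool} {m : ℕ} (h : allT f m = true) (hg : gd m = true)
    {a b q : ℕ} (ha : a < 3) (hb : b < 3) (hab : a ≠ b) (hr : rd a b m q = true) (hq : q < 24) :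
    f a b m q = true := by
  unfold allT at h
  rw [hg] at h
  simp only [Bool.not_true, Bool.false_or, List.all_eq_true, List.mem_range, Bool.or_eq_true,
    beq_iff_eq] at h
  have h1 := h a ha b hb
  rcases h1 with h1 | h1
  · exact absurd h1 hab
  · rcases h1 q hq with h2 | h2
    · rw [hr] at h2; simp at h2
    · exact h2

/-- exchange across an axis -/
def shx (i m : ℕ) : ℕ := bif i == 0 then sh0 m else bif i == 1 then sh1 m else sh2 m

/-- the third axis -/
def thd (a b : ℕ) : ℕ := 3 - a - b

/-- the boxes on the side `s` of the plane orthogonal to `a` -/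
def idx (a : ℕ) (s : Bool) (k : ℕ) : ℕ := k % 2 ^ a + s.toNat * 2 ^ a + k / 2 ^ a * 2 ^ (a + 1)

/-- number of boxes on the side `s` of the plane orthogonal to `a` whose solidity agrees with the
parity -/
def agr (a b m : ℕ) (s : Bool) : ℕ :=
  (List.range 4).countP fun k => m.testBit (idx a s k) ==
    (((k.testBit 0) ^^ (k.testBit 1)) ^^ ((b + 3 - a) % 3 == 2))

lemma idx_flip : ∀ a < 3, ∀ s : Bool, ∀ k < 4, idx a (!s) k = idx a s k ^^^ 2 ^ a ∧
    idx a s k < 8 ∧ (idx a s k).testBit a = s := by decide

lemma flip2 : ∀ a b i : Fin 3, a ≠ b → i ≠ a → ∀ q < 8,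
    (q ^^^ 2 ^ (b : ℕ) ^^^ 2 ^ thd a b).testBit (i : ℕ) = !q.testBit (i : ℕ) := by decide

lemma flip_flip : ∀ q < 8, ∀ i < 3, ∀ j < 3, q ^^^ 2 ^ i ^^^ 2 ^ j < 8 ∧
    (q ^^^ 2 ^ i ^^^ 2 ^ j) ^^^ 2 ^ i ^^^ 2 ^ j = q := by decide

lemma thd_lt : ∀ a < 3, ∀ b < 3, a ≠ b → thd a b < 3 ∧ thd a b ≠ a ∧ thd a b ≠ b := by decide

/-- growing along the ribbon whose east end is here -/
def gr (a b m : ℕ) (s : Bool) : Bool :=
  bif s then Nat.ble (agr a b m true) 1 else Nat.ble 3 (agr a b m false)

/-- growing along the ribbon away from here -/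
def go (a b m : ℕ) (s : Bool) : Bool :=
  bif s then Nat.ble 3 (agr a b m true) else Nat.ble (agr a b m false) 1

/-- a wall dart -/
def wl (a q : ℕ) : Bool := eax (q % 8) (q / 8) == a

lemma kpi_all : ∀ m < 256, ((List.range 24).all fun q => !((stMask m).testBit q) ||
    (kpi m (kap m q) == q)) = true := by decide +kernel

/-- the first facts -/
def f1 (a b m q : ℕ) : Bool :=
  rd a b m (nuL a b m q) &&
  -- big vertices depend on the three coordinates
  (!(bg a b m q) || ((List.range 3).all fun i => !(shx i m == m))) &&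
  -- interior of a facet
  (!(shx b m == m) || !(shx (thd a b) m == m) || !(q / 8 == a) ||
    (nuL a b m q == (q % 8 ^^^ 2 ^ b ^^^ 2 ^ thd a b) + 8 * a))

lemma f1_all : ∀ m < 256, allT f1 m = true := by decide +kernel

/-- the walls -/
def f2 (a b m q : ℕ) : Bool :=
  (!(wl a q) || !(wl a (nuL a b m q)) || (nuL a b m q == q) ||
    !((q % 8).testBit a == (nuL a b m q % 8).testBit a)) &&
  (!(wl a q) || !(wl a (nuL a b m (nuL a b m q))) || (nuL a b m (nuL a b m q) == q) ||
    !((q % 8).testBit a == (nuL a b m (nuL a b m q) % 8).testBit a))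

lemma f2_all : ∀ m < 256, allT f2 m = true := by decide +kernel

/-- the poles -/
def f3 (a b m q : ℕ) : Bool :=
  !(nuL a b m q == q) || (wl a q && okL a b m q true false true &&
    okL a b m q false false true && go a b m ((q % 8).testBit a))

lemma f3_all : ∀ m < 256, allT f3 m = true := by decide +kernel

/-- growing -/
def f4 (a b m q : ℕ) : Bool :=
  !(noB a b m) || !(wl a q) || !(gr a b m ((q % 8).testBit a)) || (nuL a b m q / 8 == a) ||
    (nuL a b m (nuL a b m q) / 8 == a) ||
    (wl a (nuL a b m q) && ((nuL a b m q % 8).testBit a == !((q % 8).testBit a)) &&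
      go a b m (!((q % 8).testBit a)))

lemma f4_all : ∀ m < 256, allT f4 m = true := by decide +kernel

end Pool.Agent.MP42NG.Loc8
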