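import Pool.Agent.MP42.EO.SH
import Pool.Agent.MP42.EO.VL
import Pool.Agent.MP42.EO.If
import Pool.Agent.MP42.NG.Verts

/-!
# The ribbons of the spine system at a grid point (owner helper70)

`nuF`: the next ribbon dart of the rotation around the east end of a ribbon dart; it is `nu` of the
first return permutation of the spine system.
-/

set_option autoImplicit false
set_option linter.unusedSectionVars false

namespace Pool.Agent.MP42.EO

open Pool.Agent.Helper55.UNF Pool.Agent.Helper55.UNF.GridSolid Pool.Agent.MP42.NE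
open Pool.Agent.MP42.Geo Pool.Agent.MP42NG Pool.Agent.MP42
open Loc8

variable {Q : GridSolid} {a b : Fin 3}

/-! ## Frames and local states -/

/-- the frames of the ribbon darts -/
def RibF (a b : Fin 3) (s : Q.FSt) : Prop := s.1.e.1 = a ∨ (s.1.d.1 = a ∧ s.1.e.1 ≠ b)

instance (s : Q.FSt) : Decidable (RibF a b s) := by unfold RibF; infer_instance

lemma loc_lt (s : Q.FSt) : loc s < 24 := by
  have h1 := cr_lt s.1.d s.1.e s.2.2
  have h2 := s.1.d.1.2
  unfold loc; omega

lemma eax_loc (s : Q.FSt) : eax (loc s % 8) (loc s / 8) = (s.1.e.1 : ℕ) := by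
  rw [loc_mod, loc_div, eax_cr _ _ s.2.2]

lemma rib_loc (s : Q.FSt) : rib a b (loc s) = true ↔ RibF a b s := by
  unfold rib RibF
  rw [eax_loc, loc_div]
  simp only [Bool.or_eq_true, beq_iff_eq, Bool.and_eq_true, Bool.not_eq_true', beq_eq_false_iff_ne,
    ne_eq, Fin.val_inj]

lemma rib_loc' (s : Q.FSt) : rib a b (loc s) = decide (RibF a b s) := by
  rw [Bool.eq_iff_iff, rib_loc, decide_eq_true_iff]

lemma rd_loc {s : Q.FSt} (h : RibF a b s) : rd a b (pat Q (cor s.1)) (loc s) = true := by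
  unfold rd
  rw [loc_mem, (rib_loc s).2 h]; rfl

/-- the next ribbon dart -/
def nuF (a b : Fin 3) (s : Q.FSt) : Q.FSt :=
  if RibF a b (kappa s) then kappa s
  else if RibF a b (kappa (kappa s)) then kappa (kappa s) else kappa (kappa (kappa s))

lemma nuF_cor (s : Q.FSt) : cor (nuF a b s).1 = cor s.1 := by
  unfold nuF
  split_ifs <;> simp only [kappa_cor]

lemma nuF_loc (s : Q.FSt) : loc (nuF a b s) = nuL a b (pat Q (cor s.1)) (loc s) := by
  unfold nuF nuL
  rw [← kap_loc, rib_loc']
  have e : kap (pat Q (cor s.1)) (loc (kappa s)) = loc (kappa (kappa s)) := by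
    rw [kap_loc (kappa s), kappa_cor]
  have e' : kap (pat Q (cor s.1)) (loc (kappa (kappa s))) = loc (kappa (kappa (kappa s))) := by
    rw [kap_loc (kappa (kappa s)), kappa_cor, kappa_cor]
  rw [e, rib_loc', e']
  by_cases h1 : RibF a b (kappa s)
  · rw [if_pos h1, decide_eq_true h1, cond_true]
  · rw [if_neg h1, decide_eq_false h1, cond_false]
    by_cases h2 : RibF a b (kappa (kappa s))
    · rw [if_pos h2, decide_eq_true h2, cond_true]
    · rw [if_neg h2, decide_eq_false h2, cond_false]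

lemma gd_pat (hM : Q.IsManifold) (v : Fin 3 → ℤ) : gd (pat Q v) = true := by
  have h1 : flood (pat Q v) = pat Q v := by
    apply flood_eq _ (pat_lt v)
    have : {ε | (pat Q v).testBit (num ε) = true} = {ε | corner v ε ∈ Q.cells} := by
      ext ε; exact pat_solid v ε
    rw [this]
    exact (hM.2 v).1
  have h2 : flood (255 - pat Q v) = 255 - pat Q v := by
    apply flood_eq _ (by have := pat_lt (P := Q) v; omega)
    have : {ε | (255 - pat Q v).testBit (num ε) = true} = {ε | corner v ε ∉ Q.cells} := by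
      ext ε; exact pat_void v ε
    rw [this]
    exact (hM.2 v).2
  unfold gd
  rw [h1, h2]; simp

/-- reading off a local fact -/
lemma fact {f : ℕ → ℕ → ℕ → ℕ → Bool} (hf : ∀ m < 256, allT f m = true) (hM : Q.IsManifold)
    (hab : a ≠ b) {s : Q.FSt} (h : RibF a b s) :
    f a b (pat Q (cor s.1)) (loc s) = true :=
  allT_spec (hf _ (pat_lt _)) (gd_pat hM _) a.2 b.2 (fun h' => hab (Fin.ext h')) (rd_loc h)
    (loc_lt s)

lemma nuF_rib (hM : Q.IsManifold) (hab : a ≠ b) {s : Q.FSt} (h : RibF a b s) :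
    RibF a b (nuF a b s) := by
  have h1 := fact f1_all hM hab h
  unfold f1 at h1
  simp only [Bool.and_eq_true] at h1
  have h2 := h1.1.1
  rw [← nuF_loc] at h2
  unfold rd at h2
  rw [Bool.and_eq_true] at h2
  exact (rib_loc _).1 h2.2

/-- local equality is equality -/
lemma eq_iff_loc {s t : Q.FSt} (h : cor s.1 = cor t.1) : s = t ↔ loc s = loc t :=
  ⟨fun h' => by rw [h'], fun h' => loc_inj s t h h'⟩

/-! ## The other side of a ribbon -/

/-- the other side -/
def taF (a : Fin 3) (s : Q.FSt) : Q.FSt := if s.1.d.1 = a then s.r2 else s.stN.r2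

lemma isD_ribF {s : Q.FSt} (h : RibF a b s) : IsD a s := by
  rcases h with h | h
  · exact Or.inr h
  · exact Or.inl h.1

lemma ribF_iff {t : HD Q a} (hab : a ≠ b) : Rib b t ↔ RibF a b t.1 := by
  unfold Rib RibF
  constructor
  · intro h
    by_cases h1 : t.1.1.d.1 = a
    · exact Or.inr ⟨h1, fun h2 => h ⟨h1, h2⟩⟩
    · exact Or.inl (t.2.resolve_left h1)
  · rintro (h | h) ⟨h1, h2⟩
    · exact hab (h.symm.trans h2)
    · exact h.2 h2

lemma ta_val (hab : a ≠ b) {t : HD Q a} (h : Rib b t) :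
    ((sysH Q a b hab).ta t).1 = taF a t.1 := by
  show hr a b (hN a t.1) = _
  unfold taF
  by_cases h1 : t.1.1.d.1 = a
  · have h2 : ¬ t.1.1.e.1 = b := fun h2 => h ⟨h1, h2⟩
    rw [if_pos h1, hN_cap h1, hr_non (t := t.1.rL) h1 ((rL_b hab h1).2 h2), FSt.rL_rL]
  · rw [if_neg h1, hN_wall h1, hr_wall (wall_stN (t.2.resolve_left h1))]

lemma e_wall {s : Q.FSt} (h : RibF a b s) (h1 : ¬ s.1.d.1 = a) : s.1.e.1 = a :=
  h.resolve_right fun h' => h1 h'.1

lemma taF_rib {s : Q.FSt} (h : RibF a b s) : RibF a b (taF a s) := by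
  unfold taF
  by_cases h1 : s.1.d.1 = a
  · rw [if_pos h1]
    exact h
  · rw [if_neg h1]
    left
    show s.stN.1.e.1 = a
    rw [FSt.stN_e]; exact e_wall h h1

lemma taF_taF {s : Q.FSt} (h : RibF a b s) : taF a (taF a s) = s := by
  unfold taF
  by_cases h1 : s.1.d.1 = a
  · rw [if_pos h1, if_pos (show s.r2.1.d.1 = a from h1), FSt.r2_r2]
  · have h2 := wall_stN (e_wall h h1)
    rw [if_neg h1, if_neg (show ¬ s.stN.r2.1.d.1 = a from h2), FSt.stN_inv, FSt.r2_r2]

lemma taF_ne {s : Q.FSt} : taF a s ≠ s := by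
  unfold taF
  intro h
  split_ifs at h with h1
  · have h4 : opp s.1.e = s.1.e := congrArg (fun s : Q.FSt => s.1.e) h
    have h5 := congrArg Prod.snd h4
    revert h5
    show ¬ ((!s.1.e.2) = s.1.e.2)
    cases s.1.e.2 <;> decide
  · have h3 : s.stN.r2.facet = s.facet := congrArg FSt.facet h
    exact FSt.stN_facet_ne s h3

/-! ## The next ribbon dart is `nu` -/

/-- the step to the east of a dart that is no ribbon dart -/
lemma rib_E_of_not (hab : a ≠ b) {t : HD Q a} (h : ¬ Rib b t) :
    Rib b ((sysH Q a b hab).E t) := by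
  unfold Rib at h
  rw [not_not] at h
  obtain ⟨h1, h2⟩ := h
  rw [ribF_iff hab]
  show RibF a b (hfx a b t.1.stE)
  unfold hfx
  by_cases h3 : t.1.stE.1.d.1 = a
  · rw [if_pos h3]
    by_cases h4 : t.1.stE.1.e.1 = b
    · rw [if_pos h4]
      exact Or.inr ⟨h3, fun h5 => (rR_b hab h3).1 h5 h4⟩
    · exfalso
      -- a flat step keeps the east direction
      have h5 := t.1.2.2
      revert h3 h4
      show (t.1.1.stepE Q).d.1 = a → ¬ (t.1.1.stepE Q).e.1 = b → False
      unfold St.stepE
      split_ifs with c1 c2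
      · intro h3 _
        exact h5 (h1.trans (show a = t.1.1.e.1 from h3.symm))
      · intro _ h4; exact h4 h2
      · intro h3 _
        exact h5 (h1.trans (show a = t.1.1.e.1 from h3.symm))
  · rw [if_neg h3]
    left
    exact (isD_stE (a := a) (Or.inl h1)).resolve_left h3

lemma ret_one (hab : a ≠ b) (x : {t : HD Q a // Rib b t})
    (h : Rib b ((sysH Q a b hab).E x.1)) :
    (ret (sysH Q a b hab).E (Rib b) x).1 = (sysH Q a b hab).E x.1 := by
  rw [ret_val]
  exact retFun_step h

lemma ret_two (hab : a ≠ b) (x : {t : HD Q a // Rib b t})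
    (h : ¬ Rib b ((sysH Q a b hab).E x.1)) :
    (ret (sysH Q a b hab).E (Rib b) x).1 = (sysH Q a b hab).E ((sysH Q a b hab).E x.1) := by
  rw [ret_val, retFun_step' h ⟨0, x.2⟩]
  exact retFun_step (rib_E_of_not hab h)

/-- turning around a wall dart -/
lemma stN_r2_eq (t : Q.FSt) : t.stN.r2 = kappa t.rL := by
  show t.rL.stE.rR.r2 = t.rL.stE.rL
  rw [FSt.rR_r2]

lemma not_ribF_rL_wall {t : Q.FSt} (h : t.1.e.1 = a) (h1 : ¬ t.1.d.1 = a) :
    ¬ RibF a b t.rL := by
  rintro (h2 | h2)
  · exact cross_axis_right _ _ t.2.2 ((show t.rL.1.e.1 = a from h2).trans h.symm)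
  · exact h1 h2.1

/-- **`nu` of the first return permutation** -/
theorem nu_val (hab : a ≠ b) (x : {t : HD Q a // Rib b t}) :
    ((sysH Q a b hab).ta (ret (sysH Q a b hab).E (Rib b) x).1).1 = nuF a b x.1.1 := by
  set s := x.1.1 with hs
  have hD : IsD a s.stE := isD_stE x.1.2
  have hE1 : ((sysH Q a b hab).E x.1).1 = hfx a b s.stE := rfl
  have hk : kappa s = s.stE.rL := rfl
  by_cases h1 : s.stE.1.d.1 = a
  · by_cases h2 : s.stE.1.e.1 = b
    · -- nominal after one step
      have e : hfx a b s.stE = s.stE.rR := hfx_non h1 h2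
      have hr1 : RibF a b s.stE.rR := Or.inr ⟨h1, fun h5 => (rR_b hab h1).1 h5 h2⟩
      have hr2 : Rib b ((sysH Q a b hab).E x.1) := by
        rw [ribF_iff hab, hE1, e]; exact hr1
      rw [ret_one hab x hr2, ta_val hab hr2, hE1, e]
      have hr3 : RibF a b (kappa s) := Or.inr ⟨h1, fun h5 => (rL_b hab h1).1 h5 h2⟩
      unfold nuF taF
      rw [if_pos hr3, if_pos (show s.stE.rR.1.d.1 = a from h1), FSt.rR_r2, hk]
    · -- two steps
      have e : hfx a b s.stE = s.stE.rL := hfx_nom h1 h2
      have hb : s.stE.rL.1.e.1 = b := (rL_b hab h1).2 h2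
      have hr2 : ¬ Rib b ((sysH Q a b hab).E x.1) := by
        rw [ribF_iff hab, hE1, e]
        rintro (h3 | h3)
        · exact hab (h3.symm.trans hb)
        · exact h3.2 hb
      have hr3 : ¬ RibF a b (kappa s) := by
        rw [hk]
        rintro (h3 | h3)
        · exact hab (h3.symm.trans hb)
        · exact h3.2 hb
      have hEE : ((sysH Q a b hab).E ((sysH Q a b hab).E x.1)).1 = hfx a b s.stE.rL.stE := by
        show hfx a b (hfx a b s.stE).stE = _
        rw [e]
      have hkk : kappa (kappa s) = s.stE.rL.stE.rL := rfl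
      have hrr := rib_E_of_not hab hr2
      rw [ret_two hab x hr2, ta_val hab hrr, hEE]
      have hrF := (ribF_iff hab).1 hrr
      rw [hEE] at hrF
      by_cases h3 : s.stE.rL.stE.1.d.1 = a
      · have h4 : s.stE.rL.stE.1.e.1 = b := by
          by_contra h4
          rw [hfx_nom h3 h4] at hrF
          have h5 : s.stE.rL.stE.rL.1.e.1 = b := (rL_b hab h3).2 h4
          rcases hrF with h6 | h6
          · exact hab (h6.symm.trans h5)
          · exact h6.2 h5
        have hr4 : RibF a b (kappa (kappa s)) := Or.inr ⟨h3, fun h5 => (rL_b hab h3).1 h5 h4⟩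
        rw [hfx_non h3 h4]
        unfold nuF taF
        rw [if_neg hr3, if_pos hr4, if_pos (show s.stE.rL.stE.rR.1.d.1 = a from h3), FSt.rR_r2, hkk]
      · have h4 : s.stE.rL.stE.1.e.1 = a :=
          (isD_stE (a := a) (t := s.stE.rL) (Or.inl h1)).resolve_left h3
        have hr4 : ¬ RibF a b (kappa (kappa s)) := by
          rw [hkk]; exact not_ribF_rL_wall h4 h3
        rw [hfx_wall h3]
        unfold nuF taF
        rw [if_neg hr3, if_neg hr4, if_neg h3, stN_r2_eq, hkk]
  · have h2 : s.stE.1.e.1 = a := hD.resolve_left h1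
    have e : hfx a b s.stE = s.stE := hfx_wall h1
    have hr2 : Rib b ((sysH Q a b hab).E x.1) := by
      rw [ribF_iff hab, hE1, e]; exact Or.inl h2
    have hr3 : ¬ RibF a b (kappa s) := not_ribF_rL_wall h2 h1
    have hr4 : RibF a b (kappa (kappa s)) := by
      left
      show (kappa s.stE.rL).1.e.1 = a
      rw [← stN_r2_eq]
      show s.stE.stN.1.e.1 = a
      rw [FSt.stN_e]; exact h2
    rw [ret_one hab x hr2, ta_val hab hr2, hE1, e]
    unfold nuF taF
    rw [if_neg hr3, if_pos hr4, if_neg h1, stN_r2_eq, hk]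

end Pool.Agent.MP42.EO
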