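import Pool.Agent.MP42.EO.VL
import Pool.Agent.MP42.EO.VG

/-!
# Bad tripods in terms of the eight boxes (owner helper70)

`IsClaw P v ε`: the box `ε` at the grid point `v` and its three neighbours are solid, the other four
boxes are void (the points where six edges meet).
-/

set_option autoImplicit false

namespace Pool.Agent.MP42NG.Loc8

/-- the claw with the centre `i` -/
def claw (i : ℕ) : ℕ := 2 ^ i + 2 ^ (i ^^^ 1) + 2 ^ (i ^^^ 2) + 2 ^ (i ^^^ 4)

/-- the parity of a corner -/
def par (i : ℕ) : Bool := (i.testBit 0) ^^ ((i.testBit 1) ^^ (i.testBit 2))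

lemma noB_table : ∀ m < 256, (!(gd m) ||
    ((noB 0 1 m || ((List.range 8).any fun i => (m == claw i) && !(par i))) &&
    (noB 0 2 m || ((List.range 8).any fun i => (m == claw i) && par i)))) = true := by
  decide +kernel

end Pool.Agent.MP42NG.Loc8

namespace Pool.Agent.MP42.EO

open Pool.Agent.Helper55.UNF Pool.Agent.Helper55.UNF.GridSolid
open Pool.Agent.MP42NG Pool.Agent.MP42
open Loc8

variable {P : GridSolid}

/-- the box `ε` at the grid point `v` and its three neighbours are solid, the other four are void -/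
def IsClaw (P : GridSolid) (v : Fin 3 → ℤ) (ε : Fin 3 → Bool) : Prop :=
  ∀ δ : Fin 3 → Bool, corner v δ ∈ P.cells ↔ ∀ i j, δ i ≠ ε i → δ j ≠ ε j → i = j

lemma claw_bits : ∀ i < 8, ∀ δ : Fin 3 → Bool, (claw i).testBit (num δ) = true ↔
    ∀ j k, δ j ≠ bits i j → δ k ≠ bits i k → j = k := by decide +kernel

lemma isClaw_of (v : Fin 3 → ℤ) (i : ℕ) (hi : i < 8) (h : pat P v = claw i) :
    IsClaw P v (bits i) := by
  intro δ
  rw [← claw_bits i hi δ, ← h]
  exact (pat_solid v δ).symm

lemma par_bits : ∀ i < 8, (bits i 0 ^^ (bits i 1 ^^ bits i 2)) = par i := by decide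

/-- **If all claws have the same parity, then one of the two frames with the axis `0` has no bad
tripod.** -/
theorem exists_noB (hM : P.IsManifold) (s : Bool)
    (h : ∀ v ε, IsClaw P v ε → (ε 0 ^^ (ε 1 ^^ ε 2)) = s) :
    ∃ b : Fin 3, (0 : Fin 3) ≠ b ∧ ∀ v, noB ((0 : Fin 3) : ℕ) (b : ℕ) (pat P v) = true := by
  have key : ∀ v, ∀ i < 8, pat P v = claw i → par i = s := by
    intro v i hi hp
    rw [← par_bits i hi]
    exact h v _ (isClaw_of v i hi hp)
  cases s
  · refine ⟨2, by decide, fun v => ?_⟩
    have h1 := noB_table _ (pat_lt (P := P) v)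
    rw [gd_pat hM v] at h1
    simp only [Bool.not_true, Bool.false_or, Bool.and_eq_true, Bool.or_eq_true,
      List.any_eq_true, List.mem_range, beq_iff_eq] at h1
    rcases h1.2 with h2 | ⟨i, hi, h3, h4⟩
    · exact h2
    · rw [key v i hi h3] at h4
      exact absurd h4 (by decide)
  · refine ⟨1, by decide, fun v => ?_⟩
    have h1 := noB_table _ (pat_lt (P := P) v)
    rw [gd_pat hM v] at h1
    simp only [Bool.not_true, Bool.false_or, Bool.and_eq_true, Bool.or_eq_true,
      List.any_eq_true, List.mem_range, beq_iff_eq, Bool.not_eq_true'] at h1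
    rcases h1.1 with h2 | ⟨i, hi, h3, h4⟩
    · exact h2
    · rw [key v i hi h3] at h4
      exact absurd h4 (by decide)

end Pool.Agent.MP42.EO
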