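import Pool.Agent.MP42.EO.TTS
import Pool.Agent.MP42.Ret

/-!
# The types of the E/O scheme

If all direct units of an insertion tree go from a pushing class (`¬ pop`) to a popping class
(`pop`), then the top types can be chosen: on the pushing faces the type is set after every direct
corner, on the popping faces before every such corner.
-/

set_option autoImplicit false

namespace Pool.Agent.MP42.EO

open Pool.Agent.MP42.NE Pool.Agent.Helper55.UNF Pool.Agent.MP42

section Set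

variable {Q : Type*} [Finite Q]

/-- the value of the last setter -/
lemma exists_last (E : Equiv.Perm Q) (M : Q → Prop) (a : Q → Bool)
    (hM : ∀ x, ∃ y, E.SameCycle x y ∧ M y) :
    ∃ X : Q → Bool, (∀ x, M x → X x = a x) ∧ ∀ x, ¬ M (E x) → X (E x) = X x := by
  refine ⟨fun x => a ((E.symm ^ (srch E.symm M x)) x), ?_, ?_⟩
  · intro x hx
    show a _ = a x
    rw [srch_zero hx]; rfl
  · intro x hx
    show a _ = a _
    have hex : ∃ j : ℕ, M ((E.symm ^ j) (E x)) := by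
      obtain ⟨y, h1, h2⟩ := hM (E x)
      obtain ⟨n, hn⟩ := h1.symm.exists_nat_pow_eq
      refine ⟨n, ?_⟩
      have h3 : (E.symm ^ n) (E x) = y := by
        rw [← hn]
        have h4 : E.symm ^ n = (E ^ n)⁻¹ := by rw [← inv_pow]; rfl
        rw [h4]
        exact (E ^ n).symm_apply_apply y
      rw [h3]; exact h2
    rw [srch_step hx hex, Equiv.symm_apply_apply, pow_succ]
    congr 1
    show (E.symm ^ srch E.symm M x) (E.symm (E x)) = _
    rw [Equiv.symm_apply_apply]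

/-- the value of the next setter -/
lemma exists_next (E : Equiv.Perm Q) (M : Q → Prop) (a : Q → Bool)
    (hM : ∀ x, ∃ y, E.SameCycle x y ∧ M y) :
    ∃ X : Q → Bool, (∀ x, M x → X x = a x) ∧ ∀ x, ¬ M x → X x = X (E x) := by
  obtain ⟨X, h1, h2⟩ := exists_last E.symm M a (fun x => by
    obtain ⟨y, h1, h2⟩ := hM x
    exact ⟨y, Equiv.Perm.sameCycle_inv.2 h1, h2⟩)
  refine ⟨X, h1, fun x hx => ?_⟩
  have := h2 (E x) (by rw [Equiv.symm_apply_apply]; exact hx)
  rwa [Equiv.symm_apply_apply] at this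

end Set

namespace Net

variable {Q : Type*} {N : Net Q}

/-- the two classes -/
structure Cls (N : Net Q) (pop : Q → Prop) : Prop where
  popE : ∀ x, pop (N.E x) ↔ pop x
  Dp : ∀ x, N.D x → ¬ pop x
  Dq : ∀ x, N.D x → pop (N.τ x)
  pr : pop N.r0 ↔ ¬ N.s
  pr' : pop (N.τ N.r0) ↔ N.s

variable {pop : Q → Prop}

lemma Cls.pop2 (hC : N.Cls pop) {c : Q} (h : N.D c) : pop (N.ν (N.ν c)) := by
  rw [← hC.popE, E_eq, ν3 (N.DI c h)]
  exact hC.Dq c h

lemma Cls.not_D (hC : N.Cls pop) {c : Q} (h : N.D c) : ¬ N.D (N.ν c) := by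
  intro h'
  have := hC.pop2 h'
  rw [ν3 (N.DI c h)] at this
  exact hC.Dp c h this

lemma E_ne_root {c : Q} (h : N.In c) : N.E c ≠ N.r0 ∧ N.E c ≠ N.τ N.r0 :=
  ⟨fun h' => not_in_symm_root (Or.inl h') h, fun h' => not_in_symm_root (Or.inr h') h⟩

/-- **types exist** -/
theorem exists_Ty [Finite Q] (hTr : N.Tree) (hC : N.Cls pop)
    {ok : Q → Bool → Bool → Bool → Prop} (oks : ∀ x s a b, ok x s a b → ok (N.τ x) s b a)
    (dem : ∀ c, N.D c → ∃ a b d, ok (N.ν c) false b a ∧ ok (N.ν (N.ν c)) true d b)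
    (dr : ∀ c, N.D c → ∀ s a, ok c s a a) (rr : ∀ s a, ok N.r0 s a a) (t0 t1 : Bool) :
    ∃ X k0 k1 tx, N.Ty ok X k0 k1 tx ∧ ∀ x, N.E.SameCycle x N.r0 → k0 x = t0 ∧ k1 x = t1 := by
  classical
  have dem' : ∀ c, ∃ a b d, N.D c → (ok (N.ν c) false b a ∧ ok (N.ν (N.ν c)) true d b) := by
    intro c
    by_cases h : N.D c
    · obtain ⟨a, b, d, h1⟩ := dem c h
      exact ⟨a, b, d, fun _ => h1⟩
    · exact ⟨true, true, true, fun h' => absurd h' h⟩
  choose tp tb tn hdem using dem'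
  have hsE : ∀ x y, N.E.SameCycle x (N.E y) ↔ N.E.SameCycle x y := fun x y =>
    Equiv.Perm.sameCycle_apply_right
  have hEs : ∀ x y, N.E.SameCycle (N.E x) y ↔ N.E.SameCycle x y := fun x y =>
    Equiv.Perm.sameCycle_apply_left
  have popc : ∀ {x y}, N.E.SameCycle x y → (pop y ↔ pop x) := by
    intro x y h
    obtain ⟨n, hn⟩ := h.exists_nat_pow_eq
    rw [← hn]
    clear hn h
    induction n with
    | zero => rfl
    | succ n ih => rw [pow_succ', Equiv.Perm.mul_apply, hC.popE, ih]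
  have hne : N.r0 ≠ N.τ N.r0 := by
    intro h
    have h1 := hC.pr
    have h2 := hC.pr'
    rw [← h] at h2
    tauto
  -- the setters
  set M1 : Q → Prop := fun x => pop x ∨ (∃ c, N.D c ∧ x = N.E c) ∨ x = N.r0 ∨ x = N.τ N.r0
    with hM1
  set a1 : Q → Bool := fun x => if x = N.r0 then t0 else if x = N.τ N.r0 then t1 else
    tp (N.E.symm x) with ha1
  set M2 : Q → Prop := fun x => ¬ pop x ∨ (∃ c, N.D c ∧ x = N.ν (N.ν c)) ∨ N.E x = N.r0 ∨
    N.E x = N.τ N.r0 with hM2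
  set a2 : Q → Bool := fun x => if N.E x = N.r0 then t0 else if N.E x = N.τ N.r0 then t1 else
    tn (N.ν x) with ha2
  obtain ⟨X1, x1a, x1b⟩ := exists_last N.E M1 a1 (by
    intro x
    by_cases hp : pop x
    · exact ⟨x, Equiv.Perm.SameCycle.refl _ _, Or.inl hp⟩
    by_cases h1 : N.E.SameCycle x N.r0
    · exact ⟨_, h1, Or.inr (Or.inr (Or.inl rfl))⟩
    by_cases h2 : N.E.SameCycle x (N.τ N.r0)
    · exact ⟨_, h2, Or.inr (Or.inr (Or.inr rfl))⟩
    obtain ⟨c, hc, hxc⟩ := hTr.chE x h1 h2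
    by_cases hp' : N.cp c
    · rw [cc_pos hp'] at hxc
      exact absurd ((popc hxc).1 (hC.pop2 hc)) hp
    · rw [cc_neg hp'] at hxc
      exact ⟨N.E c, (hsE _ _).2 hxc, Or.inr (Or.inl ⟨c, hc, rfl⟩)⟩)
  obtain ⟨X2, x2a, x2b⟩ := exists_next N.E M2 a2 (by
    intro x
    by_cases hp : pop x
    swap
    · exact ⟨x, Equiv.Perm.SameCycle.refl _ _, Or.inl hp⟩
    by_cases h1 : N.E.SameCycle x N.r0
    · refine ⟨N.E.symm N.r0, ?_, Or.inr (Or.inr (Or.inl (Equiv.apply_symm_apply _ _)))⟩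
      rw [← hsE, Equiv.apply_symm_apply]; exact h1
    by_cases h2 : N.E.SameCycle x (N.τ N.r0)
    · refine ⟨N.E.symm (N.τ N.r0), ?_, Or.inr (Or.inr (Or.inr (Equiv.apply_symm_apply _ _)))⟩
      rw [← hsE, Equiv.apply_symm_apply]; exact h2
    obtain ⟨c, hc, hxc⟩ := hTr.chE x h1 h2
    by_cases hp' : N.cp c
    · rw [cc_pos hp'] at hxc
      exact ⟨_, hxc, Or.inr (Or.inl ⟨c, hc, rfl⟩)⟩
    · rw [cc_neg hp'] at hxc
      exact absurd ((popc hxc).2 hp) (hC.Dp c hc))
  set X : Q → Bool := fun x => if pop x then X2 x else X1 x with hX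
  have Xp : ∀ {x}, pop x → X x = X2 x := fun {x} h => by simp only [hX]; rw [if_pos h]
  have Xn : ∀ {x}, ¬ pop x → X x = X1 x := fun {x} h => by simp only [hX]; rw [if_neg h]
  -- the child corner of a face
  have hcho : ∀ x, ∃ c, (¬ N.E.SameCycle x N.r0 ∧ ¬ N.E.SameCycle x (N.τ N.r0)) →
      (N.D c ∧ N.E.SameCycle x (N.cc c)) := by
    intro x
    by_cases h : ¬ N.E.SameCycle x N.r0 ∧ ¬ N.E.SameCycle x (N.τ N.r0)
    · obtain ⟨c, hc⟩ := hTr.chE x h.1 h.2
      exact ⟨c, fun _ => hc⟩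
    · exact ⟨x, fun h' => absurd h' h⟩
  choose ch hch using hcho
  have ch_cc : ∀ {c x}, N.D c → N.E.SameCycle x (N.cc c) → ch x = c := by
    intro c x hc hx
    have h1 := hch x ⟨fun h => hTr.chR c hc (hx.symm.trans h),
      fun h => hTr.chR' c hc (hx.symm.trans h)⟩
    exact (hTr.chU c (ch x) hc h1.1 (hx.symm.trans h1.2)).symm
  set k0 : Q → Bool := fun x => if N.E.SameCycle x N.r0 then t0
    else if N.E.SameCycle x (N.τ N.r0) then
      (if N.s then X (N.τ N.r0) else X (N.E.symm (N.τ N.r0)))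
    else if N.cp (ch x) then X (N.E (N.cc (ch x))) else X (N.cc (ch x)) with hk0
  set k1 : Q → Bool := fun x => if N.E.SameCycle x N.r0 then t1
    else if N.E.SameCycle x (N.τ N.r0) then
      (if N.s then X (N.E.symm N.r0) else X N.r0)
    else if N.cp (ch x) then X (N.hh (ch x)) else X (N.E (N.hh (ch x))) with hk1
  have chE' : ∀ x, ¬ N.E.SameCycle x N.r0 → ¬ N.E.SameCycle x (N.τ N.r0) →
      ch (N.E x) = ch x := by
    intro x h1 h2
    have h3 := hch x ⟨h1, h2⟩
    exact ch_cc h3.1 ((hEs _ _).2 h3.2)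
  have k0E : ∀ x, k0 (N.E x) = k0 x := by
    intro x
    simp only [hk0, hEs]
    split_ifs with h1 h2 h3 h4 h5 h6 <;>
      first
        | rfl
        | (rw [chE' x h1 h2]; done)
        | (rw [chE' x h1 h2] at h4; exact absurd ‹_› ‹_›)
        | (rw [chE' x h1 h2] at *; contradiction)
  have k1E : ∀ x, k1 (N.E x) = k1 x := by
    intro x
    simp only [hk1, hEs]
    split_ifs with h1 h2 h3 h4 h5 h6 <;>
      first
        | rfl
        | (rw [chE' x h1 h2]; done)
        | (rw [chE' x h1 h2] at h4; exact absurd ‹_› ‹_›)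
        | (rw [chE' x h1 h2] at *; contradiction)
  have k0r : k0 N.r0 = t0 := by
    simp only [hk0]; rw [if_pos (Equiv.Perm.SameCycle.refl _ _)]
  have k1r : k1 N.r0 = t1 := by
    simp only [hk1]; rw [if_pos (Equiv.Perm.SameCycle.refl _ _)]
  have hrt : ¬ N.E.SameCycle (N.τ N.r0) N.r0 := fun h => hTr.rr h.symm
  have k0t : k0 (N.τ N.r0) = if N.s then X (N.τ N.r0) else X (N.E.symm (N.τ N.r0)) := by
    simp only [hk0]; rw [if_neg hrt, if_pos (Equiv.Perm.SameCycle.refl _ _)]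
  have k1t : k1 (N.τ N.r0) = if N.s then X (N.E.symm N.r0) else X N.r0 := by
    simp only [hk1]; rw [if_neg hrt, if_pos (Equiv.Perm.SameCycle.refl _ _)]
  have k0c : ∀ {c x}, N.D c → N.E.SameCycle x (N.cc c) →
      k0 x = if N.cp c then X (N.E (N.cc c)) else X (N.cc c) := by
    intro c x hc hx
    simp only [hk0]
    rw [if_neg (fun h => hTr.chR c hc (hx.symm.trans h)),
      if_neg (fun h => hTr.chR' c hc (hx.symm.trans h)), ch_cc hc hx]
  have k1c : ∀ {c x}, N.D c → N.E.SameCycle x (N.cc c) →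
      k1 x = if N.cp c then X (N.hh c) else X (N.E (N.hh c)) := by
    intro c x hc hx
    simp only [hk1]
    rw [if_neg (fun h => hTr.chR c hc (hx.symm.trans h)),
      if_neg (fun h => hTr.chR' c hc (hx.symm.trans h)), ch_cc hc hx]
  have kz : ∀ (k : Q → Bool), (∀ x, k (N.E x) = k x) → ∀ {z w}, N.E z = w → k z = k w := by
    intro k hk z w h
    rw [← h, hk]
  -- values of the setters
  have a1E : ∀ {c}, N.D c → X (N.E c) = tp c := by
    intro c hc
    have h1 : ¬ pop (N.E c) := by rw [hC.popE]; exact hC.Dp c hc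
    rw [Xn h1, x1a _ (Or.inr (Or.inl ⟨c, hc, rfl⟩))]
    simp only [ha1]
    rw [if_neg (E_ne_root (N.DI c hc)).1, if_neg (E_ne_root (N.DI c hc)).2,
      Equiv.symm_apply_apply]
  have a2E : ∀ {c}, N.D c → X (N.ν (N.ν c)) = tn c := by
    intro c hc
    have hi := in_ν (in_ν (N.DI c hc))
    rw [Xp (hC.pop2 hc), x2a _ (Or.inr (Or.inl ⟨c, hc, rfl⟩))]
    simp only [ha2]
    rw [if_neg (E_ne_root hi).1, if_neg (E_ne_root hi).2, ν3 (N.DI c hc)]
  refine ⟨X, k0, k1, fun x => tb (N.ν (N.ν x)), ⟨oks, k0E, k1E, ?_, ?_, ?_, ?_, ?_, ?_, ?_, ?_,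
    ?_, ?_, ?_, ?_⟩, ?_⟩
  · intro y hy hy'
    by_cases hp : pop y
    · rw [Xp hp, Xp ((hC.popE y).2 hp)]
      refine (x2b y ?_).symm
      rintro (h | ⟨c, hc, rfl⟩ | h | h)
      · exact h hp
      · exact hy (in_ν (in_ν (N.DI c hc)))
      · rw [h] at hy'; exact N.r0i hy'
      · rw [h] at hy'; exact N.r0j hy'
    · have hp' : ¬ pop (N.E y) := by rw [hC.popE]; exact hp
      rw [Xn hp, Xn hp']
      refine x1b y ?_
      rintro (h | ⟨c, hc, h⟩ | h | h)
      · exact hp' h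
      · rw [N.E.injective h] at hy; exact hy (N.DI c hc)
      · rw [h] at hy'; exact N.r0i hy'
      · rw [h] at hy'; exact N.r0j hy'
  · intro c hc
    have hi := in_ν (N.DI c hc)
    by_cases hp : pop (N.ν c)
    · rw [Xp hp, Xp ((hC.popE _).2 hp)]
      refine (x2b _ ?_).symm
      rintro (h | ⟨c', hc', h⟩ | h | h)
      · exact h hp
      · have h1 : N.ν (N.ν (N.ν c)) = N.ν (N.ν (N.ν (N.ν c'))) := by rw [h]
        rw [ν3 (N.DI c hc), ν3 (N.DI c' hc')] at h1
        rw [h1] at hc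
        exact hC.not_D hc' hc
      · exact (E_ne_root hi).1 h
      · exact (E_ne_root hi).2 h
    · have hp' : ¬ pop (N.E (N.ν c)) := by rw [hC.popE]; exact hp
      rw [Xn hp, Xn hp']
      refine x1b _ ?_
      rintro (h | ⟨c', hc', h⟩ | h | h)
      · exact hp' h
      · rw [← N.E.injective h] at hc'; exact hC.not_D hc hc'
      · exact (E_ne_root hi).1 h
      · exact (E_ne_root hi).2 h
  · intro c hc
    rw [a1E hc]
    show ok (N.ν c) false (tb (N.ν (N.ν (N.ν c)))) (tp c)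
    rw [ν3 (N.DI c hc)]
    exact (hdem c hc).1
  · intro c hc
    rw [a2E hc]
    show ok (N.ν (N.ν c)) true (tn c) (tb (N.ν (N.ν (N.ν c))))
    rw [ν3 (N.DI c hc)]
    exact (hdem c hc).2
  · intro c hc hp
    have h1 : k1 (N.ν (N.ν c)) = X c := by
      rw [k1c hc (x := N.ν (N.ν c)) (by rw [cc_pos hp]), if_pos hp, hh_pos hp]
    rw [h1]; exact dr c hc _ _
  · intro c hc hp
    have h1 : k1 c = X (N.E (N.ν (N.ν c))) := by
      rw [k1c hc (x := c) (by rw [cc_neg hp]), if_neg hp, hh_neg hp]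
    rw [h1]; exact dr c hc _ _
  · intro c hc hp
    rw [k0c hc (Equiv.Perm.SameCycle.refl _ _), if_pos hp]
  · intro c hc hp
    rw [k0c hc (Equiv.Perm.SameCycle.refl _ _), if_neg hp]
  · rintro hs z (h | h)
    · rw [kz k0 k0E h, h, k0r, Xn (by rw [hC.pr]; exact not_not.2 hs),
        x1a _ (Or.inr (Or.inr (Or.inl rfl)))]
      exact if_pos rfl
    · rw [kz k0 k0E h, h, k0t, if_pos hs]
  · rintro hs z (h | h)
    · have hp : pop z := by rw [← hC.popE, h, hC.pr]; exact hs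
      rw [kz k0 k0E h, k0r, Xp hp, x2a _ (Or.inr (Or.inr (Or.inl h)))]
      exact if_pos h
    · have h1 : N.E.symm (N.τ N.r0) = z := by rw [← h, Equiv.symm_apply_apply]
      rw [kz k0 k0E h, k0t, if_neg hs, h1]
  · intro hs
    refine ⟨?_, ?_⟩
    · rw [k1t, if_pos hs]; exact rr _ _
    · have hE : N.E (N.E.symm (N.τ N.r0)) = N.τ N.r0 := Equiv.apply_symm_apply _ _
      have hp : pop (N.E.symm (N.τ N.r0)) := by
        rw [← hC.popE, hE, hC.pr']; exact hs
      rw [k1r, Xp hp, x2a _ (Or.inr (Or.inr (Or.inr hE)))]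
      simp only [ha2]
      rw [if_neg (by rw [hE]; exact hne.symm), if_pos hE]
      exact rr _ _
  · intro hs
    refine ⟨?_, ?_⟩
    · rw [k1t, if_neg hs]; exact rr _ _
    · have hp : ¬ pop (N.τ N.r0) := by rw [hC.pr']; exact hs
      rw [k1r, Xn hp, x1a _ (Or.inr (Or.inr (Or.inr rfl)))]
      simp only [ha1]
      rw [if_neg hne.symm, if_pos trivial]
      exact rr _ _
  · intro x hx
    simp only [hk0, hk1]
    rw [if_pos hx, if_pos hx]
    exact ⟨rfl, rfl⟩

end Net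

end Pool.Agent.MP42.EO
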