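import Pool.Agent.MP42.EO.Cls

/-!
# The types of the E/O scheme with free links

Regular links go from a pushing class (`¬ pop`) to a popping class (`pop`).  The free links (`Fc`)
join two faces of the same class and all their lanes are free.
-/

set_option autoImplicit false

namespace Pool.Agent.MP42.EO

open Pool.Agent.MP42.NE Pool.Agent.Helper55.UNF Pool.Agent.MP42

/-- the value of the first setter along a map -/
lemma exists_iter {Q : Type*} (f : Q → Q) (M : Q → Prop) (a : Q → Bool) :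
    ∃ X : Q → Bool, (∀ x, M x → X x = a x) ∧ ∀ x, ¬ M x → X x = X (f x) := by
  classical
  refine ⟨fun x => if h : ∃ n : ℕ, M (f^[n] x) then a (f^[Nat.find h] x) else false, ?_, ?_⟩
  · intro x hx
    have h : ∃ n : ℕ, M (f^[n] x) := ⟨0, hx⟩
    have h0 : Nat.find h = 0 := by rw [Nat.find_eq_zero]; exact hx
    simp only [dif_pos h, h0]
    rfl
  · intro x hx
    by_cases h : ∃ n : ℕ, M (f^[n] (f x))
    · have h' : ∃ n : ℕ, M (f^[n] x) := by
        obtain ⟨n, hn⟩ := h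
        exact ⟨n + 1, hn⟩
      have e : Nat.find h' = Nat.find h + 1 := Nat.find_comp_succ h' h hx
      simp only [dif_pos h, dif_pos h', e]
      rfl
    · have h' : ¬ ∃ n : ℕ, M (f^[n] x) := by
        rintro ⟨n, hn⟩
        cases n with
        | zero => exact hx hn
        | succ n => exact h ⟨n, hn⟩
      simp only [dif_neg h, dif_neg h']

namespace Net

variable {Q : Type*} {N : Net Q}

/-- the classes -/
structure Cls2 (N : Net Q) (pop Fc : Q → Prop) : Prop where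
  popE : ∀ x, pop (N.E x) ↔ pop x
  reg : ∀ c, N.D c → ¬ Fc c → ¬ pop c ∧ pop (N.ν (N.ν c))
  sp : ∀ c, N.D c → Fc c →
    (N.cp c ∧ pop c ∧ pop (N.ν (N.ν c))) ∨ (¬ N.cp c ∧ ¬ pop c ∧ ¬ pop (N.ν (N.ν c)))
  pr : pop N.r0 ↔ ¬ N.s
  pr' : pop (N.τ N.r0) ↔ N.s

lemma not_Dν {c : Q} (h : N.D c) : ¬ N.D (N.ν c) := by
  intro h'
  have h1 : N.v (N.ν (N.ν c)) = -1 := N.v1 _ h'
  have h2 : N.v (N.ν (N.ν c)) = 1 := N.v2 _ h
  rw [h1] at h2
  norm_num at h2

lemma not_Dνν {c : Q} (h : N.D c) : ¬ N.D (N.ν (N.ν c)) := by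
  intro h'
  have h1 := not_Dν h'
  rw [ν3 (N.DI c h)] at h1
  exact h1 h

variable {pop Fc : Q → Prop}

/-- **types exist** -/
theorem exists_Ty2 [Finite Q] (hTr : N.Tree) (hC : N.Cls2 pop Fc)
    {ok : Q → Bool → Bool → Bool → Prop} (oks : ∀ x s a b, ok x s a b → ok (N.τ x) s b a)
    (dem : ∀ c, N.D c → ¬ Fc c → ∃ a b d, ok (N.ν c) false b a ∧ ok (N.ν (N.ν c)) true d b)
    (lf : ∀ c, N.D c → Fc c → ∀ a, ok (N.ν c) false a a ∧ ok (N.ν (N.ν c)) true a a)
    (dr : ∀ c, N.D c → (N.cp c → ∀ a, ok c true a a) ∧ (¬ N.cp c → ∀ a, ok c false a a))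
    (rr : ∀ s a, ok N.r0 s a a) (t0 t1 : Bool) :
    ∃ X k0 k1 tx, N.Ty ok X k0 k1 tx ∧ ∀ x, N.E.SameCycle x N.r0 → k0 x = t0 ∧ k1 x = t1 := by
  classical
  have dem' : ∀ c, ∃ a b d, (N.D c ∧ ¬ Fc c) →
      (ok (N.ν c) false b a ∧ ok (N.ν (N.ν c)) true d b) := by
    intro c
    by_cases h : N.D c ∧ ¬ Fc c
    · obtain ⟨a, b, d, h1⟩ := dem c h.1 h.2
      exact ⟨a, b, d, fun _ => h1⟩
    · exact ⟨true, true, true, fun h' => absurd h' h⟩
  choose tp tb tn hdem using dem'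
  have hsE : ∀ x y, N.E.SameCycle x (N.E y) ↔ N.E.SameCycle x y := fun x y =>
    Equiv.Perm.sameCycle_apply_right
  have hEs : ∀ x y, N.E.SameCycle (N.E x) y ↔ N.E.SameCycle x y := fun x y =>
    Equiv.Perm.sameCycle_apply_left
  have hne : N.r0 ≠ N.τ N.r0 := by
    intro h
    have h1 := hC.pr
    have h2 := hC.pr'
    rw [← h] at h2
    tauto
  have hc3 : ∀ {c c'}, N.D c → N.D c' → N.ν c ≠ N.ν (N.ν c') := by
    intro c c' h h' e
    have h1 : N.ν (N.ν (N.ν c)) = N.ν (N.ν (N.ν (N.ν c'))) := by rw [e]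
    rw [ν3 (N.DI c h), ν3 (N.DI c' h')] at h1
    rw [h1] at h
    exact not_Dν h' h
  have hc2 : ∀ {c c'}, N.D c → N.D c' → N.ν (N.ν c) = N.ν (N.ν c') → c = c' := by
    intro c c' h h' e
    have h1 : N.ν (N.ν (N.ν c)) = N.ν (N.ν (N.ν c')) := by rw [e]
    rwa [ν3 (N.DI c h), ν3 (N.DI c' h')] at h1
  have hc0 : ∀ {c c'}, N.D c → N.D c' → c ≠ N.ν (N.ν c') := by
    rintro c c' h h' rfl
    exact not_Dνν h' h
  -- the maps
  set f : Q → Q := fun y => if ∃ c, N.D c ∧ Fc c ∧ N.cp c ∧ y = N.ν (N.ν c) then N.E (N.ν y)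
    else N.E y with hf
  set g : Q → Q := fun y => if ∃ c, N.D c ∧ Fc c ∧ ¬ N.cp c ∧ y = N.E c then
    N.ν (N.ν (N.E.symm y)) else N.E.symm y with hg
  -- the setters
  set M1 : Q → Prop := fun x => (∃ c, N.D c ∧ ¬ Fc c ∧ x = N.E c) ∨
    (∃ c, N.D c ∧ Fc c ∧ ¬ N.cp c ∧ x = N.E (N.ν (N.ν c))) ∨ x = N.r0 ∨ x = N.τ N.r0 with hM1
  set a1 : Q → Bool := fun x => if x = N.r0 then t0 else if x = N.τ N.r0 then t1 else
    tp (N.E.symm x) with ha1
  set M2 : Q → Prop := fun x => (∃ c, N.D c ∧ ¬ Fc c ∧ x = N.ν (N.ν c)) ∨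
    (∃ c, N.D c ∧ Fc c ∧ N.cp c ∧ x = c) ∨ N.E x = N.r0 ∨ N.E x = N.τ N.r0 with hM2
  set a2 : Q → Bool := fun x => if N.E x = N.r0 then t0 else if N.E x = N.τ N.r0 then t1 else
    tn (N.ν x) with ha2
  obtain ⟨X1, x1a, x1b⟩ := exists_iter g M1 a1
  obtain ⟨X2, x2a, x2b⟩ := exists_iter f M2 a2
  set X : Q → Bool := fun x => if pop x then X2 x else X1 x with hX
  have Xp : ∀ {x}, pop x → X x = X2 x := fun {x} h => by simp only [hX]; rw [if_pos h]
  have Xn : ∀ {x}, ¬ pop x → X x = X1 x := fun {x} h => by simp only [hX]; rw [if_neg h]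
  -- the child corner of a face
  have hcho : ∀ x, ∃ c, (¬ N.E.SameCycle x N.r0 ∧ ¬ N.E.SameCycle x (N.τ N.r0)) →
      (N.D c ∧ N.E.SameCycle x (N.cc c)) := by
    intro x
    by_cases h : ¬ N.E.SameCycle x N.r0 ∧ ¬ N.E.SameCycle x (N.τ N.r0)
    · obtain ⟨c, hc⟩ := hTr.chE x h.1 h.2
      exact ⟨c, fun _ => hc⟩
    · exact ⟨x, fun h' => absurd h' h⟩
  choose ch hch using hcho
  have ch_cc : ∀ {c x}, N.D c → N.E.SameCycle x (N.cc c) → ch x = c := by
    intro c x hc hx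
    have h1 := hch x ⟨fun h => hTr.chR c hc (hx.symm.trans h),
      fun h => hTr.chR' c hc (hx.symm.trans h)⟩
    exact (hTr.chU c (ch x) hc h1.1 (hx.symm.trans h1.2)).symm
  set k0 : Q → Bool := fun x => if N.E.SameCycle x N.r0 then t0
    else if N.E.SameCycle x (N.τ N.r0) then
      (if N.s then X (N.τ N.r0) else X (N.E.symm (N.τ N.r0)))
    else if N.cp (ch x) then X (N.E (N.cc (ch x))) else X (N.cc (ch x)) with hk0
  set k1 : Q → Bool := fun x => if N.E.SameCycle x N.r0 then t1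
    else if N.E.SameCycle x (N.τ N.r0) then
      (if N.s then X (N.E.symm N.r0) else X N.r0)
    else if N.cp (ch x) then X (N.hh (ch x)) else X (N.E (N.hh (ch x))) with hk1
  have chE' : ∀ x, ¬ N.E.SameCycle x N.r0 → ¬ N.E.SameCycle x (N.τ N.r0) →
      ch (N.E x) = ch x := by
    intro x h1 h2
    have h3 := hch x ⟨h1, h2⟩
    exact ch_cc h3.1 ((hEs _ _).2 h3.2)
  have k0E : ∀ x, k0 (N.E x) = k0 x := by
    intro x
    simp only [hk0, hEs]
    split_ifs with h1 h2 h3 h4 h5 h6 <;>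
      first
        | rfl
        | (rw [chE' x h1 h2]; done)
        | (rw [chE' x h1 h2] at h4; exact absurd ‹_› ‹_›)
        | (rw [chE' x h1 h2] at *; contradiction)
  have k1E : ∀ x, k1 (N.E x) = k1 x := by
    intro x
    simp only [hk1, hEs]
    split_ifs with h1 h2 h3 h4 h5 h6 <;>
      first
        | rfl
        | (rw [chE' x h1 h2]; done)
        | (rw [chE' x h1 h2] at h4; exact absurd ‹_› ‹_›)
        | (rw [chE' x h1 h2] at *; contradiction)
  have k0r : k0 N.r0 = t0 := by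
    simp only [hk0]; rw [if_pos (Equiv.Perm.SameCycle.refl _ _)]
  have k1r : k1 N.r0 = t1 := by
    simp only [hk1]; rw [if_pos (Equiv.Perm.SameCycle.refl _ _)]
  have hrt : ¬ N.E.SameCycle (N.τ N.r0) N.r0 := fun h => hTr.rr h.symm
  have k0t : k0 (N.τ N.r0) = if N.s then X (N.τ N.r0) else X (N.E.symm (N.τ N.r0)) := by
    simp only [hk0]; rw [if_neg hrt, if_pos (Equiv.Perm.SameCycle.refl _ _)]
  have k1t : k1 (N.τ N.r0) = if N.s then X (N.E.symm N.r0) else X N.r0 := by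
    simp only [hk1]; rw [if_neg hrt, if_pos (Equiv.Perm.SameCycle.refl _ _)]
  have k0c : ∀ {c x}, N.D c → N.E.SameCycle x (N.cc c) →
      k0 x = if N.cp c then X (N.E (N.cc c)) else X (N.cc c) := by
    intro c x hc hx
    simp only [hk0]
    rw [if_neg (fun h => hTr.chR c hc (hx.symm.trans h)),
      if_neg (fun h => hTr.chR' c hc (hx.symm.trans h)), ch_cc hc hx]
  have k1c : ∀ {c x}, N.D c → N.E.SameCycle x (N.cc c) →
      k1 x = if N.cp c then X (N.hh c) else X (N.E (N.hh c)) := by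
    intro c x hc hx
    simp only [hk1]
    rw [if_neg (fun h => hTr.chR c hc (hx.symm.trans h)),
      if_neg (fun h => hTr.chR' c hc (hx.symm.trans h)), ch_cc hc hx]
  have kz : ∀ (k : Q → Bool), (∀ x, k (N.E x) = k x) → ∀ {z w}, N.E z = w → k z = k w := by
    intro k hk z w h
    rw [← h, hk]
  -- values of the setters
  have a1E : ∀ {c}, N.D c → ¬ Fc c → X (N.E c) = tp c := by
    intro c hc hF
    have h1 : ¬ pop (N.E c) := by rw [hC.popE]; exact (hC.reg c hc hF).1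
    rw [Xn h1, x1a _ (Or.inl ⟨c, hc, hF, rfl⟩)]
    simp only [ha1]
    rw [if_neg (E_ne_root (N.DI c hc)).1, if_neg (E_ne_root (N.DI c hc)).2,
      Equiv.symm_apply_apply]
  have a2E : ∀ {c}, N.D c → ¬ Fc c → X (N.ν (N.ν c)) = tn c := by
    intro c hc hF
    have hi := in_ν (in_ν (N.DI c hc))
    rw [Xp (hC.reg c hc hF).2, x2a _ (Or.inl ⟨c, hc, hF, rfl⟩)]
    simp only [ha2]
    rw [if_neg (E_ne_root hi).1, if_neg (E_ne_root hi).2, ν3 (N.DI c hc)]
  have aF : ∀ {c}, N.D c → Fc c → X (N.E c) = X (N.ν (N.ν c)) := by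
    intro c hc hF
    have hi := N.DI c hc
    have hi2 := in_ν (in_ν hi)
    rcases hC.sp c hc hF with ⟨h1, h2, h3⟩ | ⟨h1, h2, h3⟩
    · rw [Xp ((hC.popE c).2 h2), Xp h3, x2b (N.ν (N.ν c)) ?_]
      · have h4 : f (N.ν (N.ν c)) = N.E c := by
          simp only [hf]
          rw [if_pos ⟨c, hc, hF, h1, rfl⟩, ν3 hi]
        rw [h4]
      · rintro (⟨c', hc', hF', h⟩ | ⟨c', hc', hF', _, h⟩ | h | h)
        · rw [hc2 hc hc' h] at hF; exact hF' hF
        · exact hc0 hc' hc h.symm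
        · exact (E_ne_root hi2).1 h
        · exact (E_ne_root hi2).2 h
    · rw [Xn (fun h => h2 ((hC.popE c).1 h)), Xn h3, x1b (N.E c) ?_]
      · have h4 : g (N.E c) = N.ν (N.ν c) := by
          simp only [hg]
          rw [if_pos ⟨c, hc, hF, h1, rfl⟩, Equiv.symm_apply_apply]
        rw [h4]
      · rintro (⟨c', hc', hF', h⟩ | ⟨c', hc', hF', _, h⟩ | h | h)
        · rw [N.E.injective h] at hF; exact hF' hF
        · exact hc0 hc hc' (N.E.injective h)
        · exact (E_ne_root hi).1 h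
        · exact (E_ne_root hi).2 h
  have ftx : ∀ {c}, N.D c → (if Fc (N.ν (N.ν (N.ν c))) then X (N.ν (N.ν c))
      else tb (N.ν (N.ν (N.ν c)))) = if Fc c then X (N.ν (N.ν c)) else tb c := by
    intro c hc
    rw [ν3 (N.DI c hc)]
  refine ⟨X, k0, k1, fun x => if Fc (N.ν (N.ν x)) then X (N.ν x) else tb (N.ν (N.ν x)),
    ⟨oks, k0E, k1E, ?_, ?_, ?_, ?_, ?_, ?_, ?_, ?_, ?_, ?_, ?_, ?_⟩, ?_⟩
  · intro y hy hy'
    by_cases hp : pop y
    · rw [Xp hp, Xp ((hC.popE y).2 hp), x2b y ?_]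
      · have h4 : f y = N.E y := by
          simp only [hf]
          rw [if_neg]
          rintro ⟨c, hc, _, _, h⟩
          rw [h] at hy
          exact hy (in_ν (in_ν (N.DI c hc)))
        rw [h4]
      · rintro (⟨c, hc, _, rfl⟩ | ⟨c, hc, _, _, rfl⟩ | h | h)
        · exact hy (in_ν (in_ν (N.DI c hc)))
        · exact hy (N.DI _ hc)
        · rw [h] at hy'; exact N.r0i hy'
        · rw [h] at hy'; exact N.r0j hy'
    · have hp' : ¬ pop (N.E y) := by rw [hC.popE]; exact hp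
      rw [Xn hp, Xn hp', x1b (N.E y) ?_]
      · have h4 : g (N.E y) = y := by
          simp only [hg]
          rw [if_neg]
          · exact Equiv.symm_apply_apply _ _
          · rintro ⟨c, hc, _, _, h⟩
            rw [N.E.injective h] at hy
            exact hy (N.DI c hc)
        rw [h4]
      · rintro (⟨c, hc, _, h⟩ | ⟨c, hc, _, _, h⟩ | h | h)
        · rw [N.E.injective h] at hy; exact hy (N.DI c hc)
        · rw [N.E.injective h] at hy; exact hy (in_ν (in_ν (N.DI c hc)))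
        · rw [h] at hy'; exact N.r0i hy'
        · rw [h] at hy'; exact N.r0j hy'
  · intro c hc
    have hi := in_ν (N.DI c hc)
    by_cases hp : pop (N.ν c)
    · rw [Xp hp, Xp ((hC.popE _).2 hp), x2b (N.ν c) ?_]
      · have h4 : f (N.ν c) = N.E (N.ν c) := by
          simp only [hf]
          rw [if_neg]
          rintro ⟨c', hc', _, _, h⟩
          exact hc3 hc hc' h
        rw [h4]
      · rintro (⟨c', hc', _, h⟩ | ⟨c', hc', _, _, h⟩ | h | h)
        · exact hc3 hc hc' h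
        · rw [← h] at hc'; exact not_Dν hc hc'
        · exact (E_ne_root hi).1 h
        · exact (E_ne_root hi).2 h
    · have hp' : ¬ pop (N.E (N.ν c)) := by rw [hC.popE]; exact hp
      rw [Xn hp, Xn hp', x1b (N.E (N.ν c)) ?_]
      · have h4 : g (N.E (N.ν c)) = N.ν c := by
          simp only [hg]
          rw [if_neg]
          · exact Equiv.symm_apply_apply _ _
          · rintro ⟨c', hc', _, _, h⟩
            rw [← N.E.injective h] at hc'
            exact not_Dν hc hc'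
        rw [h4]
      · rintro (⟨c', hc', _, h⟩ | ⟨c', hc', _, _, h⟩ | h | h)
        · rw [← N.E.injective h] at hc'; exact not_Dν hc hc'
        · exact hc3 hc hc' (N.E.injective h)
        · exact (E_ne_root hi).1 h
        · exact (E_ne_root hi).2 h
  · intro c hc
    show ok (N.ν c) false (if Fc (N.ν (N.ν (N.ν c))) then X (N.ν (N.ν c))
      else tb (N.ν (N.ν (N.ν c)))) (X (N.E c))
    rw [ftx hc]
    by_cases hF : Fc c
    · rw [if_pos hF, aF hc hF]
      exact (lf c hc hF _).1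
    · rw [if_neg hF, a1E hc hF]
      exact (hdem c ⟨hc, hF⟩).1
  · intro c hc
    show ok (N.ν (N.ν c)) true (X (N.ν (N.ν c))) (if Fc (N.ν (N.ν (N.ν c))) then X (N.ν (N.ν c))
      else tb (N.ν (N.ν (N.ν c))))
    rw [ftx hc]
    by_cases hF : Fc c
    · rw [if_pos hF]
      exact (lf c hc hF _).2
    · rw [if_neg hF, a2E hc hF]
      exact (hdem c ⟨hc, hF⟩).2
  · intro c hc hp
    have h1 : k1 (N.ν (N.ν c)) = X c := by
      rw [k1c hc (x := N.ν (N.ν c)) (by rw [cc_pos hp]), if_pos hp, hh_pos hp]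
    rw [h1]; exact (dr c hc).1 hp _
  · intro c hc hp
    have h1 : k1 c = X (N.E (N.ν (N.ν c))) := by
      rw [k1c hc (x := c) (by rw [cc_neg hp]), if_neg hp, hh_neg hp]
    rw [h1]; exact (dr c hc).2 hp _
  · intro c hc hp
    rw [k0c hc (Equiv.Perm.SameCycle.refl _ _), if_pos hp]
  · intro c hc hp
    rw [k0c hc (Equiv.Perm.SameCycle.refl _ _), if_neg hp]
  · rintro hs z (h | h)
    · rw [kz k0 k0E h, h, k0r, Xn (by rw [hC.pr]; exact not_not.2 hs),
        x1a _ (Or.inr (Or.inr (Or.inl rfl)))]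
      exact if_pos rfl
    · rw [kz k0 k0E h, h, k0t, if_pos hs]
  · rintro hs z (h | h)
    · have hp : pop z := by rw [← hC.popE, h, hC.pr]; exact hs
      rw [kz k0 k0E h, k0r, Xp hp, x2a _ (Or.inr (Or.inr (Or.inl h)))]
      exact if_pos h
    · have h1 : N.E.symm (N.τ N.r0) = z := by rw [← h, Equiv.symm_apply_apply]
      rw [kz k0 k0E h, k0t, if_neg hs, h1]
  · intro hs
    refine ⟨?_, ?_⟩
    · rw [k1t, if_pos hs]; exact rr _ _
    · have hE : N.E (N.E.symm (N.τ N.r0)) = N.τ N.r0 := Equiv.apply_symm_apply _ _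
      have hp : pop (N.E.symm (N.τ N.r0)) := by
        rw [← hC.popE, hE, hC.pr']; exact hs
      rw [k1r, Xp hp, x2a _ (Or.inr (Or.inr (Or.inr hE)))]
      simp only [ha2]
      rw [if_neg (by rw [hE]; exact hne.symm), if_pos hE]
      exact rr _ _
  · intro hs
    refine ⟨?_, ?_⟩
    · rw [k1t, if_neg hs]; exact rr _ _
    · have hp : ¬ pop (N.τ N.r0) := by rw [hC.pr']; exact hs
      rw [k1r, Xn hp, x1a _ (Or.inr (Or.inr (Or.inr rfl)))]
      simp only [ha1]
      rw [if_neg hne.symm, if_pos trivial]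
      exact rr _ _
  · intro x hx
    simp only [hk0, hk1]
    rw [if_pos hx, if_pos hx]
    exact ⟨rfl, rfl⟩

end Net

end Pool.Agent.MP42.EO
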