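import Pool.Agent.MP42.NG.Verts
import Pool.Agent.MP42.H.Refine
import Pool.Agent.MP42.K.Rows

/-!
# The refinement of a solid of genus zero has genus zero

The grid points of the surface of the `k` by `k` refinement are the grid points of the surface,
`k - 1` points on every edge and `(k - 1) ^ 2` points in every facet.
-/

set_option autoImplicit false
set_option linter.unusedSectionVars false

namespace Pool.Agent.MP42.EO

open Pool.Agent.Helper55.UNF Pool.Agent.Helper55.UNF.GridSolid
open Pool.Agent.MP42H Pool.Agent.MP42NG Pool.Agent.MP42K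

namespace Gen0

variable {P : GridSolid} {k : ℕ}

/-! ## Facets -/

lemma card_FSt_refine (hk : 0 < k) :
    Nat.card (P.refine k hk).FSt = k * k * Nat.card P.FSt := by
  have h : Nat.card (P.refine k hk).FSt = Nat.card (P.FSt × Fin k × Fin k) := by
    symm
    apply Nat.card_congr
    refine Equiv.ofBijective (fun x => sub hk x.1 x.2.1 x.2.2 x.2.1.2 x.2.2.2) ⟨?_, ?_⟩
    · rintro ⟨s, i, j⟩ ⟨s', i', j'⟩ h
      obtain ⟨h1, h2, h3⟩ := sub_inj h
      simp only [Prod.mk.injEq]
      exact ⟨h1, Fin.ext h2, Fin.ext h3⟩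
    · intro σ
      obtain ⟨s, i, j, hi, hj, rfl⟩ := exists_sub σ
      exact ⟨⟨s, ⟨i, hi⟩, ⟨j, hj⟩⟩, rfl⟩
  rw [h, Nat.card_prod, Nat.card_prod, Nat.card_eq_fintype_card (α := Fin k), Fintype.card_fin]
  ring

lemma card_Facet_refine (hk : 0 < k) :
    Nat.card (P.refine k hk).Facet = k * k * Nat.card P.Facet := by
  have h1 := card_FSt_refine (P := P) hk
  have h2 : ∀ Q : GridSolid, Nat.card Q.FSt = 4 * Nat.card Q.Facet := by
    intro Q
    rw [Nat.card_eq_fintype_card, Nat.card_eq_fintype_card]
    exact card_FSt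
  rw [h2, h2] at h1
  have h3 : k * k * (4 * Nat.card P.Facet) = 4 * (k * k * Nat.card P.Facet) := by ring
  omega

/-! ## Grid points -/

/-- the pattern at `w`, restricted to the coordinates in `D`, is not constant -/
def AD (P : GridSolid) (D : Fin 3 → Bool) : Set (Fin 3 → ℤ) :=
  {w | ∃ ε δ, corner w (prD D ε) ∈ P.cells ∧ corner w (prD D δ) ∉ P.cells}

/-- the remainders -/
noncomputable def RD (k : ℕ) (D : Fin 3 → Bool) : Finset (Fin 3 → ℤ) :=
  Fintype.piFinset fun a => if D a then {0} else Finset.Ico 1 (k : ℤ)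

lemma card_RD (hk : 0 < k) (D : Fin 3 → Bool) :
    (RD k D).card = ∏ a, if D a then 1 else (k - 1) := by
  unfold RD
  rw [Fintype.card_piFinset]
  apply Finset.prod_congr rfl
  intro a _
  split_ifs
  · simp
  · rw [Int.card_Ico]; omega

lemma onV_refine (hk : 0 < k) (v : Fin 3 → ℤ) : Pool.BW.OnV (P.refine k hk) v ↔
    (fun a => v a / (k : ℤ)) ∈ AD P (fun a => decide ((k : ℤ) ∣ v a)) := by
  have h : ∀ ε, corner v ε ∈ (P.refine k hk).cells ↔
      corner (fun a => v a / (k : ℤ)) (prD (fun a => decide ((k : ℤ) ∣ v a)) ε) ∈ P.cells := by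
    intro ε
    rw [mem_refine, dv_corner hk]
  unfold Pool.BW.OnV AD
  simp only [h]
  exact Iff.rfl

lemma finite_corner (P : GridSolid) : {v : Fin 3 → ℤ | ∃ ε, corner v ε ∈ P.cells}.Finite := by
  have h : {v : Fin 3 → ℤ | ∃ ε, corner v ε ∈ P.cells} ⊆
      ((P.cells ×ˢ (Finset.univ : Finset (Fin 3 → Bool))).image
        fun x => fun a => if x.2 a then x.1 a else x.1 a + 1 : Finset (Fin 3 → ℤ)) := by
    rintro v ⟨ε, hε⟩
    simp only [Finset.coe_image, Set.mem_image]
    refine ⟨(corner v ε, ε), ?_, ?_⟩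
    · simp [hε]
    · funext a
      unfold corner
      simp only
      split_ifs <;> simp
  exact Set.Finite.subset (Finset.finite_toSet _) h

lemma finite_onV (P : GridSolid) : {v | Pool.BW.OnV P v}.Finite :=
  (finite_corner P).subset fun _ ⟨ε, _, h, _⟩ => ⟨ε, h⟩

lemma finite_AD (P : GridSolid) (D : Fin 3 → Bool) : (AD P D).Finite :=
  (finite_corner P).subset fun _ ⟨_, _, h, _⟩ => ⟨_, h⟩

/-- the sum over the patterns of remainders -/
lemma ncard_refine (hk : 0 < k) : {v | Pool.BW.OnV (P.refine k hk) v}.ncard =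
    ∑ D : Fin 3 → Bool, (AD P D).ncard * ∏ a, if D a then 1 else (k - 1) := by
  classical
  have hk' : (0 : ℤ) < k := by exact_mod_cast hk
  rw [Set.ncard_eq_toFinset_card _ (finite_onV _),
    Finset.card_eq_sum_card_fiberwise
      (f := fun v : Fin 3 → ℤ => fun a => decide ((k : ℤ) ∣ v a)) (t := Finset.univ)
      (fun _ _ => Finset.mem_univ _)]
  apply Finset.sum_congr rfl
  intro D _
  rw [← card_RD hk, Set.ncard_eq_toFinset_card _ (finite_AD P D), ← Finset.card_product]
  symm
  apply Finset.card_nbij' (fun x : (Fin 3 → ℤ) × (Fin 3 → ℤ) => fun a => (k : ℤ) * x.1 a + x.2 a)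
    (fun v => (fun a => v a / (k : ℤ), fun a => v a % (k : ℤ)))
  · rintro ⟨w, r⟩ hx
    simp only [Finset.coe_product, Set.mem_prod, Finset.mem_coe, Set.Finite.mem_toFinset, RD,
      Fintype.mem_piFinset] at hx
    obtain ⟨h1, h2⟩ := hx
    have hr : ∀ a, 0 ≤ r a ∧ r a < k ∧ (r a = 0 ↔ D a = true) := by
      intro a
      have h3 := h2 a
      by_cases hD : D a = true
      · rw [if_pos hD, Finset.mem_singleton] at h3
        exact ⟨by omega, by omega, by simp [h3, hD]⟩
      · rw [if_neg hD, Finset.mem_Ico] at h3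
        exact ⟨by omega, by omega, ⟨fun h => by omega, fun h => absurd h hD⟩⟩
    have hdiv : ∀ a, ((k : ℤ) * w a + r a) / (k : ℤ) = w a := by
      intro a
      rw [Int.add_comm, Int.add_mul_ediv_left _ _ hk'.ne',
        Int.ediv_eq_zero_of_lt (hr a).1 (hr a).2.1, zero_add]
    have hmod : ∀ a, decide ((k : ℤ) ∣ (k : ℤ) * w a + r a) = D a := by
      intro a
      have h4 : ((k : ℤ) ∣ (k : ℤ) * w a + r a) ↔ r a = 0 := by
        rw [Int.dvd_add_right (dvd_mul_right _ _)]
        constructor
        · intro h5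
          exact Int.eq_zero_of_dvd_of_nonneg_of_lt (hr a).1 (hr a).2.1 h5
        · intro h5; rw [h5]; exact dvd_zero _
      rw [Bool.eq_iff_iff, decide_eq_true_iff, h4, (hr a).2.2]
    simp only [Finset.coe_filter, Set.Finite.mem_toFinset, Set.mem_ofPred_eq]
    refine ⟨?_, funext hmod⟩
    show Pool.BW.OnV _ _
    rw [onV_refine]
    rw [funext hdiv, funext hmod]
    exact h1
  · intro v hv
    simp only [Finset.coe_filter, Set.Finite.mem_toFinset, Set.mem_ofPred_eq] at hv
    obtain ⟨h1, h2⟩ := hv
    have h1' : Pool.BW.OnV (P.refine k hk) v := h1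
    rw [onV_refine, h2] at h1'
    simp only [Finset.coe_product, Set.mem_prod, Finset.mem_coe, Set.Finite.mem_toFinset, RD,
      Fintype.mem_piFinset]
    refine ⟨h1', fun a => ?_⟩
    have h3 := congrFun h2 a
    have h4 := Int.emod_nonneg (v a) hk'.ne'
    have h5 := Int.emod_lt_of_pos (v a) hk'
    split_ifs with hD
    · rw [hD, decide_eq_true_iff] at h3
      rw [Finset.mem_singleton]
      exact Int.emod_eq_zero_of_dvd h3
    · rw [Finset.mem_Ico]
      refine ⟨?_, h5⟩
      have h6 : v a % (k : ℤ) ≠ 0 := by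
        intro h7
        apply hD
        rw [← h3, decide_eq_true_iff]
        exact Int.dvd_of_emod_eq_zero h7
      omega
  · rintro ⟨w, r⟩ hx
    simp only [Finset.coe_product, Set.mem_prod, Finset.mem_coe, Set.Finite.mem_toFinset, RD,
      Fintype.mem_piFinset] at hx
    obtain ⟨h1, h2⟩ := hx
    have hr : ∀ a, 0 ≤ r a ∧ r a < k := by
      intro a
      have h3 := h2 a
      by_cases hD : D a = true
      · rw [if_pos hD, Finset.mem_singleton] at h3
        omega
      · rw [if_neg hD, Finset.mem_Ico] at h3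
        omega
    simp only [Prod.mk.injEq]
    constructor
    · funext a
      rw [Int.add_comm, Int.add_mul_ediv_left _ _ hk'.ne',
        Int.ediv_eq_zero_of_lt (hr a).1 (hr a).2, zero_add]
    · funext a
      rw [Int.add_comm, Int.add_mul_emod_self_left, Int.emod_eq_of_lt (hr a).1 (hr a).2]
  · intro v _
    funext a
    exact Int.mul_ediv_add_emod (v a) k

/-! ## The eight patterns -/

lemma sum8 (f : (Fin 3 → Bool) → ℕ) : ∑ D, f D = f (fun _ => true) +
    ∑ a : Fin 3, f (fun b => decide (b ≠ a)) + ∑ a : Fin 3, f (fun b => decide (b = a)) +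
    f (fun _ => false) := by
  have h : (Finset.univ : Finset (Fin 3 → Bool)) = {fun _ => true,
      fun b => decide (b ≠ 0), fun b => decide (b ≠ 1), fun b => decide (b ≠ 2),
      fun b => decide (b = 0), fun b => decide (b = 1), fun b => decide (b = 2),
      fun _ => false} := by decide
  rw [h, Finset.sum_insert (by decide), Finset.sum_insert (by decide),
    Finset.sum_insert (by decide), Finset.sum_insert (by decide), Finset.sum_insert (by decide),
    Finset.sum_insert (by decide), Finset.sum_insert (by decide), Finset.sum_singleton,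
    Fin.sum_univ_three, Fin.sum_univ_three]
  ring

lemma AD_true (P : GridSolid) : AD P (fun _ => true) = {v | Pool.BW.OnV P v} := by
  have h : ∀ ε : Fin 3 → Bool, prD (fun _ => true) ε = ε := by
    intro ε; funext a; simp [prD]
  ext w
  unfold AD Pool.BW.OnV
  simp only [h]

lemma AD_false (P : GridSolid) : AD P (fun _ => false) = ∅ := by
  have h : ∀ ε : Fin 3 → Bool, prD (fun _ => false) ε = fun _ => true := by
    intro ε; funext a; simp [prD]
  ext w
  unfold AD
  simp only [h]
  constructor
  · rintro ⟨-, -, h1, h2⟩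
    exact absurd h1 h2
  · intro h1; exact absurd h1 (Set.notMem_empty _)

lemma AD_ne (P : GridSolid) (a : Fin 3) :
    AD P (fun b => decide (b ≠ a)) = {w | Pool.BW.OnE P (a, w)} := by
  have h : ∀ ε : Fin 3 → Bool, ε a = true → prD (fun b => decide (b ≠ a)) ε = ε := by
    intro ε he
    funext b
    unfold prD
    by_cases hb : b = a
    · subst hb; simp [he]
    · simp [hb]
  have h' : ∀ ε : Fin 3 → Bool, prD (fun b => decide (b ≠ a)) ε a = true := by
    intro ε; simp [prD]
  ext w
  constructor
  · rintro ⟨ε, δ, h1, h2⟩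
    exact ⟨_, _, h' ε, h' δ, h1, h2⟩
  · rintro ⟨ε, δ, h1, h2, h3, h4⟩
    refine ⟨ε, δ, ?_, ?_⟩
    · rw [h ε h1]; exact h3
    · rw [h δ h2]; exact h4

lemma corner_eq_one (w : Fin 3 → ℤ) (a : Fin 3) (ε : Fin 3 → Bool) :
    corner w (prD (fun b => decide (b = a)) ε) = if ε a then w else shift w (a, false) := by
  funext b
  unfold corner prD shift
  by_cases hb : b = a
  · subst hb
    by_cases he : ε b = true
    · simp [he]
    · simp [he]
      ring
  · by_cases he : ε a = true
    · simp [hb, he]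
    · simp [hb, he]

lemma mem_AD_one {P : GridSolid} {a : Fin 3} {w : Fin 3 → ℤ} :
    w ∈ AD P (fun b => decide (b = a)) ↔ (w ∈ P.cells ∧ shift w (a, false) ∉ P.cells) ∨
      (w ∉ P.cells ∧ shift w (a, false) ∈ P.cells) := by
  unfold AD
  simp only [Set.mem_ofPred_eq, corner_eq_one]
  constructor
  · rintro ⟨ε, δ, h1, h2⟩
    by_cases he : ε a = true <;> by_cases hd : δ a = true
    · rw [if_pos he] at h1; rw [if_pos hd] at h2; exact absurd h1 h2
    · rw [if_pos he] at h1; rw [if_neg hd] at h2; exact Or.inl ⟨h1, h2⟩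
    · rw [if_neg he] at h1; rw [if_pos hd] at h2; exact Or.inr ⟨h2, h1⟩
    · rw [if_neg he] at h1; rw [if_neg hd] at h2; exact absurd h1 h2
  · rintro (⟨h1, h2⟩ | ⟨h1, h2⟩)
    · exact ⟨fun _ => true, fun _ => false, by simpa using h1, by simpa using h2⟩
    · exact ⟨fun _ => false, fun _ => true, by simpa using h2, by simpa using h1⟩

lemma shift_shift_pos (c : Fin 3 → ℤ) (a : Fin 3) : shift (shift c (a, true)) (a, false) = c := by
  funext b
  unfold shift
  by_cases hb : b = a
  · subst hb; simp
  · simp [hb]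

lemma shift_shift_neg (c : Fin 3 → ℤ) (a : Fin 3) : shift (shift c (a, false)) (a, true) = c := by
  funext b
  unfold shift
  by_cases hb : b = a
  · subst hb; simp
  · simp [hb]

/-- facets and pairs of cells -/
lemma card_facets (P : GridSolid) :
    Nat.card P.Facet = ∑ a : Fin 3, (AD P (fun b => decide (b = a))).ncard := by
  classical
  have hfin : ∀ a : Fin 3, Finite (AD P (fun b => decide (b = a))) := fun a =>
    (finite_AD P _).to_subtype
  have h1 : Nat.card P.Facet = Nat.card (Σ a : Fin 3, AD P (fun b => decide (b = a))) := by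
    apply Nat.card_eq_of_bijective (fun f : P.Facet =>
      (⟨f.1.2.1, ⟨if f.1.2.2 then shift f.1.1 (f.1.2.1, true) else f.1.1, by
        obtain ⟨⟨c, a, b⟩, h1, h2⟩ := f
        rw [mem_AD_one]
        cases b
        · exact Or.inl ⟨h1, h2⟩
        · right
          refine ⟨h2, ?_⟩
          rw [if_pos rfl, shift_shift_pos]
          exact h1⟩⟩ : Σ a : Fin 3, AD P (fun b => decide (b = a))))
    constructor
    · rintro ⟨⟨c, a, b⟩, h1, h2⟩ ⟨⟨c', a', b'⟩, h1', h2'⟩ h
      rw [Sigma.mk.injEq] at h
      obtain ⟨h3, h4⟩ := h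
      have h3' : a = a' := h3
      subst h3'
      have h5 := congrArg Subtype.val (eq_of_heq h4)
      apply Subtype.ext
      cases b <;> cases b'
      · have h6 : c = c' := h5
        exact congrArg (fun x => (x, ((a, false) : Dir))) h6
      · exfalso
        have h6 : c = shift c' (a, true) := h5
        apply h2'
        show shift c' (a, true) ∈ P.cells
        rw [← h6]; exact h1
      · exfalso
        have h6 : shift c (a, true) = c' := h5
        apply h2
        show shift c (a, true) ∈ P.cells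
        rw [h6]; exact h1'
      · have h6 : shift c (a, true) = shift c' (a, true) := h5
        have h7 := congrArg (fun x => shift x (a, false)) h6
        simp only [shift_shift_pos] at h7
        exact congrArg (fun x => (x, ((a, true) : Dir))) h7
    · rintro ⟨a, w, hw⟩
      rcases mem_AD_one.1 hw with ⟨h1, h2⟩ | ⟨h1, h2⟩
      · exact ⟨⟨(w, (a, false)), h1, h2⟩, rfl⟩
      · refine ⟨⟨(shift w (a, false), (a, true)), h2, ?_⟩, ?_⟩
        · show shift (shift w (a, false)) (a, true) ∉ P.cells
          rw [shift_shift_neg]; exact h1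
        · simp only [Sigma.mk.injEq, heq_eq_eq, true_and, if_true]
          apply Subtype.ext
          exact shift_shift_neg w a
  rw [h1, Nat.card_sigma]
  rfl

lemma card_onE (P : GridSolid) :
    {p | Pool.BW.OnE P p}.ncard = ∑ a : Fin 3, (AD P (fun b => decide (b ≠ a))).ncard := by
  classical
  have hfin : ∀ a : Fin 3, Finite (AD P (fun b => decide (b ≠ a))) := fun a =>
    (finite_AD P _).to_subtype
  have h1 : Nat.card {p | Pool.BW.OnE P p} =
      Nat.card (Σ a : Fin 3, AD P (fun b => decide (b ≠ a))) := by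
    apply Nat.card_eq_of_bijective (fun p : {p | Pool.BW.OnE P p} =>
      (⟨p.1.1, ⟨p.1.2, by rw [AD_ne]; exact p.2⟩⟩ : Σ a : Fin 3, AD P (fun b => decide (b ≠ a))))
    constructor
    · rintro ⟨⟨a, w⟩, h⟩ ⟨⟨a', w'⟩, h'⟩ h1
      rw [Sigma.mk.injEq] at h1
      obtain ⟨h3, h4⟩ := h1
      have h3' : a = a' := h3
      subst h3'
      have h5 := congrArg Subtype.val (eq_of_heq h4)
      apply Subtype.ext
      exact Prod.ext rfl h5
    · rintro ⟨a, w, hw⟩
      have hw' := hw
      rw [AD_ne] at hw'
      exact ⟨⟨(a, w), hw'⟩, rfl⟩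
  show Nat.card {p | Pool.BW.OnE P p} = _
  rw [h1, Nat.card_sigma]
  rfl

theorem ncard_onV_refine (hk : 0 < k) : {v | Pool.BW.OnV (P.refine k hk) v}.ncard =
    {v | Pool.BW.OnV P v}.ncard + (k - 1) * {p | Pool.BW.OnE P p}.ncard +
      (k - 1) * (k - 1) * Nat.card P.Facet := by
  have e1 : ∀ a : Fin 3, (∏ b : Fin 3, if (decide (b ≠ a)) = true then 1 else (k - 1)) = k - 1 := by
    intro a
    rw [Fin.prod_univ_three]
    fin_cases a <;> simp
  have e2 : ∀ a : Fin 3, (∏ b : Fin 3, if (decide (b = a)) = true then 1 else (k - 1)) =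
      (k - 1) * (k - 1) := by
    intro a
    rw [Fin.prod_univ_three]
    fin_cases a <;> simp
  rw [ncard_refine hk, sum8, AD_true, AD_false, card_onE, card_facets]
  simp only [e1, e2]
  rw [← Finset.sum_mul, ← Finset.sum_mul]
  simp
  ring

end Gen0

open Gen0

/-- **the refinements of a solid of genus zero have genus zero** -/
theorem genusZero_refine {P : GridSolid} (hP : P.IsOrthogonalPolyhedron)
    (hE : Pool.BW.eul P = 2) (n : ℕ) (hn : 0 < n) : GenusZero (P.refine n hn) := by
  apply genusZero_of_card (isOrthogonal_refine hP hn)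
  have h1 := card_verts (isManifold_refine hP.1 hn)
  have h2 := ncard_onV_refine (P := P) hn
  have h3 := card_edges hP.1
  have h4 := card_Facet_refine (P := P) hn
  unfold Pool.BW.eul at hE
  rw [h1, h2, h4]
  rw [h3] at hE ⊢
  push_cast at hE
  obtain ⟨m, rfl⟩ : ∃ m, n = m + 1 := ⟨n - 1, by omega⟩
  have h5 : {v | Pool.BW.OnV P v}.ncard = Nat.card P.Facet + 2 := by omega
  rw [h5]
  simp only [Nat.add_sub_cancel]
  ring

/-- the Euler characteristic of the refinement -/
theorem eul_refine {P : GridSolid} (hP : P.IsOrthogonalPolyhedron) (n : ℕ) (hn : 0 < n) :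
    Pool.BW.eul (P.refine n hn) = Pool.BW.eul P := by
  have h2 := ncard_onV_refine (P := P) hn
  have h3 := card_edges hP.1
  have h3' := card_edges (isManifold_refine hP.1 hn)
  have h4 := card_Facet_refine (P := P) hn
  obtain ⟨m, rfl⟩ : ∃ m, n = m + 1 := ⟨n - 1, by omega⟩
  unfold Pool.BW.eul
  rw [h2, h3', h4, h3]
  simp only [Nat.add_sub_cancel]
  push_cast
  ring

end Pool.Agent.MP42.EO
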