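import Pool.Agent.MP42.EO.VD

/-!
# The local facts of the spine system: the instance (owner helper70)

`loc_sysH`: the structure `Loc` for the ribbons of `sysH` on a refinement with `n ≥ 3`, for solids
such that the patterns at all grid points satisfy `noB` (no bad tripod) and `noK` (a grid point with
six facets has an edge parallel to `a`), under the hypothesis that regions with one face have a pole.
-/

set_option autoImplicit false
set_option linter.unusedSectionVars false

namespace Pool.Agent.MP42.EO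

open Pool.Agent.Helper55.UNF Pool.Agent.Helper55.UNF.GridSolid Pool.Agent.MP42.NE
open Pool.Agent.MP42.Geo Pool.Agent.MP42NG Pool.Agent.MP42 Pool.Agent.MP42H
open Loc8

variable {Q : GridSolid} {a b : Fin 3}

/-! ## Growing along a line of ribbons -/

/-- the side of the unit at its east end -/
def sd (x : RD Q a b) : Bool := (lo x % 8).testBit (a : ℕ)

/-- the boxes around a wall ribbon, seen from the two ends -/
lemma agr_tH (hab : a ≠ b) {x : RD Q a b} (h : x.1.1.1.e.1 = a) :
    agr a b (pa (tH hab x)) (!(sd x)) = agr a b (pa x) (sd x) := by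
  obtain ⟨-, -, h1⟩ := tH_wall hab h
  have h2 : sd x = !(up x) := bit_wall x h
  unfold agr
  apply List.countP_congr
  intro k hk
  rw [List.mem_range] at hk
  obtain ⟨g1, g2, g3⟩ := idx_flip a a.2 (sd x) k hk
  have e : (pa (tH hab x)).testBit (idx a (!(sd x)) k) = (pa x).testBit (idx a (sd x) k) := by
    unfold pa
    rw [g1, pat_bit _ _ (xor_lt _ g2 a), pat_bit _ _ g2, decide_eq_decide]
    have e1 : corner (pt (tH hab x)) (bits (idx a (sd x) k ^^^ 2 ^ (a : ℕ))) =
        corner (pt x) (bits (idx a (sd x) k)) := by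
      rw [bits_xor _ g2]
      have g4 : bits (idx a (sd x) k) a = sd x := g3
      funext i
      unfold corner
      by_cases hi : i = a
      · subst hi
        rw [Function.update_self, h1 i, g4, h2]
        cases up x
        · simp [vec]
        · simp [vec]
      · rw [Function.update_of_ne hi, h1 i]
        have : vec (a, up x) i = 0 := if_neg hi
        rw [this, sub_zero]
    rw [e1]
  rw [e]

lemma gr_tH (hab : a ≠ b) {x : RD Q a b} (h : x.1.1.1.e.1 = a) :
    gr a b (pa (tH hab x)) (!(sd x)) = go a b (pa x) (sd x) := by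
  have h1 := agr_tH hab h
  unfold gr go
  revert h1
  cases sd x <;> intro h1 <;> simp only [Bool.not_false, Bool.not_true, cond_true, cond_false] at h1 ⊢
    <;> rw [h1]

lemma sd_tH (hab : a ≠ b) {x : RD Q a b} (h : x.1.1.1.e.1 = a) : sd (tH hab x) = !(sd x) := by
  obtain ⟨h0, h1, -⟩ := tH_wall hab h
  have h2 : sd x = !(up x) := bit_wall x h
  have h3 : sd (tH hab x) = !(up (tH hab x)) := bit_wall _ h0
  rw [h3, h2, h1]

lemma wl_lo {x : RD Q a b} (h : x.1.1.1.e.1 = a) : wl a (lo x) = true := by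
  unfold wl
  rw [beq_iff_eq]
  show eax (loc x.1.1 % 8) (loc x.1.1 / 8) = _
  rw [eax_loc]
  exact congrArg Fin.val h

lemma of_wl {x : RD Q a b} (h : wl a (lo x) = true) : x.1.1.1.e.1 = a := by
  unfold wl at h
  rw [beq_iff_eq] at h
  have h1 : eax (loc x.1.1 % 8) (loc x.1.1 / 8) = (a : ℕ) := h
  rw [eax_loc] at h1
  exact Fin.ext h1

/-- **a region with a pole contains a real ribbon** -/
theorem real_of_pole (hM : Q.IsManifold) (hab : a ≠ b) (hB : ∀ v, noB a b (pat Q v) = true)
    (x : RD Q a b) (hx : nu (EH hab) (tH hab) x = x) :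
    ∃ y, Reg (EH hab) (tH hab) x y ∧ Real y.1 := by
  by_contra hcon
  push Not at hcon
  let G := {y : RD Q a b // Reg (EH hab) (tH hab) x y ∧ gr a b (pa y) (sd y) = true}
  have hwall : ∀ y : RD Q a b, Reg (EH hab) (tH hab) x y → y.1.1.1.e.1 = a := fun y hy =>
    (wall_or_cap y).resolve_right (hcon y hy)
  have hnu : ∀ y : RD Q a b, Reg (EH hab) (tH hab) x y →
      Reg (EH hab) (tH hab) x (nu (EH hab) (tH hab) y) := fun y hy =>
    Reg.τ_iff.2 (Reg.E_iff.2 hy)
  have hx0 : x.1.1.1.e.1 = a := hwall x (Reg.refl x)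
  have h1 := x.fact f3_all hM hab
  unfold f3 at h1
  rw [(nu_eq_iff hab x).1 hx] at h1
  simp only [beq_self_eq_true, Bool.not_true, Bool.false_or, Bool.and_eq_true] at h1
  have hG0 : gr a b (pa (tH hab x)) (sd (tH hab x)) = true := by
    rw [sd_tH hab hx0, gr_tH hab hx0]
    exact h1.2
  have : Nonempty G := ⟨⟨tH hab x, Reg.τ_iff.2 (Reg.refl x), hG0⟩⟩
  obtain ⟨y0, hmax⟩ := Finite.exists_max
    (fun y : G => if up y.1 then pt y.1 a else - pt y.1 a)
  obtain ⟨hy1, hy2⟩ := y0.2
  set y := y0.1 with hy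
  set z := nu (EH hab) (tH hab) y with hz
  have hyw := hwall y hy1
  have hzR := hnu y hy1
  have hzw := hwall z hzR
  have hzzw := hwall _ (hnu z hzR)
  have hndiv : ∀ u : RD Q a b, u.1.1.1.e.1 = a → ¬ lo u / 8 = (a : ℕ) := by
    intro u hu h
    rw [lo_div] at h
    exact u.1.1.2.2 ((Fin.ext h).trans hu.symm)
  have h4 := y.fact f4_all hM hab
  unfold f4 at h4
  have e1 : nuL a b (pa y) (lo y) = lo z := (lo_nu hab y).symm
  have hpz : pa z = pa y := pa_nu hab y
  have e2 : nuL a b (pa y) (lo z) = lo (nu (EH hab) (tH hab) z) := by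
    rw [lo_nu hab z, hpz]
  rw [e1, e2, wl_lo hyw, wl_lo hzw] at h4
  have e3 : noB a b (pa y) = true := hB (pt y)
  have e4 : ((lo y % 8).testBit (a : ℕ)) = sd y := rfl
  have e5 : ((lo z % 8).testBit (a : ℕ)) = sd z := rfl
  have e6 : (lo z / 8 == (a : ℕ)) = false := by
    rw [beq_eq_false_iff_ne]; exact hndiv z hzw
  have e7 : (lo (nu (EH hab) (tH hab) z) / 8 == (a : ℕ)) = false := by
    rw [beq_eq_false_iff_ne]; exact hndiv _ hzzw
  rw [e3, e4, e5, e6, e7, hy2] at h4
  simp only [Bool.not_true, Bool.false_or, Bool.true_and, Bool.and_eq_true, beq_iff_eq] at h4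
  obtain ⟨k1, k2⟩ := h4
  -- the next unit
  have hG1 : gr a b (pa (tH hab z)) (sd (tH hab z)) = true := by
    rw [sd_tH hab hzw, gr_tH hab hzw, hpz, k1]
    exact k2
  have hle := hmax ⟨tH hab z, Reg.τ_iff.2 hzR, hG1⟩
  obtain ⟨-, m1, m2⟩ := tH_wall hab hzw
  have hup : up z = !(up y) := by
    have g1 : sd z = !(up z) := bit_wall z hzw
    have g2 : sd y = !(up y) := bit_wall y hyw
    rw [g1, g2] at k1
    revert k1
    cases up z <;> cases up y <;> simp
  have hptz : pt z = pt y := pt_nu hab y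
  change (if up (tH hab z) then pt (tH hab z) a else - pt (tH hab z) a) ≤
    (if up y then pt y a else - pt y a) at hle
  rw [m1, m2 a, hup, Bool.not_not, hptz, vec_a] at hle
  revert hle
  cases up y
  · simp
  · simp

/-! ## The classes of patterns of a refinement -/

variable {P : GridSolid} {n : ℕ} {hn : 0 < n}

lemma bg_false (hM : (P.refine n hn).IsManifold) (hab : a ≠ b) (v : Fin 3 → ℤ) (i : Fin 3)
    (hi : ¬ (n : ℤ) ∣ v i) (q : ℕ) (hq : q < 24)
    (h : rd a b (pat (P.refine n hn) v) q = true) :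
    bg a b (pat (P.refine n hn) v) q = false := by
  have h1 := pat_sym (P := P) hn v i hi
  have h2 := allT_spec (f1_all _ (pat_lt (P := P.refine n hn) v)) (gd_pat hM v) a.2 b.2
    (fun h' => hab (Fin.ext h')) h hq
  unfold f1 at h2
  by_contra h3
  rw [Bool.not_eq_false] at h3
  rw [h3] at h2
  simp only [Bool.and_eq_true, Bool.not_true, Bool.false_or, List.all_eq_true,
    List.mem_range] at h2
  have h4 := h2.1.2 i i.2
  rw [h1] at h4
  simp at h4

theorem noB_refine (hM : (P.refine n hn).IsManifold) (hab : a ≠ b)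
    (hB : ∀ v, noB a b (pat P v) = true) (v : Fin 3 → ℤ) :
    noB a b (pat (P.refine n hn) v) = true := by
  by_cases h : ∀ i, (n : ℤ) ∣ v i
  · rw [pat_old hn v h]; exact hB _
  · push Not at h
    obtain ⟨i, hi⟩ := h
    unfold noB
    rw [List.all_eq_true]
    intro q hq
    rw [List.mem_range] at hq
    by_cases h1 : rd a b (pat (P.refine n hn) v) q = true
    · rw [bg_false hM hab v i hi q hq h1]; simp
    · rw [Bool.not_eq_true] at h1
      rw [h1]; rfl

theorem noK_refine (hM : (P.refine n hn).IsManifold) (hab : a ≠ b)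
    (hK : ∀ v, noK a b (pat P v) = true) (v : Fin 3 → ℤ) :
    noK a b (pat (P.refine n hn) v) = true := by
  by_cases h : ∀ i, (n : ℤ) ∣ v i
  · rw [pat_old hn v h]; exact hK _
  · push Not at h
    obtain ⟨i, hi⟩ := h
    unfold noK
    rw [List.all_eq_true]
    intro q hq
    rw [List.mem_range] at hq
    by_cases h1 : rd a b (pat (P.refine n hn) v) q = true
    · rw [bg_false hM hab v i hi q hq h1]; simp
    · rw [Bool.not_eq_true] at h1
      rw [h1]; rfl

/-! ## The instance -/

/-- **The local facts of the spine system.** -/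
theorem loc_sysH (hn3 : 3 ≤ n) (hP : P.IsManifold) (hab : a ≠ b)
    (hB : ∀ v, noB a b (pat P v) = true) (hK : ∀ v, noK a b (pat P v) = true)
    (hpole : ∀ x : RD (P.refine n hn) a b,
      (∀ y, Reg (EH hab) (tH hab) x y → (EH hab).SameCycle x y) →
        ∃ y, Reg (EH hab) (tH hab) x y ∧ nu (EH hab) (tH hab) y = y) :
    Loc (EH (Q := P.refine n hn) hab) (tH hab) (fun x => okH b x.1) (MR hab) := by
  have hM : (P.refine n hn).IsManifold := isManifold_refine hP hn
  have hB' := noB_refine hM hab hB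
  have hK' := noK_refine hM hab hK
  refine ⟨tH_tH hab, tH_ne hab, ?_, n3H hab hB', g3H (by omega) hM hab, fun x hx => hx.2.1, ?_, ?_,
    ?_, ?_, ?_⟩
  · intro x s t t' h
    exact okH_symm hab h
  · intro x hx
    refine ⟨tH_cap_d hab hx.1, hx.2.2, ?_⟩
    rw [tH_tH]; exact hx.2.1
  · intro x hx s t
    rw [okH_real hx.1]
  · intro q k hq hbig _
    exact g2H hab hK' _ hbig
  · intro ψ hE hψ x
    exact connH hn3 hM hab hB' hE hψ x
  · intro x hx
    obtain ⟨y, hy1, hy2⟩ := hpole x hx
    constructor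
    · obtain ⟨z, hz1, hz2⟩ := real_of_pole hM hab hB' y hy2
      exact ⟨z, hy1.trans hz1, fun s t => by rw [okH_real hz2]⟩
    · refine ⟨y, hy1, false, fun s => ?_⟩
      have h1 := y.fact f3_all hM hab
      unfold f3 at h1
      rw [(nu_eq_iff hab y).1 hy2] at h1
      simp only [beq_self_eq_true, Bool.not_true, Bool.false_or, Bool.and_eq_true] at h1
      rw [okH_iff]
      cases s
      · exact h1.1.2
      · exact h1.1.1.2

end Pool.Agent.MP42.EO
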