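import Pool.Agent.MP42.EO.SepH

/-!
# A region with one face has a pole

Genus zero.  If all ribbons of a region have the same ring on both sides, then one of its vertices
has only one ribbon: otherwise the face contains a closed walk along pairwise different ribbons,
this walk bounds, and the two sides of its ribbons are different.
-/

set_option autoImplicit false
set_option linter.unusedSectionVars false

namespace Pool.Agent.MP42.EO

open Pool.Agent.Helper55.UNF Pool.Agent.Helper55.UNF.GridSolid Pool.Agent.MP42.NE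
open Pool.Agent.MP42.NE.Sys Pool.Agent.MP42NG Pool.Agent.MP42G

variable {P : GridSolid}

lemma rL_inj {s t : P.FSt} (h : s.rL = t.rL) : s = t := by
  have := congrArg FSt.rR h
  rwa [FSt.rL_rR, FSt.rL_rR] at this

lemma rho_ne (s : P.FSt) : rho s ≠ s := by
  intro h
  have h1 := rho_n s
  rw [h] at h1
  have h2 : (opp s.1.n).2 = !s.1.n.2 := rfl
  rw [← h1] at h2
  cases hb : s.1.n.2 <;> rw [hb] at h2 <;> simp at h2

lemma rho_eq {s t : P.FSt} : rho s = t ↔ s = rho t :=
  ⟨fun h => by rw [← h, rho_rho], fun h => by rw [h, rho_rho]⟩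

/-- the edge at the east side of a state -/
noncomputable def ind (s : P.FSt) : P.FSt → F2 := fun t => if t = s ∨ t = rho s then 1 else 0

lemma ind_mem (s : P.FSt) : ind s ∈ C1 P := by
  intro t
  show (if rho t = s ∨ rho t = rho s then (1 : F2) else 0) = if t = s ∨ t = rho s then 1 else 0
  have h1 : rho t = s ↔ t = rho s := rho_eq
  have h2 : rho t = rho s ↔ t = s := by
    constructor
    · intro h; rw [← rho_rho t, h, rho_rho]
    · rintro rfl; rfl
  have h3 : (rho t = s ∨ rho t = rho s) ↔ (t = s ∨ t = rho s) := by rw [h1, h2, or_comm]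
  exact if_congr h3 rfl rfl

lemma ind_split (s t : P.FSt) :
    ind s t = (if s = t then 1 else 0) + (if s = rho t then 1 else 0) := by
  unfold ind
  by_cases h1 : t = s
  · subst h1
    have : t ≠ rho t := (rho_ne t).symm
    simp [this]
  · by_cases h2 : t = rho s
    · subst h2
      have h3 : s = rho (rho s) := (rho_rho s).symm
      have h4 : s ≠ rho s := (rho_ne s).symm
      simp [← h3, h4]
    · have h3 : ¬ s = rho t := fun h => h2 (rho_eq.1 h.symm)
      have h4 : ¬ s = t := fun h => h1 h.symm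
      simp [h1, h2, h3, h4]

lemma d1_ind (s : P.FSt) : d1 P (ind s) =
    (Pi.single (vt s) 1 : Vt P → F2) + Pi.single (vt (rho s)) 1 := d1_edge s

lemma vt_rR (s : P.FSt) : vt (rho s) = vt s.rR := by
  have := vt_rho_rL s.rR
  rwa [FSt.rR_rL] at this

lemma rR_rR (s : P.FSt) : s.rR.rR = s.r2 := by
  apply rL_inj
  rw [FSt.rR_rL, FSt.r2_rL]

section

variable {a b : Fin 3}

/-- nominal frames of the facets orthogonal to `a` -/
def NomP (a b : Fin 3) (s : P.FSt) : Prop := s.1.d.1 = a ∧ ¬ s.1.e.1 = b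

open Classical in
/-- the north side of a dart as a chain of unit edges -/
noncomputable def zc (a b : Fin 3) (t : P.FSt) : P.FSt → F2 :=
  if t.1.d.1 = a then (if t.1.e.1 = b then 0 else ind t + ind t.rR) else ind t.rL

open Classical in
/-- the vertex at the west end of the north side -/
noncomputable def wv (a b : Fin 3) (t : P.FSt) : Vt P :=
  if t.1.d.1 = a then (if t.1.e.1 = b then vt t else vt t.r2) else vt t.rL

lemma zc_mem (t : P.FSt) : zc a b t ∈ C1 P := by
  unfold zc
  split_ifs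
  · exact (C1 P).zero_mem
  · exact (C1 P).add_mem (ind_mem _) (ind_mem _)
  · exact ind_mem _

lemma d1_zc (t : P.FSt) : d1 P (zc a b t) =
    (Pi.single (vt t) 1 : Vt P → F2) + Pi.single (wv a b t) 1 := by
  unfold zc wv
  split_ifs with h1 h2
  · rw [map_zero]
    funext v
    exact (MP42NG.z2 _).symm
  · rw [map_add, d1_ind, d1_ind, vt_rR, vt_rR, rR_rR]
    funext v
    simp only [Pi.add_apply]
    have := MP42NG.z2 ((Pi.single (vt t.rR) 1 : Vt P → F2) v)
    linear_combination this
  · rw [d1_ind, vt_rho_rL, add_comm]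

variable (hab : a ≠ b)

include hab

lemma wv_E (t : HD P a) : wv a b ((sysH P a b hab).E t).1 = vt t.1 := by
  show wv a b (hfx a b t.1.stE) = _
  rw [← vt_stE_rL t.1]
  set u := t.1.stE with hu
  by_cases h1 : u.1.d.1 = a
  · by_cases h2 : u.1.e.1 = b
    · rw [hfx_non h1 h2]
      have h3 : ¬ u.rR.1.e.1 = b := by
        intro h4
        have h5 := (rL_b hab (t := u.rR) h1)
        rw [FSt.rR_rL] at h5
        exact h5.1 h2 h4
      have h4 : u.rR.1.d.1 = a := h1
      unfold wv
      rw [if_pos h4, if_neg h3, rR_r2]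
    · rw [hfx_nom h1 h2]
      have h3 : u.rL.1.e.1 = b := (rL_b hab h1).2 h2
      have h4 : u.rL.1.d.1 = a := h1
      unfold wv
      rw [if_pos h4, if_pos h3]
  · rw [hfx_wall h1]
    unfold wv
    rw [if_neg h1]

lemma pole_ta_wall {t : HD P a} (h1 : ¬ t.1.1.d.1 = a) :
    ((sysH P a b hab).ta t).1 = t.1.rL.stE.rL ∧ ¬ ((sysH P a b hab).ta t).1.1.d.1 = a := by
  have h2 : t.1.1.e.1 = a := t.2.resolve_left h1
  have h3 : ((sysH P a b hab).ta t).1 = t.1.stN.r2 := by
    show hr a b (hN a t.1) = _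
    rw [hN_wall h1, hr_wall (wall_stN h2)]
  constructor
  · rw [h3]
    show t.1.rL.stE.rR.r2 = _
    exact rR_r2 _
  · rw [h3]
    exact wall_stN h2

lemma ta_nom {t : HD P a} (h1 : t.1.1.d.1 = a) (h2 : ¬ t.1.1.e.1 = b) :
    ((sysH P a b hab).ta t).1 = t.1.r2 := by
  show hr a b (hN a t.1) = _
  rw [hN_cap h1, hr_non (t := t.1.rL) h1 ((rL_b hab h1).2 h2), FSt.rL_rL]

lemma ta_non {t : HD P a} (h1 : t.1.1.d.1 = a) (h2 : t.1.1.e.1 = b) :
    (sysH P a b hab).ta t = t := by
  apply Subtype.ext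
  show hr a b (hN a t.1) = _
  rw [hN_cap h1, hr_nom (t := t.1.rL) h1 (by rw [rL_b hab h1]; exact not_not.2 h2), FSt.rL_rR]

lemma wv_ta (t : HD P a) : wv a b ((sysH P a b hab).ta t).1 = vt t.1 := by
  by_cases h1 : t.1.1.d.1 = a
  · by_cases h2 : t.1.1.e.1 = b
    · rw [ta_non hab h1 h2]
      unfold wv
      rw [if_pos h1, if_pos h2]
    · rw [ta_nom hab h1 h2]
      unfold wv
      have h3 : t.1.r2.1.d.1 = a := h1
      have h4 : ¬ t.1.r2.1.e.1 = b := h2
      rw [if_pos h3, if_neg h4, FSt.r2_r2]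
  · obtain ⟨h3, h4⟩ := pole_ta_wall hab h1
    unfold wv
    rw [if_neg h4, h3, FSt.rL_rL]
    exact vt_rho_rL t.1

end

/-! ## A closed walk -/

section Walk

variable {a b : Fin 3} (hab : a ≠ b)
variable (m : ℕ) (x : ℕ → HD P a)

/-- the chain of the walk `x 1, ..., x m` -/
noncomputable def ec (b : Fin 3) : P.FSt → F2 := ∑ k ∈ Finset.range m, zc a b (x (k + 1)).1

lemma ec_apply (s : P.FSt) : ec m x b s = ∑ k ∈ Finset.range m, zc a b (x (k + 1)).1 s := by
  unfold ec
  rw [Finset.sum_apply]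

lemma ec_mem : ec m x b ∈ C1 P := by
  unfold ec
  exact Submodule.sum_mem _ fun k _ => zc_mem _

include hab in
lemma d1_ec (hx : ∀ k, x (k + 1) = (sysH P a b hab).E (x k)) : d1 P (ec m x b) =
    (Pi.single (vt (x m).1) 1 : Vt P → F2) + Pi.single (vt (x 0).1) 1 := by
  induction m with
  | zero =>
    unfold ec
    rw [Finset.sum_range_zero, map_zero]
    funext v
    exact (MP42NG.z2 _).symm
  | succ m ih =>
    have h1 : ec (m + 1) x b = ec m x b + zc a b (x (m + 1)).1 := by
      unfold ec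
      rw [Finset.sum_range_succ]
    have h2 : wv a b (x (m + 1)).1 = vt (x m).1 := by rw [hx m, wv_E hab]
    rw [h1, map_add, ih, d1_zc, h2]
    funext v
    simp only [Pi.add_apply]
    have := MP42NG.z2 ((Pi.single (vt (x m).1) 1 : Vt P → F2) v)
    linear_combination this

open Classical in
/-- the correction on the caps -/
noncomputable def corr (b : Fin 3) (s : P.FSt) : F2 := ∑ k ∈ Finset.range m,
  if NomP a b (x (k + 1)).1 then
    (if (x (k + 1)).1 = s then (1 : F2) else 0) + (if (x (k + 1)).1 = s.rL then 1 else 0) else 0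

open Classical in
/-- how often the walk passes a dart -/
noncomputable def cnt (t : HD P a) : F2 := ∑ k ∈ Finset.range m, if x (k + 1) = t then (1 : F2) else 0

/-- the chain at the east side of a dart -/
lemma ec_dart {s : P.FSt} (hs : IsD a s) : ec m x b s = corr m x b s + corr m x b (rho s) := by
  rw [ec_apply]
  unfold corr
  rw [← Finset.sum_add_distrib]
  refine Finset.sum_congr rfl fun k _ => ?_
  generalize x (k + 1) = y
  by_cases h1 : y.1.1.d.1 = a
  · by_cases h2 : y.1.1.e.1 = b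
    · have h3 : ¬ NomP a b y.1 := fun h => h.2 h2
      unfold zc
      rw [if_pos h1, if_pos h2, if_neg h3, if_neg h3]
      simp
    · have h3 : NomP a b y.1 := ⟨h1, h2⟩
      unfold zc
      rw [if_pos h1, if_neg h2, if_pos h3, if_pos h3, Pi.add_apply, ind_split, ind_split]
      have e1 : (y.1.rR = s) ↔ (y.1 = s.rL) :=
        ⟨fun h => by rw [← h, FSt.rR_rL], fun h => by rw [h, FSt.rL_rR]⟩
      have e2 : (y.1.rR = rho s) ↔ (y.1 = (rho s).rL) :=
        ⟨fun h => by rw [← h, FSt.rR_rL], fun h => by rw [h, FSt.rL_rR]⟩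
      simp only [e1, e2]
      ring
  · have h3 : ¬ NomP a b y.1 := fun h => h1 h.1
    have h4 := wall_rL h1 (y.2.resolve_left h1)
    have h5 : ¬ s = y.1.rL := fun h => h4 (h ▸ hs)
    have h6 : ¬ s = rho y.1.rL := fun h => h4 (isD_rho.1 (h ▸ hs))
    unfold zc
    rw [if_neg h1, if_neg h3, if_neg h3]
    unfold ind
    rw [if_neg (by rintro (h | h); exacts [h5 h, h6 h])]
    simp

/-- the correction does not change under a half turn -/
lemma corr_hr (hab : a ≠ b) (s : P.FSt) : corr m x b (hr a b s) = corr m x b s := by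
  unfold corr
  refine Finset.sum_congr rfl fun k _ => ?_
  generalize x (k + 1) = y
  by_cases h0 : NomP a b y.1
  · rw [if_pos h0, if_pos h0]
    by_cases h1 : s.1.d.1 = a
    · by_cases h2 : s.1.e.1 = b
      · rw [hr_non h1 h2, FSt.rL_rL]
        have e1 : ¬ y.1 = s.r2 := fun h => h0.2 (by rw [h]; exact h2)
        have e2 : ¬ y.1 = s := fun h => h0.2 (by rw [h]; exact h2)
        rw [if_neg e1, if_neg e2]
        ring
      · rw [hr_nom h1 h2, FSt.rR_rL]
        have h3 : s.rR.1.e.1 = b := (rR_b hab h1).2 h2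
        have h4 : s.rL.1.e.1 = b := (rL_b hab h1).2 h2
        have e1 : ¬ y.1 = s.rR := fun h => h0.2 (by rw [h]; exact h3)
        have e2 : ¬ y.1 = s.rL := fun h => h0.2 (by rw [h]; exact h4)
        rw [if_neg e1, if_neg e2]
        ring
    · rw [hr_wall h1]
      have e1 : ¬ y.1 = s.r2 := fun h => h1 (by rw [h] at h0; exact h0.1)
      have e2 : ¬ y.1 = s := fun h => h1 (by rw [h] at h0; exact h0.1)
      have e3 : ¬ y.1 = s.rL := fun h => h1 (by rw [h] at h0; exact h0.1)
      have e4 : ¬ y.1 = s.r2.rL := fun h => h1 (by rw [h] at h0; exact h0.1)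
      rw [if_neg e1, if_neg e2, if_neg e3, if_neg e4]
  · rw [if_neg h0, if_neg h0]

lemma corr_nom (hab : a ≠ b) {t : HD P a} (h : NomP a b t.1) : corr m x b t.1 = cnt m x t := by
  unfold corr cnt
  refine Finset.sum_congr rfl fun k _ => ?_
  generalize x (k + 1) = y
  have h4 : t.1.rL.1.e.1 = b := (rL_b hab h.1).2 h.2
  by_cases h0 : NomP a b y.1
  · rw [if_pos h0]
    have e2 : ¬ y.1 = t.1.rL := fun h => h0.2 (by rw [h]; exact h4)
    rw [if_neg e2, add_zero]
    exact if_congr Subtype.ext_iff.symm rfl rfl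
  · rw [if_neg h0, if_neg (fun h1 => h0 (by rw [h1]; exact h))]

lemma corr_wall {s : P.FSt} (h : ¬ s.1.d.1 = a) : corr m x b s = 0 := by
  unfold corr
  refine Finset.sum_eq_zero fun k _ => ?_
  generalize x (k + 1) = y
  by_cases h0 : NomP a b y.1
  · have e2 : ¬ y.1 = s := fun h1 => h (by rw [h1] at h0; exact h0.1)
    have e3 : ¬ y.1 = s.rL := fun h1 => h (by rw [h1] at h0; exact h0.1)
    rw [if_pos h0, if_neg e2, if_neg e3, add_zero]
  · rw [if_neg h0]

/-- the chain at the north side of a wall -/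
lemma ec_wall (hab : a ≠ b) {t : HD P a} (h : ¬ t.1.1.d.1 = a) :
    ec m x b t.1.rL = cnt m x t + cnt m x ((sysH P a b hab).ta t) := by
  rw [ec_apply]
  unfold cnt
  rw [← Finset.sum_add_distrib]
  refine Finset.sum_congr rfl fun k _ => ?_
  generalize x (k + 1) = y
  have h2 := wall_rL h (t.2.resolve_left h)
  obtain ⟨h3, h4⟩ := pole_ta_wall hab h
  by_cases h1 : y.1.1.d.1 = a
  · have e1 : ¬ y = t := fun e => h (by rw [← e]; exact h1)
    have e2 : ¬ y = (sysH P a b hab).ta t := fun e => h4 (by rw [← e]; exact h1)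
    rw [if_neg e1, if_neg e2]
    have hc : ∀ s : P.FSt, IsD a s → ind s t.1.rL = 0 := by
      intro s hs
      unfold ind
      rw [if_neg]
      rintro (e | e)
      · exact h2 (e ▸ hs)
      · exact h2 (e ▸ isD_rho.2 hs)
    unfold zc
    rw [if_pos h1]
    split_ifs with h5
    · simp
    · rw [Pi.add_apply, hc y.1 y.2, hc y.1.rR (Or.inl h1)]
  · unfold zc
    rw [if_neg h1, ind_split]
    have e1 : (y.1.rL = t.1.rL) ↔ (y = t) :=
      ⟨fun e => Subtype.ext (rL_inj e), fun e => by rw [e]⟩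
    have e2 : (y.1.rL = rho t.1.rL) ↔ (y = (sysH P a b hab).ta t) := by
      have e3 : rho t.1.rL = ((sysH P a b hab).ta t).1.rL := by
        rw [h3, FSt.rL_rL]; rfl
      rw [e3]
      exact ⟨fun e => Subtype.ext (rL_inj e), fun e => by rw [e]⟩
    simp only [e1, e2]

variable {f : P.Facet → F2}

/-- the colour of a dart -/
noncomputable def colF (b : Fin 3) (f : P.Facet → F2) (t : HD P a) : F2 :=
  f t.1.facet + corr m x b t.1

lemma facet_hfx (s : P.FSt) : (hfx a b s).facet = s.facet := by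
  unfold hfx
  split_ifs
  · rfl
  · rfl
  · rfl

lemma colF_E (hab : a ≠ b) (hf : ∀ s : P.FSt, f s.facet + f s.stE.facet = ec m x b s) (t : HD P a) :
    colF m x b f ((sysH P a b hab).E t) = colF m x b f t := by
  unfold colF
  have h1 : ((sysH P a b hab).E t).1.facet = t.1.stE.facet := facet_hfx _
  have h2 := hf t.1
  rw [ec_dart m x t.2] at h2
  have h3 : corr m x b (rho t.1) = corr m x b ((sysH P a b hab).E t).1 := by
    rw [← om_val hab t]
    exact corr_hr m x hab _
  rw [h1, ← h3]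
  have key : ∀ p q r s : F2, p + q = r + s → q + s = p + r := by decide
  exact key _ _ _ _ h2

lemma colF_ta (hab : a ≠ b) (hf : ∀ s : P.FSt, f s.facet + f s.stE.facet = ec m x b s) {t : HD P a}
    (ht : Rib b t) : colF m x b f ((sysH P a b hab).ta t) + colF m x b f t =
      cnt m x t + cnt m x ((sysH P a b hab).ta t) := by
  unfold colF
  by_cases h1 : t.1.1.d.1 = a
  · have h2 : ¬ t.1.1.e.1 = b := fun h2 => ht ⟨h1, h2⟩
    have h3 := ta_nom hab h1 h2
    have h4 : NomP a b ((sysH P a b hab).ta t).1 := by rw [h3]; exact ⟨h1, h2⟩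
    rw [corr_nom m x hab h4, corr_nom m x hab ⟨h1, h2⟩, h3]
    have h5 : t.1.r2.facet = t.1.facet := FSt.facet_r2 _
    rw [h5]
    have := MP42NG.z2 (f t.1.facet)
    linear_combination this
  · obtain ⟨h3, h4⟩ := pole_ta_wall hab h1
    rw [corr_wall m x h1, corr_wall m x h4, ← ec_wall m x hab h1, ← hf, h3]
    show f t.1.rL.stE.facet + 0 + (f t.1.facet + 0) = f t.1.facet + f t.1.rL.stE.facet
    ring

end Walk

/-! ## The pole -/

section Pole

variable {a b : Fin 3} (hab : a ≠ b)

/-- a closed walk bounds -/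
lemma exists_colour (hP : P.IsOrthogonalPolyhedron) (h0 : Pool.BW.eul P = 2) (m : ℕ)
    (x : ℕ → HD P a) (hx : ∀ k, x (k + 1) = (sysH P a b hab).E (x k))
    (hm : x (m + 1) = (sysH P a b hab).ta (x 0)) :
    ∃ F : HD P a → F2, (∀ t, F ((sysH P a b hab).E t) = F t) ∧
      ∀ t, Rib b t → F ((sysH P a b hab).ta t) + F t =
        cnt m x t + cnt m x ((sysH P a b hab).ta t) := by
  have h1 : d1 P (ec m x b) = 0 := by
    rw [d1_ec hab m x hx]
    have h2 : vt (x m).1 = vt (x 0).1 := by
      rw [← wv_E hab (x m), ← hx m, hm, wv_ta hab]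
    rw [h2]
    funext v
    exact MP42NG.z2 _
  have hc := card_of_eul hP h0
  rw [Nat.card_eq_fintype_card, Nat.card_eq_fintype_card] at hc
  have h2 : ec m x b ∈ C1 P ⊓ LinearMap.ker (d1 P) := ⟨ec_mem m x, h1⟩
  rw [cycle_bd hP hc] at h2
  obtain ⟨f, hf⟩ := h2
  have hf' : ∀ s : P.FSt, f s.facet + f s.stE.facet = ec m x b s := fun s => congrFun hf s
  exact ⟨colF m x b f, fun t => colF_E m x hab hf' t, fun t ht => colF_ta m x hab hf' ht⟩

lemma ta_ne {t : HD P a} (h : Rib b t) : (sysH P a b hab).ta t ≠ t := by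
  intro h1
  refine (N_eq_r hab).1 ?_ h
  have h2 : (sysH P a b hab).r ((sysH P a b hab).N t) = t := h1
  rw [← (sysH P a b hab).rr ((sysH P a b hab).N t), h2]

/-- the cycle of a first return -/
lemma same_of_ret {X : Type*} [Finite X] {π : Equiv.Perm X} {p : X → Prop} {x y : {x // p x}}
    (h : (ret π p).SameCycle x y) : π.SameCycle x.1 y.1 := by
  obtain ⟨n, rfl⟩ := h.exists_nat_pow_eq
  clear h
  induction n with
  | zero => exact Equiv.Perm.SameCycle.refl _ _
  | succ n ih =>
    rw [pow_succ', Equiv.Perm.mul_apply, ret_val, retFun_eq]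
    exact ih.trans ⟨((retN π p (((ret π p) ^ n) x).1 + 1 : ℕ) : ℤ), by rw [zpow_natCast]⟩

lemma reg_of_same {X : Type*} [Finite X] {E : Equiv.Perm X} {τ : X → X} {x y : X}
    (h : E.SameCycle x y) : Reg E τ x y := by
  obtain ⟨n, rfl⟩ := h.exists_nat_pow_eq
  clear h
  induction n with
  | zero => exact Relation.EqvGen.refl _
  | succ n ih =>
    rw [pow_succ', Equiv.Perm.mul_apply]
    exact Relation.EqvGen.trans _ _ _ ih (Relation.EqvGen.rel _ _ (Or.inl rfl))

lemma pow_add' {X : Type*} (π : Equiv.Perm X) (i j : ℕ) (y : X) :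
    (π ^ i) ((π ^ j) y) = (π ^ (i + j)) y := by
  rw [pow_add, Equiv.Perm.mul_apply]

/-- **a one-face region has a pole** -/
theorem pole_sysH (hP : P.IsOrthogonalPolyhedron) (h0 : Pool.BW.eul P = 2)
    (hR : ∀ x : HD P a, Rib b x → Rib b ((sysH P a b hab).ta x)) (x : {x : HD P a // Rib b x})
    (hx : ∀ y, Reg (ret (sysH P a b hab).E (Rib b))
      (fun z => ⟨(sysH P a b hab).ta z.1, hR z.1 z.2⟩) x y →
      (ret (sysH P a b hab).E (Rib b)).SameCycle x y) :
    ∃ y, Reg (ret (sysH P a b hab).E (Rib b))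
      (fun z => ⟨(sysH P a b hab).ta z.1, hR z.1 z.2⟩) x y ∧
      nu (ret (sysH P a b hab).E (Rib b))
        (fun z => ⟨(sysH P a b hab).ta z.1, hR z.1 z.2⟩) y = y := by
  classical
  set S := sysH P a b hab with hS
  set τ : {x : HD P a // Rib b x} → {x : HD P a // Rib b x} :=
    fun z => ⟨S.ta z.1, hR z.1 z.2⟩ with hτ
  set Q : ℕ → Prop := fun m => ∃ y : HD P a, S.E.SameCycle x.1 y ∧ Rib b y ∧
    (S.E ^ (m + 1)) y = S.ta y with hQd
  have hQ : ∃ m, Q m := by
    have h1 : (ret S.E (Rib b)).SameCycle x (τ x) :=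
      hx _ (Relation.EqvGen.rel _ _ (Or.inr rfl))
    obtain ⟨n, hn⟩ := (same_of_ret h1).exists_nat_pow_eq
    rcases Nat.eq_zero_or_pos n with h2 | h2
    · subst h2
      exact absurd hn.symm (ta_ne hab x.2)
    · refine ⟨n - 1, x.1, Equiv.Perm.SameCycle.refl _ _, x.2, ?_⟩
      rw [Nat.sub_add_cancel h2]
      exact hn
  obtain ⟨m, ⟨y, hy1, hy2, hy3⟩, hmin⟩ : ∃ m, Q m ∧ ∀ k < m, ¬ Q k :=
    ⟨Nat.find hQ, Nat.find_spec hQ, fun k hk => Nat.find_min hQ hk⟩
  have hcy : ∀ k : ℕ, S.E.SameCycle x.1 ((S.E ^ k) y) := fun k =>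
    hy1.trans ⟨(k : ℤ), by rw [zpow_natCast]⟩
  by_cases hk : ∃ k, k < m ∧ Rib b ((S.E ^ (k + 1)) y)
  · exfalso
    obtain ⟨k0, hk0, hr⟩ := hk
    obtain ⟨F, hF1, hF2⟩ := exists_colour hab hP h0 m (fun k => (S.E ^ k) y)
      (fun k => by rw [pow_succ', Equiv.Perm.mul_apply]) hy3
    set t := (S.E ^ (k0 + 1)) y with ht
    have hinj : ∀ i j : ℕ, i < j → j < m → (S.E ^ (i + 1)) y ≠ (S.E ^ (j + 1)) y := by
      intro i j hij hj he
      refine hmin (m - (j - i)) (by omega) ⟨y, hy1, hy2, ?_⟩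
      rw [← hy3]
      have e1 : m + 1 = (m - j) + (j + 1) := by omega
      have e2 : m - (j - i) + 1 = (m - j) + (i + 1) := by omega
      rw [e1, e2, ← pow_add' S.E (m - j) (i + 1), ← pow_add' S.E (m - j) (j + 1), he]
    have c1 : cnt m (fun k => (S.E ^ k) y) t = 1 := by
      unfold cnt
      rw [Finset.sum_eq_single k0]
      · rw [if_pos rfl]
      · intro k h1 h2
        rw [Finset.mem_range] at h1
        rw [if_neg]
        rcases lt_or_gt_of_ne h2 with h3 | h3
        · exact hinj k k0 h3 hk0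
        · exact (hinj k0 k h3 h1).symm
      · intro h1
        exact absurd (Finset.mem_range.2 hk0) h1
    have c2 : cnt m (fun k => (S.E ^ k) y) (S.ta t) = 0 := by
      unfold cnt
      refine Finset.sum_eq_zero fun k h1 => ?_
      rw [Finset.mem_range] at h1
      rw [if_neg]
      intro h2
      change (S.E ^ (k + 1)) y = S.ta t at h2
      rcases lt_trichotomy k k0 with h3 | h3 | h3
      · have h4 : S.ta ((S.E ^ (k + 1)) y) = t := by rw [h2, S.ta_ta]
        refine hmin (k0 - k - 1) (by omega) ⟨(S.E ^ (k + 1)) y, hcy _, ?_, ?_⟩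
        · rw [h2]; exact hR _ hr
        · rw [h4, pow_add', ht]
          congr 2
          omega
      · rw [h3] at h2
        exact ta_ne hab hr h2.symm
      · refine hmin (k - k0 - 1) (by omega) ⟨t, hcy _, hr, ?_⟩
        rw [← h2, ht, pow_add']
        congr 2
        omega
    have h1 := hF2 t hr
    rw [c1, c2] at h1
    have hFc : ∀ z w : HD P a, S.E.SameCycle z w → F z = F w := by
      intro z w h
      obtain ⟨n, rfl⟩ := h.exists_nat_pow_eq
      clear h
      induction n with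
      | zero => rfl
      | succ n ih =>
        rw [pow_succ', Equiv.Perm.mul_apply, hF1]
        exact ih
    have h2 : Reg (ret S.E (Rib b)) τ x (τ ⟨t, hr⟩) :=
      Relation.EqvGen.trans _ _ _ (reg_of_same (ret_sameCycle (y := ⟨t, hr⟩) (hcy _)))
        (Relation.EqvGen.rel _ _ (Or.inr rfl))
    have h3 := same_of_ret (hx _ h2)
    have h4 : F (S.ta t) = F t := (hFc _ _ h3).symm.trans (hFc _ _ (hcy _))
    have h5 : F (S.ta t) + F t = 1 + 0 := h1
    rw [h4] at h5
    have key : ∀ p : F2, p + p ≠ 1 + 0 := by decide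
    exact key _ h5
  · push Not at hk
    refine ⟨⟨y, hy2⟩, reg_of_same (ret_sameCycle (y := ⟨y, hy2⟩) hy1), ?_⟩
    apply Subtype.ext
    show S.ta (retFun S.E (Rib b) y) = y
    rw [retFun_eq_of (j := m) (by rw [hy3]; exact hR _ hy2) hk, hy3, S.ta_ta]

end Pole

end Pool.Agent.MP42.EO
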