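import Pool.Agent.MP42.NE.F2
import Pool.Agent.MP42.NE.Ex
import Pool.Agent.MP42.EO.If

/-!
# The tree of the rings

If every ring separates (its two sides are not connected by `E`, `ta` and the crossings of the
other rings), then the regions (classes of `E` and `ta`) form a tree with the rings as edges:
there are a predicate `R` (root side of its region) and a rank.
-/

set_option autoImplicit false

namespace Pool.Agent.MP42.EO

open Pool.Agent.MP42.NE Pool.Agent.MP42.NE.Sys

variable {D : Type*}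

/-- the darts of the ring of `x` -/
def Rng (S : Sys D) (x a : D) : Prop := S.E.SameCycle x a ∨ S.E.SameCycle (S.om x) a

/-- connection that does not cross `A` -/
def Cn (S : Sys D) (A : D → Prop) (x y : D) : Prop :=
  Relation.EqvGen (fun a b => b = S.E a ∨ b = S.ta a ∨ (b = S.om a ∧ ¬ A a)) x y

section

variable {S : Sys D}

lemma Cn.refl (A : D → Prop) (x : D) : Cn S A x x := Relation.EqvGen.refl _

lemma Cn.symm {A : D → Prop} {x y : D} (h : Cn S A x y) : Cn S A y x :=
  Relation.EqvGen.symm _ _ h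

lemma Cn.trans {A : D → Prop} {x y z : D} (h : Cn S A x y) (h' : Cn S A y z) : Cn S A x z :=
  Relation.EqvGen.trans _ _ _ h h'

lemma Cn.sE (A : D → Prop) (x : D) : Cn S A x (S.E x) := Relation.EqvGen.rel _ _ (Or.inl rfl)

lemma Cn.sta (A : D → Prop) (x : D) : Cn S A x (S.ta x) :=
  Relation.EqvGen.rel _ _ (Or.inr (Or.inl rfl))

lemma Cn.som {A : D → Prop} {x : D} (h : ¬ A x) : Cn S A x (S.om x) :=
  Relation.EqvGen.rel _ _ (Or.inr (Or.inr ⟨rfl, h⟩))

lemma Cn.mono {A B : D → Prop} (hAB : ∀ x, B x → A x) {x y : D} (h : Cn S A x y) : Cn S B x y := by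
  induction h with
  | rel a b h =>
    rcases h with h | h | ⟨h, h'⟩
    · exact Relation.EqvGen.rel _ _ (Or.inl h)
    · exact Relation.EqvGen.rel _ _ (Or.inr (Or.inl h))
    · exact Relation.EqvGen.rel _ _ (Or.inr (Or.inr ⟨h, fun h2 => h' (hAB _ h2)⟩))
  | refl a => exact Cn.refl _ _
  | symm a b _ ih => exact ih.symm
  | trans a b c _ _ ih1 ih2 => exact ih1.trans ih2

lemma Cn.of_reg (A : D → Prop) {x y : D} (h : Reg S.E S.ta x y) : Cn S A x y := by
  induction h with
  | rel a b h =>
    rcases h with h | h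
    · exact Relation.EqvGen.rel _ _ (Or.inl h)
    · exact Relation.EqvGen.rel _ _ (Or.inr (Or.inl h))
  | refl a => exact Cn.refl _ _
  | symm a b _ ih => exact ih.symm
  | trans a b c _ _ ih1 ih2 => exact ih1.trans ih2

variable [Finite D]

lemma reg_cyc {x y : D} (h : S.E.SameCycle x y) : Reg S.E S.ta x y := by
  obtain ⟨n, rfl⟩ := h.exists_nat_pow_eq
  clear h
  induction n with
  | zero => exact Relation.EqvGen.refl _
  | succ n ih =>
    rw [pow_succ_E]
    exact Relation.EqvGen.trans _ _ _ ih (Relation.EqvGen.rel _ _ (Or.inl rfl))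

lemma Cn.cyc (A : D → Prop) {x y : D} (h : S.E.SameCycle x y) : Cn S A x y :=
  Cn.of_reg A (reg_cyc h)

omit [Finite D] in
lemma Rng.refl (x : D) : Rng S x x := Or.inl (Equiv.Perm.SameCycle.refl _ _)

lemma Rng.symm {x y : D} (h : Rng S x y) : Rng S y x := by
  rcases h with h | h
  · exact Or.inl h.symm
  · right
    have h1 := same_om h
    rw [om_om] at h1
    exact h1.symm

lemma Rng.trans {x y z : D} (h : Rng S x y) (h' : Rng S y z) : Rng S x z := by
  rcases h with h | h
  · rcases h' with h' | h'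
    · exact Or.inl (h.trans h')
    · exact Or.inr ((same_om h).trans h')
  · rcases h' with h' | h'
    · exact Or.inr (h.trans h')
    · left
      have h1 := same_om h
      rw [om_om] at h1
      exact h1.trans h'

omit [Finite D] in
lemma Rng.om (x : D) : Rng S x (S.om x) := Or.inr (Equiv.Perm.SameCycle.refl _ _)

lemma Rng.iff {x y : D} (h : Rng S x y) (a : D) : Rng S x a ↔ Rng S y a :=
  ⟨fun h1 => h.symm.trans h1, fun h1 => h.trans h1⟩

lemma Cn.ring {x y : D} (h : Rng S x y) {a b : D} : Cn S (Rng S x) a b ↔ Cn S (Rng S y) a b :=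
  ⟨Cn.mono (fun z => (h.iff z).2), Cn.mono (fun z => (h.iff z).1)⟩

/-- closure under everything -/
lemma trans_of (htr : S.Trans) {B : D → Prop} (hE : ∀ x, B (S.E x) ↔ B x)
    (ht : ∀ x, B x → B (S.ta x)) (ho : ∀ x, B x → B (S.om x)) {x : D} (hx : B x) (y : D) :
    B y := by
  have ho' : ∀ x, B (S.om x) ↔ B x := fun x => ⟨fun h => by
    have := ho _ h
    rwa [om_om] at this, ho x⟩
  have ht' : ∀ x, B (S.ta x) ↔ B x := fun x => ⟨fun h => by
    have := ht _ h
    rwa [S.ta_ta] at this, ht x⟩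
  have hr : ∀ x, B (S.r x) ↔ B x := fun x => by rw [← E_om, hE, ho']
  have hN : ∀ x, B (S.N x) ↔ B x := fun x => by
    rw [← hr (S.N x)]
    exact ht' x
  exact htr B hE hN hr x y hx

/-- every dart is connected to one side of the ring -/
lemma dich (htr : S.Trans) (x a : D) : Cn S (Rng S x) x a ∨ Cn S (Rng S x) (S.om x) a := by
  refine trans_of (B := fun a => Cn S (Rng S x) x a ∨ Cn S (Rng S x) (S.om x) a) htr
    (fun y => ⟨fun h => h.imp (fun h => h.trans (Cn.sE _ y).symm)
      (fun h => h.trans (Cn.sE _ y).symm), fun h => h.imp (fun h => h.trans (Cn.sE _ y))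
      (fun h => h.trans (Cn.sE _ y))⟩) (fun y h => h.imp (fun h => h.trans (Cn.sta _ y))
      (fun h => h.trans (Cn.sta _ y))) (fun y h => ?_) (Or.inl (Cn.refl _ x)) a
  by_cases hy : Rng S x y
  · rcases hy with hy | hy
    · exact Or.inr (Cn.cyc _ (same_om hy))
    · left
      have h1 := same_om hy
      rw [om_om] at h1
      exact Cn.cyc _ h1
  · exact h.imp (fun h => h.trans (Cn.som hy)) (fun h => h.trans (Cn.som hy))

/-- every dart is connected to one side of one of two rings -/
lemma dich2 (htr : S.Trans) (x x' a : D) :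
    (Cn S (fun b => Rng S x b ∨ Rng S x' b) x a ∨ Cn S (fun b => Rng S x b ∨ Rng S x' b) (S.om x) a)
    ∨ (Cn S (fun b => Rng S x b ∨ Rng S x' b) x' a ∨
      Cn S (fun b => Rng S x b ∨ Rng S x' b) (S.om x') a) := by
  set A : D → Prop := fun b => Rng S x b ∨ Rng S x' b with hA
  refine trans_of (B := fun a => (Cn S A x a ∨ Cn S A (S.om x) a) ∨
    (Cn S A x' a ∨ Cn S A (S.om x') a)) htr
    (fun y => ⟨fun h => h.imp (fun h => h.imp (fun h => h.trans (Cn.sE _ y).symm)
      (fun h => h.trans (Cn.sE _ y).symm)) (fun h => h.imp (fun h => h.trans (Cn.sE _ y).symm)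
      (fun h => h.trans (Cn.sE _ y).symm)), fun h => h.imp (fun h => h.imp
      (fun h => h.trans (Cn.sE _ y)) (fun h => h.trans (Cn.sE _ y))) (fun h => h.imp
      (fun h => h.trans (Cn.sE _ y)) (fun h => h.trans (Cn.sE _ y)))⟩)
    (fun y h => h.imp (fun h => h.imp (fun h => h.trans (Cn.sta _ y))
      (fun h => h.trans (Cn.sta _ y))) (fun h => h.imp (fun h => h.trans (Cn.sta _ y))
      (fun h => h.trans (Cn.sta _ y)))) (fun y h => ?_) (Or.inl (Or.inl (Cn.refl _ x))) a
  by_cases hy : A y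
  · rcases hy with hy | hy
    · left
      rcases hy with hy | hy
      · exact Or.inr (Cn.cyc _ (same_om hy))
      · left
        have h1 := same_om hy
        rw [om_om] at h1
        exact Cn.cyc _ h1
    · right
      rcases hy with hy | hy
      · exact Or.inr (Cn.cyc _ (same_om hy))
      · left
        have h1 := same_om hy
        rw [om_om] at h1
        exact Cn.cyc _ h1
  · exact h.imp (fun h => h.imp (fun h => h.trans (Cn.som hy)) (fun h => h.trans (Cn.som hy)))
      (fun h => h.imp (fun h => h.trans (Cn.som hy)) (fun h => h.trans (Cn.som hy)))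

/-- **the ring tree** -/
theorem ring_tree [Nonempty D] (htr : S.Trans)
    (hsep : ∀ x, ¬ Relation.EqvGen (fun a b => b = S.E a ∨ b = S.ta a ∨
      (b = S.om a ∧ ¬ (S.E.SameCycle x a ∨ S.E.SameCycle (S.om x) a))) x (S.om x)) :
    ∃ (R : D → Prop) (rk : D → ℕ), (∀ x, R (S.E x) ↔ R x) ∧
      (∀ x y, Reg S.E S.ta x y → rk x = rk y) ∧
      (∀ x, ∃ y, Reg S.E S.ta x y ∧ R y) ∧
      (∀ x y, Reg S.E S.ta x y → R x → R y → S.E.SameCycle x y) ∧
      (∀ x, ¬ R x → R (S.om x)) ∧ (∀ x, ¬ R x → rk x < rk (S.om x)) := by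
  classical
  have hs : ∀ x, ¬ Cn S (Rng S x) x (S.om x) := hsep
  obtain ⟨b0⟩ := ‹Nonempty D›
  have hfin : ∀ x : D, {y | ¬ Rng S y b0 ∧ Cn S (Rng S y) (S.om y) b0 ∧
    Cn S (Rng S y) y x}.Finite := fun x => Set.toFinite _
  refine ⟨fun x => Rng S x b0 ∨ Cn S (Rng S x) (S.om x) b0,
    fun x => Set.ncard {y | ¬ Rng S y b0 ∧ Cn S (Rng S y) (S.om y) b0 ∧ Cn S (Rng S y) y x},
    ?_, ?_, ?_, ?_, ?_, ?_⟩
  · intro x
    have h1 : Rng S (S.E x) x := Or.inl (same_E x)
    have h2 : Cn S (Rng S (S.E x)) (S.om (S.E x)) b0 ↔ Cn S (Rng S x) (S.om x) b0 := by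
      rw [Cn.ring h1]
      have h3 : Cn S (Rng S x) (S.om (S.E x)) (S.om x) := by
        have h4 := Cn.sE (S := S) (Rng S x) (S.om (S.E x))
        rwa [E_om_E] at h4
      exact ⟨fun h => h3.symm.trans h, fun h => h3.trans h⟩
    show Rng S (S.E x) b0 ∨ _ ↔ _
    rw [h2, h1.iff]
  · intro x x' h
    have h2 : {y | ¬ Rng S y b0 ∧ Cn S (Rng S y) (S.om y) b0 ∧ Cn S (Rng S y) y x} =
        {y | ¬ Rng S y b0 ∧ Cn S (Rng S y) (S.om y) b0 ∧ Cn S (Rng S y) y x'} := by
      ext y
      refine and_congr_right (fun _ => and_congr_right (fun _ => ?_))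
      exact ⟨fun h1 => h1.trans (Cn.of_reg _ h), fun h1 => h1.trans (Cn.of_reg _ h).symm⟩
    show Set.ncard _ = Set.ncard _
    rw [h2]
  · intro x
    by_contra hcon
    push Not at hcon
    have hB : Reg S.E S.ta x b0 ∨ ∃ y, Reg S.E S.ta x y ∧ Cn S (Rng S y) (S.om y) b0 := by
      refine trans_of (B := fun a => Reg S.E S.ta x a ∨ ∃ y, Reg S.E S.ta x y ∧
        Cn S (Rng S y) (S.om y) a) htr ?_ ?_ ?_ (Or.inl (Relation.EqvGen.refl x)) b0
      · intro a
        have h1 : Reg S.E S.ta a (S.E a) := Relation.EqvGen.rel _ _ (Or.inl rfl)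
        constructor
        · rintro (h | ⟨y, hy, h⟩)
          · exact Or.inl (Relation.EqvGen.trans _ _ _ h (Relation.EqvGen.symm _ _ h1))
          · exact Or.inr ⟨y, hy, h.trans (Cn.sE _ a).symm⟩
        · rintro (h | ⟨y, hy, h⟩)
          · exact Or.inl (Relation.EqvGen.trans _ _ _ h h1)
          · exact Or.inr ⟨y, hy, h.trans (Cn.sE _ a)⟩
      · rintro a (h | ⟨y, hy, h⟩)
        · exact Or.inl (Relation.EqvGen.trans _ _ _ h (Relation.EqvGen.rel _ _ (Or.inr rfl)))
        · exact Or.inr ⟨y, hy, h.trans (Cn.sta _ a)⟩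
      · rintro a (h | ⟨y, hy, h⟩)
        · exact Or.inr ⟨a, h, Cn.refl _ _⟩
        · by_cases ha : Rng S y a
          · rcases ha with ha | ha
            · exact Or.inr ⟨a, Relation.EqvGen.trans _ _ _ hy (reg_cyc ha), Cn.refl _ _⟩
            · left
              have h1 := same_om ha
              rw [om_om] at h1
              exact Relation.EqvGen.trans _ _ _ hy (reg_cyc h1)
          · exact Or.inr ⟨y, hy, h.trans (Cn.som ha)⟩
    rcases hB with h | ⟨y, hy, h⟩
    · exact (hcon b0 h).1 (Rng.refl b0)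
    · exact (hcon y hy).2 h
  · intro x x' h hx hx'
    by_contra hc
    have hr : ¬ Rng S x x' := by
      rintro (h1 | h1)
      · exact hc h1
      · exact hs x ((Cn.of_reg _ h).trans (Cn.cyc _ h1).symm)
    have hr' : ¬ Rng S x' x := fun h1 => hr h1.symm
    have h1 : ∀ A, Cn S A x x' := fun A => Cn.of_reg A h
    have key : ∀ u u', ¬ Rng S u' u → (∀ A, Cn S A u u') → Rng S u b0 →
        ¬ Cn S (Rng S u') (S.om u') b0 := by
      intro u u' h2 h3 h4 h5
      apply hs u'
      have h6 : Cn S (Rng S u') u b0 := by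
        rcases h4 with h4 | h4
        · exact Cn.cyc _ h4
        · exact (Cn.som h2).trans (Cn.cyc _ h4)
      exact ((h3 _).symm.trans h6).trans h5.symm
    rcases hx with hx | hx
    · rcases hx' with hx' | hx'
      · exact hr (hx.trans hx'.symm)
      · exact key x x' hr' h1 hx hx'
    · rcases hx' with hx' | hx'
      · exact key x' x hr (fun A => (h1 A).symm) hx' hx
      · rcases dich2 htr x x' b0 with (h2 | h2) | (h2 | h2)
        · exact hs x ((h2.mono (fun z hz => Or.inl hz)).trans hx.symm)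
        · have h3 : Cn S (Rng S x') (S.om x) b0 := h2.mono (fun z hz => Or.inr hz)
          exact hs x' ((((h1 _).symm.trans (Cn.som hr')).trans h3).trans hx'.symm)
        · exact hs x' ((h2.mono (fun z hz => Or.inr hz)).trans hx'.symm)
        · have h3 : Cn S (Rng S x) (S.om x') b0 := h2.mono (fun z hz => Or.inl hz)
          exact hs x ((((h1 _).trans (Cn.som hr)).trans h3).trans hx.symm)
  · intro x hx
    push Not at hx
    rcases dich htr x b0 with h | h
    · right
      rw [om_om]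
      exact (Cn.ring (Rng.om x)).1 h
    · exact absurd h hx.2
  · intro x hx
    push Not at hx
    have h0 : Cn S (Rng S x) x b0 := (dich htr x b0).resolve_right hx.2
    refine Set.ncard_lt_ncard ?_ (hfin _)
    rw [Set.ssubset_iff_exists]
    refine ⟨?_, S.om x, ⟨?_, ?_, Cn.refl _ _⟩, ?_⟩
    · rintro y ⟨hy1, hy2, hy3⟩
      refine ⟨hy1, hy2, hy3.trans (Cn.som ?_)⟩
      rintro (h1 | h1)
      · have h2 : Cn S (Rng S x) (S.om x) (S.om y) := Cn.cyc _ (same_om h1.symm)
        exact hx.2 (h2.trans ((Cn.ring (Or.inl h1)).1 hy2))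
      · exact hs y (hy3.trans (Cn.cyc _ h1).symm)
    · exact fun h1 => hx.1 ((Rng.om x).trans h1)
    · rw [om_om]
      exact (Cn.ring (Rng.om x)).1 h0
    · rintro ⟨-, -, h3⟩
      exact hs x ((Cn.ring (Rng.om x)).2 h3).symm

end

end Pool.Agent.MP42.EO
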