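import Pool.Agent.MP42.NE.SysP

/-!
# The spine system

`a` is the axis of the barriers, `b` the nominal north axis on the facets orthogonal to `a`.  The
darts are the frames of the facets orthogonal to `a` and, on the other facets (walls), the frames
with east direction `a`.  On a facet orthogonal to `a` a frame is nominal if its east direction is
not `b`; a nominal frame `s` stands for the southeast half of the facet (from the south side to the
east side, the diagonal on the north side), the frame `s.rL` for the northwest half (from the west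
side to the north side, the corner on the north side, the diagonal on the south side).

The rings are the curves that run along `a` on the walls and cut the northwest and southeast corners
of the facets orthogonal to `a`; the ribbons are the grid edges parallel to `a` and the diagonals.
-/

set_option autoImplicit false

namespace Pool.Agent.MP42.EO

open Pool.Agent.Helper55.UNF Pool.Agent.Helper55.UNF.GridSolid Pool.Agent.MP42.NE

variable {P : GridSolid}

/-- enter a facet orthogonal to `a` -/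
def hfx (a b : Fin 3) (t : P.FSt) : P.FSt :=
  if t.1.d.1 = a then (if t.1.e.1 = b then t.rR else t.rL) else t

/-- reverse a dart -/
def hr (a b : Fin 3) (t : P.FSt) : P.FSt :=
  if t.1.d.1 = a then (if t.1.e.1 = b then t.rL else t.rR) else t.r2

/-- the next dart of the ring -/
def hE (a b : Fin 3) (t : P.FSt) : P.FSt := hfx a b t.stE

/-- the dart over the north side -/
def hN (a : Fin 3) (t : P.FSt) : P.FSt := if t.1.d.1 = a then t.rL else t.stN

/-- the darts -/
def IsD (a : Fin 3) (t : P.FSt) : Prop := t.1.d.1 = a ∨ t.1.e.1 = a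

section

variable {a b : Fin 3}

lemma d_rL (t : P.FSt) : t.rL.1.d = t.1.d := rfl
lemma d_rR (t : P.FSt) : t.rR.1.d = t.1.d := rfl
lemma d_r2 (t : P.FSt) : t.r2.1.d = t.1.d := rfl
lemma e_r2 (t : P.FSt) : t.r2.1.e.1 = t.1.e.1 := rfl

lemma third_ax {i j k l : Fin 3} (h1 : i ≠ j) (h2 : k ≠ i) (h3 : l ≠ i) (h4 : k ≠ l)
    (h5 : k ≠ j) : l = j := by
  revert h1 h2 h3 h4 h5; revert i j k l; decide

/-- on a facet orthogonal to `a` exactly one of `e`, `n` has the axis `b` -/
lemma rL_b (hab : a ≠ b) {t : P.FSt} (h : t.1.d.1 = a) : t.rL.1.e.1 = b ↔ ¬ t.1.e.1 = b := by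
  have h1 : t.1.d.1 ≠ t.1.e.1 := t.2.2
  have h2 : t.1.d.1 ≠ t.rL.1.e.1 := t.rL.2.2
  have h3 : t.rL.1.e.1 ≠ t.1.e.1 := cross_axis_right _ _ t.2.2
  rw [h] at h1 h2
  constructor
  · intro h4 h5
    exact h3 (h4.trans h5.symm)
  · intro h4
    exact third_ax hab h1.symm h2.symm h3.symm h4

lemma rR_b (hab : a ≠ b) {t : P.FSt} (h : t.1.d.1 = a) : t.rR.1.e.1 = b ↔ ¬ t.1.e.1 = b :=
  rL_b hab h

/-! ## The half turn -/

lemma hr_wall {t : P.FSt} (h : ¬ t.1.d.1 = a) : hr a b t = t.r2 := if_neg h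

lemma hr_non {t : P.FSt} (h : t.1.d.1 = a) (h' : t.1.e.1 = b) : hr a b t = t.rL := by
  unfold hr; rw [if_pos h, if_pos h']

lemma hr_nom {t : P.FSt} (h : t.1.d.1 = a) (h' : ¬ t.1.e.1 = b) : hr a b t = t.rR := by
  unfold hr; rw [if_pos h, if_neg h']

lemma hr_hr (hab : a ≠ b) (t : P.FSt) : hr a b (hr a b t) = t := by
  by_cases h : t.1.d.1 = a
  · by_cases h' : t.1.e.1 = b
    · rw [hr_non h h', hr_nom (t := t.rL) h (by rw [rL_b hab h]; exact not_not.2 h')]
      exact FSt.rL_rR t
    · rw [hr_nom h h', hr_non (t := t.rR) h ((rR_b hab h).2 h')]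
      exact FSt.rR_rL t
  · rw [hr_wall h, hr_wall (t := t.r2) h]
    exact FSt.r2_r2 t

lemma isD_hr {t : P.FSt} (h : IsD a t) : IsD a (hr a b t) := by
  by_cases h1 : t.1.d.1 = a
  · left
    unfold hr
    rw [if_pos h1]
    split_ifs
    · exact h1
    · exact h1
  · rw [hr_wall h1]
    exact Or.inr (h.resolve_left h1)

/-! ## North -/

lemma hN_cap {t : P.FSt} (h : t.1.d.1 = a) : hN a t = t.rL := if_pos h

lemma hN_wall {t : P.FSt} (h : ¬ t.1.d.1 = a) : hN a t = t.stN := if_neg h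

lemma wall_stN {t : P.FSt} (h : t.1.e.1 = a) : ¬ t.stN.1.d.1 = a := by
  have h1 : t.stN.1.d.1 ≠ t.stN.1.e.1 := t.stN.2.2
  rw [FSt.stN_e, h] at h1
  exact h1

lemma isD_hN {t : P.FSt} (h : IsD a t) : IsD a (hN a t) := by
  by_cases h1 : t.1.d.1 = a
  · rw [hN_cap h1]; exact Or.inl h1
  · rw [hN_wall h1]
    right
    rw [FSt.stN_e]
    exact h.resolve_left h1

lemma hrN (hab : a ≠ b) {t : P.FSt} (h : IsD a t) :
    hr a b (hN a (hr a b (hN a t))) = t := by
  by_cases h1 : t.1.d.1 = a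
  · rw [hN_cap h1]
    by_cases h' : t.1.e.1 = b
    · rw [hr_nom (t := t.rL) h1 (by rw [rL_b hab h1]; exact not_not.2 h'), FSt.rL_rR,
        hN_cap h1, hr_nom (t := t.rL) h1 (by rw [rL_b hab h1]; exact not_not.2 h'), FSt.rL_rR]
    · rw [hr_non (t := t.rL) h1 ((rL_b hab h1).2 h'), FSt.rL_rL, hN_cap (t := t.r2) h1,
        FSt.r2_rL, hr_non (t := t.rR) h1 ((rR_b hab h1).2 h')]
      exact FSt.rR_rL t
  · have h2 : t.1.e.1 = a := h.resolve_left h1
    have h3 := wall_stN h2
    rw [hN_wall h1, hr_wall h3, hN_wall (t := t.stN.r2) h3, FSt.stN_inv, hr_wall (t := t.r2) h1]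
    exact FSt.r2_r2 t

/-! ## East -/

lemma hfx_wall {t : P.FSt} (h : ¬ t.1.d.1 = a) : hfx a b t = t := if_neg h

lemma hfx_non {t : P.FSt} (h : t.1.d.1 = a) (h' : t.1.e.1 = b) : hfx a b t = t.rR := by
  unfold hfx; rw [if_pos h, if_pos h']

lemma hfx_nom {t : P.FSt} (h : t.1.d.1 = a) (h' : ¬ t.1.e.1 = b) : hfx a b t = t.rL := by
  unfold hfx; rw [if_pos h, if_neg h']

/-- reversing an entered dart -/
lemma hr_hfx (hab : a ≠ b) (t : P.FSt) : hr a b (hfx a b t) = t.r2 := by
  by_cases h : t.1.d.1 = a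
  · by_cases h' : t.1.e.1 = b
    · rw [hfx_non h h', hr_nom (t := t.rR) h (by rw [rR_b hab h]; exact not_not.2 h')]
      exact FSt.rR_rR t
    · rw [hfx_nom h h', hr_non (t := t.rL) h ((rL_b hab h).2 h')]
      exact FSt.rL_rL t
  · rw [hfx_wall h, hr_wall h]

lemma hrE (hab : a ≠ b) (t : P.FSt) : hr a b (hE a b (hr a b (hE a b t))) = t := by
  show hr a b (hfx a b (hr a b (hfx a b t.stE)).stE) = t
  rw [hr_hfx hab, hr_hfx hab, FSt.stE_inv, FSt.r2_r2]

lemma isD_hfx {t : P.FSt} (h : IsD a t) : IsD a (hfx a b t) := by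
  unfold hfx
  by_cases h1 : t.1.d.1 = a
  · rw [if_pos h1]
    split_ifs
    · exact Or.inl h1
    · exact Or.inl h1
  · rw [if_neg h1]; exact h

lemma isD_stE {t : P.FSt} (h : IsD a t) : IsD a t.stE := by
  show (t.1.stepE P).d.1 = a ∨ (t.1.stepE P).e.1 = a
  unfold St.stepE
  split_ifs with h1 h2
  · show t.1.e.1 = a ∨ t.1.d.1 = a
    exact h.symm
  · exact h
  · show t.1.e.1 = a ∨ t.1.d.1 = a
    exact h.symm

lemma isD_hE {t : P.FSt} (h : IsD a t) : IsD a (hE a b t) := isD_hfx (isD_stE h)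

end

/-! ## The system -/

/-- the darts of the spine system -/
abbrev HD (P : GridSolid) (a : Fin 3) : Type := {t : P.FSt // IsD a t}

/-- **the spine system** -/
def sysH (P : GridSolid) (a b : Fin 3) (hab : a ≠ b) : Sys (HD P a) where
  E := ⟨fun t => ⟨hE a b t.1, isD_hE t.2⟩,
    fun t => ⟨hr a b (hE a b (hr a b t.1)), isD_hr (isD_hE (isD_hr t.2))⟩,
    fun t => Subtype.ext (hrE hab t.1),
    fun t => Subtype.ext (by
      have h := congrArg (hr a b) (hrE hab (hr a b t.1))
      rwa [hr_hr hab, hr_hr hab] at h)⟩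
  N := ⟨fun t => ⟨hN a t.1, isD_hN t.2⟩,
    fun t => ⟨hr a b (hN a (hr a b t.1)), isD_hr (isD_hN (isD_hr t.2))⟩,
    fun t => Subtype.ext (hrN hab t.2),
    fun t => Subtype.ext (by
      have h := congrArg (hr a b) (hrN hab (isD_hr (b := b) t.2))
      rwa [hr_hr hab, hr_hr hab] at h)⟩
  r := fun t => ⟨hr a b t.1, isD_hr t.2⟩
  rr := fun t => Subtype.ext (hr_hr hab t.1)
  rE := fun t => Subtype.ext (hrE hab t.1)
  rN := fun t => Subtype.ext (hrN hab t.2)

section

variable {a b : Fin 3} (hab : a ≠ b)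

@[simp] lemma sysH_E (t : HD P a) : ((sysH P a b hab).E t).1 = hE a b t.1 := rfl
@[simp] lemma sysH_N (t : HD P a) : ((sysH P a b hab).N t).1 = hN a t.1 := rfl
@[simp] lemma sysH_r (t : HD P a) : ((sysH P a b hab).r t).1 = hr a b t.1 := rfl

/-- a dart whose north side is a ribbon -/
def Rib (b : Fin 3) (t : HD P a) : Prop := ¬ (t.1.1.d.1 = a ∧ t.1.1.e.1 = b)

include hab in
/-- the north side of a dart is a ribbon or a corner -/
lemma N_eq_r {t : HD P a} : (sysH P a b hab).N t = (sysH P a b hab).r t ↔ ¬ Rib b t := by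
  unfold Rib
  rw [not_not]
  constructor
  · intro h
    have h0 : hN a t.1 = hr a b t.1 := congrArg Subtype.val h
    by_cases h1 : t.1.1.d.1 = a
    · by_cases h2 : t.1.1.e.1 = b
      · exact ⟨h1, h2⟩
      · exfalso
        rw [hN_cap h1, hr_nom h1 h2] at h0
        have h3 := congrArg FSt.rL h0
        rw [FSt.rR_rL, FSt.rL_rL] at h3
        have h4 : opp t.1.1.e = t.1.1.e := congrArg (fun s : P.FSt => s.1.e) h3
        have h5 := congrArg Prod.snd h4
        revert h5
        show ¬ ((!t.1.1.e.2) = t.1.1.e.2)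
        cases t.1.1.e.2 <;> decide
    · exfalso
      rw [hN_wall h1, hr_wall h1] at h0
      have h3 : t.1.stN.facet = t.1.r2.facet := congrArg FSt.facet h0
      exact FSt.stN_facet_ne t.1 h3
  · rintro ⟨h1, h2⟩
    apply Subtype.ext
    show hN a t.1 = hr a b t.1
    rw [hN_cap h1, hr_non h1 h2]

end

end Pool.Agent.MP42.EO
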