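import Pool.Agent.MP42.EO.H1
import Pool.Agent.MP42.EO.SH
import Pool.Agent.MP42.EO.RTree0

/-!
# Every ring of the spine system separates in genus zero

The set of unit edges crossed by a ring is a cocycle, hence there is a two-colouring of the
vertices that changes exactly there.
-/

set_option autoImplicit false
set_option linter.unusedSectionVars false

namespace Pool.Agent.MP42.EO

open Pool.Agent.Helper55.UNF Pool.Agent.Helper55.UNF.GridSolid Pool.Agent.MP42.NE
open Pool.Agent.MP42.NE.Sys Pool.Agent.MP42NG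

variable {P : GridSolid}

lemma rR_r2 (t : P.FSt) : t.rR.r2 = t.rL := by
  rw [← FSt.rL_rL, FSt.rR_rL]

section

variable {a b : Fin 3}

lemma isD_r2 {t : P.FSt} : IsD a t.r2 ↔ IsD a t := Iff.rfl

lemma isD_rho {t : P.FSt} : IsD a (rho t) ↔ IsD a t := by
  have h : ∀ t : P.FSt, IsD a t → IsD a (rho t) := fun t h => isD_r2.2 (isD_stE h)
  exact ⟨fun h1 => by have := h _ h1; rwa [rho_rho] at this, h t⟩

/-- on a wall the turned frames are not darts -/
lemma wall_rL {t : P.FSt} (h : ¬ t.1.d.1 = a) (h' : t.1.e.1 = a) : ¬ IsD a t.rL := by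
  rintro (h1 | h1)
  · exact h h1
  · exact (cross_axis_right _ _ t.2.2) (h1.trans h'.symm)

variable (hab : a ≠ b)

lemma om_val (t : HD P a) : ((sysH P a b hab).om t).1 = rho t.1 := hr_hfx hab _

/-- the vertex at the north-east corner of a dart -/
def vD (t : HD P a) : Vt P := vt t.1

section Col

variable {χ : Vt P → Prop}

/-- the two vertices of the north side of a wall -/
lemma col_wall (hχ : ∀ s, ¬ IsD a s → (χ (vt s) ↔ χ (vt (rho s)))) {t : P.FSt}
    (h : ¬ t.1.d.1 = a) (h' : t.1.e.1 = a) : χ (vt t.rL) ↔ χ (vt t) := by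
  have h1 := hχ t.rL (wall_rL h h')
  rwa [vt_rho_rL] at h1

variable {c : P.FSt → Prop} (hχ : ∀ s, c s ↔ ¬ (χ (vt s) ↔ χ (vt (rho s))))

include hχ

/-- the two vertices of the diagonal -/
lemma col_cap {s : P.FSt} (h : c s ↔ c s.rR) : χ (vt s.r2) ↔ χ (vt s) := by
  have h1 := hχ s
  have h2 := hχ s.rR
  have e1 : vt (rho s) = vt s.rR := by
    have := vt_rho_rL s.rR
    rwa [FSt.rR_rL] at this
  have e2 : vt (rho s.rR) = vt s.r2 := by
    have := vt_rho_rL s.r2
    rwa [FSt.r2_rL] at this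
  rw [e1] at h1
  rw [e2] at h2
  tauto

/-- the colour of the vertex is constant along `E` -/
lemma col_E (hw : ∀ s, ¬ IsD a s → ¬ c s)
    (hcap : ∀ s : P.FSt, s.1.d.1 = a → ¬ s.1.e.1 = b → (c s ↔ c s.rR)) (t : HD P a) :
    χ (vD ((sysH P a b hab).E t)) ↔ χ (vD t) := by
  have hχ' : ∀ s, ¬ IsD a s → (χ (vt s) ↔ χ (vt (rho s))) := fun s h => by
    have h1 := hχ s
    have h2 := hw s h
    tauto
  have e0 : vt t.1.stE.rL = vt t.1 := vt_stE_rL t.1
  show χ (vt (hfx a b t.1.stE)) ↔ χ (vt t.1)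
  rw [← e0]
  set u := t.1.stE with hu
  by_cases h1 : u.1.d.1 = a
  · by_cases h2 : u.1.e.1 = b
    · rw [hfx_non h1 h2]
      have h3 : ¬ u.rR.1.e.1 = b := by
        have := (rR_b hab (t := u.rR) h1)
        intro h4
        have h5 := (rL_b hab (t := u.rR) h1)
        rw [FSt.rR_rL] at h5
        exact h5.1 h2 h4
      have h4 := col_cap hχ (hcap u.rR h1 h3)
      rw [rR_r2] at h4
      exact h4.symm
    · rw [hfx_nom h1 h2]
  · rw [hfx_wall h1]
    have h2 : u.1.e.1 = a := (isD_stE t.2).resolve_left h1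
    exact (col_wall hχ' h1 h2).symm

/-- the colour of the vertex is constant over a ribbon -/
lemma col_ta (hw : ∀ s, ¬ IsD a s → ¬ c s)
    (hcap : ∀ s : P.FSt, s.1.d.1 = a → ¬ s.1.e.1 = b → (c s ↔ c s.rR)) (t : HD P a) :
    χ (vD ((sysH P a b hab).ta t)) ↔ χ (vD t) := by
  have hχ' : ∀ s, ¬ IsD a s → (χ (vt s) ↔ χ (vt (rho s))) := fun s h => by
    have h1 := hχ s
    have h2 := hw s h
    tauto
  show χ (vt (hr a b (hN a t.1))) ↔ χ (vt t.1)
  by_cases h1 : t.1.1.d.1 = a
  · rw [hN_cap h1]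
    by_cases h2 : t.1.1.e.1 = b
    · rw [hr_nom (t := t.1.rL) h1 (by rw [rL_b hab h1]; exact not_not.2 h2), FSt.rL_rR]
    · rw [hr_non (t := t.1.rL) h1 ((rL_b hab h1).2 h2), FSt.rL_rL]
      exact col_cap hχ (hcap t.1 h1 h2)
  · have h2 : t.1.1.e.1 = a := t.2.resolve_left h1
    rw [hN_wall h1, hr_wall (wall_stN h2)]
    have e1 : t.1.stN.r2 = t.1.rL.stE.rL := by
      show t.1.rL.stE.rR.r2 = _
      exact rR_r2 _
    rw [e1, vt_stE_rL]
    exact col_wall hχ' h1 h2

end Col

/-- the unit edges crossed by the ring of `x` -/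
def crs (x : HD P a) (s : P.FSt) : Prop := ∃ h : IsD a s, Rng (sysH P a b hab) x ⟨s, h⟩

lemma rng_r (y : HD P a) : Rng (sysH P a b hab) y ((sysH P a b hab).r y) := by
  right
  rw [← E_om]
  exact (Equiv.Perm.sameCycle_apply_right).2 (Equiv.Perm.SameCycle.refl _ _)

lemma crs_rho (x : HD P a) (s : P.FSt) : crs hab x (rho s) ↔ crs hab x s := by
  have key : ∀ s, crs hab x s → crs hab x (rho s) := by
    rintro s ⟨h, h'⟩
    refine ⟨isD_rho.2 h, h'.trans ?_⟩
    have h1 : (⟨rho s, isD_rho.2 h⟩ : HD P a) = (sysH P a b hab).om ⟨s, h⟩ :=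
      Subtype.ext (om_val hab ⟨s, h⟩).symm
    rw [h1]
    exact Rng.om _
  exact ⟨fun h => by have := key _ h; rwa [rho_rho] at this, key s⟩

lemma crs_hr (x : HD P a) {s : P.FSt} : crs hab x (hr a b s) ↔ crs hab x s := by
  have key : ∀ s, crs hab x s → crs hab x (hr a b s) := by
    rintro s ⟨h, h'⟩
    exact ⟨isD_hr h, h'.trans (rng_r hab ⟨s, h⟩)⟩
  exact ⟨fun h => by have := key _ h; rwa [hr_hr hab] at this, key s⟩

lemma crs_cap (x : HD P a) {s : P.FSt} (h : s.1.d.1 = a) (h' : ¬ s.1.e.1 = b) :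
    crs hab x s ↔ crs hab x s.rR := by
  rw [← hr_nom h h', crs_hr hab x]

lemma crs_facet (x : HD P a) (s : P.FSt) :
    (crs hab x s ↔ crs hab x s.rL) ↔ (crs hab x s.r2 ↔ crs hab x s.rR) := by
  by_cases h : s.1.d.1 = a
  · by_cases h' : s.1.e.1 = b
    · have h1 : crs hab x s.rL ↔ crs hab x s := by rw [← hr_non h h', crs_hr hab x]
      have h2 : crs hab x s.rR ↔ crs hab x s.r2 := by
        have e : s.r2.rL = s.rR := FSt.r2_rL s
        rw [← e, ← hr_non (t := s.r2) (b := b) h h', crs_hr hab x]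
      rw [h1, h2]
      exact ⟨fun _ => Iff.rfl, fun _ => Iff.rfl⟩
    · have h1 := crs_cap hab x h h'
      have h2 : crs hab x s.r2 ↔ crs hab x s.rL := by
        have e : s.r2.rR = s.rL := by
          rw [← FSt.rL_rL, FSt.rL_rR]
        rw [← e]
        exact crs_cap hab x (s := s.r2) h h'
      rw [h2, ← h1]
      exact Iff.comm
  · have hw : ∀ t : P.FSt, ¬ t.1.d.1 = a → (crs hab x t.r2 ↔ crs hab x t) := fun t ht => by
      rw [← hr_wall (b := b) ht, crs_hr hab x]
    have h1 := hw s h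
    have h2 : crs hab x s.rR ↔ crs hab x s.rL := by
      have e : s.rL.r2 = s.rR := FSt.rL_r2 s
      rw [← e]
      exact hw s.rL h
    rw [h1, h2]

/-- **every ring separates** -/
theorem sep_sysH (hP : P.IsOrthogonalPolyhedron) (h0 : Pool.BW.eul P = 2) (x : HD P a) :
    ¬ Relation.EqvGen (fun y z => z = (sysH P a b hab).E y ∨ z = (sysH P a b hab).ta y ∨
      (z = (sysH P a b hab).om y ∧ ¬ ((sysH P a b hab).E.SameCycle x y ∨
        (sysH P a b hab).E.SameCycle ((sysH P a b hab).om x) y))) x ((sysH P a b hab).om x) := by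
  intro h
  obtain ⟨χ, hχ⟩ := exists_colouring hP h0 (crs hab x) (crs_rho hab x) (crs_facet hab x)
  have hw : ∀ s, ¬ IsD a s → ¬ crs hab x s := fun s h1 h2 => h1 h2.1
  have hcap : ∀ s : P.FSt, s.1.d.1 = a → ¬ s.1.e.1 = b → (crs hab x s ↔ crs hab x s.rR) :=
    fun s h1 h2 => crs_cap hab x h1 h2
  have hom : ∀ y : HD P a, vD ((sysH P a b hab).om y) = vt (rho y.1) := fun y => by
    show vt ((sysH P a b hab).om y).1 = _
    rw [om_val]
  have key : ∀ y z : HD P a, Relation.EqvGen (fun y z => z = (sysH P a b hab).E y ∨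
      z = (sysH P a b hab).ta y ∨ (z = (sysH P a b hab).om y ∧
        ¬ ((sysH P a b hab).E.SameCycle x y ∨
        (sysH P a b hab).E.SameCycle ((sysH P a b hab).om x) y))) y z →
      (χ (vD z) ↔ χ (vD y)) := by
    intro y z hyz
    induction hyz with
    | rel y z h1 =>
      rcases h1 with rfl | rfl | ⟨rfl, h1⟩
      · exact col_E hab hχ hw hcap y
      · exact col_ta hab hχ hw hcap y
      · rw [hom]
        have h2 := hχ y.1
        have h3 : ¬ crs hab x y.1 := fun h3 => h1 h3.2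
        show _ ↔ χ (vt y.1)
        tauto
    | refl y => exact Iff.rfl
    | symm y z _ ih => exact ih.symm
    | trans y z w _ _ ih1 ih2 => exact ih2.trans ih1
  have h1 := key _ _ h
  rw [hom] at h1
  have h2 := (hχ x.1).1 ⟨x.2, Rng.refl _⟩
  exact h2 h1.symm

end

end Pool.Agent.MP42.EO
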