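import Pool.Agent.MP42.EO.Main
import Pool.Agent.MP42.EO.LocH
import Pool.Agent.MP42.EO.PoleH
import Pool.Agent.MP42.EO.SepH
import Pool.Agent.MP42.EO.Gen0

/-!
# Genus zero: the final assembly in terms of patterns
-/

set_option autoImplicit false

namespace Pool.Agent.MP42.EO

open Pool.Agent.Helper55.UNF Pool.Agent.Helper55.UNF.GridSolid Pool.Agent.MP42.NE Pool.Agent.MP42
open Pool.Agent.MP42NG Pool.Agent.MP42H
open Loc8

/-- **Euler characteristic two, no bad tripod, no vertex `K_a`: an edge unfolding.** -/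
theorem unfold_noB_noK {P : GridSolid} (hP : P.IsOrthogonalPolyhedron) (h0 : Pool.BW.eul P = 2)
    {a b : Fin 3} (hab : a ≠ b) (hB : ∀ v, noB a b (pat P v) = true)
    (hK : ∀ v, noK a b (pat P v) = true) (hn : 0 < 3639) :
    (P.refine 3639 hn).HasEdgeUnfolding := by
  have h3 : 0 < 3 := by norm_num
  have hQ := isOrthogonal_refine hP h3
  have hQ0 : Pool.BW.eul (P.refine 3 h3) = 2 := by rw [eul_refine hP 3 h3]; exact h0
  have L := loc_sysH (P := P) (n := 3) (hn := h3) le_rfl hP.1 hab hB hK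
    (fun x hx => pole_sysH hab hQ hQ0 (rib_ta hab) x hx)
  have hpc : Pieces (sysH (P.refine 3 h3) a b hab) (okH b) 4 :=
    pieces_of_loc (A := Rib b) (ok := okH b) (rib_ta hab) (fun x hx => by
      by_contra h
      exact hx ((ta_ne_iff hab x).1 h)) (fun x => by
      obtain ⟨y, h1, h2⟩ := exists_rib hab x
      exact ⟨y, h1, (ta_ne_iff hab y).1 h2⟩) L
  have h1213 : 0 < 1213 := by norm_num
  have hU := unfold_of_pieces hab hQ hpc (fun x => sep_sysH hab hQ hQ0 x) h1213
  rw [refine_refine] at hU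
  exact hU

end Pool.Agent.MP42.EO
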