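import Pool.Agent.Helper55.UNF.Defs

/-!
# The sign of a vertex of degree six

At a grid point `v` and a direction `d` (one of six) `boxesAt P v d` are the solid boxes among the
four around the unit grid segment that leaves `v` in the direction `d`.  The segment is an edge if
their number is odd and a convex edge if there is exactly one.

`SameSign P`: the product of the signs of the directions of the convex edges is the same at all
grid points where all six segments are edges.
-/

set_option autoImplicit false

namespace Pool.Agent.MP42.EO

open Pool.Agent.Helper55.UNF Pool.Agent.Helper55.UNF.GridSolid

/-- the solid boxes among the four around the unit grid segment from `v` in direction `d` -/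
def boxesAt (P : GridSolid) (v : Fin 3 → ℤ) (d : Dir) : Finset (Fin 3 → Bool) :=
  Finset.univ.filter fun ε : Fin 3 → Bool => ε d.1 = d.2 ∧ corner v ε ∈ P.cells

/-- the unit grid segment from `v` in direction `d` lies on an edge of the polyhedron -/
def EdgeDir (P : GridSolid) (v : Fin 3 → ℤ) (d : Dir) : Prop := Odd (boxesAt P v d).card

/-- the directions of the convex edges at `v` -/
def convexDirs (P : GridSolid) (v : Fin 3 → ℤ) : Finset Dir :=
  Finset.univ.filter fun d => (boxesAt P v d).card = 1

/-- the sign of a direction -/
def dsign (d : Dir) : ℤ := if d.2 then 1 else -1

/-- the product of the signs of the directions of the convex edges is the same at all grid points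
where all six unit grid segments are edges -/
def SameSign (P : GridSolid) : Prop :=
  ∃ s : ℤ, ∀ v, (∀ d, EdgeDir P v d) → ∏ d ∈ convexDirs P v, dsign d = s

end Pool.Agent.MP42.EO
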