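import Pool.Agent.MP42.EO.VL
import Pool.Agent.MP42.EO.VG
import Pool.Agent.MP42.EO.SignDefs

/-!
# The class of the genus zero theorem in plain terms (owner helper89)

At a grid point `v` and a direction `d` (one of six) `boxesAt P v d` are the solid boxes among the
four around the unit grid segment that leaves `v` in the direction `d`.  The segment is an edge if
their number is odd and a convex edge if there is exactly one.

`SameSign P`: the product of the signs of the directions of the convex edges is the same at all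
grid points where all six segments are edges.
`AxisEdge P a`: every vertex is an end point of an edge parallel to the axis `a`.
-/

set_option autoImplicit false

namespace Pool.Agent.MP42.EO

open Pool.Agent.Helper55.UNF Pool.Agent.Helper55.UNF.GridSolid
open Pool.Agent.MP42NG Pool.Agent.MP42
open Loc8

/-- every vertex is an end point of an edge parallel to the axis `a` -/
def AxisEdge (P : GridSolid) (a : Fin 3) : Prop :=
  ∀ v, P.IsVertex v → EdgeDir P v (a, true) ∨ EdgeDir P v (a, false)

/-! ## Patterns -/

/-- number of solid boxes around a segment, for a pattern -/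
def cntP (m : ℕ) (a : ℕ) (s : Bool) : ℕ :=
  ((List.range 8).filter fun i => (i.testBit a == s) && m.testBit i).length

/-- all six segments are edges -/
def sixP (m : ℕ) : Bool :=
  (List.range 3).all fun a => (cntP m a false % 2 == 1) && (cntP m a true % 2 == 1)

/-- number of the convex edges with a negative direction -/
def ngP (m : ℕ) : ℕ := ((List.range 3).filter fun a => cntP m a false == 1).length

/-- the three edge directions alternate -/
def cyc (a b : ℕ) : Bool := (a + 1) % 3 == b

/-- the pattern depends on the axis `a` -/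
def depP (m a : ℕ) : Bool := (List.range 8).any fun i => m.testBit i != m.testBit (i ^^^ 2 ^ a)

lemma noB_tab : ∀ m < 256, (!(gd m) || (List.range 3).all fun a => (List.range 3).all fun b =>
    (a == b) || noB a b m || (sixP m && ((ngP m % 2 == 0) == cyc a b))) = true := by
  decide +kernel

lemma noK_tab : ∀ m < 256, (!(gd m) || (List.range 3).all fun a => (List.range 3).all fun b =>
    (a == b) || noK a b m || !(noB a b m) || ((List.range 3).all (fun c => depP m c) &&
      (cntP m a false % 2 == 0) && (cntP m a true % 2 == 0))) = true := by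
  decide +kernel

/-- the solid boxes around a segment, for a pattern -/
def bx (m : ℕ) (d : Dir) : ℕ :=
  (Finset.univ.filter fun ε : Fin 3 → Bool => ε d.1 = d.2 ∧ m.testBit (num ε) = true).card

lemma bx_cntP : ∀ m < 256, ∀ d : Dir, bx m d = cntP m (d.1 : ℕ) d.2 := by decide +kernel

lemma pr_tab : ∀ m < 256, (∏ d ∈ Finset.univ.filter (fun d : Dir => bx m d = 1), dsign d) =
    if ngP m % 2 == 0 then 1 else -1 := by decide +kernel

variable {P : GridSolid}

lemma card_boxesAt (v : Fin 3 → ℤ) (d : Dir) : (boxesAt P v d).card = bx (pat P v) d := by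
  unfold boxesAt bx
  congr 1
  ext ε
  simp only [Finset.mem_filter, Finset.mem_univ, true_and]
  rw [pat_bit v _ (num_lt ε), bits_num, decide_eq_true_iff]

lemma card_boxesAt2 (v : Fin 3 → ℤ) (d : Dir) :
    (boxesAt P v d).card = cntP (pat P v) (d.1 : ℕ) d.2 := by
  rw [card_boxesAt, bx_cntP _ (pat_lt v)]

lemma six_of (v : Fin 3 → ℤ) (h : sixP (pat P v) = true) (d : Dir) : EdgeDir P v d := by
  unfold sixP at h
  simp only [List.all_eq_true, List.mem_range, Bool.and_eq_true, beq_iff_eq] at h
  have h1 := h (d.1 : ℕ) d.1.2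
  unfold EdgeDir
  rw [card_boxesAt2, Nat.odd_iff]
  rcases d with ⟨a, s⟩
  cases s
  · exact h1.1
  · exact h1.2

lemma prod_convex (v : Fin 3 → ℤ) : ∏ d ∈ convexDirs P v, dsign d =
    if ngP (pat P v) % 2 == 0 then 1 else -1 := by
  rw [← pr_tab _ (pat_lt v)]
  unfold convexDirs
  refine Finset.prod_congr ?_ fun _ _ => rfl
  ext d
  simp only [Finset.mem_filter, Finset.mem_univ, true_and]
  rw [card_boxesAt]

/-- **the frame without bad tripods**, for every axis `a` -/
theorem exists_noB_axis (hM : P.IsManifold) (h : SameSign P) (a : Fin 3) :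
    ∃ b : Fin 3, a ≠ b ∧ ∀ v, noB (a : ℕ) (b : ℕ) (pat P v) = true := by
  obtain ⟨s, hs⟩ := h
  have tab : ∀ (b : Fin 3), a ≠ b → ∀ v, noB (a : ℕ) (b : ℕ) (pat P v) = true ∨
      (sixP (pat P v) = true ∧ (ngP (pat P v) % 2 == 0) = cyc (a : ℕ) (b : ℕ)) := by
    intro b hab v
    have h1 := noB_tab _ (pat_lt (P := P) v)
    rw [gd_pat hM v] at h1
    simp only [Bool.not_true, Bool.false_or, Bool.and_eq_true, Bool.or_eq_true,
      List.all_eq_true, List.mem_range, beq_iff_eq] at h1
    rcases h1 (a : ℕ) a.2 (b : ℕ) b.2 with (h2 | h2) | h2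
    · exact absurd (Fin.ext h2) hab
    · exact Or.inl h2
    · exact Or.inr ⟨h2.1, h2.2⟩
  have cyc1 : ∀ a : Fin 3, a ≠ a + 1 ∧ cyc (a : ℕ) ((a + 1 : Fin 3) : ℕ) = true := by decide
  have cyc2 : ∀ a : Fin 3, a ≠ a + 2 ∧ cyc (a : ℕ) ((a + 2 : Fin 3) : ℕ) = false := by decide
  by_cases h1 : s = 1
  · refine ⟨a + 2, (cyc2 a).1, fun v => ?_⟩
    rcases tab _ (cyc2 a).1 v with h2 | ⟨h2, h3⟩
    · exact h2
    · have h4 := hs v (six_of v h2)
      rw [prod_convex, h3, (cyc2 a).2, h1] at h4
      exact absurd h4 (by decide)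
  · refine ⟨a + 1, (cyc1 a).1, fun v => ?_⟩
    rcases tab _ (cyc1 a).1 v with h2 | ⟨h2, h3⟩
    · exact h2
    · have h4 := hs v (six_of v h2)
      rw [prod_convex, h3, (cyc1 a).2] at h4
      exact absurd h4.symm h1

/-- an edge parallel to `a` at every vertex: no vertex `K_a` -/
theorem noK_of_axisEdge (hM : P.IsManifold) {a b : Fin 3} (hab : a ≠ b) (hA : AxisEdge P a)
    (hB : ∀ v, noB (a : ℕ) (b : ℕ) (pat P v) = true) (v : Fin 3 → ℤ) :
    noK (a : ℕ) (b : ℕ) (pat P v) = true := by
  have h1 := noK_tab _ (pat_lt (P := P) v)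
  rw [gd_pat hM v] at h1
  simp only [Bool.not_true, Bool.false_or, Bool.and_eq_true, Bool.or_eq_true,
    List.all_eq_true, List.mem_range, beq_iff_eq, Bool.not_eq_true'] at h1
  rcases h1 (a : ℕ) a.2 (b : ℕ) b.2 with ((h2 | h2) | h2) | ⟨⟨h2, h3⟩, h4⟩
  · exact absurd (Fin.ext h2) hab
  · exact h2
  · rw [hB v] at h2
    exact absurd h2 (by decide)
  · exfalso
    have hv : P.IsVertex v := by
      intro c
      have h5 := h2 (c : ℕ) c.2
      unfold depP at h5
      simp only [List.any_eq_true, List.mem_range, bne_iff_ne] at h5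
      obtain ⟨i, hi, h6⟩ := h5
      rw [pat_bit v i hi, pat_bit v _ (xor_lt i hi c), bits_xor i hi c] at h6
      refine ⟨bits i, fun h7 => h6 ?_⟩
      rw [decide_eq_decide]
      cases h8 : bits i c
      · rw [Bool.not_false, h7]
        have h9 : Function.update (bits i) c false = bits i := by
          rw [← h8]; exact Function.update_eq_self _ _
        rw [h9]
      · rw [Bool.not_true, ← h7]
        have h9 : Function.update (bits i) c true = bits i := by
          rw [← h8]; exact Function.update_eq_self _ _
        rw [h9]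
    rcases hA v hv with h5 | h5
    · unfold EdgeDir at h5
      rw [card_boxesAt2, Nat.odd_iff] at h5
      rw [h4] at h5
      exact absurd h5 (by decide)
    · unfold EdgeDir at h5
      rw [card_boxesAt2, Nat.odd_iff] at h5
      rw [h3] at h5
      exact absurd h5 (by decide)

end Pool.Agent.MP42.EO
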