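import Pool.Agent.MP42.EO.Fin
import Pool.Agent.MP42.EO.Stmt

/-!
# Genus zero, first version in plain terms (owner helper89)
-/

set_option autoImplicit false

namespace Pool.Agent.MP42.EO

open Pool.Agent.Helper55.UNF Pool.Agent.Helper55.UNF.GridSolid

/-- **Euler characteristic two, the six-edge vertices have the same sign, and for some axis every
vertex is an end point of an edge parallel to it: an edge unfolding.** -/
theorem unfold_sameSign_axisEdge {P : GridSolid} (hP : P.IsOrthogonalPolyhedron)
    (h0 : Pool.BW.eul P = 2) (hS : SameSign P) (hA : ∃ a, AxisEdge P a) :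
    (P.refine 3639 (Nat.succ_pos 3638)).HasEdgeUnfolding := by
  obtain ⟨a, hA⟩ := hA
  obtain ⟨b, hab, hB⟩ := exists_noB_axis hP.1 hS a
  exact unfold_noB_noK hP h0 hab hB (noK_of_axisEdge hP.1 hab hA hB) _

end Pool.Agent.MP42.EO
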