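import Pool.Agent.MP42.EO.If2

/-!
# Growing a link system: all faces of a region are reached

The partial link systems on a region, ordered by their sets of faces.  If a face is missing, then
some missing face is attached: start with a middle real unit between a reached and a missing face;
the vertex of the wanted link may be used already or be a `K_a`; then either a link at a `K_a` is
possible, or one goes on with a deeper host, or with the same host and a unit closer to a dart whose
other side is reached.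
-/

set_option autoImplicit false
set_option linter.unusedSectionVars false

namespace Pool.Agent.MP42.EO

open Pool.Agent.MP42.NE

namespace Grow

variable {P : Type*} {E : Equiv.Perm P} {τ : P → P} {ok : P → Bool → Bool → Bool → Prop}
  {MR Kr : P → Prop}

/-- the first big corner -/
lemma big_bb {c : P} (h : ∃ k, Big E τ ((E ^ k) c)) : Big E τ (bb E τ c) :=
  Nat.sInf_mem (s := {k | Big E τ ((E ^ k) c)}) h

lemma nb_lt {c : P} {i : ℕ} (h : i < kk E τ c) : ¬ Big E τ ((E ^ i) c) := fun h' =>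
  Nat.notMem_of_lt_sInf (s := {k | Big E τ ((E ^ k) c)}) h h'

lemma bb_same (c : P) : E.SameCycle c (bb E τ c) := s_pow _ c

lemma bb_big {c : P} (h : Big E τ c) : bb E τ c = c := by
  have h0 : kk E τ c = 0 := by
    unfold kk
    rw [Nat.sInf_eq_zero]
    left
    exact h
  unfold bb
  rw [h0]; rfl

section

variable (L : Loc2 E τ ok MR Kr)

include L

lemma E_nu (x : P) : E x = τ (nu E τ x) := (L.ττ _).symm

lemma nu_inj {x y : P} (h : nu E τ x = nu E τ y) : x = y := by
  have h1 := congrArg τ h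
  unfold nu at h1
  rw [L.ττ, L.ττ] at h1
  exact E.injective h1

lemma τ_inj {x y : P} (h : τ x = τ y) : x = y := by rw [← L.ττ x, h, L.ττ]

lemma big_nu {x : P} (h : Big E τ x) : Big E τ (nu E τ x) := by
  have h3 := L.n3 x h
  refine ⟨fun h' => h.1 (nu_inj L h'), fun h' => ?_⟩
  rw [h3] at h'
  exact h.1 h'.symm

/-- one step over a corner that is not big -/
lemma step_nb {x : P} (h : ¬ Big E τ x) (hne : ¬ E.SameCycle x (τ x)) :
    E (τ (E x)) = τ x := by
  unfold Big at h
  have h1 : nu E τ x ≠ x := by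
    intro h'
    apply hne
    have h2 : E x = τ x := by
      have := congrArg τ h'
      rwa [show τ (nu E τ x) = E x from L.ττ _] at this
    rw [← h2, sE]
  have h2 : nu E τ (nu E τ x) = x := by
    by_contra hc
    exact h ⟨h1, hc⟩
  have h3 := congrArg τ h2
  rwa [show τ (nu E τ (nu E τ x)) = E (τ (E x)) from L.ττ _] at h3

/-- the other side of the composite ribbon -/
lemma walk {c : P} (hne : ¬ E.SameCycle c (τ c)) {k : ℕ}
    (hk : ∀ i < k, ¬ Big E τ ((E ^ i) c)) : ∀ i ≤ k, E.SameCycle (τ c) (τ ((E ^ i) c)) ∧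
      (E ^ i) (τ ((E ^ i) c)) = τ c := by
  intro i
  induction i with
  | zero => intro _; exact ⟨sR _, rfl⟩
  | succ i ih =>
    intro hi
    obtain ⟨h1, h2⟩ := ih (by omega)
    have h3 : ¬ E.SameCycle ((E ^ i) c) (τ ((E ^ i) c)) := by
      intro h'
      exact hne (((s_pow i c).trans h').trans h1.symm)
    have h4 := step_nb L (hk i (by omega)) h3
    have h5 : E (τ ((E ^ (i + 1)) c)) = τ ((E ^ i) c) := by
      rw [pow_succ']; exact h4
    refine ⟨?_, ?_⟩
    · rw [← sE, h5]; exact h1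
    · rw [pow_succ]
      show (E ^ i) (E (τ ((E ^ (i + 1)) c))) = τ c
      rw [h5]; exact h2

/-- the face before the corner -/
lemma nn_same {q : P} (h : Big E τ q) : E.SameCycle (nu E τ (nu E τ q)) (τ q) := by
  rw [← Es, E_nu L, L.n3 _ h]

lemma E_nn {q : P} (h : Big E τ q) : E (nu E τ (nu E τ q)) = τ q := by
  rw [E_nu L, L.n3 _ h]

/-- invariant predicates -/
lemma inv {x y : P} (h : Reg E τ x y) {ψ : P → Prop}
    (h1 : ∀ x, ψ (E x) ↔ ψ x) (h2 : ∀ x, MR x → ψ x → ψ (τ x)) : ψ x ↔ ψ y := by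
  refine h.inv h1 (L.conn ψ h1 ?_)
  intro z hz
  refine ⟨fun h => ?_, h2 z hz⟩
  have := h2 (τ z) (L.MRτ z hz) h
  rwa [L.ττ] at this

/-- a composite ribbon without big corner separates the only two faces of its region -/
lemma two_faces [Finite P] {c : P} (hne : ¬ E.SameCycle c (τ c))
    (hc : ∀ k : ℕ, ¬ Big E τ ((E ^ k) c)) {x : P} (hx : Reg E τ c x) :
    E.SameCycle c x ∨ E.SameCycle (τ c) x := by
  have hw := fun i => (walk L hne (k := i) (fun j _ => hc j)) i le_rfl
  refine (inv L hx (ψ := fun x => E.SameCycle c x ∨ E.SameCycle (τ c) x) ?_ ?_).1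
    (Or.inl (sR c))
  · intro x; rw [sE, sE]
  · rintro x _ (hx | hx)
    · right
      obtain ⟨n, rfl⟩ := hx.exists_nat_pow_eq
      exact (hw n).1
    · left
      obtain ⟨n, hn⟩ := hx.symm.exists_nat_pow_eq
      have h1 := (hw n).2
      rw [← hn] at h1
      rw [← (E ^ n).injective h1, L.ττ]
      exact s_pow n c

end

/-! ## The first system -/

/-- the system with the root and one child -/
theorem exists_root [Finite P] (L : Loc2 E τ ok MR Kr) (r : P) (s : Prop)
    (h : ∃ x, Reg E τ r x ∧ ¬ E.SameCycle r x) : Nonempty (LS E τ ok MR Kr r s) := by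
  classical
  obtain ⟨x, hx, hxr⟩ := h
  have h1 : ∃ z, MR z ∧ E.SameCycle r z ∧ ¬ E.SameCycle r (τ z) := by
    by_contra hcon
    push Not at hcon
    exact hxr ((inv L hx (ψ := fun y => E.SameCycle r y) (fun y => sE r y)
      (fun z hz hz' => hcon z hz hz')).1 (sR r))
  obtain ⟨z, h2, h3, h4⟩ := h1
  set y := τ z with hy
  have hz : τ y = z := L.ττ z
  have hry : Reg E τ r y := Reg.τ_iff.2 (Reg.cyc h3)
  refine ⟨{
    U := fun x => E.SameCycle r x ∨ E.SameCycle y x
    yt := y
    pop := fun x => if E.SameCycle r x then ¬ s else s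
    dep := fun x => if E.SameCycle r x then 0 else 1
    Dc := fun _ => False
    cp := fun _ => False
    UE := fun x => by rw [sE, sE]
    UR := ?_
    popE := fun x => by simp only [sE]
    depE := fun x => by simp only [sE]
    y1 := L.MRτ z h2
    y2 := by rw [hz]; exact h3
    y3 := h4
    y4 := Or.inr (sR y)
    y5 := Or.inl (by rw [hz]; exact h3)
    pr := by simp only [hz, if_pos h3]
    pr' := by simp only [if_neg h4]
    dU := fun c hc => hc.elim
    cls := fun c hc => hc.elim
    kind := fun c hc => hc.elim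
    fr := fun c hc => hc.elim
    uq := fun c _ hc _ => hc.elim
    dlt := fun c hc => hc.elim
    chU := fun c _ hc _ => hc.elim
    chR := fun c hc => hc.elim
    chE := ?_ }⟩
  · rintro x (h | h)
    · exact Reg.cyc h
    · exact hry.trans (Reg.cyc h)
  · rintro x (h | h) h5 h6
    · exfalso
      apply h5
      rw [hz]
      exact h.symm.trans h3
    · exact absurd h.symm h6

/-! ## Extension -/

open Classical in
/-- the child side -/
noncomputable def ch (τ : P → P) (β : Prop) (c : P) : P := if β then τ c else c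

open Classical in
/-- the host side -/
noncomputable def ho (τ : P → P) (β : Prop) (c : P) : P := if β then c else τ c

/-- a new link -/
structure Att {r : P} {s : Prop} (S : LS E τ ok MR Kr r s) (c : P) (β : Prop) : Prop where
  nU : ¬ S.U (ch τ β c)
  hU : S.U (ho τ β c)
  kind : (¬ Big E τ c ∧ ¬ Big E τ (τ c) ∧ (β → ¬ S.pop c) ∧ (¬ β → S.pop (τ c)) ∧
      (∃ k : ℕ, Big E τ ((E ^ k) c)) ∧ ¬ Kr (bb E τ c)) ∨
    (∃ q, Kr q ∧ ((β ∧ c = nu E τ q) ∨ (¬ β ∧ c = nu E τ (nu E τ q))))
  fr : (β → ∀ a, ok c true a a) ∧ (¬ β → ∀ a, ok c false a a)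
  uq : ∀ c', S.Dc c' → bb E τ c ≠ nu E τ (bb E τ c') ∧ bb E τ c' ≠ nu E τ (bb E τ c)

theorem extend [Finite P] (L : Loc2 E τ ok MR Kr) {r : P} {s : Prop} (S : LS E τ ok MR Kr r s)
    {c : P} {β : Prop} (A : Att S c β) :
    ∃ S' : LS E τ ok MR Kr r s, (∀ x, S.U x → S'.U x) ∧ S'.U (ch τ β c) := by
  classical
  set y := ch τ β c with hy
  set z := ho τ β c with hz
  have UF : ∀ x, S.U x → ¬ E.SameCycle y x := fun x hx h => A.nU ((cyc_iff S.UE h).1 hx)
  have hyz : (β ∧ y = τ c ∧ z = c) ∨ (¬ β ∧ y = c ∧ z = τ c) := by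
    by_cases h : β
    · left
      exact ⟨h, if_pos h, if_pos h⟩
    · right
      exact ⟨h, if_neg h, if_neg h⟩
  have hτz : τ z = y := by
    rcases hyz with ⟨-, h1, h2⟩ | ⟨-, h1, h2⟩
    · rw [h1, h2]
    · rw [h1, h2, L.ττ]
  have hcU : ¬ (S.U c ∧ S.U (τ c)) := by
    rintro ⟨h1, h2⟩
    rcases hyz with ⟨-, h3, -⟩ | ⟨-, h3, -⟩
    · exact A.nU (by rw [← hy, h3]; exact h2)
    · exact A.nU (by rw [← hy, h3]; exact h1)
  have hcD : ¬ S.Dc c := fun h => hcU (S.dU c h)
  have hne : ∀ c', S.Dc c' → c' ≠ c := fun c' h h' => hcD (h' ▸ h)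
  have hbig : Big E τ (bb E τ c) := by
    rcases A.kind with h | ⟨q, hq, ⟨-, h⟩ | ⟨-, h⟩⟩
    · exact big_bb h.2.2.2.2.1
    · have h1 := big_nu L (L.Kb q hq)
      rw [← h] at h1
      rw [bb_big h1]; exact h1
    · have h1 := big_nu L (big_nu L (L.Kb q hq))
      rw [← h] at h1
      rw [bb_big h1]; exact h1
  have ch' : ∀ c', S.Dc c' → (chd τ (fun x => if x = c then β else S.cp x) c') = chd τ S.cp c' := by
    intro c' h
    unfold chd
    simp only [if_neg (hne c' h)]
  have chc : chd τ (fun x => if x = c then β else S.cp x) c = y := by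
    unfold chd
    simp only [if_true]
    rfl
  have chdU : ∀ c', S.Dc c' → S.U (chd τ S.cp c') := by
    intro c' h
    unfold chd
    split_ifs
    · exact (S.dU c' h).2
    · exact (S.dU c' h).1
  have pU : ∀ x, S.U x → ((if E.SameCycle y x then β else S.pop x) ↔ S.pop x) := fun x hx => by
    rw [if_neg (UF x hx)]
  have dU : ∀ x, S.U x → (if E.SameCycle y x then S.dep z + 1 else S.dep x) = S.dep x :=
    fun x hx => if_neg (UF x hx)
  refine ⟨{
    U := fun x => S.U x ∨ E.SameCycle y x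
    yt := S.yt
    pop := fun x => if E.SameCycle y x then β else S.pop x
    dep := fun x => if E.SameCycle y x then S.dep z + 1 else S.dep x
    Dc := fun x => S.Dc x ∨ x = c
    cp := fun x => if x = c then β else S.cp x
    UE := fun x => by rw [S.UE, sE]
    UR := ?_
    popE := fun x => by simp only [sE, S.popE]
    depE := fun x => by simp only [sE, S.depE]
    y1 := S.y1
    y2 := S.y2
    y3 := S.y3
    y4 := Or.inl S.y4
    y5 := Or.inl S.y5
    pr := by rw [pU _ S.y5]; exact S.pr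
    pr' := by rw [pU _ S.y4]; exact S.pr'
    dU := ?_
    cls := ?_
    kind := ?_
    fr := ?_
    uq := ?_
    dlt := ?_
    chU := ?_
    chR := ?_
    chE := ?_ }, fun x hx => Or.inl hx, Or.inr (sR y)⟩
  · rintro x (h | h)
    · exact S.UR x h
    · have h1 : Reg E τ r y := by
        rw [← hτz]
        exact Reg.τ_iff.2 (S.UR _ A.hU)
      exact h1.trans (Reg.cyc h)
  · rintro x (h | rfl)
    · exact ⟨Or.inl (S.dU x h).1, Or.inl (S.dU x h).2⟩
    · rcases hyz with ⟨-, h1, h2⟩ | ⟨-, h1, h2⟩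
      · exact ⟨Or.inl (by rw [← h2]; exact A.hU), Or.inr (by rw [h1])⟩
      · exact ⟨Or.inr (by rw [h1]), Or.inl (by rw [← h2]; exact A.hU)⟩
  · rintro x (h | rfl)
    · rw [if_neg (hne x h), pU _ (S.dU x h).1, pU _ (S.dU x h).2]
      exact S.cls x h
    · rw [if_pos rfl]
      rcases hyz with ⟨h0, h1, h2⟩ | ⟨h0, h1, h2⟩
      · exact ⟨fun _ => by rw [← h1, if_pos (sR y)]; exact h0, fun h => absurd h0 h⟩
      · exact ⟨fun h => absurd h h0, fun _ => by rw [← h1, if_pos (sR y)]; exact h0⟩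
  · rintro x (h | rfl)
    · rw [if_neg (hne x h), pU _ (S.dU x h).1, pU _ (S.dU x h).2]
      exact S.kind x h
    · rw [if_pos rfl]
      rcases A.kind with ⟨k1, k2, k3, k4, k5, k6⟩ | h
      · left
        refine ⟨k1, k2, ?_, ?_, k5, k6⟩
        · rcases hyz with ⟨h0, h1, h2⟩ | ⟨h0, h1, h2⟩
          · rw [pU _ (by rw [← h2]; exact A.hU)]
            exact k3 h0
          · rw [← h1, if_pos (sR y)]; exact h0
        · rcases hyz with ⟨h0, h1, h2⟩ | ⟨h0, h1, h2⟩
          · rw [← h1, if_pos (sR y)]; exact h0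
          · rw [pU _ (by rw [← h2]; exact A.hU)]
            exact k4 h0
      · exact Or.inr h
  · rintro x (h | rfl)
    · rw [if_neg (hne x h)]
      exact S.fr x h
    · rw [if_pos rfl]
      exact A.fr
  · rintro x x' (h | rfl) (h' | rfl)
    · exact S.uq x x' h h'
    · exact (A.uq x h).2
    · exact (A.uq x' h').1
    · exact fun h => hbig.1 h.symm
  · rintro x (h | rfl)
    · rw [if_neg (hne x h), dU _ (S.dU x h).1, dU _ (S.dU x h).2]
      exact S.dlt x h
    · rw [if_pos rfl]
      rcases hyz with ⟨h0, h1, h2⟩ | ⟨h0, h1, h2⟩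
      · refine ⟨fun _ => ?_, fun h => absurd h0 h⟩
        rw [dU x (by rw [← h2]; exact A.hU), ← h1, if_pos (sR y), h2]
        exact Nat.lt_succ_self _
      · refine ⟨fun h => absurd h h0, fun _ => ?_⟩
        have e : (if E.SameCycle y x then S.dep z + 1 else S.dep x) = S.dep z + 1 :=
          if_pos (by rw [h1])
        rw [dU (τ x) (by rw [← h2]; exact A.hU), e, h2]
        exact Nat.lt_succ_self _
  · rintro x x' (h | rfl) (h' | rfl) hs
    · rw [ch' x h, ch' x' h'] at hs
      exact S.chU x x' h h' hs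
    · rw [ch' x h, chc] at hs
      exact absurd hs.symm (UF _ (chdU x h))
    · rw [ch' x' h', chc] at hs
      exact absurd hs (UF _ (chdU x' h'))
    · rfl
  · rintro x (h | rfl)
    · rw [ch' x h]
      exact S.chR x h
    · rw [chc]
      exact ⟨UF _ S.y5, UF _ S.y4⟩
  · rintro x (h | h) h1 h2
    · obtain ⟨c', h3, h4⟩ := S.chE x h h1 h2
      exact ⟨c', Or.inl h3, by rw [ch' c' h3]; exact h4⟩
    · exact ⟨c, Or.inr rfl, by rw [chc]; exact h.symm⟩

/-! ## The step -/

lemma ci [Finite P] {g : P → Prop} (hg : ∀ x, g (E x) ↔ g x) {x y : P}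
    (h : E.SameCycle x y) : g x ↔ g y := (cyc_iff hg h).symm

lemma cj [Finite P] {α : Type*} {g : P → α} (hg : ∀ x, g (E x) = g x) {x y : P}
    (h : E.SameCycle x y) : g x = g y := (cyc_eq hg h).symm

section Step

variable [Finite P] (L : Loc2 E τ ok MR Kr) {r : P} {s : Prop} (S : LS E τ ok MR Kr r s)

include L

lemma link_nn {c : P} (h : S.Dc c) :
    E.SameCycle (τ c) (nu E τ (nu E τ (bb E τ c))) := by
  rcases S.kind c h with ⟨h1, h2, h3, h4, h5, h6⟩ | ⟨w, hw, h1⟩
  · have hne : ¬ E.SameCycle c (τ c) := fun h' => h3 ((ci S.popE h').2 h4)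
    exact (walk L hne (fun _ => nb_lt) _ le_rfl).1.trans (nn_same L (big_bb h5)).symm
  · have hb : Big E τ c := by
      rcases h1 with ⟨-, h1⟩ | ⟨-, h1⟩
      · rw [h1]; exact big_nu L (L.Kb w hw)
      · rw [h1]; exact big_nu L (big_nu L (L.Kb w hw))
    rw [bb_big hb]
    exact (nn_same L hb).symm

lemma link_big {c : P} (h : S.Dc c) : Big E τ (bb E τ c) := by
  rcases S.kind c h with ⟨h1, h2, h3, h4, h5, h6⟩ | ⟨w, hw, h1⟩
  · exact big_bb h5
  · have hb : Big E τ c := by
      rcases h1 with ⟨-, h1⟩ | ⟨-, h1⟩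
      · rw [h1]; exact big_nu L (L.Kb w hw)
      · rw [h1]; exact big_nu L (big_nu L (L.Kb w hw))
    rw [bb_big hb]; exact hb

/-- a link whose dart is on a popping face is special with a popping child -/
lemma link_pop {c : P} (h : S.Dc c) (hp : S.pop c) :
    ∃ w, Kr w ∧ S.cp c ∧ c = nu E τ w ∧ bb E τ c = c := by
  rcases S.kind c h with ⟨h1, h2, h3, h4, h5, h6⟩ | ⟨w, hw, ⟨h1, h2⟩ | ⟨h1, h2⟩⟩
  · exact absurd hp h3
  · refine ⟨w, hw, h1, h2, bb_big ?_⟩
    rw [h2]; exact big_nu L (L.Kb w hw)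
  · exact absurd hp ((S.cls c h).2 h1)

/-- a link whose other dart is on a pushing face is special with a pushing child -/
lemma link_push {c : P} (h : S.Dc c) (hp : ¬ S.pop (τ c)) :
    ∃ w, Kr w ∧ ¬ S.cp c ∧ c = nu E τ (nu E τ w) ∧ bb E τ c = c := by
  rcases S.kind c h with ⟨h1, h2, h3, h4, h5, h6⟩ | ⟨w, hw, ⟨h1, h2⟩ | ⟨h1, h2⟩⟩
  · exact absurd h4 hp
  · exact absurd ((S.cls c h).1 h1) hp
  · refine ⟨w, hw, h1, h2, bb_big ?_⟩
    rw [h2]; exact big_nu L (big_nu L (L.Kb w hw))

omit L in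
lemma big_of_same {x y : P} (h : E.SameCycle x y) (hy : Big E τ y) :
    ∃ k : ℕ, Big E τ ((E ^ k) x) := by
  obtain ⟨k, hk⟩ := h.exists_nat_pow_eq
  exact ⟨k, by rw [hk]; exact hy⟩

/-- the unit behind the corner -/
lemma step_big {w : P} (hw : Big E τ w) (hne : ¬ E.SameCycle (τ w) w) :
    E (τ (E (τ w))) = w := by
  have h1 := step_nb L (x := τ w) (fun h => L.g3 w ⟨hw, h⟩) (by rw [L.ττ]; exact hne)
  rwa [L.ττ] at h1

end Step

/-- a place for a pushing child with a popping host -/
structure CE {r : P} {s : Prop} (S : LS E τ ok MR Kr r s) (c : P) : Prop where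
  n1 : ¬ S.U c
  n2 : S.U (τ c)
  n3 : S.pop (τ c)
  n4 : ¬ Big E τ c
  n5 : ¬ Big E τ (τ c)
  n6 : ∀ a, ok c false a a
  n7 : ∃ k : ℕ, Big E τ ((E ^ k) c)

/-- a place for a popping child with a pushing host -/
structure CO {r : P} {s : Prop} (S : LS E τ ok MR Kr r s) (c : P) : Prop where
  n1 : S.U c
  n2 : ¬ S.U (τ c)
  n3 : ¬ S.pop c
  n4 : ¬ Big E τ c
  n5 : ¬ Big E τ (τ c)
  n6 : ∀ a, ok c true a a
  n7 : ∃ k : ℕ, Big E τ ((E ^ k) c)

section Step2

variable [Finite P] (L : Loc2 E τ ok MR Kr) {r : P} {s : Prop} (S : LS E τ ok MR Kr r s)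

include L

theorem ce_step {c : P} (C : CE S c) : (∃ c' β, Att S c' β) ∨
    (∃ c', CE S c' ∧ S.dep (τ c) < S.dep (τ c')) ∨
    (∃ c' j, CE S c' ∧ 0 < j ∧ (E ^ j) (τ c') = τ c ∧ S.dep (τ c') = S.dep (τ c) ∧
      ∀ i ≤ j, ¬ S.U (τ ((E ^ i) (τ c')))) := by
  classical
  set q := bb E τ c with hq
  have hb : Big E τ q := big_bb C.n7
  have hcq : E.SameCycle c q := bb_same c
  have nUq : ¬ S.U q := fun h => C.n1 ((ci S.UE hcq).2 h)
  have hne : ¬ E.SameCycle c (τ c) := fun h => C.n1 ((ci S.UE h).2 C.n2)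
  obtain ⟨W1, W2⟩ := walk L hne (fun _ => nb_lt) (kk E τ c) le_rfl
  change E.SameCycle (τ c) (τ q) at W1
  change (E ^ kk E τ c) (τ q) = τ c at W2
  have hnn : E.SameCycle (τ c) (nu E τ (nu E τ q)) := W1.trans (nn_same L hb).symm
  have Unn : S.U (nu E τ (nu E τ q)) := (ci S.UE hnn).1 C.n2
  have Pnn : S.pop (nu E τ (nu E τ q)) := (ci S.popE hnn).1 C.n3
  have hb1 := big_nu L hb
  have hb2 := big_nu L hb1
  have h3 := L.n3 q hb
  by_cases hK : Kr q
  · by_cases hT : S.U (nu E τ q)
    · -- a link at the vertex `K_a`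
      left
      refine ⟨nu E τ q, True, ?_, ?_, Or.inr ⟨q, hK, Or.inl ⟨trivial, rfl⟩⟩,
        ⟨fun _ => L.Kx q hK, fun h => absurd trivial h⟩, ?_⟩
      · unfold ch
        rw [if_pos trivial, ← E_nu L, S.UE]; exact nUq
      · unfold ho
        rw [if_pos trivial]; exact hT
      · intro c' hc'
        rw [bb_big hb1]
        constructor
        · intro h
          have h1 := nu_inj L h
          apply nUq
          rw [h1]
          exact (ci S.UE (bb_same c')).1 (S.dU c' hc').1
        · intro h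
          have h1 : S.pop c' := (ci S.popE (bb_same c')).2 (by rw [h]; exact Pnn)
          obtain ⟨w, k1, k2, k3, k4⟩ := link_pop L S hc' h1
          rw [k4, k3] at h
          have h2 := nu_inj L h
          exact L.Ku q hK (h2 ▸ k1)
    · -- the same host
      right; right
      set x := τ (nu E τ (nu E τ q)) with hx
      have hx1 : E (nu E τ q) = x := E_nu L _
      have nUx : ¬ S.U x := by rw [← hx1, S.UE]; exact hT
      have hx2 : E (τ (E x)) = nu E τ (nu E τ q) :=
        step_big L hb2 (fun h => nUx ((ci S.UE h).2 Unn))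
      have hx3 : E.SameCycle (τ (E x)) (nu E τ (nu E τ q)) := by
        rw [← hx2]; exact (sE _ _).2 (sR _)
      have hk := L.Kz2 q hK
      rw [hx1] at hk
      refine ⟨E x, kk E τ c + 2, ⟨?_, ?_, ?_, hk.1, hk.2.1, hk.2.2, ?_⟩, by omega, ?_, ?_, ?_⟩
      · rw [S.UE]; exact nUx
      · exact (ci S.UE hx3).2 Unn
      · exact (ci S.popE hx3).2 Pnn
      · refine big_of_same (y := nu E τ q) ?_ hb1
        rw [Es, ← hx1, Es]
      · rw [pow_add]
        show (E ^ kk E τ c) (E (E (τ (E x)))) = τ c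
        rw [hx2, E_nn L hb]; exact W2
      · rw [cj S.depE hx3, cj S.depE hnn]
      · intro i hi
        match i, hi with
        | 0, _ => 
          show ¬ S.U (τ (τ (E x)))
          rw [L.ττ, S.UE]; exact nUx
        | 1, _ => 
          show ¬ S.U (τ (E (τ (E x))))
          rw [hx2]; exact nUx
        | i + 2, hi => 
          have e1 : (E ^ (i + 2)) (τ (E x)) = (E ^ i) (τ q) := by
            rw [pow_add]
            show (E ^ i) (E (E (τ (E x)))) = _
            rw [hx2, E_nn L hb]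
          rw [e1]
          have h4 := (walk L hne (k := kk E τ c) (fun _ => nb_lt) (kk E τ c - i) (by omega)).2
          have h5 : (E ^ (kk E τ c - i)) ((E ^ i) (τ q)) = τ c := by
            rw [← W2, ← Equiv.Perm.mul_apply, ← pow_add]
            congr 2
            omega
          have h6 := (E ^ (kk E τ c - i)).injective (h5.trans h4.symm)
          rw [h6, L.ττ]
          exact fun h => C.n1 ((ci S.UE (s_pow _ c)).2 h)
  · by_cases hu : ∃ c', S.Dc c' ∧ bb E τ c' = nu E τ (nu E τ q)
    · -- a deeper host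
      obtain ⟨c', hc', hu⟩ := hu
      have h1 : S.pop c' := (ci S.popE (bb_same c')).2 (by rw [hu]; exact Pnn)
      obtain ⟨w, k1, k2, k3, k4⟩ := link_pop L S hc' h1
      have hw : w = nu E τ q := by
        apply nu_inj L
        rw [← k3, ← k4, hu]
      have hww : nu E τ (nu E τ w) = q := by rw [hw, h3]
      have hcw : E.SameCycle (τ c') w := by
        rw [k3, ← E_nu L, Es]
      have Uw : S.U w := (ci S.UE hcw).1 (S.dU c' hc').2
      have hx1 : E q = τ w := by rw [E_nu L, ← hw]
      have nUx : ¬ S.U (τ w) := by rw [← hx1, S.UE]; exact nUq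
      have hx2 : E (τ (E (τ w))) = w :=
        step_big L (L.Kb w k1) (fun h => nUx ((ci S.UE h).2 Uw))
      have hx3 : E.SameCycle (τ (E (τ w))) w := by
        rw [← Es, hx2]
      have hM : MR (E (τ w)) := by
        have := L.K02 w k1
        rwa [hww, hx1] at this
      right; left
      refine ⟨E (τ w), ⟨?_, ?_, ?_, L.MRb _ hM, L.MRb _ (L.MRτ _ hM), L.MRok _ hM false, ?_⟩, ?_⟩
      · rw [S.UE]; exact nUx
      · exact (ci S.UE hx3).2 Uw
      · exact (ci S.popE (hcw.trans hx3.symm)).1 ((S.cls c' hc').1 k2)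
      · refine big_of_same (y := q) ?_ hb
        rw [Es, ← hx1, Es]
      · have h4 := (S.dlt c' hc').1 k2
        rw [cj S.depE hx3, ← cj S.depE hcw]
        rw [cj S.depE hnn, ← hu, ← cj S.depE (bb_same c')]
        exact h4
    · -- a regular link
      left
      refine ⟨c, False, ?_, ?_, Or.inl ⟨C.n4, C.n5, fun h => h.elim, fun _ => C.n3, C.n7, hK⟩,
        ⟨fun h => h.elim, fun _ => C.n6⟩, ?_⟩
      · unfold ch
        rw [if_neg not_false]; exact C.n1
      · unfold ho
        rw [if_neg not_false]; exact C.n2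
      · intro c' hc'
        constructor
        · intro h
          apply hu
          refine ⟨c', hc', ?_⟩
          have h4 : q = nu E τ (bb E τ c') := h
          rw [h4, L.n3 _ (link_big L S hc')]
        · intro h
          have h4 : bb E τ c' = nu E τ q := h
          have h5 := link_nn L S hc'
          rw [h4, h3] at h5
          exact nUq ((ci S.UE h5).1 (S.dU c' hc').2)

theorem co_step {c : P} (C : CO S c) : (∃ c' β, Att S c' β) ∨
    (∃ c', CO S c' ∧ S.dep c < S.dep c') ∨
    (∃ c' j, CO S c' ∧ 0 < j ∧ (E ^ j) c = c' ∧ ∀ i ≤ j, ¬ S.U (τ ((E ^ i) c))) := by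
  classical
  set q := bb E τ c with hq
  have hb : Big E τ q := big_bb C.n7
  have hcq : E.SameCycle c q := bb_same c
  have Uq : S.U q := (ci S.UE hcq).1 C.n1
  have Pq : ¬ S.pop q := fun h => C.n3 ((ci S.popE hcq).2 h)
  have hne : ¬ E.SameCycle c (τ c) := fun h => C.n2 ((ci S.UE h).1 C.n1)
  have W := walk L hne (k := kk E τ c) (fun _ => nb_lt)
  have W1 : E.SameCycle (τ c) (τ q) := (W _ le_rfl).1
  have hnn : E.SameCycle (τ c) (nu E τ (nu E τ q)) := W1.trans (nn_same L hb).symm
  have Unn : ¬ S.U (nu E τ (nu E τ q)) := fun h => C.n2 ((ci S.UE hnn).2 h)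
  have hb1 := big_nu L hb
  have hb2 := big_nu L hb1
  have h3 := L.n3 q hb
  have key : ∀ c', S.Dc c' → bb E τ c' = nu E τ q →
      ∃ w, Kr w ∧ ¬ S.cp c' ∧ c' = nu E τ (nu E τ w) ∧ bb E τ c' = c' ∧ q = nu E τ w := by
    intro c' hc' h
    have h5 := link_nn L S hc'
    rw [h, h3] at h5
    obtain ⟨w, k1, k2, k3, k4⟩ := link_push L S hc' (fun h' => Pq ((ci S.popE h5).1 h'))
    refine ⟨w, k1, k2, k3, k4, ?_⟩
    apply nu_inj L
    rw [← k3, ← k4, h]
  by_cases hK : Kr q
  · by_cases hT : S.U (nu E τ q)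
    · left
      refine ⟨nu E τ (nu E τ q), False, ?_, ?_, Or.inr ⟨q, hK, Or.inr ⟨not_false, rfl⟩⟩,
        ⟨fun h => h.elim, fun _ => L.Kz q hK⟩, ?_⟩
      · unfold ch
        rw [if_neg not_false]; exact Unn
      · unfold ho
        rw [if_neg not_false, ← E_nu L, S.UE]; exact hT
      · intro c' hc'
        rw [bb_big hb2]
        constructor
        · intro h
          have h1 := nu_inj L h
          obtain ⟨w, k1, -, -, -, k5⟩ := key c' hc' h1.symm
          exact L.Ku w k1 (k5 ▸ hK)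
        · intro h
          rw [h3] at h
          have h5 := link_nn L S hc'
          rw [h] at h5
          exact Unn ((ci S.UE h5).1 (S.dU c' hc').2)
    · right; right
      set x := τ (nu E τ q) with hx
      have hx1 : E q = x := E_nu L _
      have Ux : S.U x := by rw [← hx1, S.UE]; exact Uq
      have hx2 : E (τ (E x)) = nu E τ q :=
        step_big L hb1 (fun h => hT ((ci S.UE h).1 Ux))
      have hx3 : E.SameCycle (τ (E x)) (nu E τ q) := by
        rw [← Es, hx2]
      have hk := L.Kx2 q hK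
      rw [hx1] at hk
      have h0 : ¬ S.U (τ (E x)) := fun h => hT ((ci S.UE hx3).1 h)
      have e2 : (E ^ (kk E τ c + 2)) c = E x := by
        rw [add_comm, pow_add]
        show E (E ((E ^ kk E τ c) c)) = _
        rw [← hx1]; rfl
      refine ⟨E x, kk E τ c + 2, ⟨?_, h0, ?_, hk.1, hk.2.1, hk.2.2, ?_⟩, by omega, e2, ?_⟩
      · rw [S.UE]; exact Ux
      · rw [S.popE, ← hx1, S.popE]; exact Pq
      · refine big_of_same (y := q) ?_ hb
        rw [Es, ← hx1, Es]
      · intro i hi
        rcases Nat.lt_or_ge i (kk E τ c + 1) with h4 | h4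
        · exact fun h => C.n2 ((ci S.UE (W i (by omega)).1).2 h)
        · rcases Nat.lt_or_ge i (kk E τ c + 2) with h5 | h5
          · have : i = 1 + kk E τ c := by omega
            rw [this, pow_add]
            show ¬ S.U (τ (E q))
            rw [hx1, hx, L.ττ]; exact hT
          · have : i = kk E τ c + 2 := by omega
            rw [this, e2]; exact h0
  · by_cases hu : ∃ c', S.Dc c' ∧ bb E τ c' = nu E τ q
    · obtain ⟨c', hc', hu⟩ := hu
      obtain ⟨w, k1, k2, k3, k4, k5⟩ := key c' hc' hu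
      have hww : nu E τ (nu E τ w) = nu E τ q := by rw [k5]
      have hwq : nu E τ (nu E τ q) = w := by rw [k5, L.n3 w (L.Kb w k1)]
      have hcq' : E.SameCycle c' (nu E τ q) := by rw [← hu]; exact bb_same c'
      have U1 : S.U (nu E τ q) := (ci S.UE hcq').1 (S.dU c' hc').1
      have hx1 : E (nu E τ q) = τ w := by rw [E_nu L, hwq]
      have Ux : S.U (τ w) := by rw [← hx1, S.UE]; exact U1
      have nUw : ¬ S.U w := by rw [← hwq]; exact Unn
      have hx2 : E (τ (E (τ w))) = w :=
        step_big L (L.Kb w k1) (fun h => nUw ((ci S.UE h).1 Ux))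
      have hx3 : E.SameCycle (τ (E (τ w))) w := by
        rw [← Es, hx2]
      have hx4 : E.SameCycle (nu E τ q) (E (τ w)) := by rw [← hx1, sE, sE]
      have hM : MR (E (τ w)) := by
        have := L.K02 w k1
        rwa [hww, hx1] at this
      right; left
      refine ⟨E (τ w), ⟨?_, ?_, ?_, L.MRb _ hM, L.MRb _ (L.MRτ _ hM), L.MRok _ hM true, ?_⟩, ?_⟩
      · rw [S.UE]; exact Ux
      · exact fun h => nUw ((ci S.UE hx3).1 h)
      · exact fun h => (S.cls c' hc').2 k2 ((ci S.popE (hcq'.trans hx4)).2 h)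
      · exact big_of_same hx4.symm hb1
      · have h4 := (S.dlt c' hc').2 k2
        have h5 := link_nn L S hc'
        rw [hu, h3] at h5
        rw [cj S.depE hcq, ← cj S.depE h5, ← cj S.depE (hcq'.trans hx4)]
        exact h4
    · left
      refine ⟨c, True, ?_, ?_, Or.inl ⟨C.n4, C.n5, fun _ => C.n3, fun h => absurd trivial h, C.n7,
        hK⟩, ⟨fun _ => C.n6, fun h => absurd trivial h⟩, ?_⟩
      · unfold ch
        rw [if_pos trivial]; exact C.n2
      · unfold ho
        rw [if_pos trivial]; exact C.n1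
      · intro c' hc'
        constructor
        · intro h
          have h4 : q = nu E τ (bb E τ c') := h
          apply Unn
          rw [h4, L.n3 _ (link_big L S hc')]
          exact (ci S.UE (bb_same c')).1 (S.dU c' hc').1
        · intro h
          exact hu ⟨c', hc', h⟩

/-- every reached face has a dart whose other side is reached -/
lemma exists_out {x : P} (hx : S.U x) : ∃ z, E.SameCycle x z ∧ S.U (τ z) := by
  by_cases h1 : E.SameCycle x (τ S.yt)
  · exact ⟨_, h1, by rw [L.ττ]; exact S.y4⟩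
  · by_cases h2 : E.SameCycle x S.yt
    · exact ⟨_, h2, S.y5⟩
    · obtain ⟨c, h3, h4⟩ := S.chE x hx h1 h2
      refine ⟨_, h4, ?_⟩
      unfold chd
      split_ifs
      · rw [L.ττ]; exact (S.dU c h3).1
      · exact (S.dU c h3).2

lemma ce_inner : ∀ (n : ℕ) (c : P), CE S c →
    (∀ c', CE S c' → S.dep (τ c) < S.dep (τ c') → ∃ c' β, Att S c' β) →
    (∃ z, (E ^ n) z = τ c ∧ S.U (τ z)) → ∃ c' β, Att S c' β := by
  intro n
  induction n using Nat.strong_induction_on with
  | _ n ih =>
    intro c C hd hz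
    rcases ce_step L S C with h | ⟨c', h1, h2⟩ | ⟨c', j, h1, h2, h3, h4, h5⟩
    · exact h
    · exact hd c' h1 h2
    · obtain ⟨z, hz1, hz2⟩ := hz
      have hj : j < n := by
        by_contra hj
        have e1 : (E ^ n) z = (E ^ n) ((E ^ (j - n)) (τ c')) := by
          rw [hz1, ← Equiv.Perm.mul_apply, ← pow_add, show n + (j - n) = j by omega, h3]
        have e2 := (E ^ n).injective e1
        exact h5 (j - n) (by omega) (by rw [← e2]; exact hz2)
      have e3 : (E ^ (n - j)) z = τ c' := by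
        apply (E ^ j).injective
        rw [← Equiv.Perm.mul_apply, ← pow_add, show j + (n - j) = n by omega, hz1, h3]
      exact ih (n - j) (by omega) c' h1 (fun c'' k1 k2 => hd c'' k1 (by rw [← h4]; exact k2))
        ⟨z, e3, hz2⟩

lemma co_inner : ∀ (n : ℕ) (c : P), CO S c →
    (∀ c', CO S c' → S.dep c < S.dep c' → ∃ c' β, Att S c' β) →
    (∃ z, (E ^ n) c = z ∧ S.U (τ z)) → ∃ c' β, Att S c' β := by
  intro n
  induction n using Nat.strong_induction_on with
  | _ n ih =>
    intro c C hd hz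
    rcases co_step L S C with h | ⟨c', h1, h2⟩ | ⟨c', j, h1, h2, h3, h5⟩
    · exact h
    · exact hd c' h1 h2
    · obtain ⟨z, hz1, hz2⟩ := hz
      have hj : j < n := by
        by_contra hj
        exact h5 n (by omega) (by rw [hz1]; exact hz2)
      have e3 : (E ^ (n - j)) c' = z := by
        rw [← h3, ← Equiv.Perm.mul_apply, ← pow_add, show n - j + j = n by omega, hz1]
      have h4 : S.dep c' = S.dep c := by
        rw [← h3]
        exact (cj S.depE (s_pow j c)).symm
      exact ih (n - j) (by omega) c' h1 (fun c'' k1 k2 => hd c'' k1 (by rw [← h4]; exact k2))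
        ⟨z, e3, hz2⟩

lemma ce_att {D : ℕ} (hD : ∀ x, S.dep x ≤ D) : ∀ (d : ℕ) (c : P), CE S c →
    D ≤ S.dep (τ c) + d → ∃ c' β, Att S c' β := by
  intro d
  induction d with
  | zero =>
    intro c C h
    obtain ⟨z, h1, h2⟩ := exists_out L S C.n2
    obtain ⟨n, hn⟩ := h1.symm.exists_nat_pow_eq
    refine ce_inner L S n c C (fun c' _ h3 => ?_) ⟨z, hn, h2⟩
    have := hD (τ c')
    omega
  | succ d ih =>
    intro c C h
    obtain ⟨z, h1, h2⟩ := exists_out L S C.n2
    obtain ⟨n, hn⟩ := h1.symm.exists_nat_pow_eq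
    exact ce_inner L S n c C (fun c' h3 h4 => ih c' h3 (by omega)) ⟨z, hn, h2⟩

lemma co_att {D : ℕ} (hD : ∀ x, S.dep x ≤ D) : ∀ (d : ℕ) (c : P), CO S c →
    D ≤ S.dep c + d → ∃ c' β, Att S c' β := by
  intro d
  induction d with
  | zero =>
    intro c C h
    obtain ⟨z, h1, h2⟩ := exists_out L S C.n1
    obtain ⟨n, hn⟩ := h1.exists_nat_pow_eq
    refine co_inner L S n c C (fun c' _ h3 => ?_) ⟨z, hn, h2⟩
    have := hD c'
    omega
  | succ d ih =>
    intro c C h
    obtain ⟨z, h1, h2⟩ := exists_out L S C.n1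
    obtain ⟨n, hn⟩ := h1.exists_nat_pow_eq
    exact co_inner L S n c C (fun c' h3 h4 => ih c' h3 (by omega)) ⟨z, hn, h2⟩

/-- **something can be attached** -/
theorem exists_att (h : ∃ x, Reg E τ r x ∧ ¬ S.U x) : ∃ c β, Att S c β := by
  obtain ⟨x, hx, nx⟩ := h
  have hr : S.U r := (ci S.UE S.y2).2 S.y5
  have h1 : ∃ z, MR z ∧ S.U z ∧ ¬ S.U (τ z) := by
    by_contra hcon
    push Not at hcon
    exact nx ((inv L hx S.UE (fun z hz hz' => hcon z hz hz')).1 hr)
  obtain ⟨z, h2, h3, h4⟩ := h1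
  obtain ⟨D, hD⟩ : ∃ D, ∀ x, S.dep x ≤ D := by
    obtain ⟨D, hD⟩ := (Set.finite_range S.dep).bddAbove
    exact ⟨D, fun x => hD ⟨x, rfl⟩⟩
  have hrz : Reg E τ r z := S.UR z h3
  have hne : ¬ E.SameCycle z (τ z) := fun h => h4 ((ci S.UE h).1 h3)
  have hry : Reg E τ r S.yt := S.UR _ S.y4
  by_cases hp : S.pop z
  · refine ce_att L S hD D (τ z) ⟨h4, by rw [L.ττ]; exact h3, by rw [L.ττ]; exact hp,
      L.MRb _ (L.MRτ _ h2), by rw [L.ττ]; exact L.MRb _ h2, L.MRok _ (L.MRτ _ h2) false, ?_⟩
      (by omega)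
    by_contra hc
    push Not at hc
    have hne' : ¬ E.SameCycle (τ z) (τ (τ z)) := by
      rw [L.ττ]; exact fun h => hne h.symm
    have k1 := two_faces L hne' hc (x := r) ((reg_τ z).symm.trans hrz.symm)
    have k2 := two_faces L hne' hc (x := S.yt) ((reg_τ z).symm.trans (hrz.symm.trans hry))
    rw [L.ττ] at k1 k2
    have k3 : E.SameCycle z r := k1.resolve_left fun h => h4 ((ci S.UE h).2 hr)
    have k4 : E.SameCycle z S.yt := k2.resolve_left fun h => h4 ((ci S.UE h).2 S.y4)
    exact S.y3 (k3.symm.trans k4)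
  · refine co_att L S hD D z ⟨h3, h4, hp, L.MRb _ h2, L.MRb _ (L.MRτ _ h2), L.MRok _ h2 true, ?_⟩
      (by omega)
    by_contra hc
    push Not at hc
    have k1 := two_faces L hne hc (x := r) hrz.symm
    have k2 := two_faces L hne hc (x := S.yt) (hrz.symm.trans hry)
    have k3 : E.SameCycle z r := k1.resolve_right fun h => h4 ((ci S.UE h).2 hr)
    have k4 : E.SameCycle z S.yt := k2.resolve_right fun h => h4 ((ci S.UE h).2 S.y4)
    exact S.y3 (k3.symm.trans k4)

end Step2

/-- **a link system on all faces of the region** -/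
theorem exists_LS [Finite P] (L : Loc2 E τ ok MR Kr) (r : P) (s : Prop)
    (h : ∃ x, Reg E τ r x ∧ ¬ E.SameCycle r x) :
    ∃ S : LS E τ ok MR Kr r s, ∀ x, Reg E τ r x → S.U x := by
  classical
  have key : ∀ (n : ℕ) (S : LS E τ ok MR Kr r s), Nat.card P ≤ {x | S.U x}.ncard + n →
      ∃ S : LS E τ ok MR Kr r s, ∀ x, Reg E τ r x → S.U x := by
    intro n
    induction n with
    | zero =>
      intro S hn
      refine ⟨S, ?_⟩
      by_contra hcon
      push Not at hcon
      obtain ⟨c, β, A⟩ := exists_att L S hcon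
      obtain ⟨S', h1, h2⟩ := extend L S A
      have h3 : {x | S.U x}.ncard < {x | S'.U x}.ncard :=
        Set.ncard_lt_ncard ⟨fun x hx => h1 x hx, fun h' => A.nU (h' h2)⟩ (Set.toFinite _)
      have h4 : {x | S'.U x}.ncard ≤ Nat.card P := by
        rw [← Set.ncard_univ]
        exact Set.ncard_le_ncard (Set.subset_univ _) (Set.toFinite _)
      omega
    | succ n ih =>
      intro S hn
      by_cases hcon : ∃ x, Reg E τ r x ∧ ¬ S.U x
      · obtain ⟨c, β, A⟩ := exists_att L S hcon
        obtain ⟨S', h1, h2⟩ := extend L S A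
        have h3 : {x | S.U x}.ncard < {x | S'.U x}.ncard :=
          Set.ncard_lt_ncard ⟨fun x hx => h1 x hx, fun h' => A.nU (h' h2)⟩ (Set.toFinite _)
        exact ih S' (by omega)
      · push Not at hcon
        exact ⟨S, hcon⟩
  obtain ⟨S⟩ := exists_root L r s h
  exact key (Nat.card P) S (by omega)

end Grow

end Pool.Agent.MP42.EO
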