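import Pool.Agent.MP42.EO.Sel

/-!
# Local facts of a spine with the vertices `K_y`, and link systems

`Kr q`: the vertex at the east end of `q` is a `K_y` and `q` is its real ribbon; the other two darts
of the vertex are `ν q` (XX, free sign `true`) and `ν (ν q)` (ZZ, free sign `false`).
-/

set_option autoImplicit false

namespace Pool.Agent.MP42.EO

open Pool.Agent.MP42.NE

/-- The local facts.  `MR x`: middle real unit, `Kr q`: real dart of a `K_y`. -/
structure Loc2 {P : Type*} (E : Equiv.Perm P) (τ : P → P) (ok : P → Bool → Bool → Bool → Prop)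
    (MR Kr : P → Prop) : Prop where
  ττ : ∀ x, τ (τ x) = x
  ne : ∀ x, τ x ≠ x
  oks : ∀ x s a b, ok x s a b → ok (τ x) s b a
  n3 : ∀ x, Big E τ x → nu E τ (nu E τ (nu E τ x)) = x
  g3 : ∀ x, ¬ (Big E τ x ∧ Big E τ (τ x))
  MRb : ∀ x, MR x → ¬ Big E τ x
  MRτ : ∀ x, MR x → MR (τ x)
  MRok : ∀ x, MR x → ∀ s a, ok x s a a
  /-- the way round the third corner -/
  g2 : ∀ q, Big E τ q → ¬ Kr q →
    ∃ a b c, ok (nu E τ q) false b a ∧ ok (nu E τ (nu E τ q)) true c b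
  Kb : ∀ q, Kr q → Big E τ q
  Ku : ∀ q, Kr q → ¬ Kr (nu E τ q)
  /-- the three ribbons of a `K_y` -/
  K0 : ∀ q, Kr q → ∀ s a, ok q s a a
  Kx : ∀ q, Kr q → ∀ a, ok (nu E τ q) true a a
  Kz : ∀ q, Kr q → ∀ a, ok (nu E τ (nu E τ q)) false a a
  /-- the second unit of the edge `XX` -/
  Kx2 : ∀ q, Kr q → ¬ Big E τ (E (E q)) ∧ ¬ Big E τ (τ (E (E q))) ∧ ∀ a, ok (E (E q)) true a a
  /-- the second unit of the edge `ZZ` -/
  Kz2 : ∀ q, Kr q → ¬ Big E τ (E (E (nu E τ q))) ∧ ¬ Big E τ (τ (E (E (nu E τ q)))) ∧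
    ∀ a, ok (E (E (nu E τ q))) false a a
  /-- the second unit of the real edge -/
  K02 : ∀ q, Kr q → MR (E (E (nu E τ (nu E τ q))))
  /-- the two faces of a ribbon are connected over middle real units -/
  conn : ∀ ψ : P → Prop, (∀ x, ψ (E x) ↔ ψ x) → (∀ x, MR x → (ψ (τ x) ↔ ψ x)) →
    ∀ x, (ψ (τ x) ↔ ψ x)
  /-- regions with one face contain a real ribbon and a gate -/
  leaf : ∀ x, (∀ y, Reg E τ x y → E.SameCycle x y) →
    (∃ y, Reg E τ x y ∧ ∀ s a, ok y s a a) ∧ ∃ y, Reg E τ x y ∧ ∃ a, ∀ s, ok y s a (!a)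

open Classical in
/-- the side of the direct unit on the face of the child -/
noncomputable def chd {P : Type*} (τ : P → P) (cp : P → Prop) (c : P) : P :=
  if cp c then τ c else c

/-- Link systems: a tree on the faces in `U`.  A link is given by a dart `c` (`Dc c`), its direct
unit; the vertex of the link is at the east end of `bb c`, the way round passes `ν (bb c)` and
`ν (ν (bb c))`.  `cp c`: the child is the face of `τ c` (popping), else the child is the face of `c`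
(pushing). -/
structure LS {P : Type*} (E : Equiv.Perm P) (τ : P → P) (ok : P → Bool → Bool → Bool → Prop)
    (MR Kr : P → Prop) (r : P) (s : Prop) where
  U : P → Prop
  yt : P
  pop : P → Prop
  dep : P → ℕ
  Dc : P → Prop
  cp : P → Prop
  UE : ∀ x, U (E x) ↔ U x
  UR : ∀ x, U x → Reg E τ r x
  popE : ∀ x, pop (E x) ↔ pop x
  depE : ∀ x, dep (E x) = dep x
  /-- the root unit -/
  y1 : MR yt
  y2 : E.SameCycle r (τ yt)
  y3 : ¬ E.SameCycle r yt
  y4 : U yt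
  y5 : U (τ yt)
  pr : pop (τ yt) ↔ ¬ s
  pr' : pop yt ↔ s
  /-- both faces of a link are reached -/
  dU : ∀ c, Dc c → U c ∧ U (τ c)
  /-- the class of the child -/
  cls : ∀ c, Dc c → (cp c → pop (τ c)) ∧ (¬ cp c → ¬ pop c)
  /-- regular links, and the two free links at a `K_y` -/
  kind : ∀ c, Dc c →
    (¬ Big E τ c ∧ ¬ Big E τ (τ c) ∧ ¬ pop c ∧ pop (τ c) ∧ (∃ k : ℕ, Big E τ ((E ^ k) c)) ∧
      ¬ Kr (bb E τ c)) ∨
    (∃ q, Kr q ∧ ((cp c ∧ c = nu E τ q) ∨ (¬ cp c ∧ c = nu E τ (nu E τ q))))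
  /-- the direct unit is free -/
  fr : ∀ c, Dc c → (cp c → ∀ a, ok c true a a) ∧ (¬ cp c → ∀ a, ok c false a a)
  /-- a vertex is used once -/
  uq : ∀ c c', Dc c → Dc c' → bb E τ c ≠ nu E τ (bb E τ c')
  /-- the tree -/
  dlt : ∀ c, Dc c → (cp c → dep c < dep (τ c)) ∧ (¬ cp c → dep (τ c) < dep c)
  chU : ∀ c c', Dc c → Dc c' → E.SameCycle (chd τ cp c) (chd τ cp c') → c = c'
  chR : ∀ c, Dc c → ¬ E.SameCycle (chd τ cp c) (τ yt) ∧ ¬ E.SameCycle (chd τ cp c) yt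
  chE : ∀ x, U x → ¬ E.SameCycle x (τ yt) → ¬ E.SameCycle x yt →
    ∃ c, Dc c ∧ E.SameCycle x (chd τ cp c)

end Pool.Agent.MP42.EO
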