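import Pool.Agent.MP42.EO.LocK
import Pool.Agent.MP42.EO.If2

/-!
# The local facts of the spine system with the vertices `K_y`: the instance (owner helper70)
-/

set_option autoImplicit false
set_option linter.unusedSectionVars false

namespace Pool.Agent.MP42.EO

open Pool.Agent.Helper55.UNF Pool.Agent.Helper55.UNF.GridSolid Pool.Agent.MP42.NE
open Pool.Agent.MP42.Geo Pool.Agent.MP42NG Pool.Agent.MP42 Pool.Agent.MP42H
open Loc8

variable {P : GridSolid} {n : ℕ} {hn : 0 < n} {a b : Fin 3}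

/-- **The local facts of the spine system, with the vertices `K_y`.** -/
theorem loc2_sysH (hn3 : 3 ≤ n) (hP : P.IsManifold) (hab : a ≠ b)
    (hB : ∀ v, noB a b (pat P v) = true)
    (hpole : ∀ x : RD (P.refine n hn) a b,
      (∀ y, Reg (EH hab) (tH hab) x y → (EH hab).SameCycle x y) →
        ∃ y, Reg (EH hab) (tH hab) x y ∧ nu (EH hab) (tH hab) y = y) :
    Loc2 (EH (Q := P.refine n hn) hab) (tH hab) (fun x => okH b x.1) (MR hab) (Ky hab) := by
  have hM : (P.refine n hn).IsManifold := isManifold_refine hP hn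
  have hB' := noB_refine hM hab hB
  have hMRt : ∀ x : RD (P.refine n hn) a b, MR hab x → MR hab (tH hab x) := by
    intro x hx
    refine ⟨tH_cap_d hab hx.1, hx.2.2, ?_⟩
    rw [tH_tH]; exact hx.2.1
  have hoks : ∀ (x : RD (P.refine n hn) a b) s t t', okH b x.1 s t t' →
      okH b (tH hab x).1 s t' t := fun x s t t' h => okH_symm hab h
  -- `E x = τ (ν x)`
  have hEt : ∀ x : RD (P.refine n hn) a b, EH hab x = tH hab (nu (EH hab) (tH hab) x) := by
    intro x
    unfold nu
    rw [tH_tH]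
  have key : ∀ y : RD (P.refine n hn) a b,
      nu (EH hab) (tH hab) (nu (EH hab) (tH hab) (nu (EH hab) (tH hab) y)) = y →
      Big (EH hab) (tH hab) y → Big (EH hab) (tH hab) (nu (EH hab) (tH hab) y) := by
    intro y hy hb
    refine ⟨fun h => ?_, fun h => ?_⟩
    · rw [h, h] at hy
      exact hb.1 hy
    · rw [hy] at h
      exact hb.1 h.symm
  -- the second unit
  have key2 : ∀ y : RD (P.refine n hn) a b, Big (EH hab) (tH hab) (nu (EH hab) (tH hab) y) →
      (nu (EH hab) (tH hab) y).1.1.1.e.1 = a → ∀ σ : Bool,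
      (∀ t, okH b (nu (EH hab) (tH hab) y).1 σ t t) →
      ¬ Big (EH hab) (tH hab) (EH hab (EH hab y)) ∧
        ¬ Big (EH hab) (tH hab) (tH hab (EH hab (EH hab y))) ∧
        ∀ t, okH b (EH hab (EH hab y)).1 σ t t := by
    intro y hb hw σ ho
    obtain ⟨-, m2, m3, -, m5, -, -, m8⟩ := second_unit hn3 hM hab hw hb
    have e1 : EH hab (EH hab y) = tH hab ((EH hab).symm (nu (EH hab) (tH hab) y)) := by
      rw [hEt (EH hab y), hEt y, m5]
    rw [e1]
    refine ⟨m3, by rw [tH_tH]; exact m2, fun t => ?_⟩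
    exact hoks _ _ _ _ ((m8 _ _ _).2 (ho t))
  refine ⟨tH_tH hab, tH_ne hab, hoks, n3H hab hB', g3H (by omega) hM hab, fun x hx => hx.2.1,
    hMRt, ?_, fun q h1 h2 => way_of_not_Ky hab h1 h2, fun q hq => hq.1,
    fun q hq => (hq.facts hM hab).2.2.2.2.2.1, ?_, fun q hq => (hq.facts hM hab).2.2.2.1,
    fun q hq => (hq.facts hM hab).2.2.2.2.1, ?_, ?_, ?_, ?_, ?_⟩
  · intro x hx s t
    rw [okH_real hx.1]
  · intro q hq s t
    rw [okH_real (hq.facts hM hab).1]
  · intro q hq
    obtain ⟨-, h2, -, h4, -, -, -, h8⟩ := hq.facts hM hab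
    exact key2 q (key q h8 hq.1) h2 true h4
  · intro q hq
    obtain ⟨-, -, h3, -, h5, -, -, h8⟩ := hq.facts hM hab
    have hb1 := key q h8 hq.1
    exact key2 _ (key _ (by rw [h8]) hb1) h3 false h5
  · intro q hq
    obtain ⟨h1, -, -, -, -, -, -, h8⟩ := hq.facts hM hab
    have e1 : EH hab (EH hab (nu (EH hab) (tH hab) (nu (EH hab) (tH hab) q))) =
        tH hab (nu (EH hab) (tH hab) (tH hab q)) := by
      rw [hEt (EH hab _), hEt (nu (EH hab) (tH hab) (nu (EH hab) (tH hab) q)), h8]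
    rw [e1]
    exact hMRt _ (next_MR hn3 hM hab q h1 hq.1).1
  · intro ψ hE hψ x
    exact connH hn3 hM hab hB' hE hψ x
  · intro x hx
    obtain ⟨y, hy1, hy2⟩ := hpole x hx
    constructor
    · obtain ⟨z, hz1, hz2⟩ := real_of_pole hM hab hB' y hy2
      exact ⟨z, hy1.trans hz1, fun s t => by rw [okH_real hz2]⟩
    · refine ⟨y, hy1, false, fun s => ?_⟩
      have h1 := y.fact f3_all hM hab
      unfold f3 at h1
      rw [(nu_eq_iff hab y).1 hy2] at h1
      simp only [beq_self_eq_true, Bool.not_true, Bool.false_or, Bool.and_eq_true] at h1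
      rw [okH_iff]
      cases s
      · exact h1.1.2
      · exact h1.1.1.2

end Pool.Agent.MP42.EO
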