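import Pool.Agent.MP42.EO.TRes

/-!
# Regions with one face

`G` is a region whose darts are on one face (one cycle of `E`).  Both sides of one ribbon `{q, τ q}`
of the region are on this face; this ribbon gets `s = 1` or `s = -1` strand, all others get none.

* `leaf_conn`: the stacks are constant on the region;
* `leaf_real`, `leaf_gate`: types of the stacks, constant for a real ribbon, alternating for a gate
  ribbon;
* `leaf_sum`, `leaf_PB`: sum over the face and interval sums;
* `leaf`: everything together.
-/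

set_option autoImplicit false

namespace Pool.Agent.MP42.EO

open Pool.Agent.MP42 Pool.Agent.MP42.NE

section Leaf

variable {P : Type*} {E : Equiv.Perm P} {τ : P → P} {G : P → Prop} {r q : P} {s : ℤ}

open Classical in
/-- `s` strands on the ribbon `{q, τ q}`, none elsewhere -/
noncomputable def leafV (τ : P → P) (q : P) (s : ℤ) (x : P) : ℤ := if x = q ∨ x = τ q then s else 0

lemma leafV_q : leafV τ q s q = s := if_pos (Or.inl rfl)
lemma leafV_t : leafV τ q s (τ q) = s := if_pos (Or.inr rfl)
lemma leafV_o {x : P} (h : x ≠ q) (h' : x ≠ τ q) : leafV τ q s x = 0 :=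
  if_neg (fun hx => hx.elim h h')
lemma leafV_ne {x : P} (h : leafV τ q s x ≠ 0) : x = q ∨ x = τ q := by
  by_contra hx
  rw [not_or] at hx
  exact h (leafV_o hx.1 hx.2)

lemma leafV_tau (tt : ∀ x, τ (τ x) = x) (x : P) : leafV τ q s (τ x) = leafV τ q s x := by
  by_cases h : x = q
  · rw [h, leafV_q, leafV_t]
  · by_cases h' : x = τ q
    · rw [h', tt, leafV_q, leafV_t]
    · rw [leafV_o h h', leafV_o (fun h2 => h' (by rw [← h2, tt])) (fun h2 => h (by
        have := congrArg τ h2; rwa [tt, tt] at this))]

lemma leafV_off (hτ : ∀ x, G x → G (τ x)) (hq : G q) {x : P} (hx : ¬ G x) :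
    leafV τ q s x = 0 :=
  leafV_o (fun h => hx (h ▸ hq)) (fun h => hx (h ▸ hτ q hq))

/-- **connectedness**: no condition on the deep strands is needed; `v` and `T` are arbitrary off
the region -/
theorem leaf_conn [Finite P] (hG1 : ∀ x, G x → E.SameCycle r x) (hE : ∀ x, G x → G (E x))
    (hτ : ∀ x, G x → G (τ x)) (hq : G q) (hs : s = 1 ∨ s = -1) {v : P → ℤ}
    (hv : ∀ x, G x → v x = leafV τ q s x) {T : P → ℕ → Prop} (hT : TS E τ v T) :
    ∃ c : Prop, ∀ x, G x → ∀ j, (T x j ↔ c) := by
  have hE' : ∀ x, G (E x) ↔ G x := closed_iff hE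
  have hqr : E.SameCycle q r := (hG1 q hq).symm
  -- every stack of the region is one of the two stacks after the ribbon
  have key : ∀ x, G x → (∀ j, T x j ↔ T q j) ∨ (∀ j, T x j ↔ T (τ q) j) := by
    intro x hx
    have hc : E.SameCycle (E.symm q) x := by
      have h1 : E.SameCycle (E.symm q) q := ⟨1, by simp⟩
      exact h1.trans (hqr.trans (hG1 x hx))
    have hgen : ∀ y, E.SameCycle (E.symm q) y → G y := by
      intro y hy
      obtain ⟨n, hn⟩ := hy.exists_nat_pow_eq
      have h0 : G (E.symm q) := by rw [← hE', Equiv.apply_symm_apply]; exact hq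
      have hall : ∀ n : ℕ, G ((E ^ n) (E.symm q)) := by
        intro n
        induction n with
        | zero => exact h0
        | succ n ih => rw [pow_succ', Equiv.Perm.mul_apply, hE']; exact ih
      rw [← hn]
      exact hall n
    refine cyc_ind (E := E) (z := E.symm q)
      (R := fun x => (∀ j, T x j ↔ T q j) ∨ (∀ j, T x j ↔ T (τ q) j)) ?_ ?_ hc
    · rw [Equiv.apply_symm_apply]
      exact Or.inl fun j => Iff.rfl
    · intro y hy _ ih
      by_cases h1 : E y = q
      · rw [h1]; exact Or.inl fun j => Iff.rfl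
      · by_cases h2 : E y = τ q
        · rw [h2]; exact Or.inr fun j => Iff.rfl
        · have h3 : v (E y) = 0 := by
            rw [hv _ ((hE' y).2 (hgen y hy)), leafV_o h1 h2]
          have h4 : ∀ j, T (E y) j ↔ T y j := fun j => hT.st y j j (by rw [h3]; ring)
          rcases ih with ih | ih
          · exact Or.inl fun j => (h4 j).trans (ih j)
          · exact Or.inr fun j => (h4 j).trans (ih j)
  have hsq : G (E.symm q) := by rw [← hE', Equiv.apply_symm_apply]; exact hq
  have hst : G (E.symm (τ q)) := by rw [← hE', Equiv.apply_symm_apply]; exact hτ q hq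
  have hvq : v q = s := by rw [hv q hq, leafV_q]
  have hvt : v (τ q) = s := by rw [hv _ (hτ q hq), leafV_t]
  have hconst : ∀ j, (T q j ↔ T q 0) ∧ (T (τ q) j ↔ T q 0) := by
    rcases hs with hs | hs
    · -- popping
      have a1 : ∀ j, T q j ↔ T (E.symm q) (j + 1) := fun j => by
        have := hT.st (E.symm q) j (j + 1) (by rw [Equiv.apply_symm_apply, hvq, hs]; push_cast; ring)
        rwa [Equiv.apply_symm_apply] at this
      have a2 : ∀ j, T (τ q) j ↔ T (E.symm (τ q)) (j + 1) := fun j => by
        have := hT.st (E.symm (τ q)) j (j + 1)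
          (by rw [Equiv.apply_symm_apply, hvt, hs]; push_cast; ring)
        rwa [Equiv.apply_symm_apply] at this
      have a3 : T (E.symm q) 0 ↔ T (E.symm (τ q)) 0 := hT.pop q 0 0 (by rw [hvq, hs]; norm_num)
      rcases key _ hsq with k1 | k1 <;> rcases key _ hst with k2 | k2
      · have c1 : ∀ j, T q j ↔ T q 0 := by
          intro j
          induction j with
          | zero => exact Iff.rfl
          | succ j ih => exact (k1 (j + 1)).symm.trans ((a1 j).symm.trans ih)
        exact fun j => ⟨c1 j, (a2 j).trans ((k2 (j + 1)).trans (c1 _))⟩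
      · have c1 : ∀ j, T q j ↔ T q 0 := by
          intro j
          induction j with
          | zero => exact Iff.rfl
          | succ j ih => exact (k1 (j + 1)).symm.trans ((a1 j).symm.trans ih)
        have c2 : ∀ j, T (τ q) j ↔ T (τ q) 0 := by
          intro j
          induction j with
          | zero => exact Iff.rfl
          | succ j ih => exact (k2 (j + 1)).symm.trans ((a2 j).symm.trans ih)
        have c3 : T (τ q) 0 ↔ T q 0 := (k2 0).symm.trans (a3.symm.trans (k1 0))
        exact fun j => ⟨c1 j, (c2 j).trans c3⟩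
      · have c : ∀ j, (T q j ↔ T q 0) ∧ (T (τ q) j ↔ T q 0) := by
          have c3 : T (τ q) 0 ↔ T q 0 := (k1 0).symm.trans (a3.trans (k2 0))
          intro j
          induction j with
          | zero => exact ⟨Iff.rfl, c3⟩
          | succ j ih =>
            exact ⟨(k2 (j + 1)).symm.trans ((a2 j).symm.trans ih.2),
              (k1 (j + 1)).symm.trans ((a1 j).symm.trans ih.1)⟩
        exact c
      · have c2 : ∀ j, T (τ q) j ↔ T (τ q) 0 := by
          intro j
          induction j with
          | zero => exact Iff.rfl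
          | succ j ih => exact (k2 (j + 1)).symm.trans ((a2 j).symm.trans ih)
        have c1 : ∀ j, T q j ↔ T (τ q) 0 := fun j => (a1 j).trans ((k1 (j + 1)).trans (c2 _))
        exact fun j => ⟨(c1 j).trans (c1 0).symm, (c2 j).trans (c1 0).symm⟩
    · -- pushing
      have a1 : ∀ j, T q (j + 1) ↔ T (E.symm q) j := fun j => by
        have := hT.st (E.symm q) (j + 1) j (by rw [Equiv.apply_symm_apply, hvq, hs]; push_cast; ring)
        rwa [Equiv.apply_symm_apply] at this
      have a2 : ∀ j, T (τ q) (j + 1) ↔ T (E.symm (τ q)) j := fun j => by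
        have := hT.st (E.symm (τ q)) (j + 1) j
          (by rw [Equiv.apply_symm_apply, hvt, hs]; push_cast; ring)
        rwa [Equiv.apply_symm_apply] at this
      have a3 : T q 0 ↔ T (τ q) 0 := hT.push q 0 0 (by rw [hvq, hs]; norm_num)
      rcases key _ hsq with k1 | k1 <;> rcases key _ hst with k2 | k2
      · have c1 : ∀ j, T q j ↔ T q 0 := by
          intro j
          induction j with
          | zero => exact Iff.rfl
          | succ j ih => exact (a1 j).trans ((k1 j).trans ih)
        refine fun j => ⟨c1 j, ?_⟩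
        cases j with
        | zero => exact a3.symm
        | succ j => exact (a2 j).trans ((k2 j).trans (c1 j))
      · have c1 : ∀ j, T q j ↔ T q 0 := by
          intro j
          induction j with
          | zero => exact Iff.rfl
          | succ j ih => exact (a1 j).trans ((k1 j).trans ih)
        have c2 : ∀ j, T (τ q) j ↔ T (τ q) 0 := by
          intro j
          induction j with
          | zero => exact Iff.rfl
          | succ j ih => exact (a2 j).trans ((k2 j).trans ih)
        exact fun j => ⟨c1 j, (c2 j).trans a3.symm⟩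
      · intro j
        induction j with
        | zero => exact ⟨Iff.rfl, a3.symm⟩
        | succ j ih => exact ⟨(a1 j).trans ((k1 j).trans ih.2), (a2 j).trans ((k2 j).trans ih.1)⟩
      · have c2 : ∀ j, T (τ q) j ↔ T (τ q) 0 := by
          intro j
          induction j with
          | zero => exact Iff.rfl
          | succ j ih => exact (a2 j).trans ((k2 j).trans ih)
        refine fun j => ⟨?_, (c2 j).trans a3.symm⟩
        cases j with
        | zero => exact Iff.rfl
        | succ j => exact (a1 j).trans ((k1 j).trans ((c2 j).trans a3.symm))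
  refine ⟨T q 0, fun x hx j => ?_⟩
  rcases key x hx with h | h
  · exact (h j).trans (hconst j).1
  · exact (h j).trans (hconst j).2

/-- the positions reached from `q` without passing `τ q` -/
def leafA (E : Equiv.Perm P) (τ : P → P) (q : P) (x : P) : Prop :=
  ∃ i : ℕ, x = (E ^ i) q ∧ ∀ k ≤ i, (E ^ k) q ≠ τ q

lemma leafA_q (hne : q ≠ τ q) : leafA E τ q q :=
  ⟨0, rfl, fun k hk => by
    have : k = 0 := by omega
    subst this
    exact hne⟩

lemma leafA_t : ¬ leafA E τ q (τ q) := by
  rintro ⟨i, h, hi⟩
  exact hi i le_rfl h.symm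

lemma leafA_before_t [Finite P] (hne : q ≠ τ q) (hc : E.SameCycle q (τ q)) {y : P}
    (hy : E y = τ q) : leafA E τ q y := by
  classical
  obtain ⟨m, hm⟩ : ∃ m : ℕ, (E ^ m) q = τ q := hc.exists_nat_pow_eq
  have hex : ∃ m : ℕ, (E ^ m) q = τ q := ⟨m, hm⟩
  have h1 := Nat.find_spec hex
  have h2 : ∀ k < Nat.find hex, (E ^ k) q ≠ τ q := fun k hk => Nat.find_min hex hk
  have h0 : Nat.find hex ≠ 0 := by
    intro h
    rw [h] at h1
    exact hne h1
  obtain ⟨n, hn⟩ : ∃ n, Nat.find hex = n + 1 := ⟨Nat.find hex - 1, by omega⟩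
  rw [hn] at h1 h2
  refine ⟨n, ?_, fun k hk => h2 k (by omega)⟩
  apply E.injective
  rw [hy, ← h1, pow_succ', Equiv.Perm.mul_apply]

lemma leafA_before_q [Finite P] (hc : E.SameCycle q (τ q)) {y : P} (hy : E y = q) :
    ¬ leafA E τ q y := by
  rintro ⟨i, h, hi⟩
  have h1 : (E ^ (i + 1)) q = q := by
    rw [pow_succ', Equiv.Perm.mul_apply, ← h, hy]
  obtain ⟨m, hm⟩ : ∃ m : ℕ, (E ^ m) q = τ q := hc.exists_nat_pow_eq
  have h2 : ∀ m : ℕ, ∃ k ≤ i, (E ^ m) q = (E ^ k) q := by
    intro m
    induction m with
    | zero => exact ⟨0, by omega, rfl⟩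
    | succ m ih =>
      obtain ⟨k, hk, he⟩ := ih
      by_cases hki : k = i
      · refine ⟨0, by omega, ?_⟩
        rw [pow_succ', Equiv.Perm.mul_apply, he, hki, ← Equiv.Perm.mul_apply, ← pow_succ', h1]
        rfl
      · refine ⟨k + 1, by omega, ?_⟩
        rw [pow_succ', Equiv.Perm.mul_apply, he, ← Equiv.Perm.mul_apply, ← pow_succ']
  obtain ⟨k, hk, he⟩ := h2 m
  exact hi k hk (by rw [← he, hm])

lemma leafA_step {y : P} (h1 : E y ≠ q) (h2 : E y ≠ τ q) :
    leafA E τ q (E y) ↔ leafA E τ q y := by
  constructor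
  · rintro ⟨i, h, hi⟩
    cases i with
    | zero => exact absurd h h1
    | succ i =>
      refine ⟨i, ?_, fun k hk => hi k (by omega)⟩
      apply E.injective
      rw [h, pow_succ', Equiv.Perm.mul_apply]
  · rintro ⟨i, h, hi⟩
    have h3 : E y = (E ^ (i + 1)) q := by rw [pow_succ', Equiv.Perm.mul_apply, ← h]
    refine ⟨i + 1, h3, fun k hk => ?_⟩
    by_cases hk' : k ≤ i
    · exact hi k hk'
    · have : k = i + 1 := by omega
      rw [this, ← h3]
      exact h2

open Classical in
/-- the types on the region -/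
noncomputable def leafK (E : Equiv.Perm P) (τ : P → P) (G : P → Prop) (q : P) (b : Bool) (x : P)
    (j : ℕ) : Bool :=
  if G x then (if leafA E τ q x then (if j % 2 = 0 then b else !b) else (if j % 2 = 0 then !b else b))
  else false

/-- **types, gate ribbon** -/
theorem leaf_gate [Finite P] {ok : P → Bool → Bool → Bool → Prop} (tt : ∀ x, τ (τ x) = x)
    (oks : ∀ x s a b, ok x s a b → ok (τ x) s b a)
    (hG1 : ∀ x, G x → E.SameCycle r x) (hE : ∀ x, G x → G (E x))
    (hτ : ∀ x, G x → G (τ x)) (hq : G q) (hne : q ≠ τ q) (hs : s = 1 ∨ s = -1)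
    {a : Bool} (ha : ∀ s', ok q s' a (!a)) :
    ∃ κ : P → ℕ → Bool, TTS E τ (leafV τ q s) ok κ ∧ (∀ x j, κ x (j + 2) = κ x j) ∧
      (∀ x, ¬ G x → ∀ j, κ x j = false) ∧
      ∀ x, G x → ∀ t0 t1 : Bool, t0 ≠ t1 → ∃ eps < 2, ∀ j,
        κ x j = if (j + eps) % 2 = 0 then t0 else t1 := by
  classical
  have hE' : ∀ x, G (E x) ↔ G x := closed_iff hE
  have hc : E.SameCycle q (τ q) := (hG1 q hq).symm.trans (hG1 _ (hτ q hq))
  obtain ⟨b, hb⟩ : ∃ b : Bool, b = if s = 1 then !a else a := ⟨_, rfl⟩
  have hsq : G (E.symm q) := by rw [← hE', Equiv.apply_symm_apply]; exact hq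
  have hst : G (E.symm (τ q)) := by rw [← hE', Equiv.apply_symm_apply]; exact hτ q hq
  have A1 : leafA E τ q q := leafA_q hne
  have A2 : ¬ leafA E τ q (τ q) := leafA_t
  have A3 : ¬ leafA E τ q (E.symm q) := leafA_before_q hc (Equiv.apply_symm_apply _ _)
  have A4 : leafA E τ q (E.symm (τ q)) := leafA_before_t hne hc (Equiv.apply_symm_apply _ _)
  refine ⟨leafK E τ G q b, ⟨?_, ?_, ?_⟩, ?_, ?_, ?_⟩
  · intro p j k hk
    by_cases hp : G p
    · have hp' : G (E p) := hE p hp
      unfold leafK
      rw [if_pos hp, if_pos hp']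
      by_cases h1 : E p = q
      · have h2 : ¬ leafA E τ q p := leafA_before_q hc h1
        rw [h1, leafV_q] at hk
        rw [h1, if_pos A1, if_neg h2]
        rcases hs with hs | hs
        · have : k = j + 1 := by rw [hs] at hk; omega
          subst this
          rcases Nat.mod_two_eq_zero_or_one j with h | h
          · rw [if_pos h, if_neg (by omega)]
          · rw [if_neg (by omega), if_pos (by omega)]
        · have : j = k + 1 := by rw [hs] at hk; omega
          subst this
          rcases Nat.mod_two_eq_zero_or_one k with h | h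
          · rw [if_pos h, if_neg (by omega)]
          · rw [if_pos (by omega), if_neg (by omega)]
      · by_cases h2 : E p = τ q
        · have h3 : leafA E τ q p := leafA_before_t hne hc h2
          rw [h2, leafV_t] at hk
          rw [h2, if_neg A2, if_pos h3]
          rcases hs with hs | hs
          · have : k = j + 1 := by rw [hs] at hk; omega
            subst this
            rcases Nat.mod_two_eq_zero_or_one j with h | h
            · rw [if_pos h, if_neg (by omega)]
            · rw [if_neg (by omega), if_pos (by omega)]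
          · have : j = k + 1 := by rw [hs] at hk; omega
            subst this
            rcases Nat.mod_two_eq_zero_or_one k with h | h
            · rw [if_pos h, if_neg (by omega)]
            · rw [if_pos (by omega), if_neg (by omega)]
        · rw [leafV_o h1 h2] at hk
          have : k = j := by omega
          subst this
          have h3 := leafA_step h1 h2
          by_cases h4 : leafA E τ q p
          · rw [if_pos h4, if_pos (h3.2 h4)]
          · rw [if_neg h4, if_neg (fun h5 => h4 (h3.1 h5))]
    · have hp' : ¬ G (E p) := fun h => hp ((hE' p).1 h)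
      unfold leafK
      rw [if_neg hp, if_neg hp']
  · intro p i j hij
    have hv : leafV τ q s p ≠ 0 := by omega
    have h1 : leafV τ q s p = s := by
      rcases leafV_ne hv with h | h
      · rw [h, leafV_q]
      · rw [h, leafV_t]
    rw [h1] at hij
    have hs1 : s = 1 := by rcases hs with hs | hs <;> omega
    have hi : i = 0 := by omega
    have hj : j = 0 := by omega
    subst hi hj
    have hb' : b = !a := by rw [hb, if_pos hs1]
    have e1 : leafK E τ G q b (E.symm q) 0 = a := by
      unfold leafK
      rw [if_pos hsq, if_neg A3, if_pos (by norm_num), hb', Bool.not_not]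
    have e2 : leafK E τ G q b (E.symm (τ q)) 0 = !a := by
      unfold leafK
      rw [if_pos hst, if_pos A4, if_pos (by norm_num), hb']
    rcases leafV_ne hv with h | h
    · rw [h, e1, e2]
      exact ha true
    · rw [h, tt, e1, e2]
      exact oks _ _ _ _ (ha true)
  · intro p i j hij
    have hv : leafV τ q s p ≠ 0 := by omega
    have h1 : leafV τ q s p = s := by
      rcases leafV_ne hv with h | h
      · rw [h, leafV_q]
      · rw [h, leafV_t]
    rw [h1] at hij
    have hs1 : s = -1 := by rcases hs with hs | hs <;> omega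
    have hi : i = 0 := by omega
    have hj : j = 0 := by omega
    subst hi hj
    have hb' : b = a := by rw [hb, if_neg (by omega)]
    have e1 : leafK E τ G q b q 0 = a := by
      unfold leafK
      rw [if_pos hq, if_pos A1, if_pos (by norm_num), hb']
    have e2 : leafK E τ G q b (τ q) 0 = !a := by
      unfold leafK
      rw [if_pos (hτ q hq), if_neg A2, if_pos (by norm_num), hb']
    rcases leafV_ne hv with h | h
    · rw [h, e1, e2]
      exact ha false
    · rw [h, tt, e1, e2]
      exact oks _ _ _ _ (ha false)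
  · intro x j
    unfold leafK
    rw [Nat.add_mod_right]
  · intro x hx j
    unfold leafK
    rw [if_neg hx]
  · intro x hx t0 t1 ht
    have ht1 : t1 = !t0 := by
      cases t0 <;> cases t1 <;> simp_all
    subst ht1
    -- value at even levels
    obtain ⟨d, hd⟩ : ∃ d : Bool, ∀ j, leafK E τ G q b x j = if j % 2 = 0 then d else !d := by
      by_cases h : leafA E τ q x
      · refine ⟨b, fun j => ?_⟩
        unfold leafK
        rw [if_pos hx, if_pos h]
      · refine ⟨!b, fun j => ?_⟩
        unfold leafK
        rw [if_pos hx, if_neg h, Bool.not_not]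
    by_cases h0 : d = t0
    · refine ⟨0, by omega, fun j => ?_⟩
      rw [hd, h0, Nat.add_zero]
    · have h0' : d = !t0 := by
        revert h0
        cases d <;> cases t0 <;> simp
      refine ⟨1, by omega, fun j => ?_⟩
      rw [hd, h0', Bool.not_not]
      rcases Nat.mod_two_eq_zero_or_one j with h | h
      · rw [if_pos h, if_neg (by omega)]
      · rw [if_neg (by omega), if_pos (by omega)]

open Classical in
/-- **types, real ribbon** -/
theorem leaf_real [Finite P] {ok : P → Bool → Bool → Bool → Prop} (tt : ∀ x, τ (τ x) = x)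
    (oks : ∀ x s a b, ok x s a b → ok (τ x) s b a) (hE : ∀ x, G x → G (E x))
    (hτ : ∀ x, G x → G (τ x)) (hq : G q) {a : Bool} (ha : ∀ s', ok q s' a a) :
    TTS E τ (leafV τ q s) ok (fun x _ => if G x then a else false) where
  st := by
    have hE' : ∀ x, G (E x) ↔ G x := closed_iff hE
    intro p j k _
    by_cases hp : G p
    · rw [if_pos hp, if_pos (hE p hp)]
    · rw [if_neg hp, if_neg (fun h => hp ((hE' p).1 h))]
  pop := by
    have hE' : ∀ x, G (E x) ↔ G x := closed_iff hE
    have hsq : G (E.symm q) := by rw [← hE', Equiv.apply_symm_apply]; exact hq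
    have hst : G (E.symm (τ q)) := by rw [← hE', Equiv.apply_symm_apply]; exact hτ q hq
    intro p i j hij
    have hv : leafV τ q s p ≠ 0 := by omega
    rcases leafV_ne hv with h | h
    · rw [h, if_pos hsq, if_pos hst]
      exact ha true
    · rw [h, tt, if_pos hsq, if_pos hst]
      exact oks _ _ _ _ (ha true)
  push := by
    intro p i j hij
    have hv : leafV τ q s p ≠ 0 := by omega
    rcases leafV_ne hv with h | h
    · rw [h, if_pos hq, if_pos (hτ q hq)]
      exact ha false
    · rw [h, tt, if_pos hq, if_pos (hτ q hq)]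
      exact oks _ _ _ _ (ha false)

/-- **sum over the face** -/
theorem leaf_sum [Fintype P] (hG1 : ∀ x, G x → E.SameCycle r x) (hτ : ∀ x, G x → G (τ x))
    (hq : G q) (hne : q ≠ τ q) {d : P} (hd : G d) [DecidablePred fun x => E.SameCycle d x] :
    ∑ x ∈ Finset.univ.filter (fun x => E.SameCycle d x), leafV τ q s x = 2 * s := by
  classical
  have h1 : ∀ x, leafV τ q s x = (if x = q then s else 0) + (if x = τ q then s else 0) := by
    intro x
    by_cases h : x = q
    · rw [h, leafV_q, if_pos rfl, if_neg hne, add_zero]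
    · by_cases h' : x = τ q
      · rw [h', leafV_t, if_neg (fun h2 => hne h2.symm), if_pos rfl, zero_add]
      · rw [leafV_o h h', if_neg h, if_neg h', add_zero]
  rw [Finset.sum_congr rfl fun x _ => h1 x, Finset.sum_add_distrib, Finset.sum_ite_eq',
    Finset.sum_ite_eq', if_pos, if_pos]
  · ring
  · simp only [Finset.mem_filter, Finset.mem_univ, true_and]
    exact (hG1 d hd).symm.trans (hG1 _ (hτ q hq))
  · simp only [Finset.mem_filter, Finset.mem_univ, true_and]
    exact (hG1 d hd).symm.trans (hG1 q hq)

/-- **interval sums** -/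
theorem leaf_PB (hs : s = 1 ∨ s = -1) : PB E (leafV τ q s) 2 := by
  classical
  intro x n hn
  have hinj : ∀ i < n, ∀ j < n, (E ^ i) x = (E ^ j) x → i = j := by
    have hlt : ∀ i j, i < j → j < n → (E ^ i) x ≠ (E ^ j) x := by
      intro i j hij hj he
      apply hn (j - i) (by omega) (by omega)
      apply (E ^ i).injective
      rw [← Equiv.Perm.mul_apply, ← pow_add, show i + (j - i) = j by omega, he]
    intro i hi j hj he
    by_contra hne
    rcases Nat.lt_or_gt_of_ne hne with h | h
    · exact hlt i j h hj he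
    · exact hlt j i h hi he.symm
  have hcnt : ∀ y : P, ∑ i ∈ Finset.range n, (if (E ^ i) x = y then (1 : ℤ) else 0) ≤ 1 := by
    intro y
    rw [← Finset.sum_filter, Finset.sum_const, nsmul_eq_mul, mul_one]
    have : ((Finset.range n).filter (fun i => (E ^ i) x = y)).card ≤ 1 := by
      rw [Finset.card_le_one]
      intro i hi j hj
      rw [Finset.mem_filter, Finset.mem_range] at hi hj
      exact hinj i hi.1 j hj.1 (hi.2.trans hj.2.symm)
    exact_mod_cast this
  refine (Finset.abs_sum_le_sum_abs _ _).trans ?_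
  have h2 : ∀ i ∈ Finset.range n, |leafV τ q s ((E ^ i) x)| ≤
      (if (E ^ i) x = q then (1 : ℤ) else 0) + (if (E ^ i) x = τ q then (1 : ℤ) else 0) := by
    intro i _
    have habs : |s| = 1 := by rcases hs with hs | hs <;> rw [hs] <;> rfl
    by_cases h : (E ^ i) x = q
    · rw [h, leafV_q, habs, if_pos rfl]
      split_ifs <;> norm_num
    · by_cases h' : (E ^ i) x = τ q
      · rw [h', leafV_t, habs, if_pos rfl]
        split_ifs <;> norm_num
      · rw [leafV_o h h', if_neg h, if_neg h']
        norm_num
  refine (Finset.sum_le_sum h2).trans ?_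
  rw [Finset.sum_add_distrib]
  have h3 := hcnt q
  have h4 := hcnt (τ q)
  have h5 : ((2 : ℕ) : ℤ) = 2 := rfl
  rw [h5]
  linarith

end Leaf

/-- **a region with one face**: for both signs `s` and all types `t0`, `t1` of the deep strands
there are strands on one ribbon of the region (a real one if `t0 = t1`, a gate otherwise) with sum
`2 s` over the face, with connected stacks, and with types. -/
theorem leaf {P : Type*} [Fintype P] {E : Equiv.Perm P} {τ : P → P} {G : P → Prop} {r : P}
    {ok : P → Bool → Bool → Bool → Prop} (tt : ∀ x, τ (τ x) = x)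
    (oks : ∀ x s a b, ok x s a b → ok (τ x) s b a)
    (hG1 : ∀ x, G x → E.SameCycle r x) (hE : ∀ x, G x → G (E x)) (hτ : ∀ x, G x → G (τ x))
    (hreal : ∃ q, G q ∧ q ≠ τ q ∧ ∀ s a, ok q s a a)
    (hgate : ∃ q, G q ∧ q ≠ τ q ∧ ∃ a, ∀ s, ok q s a (!a))
    {s : ℤ} (hs : s = 1 ∨ s = -1) (t0 t1 : Bool) :
    ∃ (v : P → ℤ) (κ : P → ℕ → Bool), (∀ x, v (τ x) = v x) ∧ (∀ x, ¬ G x → v x = 0) ∧
      (∀ x, v x ≠ 0 → x ≠ τ x) ∧ (∀ x, |v x| ≤ 1) ∧ PB E v 2 ∧
      (∀ (d : P) [DecidablePred fun x => E.SameCycle d x], G d →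
        ∑ x ∈ Finset.univ.filter (fun x => E.SameCycle d x), v x = 2 * s) ∧
      TTS E τ v ok κ ∧ (∀ x j, κ x (j + 2) = κ x j) ∧
      (∀ x, ¬ G x → ∀ j, κ x j = false) ∧
      (∀ x, G x → ∃ eps < 2, ∀ j, κ x j = if (j + eps) % 2 = 0 then t0 else t1) ∧
      ∀ (v' : P → ℤ) (T : P → ℕ → Prop), (∀ x, G x → v' x = v x) → TS E τ v' T →
        ∃ c : Prop, ∀ x, G x → ∀ j, (T x j ↔ c) := by
  classical
  have hcore : ∀ q, G q → q ≠ τ q → (∀ x, leafV τ q s (τ x) = leafV τ q s x) ∧
      (∀ x, ¬ G x → leafV τ q s x = 0) ∧ (∀ x, leafV τ q s x ≠ 0 → x ≠ τ x) ∧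
      (∀ x, |leafV τ q s x| ≤ 1) := by
    intro q hq hne
    refine ⟨leafV_tau tt, fun x hx => leafV_off hτ hq hx, fun x hx => ?_, fun x => ?_⟩
    · rcases leafV_ne hx with h | h
      · rw [h]; exact hne
      · rw [h, tt]; exact hne.symm
    · unfold leafV
      rcases hs with hs | hs
      · rw [hs]; split_ifs <;> norm_num
      · rw [hs]; split_ifs <;> norm_num
  by_cases ht : t0 = t1
  · obtain ⟨q, hq, hne, ha⟩ := hreal
    obtain ⟨c1, c2, c3, c4⟩ := hcore q hq hne
    refine ⟨leafV τ q s, fun x _ => if G x then t0 else false, c1, c2, c3, c4, leaf_PB hs,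
      fun d _ hd => leaf_sum hG1 hτ hq hne hd,
      leaf_real tt oks hE hτ hq (fun s' => ha s' t0), fun x j => rfl, fun x hx j => if_neg hx,
      fun x hx => ⟨0, by omega, fun j => ?_⟩, fun v' T hv hT => leaf_conn hG1 hE hτ hq hs hv hT⟩
    simp only [if_pos hx]
    rw [← ht, ite_self]
  · obtain ⟨q, hq, hne, a, ha⟩ := hgate
    obtain ⟨c1, c2, c3, c4⟩ := hcore q hq hne
    obtain ⟨κ, k1, k2, k3, k4⟩ := leaf_gate (G := G) (s := s) tt oks hG1 hE hτ hq hne hs ha
    exact ⟨leafV τ q s, κ, c1, c2, c3, c4, leaf_PB hs,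
      fun d _ hd => leaf_sum hG1 hτ hq hne hd, k1, k2, k3, fun x hx => k4 x hx t0 t1 ht,
      fun v' T hv hT => leaf_conn hG1 hE hτ hq hs hv hT⟩

end Pool.Agent.MP42.EO
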