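import Mathlib

/-!
# Bounded sums over intervals inside one period
-/

set_option autoImplicit false

namespace Pool.Agent.MP42.EO

/-- the sums of `v` over the intervals inside one period of `E` are bounded by `K` -/
def PB {D : Type*} (E : Equiv.Perm D) (v : D → ℤ) (K : ℕ) : Prop :=
  ∀ (x : D) (n : ℕ), (∀ i, 0 < i → i < n → (E ^ i) x ≠ x) →
    |∑ i ∈ Finset.range n, v ((E ^ i) x)| ≤ K

end Pool.Agent.MP42.EO
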