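import Pool.Agent.MP42.EO.Net
import Pool.Agent.MP42.EO.PB

/-!
# The sums of a net

`v z = h z - h (E⁻¹ z) + w z`, where `h` is `v` on the darts that are `In` and `0` on the others,
and `w` is `2` or `-2` at one dart of every face and `0` at the others.
-/

set_option autoImplicit false

namespace Pool.Agent.MP42.EO

namespace Net

variable {Q : Type*} (N : Net Q)

open Classical in
/-- the height over a corner -/
noncomputable def hN (y : Q) : ℤ := if N.In y then N.v y else 0

/-- the shift -/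
noncomputable def wN (z : Q) : ℤ := N.v z - N.hN z + N.hN (N.E.symm z)

variable {N}

lemma hN_in {y : Q} (h : N.In y) : N.hN y = N.v y := if_pos h

lemma hN_not {y : Q} (h : ¬ N.In y) : N.hN y = 0 := if_neg h

lemma hN_abs (y : Q) : |N.hN y| ≤ 1 := by
  by_cases h : N.In y
  · rw [hN_in h]
    rcases v_in h with h1 | h1 <;> rw [h1] <;> norm_num
  · rw [hN_not h]; norm_num

lemma wN_E (y : Q) : N.wN (N.E y) = N.v (N.E y) - N.hN (N.E y) + N.hN y := by
  unfold wN
  rw [Equiv.symm_apply_apply]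

lemma wN_in {y : Q} (h : N.In y) : N.wN (N.E y) = N.v (N.ν y) + N.v y := by
  rw [wN_E, hN_in h, hN_not (not_in_E h), E_eq, N.vτ]
  ring

lemma wN_root {y : Q} (h : N.E y = N.r0 ∨ N.E y = N.τ N.r0) : N.wN (N.E y) = N.v N.r0 := by
  rw [wN_E, hN_not (not_in_symm_root h)]
  rcases h with h | h <;> rw [h]
  · rw [hN_not N.r0i]; ring
  · rw [hN_not N.r0j, N.vτ]; ring

lemma wN_cc {c : Q} (h : N.D c) :
    (N.cp c → N.wN (N.E (N.cc c)) = 2) ∧ (¬ N.cp c → N.wN (N.E (N.cc c)) = -2) := by
  have hi := N.DI c h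
  constructor
  · intro hp
    rw [cc_pos hp, wN_in (in_ν (in_ν hi)), ν3 hi, N.v0 c h hp,
      show N.v (N.ν (N.ν c)) = 1 from N.v2 c h]
    norm_num
  · intro hp
    rw [cc_neg hp, wN_in hi, N.v0' c h hp, show N.v (N.ν c) = -1 from N.v1 c h]
    norm_num

lemma wN_zero {y : Q} (h : ¬ (N.E y = N.r0 ∨ N.E y = N.τ N.r0)) (h' : ∀ c, N.D c → y ≠ N.cc c) :
    N.wN (N.E y) = 0 := by
  rcases step_or (N := N) y with h1 | ⟨c, hc, h1⟩ | ⟨h1, h2⟩ | ⟨c, hc, rfl⟩ | ⟨c, hc, rfl⟩
  · exact absurd h1 h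
  · exact absurd h1 (h' c hc)
  · rw [wN_E, hN_not h1, hN_in h2]; ring
  · rw [wN_in (in_ν (N.DI c hc)), show N.v (N.ν (N.ν c)) = 1 from N.v2 c hc,
      show N.v (N.ν c) = -1 from N.v1 c hc]
    norm_num
  · have hi := N.DI c hc
    by_cases hp : N.cp c
    · rw [hh_pos hp, wN_in hi, N.v0 c hc hp, show N.v (N.ν c) = -1 from N.v1 c hc]
      norm_num
    · rw [hh_neg hp, wN_in (in_ν (in_ν hi)), ν3 hi, N.v0' c hc hp,
        show N.v (N.ν (N.ν c)) = 1 from N.v2 c hc]
      norm_num

lemma vr_abs : N.v N.r0 = 2 ∨ N.v N.r0 = -2 := by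
  by_cases hs : N.s
  · exact Or.inl (N.vr hs)
  · exact Or.inr (N.vr' hs)

/-- one shift on every face -/
lemma wN_shift (hTr : N.Tree) (x : Q) : ∃ z, N.E.SameCycle z x ∧
    (N.wN (N.E z) = 2 ∨ N.wN (N.E z) = -2) ∧
    (N.E.SameCycle x N.r0 → N.E z = N.r0) ∧
    ∀ y, N.E.SameCycle z y → y ≠ z → N.wN (N.E y) = 0 := by
  by_cases hx : N.E.SameCycle x N.r0
  · have hEz : N.E (N.E.symm N.r0) = N.r0 := Equiv.apply_symm_apply _ _
    have hzr : N.E.SameCycle (N.E.symm N.r0) N.r0 := by
      have := Equiv.Perm.SameCycle.refl N.E (N.E.symm N.r0)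
      have := (Equiv.Perm.sameCycle_apply_right (f := N.E)).2 this
      rwa [hEz] at this
    refine ⟨N.E.symm N.r0, hzr.trans hx.symm, ?_, fun _ => hEz, ?_⟩
    · rw [wN_root (Or.inl hEz)]
      exact vr_abs
    · intro y hy hyz
      apply wN_zero
      · rintro (h | h)
        · exact hyz (by rw [← h, Equiv.symm_apply_apply])
        · apply hTr.rr
          have : N.E.SameCycle (N.E.symm N.r0) (N.E y) := by
            rw [Equiv.Perm.sameCycle_apply_right]; exact hy
          rw [h] at this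
          exact hzr.symm.trans this
      · rintro c hc rfl
        exact hTr.chR c hc (hy.symm.trans hzr)
  · obtain ⟨z, h1, h2, h3⟩ := N.exists_shift hTr hx
    refine ⟨z, h1, ?_, fun h => absurd h hx, ?_⟩
    · rcases h2 with ⟨c, hc, rfl⟩ | h2
      · by_cases hp : N.cp c
        · exact Or.inl ((wN_cc hc).1 hp)
        · exact Or.inr ((wN_cc hc).2 hp)
      · rw [wN_root (Or.inr h2)]
        exact vr_abs
    · intro y hy hyz
      obtain ⟨a, b⟩ := h3 y hy hyz
      exact wN_zero a b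

variable (N)

open Classical in
/-- the letter of a face -/
noncomputable def sgN (x : Q) : ℤ := if ∃ y, N.E.SameCycle x y ∧ N.wN y = 2 then 1 else -1

variable {N}

lemma sgN_or (x : Q) : N.sgN x = 1 ∨ N.sgN x = -1 := by
  unfold sgN
  split_ifs
  · exact Or.inl rfl
  · exact Or.inr rfl

lemma sgN_E (x : Q) : N.sgN (N.E x) = N.sgN x := by
  have h : (∃ y, N.E.SameCycle (N.E x) y ∧ N.wN y = 2) ↔ ∃ y, N.E.SameCycle x y ∧ N.wN y = 2 := by
    constructor
    · rintro ⟨y, h1, h2⟩
      exact ⟨y, Equiv.Perm.sameCycle_apply_left.1 h1, h2⟩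
    · rintro ⟨y, h1, h2⟩
      exact ⟨y, Equiv.Perm.sameCycle_apply_left.2 h1, h2⟩
  unfold sgN
  by_cases h1 : ∃ y, N.E.SameCycle x y ∧ N.wN y = 2
  · rw [if_pos h1, if_pos (h.2 h1)]
  · rw [if_neg h1, if_neg (fun h' => h1 (h.1 h'))]

/-- the sum of the shifts of a face -/
lemma sgN_shift {x z : Q} (h1 : N.E.SameCycle z x)
    (h2 : N.wN (N.E z) = 2 ∨ N.wN (N.E z) = -2)
    (h3 : ∀ y, N.E.SameCycle z y → y ≠ z → N.wN (N.E y) = 0) : N.wN (N.E z) = 2 * N.sgN x := by
  have h4 : N.E.SameCycle x (N.E z) := by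
    rw [Equiv.Perm.sameCycle_apply_right]; exact h1.symm
  rcases h2 with h2 | h2
  · have : N.sgN x = 1 := if_pos ⟨N.E z, h4, h2⟩
    rw [h2, this]; norm_num
  · have : N.sgN x = -1 := by
      apply if_neg
      rintro ⟨y, hy, hy2⟩
      obtain ⟨y, rfl⟩ := N.E.surjective y
      rw [Equiv.Perm.sameCycle_apply_right] at hy
      by_cases hyz : y = z
      · rw [hyz, h2] at hy2; norm_num at hy2
      · rw [h3 y (h1.trans hy) hyz] at hy2; norm_num at hy2
    rw [h2, this]; norm_num

lemma v_eq_hw (z : Q) : N.v z = (N.hN z - N.hN (N.E.symm z)) + N.wN z := by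
  unfold wN; ring

/-- the sum over an interval -/
lemma psum_eq (x : Q) (n : ℕ) : ∑ i ∈ Finset.range n, N.v ((N.E ^ i) x) =
    (N.hN (N.E.symm ((N.E ^ n) x)) - N.hN (N.E.symm x)) +
      ∑ i ∈ Finset.range n, N.wN ((N.E ^ i) x) := by
  induction n with
  | zero => simp
  | succ n ih =>
    rw [Finset.sum_range_succ, Finset.sum_range_succ, ih, v_eq_hw ((N.E ^ n) x)]
    have h1 : N.E.symm ((N.E ^ (n + 1)) x) = (N.E ^ n) x := by
      rw [pow_succ', Equiv.Perm.mul_apply, Equiv.symm_apply_apply]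
    rw [h1]; ring

/-- **The sums of a net.** -/
theorem sums [Fintype Q] (N : Net Q) (hTr : N.Tree) : ∃ sg : Q → ℤ,
    (∀ x, sg x = 1 ∨ sg x = -1) ∧ (∀ x, sg (N.E x) = sg x) ∧
    (N.s → sg N.r0 = 1) ∧ (¬ N.s → sg N.r0 = -1) ∧
    (∀ (d : Q) [DecidablePred fun x => N.E.SameCycle d x],
      ∑ x ∈ Finset.univ.filter (fun x => N.E.SameCycle d x), N.v x = 2 * sg d) ∧
    PB N.E N.v 4 := by
  classical
  refine ⟨N.sgN, sgN_or, sgN_E, ?_, ?_, ?_, ?_⟩
  · intro hs
    obtain ⟨z, h1, h2, h3, h4⟩ := wN_shift hTr N.r0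
    have h5 := sgN_shift h1 h2 h4
    rw [wN_root (Or.inl (h3 (Equiv.Perm.SameCycle.refl _ _))), N.vr hs] at h5
    omega
  · intro hs
    obtain ⟨z, h1, h2, h3, h4⟩ := wN_shift hTr N.r0
    have h5 := sgN_shift h1 h2 h4
    rw [wN_root (Or.inl (h3 (Equiv.Perm.SameCycle.refl _ _))), N.vr' hs] at h5
    omega
  · intro d _
    obtain ⟨z, h1, h2, -, h4⟩ := wN_shift hTr d
    have e1 : ∑ x ∈ Finset.univ.filter (fun x => N.E.SameCycle d x), N.v x =
        (∑ x ∈ Finset.univ.filter (fun x => N.E.SameCycle d x), N.hN x -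
          ∑ x ∈ Finset.univ.filter (fun x => N.E.SameCycle d x), N.hN (N.E.symm x)) +
        ∑ x ∈ Finset.univ.filter (fun x => N.E.SameCycle d x), N.wN x := by
      rw [← Finset.sum_sub_distrib, ← Finset.sum_add_distrib]
      exact Finset.sum_congr rfl fun x _ => v_eq_hw x
    have e2 : ∑ x ∈ Finset.univ.filter (fun x => N.E.SameCycle d x), N.hN (N.E.symm x) =
        ∑ x ∈ Finset.univ.filter (fun x => N.E.SameCycle d x), N.hN x := by
      apply Finset.sum_equiv N.E.symm
      · intro x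
        simp only [Finset.mem_filter, Finset.mem_univ, true_and]
        constructor
        · intro h
          have h5 : N.E.SameCycle d (N.E (N.E.symm x)) := by rwa [Equiv.apply_symm_apply]
          rwa [Equiv.Perm.sameCycle_apply_right] at h5
        · intro h
          have h5 : N.E.SameCycle d (N.E (N.E.symm x)) := by
            rwa [Equiv.Perm.sameCycle_apply_right]
          rwa [Equiv.apply_symm_apply] at h5
      · intro x _; rfl
    have e3 : ∑ x ∈ Finset.univ.filter (fun x => N.E.SameCycle d x), N.wN x =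
        N.wN (N.E z) := by
      apply Finset.sum_eq_single_of_mem
      · simp only [Finset.mem_filter, Finset.mem_univ, true_and]
        rw [Equiv.Perm.sameCycle_apply_right]; exact h1.symm
      · intro y hy hyz
        simp only [Finset.mem_filter, Finset.mem_univ, true_and] at hy
        obtain ⟨y, rfl⟩ := N.E.surjective y
        rw [Equiv.Perm.sameCycle_apply_right] at hy
        exact h4 y (h1.trans hy) (fun h => hyz (by rw [h]))
    rw [e1, e2, e3, sub_self, zero_add]
    exact sgN_shift h1 h2 h4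
  · intro x n hn
    obtain ⟨z, h1, h2, -, h4⟩ := wN_shift hTr x
    rw [psum_eq]
    have a1 := hN_abs (N := N) (N.E.symm ((N.E ^ n) x))
    have a2 := hN_abs (N := N) (N.E.symm x)
    -- the elements are different
    have hinj : ∀ i < n, ∀ j < n, (N.E ^ i) x = (N.E ^ j) x → i = j := by
      have key : ∀ i j, i < j → j < n → (N.E ^ i) x ≠ (N.E ^ j) x := by
        intro i j hij hj h
        have h5 : (N.E ^ j) x = (N.E ^ i) ((N.E ^ (j - i)) x) := by
          rw [← Equiv.Perm.mul_apply, ← pow_add, show i + (j - i) = j by omega]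
        rw [h5] at h
        exact hn (j - i) (by omega) (by omega) ((N.E ^ i).injective h).symm
      intro i hi j hj h
      rcases lt_trichotomy i j with h5 | h5 | h5
      · exact absurd h (key i j h5 hj)
      · exact h5
      · exact absurd h.symm (key j i h5 hi)
    have a3 : |∑ i ∈ Finset.range n, N.wN ((N.E ^ i) x)| ≤ 2 := by
      have hz0 : ∀ i, (N.E ^ i) x ≠ N.E z → N.wN ((N.E ^ i) x) = 0 := by
        intro i hi
        obtain ⟨y, hy⟩ := N.E.surjective ((N.E ^ i) x)
        rw [← hy] at hi ⊢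
        apply h4 y
        · have h5 : N.E.SameCycle x (N.E y) := by rw [hy]; exact ⟨(i : ℤ), by simp⟩
          rw [Equiv.Perm.sameCycle_apply_right] at h5
          exact h1.trans h5
        · exact fun h => hi (by rw [h])
      by_cases hex : ∃ i < n, (N.E ^ i) x = N.E z
      · obtain ⟨i, hi, hiz⟩ := hex
        rw [Finset.sum_eq_single_of_mem i (Finset.mem_range.2 hi), hiz]
        · rcases h2 with h2 | h2 <;> rw [h2] <;> norm_num
        · intro j hj hji
          apply hz0
          intro h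
          exact hji (hinj j (Finset.mem_range.1 hj) i hi (h.trans hiz.symm))
      · rw [Finset.sum_eq_zero, abs_zero]
        · norm_num
        · intro i hi
          exact hz0 i fun h => hex ⟨i, Finset.mem_range.1 hi, h⟩
    rw [show ((4 : ℕ) : ℤ) = 4 from rfl]
    rw [abs_le] at a1 a2 a3 ⊢
    constructor <;> omega

end Net

end Pool.Agent.MP42.EO
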