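import Pool.Agent.MP42.EO.TTS

/-!
# The types of the strands of an insertion tree
-/

set_option autoImplicit false

namespace Pool.Agent.MP42.EO

open Pool.Agent.MP42.NE

namespace Net

variable {Q : Type*} {N : Net Q}

/-- the three positions of a dart at a vertex -/
lemma in_cases {y : Q} (h : N.In y) : ∃ c, N.D c ∧ (y = c ∨ y = N.ν c ∨ y = N.ν (N.ν c)) := by
  rcases N.cov y h with h1 | h1 | h1
  · exact ⟨y, h1, Or.inl rfl⟩
  · exact ⟨N.ν y, h1, Or.inr (Or.inr (ν3 h).symm)⟩
  · exact ⟨N.ν (N.ν y), h1, Or.inr (Or.inl (ν3 h).symm)⟩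

lemma not_D_ν {c : Q} (h : N.D c) : ¬ N.D (N.ν c) := by
  intro h1
  have h2 : N.v (N.ν (N.ν c)) = 1 := N.v2 c h
  have h3 : N.v (N.ν (N.ν c)) = -1 := N.v1 _ h1
  rw [h2] at h3
  exact absurd h3 (by decide)

lemma not_D_ν2 {c : Q} (h : N.D c) : ¬ N.D (N.ν (N.ν c)) := by
  intro h1
  have h2 : N.v (N.ν (N.ν (N.ν (N.ν c)))) = 1 := N.v2 _ h1
  have h3 : N.v (N.ν c) = -1 := N.v1 _ h
  rw [ν3 (N.DI c h), h3] at h2
  exact absurd h2 (by decide)

lemma symm_E_ν (x : Q) : N.E.symm (N.τ (N.ν x)) = x := symm_τν x

lemma not_in_symm {x : Q} (h : N.In x) : ¬ N.In (N.E.symm x) := by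
  intro h1
  have := not_in_E h1
  rw [Equiv.apply_symm_apply] at this
  exact this h

lemma in_ne_root {x : Q} (h : N.In x) : x ≠ N.r0 ∧ x ≠ N.τ N.r0 :=
  ⟨fun h' => N.r0i (h' ▸ h), fun h' => N.r0j (h' ▸ h)⟩

lemma not_in_τ {x : Q} (h : N.In x) : ¬ N.In (N.τ x) := by
  obtain ⟨h1, h2⟩ := in_ne_root h
  rw [N.inτ x h1 h2]
  exact fun h' => h' h

/-- the stacks of the types -/
noncomputable def ty (N : Net Q) (X k0 k1 tx : Q → Bool) (y : Q) (j : ℕ) : Bool := by
  classical
  exact if N.In y then
    (if (0 : ℤ) ≤ N.v y + j then mst X k0 k1 y (N.v y + j).toNat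
      else if N.D y then k1 y else tx y)
  else mst X k0 k1 y j

variable {ok : Q → Bool → Bool → Bool → Prop} {X k0 k1 tx : Q → Bool}

lemma ty_not {y : Q} (h : ¬ N.In y) (j : ℕ) : N.ty X k0 k1 tx y j = mst X k0 k1 y j := by
  unfold ty; rw [if_neg h]

lemma ty_in {y : Q} (h : N.In y) {j k : ℕ} (hk : (k : ℤ) = N.v y + j) :
    N.ty X k0 k1 tx y j = mst X k0 k1 y k := by
  unfold ty
  rw [if_pos h, if_pos (by omega), show (N.v y + j).toNat = k by omega]

lemma ty_D {c : Q} (h : N.D c) (hc : ¬ N.cp c) : N.ty X k0 k1 tx c 0 = k1 c := by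
  have hv := N.v0' c h hc
  unfold ty
  rw [if_pos (N.DI c h), if_neg (by rw [hv]; decide), if_pos h]

lemma ty_pass {c : Q} (h : N.D c) : N.ty X k0 k1 tx (N.ν c) 0 = tx (N.ν c) := by
  have hv : N.v (N.ν c) = -1 := N.v1 c h
  unfold ty
  rw [if_pos (in_ν (N.DI c h)), if_neg (by rw [hv]; decide), if_neg (not_D_ν h)]

lemma mst_zero (y : Q) : mst X k0 k1 y 0 = X y := if_pos rfl

lemma mst_one (y : Q) : mst X k0 k1 y 1 = k1 y := by
  unfold mst
  rw [if_neg (by decide), if_pos (by decide)]

lemma mst_two (y : Q) : mst X k0 k1 y 2 = k0 y := by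
  unfold mst
  rw [if_neg (by decide), if_neg (by decide)]

lemma mst_add {y : Q} {m : ℕ} (h : m ≠ 0) : mst X k0 k1 y (m + 2) = mst X k0 k1 y m := by
  unfold mst
  rw [if_neg h, if_neg (by omega), Nat.add_mod_right]

lemma v_bd {p : Q} (h1 : p ≠ N.r0) (h2 : p ≠ N.τ N.r0) :
    (N.v p = 1 ∨ N.v p = -1) ∧ (N.In p ∨ N.In (N.τ p)) := by
  by_cases hp : N.In p
  · exact ⟨v_in hp, Or.inl hp⟩
  · have h3 := (N.inτ p h1 h2).2 hp
    have h4 := v_in h3
    rw [N.vτ] at h4
    exact ⟨h4, Or.inr h3⟩

section

variable (h : N.Ty ok X k0 k1 tx)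

include h

lemma mst_E {y : Q} {m : ℕ} (hm : m ≠ 0) : mst X k0 k1 (N.E y) m = mst X k0 k1 y m := by
  unfold mst
  rw [if_neg hm, if_neg hm, h.k0E, h.k1E]

lemma k0s (y : Q) : k0 (N.E.symm y) = k0 y := by
  have := h.k0E (N.E.symm y)
  rw [Equiv.apply_symm_apply] at this
  exact this.symm

lemma k1s (y : Q) : k1 (N.E.symm y) = k1 y := by
  have := h.k1E (N.E.symm y)
  rw [Equiv.apply_symm_apply] at this
  exact this.symm

lemma ty_st (p : Q) (j k : ℕ) (hk : (k : ℤ) = N.v (N.E p) + j) :
    N.ty X k0 k1 tx (N.E p) j = N.ty X k0 k1 tx p k := by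
  by_cases hp : N.In p
  · -- a corner
    have hv : N.v (N.E p) = N.v (N.ν p) := by rw [E_eq, N.vτ]
    rw [ty_not (not_in_E hp)]
    obtain ⟨c, hc, rfl | rfl | rfl⟩ := in_cases hp
    · have h1 : N.v (N.ν p) = -1 := N.v1 p hc
      by_cases hcp : N.cp p
      · have h0 := N.v0 p hc hcp
        have : j = k + 1 := by omega
        subst this
        rw [ty_in hp (j := k) (k := k + 1) (by rw [h0]; push_cast; ring)]
        exact mst_E h (by omega)
      · have h0 := N.v0' p hc hcp
        have : j = k + 1 := by omega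
        subst this
        rcases k with _ | _ | k
        · rw [ty_D hc hcp, mst_one, h.k1E]
        · rw [ty_in hp (j := 1) (k := 0) (by rw [h0]; rfl), mst_zero, mst_two, h.k0E]
          have := h.cb p hc hcp
          rw [cc_neg hcp] at this
          exact this.symm
        · rw [ty_in hp (j := k + 1 + 1) (k := k + 1) (by rw [h0]; push_cast; ring),
            mst_E h (by omega)]
          exact mst_add (by omega)
    · have h1 : N.v (N.ν c) = -1 := N.v1 c hc
      have h2 : N.v (N.ν (N.ν c)) = 1 := N.v2 c hc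
      have : k = j + 1 := by omega
      subst this
      rw [ty_in hp (j := j + 1) (k := j) (by rw [h1]; push_cast; ring)]
      rcases Nat.eq_zero_or_pos j with h0 | h0
      · subst h0
        rw [mst_zero, mst_zero]
        exact h.pass c hc
      · exact mst_E h h0.ne'
    · have h2 : N.v (N.ν (N.ν c)) = 1 := N.v2 c hc
      rw [ν3 (N.DI c hc)] at hv
      by_cases hcp : N.cp c
      · have h0 := N.v0 c hc hcp
        have : k = j + 1 := by omega
        subst this
        rw [ty_in hp (j := j + 1) (k := j + 2) (by rw [h2]; push_cast; ring)]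
        rcases Nat.eq_zero_or_pos j with h3 | h3
        · subst h3
          rw [mst_zero, mst_two]
          have := h.ca c hc hcp
          rwa [cc_pos hcp] at this
        · rw [mst_add h3.ne']
          exact mst_E h h3.ne'
      · have h0 := N.v0' c hc hcp
        have : j = k + 1 := by omega
        subst this
        rw [ty_in hp (j := k) (k := k + 1) (by rw [h2]; push_cast; ring)]
        exact mst_E h (by omega)
  · by_cases hp' : N.In (N.E p)
    · rw [ty_in hp' hk, ty_not hp]
      rcases Nat.eq_zero_or_pos k with h0 | h0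
      · subst h0
        rw [mst_zero, mst_zero]
        exact h.idle p hp hp'
      · exact mst_E h h0.ne'
    · have hr := root_of hp hp'
      have hv : N.v (N.E p) = N.v N.r0 := by
        rcases hr with e | e
        · rw [e]
        · rw [e, N.vτ]
      rw [ty_not hp', ty_not hp]
      by_cases hs : N.s
      · have h1 := N.vr hs
        have : k = j + 2 := by omega
        subst this
        rcases Nat.eq_zero_or_pos j with h0 | h0
        · subst h0
          rw [mst_zero, mst_two]
          exact h.ta hs p hr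
        · rw [mst_add h0.ne']
          exact mst_E h h0.ne'
      · have h1 := N.vr' hs
        have : j = k + 2 := by omega
        subst this
        rcases Nat.eq_zero_or_pos k with h0 | h0
        · subst h0
          rw [mst_zero, mst_two, h.k0E]
          exact (h.tb hs p hr).symm
        · rw [mst_E h (by omega)]
          exact mst_add h0.ne'

lemma ty_before {y : Q} (hy : N.In y) : N.ty X k0 k1 tx (N.E.symm y) 0 = X y := by
  rw [ty_not (not_in_symm hy), mst_zero]
  have := h.idle (N.E.symm y) (not_in_symm hy) (by rw [Equiv.apply_symm_apply]; exact hy)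
  rw [Equiv.apply_symm_apply] at this
  exact this.symm

lemma ty_pop_in {p : Q} (hp : N.In p) (hv : N.v p = 1) :
    ok p true (N.ty X k0 k1 tx (N.E.symm p) 0) (N.ty X k0 k1 tx (N.E.symm (N.τ p)) 0) := by
  rw [ty_before h hp, symm_τ hp]
  obtain ⟨c, hc, rfl | rfl | rfl⟩ := in_cases hp
  · by_cases hcp : N.cp p
    · have h2 : N.v (N.ν (N.ν p)) = 1 := N.v2 p hc
      rw [ty_in (in_ν (in_ν hp)) (j := 0) (k := 1) (by rw [h2]; rfl), mst_one]
      exact h.da p hc hcp
    · rw [N.v0' p hc hcp] at hv
      exact absurd hv (by decide)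
  · have h1 : N.v (N.ν c) = -1 := N.v1 c hc
    rw [h1] at hv
    exact absurd hv (by decide)
  · have e : N.ν (N.ν (N.ν (N.ν c))) = N.ν c := by rw [ν3 (N.DI c hc)]
    rw [e, ty_pass hc]
    exact h.rb c hc

lemma ty_push_in {p : Q} (hp : N.In p) (hv : N.v p = -1) :
    ok p false (N.ty X k0 k1 tx p 0) (N.ty X k0 k1 tx (N.τ p) 0) := by
  rw [ty_not (not_in_τ hp), mst_zero]
  have e : N.τ p = N.E (N.ν (N.ν p)) := by
    rw [E_eq, ν3 hp]
  obtain ⟨c, hc, rfl | rfl | rfl⟩ := in_cases hp
  · by_cases hcp : N.cp p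
    · rw [N.v0 p hc hcp] at hv
      exact absurd hv (by decide)
    · rw [ty_D hc hcp, e]
      exact h.db p hc hcp
  · rw [ty_pass hc, e, ν3 (N.DI c hc)]
    exact h.ra c hc
  · have h1 : N.v (N.ν (N.ν c)) = 1 := N.v2 c hc
    rw [h1] at hv
    exact absurd hv (by decide)

end

/-- **The family of the types.** -/
theorem Ty.tts {Q : Type*} (N : Net Q) {ok : Q → Bool → Bool → Bool → Prop}
    {X k0 k1 tx : Q → Bool} (h : N.Ty ok X k0 k1 tx) : ∃ κ : Q → ℕ → Bool, TTS N.E N.τ N.v ok κ ∧
    (∀ y, ¬ N.In y → ∀ j, κ y j = mst X k0 k1 y j) ∧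
    (∀ y, N.In y → ∀ j k : ℕ, (k : ℤ) = N.v y + j → κ y j = mst X k0 k1 y k) := by
  have hr1 : ¬ N.In (N.E.symm N.r0) := not_in_symm_root (Or.inl (Equiv.apply_symm_apply _ _))
  have hr2 : ¬ N.In (N.E.symm (N.τ N.r0)) :=
    not_in_symm_root (Or.inr (Equiv.apply_symm_apply _ _))
  refine ⟨N.ty X k0 k1 tx, ⟨ty_st h, ?_, ?_⟩, fun y hy j => ty_not hy j,
    fun y hy j k hk => ty_in hy hk⟩
  · intro p i j hij
    by_cases e1 : p = N.r0
    · subst e1
      by_cases hs : N.s
      · have hv := N.vr hs
        obtain ⟨u1, u2⟩ := h.ua hs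
        rw [ty_not hr1, ty_not hr2]
        rcases i with _ | _ | i
        · have : j = 1 := by omega
          subst this
          rw [mst_zero, mst_one, k1s h]
          exact u1
        · have : j = 0 := by omega
          subst this
          rw [mst_zero, mst_one, k1s h]
          exact u2
        · omega
      · have hv := N.vr' hs
        omega
    by_cases e2 : p = N.τ N.r0
    · subst e2
      rw [N.vτ] at hij
      by_cases hs : N.s
      · have hv := N.vr hs
        obtain ⟨u1, u2⟩ := h.ua hs
        have u1' := h.oks _ _ _ _ u1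
        have u2' := h.oks _ _ _ _ u2
        rw [N.ττ, ty_not hr1, ty_not hr2]
        rcases i with _ | _ | i
        · have : j = 1 := by omega
          subst this
          rw [mst_zero, mst_one, k1s h]
          exact u2'
        · have : j = 0 := by omega
          subst this
          rw [mst_zero, mst_one, k1s h]
          exact u1'
        · omega
      · have hv := N.vr' hs
        omega
    obtain ⟨h3, h4⟩ := v_bd e1 e2
    have hi : i = 0 := by omega
    have hj : j = 0 := by omega
    have hv : N.v p = 1 := by omega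
    subst hi hj
    rcases h4 with h4 | h4
    · exact ty_pop_in h h4 hv
    · have h5 := ty_pop_in h h4 (by rw [N.vτ]; exact hv)
      rw [N.ττ] at h5
      have h6 := h.oks _ _ _ _ h5
      rwa [N.ττ] at h6
  · intro p i j hij
    by_cases e1 : p = N.r0
    · subst e1
      by_cases hs : N.s
      · have hv := N.vr hs
        omega
      · have hv := N.vr' hs
        obtain ⟨u1, u2⟩ := h.ub hs
        rw [ty_not N.r0i, ty_not N.r0j]
        rcases i with _ | _ | i
        · have : j = 1 := by omega
          subst this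
          rw [mst_zero, mst_one]
          exact u1
        · have : j = 0 := by omega
          subst this
          rw [mst_zero, mst_one]
          exact u2
        · omega
    by_cases e2 : p = N.τ N.r0
    · subst e2
      rw [N.vτ] at hij
      by_cases hs : N.s
      · have hv := N.vr hs
        omega
      · have hv := N.vr' hs
        obtain ⟨u1, u2⟩ := h.ub hs
        have u1' := h.oks _ _ _ _ u1
        have u2' := h.oks _ _ _ _ u2
        rw [N.ττ, ty_not N.r0i, ty_not N.r0j]
        rcases i with _ | _ | i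
        · have : j = 1 := by omega
          subst this
          rw [mst_zero, mst_one]
          exact u2'
        · have : j = 0 := by omega
          subst this
          rw [mst_zero, mst_one]
          exact u1'
        · omega
    obtain ⟨h3, h4⟩ := v_bd e1 e2
    have hi : i = 0 := by omega
    have hj : j = 0 := by omega
    have hv : N.v p = -1 := by omega
    subst hi hj
    rcases h4 with h4 | h4
    · exact ty_push_in h h4 hv
    · have h5 := ty_push_in h h4 (by rw [N.vτ]; exact hv)
      have h6 := h.oks _ _ _ _ h5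
      rwa [N.ττ] at h6

end Net

end Pool.Agent.MP42.EO
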