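import Pool.Agent.MP42.EO.LSNet
import Pool.Agent.MP42.EO.Region

/-!
# The region lemma with the vertices `K_y`
-/

set_option autoImplicit false
set_option linter.unusedSectionVars false

namespace Pool.Agent.MP42.EO

open Pool.Agent.Helper55.UNF Pool.Agent.MP42 Pool.Agent.MP42.NE

open Classical in
/-- **the solution of an insertion tree with types** -/
theorem Net.sol2 {Q : Type*} [Fintype Q] (N : Net Q) (hTr : N.Tree) {pop Fc : Q → Prop}
    (hC : N.Cls2 pop Fc) (hS : N.SumH)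
    {ok : Q → Bool → Bool → Bool → Prop} (oks : ∀ x s a b, ok x s a b → ok (N.τ x) s b a)
    (dem : ∀ c, N.D c → ¬ Fc c → ∃ a b d, ok (N.ν c) false b a ∧ ok (N.ν (N.ν c)) true d b)
    (lf : ∀ c, N.D c → Fc c → ∀ a, ok (N.ν c) false a a ∧ ok (N.ν (N.ν c)) true a a)
    (dr : ∀ c, N.D c → (N.cp c → ∀ a, ok c true a a) ∧ (¬ N.cp c → ∀ a, ok c false a a))
    (rr : ∀ s a, ok N.r0 s a a) (t0 t1 : Bool) :
    ∃ κ sg, Sol N.E N.τ ok 4 (fun _ => True) N.r0 (if N.s then 1 else -1) t0 t1 N.v κ sg := by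
  obtain ⟨X, k0, k1, tx, hTy, hk⟩ := Net.exists_Ty2 hTr hC oks dem lf dr rr t0 t1
  obtain ⟨κ, h1, h2, h3⟩ := Net.Ty.tts N hTy
  obtain ⟨sg, s1, s2, s3, s4, s5, s6⟩ := hS
  have mper : ∀ y j, 1 ≤ j → mst X k0 k1 y (j + 2) = mst X k0 k1 y j := by
    intro y j hj
    unfold mst
    have e1 : ¬ j + 2 = 0 := by omega
    have e2 : ¬ j = 0 := by omega
    have e3 : (j + 2) % 2 = j % 2 := by omega
    rw [if_neg e1, if_neg e2, e3]
  have hin : ∀ y, N.In y → ∀ j : ℕ, 1 ≤ j → ∃ k : ℕ, (k : ℤ) = N.v y + j := by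
    intro y hy j hj
    rcases Net.v_in hy with h | h
    · exact ⟨j + 1, by rw [h]; push_cast; ring⟩
    · exact ⟨j - 1, by rw [h]; omega⟩
  refine ⟨κ, sg, N.vτ, fun x hx => absurd trivial hx, s1, s2, ?_, ?_, s6, h1, ?_,
    fun x j hx => absurd trivial hx, ?_, ?_⟩
  · intro x hx
    rw [cyc_eq s2 hx]
    split_ifs with h
    · exact s3 h
    · exact s4 h
  · intro d _
    exact s5 d
  · intro x j hj
    by_cases hx : N.In x
    · obtain ⟨k, hk'⟩ := hin x hx j (by omega)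
      have hk2 : 1 ≤ k := by
        rcases Net.v_in hx with h | h
        · rw [h] at hk'; omega
        · rw [h] at hk'; omega
      rw [h3 x hx (j + 2) (k + 2) (by push_cast; omega), h3 x hx j k hk', mper x k hk2]
    · rw [h2 x hx, h2 x hx, mper x j (by omega)]
  · intro x hx
    have hk' := hk x hx.symm
    by_cases hx' : N.In x
    · refine ⟨1, fun j hj => ?_⟩
      obtain ⟨k, hk2⟩ := hin x hx' j (by omega)
      rw [h3 x hx' j k hk2]
      have hk3 : 1 ≤ k ∧ k % 2 = (j + 1) % 2 := by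
        rcases Net.v_in hx' with h | h
        · rw [h] at hk2; omega
        · rw [h] at hk2; omega
      unfold mst
      rw [if_neg (by omega), hk'.1, hk'.2]
      by_cases hj2 : (j + 1) % 2 = 0
      · rw [if_neg (by omega), if_pos hj2]
      · rw [if_pos (by omega), if_neg hj2]
    · refine ⟨0, fun j hj => ?_⟩
      rw [h2 x hx']
      unfold mst
      rw [if_neg (by omega), hk'.1, hk'.2]
      by_cases hj2 : (j + 0) % 2 = 0
      · rw [if_neg (by omega), if_pos hj2]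
      · rw [if_pos (by omega), if_neg hj2]
  · intro v' T ρ hv hT hρ hdeep
    have e : v' = N.v := funext fun x => hv x trivial
    rw [e] at hT
    obtain ⟨c, hc⟩ := N.conn hTr hT hρ (K := 4) (fun x hx j hj => hdeep x trivial hx j hj)
    exact ⟨c, fun x _ j => hc x j⟩

section Region

variable {P : Type*} [Fintype P] {E : Equiv.Perm P} {τ : P → P}
  {ok : P → Bool → Bool → Bool → Prop} {MR Kr : P → Prop}

open Classical in
/-- **the region lemma** on the ribbons -/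
theorem Loc2.region (L : Loc2 E τ ok MR Kr)
    (hLS : ∀ (r : P) (s : Prop), (∃ x, Reg E τ r x ∧ ¬ E.SameCycle r x) →
      ∃ S : LS E τ ok MR Kr r s, ∀ x, Reg E τ r x → S.U x)
    (r : P) {s : ℤ} (hs : s = 1 ∨ s = -1) (t0 t1 : Bool) :
    ∃ v κ sg, Sol E τ ok 4 (Reg E τ r) r s t0 t1 v κ sg := by
  by_cases hone : ∀ y, Reg E τ r y → E.SameCycle r y
  · -- one face
    obtain ⟨⟨q, hq, hq'⟩, ⟨q2, hq2, a, hq2'⟩⟩ := L.leaf r hone
    obtain ⟨v, κ, l1, l2, l3, l4, l5, l6, l7, l8, l9, l10, l11⟩ := EO.leaf (E := E) (τ := τ)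
      (G := Reg E τ r) (r := r) (ok := ok) L.ττ L.oks hone (fun x hx => Reg.E_iff.2 hx)
      (fun x hx => Reg.τ_iff.2 hx) ⟨q, hq, (L.ne q).symm, hq'⟩
      ⟨q2, hq2, (L.ne q2).symm, a, hq2'⟩ hs t0 t1
    refine ⟨v, κ, fun _ => s, l1, l2, fun _ => hs, fun _ => rfl, fun _ _ => rfl, ?_, ?_, l7,
      fun x j _ => l8 x j, fun x j hx => l9 x hx j, ?_, ?_⟩
    · intro d hd
      exact l6 d hd
    · intro x n hn
      exact (l5 x n hn).trans (by norm_num)
    · intro x hx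
      obtain ⟨ε, _, hε⟩ := l10 x (Reg.cyc hx)
      exact ⟨ε, fun j _ => hε j⟩
    · intro v' T ρ hv hT _ _
      exact l11 v' T hv hT
  · -- at least two faces
    obtain ⟨x, hx⟩ := not_forall.1 hone
    obtain ⟨hx1, hx2⟩ := Classical.not_imp.1 hx
    obtain ⟨T, hT⟩ := hLS r (s = 1) ⟨x, hx1, hx2⟩
    let S : Sl2 E τ ok MR Kr := ⟨r, s = 1, L, T, hT⟩
    have hnet : S.net.SumH := Net.sums S.net Sl2.net_tree
    obtain ⟨κ, sg, hSol⟩ := S.net.sol2 Sl2.net_tree Sl2.net_cls hnet (ok := fun x => ok x.1)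
      (fun x s a b h => L.oks x.1 s a b h) (by
        rintro ⟨c, hc⟩ hD hF
        have hD' : S.T.Dc c := hD
        have e0 := Sl2.net_ν0 hD' hc
        have e1 := Sl2.net_ν1 hD' hc
        rw [e0, e1]
        exact Sl2.demand hD' hF) (by
        rintro ⟨c, hc⟩ hD hF a
        have hD' : S.T.Dc c := hD
        have e0 := Sl2.net_ν0 hD' hc
        have e1 := Sl2.net_ν1 hD' hc
        rw [e0, e1]
        exact Sl2.lanes hD' hF a) (by
        intro c hD
        exact S.T.fr c.1 hD) (by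
        intro s a
        exact L.MRok _ (L.MRτ _ S.T.y1) s a) t0 t1
    have hs' : (if S.net.s then (1 : ℤ) else -1) = s := by
      rcases hs with h | h
      · have h' : S.net.s := h
        rw [if_pos h', h]
      · have h' : ¬ S.net.s := by
          show ¬ s = 1
          rw [h]; norm_num
        rw [if_neg h', h]
    rw [hs'] at hSol
    obtain ⟨κ'', sg'', h⟩ := Sol.lift (E := E) (τ := τ) (ok := ok) (A := S.Act) (G' := fun _ => True)
      (r' := S.net.r0) L.ττ (fun x hx => Sl2.Act.τ_iff.2 hx) hSol (G := Reg E τ r) (by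
        intro x
        constructor
        · intro hx
          obtain ⟨y, hy, hxy⟩ := Sl2.ex_act (S := S) hx
          exact ⟨⟨y, hy⟩, hxy, trivial⟩
        · rintro ⟨y, hxy, _⟩
          exact (Sl2.act_reg (S := S) y.2).trans (Reg.cyc hxy).symm) (fun x => Reg.τ_iff)
      (fun _ _ _ _ => trivial) (r := r) S.T.y2
    exact ⟨_, κ'', sg'', h⟩

end Region

/-! ## The region lemma on the whole system -/

section Whole

variable {D : Type*} [Fintype D] {S : Sys D} {A : D → Prop}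

open Classical in
/-- **the region lemma** -/
theorem exists_piece2 {ok : D → Bool → Bool → Bool → Prop} {MR Kr : {x // A x} → Prop}
    (hA : ∀ x, A x → A (S.ta x)) (hdead : ∀ x, ¬ A x → S.ta x = x)
    (hex : ∀ x, ∃ y, S.E.SameCycle x y ∧ A y)
    (L : Loc2 (ret S.E A) (fun x => ⟨S.ta x.1, hA x.1 x.2⟩) (fun x => ok x.1) MR Kr)
    (hLS : ∀ (r : {x // A x}) (s : Prop),
      (∃ x, Reg (ret S.E A) (fun x => ⟨S.ta x.1, hA x.1 x.2⟩) r x ∧
        ¬ (ret S.E A).SameCycle r x) →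
      ∃ T : LS (ret S.E A) (fun x => ⟨S.ta x.1, hA x.1 x.2⟩) (fun x => ok x.1) MR Kr r s,
        ∀ x, Reg (ret S.E A) (fun x => ⟨S.ta x.1, hA x.1 x.2⟩) r x → T.U x)
    (r : D) {s : ℤ} (hs : s = 1 ∨ s = -1) (t0 t1 : Bool) :
    ∃ v κ sg, Piece S ok 4 (Reg S.E S.ta r) r s t0 t1 v κ sg := by
  obtain ⟨r', hr', hr''⟩ := hex r
  obtain ⟨v, κ, sg, hSol⟩ := L.region hLS ⟨r', hr''⟩ hs t0 t1
  obtain ⟨κ'', sg'', h⟩ := Sol.lift (E := S.E) (τ := S.ta) (ok := ok) (A := A)
    (fun x => Sys.ta_ta x) hA hSol (G := Reg S.E S.ta r) (by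
      intro x
      constructor
      · intro hx
        obtain ⟨y, hy, hy'⟩ := hex x
        exact ⟨⟨y, hy'⟩, hy, reg_ret hA hdead hex hx ⟨r', hr''⟩ ⟨y, hy'⟩ hr' hy⟩
      · rintro ⟨y, hy, hy'⟩
        exact ((Reg.cyc hr').trans (reg_of_ret hy')).trans (Reg.cyc hy).symm)
    (fun x => Reg.τ_iff) (fun x y hxy hx => hx.trans (Reg.cyc (ret_same_iff.2 hxy)))
    (r := r) hr'
  refine ⟨_, κ'', sg'', ⟨h.vτ, h.vG, ?_, h.sg1, h.sgE, h.sgr r (sR r), h.sum, h.pb, h.tts,
    h.per, h.κG, h.deep r (sR r), h.conn⟩⟩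
  intro x hx
  by_cases hAx : A x
  · exact absurd (Subtype.ext hx) (L.ne ⟨x, hAx⟩)
  · exact dif_neg hAx

end Whole

end Pool.Agent.MP42.EO
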