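import Pool.Agent.MP42.EO.Net

/-!
# Stacks with types

`ok x s a b`: a strand may cross the ribbon `x` with the sign `s` (`true`: positive), with the type
`a` on the side `x` and the type `b` on the side `τ x`.
-/

set_option autoImplicit false

namespace Pool.Agent.MP42.EO

open Pool.Agent.MP42.NE

/-- infinite stacks of types -/
structure TTS {P : Type*} (E : Equiv.Perm P) (τ : P → P) (v : P → ℤ)
    (ok : P → Bool → Bool → Bool → Prop) (κ : P → ℕ → Bool) : Prop where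
  st : ∀ (p : P) (j k : ℕ), (k : ℤ) = v (E p) + j → κ (E p) j = κ p k
  pop : ∀ (p : P) (i j : ℕ), (i : ℤ) + j + 1 = v p →
    ok p true (κ (E.symm p) i) (κ (E.symm (τ p)) j)
  push : ∀ (p : P) (i j : ℕ), (i : ℤ) + j + 1 = - v p → ok p false (κ p i) (κ (τ p) j)

/-- the types of the main strands of a face: top strand `X`, deep strands `k1` (odd), `k0` (even) -/
def mst {Q : Type*} (X k0 k1 : Q → Bool) (y : Q) (j : ℕ) : Bool :=
  if j = 0 then X y else if j % 2 = 1 then k1 y else k0 y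

/-- Types on an insertion tree.  `X y` = type of the top main strand at the dart `y` (before the
corner if `y` is `In`, else after the unit `y`), `k0`, `k1` = types of the deep strands, `tx` = type
of the strand at the pass corner. -/
structure Net.Ty {Q : Type*} (N : Net Q) (ok : Q → Bool → Bool → Bool → Prop)
    (X k0 k1 tx : Q → Bool) : Prop where
  oks : ∀ x s a b, ok x s a b → ok (N.τ x) s b a
  k0E : ∀ x, k0 (N.E x) = k0 x
  k1E : ∀ x, k1 (N.E x) = k1 x
  idle : ∀ y, ¬ N.In y → N.In (N.E y) → X (N.E y) = X y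
  pass : ∀ c, N.D c → X (N.E (N.ν c)) = X (N.ν c)
  ra : ∀ c, N.D c → ok (N.ν c) false (tx (N.ν c)) (X (N.E c))
  rb : ∀ c, N.D c → ok (N.ν (N.ν c)) true (X (N.ν (N.ν c))) (tx (N.ν c))
  da : ∀ c, N.D c → N.cp c → ok c true (X c) (k1 (N.ν (N.ν c)))
  db : ∀ c, N.D c → ¬ N.cp c → ok c false (k1 c) (X (N.E (N.ν (N.ν c))))
  ca : ∀ c, N.D c → N.cp c → X (N.E (N.cc c)) = k0 (N.cc c)
  cb : ∀ c, N.D c → ¬ N.cp c → X (N.cc c) = k0 (N.cc c)
  ta : N.s → ∀ z, (N.E z = N.r0 ∨ N.E z = N.τ N.r0) → X (N.E z) = k0 z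
  tb : ¬ N.s → ∀ z, (N.E z = N.r0 ∨ N.E z = N.τ N.r0) → X z = k0 z
  ua : N.s → ok N.r0 true (X (N.E.symm N.r0)) (k1 (N.τ N.r0)) ∧
    ok N.r0 true (k1 N.r0) (X (N.E.symm (N.τ N.r0)))
  ub : ¬ N.s → ok N.r0 false (X N.r0) (k1 (N.τ N.r0)) ∧
    ok N.r0 false (k1 N.r0) (X (N.τ N.r0))

end Pool.Agent.MP42.EO
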