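import Pool.Agent.MP42.EO.RTree
import Pool.Agent.MP42.EO.TTS
import Pool.Agent.MP42.NE.BrA

/-!
# Heights and types of all strands

From infinite stacks of types with a matching of the deep types of the two sides of every ring:
numbers of strands of the right parity, and types of all strands of the flow.
-/

set_option autoImplicit false

namespace Pool.Agent.MP42.EO

open Pool.Agent.MP42.NE Pool.Agent.MP42.NE.Sys

variable {D : Type*} {S : Sys D} {e : D → ℕ} {v : D → ℤ} {K : ℕ}

/-! ## Heights -/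

section Heights

variable [Fintype D] [DecidableEq D]

/-- one turn: the sums on the two sides of the ring and their bounds -/
lemma fl_turn (hPB : PB S.E v K)
    (hsum : ∀ x, ∑ y ∈ Finset.univ.filter (fun y => S.E.SameCycle x y), v y =
      ∑ y ∈ Finset.univ.filter (fun y => S.E.SameCycle (S.om x) y), v y) (x : D) :
    ∃ n, 0 < n ∧ (S.E ^ n) x = x ∧ S.PS v n x = S.QS v n x ∧
      ∀ i ≤ n, |S.PS v i x| ≤ K ∧ |S.QS v i x| ≤ K := by
  obtain ⟨n, h1, h2, h3⟩ := cyc_sum' S.E x
  refine ⟨n, ?_, h1, ?_, ?_⟩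
  · rcases Nat.eq_zero_or_pos n with h0 | h0
    · exfalso
      subst h0
      have h4 := h3 (fun _ => (1 : ℕ))
      rw [Finset.sum_range_zero] at h4
      have h5 := (Finset.sum_eq_zero_iff.1 h4.symm) x
        (Finset.mem_filter.2 ⟨Finset.mem_univ _, Equiv.Perm.SameCycle.refl _ _⟩)
      exact one_ne_zero h5
    · exact h0
  · have h4 : S.PS v n x = ∑ y ∈ Finset.univ.filter (fun y => S.E.SameCycle x y), v y := by
      unfold PS; rw [h3 v]
    have e1 : S.QS v n x = ∑ i ∈ Finset.range n, v (S.om ((S.E ^ (i + 1)) x)) := by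
      have e2 := Finset.sum_range_succ (fun i => v (S.om ((S.E ^ i) x))) n
      have e3 := Finset.sum_range_succ' (fun i => v (S.om ((S.E ^ i) x))) n
      simp only [h1, pow_zero, Equiv.Perm.one_apply] at e2 e3
      unfold QS
      rw [e2] at e3
      exact add_right_cancel e3
    rw [e1, h4, h3 (fun y => v (S.om y)), hsum x]
    symm
    apply Finset.sum_nbij' (fun y => S.om y) (fun y => S.om y)
    · intro y hy
      have hy' : S.E.SameCycle x y := by simpa using hy
      simpa using same_om hy'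
    · intro y hy
      have hy' : S.E.SameCycle (S.om x) y := by simpa using hy
      have h5 := same_om hy'
      rw [om_om] at h5
      simpa using h5
    · intro y _; exact om_om y
    · intro y _; exact om_om y
    · intro y _; rfl
  · intro i hi
    constructor
    · rw [PS_eq_range]
      apply hPB
      intro j h4 h5 h6
      apply h2 j h4 (by omega)
      rw [← pow_succ_E', pow_succ_E] at h6
      exact S.E.injective h6
    · rw [QS_eq, PS_eq_range]
      apply hPB
      intro j h4 h5 h6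
      apply h2 j h4 (by omega)
      rw [← pow_succ_E', pow_succ_E] at h6
      have h7 := S.E.injective h6
      have h8 := om_pow (S := S) j ((S.E ^ i) x)
      have h9 := congrArg S.om ((S.E ^ j).injective (h7.trans h8.symm))
      rw [om_om, om_om, ← Equiv.Perm.mul_apply, ← pow_add, Nat.add_comm, pow_add,
        Equiv.Perm.mul_apply] at h9
      exact ((S.E ^ i).injective h9).symm

lemma fl_HS_cycle (hPB : PB S.E v K)
    (hsum : ∀ x, ∑ y ∈ Finset.univ.filter (fun y => S.E.SameCycle x y), v y =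
      ∑ y ∈ Finset.univ.filter (fun y => S.E.SameCycle (S.om x) y), v y) {x : D} {m : ℕ}
    (h : (S.E ^ m) x = x) : S.HS v m x = 0 := by
  obtain ⟨n, h0, h1, h2, h3⟩ := fl_turn hPB hsum x
  have e1 := HS_mul (v := v) h1 m
  have e2 := HS_mul (v := v) h n
  have e3 : S.HS v n x = 0 := by unfold HS; rw [h2]; ring
  rw [e3, mul_zero, Nat.mul_comm] at e1
  rw [e1] at e2
  have : (n : ℤ) ≠ 0 := by omega
  rcases mul_eq_zero.1 e2.symm with h4 | h4
  · exact absurd h4 this
  · exact h4

lemma fl_HS_congr (hPB : PB S.E v K)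
    (hsum : ∀ x, ∑ y ∈ Finset.univ.filter (fun y => S.E.SameCycle x y), v y =
      ∑ y ∈ Finset.univ.filter (fun y => S.E.SameCycle (S.om x) y), v y) {x : D} {a b : ℕ}
    (h : (S.E ^ a) x = (S.E ^ b) x) : S.HS v a x = S.HS v b x := by
  have key : ∀ a b : ℕ, a ≤ b → (S.E ^ a) x = (S.E ^ b) x → S.HS v a x = S.HS v b x := by
    intro a b hab h
    obtain ⟨d, rfl⟩ := Nat.exists_eq_add_of_le hab
    have h1 : (S.E ^ d) ((S.E ^ a) x) = (S.E ^ a) x := by
      rw [← Equiv.Perm.mul_apply, ← pow_add, Nat.add_comm d a, ← h]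
    rw [HS_add, fl_HS_cycle hPB hsum h1, add_zero]
  rcases le_total a b with h1 | h1
  · exact key a b h1 h
  · exact (key b a h1 h.symm).symm

/-- **the numbers of strands exist**, mixed signs -/
theorem exists_eS (hr : ∀ x, S.r x ≠ x) (ho : ∀ x, S.r (S.E x) ≠ x) (hta : ∀ x, v (S.ta x) = v x)
    (hPB : PB S.E v K)
    (hsum : ∀ x, ∑ y ∈ Finset.univ.filter (fun y => S.E.SameCycle x y), v y =
      ∑ y ∈ Finset.univ.filter (fun y => S.E.SameCycle (S.om x) y), v y) (B : ℕ) :
    ∃ e : D → ℕ, S.Fl e v ∧ (∀ x, B + 4 * K + 6 ≤ e x) ∧ (∀ x, e x ≤ B + 8 * K + 6) := by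
  classical
  obtain ⟨σ, hσE, hσr⟩ := exists_sigma hr ho
  have hex : ∀ x, ∃ n, (S.E ^ n) (S.rep x) = x := fun x => (rep_same x).exists_nat_pow_eq
  set nn : D → ℕ := fun x => Nat.find (hex x) with hnn
  have hn : ∀ x, (S.E ^ (nn x)) (S.rep x) = x := fun x => Nat.find_spec (hex x)
  have hbd : ∀ x, -(2 * K : ℤ) ≤ S.HS v (nn x) (S.rep x) ∧
      S.HS v (nn x) (S.rep x) ≤ 2 * K := by
    intro x
    obtain ⟨p, h0, h1, h2, h3⟩ := fl_turn hPB hsum (S.rep x)
    have hlt : nn x < p := by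
      by_contra hc
      have h4 : (S.E ^ (nn x - p)) (S.rep x) = x := by
        have h5 := hn x
        rw [show nn x = (nn x - p) + p by omega, pow_add, Equiv.Perm.mul_apply, h1] at h5
        exact h5
      have h6 : nn x ≤ nn x - p := Nat.find_min' (hex x) h4
      omega
    obtain ⟨h4, h5⟩ := h3 (nn x) hlt.le
    rw [abs_le] at h4 h5
    unfold HS
    constructor <;> omega
  set f : D → ℤ := fun x => B + 6 * K + 6 + S.HS v (nn x) (S.rep x) with hf
  have hfE : ∀ x, f (S.E x) = f x + (v (S.om x) - v (S.E x)) := by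
    intro x
    have h1 : S.rep (S.E x) = S.rep x := rep_congr (same_E x)
    have h2 : (S.E ^ (nn (S.E x))) (S.rep x) = (S.E ^ (nn x + 1)) (S.rep x) := by
      rw [pow_succ_E, hn x]
      have := hn (S.E x)
      rwa [h1] at this
    have h3 := fl_HS_congr (v := v) hPB hsum h2
    simp only [hf]
    rw [h1, h3, HS_succ, pow_succ_E, hn x]
    ring
  have hfb : ∀ x, (B + 4 * K + 6 : ℤ) ≤ f x ∧ f x ≤ B + 8 * K + 6 := by
    intro x
    have := hbd x
    simp only [hf]
    constructor <;> omega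
  set g : D → ℤ := fun x => if σ x then f x else f (S.om x) with hg
  have hgb : ∀ x, (B + 4 * K + 6 : ℤ) ≤ g x ∧ g x ≤ B + 8 * K + 6 := by
    intro x
    simp only [hg]
    split_ifs
    · exact hfb x
    · exact hfb _
  have hσo : ∀ x, σ (S.om x) ↔ ¬ σ x := fun x => by
    show σ (S.r (S.E x)) ↔ _
    rw [hσr, hσE]
  have hgo : ∀ x, g (S.om x) = g x := by
    intro x
    simp only [hg]
    by_cases h : σ x
    · have h1 : ¬ σ (S.om x) := fun h' => (hσo x).1 h' h
      rw [if_neg h1, if_pos h, om_om]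
    · have h1 : σ (S.om x) := (hσo x).2 h
      rw [if_pos h1, if_neg h]
  have hgr : ∀ x, σ x → g (S.r x) + v (S.r x) = g x + v x := by
    intro x hx
    obtain ⟨y, rfl⟩ := S.E.surjective x
    have h1 : σ y := (hσE y).1 hx
    have h2 : g (S.r (S.E y)) = g y := hgo y
    have h3 : g (S.E y) = f (S.E y) := by simp only [hg]; rw [if_pos hx]
    have h4 : g y = f y := by simp only [hg]; rw [if_pos h1]
    rw [h2, h3, h4, hfE y]
    show f y + v (S.om y) = _
    ring
  refine ⟨fun x => (g x).toNat, ⟨?_, ?_, ?_⟩, ?_, ?_⟩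
  · intro x
    show (g (S.om x)).toNat = (g x).toNat
    rw [hgo]
  · intro x; exact hta x
  · intro x
    have b1 := hgb x
    have b2 := hgb (S.r x)
    have key : g (S.r x) + v (S.r x) = g x + v x := by
      by_cases hx : σ x
      · exact hgr x hx
      · have h1 := hgr (S.r x) ((hσr x).2 hx)
        rw [S.rr] at h1
        exact h1.symm
    show (((g (S.r x)).toNat : ℕ) : ℤ) + v (S.r x) = (((g x).toNat : ℕ) : ℤ) + v x
    omega
  · intro x
    have := hgb x
    show B + 4 * K + 6 ≤ (g x).toNat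
    omega
  · intro x
    have := hgb x
    show (g x).toNat ≤ B + 8 * K + 6
    omega

end Heights

/-! ## Types of the finite stacks -/

/-- the types of the finite stacks over the east sides -/
structure BStk (S : Sys D) (e : D → ℕ) (v : D → ℤ) (ok : D → Bool → Bool → Bool → Prop)
    (T : D → ℕ → Bool) : Prop where
  st : ∀ x i, (v (S.E x)).toNat + i < e x → (-v (S.E x)).toNat + i < e (S.E x) →
    T x ((v (S.E x)).toNat + i) = T (S.E x) ((-v (S.E x)).toNat + i)
  rv : ∀ x j, j < e x → T (S.om x) j = T x (e x - 1 - j)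
  rp : ∀ (x : D) (j : ℕ), (j : ℤ) < v x →
    ok x true (T (S.E.symm x) j) (T (S.E.symm (S.ta x)) ((v x).natAbs - 1 - j))
  rm : ∀ (x : D) (j : ℕ), (j : ℤ) < -v x →
    ok x false (T x j) (T (S.ta x) ((v x).natAbs - 1 - j))

/-- the family with the given stacks -/
def ofB (S : Sys D) (e : D → ℕ) (v : D → ℤ) (T : D → ℕ → Bool) (x : D) (t : ℕ) : Bool :=
  if t < (v x).toNat then T (S.E.symm x) t
  else if t < (v x).toNat + e x then T x (t - (v x).toNat)
  else T (S.r x) (S.cnt e v x - 1 - t)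

lemma ofB_n {T : D → ℕ → Bool} {x : D} {t : ℕ} (h : t < (v x).toNat) :
    ofB S e v T x t = T (S.E.symm x) t := if_pos h

lemma ofB_e {T : D → ℕ → Bool} {x : D} {t : ℕ} (h : t < e x) :
    ofB S e v T x ((v x).toNat + t) = T x t := by
  unfold ofB
  rw [if_neg (by omega), if_pos (by omega), Nat.add_sub_cancel_left]

lemma ofB_s {T : D → ℕ → Bool} {x : D} {t : ℕ} (h : (v x).toNat + e x ≤ t) :
    ofB S e v T x t = T (S.r x) (S.cnt e v x - 1 - t) := by
  unfold ofB
  rw [if_neg (by omega), if_neg (by omega)]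

variable {ok : D → Bool → Bool → Bool → Prop} {T : D → ℕ → Bool}

/-- the west strands -/
lemma BStk.west (hF : S.Fl e v) (hv' : ∀ x, -v x ≤ e x) (h : BStk S e v ok T) (x : D) (j : ℕ)
    (hj : j < e x) : T x j = ofB S e v T (S.E x) ((-v (S.E x)).toNat + j) := by
  have hcnt : S.cnt e v (S.E x) = e (S.E x) + (v (S.E x)).toNat + (-v (S.om x)).toNat := rfl
  have hb := hF.bE x
  by_cases h1 : (-v (S.E x)).toNat + j < (v (S.E x)).toNat
  · rw [ofB_n h1, Equiv.symm_apply_apply, show (-v (S.E x)).toNat = 0 by omega, Nat.zero_add]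
  · by_cases h2 : (-v (S.E x)).toNat + j < (v (S.E x)).toNat + e (S.E x)
    · have h3 := h.st x (j - (v (S.E x)).toNat) (by omega) (by omega)
      rw [show (v (S.E x)).toNat + (j - (v (S.E x)).toNat) = j by omega] at h3
      rw [h3]
      rw [show (-v (S.E x)).toNat + j = (v (S.E x)).toNat +
        ((-v (S.E x)).toNat + (j - (v (S.E x)).toNat)) by omega, ofB_e (by omega)]
    · rw [ofB_s (by omega)]
      have h3 := h.rv x (e x - 1 - j) (by omega)
      rw [show e x - 1 - (e x - 1 - j) = j by omega] at h3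
      rw [← h3]
      show _ = T (S.om x) _
      have h4 := hv' (S.om x)
      rw [hF.e_om] at h4
      rw [show S.cnt e v (S.E x) - 1 - ((-v (S.E x)).toNat + j) = e x - 1 - j by omega]

lemma BStk.cE (hF : S.Fl e v) (hv' : ∀ x, -v x ≤ e x) (h : BStk S e v ok T) (x : D) (j : ℕ)
    (hj : j < e x) : ofB S e v T x ((v x).toNat + j) =
      ofB S e v T (S.E x) ((-v (S.E x)).toNat + j) := by
  rw [ofB_e hj]
  exact h.west hF hv' x j hj

lemma BStk.cNp (hF : S.Fl e v) (hv : ∀ x, v x ≤ e (S.E.symm x)) (h : BStk S e v ok T)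
    (x : D) (j : ℕ) (hj : (j : ℤ) < v x) : ok x true (ofB S e v T x j)
      (ofB S e v T (S.N x) ((-v (S.N x)).toNat + e (S.r (S.N x)) + j)) := by
  have hτ : v (S.r (S.N x)) = v x := hF.vr x
  have h1 := hF.cnt_in (S.N x)
  have h2 : S.cnt e v (S.N x) = e (S.N x) + (v (S.N x)).toNat + (-v (S.r (S.N x))).toNat := rfl
  rw [hτ] at h1 h2
  have h3 : v x ≤ e (S.N x) := by
    have := hv (S.ta x)
    rw [hF.v_ta, symm_ta, hF.e_om] at this
    exact this
  have h4 := h.rp x j hj
  rw [symm_ta] at h4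
  rw [ofB_n (by omega)]
  have h5 := h.rv (S.N x) ((v x).natAbs - 1 - j) (by omega)
  rw [h5] at h4
  rw [show (-v (S.N x)).toNat + e (S.r (S.N x)) + j = (v (S.N x)).toNat +
    (e (S.N x) - 1 - ((v x).natAbs - 1 - j)) by omega, ofB_e (by omega)]
  exact h4

lemma BStk.cNm (hF : S.Fl e v) (hv' : ∀ x, -v x ≤ e x) (h : BStk S e v ok T)
    (x : D) (j : ℕ) (hj : (j : ℤ) < -v x) : ok x false (ofB S e v T x j)
      (ofB S e v T (S.N x) ((v (S.N x)).toNat + e (S.N x) + j)) := by
  have hτ : v (S.r (S.N x)) = v x := hF.vr x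
  have h2 : S.cnt e v (S.N x) = e (S.N x) + (v (S.N x)).toNat + (-v (S.r (S.N x))).toNat := rfl
  rw [hτ] at h2
  have h4 := h.rm x j hj
  have h5 := ofB_e (S := S) (v := v) (e := e) (T := T) (x := x) (t := j)
    (by have := hv' x; omega)
  rw [show (v x).toNat + j = j by omega] at h5
  rw [h5, ofB_s (by omega)]
  have h6 : S.cnt e v (S.N x) - 1 - ((v (S.N x)).toNat + e (S.N x) + j) =
    (v x).natAbs - 1 - j := by omega
  rw [h6]
  exact h4

lemma BStk.cr (hF : S.Fl e v) (hv : ∀ x, v x ≤ e (S.E.symm x)) (hv' : ∀ x, -v x ≤ e x)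
    (h : BStk S e v ok T) (x : D) (t : ℕ) (ht : t < S.cnt e v x) :
    ofB S e v T (S.r x) t = ofB S e v T x (S.cnt e v x - 1 - t) := by
  have hc : S.cnt e v x = e x + (v x).toNat + (-v (S.r x)).toNat := rfl
  have hc' := hF.cnt_in x
  have hcr := hF.cnt_r x
  have hbx := hv x
  have hbr := hv (S.r x)
  rw [symm_r, hF.e_om] at hbr
  rw [← hF.e_r] at hbx
  have hbx' := hv' x
  have hbr' := hv' (S.r x)
  by_cases h1 : t < (v (S.r x)).toNat
  · rw [ofB_n h1, symm_r, h.rv x t (by omega)]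
    rw [show S.cnt e v x - 1 - t = (v x).toNat + (e x - 1 - t) by omega, ofB_e (by omega)]
  · by_cases h2 : t < (v (S.r x)).toNat + e (S.r x)
    · obtain ⟨j, rfl⟩ := Nat.exists_eq_add_of_le (Nat.le_of_not_lt h1)
      have hj : j < e (S.r x) := by omega
      rw [ofB_e hj]
      have h3 := h.rv (S.E.symm x) j (by rw [← hF.e_r]; exact hj)
      have h4 : S.om (S.E.symm x) = S.r x := by
        unfold om; rw [Equiv.apply_symm_apply]
      rw [h4, ← hF.e_r] at h3
      have h5 := h.west hF hv' (S.E.symm x) (e (S.r x) - 1 - j) (by rw [← hF.e_r]; omega)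
      rw [Equiv.apply_symm_apply] at h5
      rw [h3, h5, show S.cnt e v x - 1 - ((v (S.r x)).toNat + j) =
        (-v x).toNat + (e (S.r x) - 1 - j) by omega]
    · rw [ofB_s (by omega), S.rr, hcr]
      have h5 := ofB_e (S := S) (v := v) (e := e) (T := T) (x := x)
        (t := S.cnt e v x - 1 - t) (by omega)
      rw [show (v x).toNat + (S.cnt e v x - 1 - t) = S.cnt e v x - 1 - t by omega] at h5
      rw [h5]

/-! ## Gluing -/

/-- deep types are periodic -/
lemma deep_par {κ : D → ℕ → Bool} (hper : ∀ x j, K ≤ j → κ x (j + 2) = κ x j) (x : D) {i j : ℕ}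
    (hi : K ≤ i) (hj : K ≤ j) (hp : i % 2 = j % 2) : κ x i = κ x j := by
  have key : ∀ k j, K ≤ j → κ x (j + 2 * k) = κ x j := by
    intro k
    induction k with
    | zero => intro j _; rfl
    | succ k ih =>
      intro j hj
      rw [show j + 2 * (k + 1) = (j + 2 * k) + 2 by ring, hper x _ (by omega), ih j hj]
  rcases le_total i j with h1 | h1
  · have := key ((j - i) / 2) i hi
    rw [show i + 2 * ((j - i) / 2) = j by omega] at this
    exact this.symm
  · have := key ((i - j) / 2) j hj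
    rw [show j + 2 * ((i - j) / 2) = i by omega] at this
    exact this

/-- the deep types of the two sides match if the number of strands has the parity of `ε` -/
def Mt (S : Sys D) (K : ℕ) (κ : D → ℕ → Bool) (ε : ℕ) (x : D) : Prop :=
  ∀ i j, K ≤ i → K ≤ j → (i + j + 1 + ε) % 2 = 0 → κ x i = κ (S.om x) j

/-- finite stacks of types from infinite stacks -/
def glueB (S : Sys D) (e : D → ℕ) (κ : D → ℕ → Bool) (x : D) (j : ℕ) : Bool :=
  if 2 * j < e x then κ x j else κ (S.om x) (e x - 1 - j)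

lemma glueB_top {κ : D → ℕ → Bool} {x : D} {j : ℕ} (h : 2 * j < e x) :
    glueB S e κ x j = κ x j := if_pos h

lemma glueB_bot {κ : D → ℕ → Bool} {x : D} {j : ℕ} (h : ¬ 2 * j < e x) :
    glueB S e κ x j = κ (S.om x) (e x - 1 - j) := if_neg h

theorem bstk_glue {κ : D → ℕ → Bool} (hκ : TTS S.E S.ta v ok κ) (hF : S.Fl e v)
    (hvb : ∀ x, |v x| ≤ K) (he : ∀ x, 4 * K + 4 ≤ e x) (hm : ∀ x, Mt S K κ (e x) x) :
    BStk S e v ok (glueB S e κ) := by
  have hv1 : ∀ x, -(K : ℤ) ≤ v x := fun x => (abs_le.1 (hvb x)).1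
  have hv2 : ∀ x, v x ≤ K := fun x => (abs_le.1 (hvb x)).2
  have hbot : ∀ x {j j' : ℕ}, (j' : ℤ) = j - v (S.om x) → κ (S.om (S.E x)) j = κ (S.om x) j' := by
    intro x j j' hj
    have := hκ.st (S.om (S.E x)) j' j (by rw [E_om_E]; omega)
    rw [E_om_E] at this
    exact this.symm
  have hTU : ∀ x j, j + K < e x → glueB S e κ x j = κ x j := by
    intro x j hj
    by_cases h1 : 2 * j < e x
    · exact glueB_top h1
    · rw [glueB_bot h1]
      have h2 := he x
      exact (hm x j (e x - 1 - j) (by omega) (by omega) (by omega)).symm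
  have hTB : ∀ x j, K ≤ j → j < e x → glueB S e κ x j = κ (S.om x) (e x - 1 - j) := by
    intro x j hj hj'
    by_cases h1 : 2 * j < e x
    · rw [glueB_top h1]
      have h2 := he x
      exact hm x j (e x - 1 - j) (by omega) (by omega) (by omega)
    · exact glueB_bot h1
  refine ⟨?_, ?_, ?_, ?_⟩
  · intro x i h1 h2
    have hb := hF.bE x
    have hex := he x
    have hey := he (S.E x)
    have b1 := hv1 (S.E x)
    have b2 := hv2 (S.E x)
    have b3 := hv1 (S.om x)
    have b4 := hv2 (S.om x)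
    by_cases ha : (v (S.E x)).toNat + i + K < e x ∧ (-v (S.E x)).toNat + i + K < e (S.E x)
    · rw [hTU _ _ ha.1, hTU _ _ ha.2]
      exact (hκ.st x _ _ (by omega)).symm
    · rw [hTB x _ (by omega) h1, hTB (S.E x) _ (by omega) h2]
      exact (hbot x (by omega)).symm
  · intro x j hj
    have h1 := hF.e_om x
    by_cases ha : j + K < e x
    · rw [hTU (S.om x) j (by omega), hTB x (e x - 1 - j) (by omega) (by omega),
        show e x - 1 - (e x - 1 - j) = j by omega]
    · have h2 := he x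
      rw [hTB (S.om x) j (by omega) (by omega), hTU x (e x - 1 - j) (by omega), om_om, h1]
  · intro x j hj
    have b2 := hv2 x
    have h3 := he (S.E.symm x)
    have h4 := he (S.E.symm (S.ta x))
    rw [hTU _ _ (by omega), hTU _ _ (by omega)]
    exact hκ.pop x _ _ (by omega)
  · intro x j hj
    have b2 := hv1 x
    have h3 := he x
    have h4 := he (S.ta x)
    rw [hTU _ _ (by omega), hTU _ _ (by omega)]
    exact hκ.push x _ _ (by omega)

/-! ## The parity -/

lemma Mt.om {κ : D → ℕ → Bool} {ε : ℕ} {x : D} (h : Mt S K κ ε x) : Mt S K κ ε (S.om x) := by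
  intro i j hi hj hp
  rw [om_om]
  exact (h j i hj hi (by omega)).symm

lemma mt_om {κ : D → ℕ → Bool} {ε : ℕ} {x : D} : Mt S K κ ε (S.om x) ↔ Mt S K κ ε x :=
  ⟨fun h => by
    have := h.om
    rwa [om_om] at this, fun h => h.om⟩

lemma mt_E {κ : D → ℕ → Bool} (hκ : TTS S.E S.ta v ok κ)
    (hper : ∀ x j, K ≤ j → κ x (j + 2) = κ x j) (hF : S.Fl e v) (c : ℕ) (x : D) :
    Mt S K κ (e (S.E x) + c) (S.E x) ↔ Mt S K κ (e x + c) x := by
  have hb := hF.bE x
  have hbot : ∀ {j j' : ℕ}, (j' : ℤ) = j - v (S.om x) → κ (S.om (S.E x)) j = κ (S.om x) j' := by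
    intro j j' hj
    have := hκ.st (S.om (S.E x)) j' j (by rw [E_om_E]; omega)
    rw [E_om_E] at this
    exact this.symm
  obtain ⟨M, hM1, hM2⟩ : ∃ M : ℕ, (-(2 * M : ℤ) ≤ v (S.E x) ∧ v (S.E x) ≤ 2 * M) ∧
      (-(2 * M : ℤ) ≤ v (S.om x) ∧ v (S.om x) ≤ 2 * M) :=
    ⟨(v (S.E x)).natAbs + (v (S.om x)).natAbs, by omega, by omega⟩
  constructor
  · intro h i j hi hj hp
    have e1 := hκ.st x (((i + 2 * M : ℕ) : ℤ) - v (S.E x)).toNat (i + 2 * M) (by omega)
    have e2 := hbot (j := ((j + 2 * M : ℕ) + v (S.om x)).toNat) (j' := j + 2 * M) (by omega)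
    rw [deep_par hper x hi (j := i + 2 * M) (by omega) (by omega), ← e1,
      deep_par hper (S.om x) hj (j := j + 2 * M) (by omega) (by omega), ← e2]
    exact h _ _ (by omega) (by omega) (by omega)
  · intro h i j hi hj hp
    have e1 := hκ.st x (i + 2 * M) (((i + 2 * M : ℕ) : ℤ) + v (S.E x)).toNat (by omega)
    have e2 := hbot (j := j + 2 * M) (j' := ((j + 2 * M : ℕ) - v (S.om x)).toNat) (by omega)
    rw [deep_par hper (S.E x) hi (j := i + 2 * M) (by omega) (by omega), e1,
      deep_par hper (S.om (S.E x)) hj (j := j + 2 * M) (by omega) (by omega), e2]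
    exact h _ _ (by omega) (by omega) (by omega)

lemma mt_mod {κ : D → ℕ → Bool} {ε ε' : ℕ} (h : ε % 2 = ε' % 2) {x : D}
    (hm : Mt S K κ ε x) : Mt S K κ ε' x := fun i j hi hj hp => hm i j hi hj (by omega)

/-- **Numbers of strands and types of all strands.** -/
theorem exists_flow_types [Fintype D] [DecidableEq D] (S : Sys D) {v : D → ℤ} {K : ℕ}
    (hr : ∀ x, S.r x ≠ x) (ho : ∀ x, S.r (S.E x) ≠ x) (hta : ∀ x, v (S.ta x) = v x)
    (hPB : PB S.E v K)
    (hsum : ∀ x, ∑ y ∈ Finset.univ.filter (fun y => S.E.SameCycle x y), v y =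
      ∑ y ∈ Finset.univ.filter (fun y => S.E.SameCycle (S.om x) y), v y)
    {ok : D → Bool → Bool → Bool → Prop} {κ : D → ℕ → Bool} (hκ : TTS S.E S.ta v ok κ)
    (hper : ∀ x j, K ≤ j → κ x (j + 2) = κ x j)
    (hm : ∀ x, ∃ y, (S.E.SameCycle x y ∨ S.E.SameCycle (S.om x) y) ∧ ∃ ε : ℕ, ∀ i j, K ≤ i →
      K ≤ j → (i + j + 1 + ε) % 2 = 0 → κ y i = κ (S.om y) j) (B : ℕ) :
    ∃ (e : D → ℕ) (g : D → ℕ → Bool), S.Fl e v ∧ (∀ x, B ≤ e x) ∧ (∀ x, 4 * K + 4 ≤ e x) ∧
      (∀ x, e x ≤ B + 20 * K + 20) ∧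
      (∀ (d : D) (j : ℕ), j < e d →
        g d ((v d).toNat + j) = g (S.E d) ((-v (S.E d)).toNat + j)) ∧
      (∀ (d : D) (t : ℕ), t < S.cnt e v d → g (S.r d) t = g d (S.cnt e v d - 1 - t)) ∧
      (∀ (d : D) (j : ℕ), (j : ℤ) < v d → ok d true (g d j)
        (g (S.N d) ((-v (S.N d)).toNat + e (S.r (S.N d)) + j))) ∧
      (∀ (d : D) (j : ℕ), (j : ℤ) < -v d → ok d false (g d j)
        (g (S.N d) ((v (S.N d)).toNat + e (S.N d) + j))) := by
  classical
  obtain ⟨e, hF, he1, he2⟩ := exists_eS hr ho hta hPB hsum B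
  have hvb : ∀ x, |v x| ≤ K := fun x => by
    have := hPB x 1 (fun i h1 h2 => by omega)
    simpa using this
  -- one additional strand on the rings with the wrong parity
  set t : D → ℕ := fun x => if Mt S K κ (e x) x then 0 else 1 with ht
  have htE : ∀ x, t (S.E x) = t x := fun x => by
    simp only [ht]
    have h := mt_E hκ hper hF 0 x
    rw [Nat.add_zero, Nat.add_zero] at h
    rw [h]
  have hto : ∀ x, t (S.om x) = t x := fun x => by
    simp only [ht]
    rw [hF.e_om, mt_om]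
  have htr : ∀ x, t (S.r x) = t x := fun x => by
    rw [← E_om, htE, hto]
  have ht1 : ∀ x, t x ≤ 1 := fun x => by
    simp only [ht]
    split_ifs <;> omega
  have hF' : S.Fl (fun x => e x + t x) v := by
    refine ⟨fun x => ?_, hF.vr, fun x => ?_⟩
    · show e _ + t _ = e x + t x
      rw [hF.er, htr, htE]
    · show ((e (S.r x) + t (S.r x) : ℕ) : ℤ) + v (S.r x) = ((e x + t x : ℕ) : ℤ) + v x
      have h1 := hF.bal x
      rw [htr]
      push_cast
      omega
  have hinv : ∀ (c : ℕ) (x y : D), (S.E.SameCycle x y ∨ S.E.SameCycle (S.om x) y) →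
      (Mt S K κ (e x + c) x ↔ Mt S K κ (e y + c) y) := by
    intro c x y hxy
    rcases hxy with h | h
    · exact cyc_const (S := S) (Q := fun z => Mt S K κ (e z + c) z)
        (fun z => mt_E hκ hper hF c z) h
    · have h1 := cyc_const (S := S) (Q := fun z => Mt S K κ (e z + c) z)
        (fun z => mt_E hκ hper hF c z) h
      simp only [hF.e_om, mt_om] at h1
      exact h1
  have hmt : ∀ x, Mt S K κ (e x + t x) x := by
    intro x
    by_cases h : Mt S K κ (e x) x
    · have : t x = 0 := by simp only [ht]; rw [if_pos h]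
      rw [this]
      exact h
    · have h1 : t x = 1 := by simp only [ht]; rw [if_neg h]
      rw [h1]
      obtain ⟨y, hy, ε, hε⟩ := hm x
      rw [hinv 1 x y hy]
      have h2 : ¬ Mt S K κ (e y + 0) y := fun h3 => h ((hinv 0 x y hy).2 h3)
      refine mt_mod (ε := ε) ?_ hε
      by_contra hc
      exact h2 (mt_mod (ε := ε) (by omega) hε)
  have hb := bstk_glue hκ hF' hvb (fun x => by
    have := he1 x
    show 4 * K + 4 ≤ e x + t x
    omega) hmt
  have hv : ∀ x, v x ≤ ((fun x => e x + t x) (S.E.symm x) : ℕ) := fun x => by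
    have h1 := abs_le.1 (hvb x)
    have h2 := he1 (S.E.symm x)
    show v x ≤ ((e (S.E.symm x) + t (S.E.symm x) : ℕ) : ℤ)
    omega
  have hv' : ∀ x, -v x ≤ ((fun x => e x + t x) x : ℕ) := fun x => by
    have h1 := abs_le.1 (hvb x)
    have h2 := he1 x
    show -v x ≤ ((e x + t x : ℕ) : ℤ)
    omega
  refine ⟨fun x => e x + t x, ofB S (fun x => e x + t x) v (glueB S (fun x => e x + t x) κ), hF',
    ?_, ?_, ?_, ?_, ?_, ?_, ?_⟩
  · intro x
    have := he1 x
    show B ≤ e x + t x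
    omega
  · intro x
    have := he1 x
    show 4 * K + 4 ≤ e x + t x
    omega
  · intro x
    have h1 := he2 x
    have h2 := ht1 x
    show e x + t x ≤ B + 20 * K + 20
    omega
  · exact fun d j hj => hb.cE hF' hv' d j hj
  · exact fun d j hj => hb.cr hF' hv hv' d j hj
  · exact fun d j hj => hb.cNp hF' hv d j hj
  · exact fun d j hj => hb.cNm hF' hv' d j hj

/-- the same with the sums `2 * sg` over the cycles -/
theorem exists_flow_types_sg [Fintype D] [DecidableEq D] (S : Sys D) {v sg : D → ℤ} {K : ℕ}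
    (hr : ∀ x, S.r x ≠ x) (ho : ∀ x, S.r (S.E x) ≠ x) (hta : ∀ x, v (S.ta x) = v x)
    (hPB : PB S.E v K) (hsgo : ∀ x, sg (S.om x) = sg x)
    (hsum : ∀ d, ∑ x ∈ Finset.univ.filter (fun x => S.E.SameCycle d x), v x = 2 * sg d)
    {ok : D → Bool → Bool → Bool → Prop} {κ : D → ℕ → Bool} (hκ : TTS S.E S.ta v ok κ)
    (hper : ∀ x j, K ≤ j → κ x (j + 2) = κ x j)
    (hm : ∀ x, ∃ y, (S.E.SameCycle x y ∨ S.E.SameCycle (S.om x) y) ∧ ∃ ε : ℕ, ∀ i j, K ≤ i →
      K ≤ j → (i + j + 1 + ε) % 2 = 0 → κ y i = κ (S.om y) j) (B : ℕ) :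
    ∃ (e : D → ℕ) (g : D → ℕ → Bool), S.Fl e v ∧ (∀ x, B ≤ e x) ∧ (∀ x, 4 * K + 4 ≤ e x) ∧
      (∀ x, e x ≤ B + 20 * K + 20) ∧
      (∀ (d : D) (j : ℕ), j < e d →
        g d ((v d).toNat + j) = g (S.E d) ((-v (S.E d)).toNat + j)) ∧
      (∀ (d : D) (t : ℕ), t < S.cnt e v d → g (S.r d) t = g d (S.cnt e v d - 1 - t)) ∧
      (∀ (d : D) (j : ℕ), (j : ℤ) < v d → ok d true (g d j)
        (g (S.N d) ((-v (S.N d)).toNat + e (S.r (S.N d)) + j))) ∧
      (∀ (d : D) (j : ℕ), (j : ℤ) < -v d → ok d false (g d j)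
        (g (S.N d) ((v (S.N d)).toNat + e (S.N d) + j))) :=
  exists_flow_types S hr ho hta hPB (fun x => by rw [hsum, hsum, hsgo]) hκ hper hm B

end Pool.Agent.MP42.EO
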