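import Pool.Agent.MP42.EO.SH
import Pool.Agent.MP42.NE.GFlow4
import Pool.Agent.MP42.NE.Flow

/-!
# The signed flow on facets of a flow on the spine system
-/

set_option autoImplicit false

namespace Pool.Agent.MP42.EO

open Pool.Agent.Helper55.UNF Pool.Agent.Helper55.UNF.GridSolid Pool.Agent.MP42.NE

variable {P : GridSolid}

/-! ## Axes -/

lemma stE_ax (t : P.FSt) : (t.stE.1.d.1 = t.1.d.1 ∧ t.stE.1.e.1 = t.1.e.1) ∨
    (t.stE.1.d.1 = t.1.e.1 ∧ t.stE.1.e.1 = t.1.d.1) := by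
  show ((t.1.stepE P).d.1 = t.1.d.1 ∧ (t.1.stepE P).e.1 = t.1.e.1) ∨
    ((t.1.stepE P).d.1 = t.1.e.1 ∧ (t.1.stepE P).e.1 = t.1.d.1)
  unfold St.stepE
  split_ifs with h1 h2
  · exact Or.inr ⟨rfl, rfl⟩
  · exact Or.inl ⟨rfl, rfl⟩
  · exact Or.inr ⟨rfl, rfl⟩

lemma ax_ne (t : P.FSt) : t.1.d.1 ≠ t.1.e.1 := t.2.2

lemma stN_ax (t : P.FSt) : t.stN.1.e.1 = t.1.e.1 := by rw [FSt.stN_e]

lemma rL_ax (t : P.FSt) : t.rL.1.e.1 ≠ t.1.e.1 := cross_axis_right _ _ t.2.2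

/-- nominal frames -/
def Nom (a b : Fin 3) (t : P.FSt) : Prop := t.1.e.1 ≠ b ∧ ¬ (t.1.e.1 = a ∧ t.1.d.1 = b)

lemma fin_nom : ∀ a b d e : Fin 3, a ≠ b → d ≠ e →
    ((e ≠ b ∧ ¬ (e = a ∧ d = b)) ↔ ((d = a ∧ e ≠ b) ∨ (d = b ∧ e ≠ a) ∨
      (d ≠ a ∧ d ≠ b ∧ e = a))) := by decide

/-- the three kinds of nominal frames -/
lemma nom_cases {a b : Fin 3} (hab : a ≠ b) {t : P.FSt} : Nom a b t ↔
    ((t.1.d.1 = a ∧ t.1.e.1 ≠ b) ∨ (t.1.d.1 = b ∧ t.1.e.1 ≠ a) ∨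
      (t.1.d.1 ≠ a ∧ t.1.d.1 ≠ b ∧ t.1.e.1 = a)) := fin_nom a b _ _ hab (ax_ne t)

lemma fin_rL : ∀ a b d e e' : Fin 3, a ≠ b → d ≠ e → d ≠ e' → e' ≠ e →
    ((e' ≠ b ∧ ¬ (e' = a ∧ d = b)) ↔ ¬ (e ≠ b ∧ ¬ (e = a ∧ d = b))) := by decide

lemma nom_rL_iff {a b : Fin 3} (hab : a ≠ b) (t : P.FSt) : Nom a b t.rL ↔ ¬ Nom a b t :=
  fin_rL a b _ _ _ hab (ax_ne t) (ax_ne t.rL) (rL_ax t)

lemma nom_r2_iff {a b : Fin 3} (t : P.FSt) : Nom a b t.r2 ↔ Nom a b t := Iff.rfl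

lemma nom_rR_iff {a b : Fin 3} (hab : a ≠ b) (t : P.FSt) : Nom a b t.rR ↔ ¬ Nom a b t :=
  nom_rL_iff hab t

section

variable {a b : Fin 3} {hab : a ≠ b}

/-- extension by zero -/
noncomputable def ext0 (e : HD P a → ℕ) (t : P.FSt) : ℕ :=
  open Classical in if h : IsD a t then e ⟨t, h⟩ else 0

/-- extension by zero -/
noncomputable def ext1 (v : HD P a → ℤ) (t : P.FSt) : ℤ :=
  open Classical in if h : IsD a t then v ⟨t, h⟩ else 0

lemma ext0_eq (e : HD P a → ℕ) (x : HD P a) : ext0 e x.1 = e x := dif_pos x.2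

lemma ext1_eq (v : HD P a → ℤ) (x : HD P a) : ext1 v x.1 = v x := dif_pos x.2

/-- A flow on the spine system without strands over closed corners. -/
structure HFl (P : GridSolid) (a b : Fin 3) (hab : a ≠ b) where
  e : HD P a → ℕ
  v : HD P a → ℤ
  fl : (sysH P a b hab).Fl e v
  v0 : ∀ x : HD P a, ¬ Rib b x → v x = 0

namespace HFl

variable (S : HFl P a b hab)

/-- strands over the east side -/
noncomputable def ee (t : P.FSt) : ℕ := ext0 S.e t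

/-- strands over the north side -/
noncomputable def vv (t : P.FSt) : ℤ := ext1 S.v t

variable {S}

lemma ee_eq {t : P.FSt} (h : IsD a t) : S.ee t = S.e ⟨t, h⟩ := dif_pos h

lemma vv_eq {t : P.FSt} (h : IsD a t) : S.vv t = S.v ⟨t, h⟩ := dif_pos h

lemma ee_stE {t : P.FSt} (h : IsD a t) : S.ee t.stE.r2 = S.ee t := by
  have h1 := S.fl.er ⟨t, h⟩
  rw [ee_eq h, ← h1, ← ext0_eq S.e]
  show S.ee _ = S.ee (hr a b (hfx a b t.stE))
  rw [hr_hfx hab]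

lemma vv_stN {t : P.FSt} (h : t.1.e.1 = a) : S.vv t.stN.r2 = S.vv t := by
  have h0 : ¬ t.1.d.1 = a := fun h' => ax_ne t (h'.trans h.symm)
  have h1 := S.fl.vr ⟨t, Or.inr h⟩
  rw [vv_eq (t := t) (Or.inr h), ← h1, ← ext1_eq S.v]
  show S.vv _ = S.vv (hr a b (hN a t))
  rw [hN_wall h0, hr_wall (wall_stN h)]

lemma vv_r2 {t : P.FSt} (h : t.1.d.1 = a) (h' : t.1.e.1 ≠ b) : S.vv t.r2 = S.vv t := by
  have h1 := S.fl.vr ⟨t, Or.inl h⟩
  rw [vv_eq (t := t) (Or.inl h), ← h1, ← ext1_eq S.v]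
  show S.vv _ = S.vv (hr a b (hN a t))
  rw [hN_cap h, hr_non (t := t.rL) h ((rL_b hab h).2 h'), FSt.rL_rL]

lemma vv_zero {t : P.FSt} (h : t.1.d.1 = a) (h' : t.1.e.1 = b) : S.vv t = 0 := by
  rw [vv_eq (Or.inl h)]
  exact S.v0 _ (fun hr => hr ⟨h, h'⟩)

lemma bal_wall {t : P.FSt} (h : t.1.e.1 = a) :
    (S.ee t.r2 : ℤ) + S.vv t.r2 = S.ee t + S.vv t := by
  have h0 : ¬ t.1.d.1 = a := fun h' => ax_ne t (h'.trans h.symm)
  have h1 := S.fl.bal ⟨t, Or.inr h⟩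
  rw [ee_eq (t := t) (Or.inr h), vv_eq (t := t) (Or.inr h), ← h1, ← ext0_eq S.e, ← ext1_eq S.v]
  show _ = (S.ee (hr a b t) : ℤ) + S.vv (hr a b t)
  rw [hr_wall h0]

lemma bal_nom {t : P.FSt} (h : t.1.d.1 = a) (h' : t.1.e.1 ≠ b) :
    (S.ee t.rR : ℤ) = S.ee t + S.vv t := by
  have h1 := S.fl.bal ⟨t, Or.inl h⟩
  rw [ee_eq (t := t) (Or.inl h), vv_eq (t := t) (Or.inl h), ← h1, ← ext0_eq S.e, ← ext1_eq S.v]
  show _ = (S.ee (hr a b t) : ℤ) + S.vv (hr a b t)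
  rw [hr_nom h h', vv_zero (t := t.rR) h ((rR_b hab h).2 h'), add_zero]

lemma bal_non {t : P.FSt} (h : t.1.d.1 = a) (h' : t.1.e.1 ≠ b) :
    (S.ee t.r2 : ℤ) + S.vv t = S.ee t.rL := by
  have h1 := S.fl.bal ⟨t.rL, Or.inl h⟩
  have hb : t.rL.1.e.1 = b := (rL_b hab h).2 h'
  rw [← ext0_eq S.e, ← ext1_eq S.v, ← ext0_eq S.e, ← ext1_eq S.v] at h1
  have h2 : (S.ee (hr a b t.rL) : ℤ) + S.vv (hr a b t.rL) = S.ee t.rL + S.vv t.rL := h1
  rw [hr_non (t := t.rL) h hb, FSt.rL_rL, vv_r2 h h', vv_zero (t := t.rL) h hb] at h2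
  omega

variable (S)

open Classical in
/-- crossings of the west side -/
noncomputable def fA (t : P.FSt) : ℤ := if t.1.d.1 = b then - S.vv t.rL else S.ee t.r2

open Classical in
/-- crossings of the south side -/
noncomputable def fB (t : P.FSt) : ℤ := if t.1.e.1 = a then S.vv t.r2 else S.ee t.rR

variable {S}

lemma fA_b {t : P.FSt} (h : t.1.d.1 = b) : S.fA t = - S.vv t.rL := if_pos h
lemma fA_n {t : P.FSt} (h : t.1.d.1 ≠ b) : S.fA t = S.ee t.r2 := if_neg h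
lemma fB_a {t : P.FSt} (h : t.1.e.1 = a) : S.fB t = S.vv t.r2 := if_pos h
lemma fB_n {t : P.FSt} (h : t.1.e.1 ≠ a) : S.fB t = S.ee t.rR := if_neg h

lemma fA_b' {t : P.FSt} (h : t.1.d.1 = b) : S.fA t.r2 = - S.vv t.rR := by
  rw [fA_b (t := t.r2) h, FSt.r2_rL]
lemma fA_n' {t : P.FSt} (h : t.1.d.1 ≠ b) : S.fA t.r2 = S.ee t := by
  rw [fA_n (t := t.r2) h, FSt.r2_r2]
lemma fB_a' {t : P.FSt} (h : t.1.e.1 = a) : S.fB t.r2 = S.vv t := by
  rw [fB_a (t := t.r2) h, FSt.r2_r2]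
lemma fB_n' {t : P.FSt} (h : t.1.e.1 ≠ a) : S.fB t.r2 = S.ee t.rL := by
  rw [fB_n (t := t.r2) h, FSt.r2_rR]

lemma fin_third : ∀ a b d e x : Fin 3, a ≠ b → d = b → e ≠ a → d ≠ e → x ≠ e → d ≠ x → x = a := by
  decide

/-- on the facets orthogonal to `b` the dart is `t.rL` -/
lemma rL_dart (hab : a ≠ b) {t : P.FSt} (h : t.1.d.1 = b) (h' : t.1.e.1 ≠ a) :
    t.rL.1.e.1 = a := fin_third a b _ _ _ hab h h' (ax_ne t) (rL_ax t) (ax_ne t.rL)

lemma fin_k1 : ∀ a b d e d' e' : Fin 3, a ≠ b → d ≠ b → ((d = a ∧ e ≠ b) ∨ (d ≠ a ∧ e = a)) →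
    ((d' = d ∧ e' = e) ∨ (d' = e ∧ e' = d)) → d ≠ e →
    (e' ≠ b ∧ ¬ (e' = a ∧ d' = b)) ∧ d' ≠ b := by decide

lemma fin_k2 : ∀ a b d e d' : Fin 3, a ≠ b → e ≠ a → (d = a ∨ d = b) → e ≠ b → d' ≠ e →
    (e ≠ b ∧ ¬ (e = a ∧ d' = b)) := by decide

lemma rR_e (t : P.FSt) : t.rR.1.e.1 = t.rL.1.e.1 := rfl

/-- the facet flow -/
noncomputable def gf (S : HFl P a b hab) : GFlow P where
  nom := Nom a b
  nom_r2 := fun _ h => h
  nom_ex := fun F => by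
    obtain ⟨t, ht⟩ : ∃ t : P.FSt, t.facet = F := ⟨can F, can_facet F⟩
    by_cases h : Nom a b t
    · exact ⟨t, h, ht⟩
    · exact ⟨t.rL, (nom_rL_iff hab t).2 h, ht⟩
  nom_two := fun s t hs ht h => by
    rcases frames h with h1 | h1 | h1 | h1
    · exact Or.inl h1
    · rw [h1, nom_rL_iff hab] at hs
      exact absurd ht hs
    · exact Or.inr h1
    · rw [h1, nom_rR_iff hab] at hs
      exact absurd ht hs
  A := S.fA
  B := S.fB
  c := fun _ => 0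
  c1 := fun _ => Nat.zero_le _
  bal := fun t h => by
    rcases (nom_cases hab).1 h with ⟨h1, h2⟩ | ⟨h1, h2⟩ | ⟨h1, h2, h3⟩
    · have h4 : t.1.e.1 ≠ a := fun h' => ax_ne t (h1.trans h'.symm)
      have h5 : t.1.d.1 ≠ b := fun h' => hab (h1.symm.trans h')
      have h6 := bal_nom (S := S) h1 h2
      have h7 := bal_non (S := S) h1 h2
      rw [fA_n h5, fB_n h4, fA_n' h5, fB_n' h4]
      push_cast
      omega
    · have h3 := rL_dart hab h1 h2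
      have h4 := bal_wall (S := S) h3
      rw [FSt.rL_r2] at h4
      rw [fA_b h1, fB_n h2, fA_b' h1, fB_n' h2]
      push_cast
      omega
    · have h4 := bal_wall (S := S) h3
      rw [fA_n h2, fB_a h3, fA_n' h2, fB_a' h3]
      push_cast
      omega
  blk := fun t h => by
    rcases (nom_cases hab).1 h with ⟨h1, h2⟩ | ⟨h1, h2⟩ | ⟨h1, h2, h3⟩
    · have h5 : t.1.d.1 ≠ b := fun h' => hab (h1.symm.trans h')
      left
      rw [fA_n h5, fA_n' h5]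
      omega
    · right
      rw [fB_n h2, fB_n' h2]
      omega
    · left
      rw [fA_n h2, fA_n' h2]
      omega
  east := fun t h _ => by
    have key : t.1.d.1 ≠ b → IsD a t → Nom a b t.stE → t.stE.1.d.1 ≠ b →
        (Nom a b t.stE ∧ S.fA t.stE = S.fA t.r2) := by
      intro h2 h3 h4 h5
      refine ⟨h4, ?_⟩
      rw [fA_n h5, fA_n' h2, ee_stE h3]
    rcases (nom_cases hab).1 h with ⟨h1, h2⟩ | ⟨h1, h2⟩ | ⟨h1, h2, h3⟩
    · have h5 : t.1.d.1 ≠ b := fun h' => hab (h1.symm.trans h')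
      obtain ⟨h6, h7⟩ := fin_k1 a b _ _ _ _ hab h5 (Or.inl ⟨h1, h2⟩) (stE_ax t) (ax_ne t)
      exact Or.inl (key h5 (Or.inl h1) h6 h7)
    · -- facets orthogonal to `b`
      have h3 := rL_dart hab h1 h2
      have h4 : t.rR.1.e.1 = a := h3
      have h5 := vv_stN (S := S) h4
      have h6 : t.rR.stN.r2 = t.stE.rL := by
        show t.rR.rL.stE.rR.r2 = t.stE.rL
        rw [FSt.rR_rL, FSt.rR_r2]
      rw [h6] at h5
      rcases stE_ax t with ⟨h7, h8⟩ | ⟨h7, h8⟩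
      · left
        refine ⟨(nom_cases hab).2 (Or.inr (Or.inl ⟨h7.trans h1, by rw [h8]; exact h2⟩)), ?_⟩
        rw [fA_b (h7.trans h1), fA_b' h1, h5]
      · right
        have h9 : t.stE.1.d.1 ≠ b := by
          rw [h7]
          intro h'
          exact ax_ne t (h1.trans h'.symm)
        have h10 : t.stE.rL.1.e.1 = a := by
          have e1 : t.stE.1.e.1 = b := h8.trans h1
          have e2 : t.stE.1.d.1 ≠ a := by rw [h7]; exact h2
          have key2 : ∀ a b d e x : Fin 3, a ≠ b → e = b → d ≠ a → d ≠ e → x ≠ e → d ≠ x →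
            x = a := by decide
          exact key2 a b _ _ _ hab e1 e2 (ax_ne _) (rL_ax t.stE) (ax_ne t.stE.rL)
        refine ⟨(nom_cases hab).2 (Or.inr (Or.inr ⟨?_, h9, h10⟩)), ?_⟩
        · show t.stE.1.d.1 ≠ a
          rw [h7]; exact h2
        · rw [fB_a' h10, fA_b' h1, h5, neg_neg]
    · obtain ⟨h6, h7⟩ := fin_k1 a b _ _ _ _ hab h2 (Or.inr ⟨h1, h3⟩) (stE_ax t) (ax_ne t)
      exact Or.inl (key h2 (Or.inr h3) h6 h7)
  north := fun t h _ => by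
    have key : (t.1.d.1 = a ∨ t.1.d.1 = b) → t.1.e.1 ≠ a → t.1.e.1 ≠ b → IsD a t.rL →
        (Nom a b t.stN ∧ S.fB t.stN = S.fB t.r2) := by
      intro h1 h2 h3 h4
      have h5 : t.stN.1.e.1 = t.1.e.1 := stN_ax t
      refine ⟨?_, ?_⟩
      · have := fin_k2 a b _ _ t.stN.1.d.1 hab h2 h1 h3 (by rw [← h5]; exact ax_ne t.stN)
        rw [← h5] at this
        exact this
      · rw [fB_n (by rw [h5]; exact h2), fB_n' h2, ← ee_stE h4]
        have e1 : t.stN.rR = t.rL.stE.r2 := by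
          show t.rL.stE.rR.rR = t.rL.stE.r2
          rw [FSt.rR_rR]
        rw [e1]
    rcases (nom_cases hab).1 h with ⟨h1, h2⟩ | ⟨h1, h2⟩ | ⟨h1, h2, h3⟩
    · exact Or.inl (key (Or.inl h1) (fun h' => ax_ne t (h1.trans h'.symm)) h2 (Or.inl h1))
    · exact Or.inl (key (Or.inr h1) h2 (fun h' => ax_ne t (h1.trans h'.symm))
        (Or.inr (rL_dart hab h1 h2)))
    · have h4 : t.stN.1.e.1 = a := (stN_ax t).trans h3
      have h5 := vv_stN (S := S) h3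
      by_cases h6 : t.stN.1.d.1 = b
      · right
        refine ⟨?_, ?_⟩
        · rw [nom_rR_iff hab]
          intro h'
          exact h'.2 ⟨h4, h6⟩
        · have h7 : t.stN.rR.r2 = t.stN.rL := FSt.rR_r2 _
          rw [h7, fA_b (t := t.stN.rL) h6, FSt.rL_rL, fB_a' h3, h5]
      · left
        refine ⟨⟨by rw [h4]; exact hab, fun h' => h6 h'.2⟩, ?_⟩
        rw [fB_a h4, fB_a' h3, h5]
  cpos := fun _ _ h => by exact absurd h (by decide)
  pass := fun _ _ h => by exact absurd h (by decide)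
  uniq1 := fun _ _ h => by exact absurd h (by decide)
  uniq2 := fun _ _ h => by exact absurd h (by decide)
  uniq3 := fun _ _ h => by exact absurd h (by decide)

end HFl

end

end Pool.Agent.MP42.EO
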