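import Pool.Agent.MP42.EO.GF

/-!
# The strands of the facet flow and of the spine flow
-/

set_option autoImplicit false

namespace Pool.Agent.MP42.EO

open Pool.Agent.Helper55.UNF Pool.Agent.Helper55.UNF.GridSolid Pool.Agent.MP42.NE

variable {P : GridSolid} {a b : Fin 3} {hab : a ≠ b}

/-- walls with nominal east direction `a` -/
def KX (a b : Fin 3) (t : P.FSt) : Prop := t.1.d.1 ≠ a ∧ t.1.d.1 ≠ b ∧ t.1.e.1 = a
/-- nominal frames of the facets orthogonal to `b` -/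
def KZ (a b : Fin 3) (t : P.FSt) : Prop := t.1.d.1 = b ∧ t.1.e.1 ≠ a
/-- nominal frames of the facets orthogonal to `a` -/
def KY (a b : Fin 3) (t : P.FSt) : Prop := t.1.d.1 = a ∧ t.1.e.1 ≠ b

lemma nom3 (hab : a ≠ b) {t : P.FSt} : Nom a b t ↔ (KY a b t ∨ KZ a b t ∨ KX a b t) :=
  nom_cases hab

lemma KX.nom {t : P.FSt} (h : KX a b t) (hab : a ≠ b) : Nom a b t := (nom3 hab).2 (Or.inr (Or.inr h))
lemma KZ.nom {t : P.FSt} (h : KZ a b t) (hab : a ≠ b) : Nom a b t := (nom3 hab).2 (Or.inr (Or.inl h))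
lemma KY.nom {t : P.FSt} (h : KY a b t) (hab : a ≠ b) : Nom a b t := (nom3 hab).2 (Or.inl h)

lemma KX.r2 {t : P.FSt} (h : KX a b t) : KX a b t.r2 := h
lemma KZ.r2 {t : P.FSt} (h : KZ a b t) : KZ a b t.r2 := h
lemma KY.r2 {t : P.FSt} (h : KY a b t) : KY a b t.r2 := h

lemma KY.db {t : P.FSt} (h : KY a b t) (hab : a ≠ b) : t.1.d.1 ≠ b := fun h' => hab (h.1.symm.trans h')
lemma KY.ea {t : P.FSt} (h : KY a b t) : t.1.e.1 ≠ a := fun h' => ax_ne t (h.1.trans h'.symm)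

lemma KX.isD {t : P.FSt} (h : KX a b t) : IsD a t := Or.inr h.2.2
lemma KY.isD {t : P.FSt} (h : KY a b t) : IsD a t := Or.inl h.1
lemma KY.isD' {t : P.FSt} (h : KY a b t) : IsD a t.rL := Or.inl h.1
lemma KZ.isD {t : P.FSt} (h : KZ a b t) (hab : a ≠ b) : IsD a t.rL :=
  Or.inr (HFl.rL_dart hab h.1 h.2)

namespace HFl

variable {S : HFl P a b hab}

lemma numX {t : P.FSt} (h : KX a b t) : S.gf.ni t = (-S.vv t).toNat ∧ S.gf.wi t = S.ee t.r2 ∧
    S.gf.si t = (S.vv t.r2).toNat ∧ S.gf.ei t = 0 ∧ S.gf.wo t = 0 ∧ S.gf.no t = (S.vv t).toNat ∧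
    S.gf.eo t = S.ee t ∧ S.gf.so t = (-S.vv t.r2).toNat := by
  have e1 : S.gf.A t = S.ee t.r2 := fA_n h.2.1
  have e2 : S.gf.A t.r2 = S.ee t := fA_n' h.2.1
  have e3 : S.gf.B t = S.vv t.r2 := fB_a h.2.2
  have e4 : S.gf.B t.r2 = S.vv t := fB_a' h.2.2
  unfold GFlow.ni GFlow.wi GFlow.si GFlow.ei GFlow.wo GFlow.no GFlow.eo GFlow.so
  rw [e1, e2, e3, e4]
  refine ⟨rfl, ?_, rfl, ?_, ?_, rfl, ?_, rfl⟩ <;> omega

lemma numZ {t : P.FSt} (h : KZ a b t) : S.gf.ni t = 0 ∧ S.gf.wi t = (-S.vv t.rL).toNat ∧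
    S.gf.si t = S.ee t.rR ∧ S.gf.ei t = (S.vv t.rR).toNat ∧ S.gf.wo t = (S.vv t.rL).toNat ∧
    S.gf.no t = S.ee t.rL ∧ S.gf.eo t = (-S.vv t.rR).toNat ∧ S.gf.so t = 0 := by
  have e1 : S.gf.A t = -S.vv t.rL := fA_b h.1
  have e2 : S.gf.A t.r2 = -S.vv t.rR := fA_b' h.1
  have e3 : S.gf.B t = S.ee t.rR := fB_n h.2
  have e4 : S.gf.B t.r2 = S.ee t.rL := fB_n' h.2
  unfold GFlow.ni GFlow.wi GFlow.si GFlow.ei GFlow.wo GFlow.no GFlow.eo GFlow.so
  rw [e1, e2, e3, e4]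
  refine ⟨?_, rfl, ?_, ?_, ?_, ?_, rfl, ?_⟩ <;> omega

lemma numY {t : P.FSt} (h : KY a b t) : S.gf.ni t = 0 ∧ S.gf.wi t = S.ee t.r2 ∧
    S.gf.si t = S.ee t.rR ∧ S.gf.ei t = 0 ∧ S.gf.wo t = 0 ∧ S.gf.no t = S.ee t.rL ∧
    S.gf.eo t = S.ee t ∧ S.gf.so t = 0 := by
  have e1 : S.gf.A t = S.ee t.r2 := fA_n (h.db hab)
  have e2 : S.gf.A t.r2 = S.ee t := fA_n' (h.db hab)
  have e3 : S.gf.B t = S.ee t.rR := fB_n h.ea
  have e4 : S.gf.B t.r2 = S.ee t.rL := fB_n' h.ea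
  unfold GFlow.ni GFlow.wi GFlow.si GFlow.ei GFlow.wo GFlow.no GFlow.eo GFlow.so
  rw [e1, e2, e3, e4]
  refine ⟨?_, ?_, ?_, ?_, ?_, ?_, ?_, ?_⟩ <;> omega

lemma c0 (t : P.FSt) : S.gf.c t = 0 := rfl

lemma M_X {t : P.FSt} (h : KX a b t) :
    S.gf.M t = S.ee t + (S.vv t).toNat + (-S.vv t.r2).toNat := by
  obtain ⟨h1, h2, h3, h4, h5, h6, h7, h8⟩ := numX (S := S) h
  rw [GFlow.M_out (h.nom hab), h5, h6, h7, h8, c0]
  omega

lemma M_Z {t : P.FSt} (h : KZ a b t) :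
    S.gf.M t = S.ee t.rL + (S.vv t.rL).toNat + (-S.vv t.rR).toNat := by
  obtain ⟨h1, h2, h3, h4, h5, h6, h7, h8⟩ := numZ (S := S) h
  rw [GFlow.M_out (h.nom hab), h5, h6, h7, h8, c0]
  omega

lemma M_Y {t : P.FSt} (h : KY a b t) : S.gf.M t = S.ee t.rL + S.ee t := by
  obtain ⟨h1, h2, h3, h4, h5, h6, h7, h8⟩ := numY (S := S) h
  rw [GFlow.M_out (h.nom hab), h5, h6, h7, h8, c0]
  omega

variable (S)

/-- shift of the strands of the southeast half -/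
noncomputable def sh (t : P.FSt) : ℕ := min (S.ee t.rL) (S.ee t.r2)

open Classical in
/-- the facet strand of a spine strand -/
noncomputable def F (t : P.FSt) (j : ℕ) : P.FSt × ℕ :=
  if t.1.d.1 = a then (if t.1.e.1 = b then (t.rR, j) else (t, j + S.sh t))
  else if t.1.d.1 = b then (t.rR, j) else (t, j)

variable {S}

lemma F_X {t : P.FSt} (h : KX a b t) (j : ℕ) : S.F t j = (t, j) := by
  unfold F; rw [if_neg h.1, if_neg h.2.1]

lemma F_Y {t : P.FSt} (h : KY a b t) (j : ℕ) : S.F t j = (t, j + S.sh t) := by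
  unfold F; rw [if_pos h.1, if_neg h.2]

lemma F_N (hab : a ≠ b) {t : P.FSt} (h : KY a b t) (j : ℕ) : S.F t.rL j = (t, j) := by
  unfold F
  have h1 : t.rL.1.d.1 = a := h.1
  rw [if_pos h1, if_pos ((rL_b hab h.1).2 h.2), FSt.rL_rR]

lemma F_Z (hab : a ≠ b) {t : P.FSt} (h : KZ a b t) (j : ℕ) : S.F t.rL j = (t, j) := by
  unfold F
  have h1 : t.rL.1.d.1 = b := h.1
  rw [if_neg (by rw [h1]; exact hab.symm), if_pos h1, FSt.rL_rR]

lemma sh_v {t : P.FSt} (h : KY a b t) : S.sh t + (S.vv t).toNat = S.ee t.rL ∧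
    S.sh t + (-S.vv t).toNat = S.ee t.r2 := by
  have h1 := bal_non (S := S) h.1 h.2
  unfold sh
  omega

lemma sh_r2 {t : P.FSt} (h : KY a b t) : S.sh t.r2 + (-S.vv t).toNat = S.ee t ∧
    S.sh t.r2 + (S.vv t).toNat = S.ee t.rR := by
  have h1 := bal_nom (S := S) h.1 h.2
  unfold sh
  rw [FSt.r2_rL, FSt.r2_r2]
  omega

/-- the four kinds of darts -/
lemma dart_cases (hab : a ≠ b) {x : P.FSt} (h : IsD a x) :
    KX a b x ∨ (∃ t, KZ a b t ∧ x = t.rL) ∨ KY a b x ∨ (∃ t, KY a b t ∧ x = t.rL) := by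
  by_cases h1 : x.1.d.1 = a
  · by_cases h2 : x.1.e.1 = b
    · right; right; right
      exact ⟨x.rR, ⟨h1, fun h3 => (rR_b hab h1).1 h3 h2⟩, (FSt.rR_rL x).symm⟩
    · exact Or.inr (Or.inr (Or.inl ⟨h1, h2⟩))
  · have h3 : x.1.e.1 = a := h.resolve_left h1
    by_cases h2 : x.1.d.1 = b
    · right; left
      refine ⟨x.rR, ⟨h2, ?_⟩, (FSt.rR_rL x).symm⟩
      intro h4
      have := rL_ax x
      rw [← rR_e, h4, h3] at this
      exact this rfl
    · exact Or.inl ⟨h1, h2, h3⟩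

/-- number of strands at a dart -/
noncomputable def cn (S : HFl P a b hab) (t : P.FSt) : ℕ :=
  S.ee t + (S.vv t).toNat + (-S.vv (hr a b t)).toNat

lemma cn_eq (x : HD P a) : S.cn x.1 = (sysH P a b hab).cnt S.e S.v x := by
  unfold cn Sys.cnt ee vv
  rw [ext0_eq, ext1_eq]
  have h1 : ext1 S.v (hr a b x.1) = S.v ((sysH P a b hab).r x) :=
    ext1_eq S.v ((sysH P a b hab).r x)
  rw [h1]

lemma F_va {x : P.FSt} (h : IsD a x) {j : ℕ} (hj : j < S.cn x) : S.gf.Va (S.F x j) := by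
  unfold cn at hj
  rcases dart_cases hab h with h1 | ⟨t, h1, rfl⟩ | h1 | ⟨t, h1, rfl⟩
  · rw [F_X h1]
    refine ⟨h1.nom hab, ?_⟩
    show j < S.gf.M x
    rw [hr_wall h1.1] at hj
    rw [M_X h1]; exact hj
  · rw [F_Z hab h1]
    refine ⟨h1.nom hab, ?_⟩
    show j < S.gf.M t
    have h2 : ¬ t.rL.1.d.1 = a := fun h' => hab (h'.symm.trans h1.1)
    rw [hr_wall h2, FSt.rL_r2] at hj
    rw [M_Z h1]; exact hj
  · rw [F_Y h1]
    refine ⟨h1.nom hab, ?_⟩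
    show j + S.sh x < S.gf.M x
    obtain ⟨h2, h3⟩ := sh_v (S := S) h1
    rw [hr_nom h1.1 h1.2, vv_zero (t := x.rR) h1.1 ((rR_b hab h1.1).2 h1.2)] at hj
    rw [M_Y h1]
    omega
  · rw [F_N hab h1]
    refine ⟨h1.nom hab, ?_⟩
    show j < S.gf.M t
    obtain ⟨h2, h3⟩ := sh_r2 (S := S) h1
    have h4 : t.rL.1.e.1 = b := (rL_b hab h1.1).2 h1.2
    have h5 : t.rL.1.d.1 = a := h1.1
    rw [hr_non h5 h4, FSt.rL_rL, vv_r2 h1.1 h1.2, vv_zero h5 h4] at hj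
    rw [M_Y h1]
    omega

/-- reversing a strand -/
lemma F_r {x : P.FSt} (h : IsD a x) {j : ℕ} (hj : j < S.cn x) :
    S.F (hr a b x) j = S.gf.rv (S.F x (S.cn x - 1 - j)) := by
  unfold cn at hj ⊢
  unfold GFlow.rv
  rcases dart_cases hab h with h1 | ⟨t, h1, rfl⟩ | h1 | ⟨t, h1, rfl⟩
  · rw [F_X h1, hr_wall h1.1] at *
    rw [F_X h1.r2]
    have := M_X (S := S) h1
    exact Prod.ext rfl (by dsimp only; omega)
  · have h2 : ¬ t.rL.1.d.1 = a := fun h' => hab (h'.symm.trans h1.1)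
    have h3 : t.rL.r2 = t.r2.rL := by rw [FSt.rL_r2, FSt.r2_rL]
    rw [F_Z hab h1, hr_wall h2] at *
    rw [h3, F_Z hab h1.r2]
    have := M_Z (S := S) h1
    rw [← FSt.rL_r2, h3] at this
    rw [h3] at hj
    exact Prod.ext rfl (by dsimp only; omega)
  · rw [hr_nom h1.1 h1.2, vv_zero (t := x.rR) h1.1 ((rR_b hab h1.1).2 h1.2)] at *
    rw [F_Y h1]
    have h3 : x.rR = x.r2.rL := by rw [FSt.r2_rL]
    rw [h3, F_N hab h1.r2]
    obtain ⟨h4, h5⟩ := sh_v (S := S) h1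
    have := M_Y (S := S) h1
    exact Prod.ext rfl (by dsimp only; omega)
  · obtain ⟨h2, h3⟩ := sh_r2 (S := S) h1
    have h4 : t.rL.1.e.1 = b := (rL_b hab h1.1).2 h1.2
    have h5 : t.rL.1.d.1 = a := h1.1
    rw [hr_non h5 h4, FSt.rL_rL, vv_r2 h1.1 h1.2, vv_zero h5 h4] at *
    rw [F_N hab h1, F_Y h1.r2]
    have := M_Y (S := S) h1
    exact Prod.ext rfl (by dsimp only; omega)

/-! ## Steps along the rings -/

lemma kind_stE (hab : a ≠ b) {t : P.FSt} (h : KX a b t ∨ KY a b t) :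
    (KX a b t.stE ∧ hE a b t = t.stE) ∨ (KY a b t.stE ∧ hE a b t = t.stE.rL) := by
  have h0 : ∀ a b d e d' e' : Fin 3, a ≠ b → ((d ≠ a ∧ d ≠ b ∧ e = a) ∨ (d = a ∧ e ≠ b)) →
      d ≠ e → ((d' = d ∧ e' = e) ∨ (d' = e ∧ e' = d)) →
      ((d' ≠ a ∧ d' ≠ b ∧ e' = a) ∨ (d' = a ∧ e' ≠ b)) := by decide
  rcases h0 a b _ _ _ _ hab h (ax_ne t) (stE_ax t) with h1 | h1
  · exact Or.inl ⟨h1, hfx_wall h1.1⟩
  · exact Or.inr ⟨h1, hfx_nom h1.1 h1.2⟩

lemma kind_stN (hab : a ≠ b) {t : P.FSt} (h : KZ a b t ∨ KY a b t) :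
    (KZ a b t.stN ∧ hE a b t.rL = t.stN.rL) ∨ (KY a b t.stN ∧ hE a b t.rL = t.stN) := by
  have h0 : ∀ a b d e d' : Fin 3, a ≠ b → ((d = b ∧ e ≠ a) ∨ (d = a ∧ e ≠ b)) →
      d ≠ e → d' ≠ e → ((d' = b ∧ e ≠ a) ∨ (d' = a ∧ e ≠ b)) := by decide
  have h2 : t.stN.1.d.1 ≠ t.1.e.1 := by rw [← stN_ax t]; exact ax_ne _
  have h3 : t.rL.stE = t.stN.rL := stE_rL t
  have h1 := h0 a b _ _ _ hab h (ax_ne t) h2
  rw [← stN_ax t] at h1
  rcases h1 with h1 | h1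
  · refine Or.inl ⟨h1, ?_⟩
    show hfx a b t.rL.stE = _
    rw [h3]
    exact hfx_wall (t := t.stN.rL) (fun h' => hab (h'.symm.trans h1.1))
  · refine Or.inr ⟨h1, ?_⟩
    show hfx a b t.rL.stE = _
    have h4 : t.stN.rL.1.d.1 = a := h1.1
    rw [h3, hfx_non h4 ((rL_b hab h1.1).2 h1.2), FSt.rL_rR]

/-- the strand at the entrance of the next dart, east sides -/
lemma F_inE {t : P.FSt} (h : KX a b t ∨ KY a b t) (i : ℕ) :
    S.F (hE a b t) ((-S.vv (hE a b t)).toNat + i) = (t.stE, S.gf.ni t.stE + i) := by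
  rcases kind_stE hab h with ⟨h1, h2⟩ | ⟨h1, h2⟩
  · rw [h2, F_X h1, (numX (S := S) h1).1]
  · have h4 : t.stE.rL.1.e.1 = b := (rL_b hab h1.1).2 h1.2
    rw [h2, F_N hab h1, vv_zero (t := t.stE.rL) h1.1 h4, (numY (S := S) h1).1]
    rfl

/-- the strand at the entrance of the next dart, north sides -/
lemma F_inN {t : P.FSt} (h : KZ a b t ∨ KY a b t) (i : ℕ) :
    S.F (hE a b t.rL) ((-S.vv (hE a b t.rL)).toNat + i) =
      (t.stN, S.gf.ni t.stN + S.gf.wi t.stN + S.gf.c t.stN + i) := by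
  rcases kind_stN hab h with ⟨h1, h2⟩ | ⟨h1, h2⟩
  · obtain ⟨n1, n2, -⟩ := numZ (S := S) h1
    rw [h2, F_Z hab h1, n1, n2, c0]
    exact Prod.ext rfl (by dsimp only; omega)
  · obtain ⟨n1, n2, -⟩ := numY (S := S) h1
    obtain ⟨h3, h4⟩ := sh_v (S := S) h1
    rw [h2, F_Y h1, n1, n2, c0]
    exact Prod.ext rfl (by dsimp only; omega)

/-- the ring steps -/
lemma F_E {x : P.FSt} (h : IsD a x) {i : ℕ} (hi : i < S.ee x) :
    S.gf.sc (S.F x ((S.vv x).toNat + i)) = S.F (hE a b x) ((-S.vv (hE a b x)).toNat + i) ∧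
    ((KX a b x ∨ KY a b x) → S.gf.XE (S.F x ((S.vv x).toNat + i))) ∧
    ((∃ t, (KZ a b t ∨ KY a b t) ∧ x = t.rL) → S.gf.XN (S.F x ((S.vv x).toNat + i))) := by
  have hcn : ∀ x : P.FSt, IsD a x → i < S.ee x → S.gf.Va (S.F x ((S.vv x).toNat + i)) :=
    fun x h hi => F_va h (by unfold cn; omega)
  have keyE : ∀ x : P.FSt, IsD a x → i < S.ee x → (KX a b x ∨ KY a b x) →
      (S.F x ((S.vv x).toNat + i)).1 = x →
      (S.F x ((S.vv x).toNat + i)).2 = S.gf.wo x + S.gf.no x + i → S.gf.eo x = S.ee x →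
      S.gf.sc (S.F x ((S.vv x).toNat + i)) = S.F (hE a b x) ((-S.vv (hE a b x)).toNat + i) ∧
      S.gf.XE (S.F x ((S.vv x).toNat + i)) := by
    intro x h hi hk h1 h2 h3
    have hva := hcn x h hi
    have hx : S.gf.XE (S.F x ((S.vv x).toNat + i)) := by
      unfold GFlow.XE
      rw [h1, h2, h3, c0]
      omega
    have hn : Nom a b x := by
      rcases hk with h' | h'
      · exact h'.nom hab
      · exact h'.nom hab
    have hst : Nom a b x.stE := by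
      rcases kind_stE hab hk with ⟨h', -⟩ | ⟨h', -⟩
      · exact h'.nom hab
      · exact h'.nom hab
    have hv : S.gf.A x.stE = S.gf.A x.r2 := by
      rcases S.gf.east x hn (by
        have := GFlow.XE_pos hx
        rw [h1] at this
        omega) with h' | h'
      · exact h'.2
      · exact absurd h'.1 (GFlow.not_rL (A := S.gf) hst)
    refine ⟨?_, hx⟩
    have e1 := GFlow.sc_E hva hx (by rw [h1]; exact hst) (by rw [h1]; exact hv)
    rw [e1, F_inE hk, h1, h2, c0]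
    exact Prod.ext rfl (by dsimp only; omega)
  have keyN : ∀ t : P.FSt, IsD a t.rL → i < S.ee t.rL → (KZ a b t ∨ KY a b t) →
      (S.F t.rL ((S.vv t.rL).toNat + i)).1 = t →
      (S.F t.rL ((S.vv t.rL).toNat + i)).2 = S.gf.wo t + i → S.gf.no t = S.ee t.rL →
      S.gf.sc (S.F t.rL ((S.vv t.rL).toNat + i)) =
        S.F (hE a b t.rL) ((-S.vv (hE a b t.rL)).toNat + i) ∧
      S.gf.XN (S.F t.rL ((S.vv t.rL).toNat + i)) := by
    intro t h hi hk h1 h2 h3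
    have hva := hcn t.rL h hi
    have hx : S.gf.XN (S.F t.rL ((S.vv t.rL).toNat + i)) := by
      unfold GFlow.XN
      rw [h1, h2, h3]
      omega
    have hn : Nom a b t := by
      rcases hk with h' | h'
      · exact h'.nom hab
      · exact h'.nom hab
    have hst : Nom a b t.stN := by
      rcases kind_stN hab hk with ⟨h', -⟩ | ⟨h', -⟩
      · exact h'.nom hab
      · exact h'.nom hab
    have hv : S.gf.B t.stN = S.gf.B t.r2 := by
      rcases S.gf.north t hn (by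
        have := GFlow.XN_pos hx
        rw [h1] at this
        omega) with h' | h'
      · exact h'.2
      · exact absurd h'.1 (GFlow.not_rR (A := S.gf) hst)
    refine ⟨?_, hx⟩
    have e1 := GFlow.sc_N hva hx (by rw [h1]; exact hst) (by rw [h1]; exact hv)
    rw [e1, F_inN hk, h1, h2]
    exact Prod.ext rfl (by dsimp only; omega)
  have hnot : ∀ {x : P.FSt}, (KX a b x ∨ KY a b x) →
      ¬ ∃ t, (KZ a b t ∨ KY a b t) ∧ x = t.rL := by
    rintro x hx ⟨t, ht, rfl⟩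
    have h1 : Nom a b t.rL := by
      rcases hx with h' | h'
      · exact h'.nom hab
      · exact h'.nom hab
    have h2 : Nom a b t := by
      rcases ht with h' | h'
      · exact h'.nom hab
      · exact h'.nom hab
    exact (nom_rL_iff hab t).1 h1 h2
  rcases dart_cases hab h with h1 | ⟨t, h1, rfl⟩ | h1 | ⟨t, h1, rfl⟩
  · obtain ⟨n1, n2, n3, n4, n5, n6, n7, n8⟩ := numX (S := S) h1
    have := keyE x h hi (Or.inl h1) (by rw [F_X h1]) (by rw [F_X h1, n5, n6]; simp) n7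
    exact ⟨this.1, fun _ => this.2, fun h' => absurd h' (hnot (Or.inl h1))⟩
  · obtain ⟨n1, n2, n3, n4, n5, n6, n7, n8⟩ := numZ (S := S) h1
    have := keyN t h hi (Or.inl h1) (by rw [F_Z hab h1]) (by rw [F_Z hab h1, n5]) n6
    exact ⟨this.1, fun h' => absurd ⟨t, Or.inl h1, rfl⟩ (hnot h'), fun _ => this.2⟩
  · obtain ⟨n1, n2, n3, n4, n5, n6, n7, n8⟩ := numY (S := S) h1
    obtain ⟨h3, h4⟩ := sh_v (S := S) h1
    have := keyE x h hi (Or.inr h1) (by rw [F_Y h1]) (by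
      rw [F_Y h1, n5, n6]; dsimp only; omega) n7
    exact ⟨this.1, fun _ => this.2, fun h' => absurd h' (hnot (Or.inr h1))⟩
  · obtain ⟨n1, n2, n3, n4, n5, n6, n7, n8⟩ := numY (S := S) h1
    have h4 : t.rL.1.e.1 = b := (rL_b hab h1.1).2 h1.2
    have h5 := vv_zero (S := S) (t := t.rL) h1.1 h4
    have := keyN t h hi (Or.inr h1) (by rw [F_N hab h1]) (by
      rw [F_N hab h1, n5, h5]; rfl) n6
    exact ⟨this.1, fun h' => absurd ⟨t, Or.inr h1, rfl⟩ (hnot h'), fun _ => this.2⟩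

end HFl

end Pool.Agent.MP42.EO
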