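import Pool.Agent.MP42.EO.GF2

/-!
# Steps over the ribbons
-/

set_option autoImplicit false

namespace Pool.Agent.MP42.EO

open Pool.Agent.Helper55.UNF Pool.Agent.Helper55.UNF.GridSolid Pool.Agent.MP42.NE

variable {P : GridSolid} {a b : Fin 3} {hab : a ≠ b}

/-- the two kinds of walls, by the frame with east direction `a` -/
def WX (a b : Fin 3) (x : P.FSt) : Prop := x.1.e.1 = a ∧ x.1.d.1 ≠ b
/-- walls orthogonal to `b` -/
def WZ (a b : Fin 3) (x : P.FSt) : Prop := x.1.e.1 = a ∧ x.1.d.1 = b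

lemma WX.kx {x : P.FSt} (h : WX a b x) : KX a b x :=
  ⟨fun h' => ax_ne x (h'.trans h.1.symm), h.2, h.1⟩

lemma WZ.kz (hab : a ≠ b) {x : P.FSt} (h : WZ a b x) : KZ a b x.rR ∧ x.rR.rL = x := by
  refine ⟨⟨h.2, ?_⟩, FSt.rR_rL x⟩
  intro h4
  have := rL_ax x
  rw [← HFl.rR_e, h4, h.1] at this
  exact this rfl

lemma WX.r2 {x : P.FSt} (h : WX a b x) : WX a b x.r2 := h
lemma WZ.r2 {x : P.FSt} (h : WZ a b x) : WZ a b x.r2 := h

lemma wall_cases (a b : Fin 3) {x : P.FSt} (h : x.1.e.1 = a) : WX a b x ∨ WZ a b x := by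
  by_cases h1 : x.1.d.1 = b
  · exact Or.inr ⟨h, h1⟩
  · exact Or.inl ⟨h, h1⟩

namespace HFl

variable {S : HFl P a b hab}

/-- the strand at the entrance over the south side -/
lemma F_inS {x : P.FSt} (j : ℕ) :
    (WX a b x → S.F x ((-S.vv x).toNat + S.ee x.r2 + j) =
      (x, S.gf.ni x + S.gf.wi x + S.gf.c x + j)) ∧
    (WZ a b x → S.F x ((-S.vv x).toNat + S.ee x.r2 + j) =
      (x.rR, S.gf.ni x.rR + S.gf.wi x.rR + S.gf.c x.rR + S.gf.si x.rR + j)) := by
  constructor
  · intro h1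
    obtain ⟨n1, n2, -⟩ := numX (S := S) h1.kx
    rw [F_X h1.kx, n1, n2, c0]
    exact Prod.ext rfl (by dsimp only; omega)
  · intro h1
    obtain ⟨k1, k2⟩ := h1.kz hab
    obtain ⟨n1, n2, n3, -⟩ := numZ (S := S) k1
    have e1 := F_Z (S := S) hab k1 ((-S.vv x).toNat + S.ee x.r2 + j)
    rw [k2] at e1 n2
    rw [FSt.rR_rR] at n3
    rw [e1, n1, n2, n3, c0]
    exact Prod.ext rfl (by dsimp only; omega)

/-- north over a ribbon of a wall -/
lemma F_p {x : P.FSt} (h : x.1.e.1 = a) {j : ℕ} (hj : (j : ℤ) < S.vv x) :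
    S.gf.sc (S.F x j) = S.F x.stN ((-S.vv x.stN).toNat + S.ee x.stN.r2 + j) ∧
    (WX a b x → S.gf.XN (S.F x j) ∧ (S.F x j).1 = x ∧ (Nom a b x.stN ↔ WX a b x.stN)) ∧
    (WZ a b x → S.gf.XW (S.F x j) ∧ (S.F x j).1 = x.rR ∧
      (Nom a b x.rR.r2.stE ↔ WZ a b x.stN)) := by
  have hD : IsD a x := Or.inr h
  have hva : S.gf.Va (S.F x j) := F_va hD (by unfold cn; omega)
  have hd : ¬ x.1.d.1 = a := fun h' => ax_ne x (h'.trans h.symm)
  have hNa : x.stN.1.e.1 = a := (stN_ax x).trans h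
  rcases wall_cases a b h with h1 | h1
  · obtain ⟨n1, n2, n3, n4, n5, n6, n7, n8⟩ := numX (S := S) h1.kx
    have e0 := F_X (S := S) h1.kx j
    have hx : S.gf.XN (S.F x j) := by
      rw [e0]
      unfold GFlow.XN
      dsimp only
      rw [n5, n6]
      omega
    have hnm : Nom a b x.stN ↔ WX a b x.stN := by
      constructor
      · intro h2
        exact ⟨hNa, fun h3 => h2.2 ⟨hNa, h3⟩⟩
      · intro h2
        exact h2.kx.nom hab
    have hnot : ¬ WZ a b x := fun h' => h1.2 h'.2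
    refine ⟨?_, fun _ => ⟨hx, by rw [e0], hnm⟩, fun h' => absurd h' hnot⟩
    have hv := S.gf.north x (h1.kx.nom hab) (by
      have := GFlow.XN_pos hx
      rw [e0] at this
      dsimp only at this
      omega)
    obtain ⟨i1, i2⟩ := F_inS (S := S) (x := x.stN) j
    rcases hv with ⟨v1, v2⟩ | ⟨v1, v2⟩
    · have w1 : WX a b x.stN := hnm.1 v1
      rw [i1 w1]
      have := GFlow.sc_N hva hx (by rw [e0]; exact v1) (by rw [e0]; exact v2)
      rw [this, e0, n5]
      exact Prod.ext rfl (by dsimp only; omega)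
    · have w1 : WZ a b x.stN := by
        rcases wall_cases a b hNa with w | w
        · exact absurd (hnm.2 w) (fun h' => GFlow.not_rR (A := S.gf) h' v1)
        · exact w
      rw [i2 w1]
      have := GFlow.sc_N' hva hx (by rw [e0]; exact v1) (by rw [e0]; exact v2)
      rw [this, e0, n5]
      exact Prod.ext rfl (by dsimp only; omega)
  · obtain ⟨k1, k2⟩ := h1.kz hab
    obtain ⟨n1, n2, n3, n4, n5, n6, n7, n8⟩ := numZ (S := S) k1
    have e0 := F_Z (S := S) hab k1 j
    rw [k2] at e0 n5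
    have hx : S.gf.XW (S.F x j) := by
      rw [e0]
      unfold GFlow.XW
      dsimp only
      rw [n5]
      omega
    -- the western neighbour
    have g1 : x.rR.r2.stE = x.stN.rL := by
      show x.rR.r2.stE = x.rL.stE.rR.rL
      rw [FSt.rR_r2, FSt.rR_rL]
    have hnm : Nom a b x.rR.r2.stE ↔ WZ a b x.stN := by
      rw [g1, nom_rL_iff hab]
      constructor
      · intro h2
        rcases wall_cases a b hNa with w | w
        · exact absurd (w.kx.nom hab) h2
        · exact w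
      · intro h2 h3
        exact h3.2 ⟨hNa, h2.2⟩
    have hnot : ¬ WX a b x := fun h' => h'.2 h1.2
    refine ⟨?_, fun h' => absurd h' hnot, fun _ => ⟨hx, by rw [e0], hnm⟩⟩
    have hv := S.gf.east x.rR.r2 (k1.r2.nom hab) (by
      have := GFlow.XW_neg hx
      rw [e0] at this
      dsimp only at this
      rw [FSt.r2_r2]
      omega)
    rw [FSt.r2_r2] at hv
    obtain ⟨i1, i2⟩ := F_inS (S := S) (x := x.stN) j
    rcases hv with ⟨v1, v2⟩ | ⟨v1, v2⟩
    · have w1 : WZ a b x.stN := hnm.1 v1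
      rw [i2 w1]
      have := GFlow.sc_W hva hx (by rw [e0]; exact v1) (by rw [e0]; exact v2)
      rw [this, e0]
      dsimp only
      have g2 : x.rR.r2.stE.r2 = x.stN.rR := by rw [g1, FSt.rL_r2]
      rw [g2]
    · have w1 : WX a b x.stN := by
        rcases wall_cases a b hNa with w | w
        · exact w
        · exact absurd (hnm.2 w) (fun h' => GFlow.not_rL (A := S.gf) h' v1)
      rw [i1 w1]
      have := GFlow.sc_W' hva hx (by rw [e0]; exact v1) (by rw [e0]; exact v2)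
      rw [this, e0]
      dsimp only
      have g2 : x.rR.r2.stE.rR = x.stN := by rw [g1, FSt.rL_rR]
      rw [g2]

/-- south over a ribbon of a wall, from the north -/
lemma F_m {x : P.FSt} (h : x.1.e.1 = a) {j : ℕ} (hj : (j : ℤ) < - S.vv x) :
    S.gf.Va (S.F x.stN ((S.vv x.stN).toNat + S.ee x.stN + j)) ∧
    S.gf.sc (S.F x.stN ((S.vv x.stN).toNat + S.ee x.stN + j)) = S.F x j ∧
    (WX a b x.stN → S.gf.XS (S.F x.stN ((S.vv x.stN).toNat + S.ee x.stN + j)) ∧
      (S.F x.stN ((S.vv x.stN).toNat + S.ee x.stN + j)).1 = x.stN ∧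
      (Nom a b x.stN.r2.stN ↔ WX a b x)) ∧
    (WZ a b x.stN → S.gf.XE (S.F x.stN ((S.vv x.stN).toNat + S.ee x.stN + j)) ∧
      (S.F x.stN ((S.vv x.stN).toNat + S.ee x.stN + j)).1 = x.stN.rR ∧
      (Nom a b x.stN.rR.stE ↔ WZ a b x)) := by
  have hNa : x.stN.1.e.1 = a := (stN_ax x).trans h
  have hD : IsD a x.stN := Or.inr hNa
  have hd : ¬ x.stN.1.d.1 = a := fun h' => ax_ne x.stN (h'.trans hNa.symm)
  have hvr : S.vv x.stN.r2 = S.vv x := vv_stN h
  have hva : S.gf.Va (S.F x.stN ((S.vv x.stN).toNat + S.ee x.stN + j)) :=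
    F_va hD (by unfold cn; rw [hr_wall hd]; omega)
  refine ⟨hva, ?_⟩
  have hback : x.stN.r2.stN = x.r2 := FSt.stN_inv x
  have hxk : ∀ j, (WX a b x → S.F x j = (x, j)) ∧ (WZ a b x → S.F x j = (x.rR, j)) := by
    intro j
    refine ⟨fun h1 => F_X h1.kx j, fun h1 => ?_⟩
    obtain ⟨k1, k2⟩ := h1.kz hab
    have := F_Z (S := S) hab k1 j
    rwa [k2] at this
  rcases wall_cases a b hNa with h1 | h1
  · obtain ⟨n1, n2, n3, n4, n5, n6, n7, n8⟩ := numX (S := S) h1.kx
    have e0 := F_X (S := S) h1.kx ((S.vv x.stN).toNat + S.ee x.stN + j)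
    have hM := M_X (S := S) h1.kx
    have hx : S.gf.XS (S.F x.stN ((S.vv x.stN).toNat + S.ee x.stN + j)) := by
      rw [e0]
      unfold GFlow.XS
      dsimp only
      rw [n5, n6, n7, c0, hM]
      omega
    have hnm : Nom a b x.stN.r2.stN ↔ WX a b x := by
      rw [hback]
      constructor
      · intro h2
        exact ⟨h, fun h3 => h2.2 ⟨h, h3⟩⟩
      · intro h2
        exact h2.kx.nom hab
    have hnot : ¬ WZ a b x.stN := fun h' => h1.2 h'.2
    refine ⟨?_, fun _ => ⟨hx, by rw [e0], hnm⟩, fun h' => absurd h' hnot⟩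
    have hv := S.gf.north x.stN.r2 (h1.kx.r2.nom hab) (by
      have := GFlow.XS_neg hva.1 hx
      rw [e0] at this
      dsimp only at this
      rw [FSt.r2_r2]
      omega)
    rw [FSt.r2_r2] at hv
    rcases hv with ⟨v1, v2⟩ | ⟨v1, v2⟩
    · have w1 : WX a b x := hnm.1 v1
      have := GFlow.sc_S hva hx (by rw [e0]; exact v1) (by rw [e0]; exact v2)
      rw [this, (hxk j).1 w1, e0]
      dsimp only
      rw [hback, n5, n6, n7, c0]
      exact Prod.ext (FSt.r2_r2 x) (by dsimp only; omega)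
    · have w1 : WZ a b x := by
        rcases wall_cases a b h with w | w
        · exact absurd (hnm.2 w) (fun h' => GFlow.not_rR (A := S.gf) h' v1)
        · exact w
      have := GFlow.sc_S' hva hx (by rw [e0]; exact v1) (by rw [e0]; exact v2)
      rw [this, (hxk j).2 w1, e0]
      dsimp only
      obtain ⟨k1, k2⟩ := w1.kz hab
      have e1 : x.stN.r2.stN.rL = x.rR := by rw [hback, FSt.r2_rL]
      rw [e1, (numZ (S := S) k1).1, n5, n6, n7, c0]
      exact Prod.ext rfl (by dsimp only; omega)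
  · obtain ⟨k1, k2⟩ := h1.kz hab
    obtain ⟨n1, n2, n3, n4, n5, n6, n7, n8⟩ := numZ (S := S) k1
    have e0 := F_Z (S := S) hab k1 ((S.vv x.stN).toNat + S.ee x.stN + j)
    rw [k2] at e0 n5 n6
    rw [FSt.rR_rR] at n7
    have hx : S.gf.XE (S.F x.stN ((S.vv x.stN).toNat + S.ee x.stN + j)) := by
      rw [e0]
      unfold GFlow.XE
      dsimp only
      rw [n5, n6, n7, c0]
      omega
    -- the eastern neighbour
    have g1 : x.stN.rR.stE = x.rR := by
      show x.rL.stE.rR.rR.stE = x.rR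
      rw [FSt.rR_rR, FSt.stE_inv, FSt.rL_r2]
    have hnm : Nom a b x.stN.rR.stE ↔ WZ a b x := by
      rw [g1, nom_rR_iff hab]
      constructor
      · intro h2
        rcases wall_cases a b h with w | w
        · exact absurd (w.kx.nom hab) h2
        · exact w
      · intro h2 h3
        exact h3.2 ⟨h, h2.2⟩
    have hnot : ¬ WX a b x.stN := fun h' => h'.2 h1.2
    refine ⟨?_, fun h' => absurd h' hnot, fun _ => ⟨hx, by rw [e0], hnm⟩⟩
    have hv := S.gf.east x.stN.rR (k1.nom hab) (by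
      have := GFlow.XE_pos hx
      rw [e0] at this
      dsimp only at this
      omega)
    rcases hv with ⟨v1, v2⟩ | ⟨v1, v2⟩
    · have w1 : WZ a b x := hnm.1 v1
      have := GFlow.sc_E hva hx (by rw [e0]; exact v1) (by rw [e0]; exact v2)
      rw [this, (hxk j).2 w1, e0]
      dsimp only
      obtain ⟨k3, k4⟩ := w1.kz hab
      rw [g1, (numZ (S := S) k3).1, n5, n6, c0]
      exact Prod.ext rfl (by dsimp only; omega)
    · have w1 : WX a b x := by
        rcases wall_cases a b h with w | w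
        · exact w
        · exact absurd (hnm.2 w) (fun h' => GFlow.not_rL (A := S.gf) h' v1)
      have := GFlow.sc_E' hva hx (by rw [e0]; exact v1) (by rw [e0]; exact v2)
      rw [this, (hxk j).1 w1, e0]
      dsimp only
      have e1 : x.stN.rR.stE.rL = x := by rw [g1, FSt.rR_rL]
      rw [e1, n5, n6, c0]
      exact Prod.ext rfl (by dsimp only; omega)

/-- over a diagonal the facet strand does not change -/
lemma F_diag {t : P.FSt} (h : KY a b t) (j : ℕ) :
    ((j : ℤ) < S.vv t → S.F t j = S.F t.rL ((-S.vv t.rL).toNat + S.ee t.r2 + j)) ∧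
    ((j : ℤ) < - S.vv t → S.F t j = S.F t.rL ((S.vv t.rL).toNat + S.ee t.rL + j)) := by
  obtain ⟨h3, h4⟩ := sh_v (S := S) h
  have h5 : t.rL.1.e.1 = b := (rL_b hab h.1).2 h.2
  have h6 : S.vv t.rL = 0 := vv_zero h.1 h5
  rw [F_Y h, F_N hab h, F_N hab h, h6]
  constructor
  · intro h7
    exact Prod.ext rfl (by dsimp only; omega)
  · intro h7
    exact Prod.ext rfl (by dsimp only; omega)

end HFl

end Pool.Agent.MP42.EO
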