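import Pool.Agent.MP42.EO.GF4

/-!
# Typed connected flows on the spine system unfold
-/

set_option autoImplicit false

namespace Pool.Agent.MP42.EO

open Pool.Agent.Helper55.UNF Pool.Agent.Helper55.UNF.GridSolid Pool.Agent.MP42.NE

variable {P : GridSolid} {a b : Fin 3} {hab : a ≠ b}

namespace HFl

variable {S : HFl P a b hab}

lemma KZ_wz (hab : a ≠ b) {t : P.FSt} (h : KZ a b t) : WZ a b t.rL ∧ t.rL.rR = t :=
  ⟨⟨rL_dart hab h.1 h.2, h.1⟩, FSt.rL_rR t⟩

lemma cn_in {x : P.FSt} (h : IsD a x) {j : ℕ} (hj : (j : ℤ) < -S.vv x) : j < S.cn x := by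
  have h1 := S.fl.bal ⟨x, h⟩
  have e1 : S.ee (hr a b x) = S.e ((sysH P a b hab).r ⟨x, h⟩) :=
    ext0_eq S.e ((sysH P a b hab).r ⟨x, h⟩)
  have e2 : S.vv (hr a b x) = S.v ((sysH P a b hab).r ⟨x, h⟩) :=
    ext1_eq S.v ((sysH P a b hab).r ⟨x, h⟩)
  rw [← e1, ← e2, ← ee_eq h, ← vv_eq h] at h1
  unfold cn
  omega

/-- validity of the strand over a south side -/
lemma vv_of {x y : P.FSt} (h : x.1.e.1 = a) {j : ℕ} (hj : (j : ℤ) < -S.vv x) (hy : x.stN = y) :
    (S.vv y).toNat + S.ee y + j < S.cn y := by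
  subst hy
  have h1 := vv_stN (S := S) h
  unfold cn
  rw [(hN_w (b := b) h).2]
  omega

/-- validity of the strand over a north side -/
lemma vv_of' {x : P.FSt} (h : x.1.e.1 = a) {j : ℕ} (hj : (j : ℤ) < S.vv x) :
    (-S.vv x.stN).toNat + S.ee x.stN.r2 + j < S.cn x.stN := by
  have h1 := vv_stN (S := S) h
  have h2 := bal_wall (S := S) ((stN_ax x).trans h)
  unfold cn
  rw [(hN_w (b := b) h).2]
  omega

/-! ## Connectedness -/

lemma conn (hC : (sysH P a b hab).FConn S.e S.v) : S.gf.orb.Conn := by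
  intro T h1 h2
  have hs : ∀ s, S.gf.Va s → (T (S.gf.sc s) ↔ T s) := h1
  have hrv : ∀ s, S.gf.Va s → (T (S.gf.rv s) ↔ T s) := h2
  have key : (sysH P a b hab).FCon S.e S.v (fun d j => T (S.F d.1 j)) := by
    constructor
    · intro d j hj
      have e1 : S.vv d.1 = S.v d := ext1_eq S.v d
      have e2 : S.ee d.1 = S.e d := ext0_eq S.e d
      have e3 : S.vv (hE a b d.1) = S.v ((sysH P a b hab).E d) :=
        ext1_eq S.v ((sysH P a b hab).E d)
      obtain ⟨h3, -⟩ := F_E (S := S) d.2 (i := j) (by rw [e2]; exact hj)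
      have h4 := hs _ (F_va (S := S) d.2 (j := (S.vv d.1).toNat + j) (by unfold cn; omega))
      rw [h3, e1, e3] at h4
      exact h4.symm
    · intro d j hj
      have e1 : S.vv d.1 = S.v d := ext1_eq S.v d
      have e3 : S.vv (hN a d.1) = S.v ((sysH P a b hab).N d) :=
        ext1_eq S.v ((sysH P a b hab).N d)
      have e4 : S.ee (hr a b (hN a d.1)) = S.e ((sysH P a b hab).r ((sysH P a b hab).N d)) :=
        ext0_eq S.e ((sysH P a b hab).r ((sysH P a b hab).N d))
      show T (S.F d.1 j) ↔ T (S.F (hN a d.1) _)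
      rw [← e3, ← e4]
      rcases rib_cases (S := S) d.2 (by omega) with h3 | h3
      · obtain ⟨n1, n2⟩ := hN_w (b := b) h3
        have h4 := (F_p (S := S) h3 (j := j) (by omega)).1
        have h5 := hs _ (F_va (S := S) d.2 (j := j) (by unfold cn; omega))
        rw [h4] at h5
        show T (S.F d.1 j) ↔ T (S.F (hN a d.1) ((-S.vv (hN a d.1)).toNat +
          S.ee (hr a b (hN a d.1)) + j))
        rw [n1, n2]
        exact h5.symm
      · obtain ⟨n1, n2⟩ := hN_diag hab h3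
        have h4 := (F_diag (S := S) h3 j).1 (by omega)
        show T (S.F d.1 j) ↔ T (S.F (hN a d.1) ((-S.vv (hN a d.1)).toNat +
          S.ee (hr a b (hN a d.1)) + j))
        rw [n1, n2, ← h4]
    · intro d j hj
      have e1 : S.vv d.1 = S.v d := ext1_eq S.v d
      have e3 : S.vv (hN a d.1) = S.v ((sysH P a b hab).N d) :=
        ext1_eq S.v ((sysH P a b hab).N d)
      have e4 : S.ee (hN a d.1) = S.e ((sysH P a b hab).N d) :=
        ext0_eq S.e ((sysH P a b hab).N d)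
      show T (S.F d.1 j) ↔ T (S.F (hN a d.1) _)
      rw [← e3, ← e4]
      rcases rib_cases (S := S) d.2 (by omega) with h3 | h3
      · obtain ⟨n1, n2⟩ := hN_w (b := b) h3
        obtain ⟨h4, h5, -⟩ := F_m (S := S) h3 (j := j) (by omega)
        have h6 := hs _ h4
        rw [h5] at h6
        rw [n1]
        exact h6
      · obtain ⟨n1, n2⟩ := hN_diag hab h3
        have h4 := (F_diag (S := S) h3 j).2 (by omega)
        rw [n1, ← h4]
    · intro d t ht
      have e1 := cn_eq (S := S) d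
      have h3 := F_r (S := S) d.2 (j := t) (by rw [e1]; exact ht)
      show T (S.F (hr a b d.1) t) ↔ T (S.F d.1 _)
      have h4 := hrv _ (F_va (S := S) d.2 (j := S.cn d.1 - 1 - t) (by rw [e1]; omega))
      rw [← e1]
      show T (S.F (hr a b d.1) t) ↔ _
      rw [h3]
      exact h4
  obtain ⟨c, hc⟩ := hC _ key
  have hall : ∀ s, S.gf.Va s → (T s ↔ c) := by
    intro s hva
    obtain ⟨x, hx, j, hj, h3⟩ := F_surj hva
    have h4 := hc ⟨x, hx⟩ j (by rw [← cn_eq (S := S) ⟨x, hx⟩]; exact hj)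
    rw [← h3]
    exact h4
  intro s s' h3 h4
  rw [hall s h3, hall s' h4]

/-! ## Types -/

section

variable {g : P.FSt → ℕ → Bool}

/-- types of the facet strands -/
noncomputable def ty (T : S.Typ g) (s0 : P.FSt × ℕ) : S.gf.Ty s0 where
  τ := S.tau g
  τr := fun s hva => by
    obtain ⟨x, hx, j, hj, rfl⟩ := F_surj hva
    have hj' : S.cn x - 1 - j < S.cn x := by omega
    have h1 := F_r (S := S) hx hj'
    rw [show S.cn x - 1 - (S.cn x - 1 - j) = j by omega] at h1
    have h2 : S.cn (hr a b x) = S.cn x := by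
      have h3 := S.fl.cnt_r ⟨x, hx⟩
      rw [← cn_eq, ← cn_eq] at h3
      exact h3
    rw [← h1, T.tau_F (isD_hr hx) (by rw [h2]; exact hj'), T.tau_F hx hj,
      T.gr x hx _ hj', show S.cn x - 1 - (S.cn x - 1 - j) = j by omega]
  fE := fun s hva _ hx hf => by
    rcases (nom3 hab).1 hva.1 with h1 | h1 | h1
    · obtain ⟨i, hi, h2⟩ := rep_E hx (Or.inr h1)
      have := T.tau_ring h1.isD hi
      rwa [h2] at this
    · obtain ⟨x, j, h2, h3, h4, h5⟩ := rep_XE hx h1
      obtain ⟨f1, f2, f3, f4⟩ := F_m (S := S) h2 h4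
      obtain ⟨k1, k2⟩ := KZ_wz hab h1
      rw [h3] at f1 f2 f4
      obtain ⟨-, -, f5⟩ := f4 k1
      rw [h5] at f1 f2
      have f6 : WZ a b x := f5.1 (by rw [FSt.rL_rR]; exact hf)
      have hg := T.gm x (Or.inr h2) j h4
      rw [(hN_w (b := b) h2).1, okF_ZZ f6 (by rw [h3]; exact k1), h3] at hg
      have hv := vv_of (S := S) h2 h4 h3
      rw [f2, T.tau_F (Or.inr h2) (cn_in (Or.inr h2) h4), ← h5,
        T.tau_F (h1.isD hab) hv]
      exact hg.1
    · obtain ⟨i, hi, h2⟩ := rep_E hx (Or.inl h1)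
      have := T.tau_ring h1.isD hi
      rwa [h2] at this
  gE := fun s hva _ hx hf => by
    rcases (nom3 hab).1 hva.1 with h1 | h1 | h1
    · exfalso
      apply hf
      rcases kind_stE hab (Or.inr h1) with ⟨h', -⟩ | ⟨h', -⟩
      · exact h'.nom hab
      · exact h'.nom hab
    · obtain ⟨x, j, h2, h3, h4, h5⟩ := rep_XE hx h1
      obtain ⟨f1, f2, f3, f4⟩ := F_m (S := S) h2 h4
      obtain ⟨k1, k2⟩ := KZ_wz hab h1
      rw [h3] at f1 f2 f4
      obtain ⟨-, -, f5⟩ := f4 k1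
      rw [h5] at f1 f2
      have f6 : WX a b x := by
        rcases wall_cases a b h2 with w | w
        · exact w
        · have := f5.2 w
          rw [FSt.rL_rR] at this
          exact absurd this hf
      have hg := T.gm x (Or.inr h2) j h4
      rw [(hN_w (b := b) h2).1, okF_XZ f6 (by rw [h3]; exact k1), h3] at hg
      have hv := vv_of (S := S) h2 h4 h3
      rw [f2, T.tau_F (Or.inr h2) (cn_in (Or.inr h2) h4), ← h5,
        T.tau_F (h1.isD hab) hv]
      exact ⟨hg.2, hg.1⟩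
    · exfalso
      apply hf
      rcases kind_stE hab (Or.inl h1) with ⟨h', -⟩ | ⟨h', -⟩
      · exact h'.nom hab
      · exact h'.nom hab
  fN := fun s hva _ hx hf => by
    rcases (nom3 hab).1 hva.1 with h1 | h1 | h1
    · obtain ⟨i, hi, h2⟩ := rep_N hx (Or.inr h1)
      have := T.tau_ring h1.isD' hi
      rwa [h2] at this
    · obtain ⟨i, hi, h2⟩ := rep_N hx (Or.inl h1)
      have := T.tau_ring (h1.isD hab) hi
      rwa [h2] at this
    · obtain ⟨h2, h3⟩ := rep_XN hx h1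
      obtain ⟨f1, f2, -⟩ := F_p (S := S) h1.2.2 h2
      obtain ⟨-, -, f5⟩ := f2 ⟨h1.2.2, h1.2.1⟩
      have f6 : WX a b s.1.stN := f5.1 hf
      have hg := T.gp s.1 h1.isD s.2 h2
      rw [(hN_w (b := b) h1.2.2).1, (hN_w (b := b) h1.2.2).2,
        okF_XX ⟨h1.2.2, h1.2.1⟩ f6] at hg
      have hv := vv_of' (S := S) h1.2.2 h2
      rw [h3] at f1
      have e1 : S.tau g s = g s.1 s.2 := by
        have := T.tau_F h1.isD (j := s.2) (by unfold cn; omega)
        rwa [h3] at this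
      rw [f1, T.tau_F (Or.inr ((stN_ax _).trans h1.2.2)) hv, e1]
      exact hg.1.symm
  gN := fun s hva _ hx hf => by
    rcases (nom3 hab).1 hva.1 with h1 | h1 | h1
    · exfalso
      apply hf
      rcases kind_stN hab (Or.inr h1) with ⟨h', -⟩ | ⟨h', -⟩
      · exact h'.nom hab
      · exact h'.nom hab
    · exfalso
      apply hf
      rcases kind_stN hab (Or.inl h1) with ⟨h', -⟩ | ⟨h', -⟩
      · exact h'.nom hab
      · exact h'.nom hab
    · obtain ⟨h2, h3⟩ := rep_XN hx h1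
      obtain ⟨f1, f2, -⟩ := F_p (S := S) h1.2.2 h2
      obtain ⟨-, -, f5⟩ := f2 ⟨h1.2.2, h1.2.1⟩
      have f6 : WZ a b s.1.stN := by
        rcases wall_cases a b ((stN_ax s.1).trans h1.2.2) with w | w
        · exact absurd (f5.2 w) hf
        · exact w
      have hg := T.gp s.1 h1.isD s.2 h2
      rw [(hN_w (b := b) h1.2.2).1, (hN_w (b := b) h1.2.2).2,
        okF_XZ ⟨h1.2.2, h1.2.1⟩ f6] at hg
      have hv := vv_of' (S := S) h1.2.2 h2
      rw [h3] at f1
      have e1 : S.tau g s = g s.1 s.2 := by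
        have := T.tau_F h1.isD (j := s.2) (by unfold cn; omega)
        rwa [h3] at this
      rw [f1, T.tau_F (Or.inr ((stN_ax _).trans h1.2.2)) hv, e1]
      exact hg
  fW := fun s hva _ hx hf => by
    obtain ⟨h1, h2, h3⟩ := rep_XW hva.1 hx
    obtain ⟨k1, k2⟩ := KZ_wz hab h1
    obtain ⟨f1, -, f2⟩ := F_p (S := S) k1.1 h2
    obtain ⟨-, -, f5⟩ := f2 k1
    have f6 : WZ a b s.1.rL.stN := f5.1 (by rw [FSt.rL_rR]; exact hf)
    have hg := T.gp s.1.rL (h1.isD hab) s.2 h2
    rw [(hN_w (b := b) k1.1).1, (hN_w (b := b) k1.1).2, okF_ZZ k1 f6] at hg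
    have e1 : S.tau g s = g s.1.rL s.2 := by
      have := T.tau_F (h1.isD hab) (j := s.2) (by unfold cn; omega)
      rwa [h3] at this
    rw [e1]
    exact hg.2 rfl
  fS := fun s hva _ hx hf => by
    obtain ⟨h1, x, j, h2, h3, h4, h5⟩ := rep_XS hva.1 hx
    obtain ⟨f1, f2, f3, f4⟩ := F_m (S := S) h2 h4
    rw [h3] at f1 f2 f3
    obtain ⟨-, -, f5⟩ := f3 ⟨h1.2.2, h1.2.1⟩
    have f6 : WX a b x := f5.1 hf
    have hg := T.gm x (Or.inr h2) j h4
    rw [(hN_w (b := b) h2).1, okF_XX f6 (by rw [h3]; exact ⟨h1.2.2, h1.2.1⟩), h3] at hg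
    have hv := vv_of (S := S) h2 h4 h3
    rw [← h5, T.tau_F h1.isD hv, ← hg.1]
    exact hg.2 rfl
  fP := fun s _ _ hx => by
    obtain ⟨h1, h2⟩ := hx
    rw [c0] at h2
    omega

/-- **Typed connected flows on the spine system unfold.** -/
theorem hasEdgeUnfolding (T : S.Typ g) (hC : (sysH P a b hab).FConn S.e S.v)
    (hpos : ∀ x, 0 < S.e x) (F : P.Facet) {N : ℕ} (hN : ∀ x, S.e x ≤ N)
    (hN' : ∀ x, |S.v x| ≤ N) (hK : 0 < 2 * (5 * (N + 1) + 1) + 1) :
    (P.refine (2 * (5 * (N + 1) + 1) + 1) hK).HasEdgeUnfolding := by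
  have hee : ∀ t : P.FSt, IsD a t → 0 < S.ee t := fun t h => by
    rw [ee_eq h]; exact hpos _
  have hee' : ∀ t : P.FSt, S.ee t ≤ N := fun t => by
    by_cases h : IsD a t
    · rw [ee_eq h]; exact hN _
    · have : S.ee t = 0 := dif_neg h
      omega
  have hvv' : ∀ t : P.FSt, |S.vv t| ≤ N := fun t => by
    by_cases h : IsD a t
    · rw [vv_eq h]; exact hN' _
    · have : S.vv t = 0 := dif_neg h
      rw [this]
      simp
  have hM : ∀ t, S.gf.nom t → 0 < S.gf.M t := by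
    intro t h
    rcases (nom3 hab).1 h with h1 | h1 | h1
    · have := hee t h1.isD
      rw [M_Y h1]; omega
    · have := hee t.rL (h1.isD hab)
      rw [M_Z h1]; omega
    · have := hee t h1.isD
      rw [M_X h1]; omega
  have habs : ∀ z : ℤ, |z| ≤ N → z.natAbs ≤ N := fun z hz => by
    rw [Int.abs_eq_natAbs] at hz
    exact_mod_cast hz
  have hn : ∀ t, S.gf.n t ≤ N := by
    intro t
    by_cases h : S.gf.nom t
    · rw [GFlow.n_nom h]
      show (S.fA t.r2).natAbs ≤ N
      by_cases h1 : t.1.d.1 = b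
      · rw [fA_b' h1, Int.natAbs_neg]
        exact habs _ (hvv' _)
      · rw [fA_n' h1]
        exact hee' t
    · rw [GFlow.n_not h]
      show (S.fB t.rL).natAbs ≤ N
      by_cases h1 : t.rL.1.e.1 = a
      · rw [fB_a h1]
        exact habs _ (hvv' _)
      · rw [fB_n h1]
        exact hee' _
  obtain ⟨t, h1, h2⟩ := S.gf.nom_ex F
  exact GFlow.hasEdgeUnfolding (ty T (t, 0)) ⟨h1, hM t h1⟩ (conn hC) hM hn hK

end

end HFl

end Pool.Agent.MP42.EO
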