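import Pool.Agent.MP42.EO.GF5

/-!
# Typed connected flows on the spine system unfold: the interface
-/

set_option autoImplicit false

namespace Pool.Agent.MP42.EO

open Pool.Agent.Helper55.UNF Pool.Agent.Helper55.UNF.GridSolid Pool.Agent.MP42.NE

variable {P : GridSolid} {a b : Fin 3}

/-- A strand may cross the ribbon `x` with the sign `s` (`true` = north, `v x > 0`), with the type
`t` on the side of `x` and the type `t'` on the other side. -/
noncomputable def okH (b : Fin 3) (x : HD P a) (s t t' : Bool) : Prop := okF a b x.1 s t t'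

/-- real ribbons -/
def Real (x : HD P a) : Prop := x.1.1.d.1 = a
/-- flat ribbons between walls not orthogonal to `b` -/
def FlatX (b : Fin 3) (x : HD P a) : Prop := x.1.1.d.1 ≠ a ∧ x.1.1.d.1 ≠ b ∧ x.1.stN.1.d.1 ≠ b
/-- flat ribbons between walls orthogonal to `b` -/
def FlatZ (b : Fin 3) (x : HD P a) : Prop := x.1.1.d.1 ≠ a ∧ x.1.1.d.1 = b ∧ x.1.stN.1.d.1 = b
/-- gates from a wall not orthogonal to `b` -/
def GateX (b : Fin 3) (x : HD P a) : Prop := x.1.1.d.1 ≠ a ∧ x.1.1.d.1 ≠ b ∧ x.1.stN.1.d.1 = b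
/-- gates from a wall orthogonal to `b` -/
def GateZ (b : Fin 3) (x : HD P a) : Prop := x.1.1.d.1 ≠ a ∧ x.1.1.d.1 = b ∧ x.1.stN.1.d.1 ≠ b

lemma okH_real {x : HD P a} (h : Real x) (s t t' : Bool) : okH b x s t t' ↔ t = t' :=
  okF_real h s t t'

lemma okH_flatX {x : HD P a} (h : FlatX b x) (s t t' : Bool) :
    okH b x s t t' ↔ (t = t' ∧ (s = false → t = false)) := by
  unfold okH okF
  rw [if_neg h.1, if_neg h.2.1, if_neg h.2.2]

lemma okH_flatZ {x : HD P a} (h : FlatZ b x) (s t t' : Bool) :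
    okH b x s t t' ↔ (t = t' ∧ (s = true → t = true)) := by
  unfold okH okF
  rw [if_neg h.1, if_pos h.2.1, if_pos h.2.2]

lemma okH_gateX {x : HD P a} (h : GateX b x) (s t t' : Bool) :
    okH b x s t t' ↔ (t = false ∧ t' = true) := by
  unfold okH okF
  rw [if_neg h.1, if_neg h.2.1, if_pos h.2.2]

lemma okH_gateZ {x : HD P a} (h : GateZ b x) (s t t' : Bool) :
    okH b x s t t' ↔ (t = true ∧ t' = false) := by
  unfold okH okF
  rw [if_neg h.1, if_pos h.2.1, if_neg h.2.2]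

lemma kinds (b : Fin 3) (x : HD P a) :
    Real x ∨ FlatX b x ∨ FlatZ b x ∨ GateX b x ∨ GateZ b x := by
  unfold Real FlatX FlatZ GateX GateZ
  by_cases h1 : x.1.1.d.1 = a
  · exact Or.inl h1
  right
  by_cases h2 : x.1.1.d.1 = b <;> by_cases h3 : x.1.stN.1.d.1 = b
  · exact Or.inr (Or.inl ⟨h1, h2, h3⟩)
  · exact Or.inr (Or.inr (Or.inr ⟨h1, h2, h3⟩))
  · exact Or.inr (Or.inr (Or.inl ⟨h1, h2, h3⟩))
  · exact Or.inl ⟨h1, h2, h3⟩

section

variable (hab : a ≠ b)

/-- the other side of a ribbon -/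
lemma ta_wall {x : HD P a} (h : ¬ Real x) :
    ((sysH P a b hab).r ((sysH P a b hab).N x)).1 = x.1.stN.r2 ∧
      ((sysH P a b hab).r ((sysH P a b hab).N x)).1.stN = x.1.r2 := by
  have h1 : x.1.1.e.1 = a := x.2.resolve_left h
  have e1 : ((sysH P a b hab).r ((sysH P a b hab).N x)).1 = x.1.stN.r2 := by
    show hr a b (hN a x.1) = _
    rw [hN_wall h, hr_wall (wall_stN h1)]
  refine ⟨e1, ?_⟩
  rw [e1, FSt.stN_inv]

lemma ta_real {x : HD P a} (h : Real x) :
    Real ((sysH P a b hab).r ((sysH P a b hab).N x)) := by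
  show (hr a b (hN a x.1)).1.d.1 = a
  rw [hN_cap h]
  unfold hr
  split_ifs <;> exact h

/-- the rule is symmetric -/
lemma okH_symm {x : HD P a} {s t t' : Bool} (h : okH b x s t t') :
    okH b ((sysH P a b hab).r ((sysH P a b hab).N x)) s t' t := by
  have key : ∀ h0 : ¬ Real x, ¬ Real ((sysH P a b hab).r ((sysH P a b hab).N x)) := by
    intro h0 h1
    obtain ⟨e1, e2⟩ := ta_wall hab h0
    have h2 : x.1.1.e.1 = a := x.2.resolve_left h0
    unfold Real at h1
    rw [e1] at h1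
    exact wall_stN h2 h1
  rcases kinds b x with h1 | h1 | h1 | h1 | h1
  · rw [okH_real h1] at h
    rw [okH_real (ta_real hab h1)]
    exact h.symm
  · obtain ⟨e1, e2⟩ := ta_wall hab (x := x) h1.1
    rw [okH_flatX h1] at h
    have h2 : FlatX b ((sysH P a b hab).r ((sysH P a b hab).N x)) := by
      refine ⟨key h1.1, ?_, ?_⟩
      · rw [e1]; exact h1.2.2
      · rw [e2]; exact h1.2.1
    rw [okH_flatX h2]
    exact ⟨h.1.symm, fun h3 => h.1 ▸ h.2 h3⟩
  · obtain ⟨e1, e2⟩ := ta_wall hab (x := x) h1.1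
    rw [okH_flatZ h1] at h
    have h2 : FlatZ b ((sysH P a b hab).r ((sysH P a b hab).N x)) := by
      refine ⟨key h1.1, ?_, ?_⟩
      · rw [e1]; exact h1.2.2
      · rw [e2]; exact h1.2.1
    rw [okH_flatZ h2]
    exact ⟨h.1.symm, fun h3 => h.1 ▸ h.2 h3⟩
  · obtain ⟨e1, e2⟩ := ta_wall hab (x := x) h1.1
    rw [okH_gateX h1] at h
    have h2 : GateZ b ((sysH P a b hab).r ((sysH P a b hab).N x)) := by
      refine ⟨key h1.1, ?_, ?_⟩
      · rw [e1]; exact h1.2.2
      · rw [e2]; exact h1.2.1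
    rw [okH_gateZ h2]
    exact ⟨h.2, h.1⟩
  · obtain ⟨e1, e2⟩ := ta_wall hab (x := x) h1.1
    rw [okH_gateZ h1] at h
    have h2 : GateX b ((sysH P a b hab).r ((sysH P a b hab).N x)) := by
      refine ⟨key h1.1, ?_, ?_⟩
      · rw [e1]; exact h1.2.2
      · rw [e2]; exact h1.2.1
    rw [okH_gateX h2]
    exact ⟨h.2, h.1⟩

variable {hab}

/-- **Typed connected flows on the spine system unfold.** -/
theorem hasEdgeUnfolding_of_typed {e : HD P a → ℕ} {v : HD P a → ℤ}
    (hF : (sysH P a b hab).Fl e v) (hC : (sysH P a b hab).FConn e v)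
    (h0 : ∀ x : HD P a, ¬ Rib b x → v x = 0) (hpos : ∀ x, 0 < e x) (g : HD P a → ℕ → Bool)
    (gE : ∀ (d : HD P a) (j : ℕ), j < e d →
      g d ((v d).toNat + j) = g ((sysH P a b hab).E d) ((-v ((sysH P a b hab).E d)).toNat + j))
    (gr : ∀ (d : HD P a) (t : ℕ), t < (sysH P a b hab).cnt e v d →
      g ((sysH P a b hab).r d) t = g d ((sysH P a b hab).cnt e v d - 1 - t))
    (gp : ∀ (d : HD P a) (j : ℕ), (j : ℤ) < v d → okH b d true (g d j)
      (g ((sysH P a b hab).N d) ((-v ((sysH P a b hab).N d)).toNat +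
        e ((sysH P a b hab).r ((sysH P a b hab).N d)) + j)))
    (gm : ∀ (d : HD P a) (j : ℕ), (j : ℤ) < -v d → okH b d false (g d j)
      (g ((sysH P a b hab).N d) ((v ((sysH P a b hab).N d)).toNat +
        e ((sysH P a b hab).N d) + j)))
    (F : P.Facet) {N : ℕ} (hN : ∀ x, e x ≤ N) (hN' : ∀ x, |v x| ≤ N)
    (hK : 0 < 2 * (5 * (N + 1) + 1) + 1) :
    (P.refine (2 * (5 * (N + 1) + 1) + 1) hK).HasEdgeUnfolding := by
  classical
  let S : HFl P a b hab := ⟨e, v, hF, h0⟩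
  let gg : P.FSt → ℕ → Bool := fun t j => if h : IsD a t then g ⟨t, h⟩ j else false
  have hgg : ∀ (x : HD P a) (j : ℕ), gg x.1 j = g x j := fun x j => dif_pos x.2
  have he : ∀ x : HD P a, S.ee x.1 = e x := fun x => ext0_eq e x
  have hv : ∀ x : HD P a, S.vv x.1 = v x := fun x => ext1_eq v x
  have T : S.Typ gg := by
    constructor
    · intro x hx j hj
      have h1 := gE ⟨x, hx⟩ j (by rw [← he]; exact hj)
      rw [← hgg, ← hgg, ← hv, ← hv] at h1
      exact h1
    · intro x hx j hj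
      have hc := HFl.cn_eq (S := S) ⟨x, hx⟩
      have h1 := gr ⟨x, hx⟩ j (by
        show j < (sysH P a b hab).cnt S.e S.v ⟨x, hx⟩
        rw [← hc]; exact hj)
      rw [← hgg, ← hgg] at h1
      have h2 : (sysH P a b hab).cnt e v ⟨x, hx⟩ = S.cn x := hc.symm
      rw [h2] at h1
      exact h1
    · intro x hx j hj
      have h1 := gp ⟨x, hx⟩ j (by rw [← hv]; exact hj)
      rw [← hgg, ← hgg, ← hv, ← he] at h1
      exact h1
    · intro x hx j hj
      have h1 := gm ⟨x, hx⟩ j (by rw [← hv]; exact hj)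
      rw [← hgg, ← hgg, ← hv, ← he] at h1
      exact h1
  exact HFl.hasEdgeUnfolding T hC hpos F hN hN' hK

end

end Pool.Agent.MP42.EO
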