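import Pool.Agent.MP42.EO.GF6
import Pool.Agent.MP42.NE.Ex
import Pool.Agent.MP42.NE.F2

/-!
# The spine system: global facts

Connectedness, the half turn has no fixed points, every ring meets a ribbon on both sides.
-/

set_option autoImplicit false

namespace Pool.Agent.MP42.EO

open Pool.Agent.Helper55.UNF Pool.Agent.Helper55.UNF.GridSolid Pool.Agent.MP42.NE
open Pool.Agent.MP42.NE.Sys

variable {P : GridSolid} {a b : Fin 3}

noncomputable instance : Fintype (HD P a) := Fintype.ofFinite _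

/-! ## Existence of darts -/

/-- the axis `a` as a dart direction on a facet not orthogonal to `a` -/
lemma exists_dart (a : Fin 3) (f : P.Facet) : ∃ d : HD P a, d.1.facet = f := by
  obtain ⟨⟨c, d⟩, hf⟩ := f
  by_cases h : d.1 = a
  · have key : ∀ d : Dir, ∃ e : Dir, d.1 ≠ e.1 := by decide
    obtain ⟨e, he⟩ := key d
    exact ⟨⟨⟨⟨c, d, e⟩, ⟨hf, he⟩⟩, Or.inl h⟩, rfl⟩
  · exact ⟨⟨⟨⟨c, d, (a, true)⟩, ⟨hf, h⟩⟩, Or.inr rfl⟩, rfl⟩

lemma nonempty_HD (a : Fin 3) (hc : P.surfaceGraph.Connected) : Nonempty (HD P a) := by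
  obtain ⟨f⟩ := hc.nonempty
  obtain ⟨d, -⟩ := exists_dart a f
  exact ⟨d⟩

lemma nonempty_facet (hc : P.surfaceGraph.Connected) : Nonempty P.Facet := hc.nonempty

section

variable (hab : a ≠ b)

lemma hr_facet (a b : Fin 3) (t : P.FSt) : (hr a b t).facet = t.facet := by
  unfold hr
  split_ifs <;> rfl

lemma hfx_facet (a b : Fin 3) (t : P.FSt) : (hfx a b t).facet = t.facet := by
  unfold hfx
  split_ifs <;> rfl

lemma hE_facet (a b : Fin 3) (t : P.FSt) : (hE a b t).facet = t.stE.facet := hfx_facet a b _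

lemma hr_ne (a b : Fin 3) (t : P.FSt) : hr a b t ≠ t := by
  unfold hr
  split_ifs
  · exact fr_rL_ne t
  · intro h1
    have h2 := congrArg FSt.rL h1
    rw [FSt.rR_rL] at h2
    exact fr_rL_ne t h2.symm
  · exact fr_r2_ne t

/-- the half turn has no fixed points -/
theorem sysH_r_ne (x : HD P a) : (sysH P a b hab).r x ≠ x := fun h =>
  hr_ne a b x.1 (congrArg Subtype.val h)

/-- a ring does not turn back -/
theorem sysH_rE_ne (x : HD P a) : (sysH P a b hab).r ((sysH P a b hab).E x) ≠ x := by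
  intro h
  have h1 : hr a b (hE a b x.1) = x.1 := congrArg Subtype.val h
  have h2 := congrArg FSt.facet h1
  rw [hr_facet, hE_facet] at h2
  exact FSt.stE_facet_ne x.1 h2

/-- the ribbons are the darts that are moved by `ta` -/
theorem ta_ne_iff (x : HD P a) : (sysH P a b hab).ta x ≠ x ↔ Rib b x := by
  have h : (sysH P a b hab).ta x = x ↔ ¬ Rib b x := by
    rw [← N_eq_r hab]
    show (sysH P a b hab).r ((sysH P a b hab).N x) = x ↔ _
    constructor
    · intro h
      have h1 := congrArg (sysH P a b hab).r h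
      rwa [(sysH P a b hab).rr] at h1
    · intro h
      rw [h, (sysH P a b hab).rr]
  rw [Ne, h, not_not]

/-- after a corner comes a ribbon -/
theorem rib_E {x : HD P a} (h : ¬ Rib b x) : Rib b ((sysH P a b hab).E x) := by
  have h1 : x.1.1.d.1 = a ∧ x.1.1.e.1 = b := not_not.1 h
  rintro ⟨h2, h3⟩
  have h2' : (hE a b x.1).1.d.1 = a := h2
  have h3' : (hE a b x.1).1.e.1 = b := h3
  unfold hE hfx at h2' h3'
  by_cases h4 : x.1.stE.1.d.1 = a
  · rw [if_pos h4] at h2' h3'
    -- the move is flat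
    have h5 : x.1.stE.1.e.1 = b := by
      have h6 : (x.1.1.stepE P).d.1 = a := h4
      show (x.1.1.stepE P).e.1 = b
      unfold St.stepE at h6 ⊢
      split_ifs at h6 ⊢
      · exfalso
        have h7 : x.1.1.e.1 = a := h6
        rw [h1.2] at h7
        exact hab h7.symm
      · exact h1.2
      · exfalso
        have h7 : x.1.1.e.1 = a := h6
        rw [h1.2] at h7
        exact hab h7.symm
    rw [if_pos h5] at h3'
    exact (rR_b hab h4).1 h3' h5
  · rw [if_neg h4] at h2'
    exact h4 h2'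

/-- every ring meets a ribbon on every side -/
theorem exists_rib (x : HD P a) :
    ∃ y, (sysH P a b hab).E.SameCycle x y ∧ (sysH P a b hab).ta y ≠ y := by
  by_cases h : Rib b x
  · exact ⟨x, Equiv.Perm.SameCycle.refl _ _, (ta_ne_iff hab x).2 h⟩
  · exact ⟨(sysH P a b hab).E x, Equiv.Perm.sameCycle_apply_right.2 (Equiv.Perm.SameCycle.refl _ _),
      (ta_ne_iff hab _).2 (rib_E hab h)⟩

/-- **the spine system is connected** -/
theorem trans_sysH (hM : P.IsManifold) (hc : P.surfaceGraph.Connected) :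
    (sysH P a b hab).Trans := by
  intro ψ h1 h2 h3 d d' hd
  -- darts with the same facet
  have hsame : ∀ d d' : HD P a, d.1.facet = d'.1.facet → (ψ d ↔ ψ d') := by
    intro x y h
    have hdd : x.1.1.d = y.1.1.d := congrArg (fun f : P.Facet => f.1.2) h
    by_cases hw : x.1.1.d.1 = a
    · -- all the frames of a cap
      have k : ∀ z : HD P a, z.1.1.d.1 = a → ∀ hz : IsD a z.1.rL, (ψ ⟨z.1.rL, hz⟩ ↔ ψ z) := by
        intro z hz hz'
        rw [← h2 z]
        have : (sysH P a b hab).N z = ⟨z.1.rL, hz'⟩ := Subtype.ext (hN_cap hz)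
        rw [this]
      have q1 : IsD a x.1.rL := Or.inl hw
      have q2 : IsD a x.1.rL.rL := Or.inl hw
      have q3 : IsD a x.1.rL.rL.rL := Or.inl hw
      have k1 := k x hw q1
      have k2 := k ⟨x.1.rL, q1⟩ hw q2
      have k3 := k ⟨x.1.rL.rL, q2⟩ hw q3
      have key : ∀ d e e' : Dir, d.1 ≠ e.1 → d.1 ≠ e'.1 →
          e' = e ∨ e' = cross d e ∨ e' = cross d (cross d e) ∨
            e' = cross d (cross d (cross d e)) := by
        decide
      have hy2 : x.1.1.d.1 ≠ y.1.1.e.1 := by rw [hdd]; exact y.1.2.2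
      rcases key x.1.1.d x.1.1.e y.1.1.e x.1.2.2 hy2 with he | he | he | he
      · have : x = y := Subtype.ext (eq_of_facet_e h he.symm)
        rw [this]
      · have : (⟨x.1.rL, q1⟩ : HD P a) = y := Subtype.ext (eq_of_facet_e h he.symm)
        rw [← this]; exact k1.symm
      · have : (⟨x.1.rL.rL, q2⟩ : HD P a) = y := Subtype.ext (eq_of_facet_e h he.symm)
        rw [← this]; exact (k2.trans k1).symm
      · have : (⟨x.1.rL.rL.rL, q3⟩ : HD P a) = y := Subtype.ext (eq_of_facet_e h he.symm)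
        rw [← this]; exact (k3.trans (k2.trans k1)).symm
    · have hx : x.1.1.e.1 = a := x.2.resolve_left hw
      have hy : y.1.1.e.1 = a := y.2.resolve_left (by rw [← hdd]; exact hw)
      have key : ∀ (a : Fin 3) (e e' : Dir), e.1 = a → e'.1 = a → e = e' ∨ opp e = e' := by decide
      rcases key a _ _ hx hy with he | he
      · have : x = y := Subtype.ext (eq_of_facet_e h he)
        rw [this]
      · have h4 : ((sysH P a b hab).r x) = y := by
          apply Subtype.ext
          show hr a b x.1 = y.1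
          rw [hr_wall hw]
          exact eq_of_facet_e h he
        rw [← h3 x, h4]
  let Ψ : P.Facet → Prop := fun f => ∃ x : HD P a, x.1.facet = f ∧ ψ x
  have hΨ : ∀ x : HD P a, Ψ x.1.facet ↔ ψ x := by
    intro x
    constructor
    · rintro ⟨y, hy, hy'⟩
      exact (hsame y x hy).1 hy'
    · intro h
      exact ⟨x, rfl, h⟩
  have main : ∀ s : P.FSt, (Ψ s.facet ↔ Ψ s.stE.facet) := by
    intro s
    by_cases hs : IsD a s
    · have k1 := hΨ ⟨s, hs⟩
      have k2 := hΨ ((sysH P a b hab).E ⟨s, hs⟩)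
      have k3 : ((sysH P a b hab).E ⟨s, hs⟩).1.facet = s.stE.facet := hE_facet a b s
      rw [k3, h1] at k2
      exact k1.trans k2.symm
    · have hd1 : ¬ s.1.d.1 = a := fun h => hs (Or.inl h)
      have he1 : ¬ s.1.e.1 = a := fun h => hs (Or.inr h)
      have hR : s.rR.1.e.1 = a := by
        have k1 : s.1.d.1 ≠ s.1.e.1 := s.2.2
        have k2 : s.1.d.1 ≠ s.rR.1.e.1 := s.rR.2.2
        have k3 : s.rR.1.e.1 ≠ s.1.e.1 := cross_axis_right _ _ s.2.2
        have key : ∀ i j k l : Fin 3, ¬ i = l → ¬ j = l → i ≠ j → i ≠ k → k ≠ j → k = l := by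
          decide
        exact key _ _ _ _ hd1 he1 k1 k2 k3
      have hRd : IsD a s.rR := Or.inr hR
      have hRw : ¬ s.rR.1.d.1 = a := hd1
      have k1 := hΨ ⟨s.rR, hRd⟩
      have k2 := hΨ ((sysH P a b hab).N ⟨s.rR, hRd⟩)
      have k3 : ((sysH P a b hab).N ⟨s.rR, hRd⟩).1.facet = s.stE.facet := by
        show (hN a s.rR).facet = _
        rw [hN_wall hRw]
        have k4 : s.rR.stN = s.stE.rR := by
          show s.rR.rL.stE.rR = _
          rw [FSt.rR_rL]
        rw [k4]; rfl
      rw [k3, h2] at k2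
      exact k1.trans k2.symm
  have hall := Geo.facet_const hM hc Ψ (fun s _ => main s) d.1.facet d'.1.facet
  rw [hΨ, hΨ] at hall
  exact hall.1 hd

end

end Pool.Agent.MP42.EO
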