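import Pool.Agent.MP42.NG.Verts

/-!
# Cochains in genus zero

If the surface is connected and has Euler characteristic two, every cocycle (set of unit edges
that meets the boundary of every facet in an even number of edges) is a coboundary: there is a
two-colouring of the vertices that changes exactly along the edges of the set.
-/

set_option autoImplicit false
set_option linter.unusedSectionVars false

namespace Pool.Agent.MP42NG

open Pool.Agent.Helper55.UNF Pool.Agent.Helper55.UNF.GridSolid Pool.Agent.MP42G
open Pool.Agent.MP42K

variable {P : GridSolid}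

noncomputable instance : DecidableEq P.Facet := Classical.decEq _

/-- the south-east corner is the north-east corner of the frame turned to the right -/
lemma vt_rho_rL (t : P.FSt) : vt (rho t.rL) = vt t := by
  have h1 : pK (rho t.rL) = t := by
    show (t.rL.stE.r2).stE.rL = t
    rw [FSt.stE_inv, FSt.rL_r2]
    exact FSt.rR_rL t
  have h2 := vt_pK (rho t.rL)
  rw [h1] at h2
  exact h2.symm

lemma vt_stE_rL (t : P.FSt) : vt t.stE.rL = vt t := vt_pK t

/-- the card equation -/
lemma card_of_eul (hP : P.IsOrthogonalPolyhedron) (h : Pool.BW.eul P = 2) :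
    Nat.card (Vt P) = Nat.card P.Facet + 2 := by
  have h1 := card_verts (P := P) hP.1
  have h2 := card_edges (P := P) hP.1
  unfold Pool.BW.eul at h
  rw [h1]
  omega

variable (P) in
/-- coboundary of a vertex colouring -/
noncomputable def c0 : (Vt P → F2) →ₗ[F2] (P.FSt → F2) where
  toFun := fun x s => x (vt s) + x (vt (rho s))
  map_add' := fun a b => by
    funext s
    show a _ + b _ + (a _ + b _) = a _ + a _ + (b _ + b _)
    ring
  map_smul' := fun c a => by
    funext s
    show c • a _ + c • a _ = c • (a _ + a _)
    rw [smul_add]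

lemma c0_apply (x : Vt P → F2) (s : P.FSt) : c0 P x s = x (vt s) + x (vt (rho s)) := rfl

variable (P) in
/-- coboundary of a cochain -/
noncomputable def c1 : (P.FSt → F2) →ₗ[F2] (P.Facet → F2) where
  toFun := fun e f => ∑ t : P.FSt, if t.facet = f then e t else 0
  map_add' := fun a b => by
    funext v
    show ∑ t : P.FSt, (if t.facet = v then a t + b t else 0) = _ + _
    rw [← Finset.sum_add_distrib]
    refine Finset.sum_congr rfl fun t _ => ?_
    split_ifs <;> simp
  map_smul' := fun c a => by
    funext v
    show ∑ t : P.FSt, (if t.facet = v then c • a t else 0) = c • _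
    rw [Finset.smul_sum]
    refine Finset.sum_congr rfl fun t _ => ?_
    split_ifs <;> simp

lemma c1_apply (e : P.FSt → F2) (f : P.Facet) :
    c1 P e f = ∑ t : P.FSt, if t.facet = f then e t else 0 := rfl

lemma c0_mem (x : Vt P → F2) : c0 P x ∈ C1 P := by
  intro s
  rw [c0_apply, c0_apply, rho_rho, add_comm]

/-- a sum over the frames of a facet does not change under a turn -/
lemma sum_rL (f : P.Facet) (g : P.FSt → F2) :
    ∑ t : P.FSt, (if t.facet = f then g t.rL else 0) = ∑ t : P.FSt, if t.facet = f then g t else 0 := by
  rw [← Equiv.sum_comp (pL : Equiv.Perm P.FSt) (fun t => if t.facet = f then g t else 0)]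
  rfl

lemma c1_c0 (x : Vt P → F2) : c1 P (c0 P x) = 0 := by
  funext f
  rw [c1_apply]
  have h1 : ∀ t : P.FSt, (if t.facet = f then c0 P x t else 0) =
      (if t.facet = f then x (vt t) else 0) + (if t.facet = f then x (vt (rho t)) else 0) := by
    intro t
    rw [c0_apply]
    split_ifs <;> simp
  rw [Finset.sum_congr rfl fun t _ => h1 t, Finset.sum_add_distrib,
    ← sum_rL f (fun t => x (vt (rho t)))]
  have h2 : ∀ t : P.FSt, (if t.facet = f then x (vt (rho t.rL)) else 0) =
      if t.facet = f then x (vt t) else 0 := fun t => by rw [vt_rho_rL]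
  rw [Finset.sum_congr rfl fun t _ => h2 t]
  exact z2 _

lemma finrank_range_c0 (hP : P.IsOrthogonalPolyhedron) :
    Fintype.card (Vt P) ≤ Module.finrank F2 (LinearMap.range (c0 P)) + 1 := by
  have h := LinearMap.finrank_range_add_finrank_ker (c0 P)
  rw [Module.finrank_fintype_fun_eq_card] at h
  have h1 : LinearMap.ker (c0 P) ≤ Submodule.span F2 {(fun _ => 1 : Vt P → F2)} := by
    intro x hx
    rw [LinearMap.mem_ker] at hx
    have h2 : ∀ s : P.FSt, x (vt (rho s)) = x (vt s) := by
      intro s
      have h3 : x (vt s) + x (vt (rho s)) = 0 := congrFun hx s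
      exact (CharTwo.add_eq_zero.1 h3).symm
    obtain ⟨f0⟩ := hP.2.nonempty
    set s0 : P.FSt := MP42.can f0
    have h3 : ∀ t : P.FSt, x (vt t.rL) = x (vt t) := fun t => by
      rw [← h2 t.rL, vt_rho_rL]
    rw [Submodule.mem_span_singleton]
    refine ⟨x (vt s0), ?_⟩
    funext v
    obtain ⟨s, rfl⟩ := Quotient.exists_rep v
    show x (vt s0) • (1 : F2) = x (vt s)
    have h4 := (fst_conn hP (fun s => x (vt s) = x (vt s0))
      (fun s => by show x (vt s.rL) = _ ↔ _; rw [h3])
      (fun s => by
        show x (vt s.stE) = _ ↔ _
        rw [← h3, vt_stE_rL]) s0 s).1 rfl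
    rw [smul_eq_mul, mul_one]
    exact h4.symm
  have h2 := Submodule.finrank_mono h1
  have h3 : Module.finrank F2 (Submodule.span F2 {(fun _ => 1 : Vt P → F2)}) ≤ 1 :=
    finrank_span_le_card _ |>.trans (by simp)
  omega

lemma c1_edge (s : P.FSt) : c1 P (fun t => if t = s ∨ t = rho s then 1 else 0) =
    (Pi.single s.facet 1 : P.Facet → F2) + Pi.single s.stE.facet 1 := by
  classical
  have hne : rho s ≠ s := by
    intro h
    have h1 := rho_n s
    rw [h] at h1
    have h2 : (opp s.1.n).2 = !s.1.n.2 := rfl
    rw [← h1] at h2
    cases hb : s.1.n.2 <;> rw [hb] at h2 <;> simp at h2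
  have hf : (rho s).facet = s.stE.facet := FSt.facet_r2 _
  rw [← hf]
  funext v
  rw [c1_apply, Pi.add_apply]
  have h1 : ∀ t : P.FSt, (if t.facet = v then (if t = s ∨ t = rho s then (1 : F2) else 0) else 0) =
      (if t = s then (if s.facet = v then 1 else 0) else 0) +
      (if t = rho s then (if (rho s).facet = v then 1 else 0) else 0) := by
    intro t
    by_cases a : t = s
    · subst a
      simp [hne.symm]
    · by_cases b : t = rho s
      · subst b
        simp [hne]
      · simp [a, b]
  rw [Finset.sum_congr rfl fun t _ => h1 t, Finset.sum_add_distrib, Finset.sum_ite_eq',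
    Finset.sum_ite_eq']
  simp only [Finset.mem_univ, if_true, Pi.single_apply, eq_comm]

lemma finrank_map_c1 (hP : P.IsOrthogonalPolyhedron) :
    Fintype.card P.Facet ≤ Module.finrank F2 (Submodule.map (c1 P) (C1 P)) + 1 := by
  classical
  obtain ⟨f0⟩ := hP.2.nonempty
  set R := Submodule.map (c1 P) (C1 P) with hR
  have hedge : ∀ s : P.FSt,
      (Pi.single s.facet 1 : P.Facet → F2) + Pi.single s.stE.facet 1 ∈ R := by
    intro s
    rw [hR, Submodule.mem_map]
    refine ⟨_, ?_, c1_edge s⟩
    intro t
    show (if rho t = s ∨ rho t = rho s then (1 : F2) else 0) = if t = s ∨ t = rho s then 1 else 0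
    have h1 : rho t = s ↔ t = rho s := by
      constructor
      · rintro rfl; rw [rho_rho]
      · rintro rfl; rw [rho_rho]
    have h2 : rho t = rho s ↔ t = s := by
      constructor
      · intro h; rw [← rho_rho t, h, rho_rho]
      · rintro rfl; rfl
    have h3 : (rho t = s ∨ rho t = rho s) ↔ (t = s ∨ t = rho s) := by rw [h1, h2, or_comm]
    exact if_congr h3 rfl rfl
  have key : ∀ s : P.FSt, (Pi.single s.facet 1 : P.Facet → F2) + Pi.single f0 1 ∈ R := by
    intro s
    refine (fst_conn hP (fun s => (Pi.single s.facet 1 : P.Facet → F2) + Pi.single f0 1 ∈ R)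
      (fun s => Iff.rfl) ?_ s (MP42.can f0)).2 ?_
    · intro s
      have h1 := hedge s
      constructor
      · intro h2
        have h3 := R.add_mem h1 h2
        have h4 : (Pi.single s.facet 1 : P.Facet → F2) + Pi.single s.stE.facet 1 +
            (Pi.single s.stE.facet 1 + Pi.single f0 1) =
            Pi.single s.facet 1 + Pi.single f0 1 := by
          funext v
          simp only [Pi.add_apply]
          have := z2 ((Pi.single s.stE.facet 1 : P.Facet → F2) v)
          linear_combination this
        rwa [h4] at h3
      · intro h2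
        have h3 := R.add_mem h1 h2
        have h4 : (Pi.single s.facet 1 : P.Facet → F2) + Pi.single s.stE.facet 1 +
            (Pi.single s.facet 1 + Pi.single f0 1) =
            Pi.single s.stE.facet 1 + Pi.single f0 1 := by
          funext v
          simp only [Pi.add_apply]
          have := z2 ((Pi.single s.facet 1 : P.Facet → F2) v)
          linear_combination this
        rwa [h4] at h3
    · have h1 : (MP42.can f0 : P.FSt).facet = f0 := rfl
      show (Pi.single (MP42.can f0 : P.FSt).facet 1 : P.Facet → F2) + Pi.single f0 1 ∈ R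
      rw [h1]
      have : (Pi.single f0 1 : P.Facet → F2) + Pi.single f0 1 = 0 := by
        funext v
        exact z2 _
      rw [this]
      exact R.zero_mem
  have htop : (⊤ : Submodule F2 (P.Facet → F2)) ≤
      R ⊔ Submodule.span F2 {(Pi.single f0 1 : P.Facet → F2)} := by
    intro g _
    have h1 : g = ∑ v : P.Facet, g v • (Pi.single v 1 : P.Facet → F2) := by
      funext w
      simp [Finset.sum_apply, Pi.single_apply]
    rw [h1]
    refine Submodule.sum_mem _ fun v _ => Submodule.smul_mem _ _ ?_
    have h2 := key (MP42.can v)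
    have h3 : (Pi.single v 1 : P.Facet → F2) =
        (Pi.single (MP42.can v : P.FSt).facet 1 + Pi.single f0 1) + Pi.single f0 1 := by
      funext w
      simp only [Pi.add_apply]
      have := z2 ((Pi.single f0 1 : P.Facet → F2) w)
      have h4 : (MP42.can v : P.FSt).facet = v := rfl
      rw [h4]
      linear_combination -this
    rw [h3]
    exact Submodule.add_mem _ (Submodule.mem_sup_left h2)
      (Submodule.mem_sup_right (Submodule.mem_span_singleton_self _))
  have h1 := Submodule.finrank_mono htop
  rw [finrank_top, Module.finrank_fintype_fun_eq_card] at h1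
  have h2 := Submodule.finrank_add_le_finrank_add_finrank R
    (Submodule.span F2 {(Pi.single f0 1 : P.Facet → F2)})
  have h3 : Module.finrank F2 (Submodule.span F2 {(Pi.single f0 1 : P.Facet → F2)}) ≤ 1 :=
    finrank_span_le_card _ |>.trans (by simp)
  omega

/-- cocycles are coboundaries -/
lemma cocycle_bd (hP : P.IsOrthogonalPolyhedron) (h : Pool.BW.eul P = 2) :
    C1 P ⊓ LinearMap.ker (c1 P) = LinearMap.range (c0 P) := by
  have hc := card_of_eul hP h
  rw [Nat.card_eq_fintype_card, Nat.card_eq_fintype_card] at hc
  symm
  apply Submodule.eq_of_le_of_finrank_le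
  · rintro _ ⟨f, rfl⟩
    exact ⟨c0_mem f, c1_c0 f⟩
  · have h1 := LinearMap.finrank_range_add_finrank_ker ((c1 P).domRestrict (C1 P))
    have h2 : LinearMap.range ((c1 P).domRestrict (C1 P)) = Submodule.map (c1 P) (C1 P) := by
      rw [LinearMap.domRestrict, LinearMap.range_comp, Submodule.range_subtype]
    have h3 : Module.finrank F2 (LinearMap.ker ((c1 P).domRestrict (C1 P))) =
        Module.finrank F2 (C1 P ⊓ LinearMap.ker (c1 P) : Submodule F2 (P.FSt → F2)) := by
      rw [LinearMap.domRestrict, LinearMap.ker_comp]
      rw [← Submodule.map_comap_subtype]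
      exact (LinearEquiv.finrank_eq (Submodule.equivMapOfInjective _
        (C1 P).injective_subtype _))
    rw [h2, h3, finrank_C1] at h1
    have h4 := finrank_map_c1 hP
    have h5 := finrank_range_c0 hP
    omega

/-- **Cocycles are coboundaries**, with predicates. -/
theorem exists_colouring (hP : P.IsOrthogonalPolyhedron) (h : Pool.BW.eul P = 2)
    (c : P.FSt → Prop) (hc : ∀ s, c (rho s) ↔ c s)
    (hf : ∀ s, (c s ↔ c s.rL) ↔ (c s.r2 ↔ c s.rR)) :
    ∃ χ : Vt P → Prop, ∀ s, c s ↔ ¬ (χ (vt s) ↔ χ (vt (rho s))) := by
  classical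
  have h2 : (fun s => if c s then (1 : F2) else 0) ∈ C1 P ⊓ LinearMap.ker (c1 P) := by
    refine ⟨?_, ?_⟩
    · intro s
      show (if c (rho s) then (1 : F2) else 0) = if c s then 1 else 0
      simp only [hc]
    · show c1 P _ = 0
      funext f
      rw [c1_apply]
      set g : P.FSt → F2 := fun s => if c s then (1 : F2) else 0 with hg
      have h3 : ∀ t : P.FSt, g t + g t.rL + g t.r2 + g t.rR = 0 := by
        intro t
        have := hf t
        simp only [hg]
        by_cases a : c t <;> by_cases b : c t.rL <;> by_cases d : c t.r2 <;>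
          by_cases e : c t.rR <;> simp [a, b, d, e] at this ⊢ <;> decide
      set u : P.FSt := MP42.can f with hu
      have hf0 : u.facet = f := rfl
      have hset : (Finset.univ.filter fun t : P.FSt => t.facet = f) =
          {u, u.rL, u.r2, u.rR} := by
        ext t
        simp only [Finset.mem_filter, Finset.mem_univ, true_and, Finset.mem_insert,
          Finset.mem_singleton]
        constructor
        · intro ht
          rcases rot4 (ht.trans hf0.symm) with e | e | e | e
          · exact Or.inl e
          · exact Or.inr (Or.inr (Or.inl e))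
          · exact Or.inr (Or.inr (Or.inr e))
          · exact Or.inr (Or.inl e)
        · rintro (e | e | e | e) <;> rw [e]
          · rfl
          · rfl
          · rfl
          · rfl
      have d1 : u.rL ≠ u := fun e => by
        have h5 : u.rL.1.e.1 ≠ u.1.e.1 := cross_axis_right _ _ u.2.2
        rw [e] at h5; exact h5 rfl
      have d2 : u.r2 ≠ u := fun e => by
        have h5 : u.r2.1.e = opp u.1.e := rfl
        rw [e] at h5
        have h6 := congrArg Prod.snd h5
        have h7 : (opp u.1.e).2 = !u.1.e.2 := rfl
        rw [h7] at h6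
        cases hb : u.1.e.2 <;> rw [hb] at h6 <;> simp at h6
      have d3 : u.rR ≠ u := fun e => by
        apply d1
        conv_lhs => rw [← e]
        exact FSt.rR_rL u
      have d4 : u.rL ≠ u.r2 := fun e => by
        apply d1
        have h5 := congrArg FSt.rR e
        rw [FSt.rL_rR, ← FSt.rL_rL u, FSt.rL_rR] at h5
        exact h5.symm
      have d5 : u.rL ≠ u.rR := fun e => by
        apply d2
        have h5 := congrArg FSt.rL e
        rw [FSt.rL_rL, FSt.rR_rL] at h5
        exact h5
      have d6 : u.r2 ≠ u.rR := fun e => by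
        apply d3
        have h5 := congrArg FSt.rL e
        rw [FSt.rR_rL, FSt.r2_rL] at h5
        exact h5
      rw [← Finset.sum_filter, hset, Finset.sum_insert, Finset.sum_insert, Finset.sum_insert,
        Finset.sum_singleton]
      · calc _ = g u + g u.rL + g u.r2 + g u.rR := by
              show g u + (g u.rL + (g u.r2 + g u.rR)) = _
              ring
          _ = 0 := h3 u
      · simpa using d6
      · simp only [Finset.mem_insert, Finset.mem_singleton, not_or]
        exact ⟨d4, d5⟩
      · simp only [Finset.mem_insert, Finset.mem_singleton, not_or]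
        exact ⟨d1.symm, d2.symm, d3.symm⟩
  rw [cocycle_bd hP h] at h2
  obtain ⟨x, hx⟩ := h2
  refine ⟨fun v => x v = 1, fun s => ?_⟩
  have h3 : x (vt s) + x (vt (rho s)) = if c s then (1 : F2) else 0 := congrFun hx s
  have h4 : ∀ a b : F2, (a + b = 1 ↔ ¬ (a = 1 ↔ b = 1)) := by decide
  rw [← h4, h3]
  by_cases h5 : c s
  · simp [h5]
  · simp [h5]

end Pool.Agent.MP42NG
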