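import Pool.Agent.MP42.EO.Sel
import Pool.Agent.MP42.A1

/-!
# The insertion tree of the E/O scheme on the active units
-/

set_option autoImplicit false
set_option linter.unusedSectionVars false

namespace Pool.Agent.MP42.EO

open Pool.Agent.MP42.NE Pool.Agent.Helper55.UNF Pool.Agent.MP42

variable {P : Type*} {E : Equiv.Perm P} {τ : P → P} {ok : P → Bool → Bool → Bool → Prop}
  {MR : P → Prop}

/-- cycles of the first return -/
lemma ret_same_iff [Finite P] {A : P → Prop} {x y : {x // A x}} :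
    (ret E A).SameCycle x y ↔ E.SameCycle x.1 y.1 := by
  constructor
  · intro h
    obtain ⟨n, hn⟩ := h.exists_nat_pow_eq
    rw [← hn]
    clear hn h
    induction n with
    | zero => exact sR _
    | succ n ih =>
      rw [pow_succ', Equiv.Perm.mul_apply, ret_val, retFun_eq]
      exact ih.trans (s_pow _ _)
  · exact ret_sameCycle

namespace Sl

variable (S : Sl E τ ok MR)

open Classical in
/-- the sign of the direct unit -/
noncomputable def vD (c : P) : ℤ := if S.Pd (τ c) then 1 else -1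

open Classical in
/-- the signed strands -/
noncomputable def v (x : P) : ℤ :=
  if S.Dc x then S.vD x else if S.Dc (τ x) then S.vD (τ x)
  else if S.In1 x ∨ S.In1 (τ x) then -1 else if S.In2 x ∨ S.In2 (τ x) then 1
  else if x = τ S.yt ∨ x = S.yt then (if S.s then 2 else -2) else 0

variable {S}

lemma v_D {x : P} (h : S.Dc x) : S.v x = S.vD x := if_pos h

lemma not_Dc_of_big {x : P} (h : Big E τ x) : ¬ S.Dc x ∧ ¬ S.Dc (τ x) := by
  refine ⟨fun h' => h'.nb.1 h, fun h' => ?_⟩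
  have := h'.nb.2
  rw [S.L.ττ] at this
  exact this h

variable [Finite P]

lemma v_1 {x : P} (h : S.In1 x) : S.v x = -1 := by
  have hb := not_Dc_of_big (S := S) h.big
  unfold v
  rw [if_neg hb.1, if_neg hb.2, if_pos (Or.inl h)]

lemma v_2 {x : P} (h : S.In2 x) : S.v x = 1 := by
  have hb := not_Dc_of_big (S := S) h.big
  have h1 : ¬ (S.In1 x ∨ S.In1 (τ x)) := by
    rintro (h' | h')
    · exact h'.not2 h
    · exact S.L.g3 x ⟨h.big, h'.big⟩
  unfold v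
  rw [if_neg hb.1, if_neg hb.2, if_neg h1, if_pos (Or.inl h)]

lemma v_τ (x : P) : S.v (τ x) = S.v x := by
  classical
  have e3 : (S.In1 (τ x) ∨ S.In1 x) ↔ (S.In1 x ∨ S.In1 (τ x)) := or_comm
  have e4 : (S.In2 (τ x) ∨ S.In2 x) ↔ (S.In2 x ∨ S.In2 (τ x)) := or_comm
  have e1 : τ x = τ S.yt ↔ x = S.yt := by
    constructor
    · intro h; rw [← S.L.ττ x, h, S.L.ττ]
    · intro h; rw [h]
  have e2 : τ x = S.yt ↔ x = τ S.yt := by
    constructor
    · intro h; rw [← h, S.L.ττ]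
    · intro h; rw [h, S.L.ττ]
  have e5 : (τ x = τ S.yt ∨ τ x = S.yt) ↔ (x = τ S.yt ∨ x = S.yt) := by
    rw [e1, e2]; exact or_comm
  unfold v
  rw [S.L.ττ]
  by_cases h1 : S.Dc x
  · have h2 : ¬ S.Dc (τ x) := fun h' => h'.np h1.pt
    rw [if_neg h2, if_pos h1, if_pos h1]
  · by_cases h2 : S.Dc (τ x)
    · rw [if_pos h2, if_neg h1, if_pos h2]
    · rw [if_neg h2, if_neg h1, if_neg h1, if_neg h2]
      exact if_congr e3 rfl (if_congr e4 rfl (if_congr e5 rfl rfl))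

open Classical in
lemma v_yt : S.v S.yt = if S.s then 2 else -2 := by
  obtain ⟨h1, h2⟩ := root_not (S := S)
  unfold Inn In0 at h1 h2
  rw [not_or, not_or] at h1 h2
  unfold v
  rw [if_neg h1.1, if_neg h2.1, if_neg (not_or.2 ⟨h1.2.1, h2.2.1⟩),
    if_neg (not_or.2 ⟨h1.2.2, h2.2.2⟩), if_pos (Or.inr rfl)]

lemma v_not {x : P} (h : ¬ S.Act x) : S.v x = 0 := by
  unfold Act Inn at h
  simp only [not_or] at h
  obtain ⟨⟨a1, a2, a3⟩, ⟨b1, b2, b3⟩, c1, c2⟩ := h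
  have a1' : ¬ S.Dc x := a1
  have b1' : ¬ S.Dc (τ x) := b1
  unfold v
  rw [if_neg a1', if_neg b1', if_neg (not_or.2 ⟨a2, b2⟩), if_neg (not_or.2 ⟨a3, b3⟩),
    if_neg (not_or.2 ⟨c1, c2⟩)]

/-! ## First returns -/

lemma act_of {x : P} (h : S.Inn x) : S.Act x := Or.inl h
lemma act_of' {x : P} (h : S.Inn x) : S.Act (τ x) := Act.τ_iff.2 (Or.inl h)

lemma inn0 {c : P} (h : S.Dc c) : S.Inn c := Or.inl h
lemma inn1 {c : P} (h : S.Dc c) : S.Inn (nu E τ (bb E τ c)) := Or.inr (Or.inl ⟨c, h, rfl⟩)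
lemma inn2 {c : P} (h : S.Dc c) : S.Inn (nu E τ (nu E τ (bb E τ c))) :=
  Or.inr (Or.inr ⟨c, h, rfl⟩)

lemma ret0 {c : P} (h : S.Dc c) : retFun E S.Act c = τ (nu E τ (bb E τ c)) := by
  have h1 : (E ^ (kk E τ c + 1)) c = τ (nu E τ (bb E τ c)) := by
    rw [pow_succ', ← E_nu S.L]; rfl
  rw [← h1]
  refine retFun_eq_of ?_ ?_
  · rw [h1]; exact act_of' (inn1 h)
  · intro i hi
    exact not_act h (by omega) (by omega)

lemma ret1 {c : P} (h : S.Dc c) :
    retFun E S.Act (nu E τ (bb E τ c)) = τ (nu E τ (nu E τ (bb E τ c))) := by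
  rw [← E_nu S.L (nu E τ (bb E τ c))]
  refine retFun_step ?_
  rw [E_nu S.L (nu E τ (bb E τ c))]
  exact act_of' (inn2 h)

lemma ret2 {c : P} (h : S.Dc c) : retFun E S.Act (nu E τ (nu E τ (bb E τ c))) = τ c := by
  -- walking back on the other side
  have hw : ∀ i ≤ kk E τ c, (E ^ (i + 1)) (nu E τ (nu E τ (bb E τ c))) =
      τ ((E ^ (kk E τ c - i)) c) := by
    intro i
    induction i with
    | zero =>
      intro _
      rw [zero_add, pow_one, E_nu S.L, S.L.n3 _ h.isbig]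
      rfl
    | succ i ih =>
      intro hi
      rw [pow_succ', Equiv.Perm.mul_apply, ih (by omega)]
      have h1 := (h.walks (i := kk E τ c - i) (by omega)).2 (kk E τ c - (i + 1)) (by omega)
      rwa [show kk E τ c - (i + 1) + 1 = kk E τ c - i by omega] at h1
  have h1 := hw (kk E τ c) le_rfl
  rw [Nat.sub_self] at h1
  have h2 : (E ^ (kk E τ c + 1)) (nu E τ (nu E τ (bb E τ c))) = τ c := h1
  rw [← h2]
  refine retFun_eq_of ?_ ?_
  · rw [h2]; exact act_of' (inn0 h)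
  · intro i hi
    rw [hw i (by omega), Act.τ_iff]
    exact not_act h (by omega) (by omega)

/-! ## The net -/

variable (S)

/-- the other side -/
def τQ (x : {x // S.Act x}) : {x // S.Act x} := ⟨τ x.1, Act.τ_iff.2 x.2⟩

/-- the first active dart after `x`, other side -/
noncomputable def nQ (x : {x // S.Act x}) : P := τ (retFun E S.Act x.1)

variable {S}

lemma nQ0 {c : P} (h : S.Dc c) (ha : S.Act c) : S.nQ ⟨c, ha⟩ = nu E τ (bb E τ c) := by
  unfold nQ; rw [ret0 h, S.L.ττ]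

lemma nQ1 {c : P} (h : S.Dc c) (ha : S.Act (nu E τ (bb E τ c))) :
    S.nQ ⟨nu E τ (bb E τ c), ha⟩ = nu E τ (nu E τ (bb E τ c)) := by
  unfold nQ; rw [ret1 h, S.L.ττ]

lemma nQ2 {c : P} (h : S.Dc c) (ha : S.Act (nu E τ (nu E τ (bb E τ c)))) :
    S.nQ ⟨nu E τ (nu E τ (bb E τ c)), ha⟩ = c := by
  unfold nQ; rw [ret2 h, S.L.ττ]

lemma τQ_ret (x : {x // S.Act x}) : (S.τQ (ret E S.Act x)).1 = S.nQ x := rfl

/-- the values of the rotation -/
lemma nQ_cases {x : {x // S.Act x}} (h : S.Inn x.1) : ∃ c, S.Dc c ∧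
    ((x.1 = c ∧ S.nQ x = nu E τ (bb E τ c)) ∨
      (x.1 = nu E τ (bb E τ c) ∧ S.nQ x = nu E τ (nu E τ (bb E τ c))) ∨
      (x.1 = nu E τ (nu E τ (bb E τ c)) ∧ S.nQ x = c)) := by
  obtain ⟨x, hx⟩ := x
  rcases h with h | ⟨c, hc, h⟩ | ⟨c, hc, h⟩
  · exact ⟨x, h, Or.inl ⟨rfl, nQ0 h hx⟩⟩
  · have h' : x = nu E τ (bb E τ c) := h
    subst h'
    exact ⟨c, hc, Or.inr (Or.inl ⟨rfl, nQ1 hc hx⟩)⟩
  · have h' : x = nu E τ (nu E τ (bb E τ c)) := h
    subst h'
    exact ⟨c, hc, Or.inr (Or.inr ⟨rfl, nQ2 hc hx⟩)⟩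

variable (S)

/-- the insertion tree of the selection -/
noncomputable def net : Net {x // S.Act x} where
  E := ret E S.Act
  τ := S.τQ
  v := fun x => S.v x.1
  In := fun x => S.Inn x.1
  D := fun x => S.Dc x.1
  cp := fun x => S.Pd (τ x.1)
  r0 := ⟨τ S.yt, Or.inr (Or.inr (Or.inl rfl))⟩
  s := S.s
  ττ := fun x => Subtype.ext (S.L.ττ x.1)
  vτ := fun x => v_τ x.1
  inE := fun x hx => by
    obtain ⟨c, hc, ⟨_, h2⟩ | ⟨_, h2⟩ | ⟨_, h2⟩⟩ := nQ_cases hx
    · show S.Inn (S.nQ x); rw [h2]; exact inn1 hc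
    · show S.Inn (S.nQ x); rw [h2]; exact inn2 hc
    · show S.Inn (S.nQ x); rw [h2]; exact inn0 hc
  n3 := fun x hx => by
    obtain ⟨c, hc, h | h | h⟩ := nQ_cases hx
    · have e1 : S.τQ (ret E S.Act x) = ⟨nu E τ (bb E τ c), act_of (inn1 hc)⟩ :=
        Subtype.ext h.2
      have e2 : S.τQ (ret E S.Act ⟨nu E τ (bb E τ c), act_of (inn1 hc)⟩) =
          ⟨nu E τ (nu E τ (bb E τ c)), act_of (inn2 hc)⟩ := Subtype.ext (nQ1 hc _)
      have e3 : S.τQ (ret E S.Act ⟨nu E τ (nu E τ (bb E τ c)), act_of (inn2 hc)⟩) =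
          ⟨c, act_of (inn0 hc)⟩ := Subtype.ext (nQ2 hc _)
      rw [e1, e2, e3]
      exact Subtype.ext h.1.symm
    · have e1 : S.τQ (ret E S.Act x) = ⟨nu E τ (nu E τ (bb E τ c)), act_of (inn2 hc)⟩ :=
        Subtype.ext h.2
      have e2 : S.τQ (ret E S.Act ⟨c, act_of (inn0 hc)⟩) =
          ⟨nu E τ (bb E τ c), act_of (inn1 hc)⟩ := Subtype.ext (nQ0 hc _)
      have e3 : S.τQ (ret E S.Act ⟨nu E τ (nu E τ (bb E τ c)), act_of (inn2 hc)⟩) =
          ⟨c, act_of (inn0 hc)⟩ := Subtype.ext (nQ2 hc _)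
      rw [e1, e3, e2]
      exact Subtype.ext h.1.symm
    · have e1 : S.τQ (ret E S.Act x) = ⟨c, act_of (inn0 hc)⟩ := Subtype.ext h.2
      have e2 : S.τQ (ret E S.Act ⟨c, act_of (inn0 hc)⟩) =
          ⟨nu E τ (bb E τ c), act_of (inn1 hc)⟩ := Subtype.ext (nQ0 hc _)
      have e3 : S.τQ (ret E S.Act ⟨nu E τ (bb E τ c), act_of (inn1 hc)⟩) =
          ⟨nu E τ (nu E τ (bb E τ c)), act_of (inn2 hc)⟩ := Subtype.ext (nQ1 hc _)
      rw [e1, e2, e3]
      exact Subtype.ext h.1.symm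
  inτ := fun x h1 h2 => by
    constructor
    · intro h h'; exact h'.not h
    · intro h
      rcases x.2 with h' | h' | h' | h'
      · exact absurd h' h
      · exact h'
      · exact absurd (Subtype.ext h') h1
      · refine absurd (Subtype.ext ?_) h2
        show x.1 = τ (τ S.yt)
        rw [S.L.ττ]; exact h'
  r0i := (root_not (S := S)).2
  r0j := by
    show ¬ S.Inn (τ (τ S.yt))
    rw [S.L.ττ]; exact (root_not (S := S)).1
  DI := fun x h => inn0 h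
  cov := fun x hx => by
    obtain ⟨c, hc, h | h | h⟩ := nQ_cases hx
    · left; show S.Dc x.1; rw [h.1]; exact hc
    · right; right
      have e1 : S.τQ (ret E S.Act x) = ⟨nu E τ (nu E τ (bb E τ c)), act_of (inn2 hc)⟩ :=
        Subtype.ext h.2
      rw [e1]
      show S.Dc (S.nQ ⟨nu E τ (nu E τ (bb E τ c)), act_of (inn2 hc)⟩)
      rw [nQ2 hc]; exact hc
    · right; left
      show S.Dc (S.nQ x); rw [h.2]; exact hc
  v0 := fun x h h' => by
    show S.v x.1 = 1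
    rw [v_D h]; exact if_pos h'
  v0' := fun x h h' => by
    show S.v x.1 = -1
    rw [v_D h]; exact if_neg h'
  v1 := fun x h => by
    obtain ⟨x, hx⟩ := x
    show S.v (S.nQ ⟨x, hx⟩) = -1
    rw [nQ0 h]
    exact v_1 ⟨x, h, rfl⟩
  v2 := fun x h => by
    obtain ⟨x, hx⟩ := x
    have e1 : S.τQ (ret E S.Act ⟨x, hx⟩) = ⟨nu E τ (bb E τ x), act_of (inn1 h)⟩ :=
      Subtype.ext (nQ0 h _)
    show S.v (S.τQ (ret E S.Act (S.τQ (ret E S.Act ⟨x, hx⟩)))).1 = 1
    rw [e1]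
    show S.v (S.nQ ⟨nu E τ (bb E τ x), act_of (inn1 h)⟩) = 1
    rw [nQ1 h]
    exact v_2 ⟨x, h, rfl⟩
  vr := fun h => by
    show S.v (τ S.yt) = 2
    rw [v_τ, v_yt, if_pos h]
  vr' := fun h => by
    show S.v (τ S.yt) = -2
    rw [v_τ, v_yt, if_neg h]

variable {S}

lemma net_ν0 {c : P} (h : S.Dc c) (ha : S.Act c) :
    (S.net.ν ⟨c, ha⟩).1 = nu E τ (bb E τ c) := nQ0 h ha

lemma net_ν1 {c : P} (h : S.Dc c) (ha : S.Act c) :
    (S.net.ν (S.net.ν ⟨c, ha⟩)).1 = nu E τ (nu E τ (bb E τ c)) := by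
  have e1 : S.net.ν ⟨c, ha⟩ = ⟨nu E τ (bb E τ c), act_of (inn1 h)⟩ := Subtype.ext (nQ0 h _)
  rw [e1]
  exact nQ1 h _

theorem net_cls : S.net.Cls (fun x => S.pop x.1) where
  popE := fun x => popcyc (by
    show E.SameCycle x.1 (retFun E S.Act x.1)
    rw [retFun_eq]; exact s_pow _ _)
  Dp := fun x h => h.np
  Dq := fun x h => h.pt
  pr := by
    have h1 := S.B.p1' _ S.hyt
    have h2 := S.dyt
    show S.pop (τ S.yt) ↔ ¬ S.s
    unfold pop
    rw [show S.dep (τ S.yt) = 0 by omega]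
    simp
  pr' := by
    show S.pop (τ (τ S.yt)) ↔ S.s
    unfold pop
    rw [S.L.ττ, S.dyt]
    simp

/-- the child dart of a tree dart -/
lemma cc_same {c : {x // S.Act x}} (h : S.Dc c.1) :
    (S.Pd (τ c.1) → E.SameCycle (S.net.cc c).1 (τ c.1)) ∧
    (¬ S.Pd (τ c.1) → E.SameCycle (S.net.cc c).1 c.1) := by
  constructor
  · intro hp
    have h1 : (S.net.cc c).1 = nu E τ (nu E τ (bb E τ c.1)) := by
      rw [Net.cc_pos hp]; exact net_ν1 h c.2
    rw [h1]; exact h.nn_same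
  · intro hp
    have h1 : S.net.cc c = c := Net.cc_neg hp
    rw [h1]

lemma hh_same {c : {x // S.Act x}} (h : S.Dc c.1) :
    (S.Pd (τ c.1) → E.SameCycle (S.net.hh c).1 c.1) ∧
    (¬ S.Pd (τ c.1) → E.SameCycle (S.net.hh c).1 (τ c.1)) := by
  constructor
  · intro hp
    have h1 : S.net.hh c = c := Net.hh_pos hp
    rw [h1]
  · intro hp
    have h1 : (S.net.hh c).1 = nu E τ (nu E τ (bb E τ c.1)) := by
      rw [Net.hh_neg hp]; exact net_ν1 h c.2
    rw [h1]; exact h.nn_same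

lemma Dc.pd_or {c : P} (h : S.Dc c) (hp : ¬ S.Pd (τ c)) :
    S.Pd c ∧ c ≠ S.yt ∧ S.dep (τ c) + 1 = S.dep c := by
  rcases h.child with ⟨a1, a2, a3, a4⟩ | ⟨a1, a2, a3, a4⟩
  · exact ⟨a1, a3, a4⟩
  · exact absurd a1 hp

lemma Dc.pd_or' {c : P} (h : S.Dc c) (hp : S.Pd (τ c)) :
    τ c ≠ S.yt ∧ S.dep c + 1 = S.dep (τ c) := by
  rcases h.child with ⟨a1, a2, a3, a4⟩ | ⟨a1, a2, a3, a4⟩
  · exact absurd hp a2
  · exact ⟨a3, a4⟩

lemma act_reg {x : P} (h : S.Act x) : Reg E τ S.r x := by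
  have key : ∀ x, S.Inn x → Reg E τ S.r x := by
    rintro x (h | ⟨c, hc, rfl⟩ | ⟨c, hc, rfl⟩)
    · exact Dc.reg h
    · have h1 : Reg E τ S.r (bb E τ c) := (Dc.reg hc).trans (Reg.cyc hc.bb_same.1)
      exact Reg.τ_iff.2 (Reg.E_iff.2 h1)
    · have h1 : Reg E τ S.r (bb E τ c) := (Dc.reg hc).trans (Reg.cyc hc.bb_same.1)
      exact Reg.τ_iff.2 (Reg.E_iff.2 (Reg.τ_iff.2 (Reg.E_iff.2 h1)))
  rcases h with h | h | h | h
  · exact key x h
  · exact Reg.τ_iff.1 (key _ h)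
  · rw [h]; exact Reg.τ_iff.2 (S.B.pG _ S.hyt)
  · rw [h]; exact S.B.pG _ S.hyt

theorem net_tree : S.net.Tree := by
  have hE : S.net.E = ret E S.Act := rfl
  have hr0 : S.net.r0.1 = τ S.yt := rfl
  have ht0 : (S.net.τ S.net.r0).1 = S.yt := S.L.ττ _
  have d1 := S.dyt
  have d2 := S.B.p1' _ S.hyt
  refine ⟨⟨fun x => S.dep x.1, ?_, ?_⟩, ?_, ?_, ?_, ?_, ?_⟩
  · intro x
    exact dcyc (by
      show E.SameCycle x.1 (retFun E S.Act x.1)
      rw [retFun_eq]; exact s_pow _ _)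
  · intro c hc
    have hc' : S.Dc c.1 := hc
    by_cases hp : S.Pd (τ c.1)
    · have h1 := dcyc (S := S) ((cc_same hc').1 hp)
      have h2 := dcyc (S := S) ((hh_same hc').1 hp)
      have h3 := hc'.pd_or' hp
      show S.dep (S.net.hh c).1 < S.dep (S.net.cc c).1
      omega
    · have h1 := dcyc (S := S) ((cc_same hc').2 hp)
      have h2 := dcyc (S := S) ((hh_same hc').2 hp)
      have h3 := hc'.pd_or hp
      show S.dep (S.net.hh c).1 < S.dep (S.net.cc c).1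
      omega
  · intro c c' hc hc' h
    have hc1 : S.Dc c.1 := hc
    have hc1' : S.Dc c'.1 := hc'
    have h1 : E.SameCycle (S.net.cc c).1 (S.net.cc c').1 := ret_same_iff.1 h
    apply Subtype.ext
    by_cases hp : S.Pd (τ c.1)
    · by_cases hp' : S.Pd (τ c'.1)
      · have h2 := (((cc_same hc1).1 hp).symm.trans h1).trans ((cc_same hc1').1 hp')
        have h3 := S.B.p2 _ _ hp hp' h2
        rw [← S.L.ττ c.1, h3, S.L.ττ]
      · have h2 := (((cc_same hc1).1 hp).symm.trans h1).trans ((cc_same hc1').2 hp')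
        have h3 := S.B.p2 _ _ hp (hc1'.pd_or hp').1 h2
        exact absurd (h3 ▸ hc1.pt) hc1'.np
    · by_cases hp' : S.Pd (τ c'.1)
      · have h2 := (((cc_same hc1).2 hp).symm.trans h1).trans ((cc_same hc1').1 hp')
        have h3 := S.B.p2 _ _ (hc1.pd_or hp).1 hp' h2
        exact absurd (h3.symm ▸ hc1'.pt) hc1.np
      · have h2 := (((cc_same hc1).2 hp).symm.trans h1).trans ((cc_same hc1').2 hp')
        exact S.B.p2 _ _ (hc1.pd_or hp).1 (hc1'.pd_or hp').1 h2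
  · intro c hc h
    have hc1 : S.Dc c.1 := hc
    have h1 : E.SameCycle (S.net.cc c).1 (τ S.yt) := ret_same_iff.1 h
    have h2 := dcyc (S := S) h1
    by_cases hp : S.Pd (τ c.1)
    · have h3 := dcyc (S := S) ((cc_same hc1).1 hp)
      have h4 := dyp (S := S) hp
      omega
    · have h3 := dcyc (S := S) ((cc_same hc1).2 hp)
      have h4 := dyp (S := S) (hc1.pd_or hp).1
      omega
  · intro c hc h
    have hc1 : S.Dc c.1 := hc
    have h1 : E.SameCycle (S.net.cc c).1 S.yt := by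
      have := ret_same_iff.1 h
      rwa [ht0] at this
    by_cases hp : S.Pd (τ c.1)
    · exact (hc1.pd_or' hp).1 (S.B.p2 _ _ hp S.hyt (((cc_same hc1).1 hp).symm.trans h1))
    · have h3 := hc1.pd_or hp
      exact h3.2.1 (S.B.p2 _ _ h3.1 S.hyt (((cc_same hc1).2 hp).symm.trans h1))
  · intro x hx hx'
    have hxr := act_reg x.2
    have h1 : ¬ E.SameCycle x.1 (τ S.yt) := fun h => hx (ret_same_iff.2 h)
    have h2 : ¬ E.SameCycle x.1 S.yt := fun h => hx' (ret_same_iff.2 (by rw [ht0]; exact h))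
    have h3 : 0 < S.dep x.1 := by
      rcases Nat.eq_zero_or_pos (S.dep x.1) with h0 | h0
      · exfalso
        have h4 := (S.B.d0 _ hxr).1 h0
        have h5 := (S.B.d0 (τ S.yt) (Reg.τ_iff.2 (S.B.pG _ S.hyt))).1 (by omega)
        exact h1 (h4.symm.trans h5)
      · exact h0
    obtain ⟨y, hy, hxy⟩ := S.B.p3 _ hxr h3
    have hyy : y ≠ S.yt := fun h => h2 (h ▸ hxy)
    by_cases hp : S.pop y
    · have hc : S.Dc (τ y) := ⟨y, hy, hyy, Or.inr ⟨hp, rfl⟩⟩
      refine ⟨⟨τ y, act_of (inn0 hc)⟩, hc, ret_same_iff.2 ?_⟩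
      have hpd : S.Pd (τ (τ y)) := by rw [S.L.ττ]; exact hy
      have h4 := (cc_same (c := ⟨τ y, act_of (inn0 hc)⟩) hc).1 hpd
      have h5 : E.SameCycle (S.net.cc ⟨τ y, act_of (inn0 hc)⟩).1 y := by
        have h6 : τ (τ y) = y := S.L.ττ y
        have h4' : E.SameCycle (S.net.cc ⟨τ y, act_of (inn0 hc)⟩).1 (τ (τ y)) := h4
        rwa [h6] at h4'
      exact hxy.trans h5.symm
    · have hc : S.Dc y := ⟨y, hy, hyy, Or.inl ⟨hp, rfl⟩⟩
      refine ⟨⟨y, act_of (inn0 hc)⟩, hc, ret_same_iff.2 ?_⟩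
      have hpd : ¬ S.Pd (τ y) := by
        intro h
        have h6 := S.B.p1' _ h
        have h7 := S.B.p1' _ hy
        rw [S.L.ττ] at h6
        omega
      exact hxy.trans ((cc_same (c := ⟨y, act_of (inn0 hc)⟩) hc).2 hpd).symm
  · intro h
    have h1 : E.SameCycle (τ S.yt) S.yt := by
      have := ret_same_iff.1 h
      rwa [ht0, hr0] at this
    have := dcyc (S := S) h1
    omega

end Sl

end Pool.Agent.MP42.EO
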