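import Pool.Agent.MP42.EO.If2
import Pool.Agent.MP42.EO.Cls2
import Pool.Agent.MP42.EO.SelNet

/-!
# The insertion tree of a link system
-/

set_option autoImplicit false
set_option linter.unusedSectionVars false

namespace Pool.Agent.MP42.EO

open Pool.Agent.MP42.NE Pool.Agent.Helper55.UNF Pool.Agent.MP42

variable {P : Type*} {E : Equiv.Perm P} {τ : P → P} {ok : P → Bool → Bool → Bool → Prop}
  {MR Kr : P → Prop}

/-! ## General facts -/

section Gen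

lemma nu_inj2 (hττ : ∀ x, τ (τ x) = x) {x y : P} (h : nu E τ x = nu E τ y) : x = y := by
  have h1 := congrArg τ h
  unfold nu at h1
  rw [hττ, hττ] at h1
  exact E.injective h1

lemma E_nu2 (hττ : ∀ x, τ (τ x) = x) (x : P) : E x = τ (nu E τ x) := (hττ _).symm

/-- one step over a corner that is not big -/
lemma step_nb2 (hττ : ∀ x, τ (τ x) = x) {x : P} (h : ¬ Big E τ x)
    (hne : ¬ E.SameCycle x (τ x)) : E (τ (E x)) = τ x := by
  unfold Big at h
  have h1 : nu E τ x ≠ x := by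
    intro h'
    apply hne
    have h2 : E x = τ x := by
      have := congrArg τ h'
      rwa [show τ (nu E τ x) = E x from hττ _] at this
    rw [← h2, sE]
  have h2 : nu E τ (nu E τ x) = x := by
    by_contra hc
    exact h ⟨h1, hc⟩
  have h3 := congrArg τ h2
  rwa [show τ (nu E τ (nu E τ x)) = E (τ (E x)) from hττ _] at h3

/-- the other side of the composite ribbon -/
lemma walk2 (hττ : ∀ x, τ (τ x) = x) {c : P} (hne : ¬ E.SameCycle c (τ c)) {k : ℕ}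
    (hk : ∀ i < k, ¬ Big E τ ((E ^ i) c)) : ∀ i ≤ k, E.SameCycle (τ c) (τ ((E ^ i) c)) ∧
      ∀ j < i, E (τ ((E ^ (j + 1)) c)) = τ ((E ^ j) c) := by
  intro i
  induction i with
  | zero => intro _; exact ⟨sR _, fun j hj => absurd hj (Nat.not_lt_zero j)⟩
  | succ i ih =>
    intro hi
    obtain ⟨h1, h2⟩ := ih (by omega)
    have h3 : ¬ E.SameCycle ((E ^ i) c) (τ ((E ^ i) c)) := by
      intro h'
      exact hne (((s_pow i c).trans h').trans h1.symm)
    have h4 := step_nb2 hττ (hk i (by omega)) h3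
    have h5 : E (τ ((E ^ (i + 1)) c)) = τ ((E ^ i) c) := by
      rw [pow_succ']; exact h4
    refine ⟨?_, ?_⟩
    · rw [← sE, h5]; exact h1
    · intro j hj
      rcases Nat.lt_or_ge j i with h | h
      · exact h2 j h
      · have : j = i := by omega
        rw [this]; exact h5

lemma isbig2 {c : P} (h : ∃ k : ℕ, Big E τ ((E ^ k) c)) : Big E τ (bb E τ c) :=
  Nat.sInf_mem (s := {k | Big E τ ((E ^ k) c)}) h

lemma not_bb2 {c : P} {i : ℕ} (h : i < kk E τ c) : ¬ Big E τ ((E ^ i) c) := fun h' =>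
  Nat.notMem_of_lt_sInf (s := {k | Big E τ ((E ^ k) c)}) h h'

lemma kk_big {c : P} (h : Big E τ c) : kk E τ c = 0 := by
  have h1 : kk E τ c ≤ 0 := Nat.sInf_le (s := {k | Big E τ ((E ^ k) c)}) (by
    show Big E τ ((E ^ 0) c)
    exact h)
  omega

lemma bb_big {c : P} (h : Big E τ c) : bb E τ c = c := by
  unfold bb
  rw [kk_big h]; rfl

/-- the two faces of the unit and of the big corner -/
lemma bb_same2 (hττ : ∀ x, τ (τ x) = x) {c : P} (hne : ¬ E.SameCycle c (τ c)) :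
    E.SameCycle c (bb E τ c) ∧ E.SameCycle (τ c) (τ (bb E τ c)) :=
  ⟨s_pow _ _, (walk2 hττ hne (fun _ hj => not_bb2 hj) _ le_rfl).1⟩

end Gen

namespace Loc2

variable (L : Loc2 E τ ok MR Kr)

include L

lemma big_nu {x : P} (h : Big E τ x) : Big E τ (nu E τ x) := by
  have h3 := L.n3 x h
  refine ⟨fun h' => ?_, fun h' => ?_⟩
  · exact h.1 (nu_inj2 L.ττ h')
  · rw [h3] at h'
    exact h.1 h'.symm

lemma big_of_nu {x : P} (h : Big E τ (nu E τ x)) : Big E τ x := by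
  refine ⟨fun h' => ?_, fun h' => ?_⟩
  · exact h.1 (by rw [h', h'])
  · apply h.2
    rw [h']

/-- predicates that are invariant along the faces and over the middle real units -/
lemma inv {x y : P} (h : Reg E τ x y) {ψ : P → Prop}
    (h1 : ∀ x, ψ (E x) ↔ ψ x) (h2 : ∀ x, MR x → ψ x → ψ (τ x)) : ψ x ↔ ψ y := by
  refine h.inv h1 (L.conn ψ h1 ?_)
  intro z hz
  refine ⟨fun h => ?_, h2 z hz⟩
  have := h2 (τ z) (L.MRτ z hz) h
  rwa [L.ττ] at this

end Loc2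

/-- a link system on a whole region -/
structure Sl2 {P : Type*} (E : Equiv.Perm P) (τ : P → P) (ok : P → Bool → Bool → Bool → Prop)
    (MR Kr : P → Prop) where
  r : P
  s : Prop
  L : Loc2 E τ ok MR Kr
  T : LS E τ ok MR Kr r s
  hU : ∀ x, Reg E τ r x → T.U x

namespace Sl2

variable (S : Sl2 E τ ok MR Kr)

variable {S}

lemma exbig {c : P} (h : S.T.Dc c) : ∃ k : ℕ, Big E τ ((E ^ k) c) := by
  rcases S.T.kind c h with h1 | ⟨q, hq, ⟨_, rfl⟩ | ⟨_, rfl⟩⟩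
  · exact h1.2.2.2.2.1
  · exact ⟨0, S.L.big_nu (S.L.Kb q hq)⟩
  · exact ⟨0, S.L.big_nu (S.L.big_nu (S.L.Kb q hq))⟩

lemma isbig {c : P} (h : S.T.Dc c) : Big E τ (bb E τ c) := isbig2 (exbig h)

lemma nbt {c : P} (h : S.T.Dc c) : ¬ Big E τ (τ c) := by
  rcases S.T.kind c h with h1 | ⟨q, hq, ⟨_, rfl⟩ | ⟨_, rfl⟩⟩
  · exact h1.2.1
  · exact fun h' => S.L.g3 _ ⟨S.L.big_nu (S.L.Kb q hq), h'⟩
  · exact fun h' => S.L.g3 _ ⟨S.L.big_nu (S.L.big_nu (S.L.Kb q hq)), h'⟩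

lemma dreg {c : P} (h : S.T.Dc c) : Reg E τ S.r c := S.T.UR c (S.T.dU c h).1

lemma chd_pos {c : P} (h : S.T.cp c) : chd τ S.T.cp c = τ c := if_pos h
lemma chd_neg {c : P} (h : ¬ S.T.cp c) : chd τ S.T.cp c = c := if_neg h

variable [Finite P]

lemma dcyc {x y : P} (h : E.SameCycle x y) : S.T.dep y = S.T.dep x := cyc_eq S.T.depE h

lemma popcyc {x y : P} (h : E.SameCycle x y) : S.T.pop y ↔ S.T.pop x :=
  cyc_iff (fun x => S.T.popE x) h

lemma dne {c : P} (h : S.T.Dc c) : ¬ E.SameCycle c (τ c) := by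
  intro h'
  have e := dcyc (S := S) h'
  obtain ⟨h1, h2⟩ := S.T.dlt c h
  by_cases hp : S.T.cp c
  · have := h1 hp; omega
  · have := h2 hp; omega

/-- a direct unit is determined by its two faces -/
lemma deq {c c' : P} (h : S.T.Dc c) (h' : S.T.Dc c') (h1 : E.SameCycle c c')
    (h2 : E.SameCycle (τ c) (τ c')) : c = c' := by
  have e1 := dcyc (S := S) h1
  have e2 := dcyc (S := S) h2
  obtain ⟨a1, a2⟩ := S.T.dlt c h
  obtain ⟨b1, b2⟩ := S.T.dlt c' h'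
  by_cases hp : S.T.cp c
  · by_cases hp' : S.T.cp c'
    · exact S.T.chU c c' h h' (by rw [chd_pos hp, chd_pos hp']; exact h2)
    · have := a1 hp; have := b2 hp'; omega
  · by_cases hp' : S.T.cp c'
    · have := a2 hp; have := b1 hp'; omega
    · exact S.T.chU c c' h h' (by rw [chd_neg hp, chd_neg hp']; exact h1)

lemma deq' {c c' : P} (h : S.T.Dc c) (h' : S.T.Dc c') :
    ¬ (E.SameCycle c (τ c') ∧ E.SameCycle (τ c) c') := by
  rintro ⟨h1, h2⟩
  have e1 := dcyc (S := S) h1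
  have e2 := dcyc (S := S) h2
  obtain ⟨a1, a2⟩ := S.T.dlt c h
  obtain ⟨b1, b2⟩ := S.T.dlt c' h'
  by_cases hp : S.T.cp c
  · by_cases hp' : S.T.cp c'
    · have := a1 hp; have := b1 hp'; omega
    · have e := S.T.chU c c' h h' (by rw [chd_pos hp, chd_neg hp']; exact h2)
      rw [← e] at h1
      exact dne h h1
  · by_cases hp' : S.T.cp c'
    · have e := S.T.chU c c' h h' (by rw [chd_neg hp, chd_pos hp']; exact h1)
      rw [← e] at h1
      exact dne h h1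
    · have := a2 hp; have := b2 hp'; omega

/-- a direct unit does not join the two root faces -/
lemma not_root {c : P} (h : S.T.Dc c) :
    ¬ (E.SameCycle c S.T.yt ∧ E.SameCycle (τ c) (τ S.T.yt)) ∧
    ¬ (E.SameCycle c (τ S.T.yt) ∧ E.SameCycle (τ c) S.T.yt) := by
  obtain ⟨h1, h2⟩ := S.T.chR c h
  by_cases hp : S.T.cp c
  · rw [chd_pos hp] at h1 h2
    exact ⟨fun h' => h1 h'.2, fun h' => h2 h'.2⟩
  · rw [chd_neg hp] at h1 h2
    exact ⟨fun h' => h2 h'.1, fun h' => h1 h'.1⟩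

lemma walks {c : P} (h : S.T.Dc c) {i : ℕ} (hi : i ≤ kk E τ c) :
    E.SameCycle (τ c) (τ ((E ^ i) c)) ∧ ∀ j < i, E (τ ((E ^ (j + 1)) c)) = τ ((E ^ j) c) :=
  walk2 S.L.ττ (dne h) (fun _ hj => not_bb2 hj) i hi

lemma bb_same {c : P} (h : S.T.Dc c) :
    E.SameCycle c (bb E τ c) ∧ E.SameCycle (τ c) (τ (bb E τ c)) := bb_same2 S.L.ττ (dne h)

/-- the face of `τ c` at the vertex -/
lemma nn_same {c : P} (h : S.T.Dc c) : E.SameCycle (nu E τ (nu E τ (bb E τ c))) (τ c) := by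
  rw [← Es, E_nu2 S.L.ττ, S.L.n3 _ (isbig h)]
  exact (bb_same h).2.symm

variable (S)

/-- pass corners -/
def In1 (x : P) : Prop := ∃ c, S.T.Dc c ∧ x = nu E τ (bb E τ c)
/-- the third corners -/
def In2 (x : P) : Prop := ∃ c, S.T.Dc c ∧ x = nu E τ (nu E τ (bb E τ c))
/-- darts with a used vertex at the east end -/
def Inn (x : P) : Prop := S.T.Dc x ∨ S.In1 x ∨ S.In2 x
/-- active darts -/
def Act (x : P) : Prop := S.Inn x ∨ S.Inn (τ x) ∨ x = τ S.T.yt ∨ x = S.T.yt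

variable {S}

lemma In1.big {x : P} (h : S.In1 x) : Big E τ x := by
  obtain ⟨c, hc, rfl⟩ := h
  exact S.L.big_nu (isbig hc)

lemma In2.big {x : P} (h : S.In2 x) : Big E τ x := by
  obtain ⟨c, hc, rfl⟩ := h
  exact S.L.big_nu (S.L.big_nu (isbig hc))

lemma bb_ne {c c' : P} (h : S.T.Dc c) (h' : S.T.Dc c') : bb E τ c ≠ nu E τ (bb E τ c') ∧
    bb E τ c ≠ nu E τ (nu E τ (bb E τ c')) := by
  refine ⟨S.T.uq c c' h h', fun e => ?_⟩
  have e1 : nu E τ (bb E τ c) = bb E τ c' := by rw [e, S.L.n3 _ (isbig h')]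
  exact S.T.uq c' c h' h e1.symm

lemma In1.not2 {x : P} (h : S.In1 x) : ¬ S.In2 x := by
  obtain ⟨c, hc, rfl⟩ := h
  rintro ⟨c', hc', e⟩
  exact (bb_ne hc hc').1 (nu_inj2 S.L.ττ e)

/-- a big direct unit is its own big corner -/
lemma not_Dc1 {x : P} (h : S.In1 x) : ¬ S.T.Dc x ∧ ¬ S.T.Dc (τ x) := by
  refine ⟨fun h' => ?_, fun h' => ?_⟩
  · have h1 := bb_big h.big
    obtain ⟨c, hc, e⟩ := h
    exact (bb_ne h' hc).1 (by rw [h1, e])
  · have := nbt h'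
    rw [S.L.ττ] at this
    exact this h.big

lemma not_Dc2 {x : P} (h : S.In2 x) : ¬ S.T.Dc x ∧ ¬ S.T.Dc (τ x) := by
  refine ⟨fun h' => ?_, fun h' => ?_⟩
  · have h1 := bb_big h.big
    obtain ⟨c, hc, e⟩ := h
    exact (bb_ne h' hc).2 (by rw [h1, e])
  · have := nbt h'
    rw [S.L.ττ] at this
    exact this h.big

lemma Dc_τ {x : P} (h : S.T.Dc x) : ¬ S.T.Dc (τ x) := fun h' =>
  deq' h h' ⟨by rw [S.L.ττ], sR _⟩

lemma Inn.not {x : P} (h : S.Inn x) : ¬ S.Inn (τ x) := by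
  rintro h'
  rcases h with h | h | h
  · rcases h' with h' | h' | h'
    · exact Dc_τ h h'
    · exact nbt h h'.big
    · exact nbt h h'.big
  · rcases h' with h' | h' | h'
    · exact (not_Dc1 h).2 h'
    · exact S.L.g3 x ⟨h.big, h'.big⟩
    · exact S.L.g3 x ⟨h.big, h'.big⟩
  · rcases h' with h' | h' | h'
    · exact (not_Dc2 h).2 h'
    · exact S.L.g3 x ⟨h.big, h'.big⟩
    · exact S.L.g3 x ⟨h.big, h'.big⟩

lemma root_not : ¬ S.Inn S.T.yt ∧ ¬ S.Inn (τ S.T.yt) := by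
  have hm := S.T.y1
  have hm' := S.L.MRτ _ hm
  refine ⟨?_, ?_⟩
  · rintro (h | h | h)
    · exact (not_root h).1 ⟨sR _, sR _⟩
    · exact S.L.MRb _ hm h.big
    · exact S.L.MRb _ hm h.big
  · rintro (h | h | h)
    · refine (not_root h).2 ⟨sR _, ?_⟩
      rw [S.L.ττ]
    · exact S.L.MRb _ hm' h.big
    · exact S.L.MRb _ hm' h.big

lemma Act.τ_iff {x : P} : S.Act (τ x) ↔ S.Act x := by
  unfold Act
  rw [S.L.ττ]
  have e1 : τ x = τ S.T.yt ↔ x = S.T.yt := by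
    constructor
    · intro h; rw [← S.L.ττ x, h, S.L.ττ]
    · intro h; rw [h]
  have e2 : τ x = S.T.yt ↔ x = τ S.T.yt := by
    constructor
    · intro h; rw [← h, S.L.ττ]
    · intro h; rw [h, S.L.ττ]
  rw [e1, e2]
  tauto

/-- the units between the direct unit and its big corner are not active -/
lemma not_act {c : P} (h : S.T.Dc c) {i : ℕ} (h0 : 0 < i) (hi : i ≤ kk E τ c) :
    ¬ S.Act ((E ^ i) c) := by
  have h1 : E.SameCycle c ((E ^ i) c) := s_pow i c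
  have h2 := (walks h hi).1
  have h3 : ¬ Big E τ (τ ((E ^ i) c)) := by
    obtain ⟨j, rfl⟩ : ∃ j, i = j + 1 := ⟨i - 1, by omega⟩
    have e : τ ((E ^ (j + 1)) c) = nu E τ ((E ^ j) c) := by
      rw [pow_succ']; rfl
    rw [e]
    intro h'
    exact not_bb2 (by omega) (S.L.big_of_nu h')
  have hik : Big E τ ((E ^ i) c) → i = kk E τ c := by
    intro h'
    by_contra hc
    exact not_bb2 (c := c) (i := i) (by omega) h'
  rintro ((h' | h' | h') | (h' | h' | h') | h' | h')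
  · have e := deq h h' h1 h2
    have h4 := isbig h
    unfold EO.bb at h4
    rw [show kk E τ c = (kk E τ c - i) + i by omega, pow_add, Equiv.Perm.mul_apply, ← e] at h4
    exact not_bb2 (by omega) h4
  · have hb := hik h'.big
    obtain ⟨c', hc', e⟩ := h'
    refine (bb_ne h hc').1 ?_
    rw [← e, hb]; rfl
  · have hb := hik h'.big
    obtain ⟨c', hc', e⟩ := h'
    refine (bb_ne h hc').2 ?_
    rw [← e, hb]; rfl
  · refine deq' h h' ⟨?_, h2⟩
    rw [S.L.ττ]; exact h1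
  · exact h3 h'.big
  · exact h3 h'.big
  · refine (not_root h).2 ⟨?_, ?_⟩
    · rw [← h']; exact h1
    · rw [h', S.L.ττ] at h2; exact h2
  · refine (not_root h).1 ⟨?_, ?_⟩
    · rw [← h']; exact h1
    · rw [h'] at h2; exact h2

/-! ## The signed strands -/

variable (S)

open Classical in
/-- the sign of the direct unit -/
noncomputable def vD (c : P) : ℤ := if S.T.cp c then 1 else -1

open Classical in
/-- the signed strands -/
noncomputable def v (x : P) : ℤ :=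
  if S.T.Dc x then S.vD x else if S.T.Dc (τ x) then S.vD (τ x)
  else if S.In1 x ∨ S.In1 (τ x) then -1 else if S.In2 x ∨ S.In2 (τ x) then 1
  else if x = τ S.T.yt ∨ x = S.T.yt then (if S.s then 2 else -2) else 0

variable {S}

lemma v_D {x : P} (h : S.T.Dc x) : S.v x = S.vD x := if_pos h

lemma v_1 {x : P} (h : S.In1 x) : S.v x = -1 := by
  have hb := not_Dc1 h
  unfold v
  rw [if_neg hb.1, if_neg hb.2, if_pos (Or.inl h)]

lemma v_2 {x : P} (h : S.In2 x) : S.v x = 1 := by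
  have hb := not_Dc2 h
  have h1 : ¬ (S.In1 x ∨ S.In1 (τ x)) := by
    rintro (h' | h')
    · exact h'.not2 h
    · exact S.L.g3 x ⟨h.big, h'.big⟩
  unfold v
  rw [if_neg hb.1, if_neg hb.2, if_neg h1, if_pos (Or.inl h)]

lemma v_τ (x : P) : S.v (τ x) = S.v x := by
  classical
  have e3 : (S.In1 (τ x) ∨ S.In1 x) ↔ (S.In1 x ∨ S.In1 (τ x)) := or_comm
  have e4 : (S.In2 (τ x) ∨ S.In2 x) ↔ (S.In2 x ∨ S.In2 (τ x)) := or_comm
  have e1 : τ x = τ S.T.yt ↔ x = S.T.yt := by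
    constructor
    · intro h; rw [← S.L.ττ x, h, S.L.ττ]
    · intro h; rw [h]
  have e2 : τ x = S.T.yt ↔ x = τ S.T.yt := by
    constructor
    · intro h; rw [← h, S.L.ττ]
    · intro h; rw [h, S.L.ττ]
  have e5 : (τ x = τ S.T.yt ∨ τ x = S.T.yt) ↔ (x = τ S.T.yt ∨ x = S.T.yt) := by
    rw [e1, e2]; exact or_comm
  unfold v
  rw [S.L.ττ]
  by_cases h1 : S.T.Dc x
  · have h2 : ¬ S.T.Dc (τ x) := Dc_τ h1
    rw [if_neg h2, if_pos h1, if_pos h1]
  · by_cases h2 : S.T.Dc (τ x)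
    · rw [if_pos h2, if_neg h1, if_pos h2]
    · rw [if_neg h2, if_neg h1, if_neg h1, if_neg h2]
      exact if_congr e3 rfl (if_congr e4 rfl (if_congr e5 rfl rfl))

open Classical in
lemma v_yt : S.v S.T.yt = if S.s then 2 else -2 := by
  obtain ⟨h1, h2⟩ := root_not (S := S)
  unfold Inn at h1 h2
  rw [not_or, not_or] at h1 h2
  unfold v
  rw [if_neg h1.1, if_neg h2.1, if_neg (not_or.2 ⟨h1.2.1, h2.2.1⟩),
    if_neg (not_or.2 ⟨h1.2.2, h2.2.2⟩), if_pos (Or.inr rfl)]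

/-! ## First returns -/

lemma act_of {x : P} (h : S.Inn x) : S.Act x := Or.inl h
lemma act_of' {x : P} (h : S.Inn x) : S.Act (τ x) := Act.τ_iff.2 (Or.inl h)

lemma inn0 {c : P} (h : S.T.Dc c) : S.Inn c := Or.inl h
lemma inn1 {c : P} (h : S.T.Dc c) : S.Inn (nu E τ (bb E τ c)) := Or.inr (Or.inl ⟨c, h, rfl⟩)
lemma inn2 {c : P} (h : S.T.Dc c) : S.Inn (nu E τ (nu E τ (bb E τ c))) :=
  Or.inr (Or.inr ⟨c, h, rfl⟩)

lemma ret0 {c : P} (h : S.T.Dc c) : retFun E S.Act c = τ (nu E τ (bb E τ c)) := by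
  have h1 : (E ^ (kk E τ c + 1)) c = τ (nu E τ (bb E τ c)) := by
    rw [pow_succ', ← E_nu2 S.L.ττ]; rfl
  rw [← h1]
  refine retFun_eq_of ?_ ?_
  · rw [h1]; exact act_of' (inn1 h)
  · intro i hi
    exact not_act h (by omega) (by omega)

lemma ret1 {c : P} (h : S.T.Dc c) :
    retFun E S.Act (nu E τ (bb E τ c)) = τ (nu E τ (nu E τ (bb E τ c))) := by
  rw [← E_nu2 S.L.ττ (nu E τ (bb E τ c))]
  refine retFun_step ?_
  rw [E_nu2 S.L.ττ (nu E τ (bb E τ c))]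
  exact act_of' (inn2 h)

lemma ret2 {c : P} (h : S.T.Dc c) : retFun E S.Act (nu E τ (nu E τ (bb E τ c))) = τ c := by
  -- walking back on the other side
  have hw : ∀ i ≤ kk E τ c, (E ^ (i + 1)) (nu E τ (nu E τ (bb E τ c))) =
      τ ((E ^ (kk E τ c - i)) c) := by
    intro i
    induction i with
    | zero =>
      intro _
      rw [zero_add, pow_one, E_nu2 S.L.ττ, S.L.n3 _ (isbig h)]
      rfl
    | succ i ih =>
      intro hi
      rw [pow_succ', Equiv.Perm.mul_apply, ih (by omega)]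
      have h1 := (walks h (i := kk E τ c - i) (by omega)).2 (kk E τ c - (i + 1)) (by omega)
      rwa [show kk E τ c - (i + 1) + 1 = kk E τ c - i by omega] at h1
  have h1 := hw (kk E τ c) le_rfl
  rw [Nat.sub_self] at h1
  have h2 : (E ^ (kk E τ c + 1)) (nu E τ (nu E τ (bb E τ c))) = τ c := h1
  rw [← h2]
  refine retFun_eq_of ?_ ?_
  · rw [h2]; exact act_of' (inn0 h)
  · intro i hi
    rw [hw i (by omega), Act.τ_iff]
    exact not_act h (by omega) (by omega)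

/-! ## The net -/

variable (S)

/-- the other side -/
def τQ (x : {x // S.Act x}) : {x // S.Act x} := ⟨τ x.1, Act.τ_iff.2 x.2⟩

/-- the first active dart after `x`, other side -/
noncomputable def nQ (x : {x // S.Act x}) : P := τ (retFun E S.Act x.1)

variable {S}

lemma nQ0 {c : P} (h : S.T.Dc c) (ha : S.Act c) : S.nQ ⟨c, ha⟩ = nu E τ (bb E τ c) := by
  unfold nQ; rw [ret0 h, S.L.ττ]

lemma nQ1 {c : P} (h : S.T.Dc c) (ha : S.Act (nu E τ (bb E τ c))) :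
    S.nQ ⟨nu E τ (bb E τ c), ha⟩ = nu E τ (nu E τ (bb E τ c)) := by
  unfold nQ; rw [ret1 h, S.L.ττ]

lemma nQ2 {c : P} (h : S.T.Dc c) (ha : S.Act (nu E τ (nu E τ (bb E τ c)))) :
    S.nQ ⟨nu E τ (nu E τ (bb E τ c)), ha⟩ = c := by
  unfold nQ; rw [ret2 h, S.L.ττ]

/-- the values of the rotation -/
lemma nQ_cases {x : {x // S.Act x}} (h : S.Inn x.1) : ∃ c, S.T.Dc c ∧
    ((x.1 = c ∧ S.nQ x = nu E τ (bb E τ c)) ∨
      (x.1 = nu E τ (bb E τ c) ∧ S.nQ x = nu E τ (nu E τ (bb E τ c))) ∨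
      (x.1 = nu E τ (nu E τ (bb E τ c)) ∧ S.nQ x = c)) := by
  obtain ⟨x, hx⟩ := x
  rcases h with h | ⟨c, hc, h⟩ | ⟨c, hc, h⟩
  · exact ⟨x, h, Or.inl ⟨rfl, nQ0 h hx⟩⟩
  · have h' : x = nu E τ (bb E τ c) := h
    subst h'
    exact ⟨c, hc, Or.inr (Or.inl ⟨rfl, nQ1 hc hx⟩)⟩
  · have h' : x = nu E τ (nu E τ (bb E τ c)) := h
    subst h'
    exact ⟨c, hc, Or.inr (Or.inr ⟨rfl, nQ2 hc hx⟩)⟩

variable (S)

/-- the insertion tree of the link system -/
noncomputable def net : Net {x // S.Act x} where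
  E := ret E S.Act
  τ := S.τQ
  v := fun x => S.v x.1
  In := fun x => S.Inn x.1
  D := fun x => S.T.Dc x.1
  cp := fun x => S.T.cp x.1
  r0 := ⟨τ S.T.yt, Or.inr (Or.inr (Or.inl rfl))⟩
  s := S.s
  ττ := fun x => Subtype.ext (S.L.ττ x.1)
  vτ := fun x => v_τ x.1
  inE := fun x hx => by
    obtain ⟨c, hc, ⟨_, h2⟩ | ⟨_, h2⟩ | ⟨_, h2⟩⟩ := nQ_cases hx
    · show S.Inn (S.nQ x); rw [h2]; exact inn1 hc
    · show S.Inn (S.nQ x); rw [h2]; exact inn2 hc
    · show S.Inn (S.nQ x); rw [h2]; exact inn0 hc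
  n3 := fun x hx => by
    obtain ⟨c, hc, h | h | h⟩ := nQ_cases hx
    · have e1 : S.τQ (ret E S.Act x) = ⟨nu E τ (bb E τ c), act_of (inn1 hc)⟩ :=
        Subtype.ext h.2
      have e2 : S.τQ (ret E S.Act ⟨nu E τ (bb E τ c), act_of (inn1 hc)⟩) =
          ⟨nu E τ (nu E τ (bb E τ c)), act_of (inn2 hc)⟩ := Subtype.ext (nQ1 hc _)
      have e3 : S.τQ (ret E S.Act ⟨nu E τ (nu E τ (bb E τ c)), act_of (inn2 hc)⟩) =
          ⟨c, act_of (inn0 hc)⟩ := Subtype.ext (nQ2 hc _)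
      rw [e1, e2, e3]
      exact Subtype.ext h.1.symm
    · have e1 : S.τQ (ret E S.Act x) = ⟨nu E τ (nu E τ (bb E τ c)), act_of (inn2 hc)⟩ :=
        Subtype.ext h.2
      have e2 : S.τQ (ret E S.Act ⟨c, act_of (inn0 hc)⟩) =
          ⟨nu E τ (bb E τ c), act_of (inn1 hc)⟩ := Subtype.ext (nQ0 hc _)
      have e3 : S.τQ (ret E S.Act ⟨nu E τ (nu E τ (bb E τ c)), act_of (inn2 hc)⟩) =
          ⟨c, act_of (inn0 hc)⟩ := Subtype.ext (nQ2 hc _)
      rw [e1, e3, e2]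
      exact Subtype.ext h.1.symm
    · have e1 : S.τQ (ret E S.Act x) = ⟨c, act_of (inn0 hc)⟩ := Subtype.ext h.2
      have e2 : S.τQ (ret E S.Act ⟨c, act_of (inn0 hc)⟩) =
          ⟨nu E τ (bb E τ c), act_of (inn1 hc)⟩ := Subtype.ext (nQ0 hc _)
      have e3 : S.τQ (ret E S.Act ⟨nu E τ (bb E τ c), act_of (inn1 hc)⟩) =
          ⟨nu E τ (nu E τ (bb E τ c)), act_of (inn2 hc)⟩ := Subtype.ext (nQ1 hc _)
      rw [e1, e2, e3]
      exact Subtype.ext h.1.symm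
  inτ := fun x h1 h2 => by
    constructor
    · intro h h'; exact h'.not h
    · intro h
      rcases x.2 with h' | h' | h' | h'
      · exact absurd h' h
      · exact h'
      · exact absurd (Subtype.ext h') h1
      · refine absurd (Subtype.ext ?_) h2
        show x.1 = τ (τ S.T.yt)
        rw [S.L.ττ]; exact h'
  r0i := (root_not (S := S)).2
  r0j := by
    show ¬ S.Inn (τ (τ S.T.yt))
    rw [S.L.ττ]; exact (root_not (S := S)).1
  DI := fun x h => inn0 h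
  cov := fun x hx => by
    obtain ⟨c, hc, h | h | h⟩ := nQ_cases hx
    · left; show S.T.Dc x.1; rw [h.1]; exact hc
    · right; right
      have e1 : S.τQ (ret E S.Act x) = ⟨nu E τ (nu E τ (bb E τ c)), act_of (inn2 hc)⟩ :=
        Subtype.ext h.2
      rw [e1]
      show S.T.Dc (S.nQ ⟨nu E τ (nu E τ (bb E τ c)), act_of (inn2 hc)⟩)
      rw [nQ2 hc]; exact hc
    · right; left
      show S.T.Dc (S.nQ x); rw [h.2]; exact hc
  v0 := fun x h h' => by
    show S.v x.1 = 1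
    rw [v_D h]; exact if_pos h'
  v0' := fun x h h' => by
    show S.v x.1 = -1
    rw [v_D h]; exact if_neg h'
  v1 := fun x h => by
    obtain ⟨x, hx⟩ := x
    show S.v (S.nQ ⟨x, hx⟩) = -1
    rw [nQ0 h]
    exact v_1 ⟨x, h, rfl⟩
  v2 := fun x h => by
    obtain ⟨x, hx⟩ := x
    have e1 : S.τQ (ret E S.Act ⟨x, hx⟩) = ⟨nu E τ (bb E τ x), act_of (inn1 h)⟩ :=
      Subtype.ext (nQ0 h _)
    show S.v (S.τQ (ret E S.Act (S.τQ (ret E S.Act ⟨x, hx⟩)))).1 = 1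
    rw [e1]
    show S.v (S.nQ ⟨nu E τ (bb E τ x), act_of (inn1 h)⟩) = 1
    rw [nQ1 h]
    exact v_2 ⟨x, h, rfl⟩
  vr := fun h => by
    show S.v (τ S.T.yt) = 2
    rw [v_τ, v_yt, if_pos h]
  vr' := fun h => by
    show S.v (τ S.T.yt) = -2
    rw [v_τ, v_yt, if_neg h]

variable {S}

lemma net_ν0 {c : P} (h : S.T.Dc c) (ha : S.Act c) :
    (S.net.ν ⟨c, ha⟩).1 = nu E τ (bb E τ c) := nQ0 h ha

lemma net_ν1 {c : P} (h : S.T.Dc c) (ha : S.Act c) :
    (S.net.ν (S.net.ν ⟨c, ha⟩)).1 = nu E τ (nu E τ (bb E τ c)) := by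
  have e1 : S.net.ν ⟨c, ha⟩ = ⟨nu E τ (bb E τ c), act_of (inn1 h)⟩ := Subtype.ext (nQ0 h _)
  rw [e1]
  exact nQ1 h _

/-- same-class links -/
def Fc (S : Sl2 E τ ok MR Kr) (x : P) : Prop := S.T.pop x ↔ S.T.pop (τ x)

theorem net_cls : S.net.Cls2 (fun x => S.T.pop x.1) (fun x => S.Fc x.1) where
  popE := fun x => popcyc (by
    show E.SameCycle x.1 (retFun E S.Act x.1)
    rw [retFun_eq]; exact s_pow _ _)
  reg := fun c hD hF => by
    obtain ⟨c, hc⟩ := c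
    have hD' : S.T.Dc c := hD
    have hF' : ¬ (S.T.pop c ↔ S.T.pop (τ c)) := hF
    have e1 : S.T.pop (S.net.ν (S.net.ν ⟨c, hc⟩)).1 ↔ S.T.pop (τ c) := by
      rw [net_ν1 hD' hc]
      exact (popcyc (nn_same hD')).symm
    show ¬ S.T.pop c ∧ S.T.pop (S.net.ν (S.net.ν ⟨c, hc⟩)).1
    rw [e1]
    obtain ⟨c1, c2⟩ := S.T.cls c hD'
    by_cases hp : S.T.cp c
    · have := c1 hp; tauto
    · have := c2 hp; tauto
  sp := fun c hD hF => by
    obtain ⟨c, hc⟩ := c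
    have hD' : S.T.Dc c := hD
    have hF' : (S.T.pop c ↔ S.T.pop (τ c)) := hF
    have e1 : S.T.pop (S.net.ν (S.net.ν ⟨c, hc⟩)).1 ↔ S.T.pop (τ c) := by
      rw [net_ν1 hD' hc]
      exact (popcyc (nn_same hD')).symm
    show (S.T.cp c ∧ S.T.pop c ∧ S.T.pop (S.net.ν (S.net.ν ⟨c, hc⟩)).1) ∨
      (¬ S.T.cp c ∧ ¬ S.T.pop c ∧ ¬ S.T.pop (S.net.ν (S.net.ν ⟨c, hc⟩)).1)
    rw [e1]
    obtain ⟨c1, c2⟩ := S.T.cls c hD'
    by_cases hp : S.T.cp c
    · have := c1 hp; tauto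
    · have := c2 hp; tauto
  pr := S.T.pr
  pr' := by
    show S.T.pop (τ (τ S.T.yt)) ↔ S.s
    rw [S.L.ττ]
    exact S.T.pr'

/-- same-class links are the free links at a `K_y` -/
lemma spec {c : P} (h : S.T.Dc c) (hF : S.Fc c) :
    ∃ q, Kr q ∧ ((S.T.cp c ∧ c = nu E τ q) ∨ (¬ S.T.cp c ∧ c = nu E τ (nu E τ q))) := by
  rcases S.T.kind c h with h1 | h1
  · exact absurd (hF.2 h1.2.2.2.1) h1.2.2.1
  · exact h1

lemma lanes {c : P} (h : S.T.Dc c) (hF : S.Fc c) (a : Bool) :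
    ok (nu E τ (bb E τ c)) false a a ∧ ok (nu E τ (nu E τ (bb E τ c))) true a a := by
  obtain ⟨q, hq, ⟨_, rfl⟩ | ⟨_, rfl⟩⟩ := spec h hF
  · have hb := S.L.Kb q hq
    rw [bb_big (S.L.big_nu hb), S.L.n3 q hb]
    exact ⟨S.L.Kz q hq a, S.L.K0 q hq true a⟩
  · have hb := S.L.Kb q hq
    rw [bb_big (S.L.big_nu (S.L.big_nu hb)), S.L.n3 q hb]
    exact ⟨S.L.K0 q hq false a, S.L.Kx q hq a⟩

lemma demand {c : P} (h : S.T.Dc c) (hF : ¬ S.Fc c) :
    ∃ a b d, ok (nu E τ (bb E τ c)) false b a ∧ ok (nu E τ (nu E τ (bb E τ c))) true d b := by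
  rcases S.T.kind c h with h1 | ⟨q, hq, ⟨_, rfl⟩ | ⟨_, rfl⟩⟩
  · exact S.L.g2 _ (isbig h) h1.2.2.2.2.2
  · have hb := S.L.Kb q hq
    rw [bb_big (S.L.big_nu hb), S.L.n3 q hb]
    exact ⟨true, true, true, S.L.Kz q hq _, S.L.K0 q hq true _⟩
  · have hb := S.L.Kb q hq
    rw [bb_big (S.L.big_nu (S.L.big_nu hb)), S.L.n3 q hb]
    exact ⟨true, true, true, S.L.K0 q hq false _, S.L.Kx q hq _⟩

/-- the corner of the child -/
lemma cc_same {c : {x // S.Act x}} (h : S.T.Dc c.1) :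
    E.SameCycle (S.net.cc c).1 (chd τ S.T.cp c.1) := by
  by_cases hp : S.T.cp c.1
  · have h1 : (S.net.cc c).1 = nu E τ (nu E τ (bb E τ c.1)) := by
      rw [Net.cc_pos (N := S.net) (c := c) hp]; exact net_ν1 h c.2
    rw [h1, chd_pos hp]; exact nn_same h
  · have h1 : S.net.cc c = c := Net.cc_neg (N := S.net) (c := c) hp
    rw [h1, chd_neg hp]

lemma dep_lt {c : {x // S.Act x}} (h : S.T.Dc c.1) :
    S.T.dep (S.net.hh c).1 < S.T.dep (S.net.cc c).1 := by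
  obtain ⟨h1, h2⟩ := S.T.dlt c.1 h
  by_cases hp : S.T.cp c.1
  · have e1 : (S.net.cc c).1 = nu E τ (nu E τ (bb E τ c.1)) := by
      rw [Net.cc_pos (N := S.net) (c := c) hp]; exact net_ν1 h c.2
    have e2 : S.net.hh c = c := Net.hh_pos (N := S.net) (c := c) hp
    have e3 := dcyc (S := S) (nn_same h)
    rw [e1, e2]
    have := h1 hp
    omega
  · have e1 : S.net.cc c = c := Net.cc_neg (N := S.net) (c := c) hp
    have e2 : (S.net.hh c).1 = nu E τ (nu E τ (bb E τ c.1)) := by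
      rw [Net.hh_neg (N := S.net) (c := c) hp]; exact net_ν1 h c.2
    have e3 := dcyc (S := S) (nn_same h)
    rw [e1, e2]
    have := h2 hp
    omega

lemma act_reg {x : P} (h : S.Act x) : Reg E τ S.r x := by
  have key : ∀ x, S.Inn x → Reg E τ S.r x := by
    rintro x (h | ⟨c, hc, rfl⟩ | ⟨c, hc, rfl⟩)
    · exact dreg h
    · have h1 : Reg E τ S.r (bb E τ c) := (dreg hc).trans (Reg.cyc (bb_same hc).1)
      exact Reg.τ_iff.2 (Reg.E_iff.2 h1)
    · have h1 : Reg E τ S.r (bb E τ c) := (dreg hc).trans (Reg.cyc (bb_same hc).1)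
      exact Reg.τ_iff.2 (Reg.E_iff.2 (Reg.τ_iff.2 (Reg.E_iff.2 h1)))
  rcases h with h | h | h | h
  · exact key x h
  · exact Reg.τ_iff.1 (key _ h)
  · rw [h]; exact S.T.UR _ S.T.y5
  · rw [h]; exact S.T.UR _ S.T.y4

/-- every face of the region has an active dart -/
lemma ex_act {x : P} (h : Reg E τ S.r x) : ∃ y, S.Act y ∧ E.SameCycle x y := by
  by_cases h1 : E.SameCycle x (τ S.T.yt)
  · exact ⟨_, Or.inr (Or.inr (Or.inl rfl)), h1⟩
  by_cases h2 : E.SameCycle x S.T.yt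
  · exact ⟨_, Or.inr (Or.inr (Or.inr rfl)), h2⟩
  obtain ⟨c, hc, hxc⟩ := S.T.chE x (S.hU x h) h1 h2
  by_cases hp : S.T.cp c
  · rw [chd_pos hp] at hxc
    exact ⟨_, act_of' (inn0 hc), hxc⟩
  · rw [chd_neg hp] at hxc
    exact ⟨_, act_of (inn0 hc), hxc⟩

theorem net_tree : S.net.Tree := by
  have hr0 : S.net.r0.1 = τ S.T.yt := rfl
  have ht0 : (S.net.τ S.net.r0).1 = S.T.yt := S.L.ττ _
  refine ⟨⟨fun x => S.T.dep x.1, ?_, ?_⟩, ?_, ?_, ?_, ?_, ?_⟩
  · intro x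
    exact dcyc (by
      show E.SameCycle x.1 (retFun E S.Act x.1)
      rw [retFun_eq]; exact s_pow _ _)
  · intro c hc
    exact dep_lt hc
  · intro c c' hc hc' h
    have hc1 : S.T.Dc c.1 := hc
    have hc1' : S.T.Dc c'.1 := hc'
    have h1 : E.SameCycle (S.net.cc c).1 (S.net.cc c').1 := ret_same_iff.1 h
    exact Subtype.ext (S.T.chU _ _ hc1 hc1' (((cc_same hc1).symm.trans h1).trans (cc_same hc1')))
  · intro c hc h
    have hc1 : S.T.Dc c.1 := hc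
    have h1 : E.SameCycle (S.net.cc c).1 (τ S.T.yt) := ret_same_iff.1 h
    exact (S.T.chR _ hc1).1 ((cc_same hc1).symm.trans h1)
  · intro c hc h
    have hc1 : S.T.Dc c.1 := hc
    have h1 : E.SameCycle (S.net.cc c).1 S.T.yt := by
      have := ret_same_iff.1 h
      rwa [ht0] at this
    exact (S.T.chR _ hc1).2 ((cc_same hc1).symm.trans h1)
  · intro x hx hx'
    have hxr := act_reg x.2
    have h1 : ¬ E.SameCycle x.1 (τ S.T.yt) := fun h => hx (ret_same_iff.2 h)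
    have h2 : ¬ E.SameCycle x.1 S.T.yt := fun h => hx' (ret_same_iff.2 (by rw [ht0]; exact h))
    obtain ⟨c, hc, hxc⟩ := S.T.chE x.1 (S.hU x.1 hxr) h1 h2
    refine ⟨⟨c, act_of (inn0 hc)⟩, hc, ret_same_iff.2 ?_⟩
    exact hxc.trans (cc_same (c := ⟨c, act_of (inn0 hc)⟩) hc).symm
  · intro h
    have h1 : E.SameCycle (τ S.T.yt) S.T.yt := by
      have := ret_same_iff.1 h
      rwa [ht0, hr0] at this
    exact S.T.y3 (S.T.y2.trans h1)

end Sl2

end Pool.Agent.MP42.EO
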