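import Pool.Agent.MP42.EO.VL

/-!
# The vertices with six facets and no edge parallel to `a`: the local table (owner helper70)
-/

set_option autoImplicit false

namespace Pool.Agent.MP42NG.Loc8

/-- the ribbon dart `q` is the diagonal at a `K_a` -/
def kyL (a b m q : ℕ) : Bool := bg a b m q && !(way a b m q)

/-- the facts at a `K_a` -/
def f5 (a b m q : ℕ) : Bool :=
  !(kyL a b m q) || ((q / 8 == a) && wl a (nuL a b m q) && wl a (nuL a b m (nuL a b m q)) &&
    okL a b m (nuL a b m q) true false false && okL a b m (nuL a b m q) true true true &&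
    okL a b m (nuL a b m (nuL a b m q)) false false false &&
    okL a b m (nuL a b m (nuL a b m q)) false true true &&
    !(kyL a b m (nuL a b m q)) && !(kyL a b m (nuL a b m (nuL a b m q))) &&
    (nuL a b m (nuL a b m (nuL a b m q)) == q) &&
    -- kinds of the two flat units
    !(nuL a b m q / 8 == b) && !(kpi m (nuL a b m q) / 8 == b) &&
    (nuL a b m (nuL a b m q) / 8 == b) && (kpi m (nuL a b m (nuL a b m q)) / 8 == b))

lemma f5_all : ∀ m < 256, allT f5 m = true := by decide +kernel

/-- the line of ribbons goes on -/
def f6 (a b m q : ℕ) : Bool :=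
  !(shx a m == m) || (wl a (nuL a b m q) && (nuL a b m (nuL a b m q) == q) &&
    ((nuL a b m q % 8).testBit a == !(q % 8).testBit a) &&
    (nuL a b m q / 8 == kpi m q / 8) && (kpi m (nuL a b m q) / 8 == q / 8))

lemma f6_all : ∀ m < 256, allT f6 m = true := by decide +kernel

end Pool.Agent.MP42NG.Loc8
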