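import Pool.Agent.MP42.EO.LocH
import Pool.Agent.MP42.EO.VK

/-!
# The six-facet points without an edge parallel to `a` (owner helper70)

`Ky hab x`: `x` is big and there is no way round the third corner, i.e. `x` is the diagonal whose
east end is a `K_a`.  The next ribbon dart is a flat `X` unit, the second next a flat `Z` unit.
-/

set_option autoImplicit false
set_option linter.unusedSectionVars false

namespace Pool.Agent.MP42.EO

open Pool.Agent.Helper55.UNF Pool.Agent.Helper55.UNF.GridSolid Pool.Agent.MP42.NE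
open Pool.Agent.MP42.Geo Pool.Agent.MP42NG Pool.Agent.MP42 Pool.Agent.MP42H
open Loc8

variable {Q : GridSolid} {a b : Fin 3}

/-- big and no way round the third corner -/
def Ky (hab : a ≠ b) (x : RD Q a b) : Prop :=
  Big (EH hab) (tH hab) x ∧ ¬ ∃ t1 t2 t3, okH b (nu (EH hab) (tH hab) x).1 false t2 t1 ∧
    okH b (nu (EH hab) (tH hab) (nu (EH hab) (tH hab) x)).1 true t3 t2

/-- the way round the third corner at the other points -/
theorem way_of_not_Ky (hab : a ≠ b) {x : RD Q a b} (hx : Big (EH hab) (tH hab) x)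
    (hk : ¬ Ky hab x) : ∃ t1 t2 t3, okH b (nu (EH hab) (tH hab) x).1 false t2 t1 ∧
      okH b (nu (EH hab) (tH hab) (nu (EH hab) (tH hab) x)).1 true t3 t2 := by
  by_contra h
  exact hk ⟨hx, h⟩

lemma way_iff (hab : a ≠ b) (x : RD Q a b) : way a b (pa x) (lo x) = true ↔
    ∃ t1 t2 t3, okH b (nu (EH hab) (tH hab) x).1 false t2 t1 ∧
      okH b (nu (EH hab) (tH hab) (nu (EH hab) (tH hab) x)).1 true t3 t2 := by
  have e1 : ∀ σ t t', okH b (nu (EH hab) (tH hab) x).1 σ t t' ↔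
      okL a b (pa x) (nuL a b (pa x) (lo x)) σ t t' = true := by
    intro σ t t'
    rw [okH_iff, pa_nu, lo_nu]
  have e2 : ∀ σ t t', okH b (nu (EH hab) (tH hab) (nu (EH hab) (tH hab) x)).1 σ t t' ↔
      okL a b (pa x) (nuL a b (pa x) (nuL a b (pa x) (lo x))) σ t t' = true := by
    intro σ t t'
    rw [okH_iff, pa_nu, pa_nu, lo_nu, pa_nu, lo_nu]
  simp only [e1, e2]
  unfold way
  simp only [List.any_eq_true, Bool.and_eq_true]
  constructor
  · rintro ⟨t1, -, t2, -, t3, -, h⟩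
    exact ⟨t1, t2, t3, h⟩
  · rintro ⟨t1, t2, t3, h⟩
    have hm : ∀ t : Bool, t ∈ [false, true] := by decide
    exact ⟨t1, hm t1, t2, hm t2, t3, hm t3, h⟩

lemma Ky_iff (hab : a ≠ b) (x : RD Q a b) : Ky hab x ↔ kyL a b (pa x) (lo x) = true := by
  unfold Ky kyL
  rw [← way_iff, big_iff, Bool.and_eq_true, Bool.not_eq_true', Bool.not_eq_true]

/-- **the facts at a `K_a`** -/
theorem Ky.facts (hM : Q.IsManifold) (hab : a ≠ b) {x : RD Q a b} (hx : Ky hab x) :
    Real x.1 ∧ (nu (EH hab) (tH hab) x).1.1.1.e.1 = a ∧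
      (nu (EH hab) (tH hab) (nu (EH hab) (tH hab) x)).1.1.1.e.1 = a ∧
      (∀ t, okH b (nu (EH hab) (tH hab) x).1 true t t) ∧
      (∀ t, okH b (nu (EH hab) (tH hab) (nu (EH hab) (tH hab) x)).1 false t t) ∧
      ¬ Ky hab (nu (EH hab) (tH hab) x) ∧
      ¬ Ky hab (nu (EH hab) (tH hab) (nu (EH hab) (tH hab) x)) ∧
      nu (EH hab) (tH hab) (nu (EH hab) (tH hab) (nu (EH hab) (tH hab) x)) = x := by
  have h := x.fact f5_all hM hab
  unfold f5 at h
  rw [(Ky_iff hab x).1 hx] at h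
  simp only [Bool.not_true, Bool.false_or, Bool.and_eq_true, beq_iff_eq] at h
  obtain ⟨⟨⟨⟨⟨⟨⟨⟨⟨⟨⟨⟨⟨h1, h2⟩, h3⟩, h4⟩, h5⟩, h6⟩, h7⟩, h8⟩, h9⟩, h10⟩, -⟩, -⟩, -⟩, -⟩ := h
  refine ⟨?_, ?_, ?_, ?_, ?_, ?_, ?_, ?_⟩
  · rw [lo_div] at h1
    exact Fin.ext h1
  · apply of_wl
    rw [lo_nu]; exact h2
  · apply of_wl
    rw [lo_nu, pa_nu, lo_nu]; exact h3
  · intro t
    rw [okH_iff, pa_nu, lo_nu]
    cases t
    · exact h4
    · exact h5
  · intro t
    rw [okH_iff, pa_nu, pa_nu, lo_nu, pa_nu, lo_nu]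
    cases t
    · exact h6
    · exact h7
  · rw [Ky_iff, pa_nu, lo_nu]
    intro hc
    rw [hc] at h8
    simp at h8
  · rw [Ky_iff, pa_nu, pa_nu, lo_nu, pa_nu, lo_nu]
    intro hc
    rw [hc] at h9
    simp at h9
  · rw [nu3_eq_iff]; exact h10

/-- the types at a wall ribbon depend only on the two axes -/
lemma okH_congr {x y : RD Q a b} (h1 : x.1.1.1.d.1 = y.1.1.1.d.1)
    (h2 : x.1.1.stN.1.d.1 = y.1.1.stN.1.d.1) (σ t t' : Bool) :
    okH b x.1 σ t t' ↔ okH b y.1 σ t t' := by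
  unfold okH okF
  rw [h1, h2]

variable {P : GridSolid} {n : ℕ} {hn : 0 < n}

/-- **the next unit of a line of ribbons** -/
theorem next_unit (hM : (P.refine n hn).IsManifold) (hab : a ≠ b)
    {z : RD (P.refine n hn) a b} (hz : z.1.1.1.e.1 = a)
    (hd : ¬ (n : ℤ) ∣ pt (tH hab z) a) :
    (EH hab).symm z = nu (EH hab) (tH hab) (tH hab z) ∧
      nu (EH hab) (tH hab) ((EH hab).symm z) = tH hab z ∧
      ((EH hab).symm z).1.1.1.e.1 = a ∧ up ((EH hab).symm z) = up z ∧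
      pt ((EH hab).symm z) = pt (tH hab z) ∧ (EH hab).symm z ≠ tH hab z ∧
      ∀ σ t t', okH b ((EH hab).symm z).1 σ t t' ↔ okH b z.1 σ t t' := by
  set w := tH hab z with hw
  obtain ⟨hw1, hw2, -⟩ := tH_wall hab hz
  set u := nu (EH hab) (tH hab) w with hu
  have hsym := pat_sym (P := P) hn (pt w) a hd
  have h := w.fact f6_all hM hab
  unfold f6 at h
  have hs' : shx (a : ℕ) (pa w) = pa w := hsym
  rw [hs'] at h
  simp only [beq_self_eq_true, Bool.not_true, Bool.false_or, Bool.and_eq_true, beq_iff_eq] at h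
  obtain ⟨⟨⟨⟨h1, h2⟩, h3⟩, h4⟩, h5⟩ := h
  have hlu : lo u = nuL a b (pa w) (lo w) := lo_nu hab w
  have hpu : pa u = pa w := pa_nu hab w
  have hptu : pt u = pt w := pt_nu hab w
  have h22 : nu (EH hab) (tH hab) u = w := by
    rw [eq_iff_lo (by rw [pt_nu, hptu]), lo_nu, hpu, hlu]; exact h2
  have hue : (EH hab).symm z = u := by
    rw [Equiv.symm_apply_eq]
    have h6 : tH hab (EH hab u) = w := h22
    have h7 := congrArg (tH hab) h6
    rw [tH_tH, hw, tH_tH] at h7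
    exact h7.symm
  rw [← hlu] at h1 h3 h4 h5
  have huw := of_wl h1
  have hup : up u = up z := by
    rw [bit_wall u huw, bit_wall w hw1, hw2] at h3
    revert h3
    cases up u <;> cases up z <;> simp
  have hdz : z.1.1.1.d.1 = w.1.1.stN.1.d.1 := by
    have hzd : ¬ z.1.1.1.d.1 = a := fun h' => z.1.1.2.2 (h'.trans hz.symm)
    have g1 : w.1.1 = z.1.1.stN.r2 := by
      rw [hw, tH_val]; unfold taF; rw [if_neg hzd]
    rw [g1, FSt.stN_inv]; rfl
  have hdw : w.1.1.1.d.1 = z.1.1.stN.1.d.1 := by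
    have hzd : ¬ z.1.1.1.d.1 = a := fun h' => z.1.1.2.2 (h'.trans hz.symm)
    have g1 : w.1.1 = z.1.1.stN.r2 := by
      rw [hw, tH_val]; unfold taF; rw [if_neg hzd]
    rw [g1]; rfl
  have k1 : kpi (pa w) (lo w) / 8 = (w.1.1.stN.1.d.1 : ℕ) := kpi_loc w.1.1
  have k2 : kpi (pa u) (lo u) / 8 = (u.1.1.stN.1.d.1 : ℕ) := kpi_loc u.1.1
  have e1 : u.1.1.1.d.1 = z.1.1.1.d.1 := by
    rw [lo_div, k1] at h4
    rw [hdz]
    exact Fin.ext h4
  have e2 : u.1.1.stN.1.d.1 = z.1.1.stN.1.d.1 := by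
    rw [← hpu, k2, lo_div] at h5
    rw [← hdw]
    exact Fin.ext h5
  rw [hue]
  refine ⟨rfl, h22, huw, hup, hptu, ?_, okH_congr e1 e2⟩
  intro heq
  rw [heq] at hup
  rw [hw2] at hup
  revert hup
  cases up z <;> simp

/-- the unit after the first one of a line that starts at a big point -/
theorem second_unit (hn3 : 3 ≤ n) (hM : (P.refine n hn).IsManifold) (hab : a ≠ b)
    {z : RD (P.refine n hn) a b} (hz : z.1.1.1.e.1 = a) (hbig : Big (EH hab) (tH hab) z) :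
    ¬ Big (EH hab) (tH hab) (tH hab z) ∧ ¬ Big (EH hab) (tH hab) ((EH hab).symm z) ∧
      ¬ Big (EH hab) (tH hab) (tH hab ((EH hab).symm z)) ∧
      nu (EH hab) (tH hab) ((EH hab).symm z) = tH hab z ∧
      nu (EH hab) (tH hab) (tH hab z) = (EH hab).symm z ∧ (EH hab).symm z ≠ tH hab z ∧
      ((EH hab).symm z).1.1.1.e.1 = a ∧
      ∀ σ t t', okH b ((EH hab).symm z).1 σ t t' ↔ okH b z.1 σ t t' := by
  have hd := big_dvd hM hab z hbig a
  obtain ⟨hw1, hw2, hw3⟩ := tH_wall hab hz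
  have hndvd : ∀ (z t : ℤ), (n : ℤ) ∣ z → (t = 1 ∨ t = -1 ∨ t = 2 ∨ t = -2) →
      ¬ (n : ℤ) ∣ z - t := by
    intro z t h1 ht h2
    have h3 : (n : ℤ) ∣ t := (dvd_sub_right h1).1 h2
    have h4 : (n : ℤ) ∣ 2 := by
      rcases ht with rfl | rfl | rfl | rfl
      · exact h3.trans ⟨2, by norm_num⟩
      · exact ((dvd_neg).1 h3).trans ⟨2, by norm_num⟩
      · exact h3
      · exact (dvd_neg).1 h3
    have := Int.le_of_dvd (by norm_num) h4
    omega
  have hnw : ¬ (n : ℤ) ∣ pt (tH hab z) a := by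
    rw [hw3 a, vec_a]
    apply hndvd _ _ hd
    cases up z <;> simp
  obtain ⟨k1, k2, k3, k4, k5, k6, k7⟩ := next_unit hM hab hz hnw
  refine ⟨fun h => hnw (big_dvd hM hab _ h a), fun h => ?_, fun h => ?_, k2, k1.symm, k6, k3, k7⟩
  · have := big_dvd hM hab _ h a
    rw [k5] at this
    exact hnw this
  · have h1 := big_dvd hM hab _ h a
    obtain ⟨-, -, m3⟩ := tH_wall hab k3
    rw [m3 a, k4, k5, hw3 a, vec_a, sub_sub] at h1
    refine hndvd _ _ hd ?_ h1
    cases up z <;> norm_num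

/-- **the units one step away from a `K_a`** -/
theorem Ky.units (hn3 : 3 ≤ n) (hM : (P.refine n hn).IsManifold) (hab : a ≠ b)
    {x : RD (P.refine n hn) a b} (hx : Ky hab x) :
    ((∀ t, okH b ((EH hab).symm (nu (EH hab) (tH hab) x)).1 true t t) ∧
      ¬ Big (EH hab) (tH hab) ((EH hab).symm (nu (EH hab) (tH hab) x)) ∧
      ¬ Big (EH hab) (tH hab) (tH hab ((EH hab).symm (nu (EH hab) (tH hab) x)))) ∧
    ((∀ t, okH b ((EH hab).symm (nu (EH hab) (tH hab) (nu (EH hab) (tH hab) x))).1 false t t) ∧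
      ¬ Big (EH hab) (tH hab) ((EH hab).symm (nu (EH hab) (tH hab) (nu (EH hab) (tH hab) x))) ∧
      ¬ Big (EH hab) (tH hab)
        (tH hab ((EH hab).symm (nu (EH hab) (tH hab) (nu (EH hab) (tH hab) x))))) := by
  obtain ⟨-, h2, h3, h4, h5, -, -, h8⟩ := hx.facts hM hab
  have hbig := hx.1
  have key : ∀ y : RD (P.refine n hn) a b,
      nu (EH hab) (tH hab) (nu (EH hab) (tH hab) (nu (EH hab) (tH hab) y)) = y →
      Big (EH hab) (tH hab) y → Big (EH hab) (tH hab) (nu (EH hab) (tH hab) y) := by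
    intro y hy hb
    refine ⟨fun h => ?_, fun h => ?_⟩
    · rw [h, h] at hy
      exact hb.1 hy
    · rw [hy] at h
      exact hb.1 h.symm
  have hb1 := key x h8 hbig
  have hb2 := key _ (by rw [h8]) hb1
  obtain ⟨-, m2, m3, -, -, -, -, m8⟩ := second_unit hn3 hM hab h2 hb1
  obtain ⟨-, l2, l3, -, -, -, -, l8⟩ := second_unit hn3 hM hab h3 hb2
  exact ⟨⟨fun t => (m8 _ _ _).2 (h4 t), m2, m3⟩, ⟨fun t => (l8 _ _ _).2 (h5 t), l2, l3⟩⟩

end Pool.Agent.MP42.EO
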