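import Pool.Agent.MP42.EO.InsL

/-!
# Loops of faces, with infinite stacks

A unit `x` with `v x ≠ 0` is a token.  Every face has own tokens (`c x ≠ 0`, all with the sign of the
face), tokens at third corners (`t x`: push at `x`, pop at `E x`), and hosted pairs: a pop `a` and a
later push `b` of the same gap between own tokens.  `d x` is the number of open hosted pairs after
`x`.  If the lane of `a` leads to the lane of `b` through faces of greater rank, then nothing has
changed after `b`.  All faces are one curve.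
-/

set_option autoImplicit false

namespace Pool.Agent.MP42.EO

open Pool.Agent.MP42.NE

variable {P : Type*}

/-- a token that is not at a third corner -/
def Tok (E : Equiv.Perm P) (v : P → ℤ) (t : P → Prop) (x : P) : Prop :=
  v x ≠ 0 ∧ ¬ t x ∧ ¬ t (E.symm x)

/-- the lane at `p` leads to the token `q` through good faces -/
inductive Lk (E : Equiv.Perm P) (τ : P → P) (v : P → ℤ) (t ok : P → Prop) (p : P) : P → Prop
  | refl : Lk E τ v t ok p p
  | tau {q : P} : Lk E τ v t ok p q → v q ≠ 0 → Lk E τ v t ok p (τ q)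
  | up {q : P} : Lk E τ v t ok p q → t q → Lk E τ v t ok p (E q)
  | down {q : P} : Lk E τ v t ok p (E q) → t q → Lk E τ v t ok p q
  | circ {q r : P} : Lk E τ v t ok p q → Tok E v t q → Tok E v t r → E.SameCycle q r → ok q →
      Lk E τ v t ok p r

/-- loops of faces -/
structure LoopL (E : Equiv.Perm P) (τ : P → P) (v : P → ℤ) (d : P → ℕ) (t : P → Prop)
    (c sg : P → ℤ) (Rt : P → Prop) (rk : P → ℕ) : Prop where
  v_eq : ∀ x, ¬ t x → ¬ t (E x) → v (E x) = d (E x) - d x + c (E x)
  v1 : ∀ x, v x = 0 ∨ v x = 1 ∨ v x = -1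
  tv : ∀ x, t x → v x = -1 ∧ v (E x) = 1
  tt : ∀ x, t x → ¬ t (E x)
  td : ∀ x, t x → d (E x) = d x ∧ d (E.symm x) = d x
  tc : ∀ x, t x → c x = 0 ∧ c (E x) = 0
  sg1 : ∀ x, sg x = 1 ∨ sg x = -1
  sgE : ∀ x, sg (E x) = sg x
  cs : ∀ x, c x = 0 ∨ c x = sg x
  cd : ∀ x, c x ≠ 0 → d x = 0 ∧ d (E.symm x) = 0
  reset : ∀ x, ∃ y, E.SameCycle x y ∧ c y ≠ 0
  rkE : ∀ x, rk (E x) = rk x
  push : ∀ b, ¬ t b → ¬ t (E.symm b) → d (E.symm b) = d b + 1 → ∃ (a : P) (n : ℕ),
    (⇑E)^[n] a = b ∧ (∀ k ≤ n, c ((⇑E)^[k] a) = 0) ∧ ¬ t a ∧ ¬ t (E.symm a) ∧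
    d a = d (E.symm a) + 1 ∧ d (E.symm a) = d b ∧ Lk E τ v t (fun q => ¬ Rt q ∧ rk b < rk q) a b

namespace LoopL

open InsL

section

variable {E : Equiv.Perm P} {τ : P → P} {v : P → ℤ} {d : P → ℕ} {t : P → Prop} {c sg : P → ℤ}
  {Rt : P → Prop} {rk : P → ℕ} {T : P → ℕ → Prop}

lemma V_pop {x : P} (h : v x = 1) : V E v T x ↔ T (E.symm x) 0 := by
  unfold V; rw [if_pos (by omega)]

lemma V_push {x : P} (h : v x = -1) : V E v T x ↔ T x 0 := by
  unfold V; rw [if_neg (by omega)]

variable (hI : LoopL E τ v d t c sg Rt rk)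

include hI in
/-- the lane has one value -/
lemma lk_V (hT : TS E τ v T) {ok : P → Prop} {p q : P}
    (hok : ∀ q r, Tok E v t q → Tok E v t r → E.SameCycle q r → ok q → (V E v T q ↔ V E v T r))
    (h : Lk E τ v t ok p q) : V E v T p ↔ V E v T q := by
  induction h with
  | refl => exact Iff.rfl
  | @tau q _ h1 ih =>
    refine ih.trans ?_
    have hv : v (τ q) = v q := hT.vt q
    rcases hI.v1 q with h2 | h2 | h2
    · exact absurd h2 h1
    · rw [V_pop h2, V_pop (by omega)]
      exact hT.pop q 0 0 (by rw [h2]; rfl)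
    · rw [V_push h2, V_push (by omega)]
      exact hT.push q 0 0 (by rw [h2]; rfl)
  | @up q _ h1 ih =>
    refine ih.trans ?_
    obtain ⟨h2, h3⟩ := hI.tv q h1
    rw [V_push h2, V_pop h3, Equiv.symm_apply_apply]
  | @down q _ h1 ih =>
    refine ih.trans ?_
    obtain ⟨h2, h3⟩ := hI.tv q h1
    rw [V_push h2, V_pop h3, Equiv.symm_apply_apply]
  | @circ q r _ h1 h2 h3 h4 ih => exact ih.trans (hok q r h1 h2 h3 h4)

include hI in
lemma own_t {x : P} (h : c x ≠ 0) : ¬ t x ∧ ¬ t (E.symm x) := by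
  constructor
  · intro h'
    exact h (hI.tc x h').1
  · intro h'
    have := (hI.tc _ h').2
    rw [Equiv.apply_symm_apply] at this
    exact h this

include hI in
lemma t_prev {x : P} (h : t x) : ¬ t (E.symm x) := by
  intro h'
  have := hI.tt _ h'
  rw [Equiv.apply_symm_apply] at this
  exact this h

include hI in
lemma v_own {x : P} (h : c x ≠ 0) : v x = sg x := by
  obtain ⟨h1, h2⟩ := own_t hI h
  obtain ⟨h3, h4⟩ := hI.cd x h
  have h5 := hI.v_eq (E.symm x) h2 (by rwa [Equiv.apply_symm_apply])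
  rw [Equiv.apply_symm_apply] at h5
  have h6 := (hI.cs x).resolve_left h
  omega

/-- the values of the lanes through faces of greater rank -/
def Hok (E : Equiv.Perm P) (v : P → ℤ) (t : P → Prop) (Rt : P → Prop) (rk : P → ℕ)
    (T : P → ℕ → Prop) (n : ℕ) : Prop :=
  ∀ q r, Tok E v t q → Tok E v t r → E.SameCycle q r → (¬ Rt q ∧ n < rk q) →
    (V E v T q ↔ V E v T r)

include hI in
lemma rk_it (y : P) (k : ℕ) : rk ((⇑E)^[k] y) = rk y := by
  induction k with
  | zero => rfl
  | succ k ih => rw [Function.iterate_succ_apply', hI.rkE, ih]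

lemma it_symm (y : P) (k : ℕ) : E.symm ((⇑E)^[k + 1] y) = (⇑E)^[k] y := by
  rw [Function.iterate_succ_apply', Equiv.symm_apply_apply]

lemma it_cancel {x y : P} : ∀ k : ℕ, (⇑E)^[k] x = (⇑E)^[k] y → x = y
  | 0, h => h
  | k + 1, h => by
    rw [Function.iterate_succ_apply', Function.iterate_succ_apply'] at h
    exact it_cancel k (E.injective h)

include hI in
/-- the stacks of one gap -/
lemma gap (hT : TS E τ v T) {y : P} (hy : c y ≠ 0) (hok : Hok E v t Rt rk T (rk y)) :
    ∀ k, (∀ i, 0 < i → i ≤ k → c ((⇑E)^[i] y) = 0) → ¬ t ((⇑E)^[k] y) → ∀ j,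
      (T ((⇑E)^[k] y) j ↔ T y (j + d ((⇑E)^[k] y))) := by
  intro k
  induction k using Nat.strong_induction_on with
  | _ k ih =>
    intro hc hk j
    rcases Nat.eq_zero_or_pos k with h0 | h0
    · subst h0
      show T y j ↔ T y (j + d y)
      rw [(hI.cd y hy).1]
      rfl
    obtain ⟨k, rfl⟩ := Nat.exists_eq_succ_of_ne_zero h0.ne'
    have e1 : (⇑E)^[k.succ] y = E ((⇑E)^[k] y) := Function.iterate_succ_apply' _ _ _
    have hcz := hc k.succ h0 le_rfl
    rw [e1] at hk hcz ⊢
    by_cases htx : t ((⇑E)^[k] y)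
    · -- the end of a third corner
      rcases Nat.eq_zero_or_pos k with h1 | h1
      · subst h1
        exact absurd htx (own_t hI hy).1
      obtain ⟨k, rfl⟩ := Nat.exists_eq_succ_of_ne_zero h1.ne'
      obtain ⟨h2, h3⟩ := hI.tv _ htx
      obtain ⟨h4, h5⟩ := hI.td _ htx
      have h6 := t_prev hI htx
      have e2 : (⇑E)^[k.succ] y = E ((⇑E)^[k] y) := Function.iterate_succ_apply' _ _ _
      rw [e2] at h2 h3 h4 h5 h6 ⊢
      rw [Equiv.symm_apply_apply] at h5 h6
      have h7 := ih k (by omega) (fun i h h' => hc i h (by omega)) h6 j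
      rw [hT.st (E ((⇑E)^[k] y)) j (j + 1) (by rw [h3]; push_cast; ring),
        hT.st ((⇑E)^[k] y) (j + 1) j (by rw [h2]; push_cast; ring), h7, h4, h5]
    · have h2 := hI.v_eq _ htx hk
      have h7 := ih k (by omega) (fun i h h' => hc i h (by omega)) htx
      rw [hcz] at h2
      rcases hI.v1 (E ((⇑E)^[k] y)) with h3 | h3 | h3
      · rw [hT.st _ j j (by rw [h3]; ring), h7 j, show d (E ((⇑E)^[k] y)) = d ((⇑E)^[k] y) by omega]
      · rw [hT.st _ j (j + 1) (by rw [h3]; push_cast; ring), h7 (j + 1),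
          show j + 1 + d ((⇑E)^[k] y) = j + d (E ((⇑E)^[k] y)) by omega]
      · rcases Nat.eq_zero_or_pos j with h4 | h4
        · subst h4
          obtain ⟨a, n, h5, h6, h8, h9, h10, h11, h12⟩ := hI.push _ hk
            (by rwa [Equiv.symm_apply_apply]) (by rw [Equiv.symm_apply_apply]; omega)
          have hn1 : ¬ n = k + 1 := by
            intro hn
            subst hn
            rw [← e1] at h5
            have := it_cancel (k + 1) h5
            subst this
            exact hy (h6 0 (by omega))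
          have hn2 : ¬ k + 1 < n := by
            intro hn
            obtain ⟨m, rfl⟩ : ∃ m, n = m + (k + 1) := ⟨n - (k + 1), by omega⟩
            have e3 : (⇑E)^[m + (k + 1)] a = (⇑E)^[k + 1] ((⇑E)^[m] a) := by
              rw [← Function.iterate_add_apply]
              congr 1
              ring
            rw [e3, ← e1] at h5
            have := it_cancel (k + 1) h5
            have h13 := h6 m (by omega)
            rw [this] at h13
            exact hy h13
          obtain ⟨m, hm⟩ : ∃ m, k + 1 = (m + 1) + n := ⟨k - n, by omega⟩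
          have ha : a = (⇑E)^[m + 1] y := by
            have e4 : (⇑E)^[k + 1] y = (⇑E)^[n] ((⇑E)^[m + 1] y) := by
              rw [← Function.iterate_add_apply]
              congr 1
              omega
            rw [← e1] at h5
            exact it_cancel n (h5.trans e4)
          have hva : v a = 1 := by
            have h13 := hI.v_eq (E.symm a) h9 (by rwa [Equiv.apply_symm_apply])
            rw [Equiv.apply_symm_apply] at h13
            have h14 := h6 0 (by omega)
            have h15 : c a = 0 := h14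
            omega
          have hV := lk_V hI hT (ok := fun q => ¬ Rt q ∧ rk (E ((⇑E)^[k] y)) < rk q)
            (by
              intro q r hq hr hqr hoq
              refine hok q r hq hr hqr ?_
              rw [hI.rkE, rk_it hI] at hoq
              exact hoq) h12
          rw [V_pop hva, V_push h3] at hV
          rw [← hV]
          have hsa : E.symm a = (⇑E)^[m] y := by rw [ha, it_symm]
          rw [hsa] at h9 h11 ⊢
          have hmk : m < k.succ := by
            have : k.succ = k + 1 := rfl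
            omega
          rw [ih m hmk (fun i h h' => hc i h (by omega)) h9 0, h11]
        · obtain ⟨j, rfl⟩ := Nat.exists_eq_succ_of_ne_zero h4.ne'
          rw [hT.st _ j.succ j (by rw [h3]; push_cast; ring), h7 j,
            show j + d ((⇑E)^[k] y) = j.succ + d (E ((⇑E)^[k] y)) by omega]

include hI in
/-- the last own token -/
lemma prev [Finite P] (x : P) : ∃ (y : P) (k : ℕ), c y ≠ 0 ∧ (⇑E)^[k] y = x ∧
    ∀ i, 0 < i → i ≤ k → c ((⇑E)^[i] y) = 0 := by
  classical
  obtain ⟨z, hz, hcz⟩ := hI.reset x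
  obtain ⟨n, hn⟩ := hz.symm.exists_nat_pow_eq
  have hn' : (⇑E)^[n] z = x := by
    rw [← Equiv.Perm.coe_pow]
    exact hn
  have key : ∀ n z, c z ≠ 0 → (⇑E)^[n] z = x → ∃ (y : P) (k : ℕ), c y ≠ 0 ∧ (⇑E)^[k] y = x ∧
      ∀ i, 0 < i → i ≤ k → c ((⇑E)^[i] y) = 0 := by
    intro n
    induction n using Nat.strong_induction_on with
    | _ n ih =>
      intro z hcz hn
      by_cases h : ∀ i, 0 < i → i ≤ n → c ((⇑E)^[i] z) = 0
      · exact ⟨z, n, hcz, hn, h⟩
      · push Not at h
        obtain ⟨i, h1, h2, h3⟩ := h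
        refine ih (n - i) (by omega) _ h3 ?_
        rw [← Function.iterate_add_apply, show n - i + i = n by omega]
        exact hn
  exact key n z hcz hn'

include hI in
/-- the next own token -/
lemma next [Finite P] {y : P} (hy : c y ≠ 0) : ∃ k : ℕ, c ((⇑E)^[k + 1] y) ≠ 0 ∧
    ∀ i, 0 < i → i ≤ k → c ((⇑E)^[i] y) = 0 := by
  classical
  have hex : ∃ k : ℕ, c ((⇑E)^[k + 1] y) ≠ 0 := by
    refine ⟨orderOf E - 1, ?_⟩
    have h1 : 0 < orderOf E := orderOf_pos E
    rw [show orderOf E - 1 + 1 = orderOf E by omega, ← Equiv.Perm.coe_pow, pow_orderOf_eq_one]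
    exact hy
  refine ⟨Nat.find hex, Nat.find_spec hex, ?_⟩
  intro i h1 h2
  have h3 := Nat.find_min hex (m := i - 1) (by omega)
  rw [show i - 1 + 1 = i by omega] at h3
  exact not_not.1 h3

include hI in
/-- from one own token to the next one -/
lemma own_step (hT : TS E τ v T) {y : P} (hy : c y ≠ 0) (hok : Hok E v t Rt rk T (rk y)) {k : ℕ}
    (hk : c ((⇑E)^[k + 1] y) ≠ 0) (hc : ∀ i, 0 < i → i ≤ k → c ((⇑E)^[i] y) = 0) (j : ℕ) :
    T ((⇑E)^[k] y) j ↔ T y j := by
  have h1 := (own_t hI hk).2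
  have h2 := (hI.cd _ hk).2
  rw [it_symm] at h1 h2
  rw [gap hI hT hy hok k hc h1 j, h2]
  rfl

lemma same_it (y : P) (k : ℕ) : E.SameCycle y ((⇑E)^[k] y) := by
  refine ⟨k, ?_⟩
  rw [zpow_natCast, Equiv.Perm.coe_pow]

include hI in
lemma sg_cyc [Finite P] {x y : P} (hxy : E.SameCycle x y) : sg y = sg x :=
  TS.cyc_ind (Q := fun z => sg z = sg x) (fun z hz => (hI.sgE z).trans hz) hxy rfl

include hI in
/-- the own tokens of a face with known deep strands -/
lemma own_deep [Finite P] (hT : TS E τ v T) {x : P} {w : Prop} {K : ℕ}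
    (hok : Hok E v t Rt rk T (rk x))
    (hK : ∀ y, E.SameCycle x y → ∀ j, K ≤ j → (T y j ↔ w)) :
    ∀ y, E.SameCycle x y → c y ≠ 0 → ∀ j, (T y j ↔ w) := by
  have hokk : ∀ u, E.SameCycle x u → Hok E v t Rt rk T (rk u) := by
    intro u hu
    rw [rk_cyc hI.rkE hu]; exact hok
  have key : ∀ n j, K - j = n → ∀ y, E.SameCycle x y → c y ≠ 0 → (T y j ↔ w) := by
    intro n
    induction n with
    | zero =>
      intro j hj y hy _
      exact hK y hy j (by omega)
    | succ n ih =>
      intro j hj y hy hcy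
      have hnext := ih (j + 1) (by omega)
      rcases hI.sg1 x with hs | hs
      · obtain ⟨z, k, h1, h2, h3⟩ := prev hI (E.symm y)
        have h4 : (⇑E)^[k + 1] z = y := by
          rw [Function.iterate_succ_apply', h2, Equiv.apply_symm_apply]
        have hz : E.SameCycle x z := hy.trans ((h4 ▸ same_it z (k + 1)).symm)
        have h5 := own_step hI hT h1 (hokk z hz) (k := k) (by rw [h4]; exact hcy) h3 (j + 1)
        have h6 : v y = 1 := by rw [v_own hI hcy, sg_cyc hI hy, hs]
        have h7 := hT.st (E.symm y) j (j + 1)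
          (by rw [Equiv.apply_symm_apply, h6]; push_cast; ring)
        rw [Equiv.apply_symm_apply] at h7
        rw [h7, ← h2, h5]
        exact hnext z hz h1
      · obtain ⟨k, h1, h3⟩ := next hI hcy
        have hz : E.SameCycle x ((⇑E)^[k + 1] y) := hy.trans (same_it y (k + 1))
        have h5 := own_step hI hT hcy (hokk y hy) h1 h3 j
        have h6 : v ((⇑E)^[k + 1] y) = -1 := by rw [v_own hI h1, sg_cyc hI hz, hs]
        rw [Function.iterate_succ_apply'] at h6 h1 hz
        have h7 := hT.st ((⇑E)^[k] y) (j + 1) j (by rw [h6]; push_cast; ring)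
        rw [← h5, ← h7]
        exact hnext _ hz h1
  intro y hy hcy j
  exact key _ j rfl y hy hcy

include hI in
/-- the own tokens of a face with known own values -/
lemma own_top [Finite P] (hT : TS E τ v T) {x : P} {w : Prop}
    (hok : Hok E v t Rt rk T (rk x))
    (hV : ∀ y, E.SameCycle x y → c y ≠ 0 → (V E v T y ↔ w)) :
    ∀ y, E.SameCycle x y → c y ≠ 0 → ∀ j, (T y j ↔ w) := by
  have hokk : ∀ u, E.SameCycle x u → Hok E v t Rt rk T (rk u) := by
    intro u hu
    rw [rk_cyc hI.rkE hu]; exact hok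
  intro y hy hcy j
  revert y
  induction j with
  | zero =>
    intro y hy hcy
    rcases hI.sg1 x with hs | hs
    · obtain ⟨k, h1, h3⟩ := next hI hcy
      have hz : E.SameCycle x ((⇑E)^[k + 1] y) := hy.trans (same_it y (k + 1))
      have h5 := own_step hI hT hcy (hokk y hy) h1 h3 0
      have h6 : v ((⇑E)^[k + 1] y) = 1 := by rw [v_own hI h1, sg_cyc hI hz, hs]
      have h7 := hV _ hz h1
      rw [V_pop h6, it_symm] at h7
      rw [← h5]
      exact h7
    · have h6 : v y = -1 := by rw [v_own hI hcy, sg_cyc hI hy, hs]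
      have h7 := hV y hy hcy
      rwa [V_push h6] at h7
  | succ j ih =>
    intro y hy hcy
    rcases hI.sg1 x with hs | hs
    · obtain ⟨k, h1, h3⟩ := next hI hcy
      have hz : E.SameCycle x ((⇑E)^[k + 1] y) := hy.trans (same_it y (k + 1))
      have h5 := own_step hI hT hcy (hokk y hy) h1 h3 (j + 1)
      have h6 : v ((⇑E)^[k + 1] y) = 1 := by rw [v_own hI h1, sg_cyc hI hz, hs]
      have h8 := ih _ hz h1
      rw [Function.iterate_succ_apply'] at h6 h8
      have h7 := hT.st ((⇑E)^[k] y) j (j + 1) (by rw [h6]; push_cast; ring)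
      rw [← h5, ← h7]
      exact h8
    · obtain ⟨z, k, h1, h2, h3⟩ := prev hI (E.symm y)
      have h4 : (⇑E)^[k + 1] z = y := by
        rw [Function.iterate_succ_apply', h2, Equiv.apply_symm_apply]
      have hz : E.SameCycle x z := hy.trans ((h4 ▸ same_it z (k + 1)).symm)
      have h5 := own_step hI hT h1 (hokk z hz) (k := k) (by rw [h4]; exact hcy) h3 j
      have h6 : v y = -1 := by rw [v_own hI hcy, sg_cyc hI hy, hs]
      have h7 := hT.st (E.symm y) (j + 1) j
        (by rw [Equiv.apply_symm_apply, h6]; push_cast; ring)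
      rw [Equiv.apply_symm_apply] at h7
      rw [h7, ← h2, h5]
      exact ih z hz h1

include hI in
/-- from the own tokens to all units of the face -/
lemma all_of_own [Finite P] (hT : TS E τ v T) {x : P} {w : Prop}
    (hok : Hok E v t Rt rk T (rk x))
    (hO : ∀ y, E.SameCycle x y → c y ≠ 0 → ∀ j, (T y j ↔ w)) :
    ∀ y, E.SameCycle x y → ¬ t y → ∀ j, (T y j ↔ w) := by
  intro y hy hty j
  obtain ⟨z, k, h1, h2, h3⟩ := prev hI y
  have hz : E.SameCycle x z := hy.trans ((h2 ▸ same_it z k).symm)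
  have hokz : Hok E v t Rt rk T (rk z) := by
    rw [rk_cyc hI.rkE hz]; exact hok
  have h4 := gap hI hT h1 hokz k h3 (by rw [h2]; exact hty) j
  rw [h2] at h4
  rw [h4]
  exact hO z hz h1 _

include hI in
/-- the tokens of the face -/
lemma tok_of_all {x : P} {w : Prop}
    (hA : ∀ y, E.SameCycle x y → ¬ t y → ∀ j, (T y j ↔ w)) :
    ∀ y, E.SameCycle x y → Tok E v t y → (V E v T y ↔ w) := by
  rintro y hy ⟨h1, h2, h3⟩
  rcases hI.v1 y with h4 | h4 | h4
  · exact absurd h4 h1
  · rw [V_pop h4]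
    exact hA _ (hy.trans ⟨-1, by simp⟩) h3 0
  · rw [V_push h4]
    exact hA y hy h2 0

include hI in
/-- **connectedness** of one region -/
theorem conn [Finite P] (hT : TS E τ v T) {ρ : P → Prop} {K : ℕ} {x₀ : P}
    (hR : ∀ x, Rt x ↔ E.SameCycle x₀ x) (hρ : ∀ x, ρ (E x) ↔ ρ x)
    (hK : ∀ x j, ¬ Rt x → K ≤ j → (T x j ↔ ρ x))
    (face : ∀ x, ¬ Rt x → ∃ p h, E.SameCycle x p ∧ Tok E v t p ∧
      Lk E τ v t (fun q => ¬ Rt q) p h ∧ Tok E v t h ∧ (Rt h ∨ rk h < rk x))
    (third : ∀ x, t x → ∃ p, Tok E v t p ∧ Lk E τ v t (fun q => ¬ Rt q) x p)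
    (hroot : ∀ y z, Rt y → c y ≠ 0 → Rt z → c z ≠ 0 → Lk E τ v t (fun q => ¬ Rt q) y z) :
    ∃ w : Prop, (∀ x j, T x j ↔ w) ∧ ∀ x, ¬ Rt x → (ρ x ↔ w) := by
  classical
  have := Fintype.ofFinite P
  obtain ⟨B, hB⟩ : ∃ B, ∀ x, rk x ≤ B :=
    ⟨∑ x, rk x, fun x => Finset.single_le_sum (f := rk) (fun _ _ => Nat.zero_le _)
      (Finset.mem_univ x)⟩
  have hRc : ∀ {x y}, E.SameCycle x y → (Rt x ↔ Rt y) := by
    intro x y hxy
    rw [hR, hR]
    exact ⟨fun h => h.trans hxy, fun h => h.trans hxy.symm⟩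
  have hρc : ∀ {x y}, E.SameCycle x y → (ρ x ↔ ρ y) := fun hxy => TS.rho_cyc hρ hxy
  -- the faces that are not the root
  have hface : ∀ n x, B - rk x = n → ¬ Rt x →
      ∀ y, E.SameCycle x y → ¬ t y → ∀ j, (T y j ↔ ρ x) := by
    intro n
    induction n using Nat.strong_induction_on with
    | _ n ih =>
      intro x hx hxR
      have hok : Hok E v t Rt rk T (rk x) := by
        rintro q r hq hr hqr ⟨h1, h2⟩
        have h3 := hB q
        have h4 := tok_of_all hI (ih (B - rk q) (by omega) q rfl h1)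
        exact (h4 q (Equiv.Perm.SameCycle.refl _ _) hq).trans (h4 r hqr hr).symm
      refine all_of_own hI hT hok (own_deep hI hT (K := K) hok ?_)
      intro y hy j hj
      rw [hK y j (fun h => hxR ((hRc hy).2 h)) hj]
      exact (hρc hy).symm
  have htok : ∀ x, ¬ Rt x → Tok E v t x → (V E v T x ↔ ρ x) := fun x h1 h2 =>
    tok_of_all hI (hface _ x rfl h1) x (Equiv.Perm.SameCycle.refl _ _) h2
  have hokall : ∀ q r, Tok E v t q → Tok E v t r → E.SameCycle q r → ¬ Rt q →
      (V E v T q ↔ V E v T r) := by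
    intro q r hq hr hqr h1
    rw [htok q h1 hq, htok r (fun h => h1 ((hRc hqr).2 h)) hr]
    exact hρc hqr
  have hlk : ∀ {p q}, Lk E τ v t (fun q => ¬ Rt q) p q → (V E v T p ↔ V E v T q) := fun h =>
    lk_V hI hT hokall h
  have hokR : ∀ n, Hok E v t Rt rk T n := fun n q r hq hr hqr h => hokall q r hq hr hqr h.1
  -- the root
  obtain ⟨y₀, hy₀, hcy₀⟩ := hI.reset x₀
  have hy₀R : Rt y₀ := (hR y₀).2 hy₀
  obtain ⟨w, hw⟩ : ∃ w : Prop, w = V E v T y₀ := ⟨_, rfl⟩
  have hrootT : ∀ y, Rt y → ¬ t y → ∀ j, (T y j ↔ w) := by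
    intro y hy
    refine all_of_own hI hT (x := y) (hokR _) (own_top hI hT (hokR _) ?_) y
      (Equiv.Perm.SameCycle.refl _ _)
    intro z hz hcz
    rw [hw]
    exact hlk (hroot z y₀ ((hRc hz).1 hy) hcz hy₀R hcy₀)
  have htokR : ∀ x, Rt x → Tok E v t x → (V E v T x ↔ w) := by
    intro x hx hxt
    refine tok_of_all hI (x := x) ?_ x (Equiv.Perm.SameCycle.refl _ _) hxt
    intro y hy
    exact hrootT y ((hRc hy).1 hx)
  -- all faces have the value of the root
  have hall : ∀ n x, rk x = n → ¬ Rt x → (ρ x ↔ w) := by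
    intro n
    induction n using Nat.strong_induction_on with
    | _ n ih =>
      intro x hx hxR
      obtain ⟨p, h, h1, h2, h3, h4, h5⟩ := face x hxR
      have h6 := htok p (fun h => hxR ((hRc h1).2 h)) h2
      rw [hρc h1, ← h6, hlk h3]
      by_cases h7 : Rt h
      · exact htokR h h7 h4
      · rw [htok h h7 h4]
        exact ih (rk h) (by have := h5.resolve_left h7; omega) h rfl h7
  have hT1 : ∀ x, ¬ t x → ∀ j, (T x j ↔ w) := by
    intro x hx j
    by_cases h : Rt x
    · exact hrootT x h hx j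
    · rw [hface _ x rfl h x (Equiv.Perm.SameCycle.refl _ _) hx j]
      exact hall _ x rfl h
  have hV1 : ∀ x, Tok E v t x → (V E v T x ↔ w) := by
    intro x hx
    by_cases h : Rt x
    · exact htokR x h hx
    · rw [htok x h hx]
      exact hall _ x rfl h
  refine ⟨w, ?_, fun x hx => hall _ x rfl hx⟩
  intro x j
  by_cases hx : t x
  · obtain ⟨h1, h2⟩ := hI.tv x hx
    rcases Nat.eq_zero_or_pos j with h0 | h0
    · subst h0
      obtain ⟨p, h3, h4⟩ := third x hx
      have h5 := hlk h4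
      rw [V_push h1] at h5
      rw [h5]
      exact hV1 p h3
    · obtain ⟨j, rfl⟩ := Nat.exists_eq_succ_of_ne_zero h0.ne'
      have h3 := hT.st (E.symm x) j.succ j
        (by rw [Equiv.apply_symm_apply, h1]; push_cast; ring)
      rw [Equiv.apply_symm_apply] at h3
      rw [h3]
      exact hT1 _ (t_prev hI hx) j
  · exact hT1 x hx j

end

end LoopL

end Pool.Agent.MP42.EO
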