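import Pool.Agent.MP42.NE.TS
import Pool.Agent.MP42.NE.F2
import Pool.Agent.MP42.NE.Ex
import Pool.Agent.MP42.EO.PB

/-!
# Connectedness of a flow from the connectedness of its regions

`v` has the sum `2 * sg`, `sg = ± 1`, over every cycle of `E` and bounded sums over intervals; the
stacks of a family are periodic in the middle, the finite stacks become infinite stacks; the
regions (classes of `E` and `ta`) are connected one after the other.
-/

set_option autoImplicit false

namespace Pool.Agent.MP42.EO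

open Pool.Agent.MP42.NE Pool.Agent.MP42.NE.Sys

variable {D : Type*} {S : Sys D} {e : D → ℕ} {v : D → ℤ} {K : ℕ} {sg : D → ℤ}
  {T : D → ℕ → Prop}

/-- the darts of a cycle, with the first return -/
lemma cyc_sum' [Fintype D] [DecidableEq D] (E : Equiv.Perm D) (x : D) :
    ∃ n : ℕ, (E ^ n) x = x ∧ (∀ i, 0 < i → i < n → (E ^ i) x ≠ x) ∧
      ∀ {M : Type} [AddCommMonoid M] (f : D → M),
      ∑ i ∈ Finset.range n, f ((E ^ (i + 1)) x) =
        ∑ y ∈ Finset.univ.filter (fun y => E.SameCycle x y), f y := by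
  have hpos : 0 < Function.minimalPeriod E x :=
    Function.minimalPeriod_pos_of_mem_periodicPts
      (Function.Injective.mem_periodicPts E.injective x)
  refine ⟨Function.minimalPeriod E x, ?_, ?_, ?_⟩
  · rw [← Equiv.Perm.iterate_eq_pow]
    exact Function.iterate_minimalPeriod
  · intro i h0 h1 h2
    rw [← Equiv.Perm.iterate_eq_pow] at h2
    exact Function.not_isPeriodicPt_of_pos_of_lt_minimalPeriod (by omega) h1 h2
  · intro M _ f
    apply Finset.sum_nbij (fun i => (E ^ (i + 1)) x)
    · intro i _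
      exact Finset.mem_filter.2 ⟨Finset.mem_univ _, ⟨((i + 1 : ℕ) : ℤ), by rw [zpow_natCast]⟩⟩
    · intro i hi j hj hij
      have h1 : (E ^ i) x = (E ^ j) x := by
        have : E ((E ^ i) x) = E ((E ^ j) x) := by
          rw [← Equiv.Perm.mul_apply, ← Equiv.Perm.mul_apply, ← pow_succ', ← pow_succ']
          exact hij
        exact E.injective this
      rw [← Equiv.Perm.iterate_eq_pow, ← Equiv.Perm.iterate_eq_pow] at h1
      apply Function.iterate_injOn_Iio_minimalPeriod (f := E) (x := x) _ _ h1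
      · simpa using hi
      · simpa using hj
    · intro y hy
      have hy' : E.SameCycle x y := by simpa using hy
      obtain ⟨m, rfl⟩ := hy'.exists_nat_pow_eq
      refine ⟨(m + (Function.minimalPeriod E x - 1)) % Function.minimalPeriod E x, ?_, ?_⟩
      · simpa using Nat.mod_lt _ hpos
      · show (E ^ ((m + (Function.minimalPeriod E x - 1)) % Function.minimalPeriod E x + 1)) x = _
        rw [pow_succ', Equiv.Perm.mul_apply, ← Equiv.Perm.iterate_eq_pow E,
          Function.iterate_mod_minimalPeriod_eq, Equiv.Perm.iterate_eq_pow,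
          ← Equiv.Perm.mul_apply, ← pow_succ',
          show m + (Function.minimalPeriod E x - 1) + 1 = m + Function.minimalPeriod E x by omega,
          pow_add, Equiv.Perm.mul_apply, ← Equiv.Perm.iterate_eq_pow E (Function.minimalPeriod E x),
          Function.iterate_minimalPeriod]
    · intro i _
      rfl

/-- the hypotheses on the crossings of the rings, any signs -/
structure TwoS (S : Sys D) (v : D → ℤ) (sg : D → ℤ) (K : ℕ) : Prop where
  sg1 : ∀ x, sg x = 1 ∨ sg x = -1
  vb : ∀ x, |v x| ≤ K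
  cyc : ∀ x, ∃ n, (S.E ^ n) x = x ∧ S.PS v n x = 2 * sg x ∧
    ∀ i ≤ n, |S.PS v i x| ≤ K ∧ |S.QS v i x| ≤ K

theorem TwoS.of_sum [Fintype D] [DecidableEq D] (hPB : PB S.E v K)
    (hsg : ∀ x, sg x = 1 ∨ sg x = -1)
    (hsum : ∀ d, ∑ x ∈ Finset.univ.filter (fun x => S.E.SameCycle d x), v x = 2 * sg d) :
    TwoS S v sg K where
  sg1 := hsg
  vb := fun x => by
    have := hPB x 1 (fun i h1 h2 => by omega)
    simpa using this
  cyc := fun x => by
    obtain ⟨n, h1, h2, h3⟩ := cyc_sum' S.E x
    refine ⟨n, h1, ?_, ?_⟩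
    · unfold PS
      rw [h3 v, hsum]
    · intro i hi
      constructor
      · rw [PS_eq_range]
        apply hPB
        intro j h4 h5 h6
        apply h2 j h4 (by omega)
        rw [← pow_succ_E', pow_succ_E] at h6
        exact S.E.injective h6
      · rw [QS_eq, PS_eq_range]
        apply hPB
        intro j h4 h5 h6
        apply h2 j h4 (by omega)
        rw [← pow_succ_E', pow_succ_E] at h6
        have h7 := S.E.injective h6
        have h8 := om_pow (S := S) j ((S.E ^ i) x)
        have h9 := congrArg S.om ((S.E ^ j).injective (h7.trans h8.symm))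
        rw [om_om, om_om, ← Equiv.Perm.mul_apply, ← pow_add, Nat.add_comm, pow_add,
          Equiv.Perm.mul_apply] at h9
        exact ((S.E ^ i).injective h9).symm

lemma stk_perS (h : S.Stk e v T) (hF : S.Fl e v) (hT : TwoS S v sg K) (x : D) {J : ℕ}
    (hJ : K ≤ J) (hJ' : J + 2 + K < e x) : T x (J + 2) ↔ T x J := by
  obtain ⟨n, h1, h2, h3⟩ := hT.cyc x
  have hb : ∀ i ≤ n, -(K : ℤ) ≤ S.PS v i x ∧ S.PS v i x ≤ K ∧ -(K : ℤ) ≤ S.QS v i x ∧
      S.QS v i x ≤ K := by
    intro i hi
    obtain ⟨h4, h5⟩ := h3 i hi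
    rw [abs_le] at h4 h5
    exact ⟨h4.1, h4.2, h5.1, h5.2⟩
  rcases hT.sg1 x with h0 | h0
  · rw [h0] at h2
    have h4 := h.follow n x (J + 2) J (fun i hi => by
      have := hb i hi
      omega) (fun i hi => by
      have h4 := hF.e_pow i x
      have h5 := hb i hi
      omega) (by omega)
    rwa [h1] at h4
  · rw [h0] at h2
    have h4 := h.follow n x J (J + 2) (fun i hi => by
      have := hb i hi
      omega) (fun i hi => by
      have h4 := hF.e_pow i x
      have h5 := hb i hi
      omega) (by omega)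
    rw [h1] at h4
    exact h4.symm

lemma stk_coreS (h : S.Stk e v T) (hF : S.Fl e v) (hT : TwoS S v sg K) (x : D) {J J' : ℕ}
    (hJ : K ≤ J) (hJ' : K ≤ J') (hJe : J + K < e x) (hJe' : J' + K < e x)
    (hp : J % 2 = J' % 2) : T x J ↔ T x J' := by
  have key : ∀ k J, K ≤ J → J + 2 * k + K < e x → (T x (J + 2 * k) ↔ T x J) := by
    intro k
    induction k with
    | zero => intro J _ _; rfl
    | succ k ih =>
      intro J hJ hk
      rw [show J + 2 * (k + 1) = (J + 2 * k) + 2 by ring,
        stk_perS h hF hT x (by omega) (by omega), ih J hJ (by omega)]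
  rcases le_total J J' with h1 | h1
  · have := key ((J' - J) / 2) J hJ (by omega)
    rw [show J + 2 * ((J' - J) / 2) = J' by omega] at this
    exact this.symm
  · have := key ((J - J') / 2) J' hJ' (by omega)
    rw [show J' + 2 * ((J - J') / 2) = J by omega] at this
    exact this

theorem stk_halfS (h : S.Stk e v T) (hF : S.Fl e v) (hT : TwoS S v sg K)
    (he : ∀ x, 4 * K + 4 ≤ e x) : S.Half v (fun x j => T x (fold K j)) where
  st := fun x i => by
    have h12 := abs_le.1 (hT.vb (S.E x))
    have h3 := he x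
    have h4 := he (S.E x)
    by_cases hs : (v (S.E x)).toNat + i < 2 * K + 2 ∧ (-v (S.E x)).toNat + i < 2 * K + 2
    · rw [fold_lt hs.1, fold_lt hs.2]
      exact h.st x i (by omega) (by omega)
    · have ha : K ≤ (v (S.E x)).toNat + i := by omega
      have hb : K ≤ (-v (S.E x)).toNat + i := by omega
      have h5 := fold_ge ha
      have h6 := fold_ge hb
      have h7 := fold_le (K := K) ((v (S.E x)).toNat + i)
      have h8 := fold_le (K := K) ((-v (S.E x)).toNat + i)
      have h9 := fold_mod (K := K) ((v (S.E x)).toNat + i)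
      have h10 := fold_mod (K := K) ((-v (S.E x)).toNat + i)
      have h11 := h.st x (K + (i + K) % 2) (by omega) (by omega)
      rw [stk_coreS h hF hT x (J' := (v (S.E x)).toNat + (K + (i + K) % 2)) h5 (by omega)
        (by omega) (by omega) (by omega), h11]
      exact stk_coreS h hF hT (S.E x) (by omega) h6 (by omega) (by omega) (by omega)
  rb := fun x j hj => by
    have h12 := abs_le.1 (hT.vb x)
    have h3 := h.rb x j hj
    simp only [vw] at h3 ⊢
    rw [fold_lt (by omega), fold_lt (by omega)]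
    exact h3

theorem stk_matchS (h : S.Stk e v T) (hF : S.Fl e v) (hT : TwoS S v sg K)
    (he : ∀ x, 4 * K + 4 ≤ e x) (x : D) {J J' : ℕ} (hJ : K ≤ J) (hJ' : K ≤ J')
    (hp : (J + J' + 1) % 2 = e x % 2) : T x (fold K J) ↔ T (S.om x) (fold K J') := by
  have h1 := he x
  have h2 := fold_ge hJ
  have h3 := fold_ge hJ'
  have h4 := fold_le (K := K) J
  have h5 := fold_le (K := K) J'
  have h6 := fold_mod (K := K) J
  have h7 := fold_mod (K := K) J'
  have h8 := h.rv x (e x - 1 - fold K J) (by omega)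
  rw [show e x - 1 - (e x - 1 - fold K J) = fold K J by omega] at h8
  rw [← h8]
  have h9 := hF.e_om x
  exact stk_coreS h hF hT (S.om x) (by omega) h3 (by omega) (by omega) (by omega)

theorem stk_reconS (h : S.Stk e v T) (hF : S.Fl e v) (hT : TwoS S v sg K)
    (he : ∀ x, 4 * K + 4 ≤ e x) (x : D) {j : ℕ} (hj : j < e x) :
    (T x j ↔ T x (fold K j)) ∨ (T x j ↔ T (S.om x) (fold K (e x - 1 - j))) := by
  have h1 := he x
  by_cases h2 : j < 2 * K + 2
  · left; rw [fold_lt h2]
  · by_cases h3 : j + K < e x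
    · left
      have h5 := fold_ge (K := K) (j := j) (by omega)
      have h4 := fold_le (K := K) j
      have h6 := fold_mod (K := K) j
      exact stk_coreS h hF hT x (by omega) (by omega) (by omega) (by omega) (by omega)
    · right
      rw [fold_lt (by omega)]
      have h8 := h.rv x (e x - 1 - j) (by omega)
      rw [show e x - 1 - (e x - 1 - j) = j by omega] at h8
      exact h8.symm

/-- half-infinite stacks as infinite stacks -/
theorem half_TS {U : D → ℕ → Prop} (h : S.Half v U) (hF : S.Fl e v) : TS S.E S.ta v U where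
  tt := S.ta_ta
  vt := fun p => hF.v_ta p
  st := fun p j k hk => (h.step p (j := k) (j' := j) (by omega)).symm
  pop := fun p i j hij => by
    have h1 := h.rb p i (by omega)
    rw [vw_pos (by omega), vw_pos (by rw [hF.v_ta]; omega),
      show (v p).natAbs - 1 - i = j by omega] at h1
    exact h1
  push := fun p i j hij => by
    have h1 := h.rb p i (by omega)
    rw [vw_neg (by omega), vw_neg (by rw [hF.v_ta]; omega),
      show (v p).natAbs - 1 - i = j by omega] at h1
    exact h1

/-- **the flow is one closed curve** if its regions are connected -/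
theorem RTree.fconn [Fintype D] [DecidableEq D] (S : Sys D) {e : D → ℕ} {v sg : D → ℤ} {K : ℕ}
    (hF : S.Fl e v) (he : ∀ x, 4 * K + 4 ≤ e x) (hPB : PB S.E v K)
    (hsg : ∀ x, sg x = 1 ∨ sg x = -1)
    (hsum : ∀ d, ∑ x ∈ Finset.univ.filter (fun x => S.E.SameCycle d x), v x = 2 * sg d)
    (htr : S.Trans) {Rg : D → D → Prop} (hRg : Equivalence Rg) (hRE : ∀ x, Rg x (S.E x))
    (hRt : ∀ x, Rg x (S.ta x)) {R : D → Prop} (hR : ∀ x, R (S.E x) ↔ R x) {rk : D → ℕ}
    (hrk : ∀ x y, Rg x y → rk x = rk y) (hup : ∀ x, ¬ R x → rk x < rk (S.om x))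
    (hLP : ∀ (u : D) (T : D → ℕ → Prop) (ρ : D → Prop), TS S.E S.ta v T →
      (∀ x, ρ (S.E x) ↔ ρ x) → (∀ x, Rg u x → ¬ R x → ∀ j, K ≤ j → (T x j ↔ ρ x)) →
      ∃ c : Prop, ∀ x, Rg u x → ∀ j, (T x j ↔ c)) : S.FConn e v := by
  classical
  intro g hg
  have hT : TwoS S v sg K := TwoS.of_sum hPB hsg hsum
  have hv : ∀ x, v x ≤ e (S.E.symm x) := fun x => by
    have h1 := abs_le.1 (hT.vb x)
    have h2 := he (S.E.symm x)
    omega
  have hv' : ∀ x, -v x ≤ e x := fun x => by
    have h1 := abs_le.1 (hT.vb x)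
    have h2 := he x
    omega
  have hstk := hg.stk hF hv
  have hhalf := stk_halfS hstk hF hT he
  have hTS := half_TS hhalf hF
  have hmatch := fun (x : D) (J J' : ℕ) => stk_matchS hstk hF hT he x (J := J) (J' := J')
  have hrecon := fun (x : D) (j : ℕ) => stk_reconS hstk hF hT he x (j := j)
  generalize hU : (fun (x : D) (j : ℕ) => Sys.T v g x (fold K j)) = U at hTS hhalf
  have hU' : ∀ x j, Sys.T v g x (fold K j) = U x j := fun x j => by rw [← hU]
  simp only [hU'] at hmatch hrecon
  -- the regions one after the other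
  obtain ⟨M, hM⟩ : ∃ M, ∀ x, rk x ≤ M :=
    ⟨∑ x, rk x, fun x => Finset.single_le_sum (f := rk) (fun _ _ => Nat.zero_le _)
      (Finset.mem_univ x)⟩
  have key : ∀ n u, M - rk u = n → ∀ x, Rg u x → ∀ i j, (U u i ↔ U x j) := by
    intro n
    induction n using Nat.strong_induction_on with
    | _ n ih =>
      intro u hu
      have hdeep : ∀ x, Rg u x → ¬ R x → ∀ y, Rg (S.om x) y → ∀ i j, (U (S.om x) i ↔ U y j) := by
        intro x hx hRx y hy i j
        have h1 := hup x hRx
        have h2 := hrk u x hx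
        have h3 := hM (S.om x)
        exact ih (M - rk (S.om x)) (by omega) (S.om x) rfl y hy i j
      obtain ⟨c, hc⟩ := hLP u U (fun x => Rg u x ∧ ¬ R x ∧ U (S.om x) 0) hTS (by
        intro x
        have h1 : Rg u (S.E x) ↔ Rg u x := ⟨fun h => hRg.trans h (hRg.symm (hRE x)),
          fun h => hRg.trans h (hRE x)⟩
        show (Rg u (S.E x) ∧ ¬ R (S.E x) ∧ U (S.om (S.E x)) 0) ↔ _
        rw [h1, hR x]
        refine and_congr_right (fun h2 => and_congr_right (fun h3 => ?_))
        refine hdeep (S.E x) (h1.2 h2) (fun h4 => h3 ((hR x).1 h4)) (S.om x) ?_ 0 0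
        have h5 := hRE (S.om (S.E x))
        rwa [E_om_E] at h5) (by
        intro x hx hRx j hj
        obtain ⟨J', h1, h2⟩ : ∃ J', K ≤ J' ∧ (j + J' + 1) % 2 = e x % 2 :=
          ⟨K + (e x + j + 1 + K) % 2, by omega, by omega⟩
        rw [hmatch x j J' hj h1 h2, hdeep x hx hRx (S.om x) (hRg.refl _) J' 0]
        exact ⟨fun h => ⟨hx, hRx, h⟩, fun h => h.2.2⟩)
      intro x hx i j
      rw [hc u (hRg.refl u) i, hc x hx j]
  have hreg : ∀ u x, Rg u x → ∀ i j, (U u i ↔ U x j) := fun u => key _ u rfl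
  have hom : ∀ x, U (S.om x) 0 ↔ U x 0 := by
    intro x
    obtain ⟨J', h1, h2⟩ : ∃ J', K ≤ J' ∧ (K + J' + 1) % 2 = e x % 2 :=
      ⟨K + (e x + 1) % 2, by omega, by omega⟩
    rw [hreg x x (hRg.refl x) 0 K, hmatch x K J' le_rfl h1 h2]
    exact hreg _ _ (hRg.refl _) 0 J'
  have hE0 : ∀ x, U (S.E x) 0 ↔ U x 0 := fun x => (hreg x _ (hRE x) 0 0).symm
  have ht0 : ∀ x, U (S.ta x) 0 ↔ U x 0 := fun x => (hreg x _ (hRt x) 0 0).symm
  have hr0 : ∀ x, U (S.r x) 0 ↔ U x 0 := fun x => by
    rw [← E_om, hE0, hom]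
  rcases isEmpty_or_nonempty D with hD | ⟨⟨x0⟩⟩
  · exact ⟨True, fun x => hD.elim x⟩
  have hall : ∀ x, U x 0 ↔ U x0 0 := by
    have h1 := htr (fun x => (U x 0 ↔ U x0 0)) (fun d => by rw [hE0])
      (fun d => by
        have h2 : U (S.N d) 0 ↔ U d 0 := by
          rw [← hr0 (S.N d)]
          exact ht0 d
        rw [h2]) (fun d => by rw [hr0])
    exact fun x => h1 x0 x Iff.rfl
  have hall' : ∀ x j, U x j ↔ U x0 0 := fun x j =>
    (hreg x x (hRg.refl x) j 0).trans (hall x)
  refine ⟨U x0 0, hg.all hv hv' ?_⟩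
  intro x j hj
  rcases hrecon x j hj with h1 | h1
  · rw [h1]; exact hall' _ _
  · rw [h1]; exact hall' _ _

end Pool.Agent.MP42.EO
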