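import Pool.Agent.MP42.EO.Piece
import Pool.Agent.MP42.NE.F2

/-!
# From the solutions on the regions to a solution on the whole system

The regions (classes of `Rg`) are ordered by `rk`; every region has one root cycle (`R`).  The root
letter and the deep root types of a region are those of the other side of the root ring if that side
belongs to a region of smaller rank; they are free (`1`, `false`, `false`) if both sides of the ring
are root sides.
-/

set_option autoImplicit false

namespace Pool.Agent.MP42.EO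

open Pool.Agent.MP42.NE Pool.Agent.MP42.NE.Sys

/-- the stacks of types along a cycle -/
lemma TTS.walk {P : Type*} {E : Equiv.Perm P} {τ : P → P} {v : P → ℤ}
    {ok : P → Bool → Bool → Bool → Prop} {κ : P → ℕ → Bool} (h : TTS E τ v ok κ) (x : P) :
    ∀ (n j k : ℕ), (k : ℤ) = j + ∑ i ∈ Finset.range n, v ((E ^ (i + 1)) x) →
      (∀ m ≤ n, 0 ≤ (j : ℤ) + ∑ i ∈ Finset.Ico m n, v ((E ^ (i + 1)) x)) →
      κ ((E ^ n) x) j = κ x k := by
  intro n
  induction n with
  | zero =>
    intro j k hk _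
    simp only [Finset.range_zero, Finset.sum_empty, add_zero, Nat.cast_inj] at hk
    subst hk
    rfl
  | succ n ih =>
    intro j k hk hm
    have h1 := hm n (Nat.le_succ n)
    rw [Finset.sum_Ico_succ_top le_rfl, Finset.Ico_self, Finset.sum_empty, zero_add] at h1
    obtain ⟨j', hj'⟩ : ∃ j' : ℕ, (j' : ℤ) = j + v ((E ^ (n + 1)) x) :=
      ⟨_, Int.toNat_of_nonneg h1⟩
    have e1 : (E ^ (n + 1)) x = E ((E ^ n) x) := by
      rw [pow_succ', Equiv.Perm.mul_apply]
    have h2 : κ ((E ^ (n + 1)) x) j = κ ((E ^ n) x) j' := by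
      rw [e1]
      apply h.st
      rw [← e1, hj']
      ring
    rw [h2]
    apply ih j' k
    · rw [hk, Finset.sum_range_succ, hj']
      ring
    · intro m hm'
      have h3 := hm m (hm'.trans (Nat.le_succ n))
      rw [Finset.sum_Ico_succ_top hm'] at h3
      rw [hj']
      linarith

/-- two darts of one cycle have the same stacks of types up to a bounded shift -/
lemma TTS.shift {P : Type*} [Finite P] {E : Equiv.Perm P} {τ : P → P} {v : P → ℤ} {K : ℕ}
    {ok : P → Bool → Bool → Bool → Prop} {κ : P → ℕ → Bool} (h : TTS E τ v ok κ)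
    (hPB : PB E v K) {x y : P} (hxy : E.SameCycle x y) :
    ∃ c : ℤ, |c| ≤ K ∧ ∀ j k : ℕ, K ≤ j → (k : ℤ) = j + c → κ y j = κ x k := by
  classical
  have hex : ∃ n : ℕ, (E ^ n) x = y := hxy.exists_nat_pow_eq
  have hn := Nat.find_spec hex
  have hmin : ∀ i, i < Nat.find hex → (E ^ i) x ≠ y := fun i hi => Nat.find_min hex hi
  generalize Nat.find hex = n at hn hmin
  have hret : ∀ i, 0 < i → i < n → (E ^ i) x ≠ x := by
    intro i h0 h1 h2
    apply hmin (n - i) (by omega)
    rw [← hn]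
    conv_rhs => rw [show n = (n - i) + i by omega, pow_add, Equiv.Perm.mul_apply, h2]
  have hb : ∀ m ≤ n, |∑ i ∈ Finset.Ico m n, v ((E ^ (i + 1)) x)| ≤ K := by
    intro m hm
    have e1 : ∑ i ∈ Finset.Ico m n, v ((E ^ (i + 1)) x) =
        ∑ i ∈ Finset.range (n - m), v ((E ^ i) ((E ^ (m + 1)) x)) := by
      rw [Finset.sum_Ico_eq_sum_range]
      apply Finset.sum_congr rfl
      intro i _
      rw [← Equiv.Perm.mul_apply, ← pow_add, show m + i + 1 = i + (m + 1) by ring]
    rw [e1]
    apply hPB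
    intro i h0 h1 h2
    rw [← Equiv.Perm.mul_apply, ← pow_add, Nat.add_comm, pow_add, Equiv.Perm.mul_apply] at h2
    exact hret i h0 (by omega) ((E ^ (m + 1)).injective h2)
  refine ⟨∑ i ∈ Finset.Ico 0 n, v ((E ^ (i + 1)) x), hb 0 (Nat.zero_le n), ?_⟩
  intro j k hj hk
  rw [← hn]
  apply h.walk x n j k
  · rw [hk, Finset.range_eq_Ico]
  · intro m hm
    have h1 := (abs_le.1 (hb m hm)).1
    omega

/-- a solution on the whole system -/
structure Whole {D : Type*} [Fintype D] (S : Sys D) (ok : D → Bool → Bool → Bool → Prop) (K : ℕ)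
    (Rg : D → D → Prop) (R : D → Prop) (v : D → ℤ) (κ : D → ℕ → Bool) (sg : D → ℤ) : Prop where
  vτ : ∀ x, v (S.ta x) = v x
  v0 : ∀ x, S.ta x = x → v x = 0
  sg1 : ∀ x, sg x = 1 ∨ sg x = -1
  sgE : ∀ x, sg (S.E x) = sg x
  sgo : ∀ x, sg (S.om x) = sg x
  sum : ∀ (d : D) (_ : DecidablePred (fun x => S.E.SameCycle d x)),
    ∑ x ∈ Finset.univ.filter (fun x => S.E.SameCycle d x), v x = 2 * sg d
  pb : PB S.E v K
  tts : TTS S.E S.ta v ok κ
  per : ∀ x j, K ≤ j → κ x (j + 2) = κ x j
  mat : ∀ x, ∃ y, (S.E.SameCycle x y ∨ S.E.SameCycle (S.om x) y) ∧ ∃ ε : ℕ, ∀ i j, K ≤ i →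
    K ≤ j → (i + j + 1 + ε) % 2 = 0 → κ y i = κ (S.om y) j
  conn : ∀ (u : D) (T : D → ℕ → Prop) (ρ : D → Prop), TS S.E S.ta v T →
    (∀ x, ρ (S.E x) ↔ ρ x) → (∀ x, Rg u x → ¬ R x → ∀ j, K ≤ j → (T x j ↔ ρ x)) →
    ∃ c : Prop, ∀ x, Rg u x → ∀ j, (T x j ↔ c)

lemma per_mod {κ : ℕ → Bool} {K : ℕ} (h : ∀ j, K ≤ j → κ (j + 2) = κ j) {i j : ℕ} (hi : K ≤ i)
    (hj : K ≤ j) (hij : i % 2 = j % 2) : κ i = κ j := by
  have key : ∀ m j, K ≤ j → κ (j + 2 * m) = κ j := by
    intro m
    induction m with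
    | zero => intro j _; rfl
    | succ m ih =>
      intro j hj
      rw [show j + 2 * (m + 1) = (j + 2 * m) + 2 by ring, h _ (by omega), ih j hj]
  rcases le_total i j with h1 | h1
  · have := key ((j - i) / 2) i hi
    rw [show i + 2 * ((j - i) / 2) = j by omega] at this
    exact this.symm
  · have := key ((i - j) / 2) j hj
    rw [show j + 2 * ((i - j) / 2) = i by omega] at this
    exact this

/-- the letter of a Boolean -/
def letr (b : Bool) : ℤ := if b then 1 else -1

lemma letr_or (b : Bool) : letr b = 1 ∨ letr b = -1 := by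
  cases b
  · right; rfl
  · left; rfl

/-- **from the solutions on the regions to a solution on the whole system** -/
theorem exists_whole {D : Type*} [Fintype D] (S : Sys D) {ok : D → Bool → Bool → Bool → Prop}
    {K : ℕ} {Rg : D → D → Prop} (hRg : Equivalence Rg) (hRE : ∀ x, Rg x (S.E x))
    (hRt : ∀ x, Rg x (S.ta x)) {R : D → Prop} (hR : ∀ x, R (S.E x) ↔ R x)
    (hRa : ∀ x, ∃ y, Rg x y ∧ R y) (hRb : ∀ x y, R x → R y → Rg x y → S.E.SameCycle x y)
    {rk : D → ℕ} (hrk : ∀ x y, Rg x y → rk x = rk y)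
    (hup : ∀ x, ¬ R x → R (S.om x) ∧ rk x < rk (S.om x))
    (hLP : ∀ r, R r → ∀ s : ℤ, (s = 1 ∨ s = -1) → ∀ t0 t1 : Bool,
      ∃ v κ sg, Piece S ok K (Rg r) r s t0 t1 v κ sg) :
    ∃ v κ sg, Whole S ok K Rg R v κ sg := by
  classical
  -- the solutions on the regions
  have hLP' : ∀ r (p : Bool × Bool × Bool), ∃ q : (D → ℤ) × (D → ℕ → Bool) × (D → ℤ),
      R r → Piece S ok K (Rg r) r (letr p.1) p.2.1 p.2.2 q.1 q.2.1 q.2.2 := by
    intro r p
    by_cases hr : R r
    · obtain ⟨v, κ, sg, h⟩ := hLP r hr (letr p.1) (letr_or _) p.2.1 p.2.2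
      exact ⟨(v, κ, sg), fun _ => h⟩
    · exact ⟨(fun _ => 0, fun _ _ => false, fun _ => 1), fun h => (hr h).elim⟩
  choose q hq using hLP'
  -- the root darts of the regions
  obtain ⟨rr, hrr, hrrR, hrrE⟩ : ∃ rr : D → D, (∀ x, Rg x (rr x)) ∧ (∀ x, R (rr x)) ∧
      (∀ x y, Rg x y → rr x = rr y) := by
    let st : Setoid D := ⟨Rg, hRg⟩
    choose f hf using hRa
    refine ⟨fun x => f (Quotient.out (Quotient.mk st x)), ?_, ?_, ?_⟩
    · intro x
      have h1 : Rg (Quotient.out (Quotient.mk st x)) x :=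
        Quotient.exact (s := st) (Quotient.out_eq _)
      exact hRg.trans (hRg.symm h1) (hf _).1
    · intro x
      exact (hf _).2
    · intro x y hxy
      have h1 : Quotient.mk st x = Quotient.mk st y := Quotient.sound (s := st) hxy
      show f (Quotient.out (Quotient.mk st x)) = f (Quotient.out (Quotient.mk st y))
      rw [h1]
  have hrrrk : ∀ x, rk (rr x) = rk x := fun x => (hrk _ _ (hrr x)).symm
  -- the parameters of the regions
  obtain ⟨a, ha⟩ : ∃ a : D → Bool × Bool × Bool, ∀ r, a r =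
      if R (S.om r) ∨ ¬ R r then (true, false, false) else
      (decide ((q (rr (S.om r)) (a (rr (S.om r)))).2.2 (S.om r) = 1),
        (q (rr (S.om r)) (a (rr (S.om r)))).2.1 (S.om r) K,
        (q (rr (S.om r)) (a (rr (S.om r)))).2.1 (S.om r) (K + 1)) := by
    let F : (r : D) → ((y : D) → rk y < rk r → Bool × Bool × Bool) → Bool × Bool × Bool :=
      fun r ih => if h : R (S.om r) ∨ ¬ R r then (true, false, false) else
        have hlt : rk (rr (S.om r)) < rk r := by
          have h1 := (hup (S.om r) (fun h' => h (Or.inl h'))).2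
          rw [om_om] at h1
          rw [hrrrk]
          exact h1
        (decide ((q (rr (S.om r)) (ih (rr (S.om r)) hlt)).2.2 (S.om r) = 1),
        (q (rr (S.om r)) (ih (rr (S.om r)) hlt)).2.1 (S.om r) K,
        (q (rr (S.om r)) (ih (rr (S.om r)) hlt)).2.1 (S.om r) (K + 1))
    refine ⟨(measure rk).wf.fix F, ?_⟩
    intro r
    rw [WellFounded.fix_eq]
    by_cases h : R (S.om r) ∨ ¬ R r
    · rw [if_pos h]
      exact dif_pos h
    · rw [if_neg h]
      exact dif_neg h
  -- the data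
  let v : D → ℤ := fun x => (q (rr x) (a (rr x))).1 x
  let κ : D → ℕ → Bool := fun x => (q (rr x) (a (rr x))).2.1 x
  let sg : D → ℤ := fun x => (q (rr x) (a (rr x))).2.2 x
  have hP : ∀ x, Piece S ok K (Rg (rr x)) (rr x) (letr (a (rr x)).1) (a (rr x)).2.1 (a (rr x)).2.2
      (q (rr x) (a (rr x))).1 (q (rr x) (a (rr x))).2.1 (q (rr x) (a (rr x))).2.2 :=
    fun x => hq _ _ (hrrR x)
  have hin : ∀ x, Rg (rr x) x := fun x => hRg.symm (hrr x)
  have hv : ∀ x y, Rg x y → v y = (q (rr x) (a (rr x))).1 y := by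
    intro x y h
    show (q (rr y) (a (rr y))).1 y = _
    rw [hrrE x y h]
  have hκ : ∀ x y, Rg x y → κ y = (q (rr x) (a (rr x))).2.1 y := by
    intro x y h
    show (q (rr y) (a (rr y))).2.1 y = _
    rw [hrrE x y h]
  have hsg : ∀ x y, Rg x y → sg y = (q (rr x) (a (rr x))).2.2 y := by
    intro x y h
    show (q (rr y) (a (rr y))).2.2 y = _
    rw [hrrE x y h]
  have hRsymm : ∀ x, Rg x (S.E.symm x) := by
    intro x
    have h1 := hRE (S.E.symm x)
    rw [Equiv.apply_symm_apply] at h1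
    exact hRg.symm h1
  have hRpow : ∀ x (n : ℕ), Rg x ((S.E ^ n) x) := by
    intro x n
    induction n with
    | zero => exact hRg.refl x
    | succ n ih =>
      rw [pow_succ', Equiv.Perm.mul_apply]
      exact hRg.trans ih (hRE _)
  have hRcyc : ∀ x y, S.E.SameCycle x y → Rg x y := by
    intro x y h
    obtain ⟨n, rfl⟩ := h.exists_nat_pow_eq
    exact hRpow x n
  have hRR : ∀ x y, S.E.SameCycle x y → (R x ↔ R y) := fun x y h => cyc_const hR h
  have hroot : ∀ x, R x → S.E.SameCycle x (rr x) := fun x hx =>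
    hRb x (rr x) hx (hrrR x) (hrr x)
  have hsgE : ∀ x, sg (S.E x) = sg x := by
    intro x
    rw [hsg x _ (hRE x), hsg x x (hRg.refl x)]
    exact (hP x).sgE x
  have hsgcyc : ∀ x y, S.E.SameCycle x y → sg x = sg y := by
    intro x y h
    exact (cyc_const (S := S) (Q := fun z => sg x = sg z) (fun z => by rw [hsgE]) h).1 rfl
  have hsgr : ∀ x, sg (rr x) = letr (a (rr x)).1 := by
    intro x
    rw [hsg x _ (hrr x)]
    exact (hP x).sgr
  have hsg1 : ∀ x, sg x = 1 ∨ sg x = -1 := fun x => (hP x).sg1 x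
  have hper : ∀ x j, K ≤ j → κ x (j + 2) = κ x j := fun x => (hP x).per x
  have htts : TTS S.E S.ta v ok κ := by
    constructor
    · intro p j k hk
      rw [hκ p _ (hRE p)]
      apply (hP p).tts.st
      rw [hk, hv p _ (hRE p)]
    · intro p i j hij
      rw [hκ p _ (hRsymm p), hκ p _ (hRg.trans (hRt p) (hRsymm _))]
      exact (hP p).tts.pop p i j hij
    · intro p i j hij
      rw [hκ p _ (hRt p)]
      exact (hP p).tts.push p i j hij
  have hpb : PB S.E v K := by
    intro x n hn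
    have h1 : ∑ i ∈ Finset.range n, v ((S.E ^ i) x) =
        ∑ i ∈ Finset.range n, (q (rr x) (a (rr x))).1 ((S.E ^ i) x) :=
      Finset.sum_congr rfl (fun i _ => hv x _ (hRpow x i))
    rw [h1]
    exact (hP x).pb x n hn
  -- the root sides
  have hcase : ∀ x, R x → sg (S.om x) = sg x := by
    intro x hx
    have hs := hroot x hx
    have hs' := same_om hs
    rw [hsgcyc _ _ hs', hsgcyc _ _ hs]
    by_cases ho : R (S.om (rr x))
    · have h1 := hroot _ ho
      have h2 := same_om h1
      rw [om_om] at h2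
      have h3 : R (S.om (rr (S.om (rr x)))) := (hRR _ _ h2).1 (hrrR x)
      rw [hsgcyc _ _ h1, hsgr, hsgr, ha, if_pos (Or.inl h3), ha (rr x), if_pos (Or.inl ho)]
    · rw [hsgr, ha (rr x), if_neg (by
        rintro (h | h)
        · exact ho h
        · exact h (hrrR x))]
      show sg (S.om (rr x)) = letr (decide (sg (S.om (rr x)) = 1))
      rcases hsg1 (S.om (rr x)) with h | h
      · rw [h]; simp [letr]
      · rw [h]; simp [letr]
  -- deep types of the ring of two root sides
  have hfalse : ∀ x, R x → R (S.om x) → ∀ j, K ≤ j → κ x j = false := by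
    intro x hx hox j hj
    have hs := hroot x hx
    have ho : R (S.om (rr x)) := (hRR _ _ (same_om hs)).1 hox
    obtain ⟨ε, hε⟩ := (hP x).deep
    have hd : ∀ j, K ≤ j → κ (rr x) j = false := by
      intro j hj
      rw [hκ x _ (hrr x), hε j hj, ha (rr x), if_pos (Or.inl ho)]
      simp
    obtain ⟨c, hc, hc'⟩ := htts.shift hpb hs.symm
    have hc1 := (abs_le.1 hc).1
    rw [per_mod (hper x) hj (j := j + 2 * K) (by omega) (by omega),
      hc' (j + 2 * K) ((j : ℤ) + 2 * K + c).toNat (by omega) (by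
        rw [Int.toNat_of_nonneg (by omega)]; push_cast; ring)]
    apply hd
    omega
  have hmat : ∀ x, R x → ∃ ε : ℕ, ∀ i j, K ≤ i → K ≤ j → (i + j + 1 + ε) % 2 = 0 →
      κ (rr x) i = κ (S.om (rr x)) j := by
    intro x hx
    by_cases ho : R (S.om (rr x))
    · refine ⟨0, fun i j hi hj _ => ?_⟩
      rw [hfalse (rr x) (hrrR x) ho i hi, hfalse (S.om (rr x)) ho (by rw [om_om]; exact hrrR x) j hj]
    · obtain ⟨ε, hε⟩ := (hP x).deep
      refine ⟨K + ε + 1, fun i j hi hj hij => ?_⟩
      have hA := ha (rr x)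
      rw [if_neg (by
        rintro (h | h)
        · exact ho h
        · exact h (hrrR x))] at hA
      rw [hκ x _ (hrr x), hε i hi, hA]
      show (if (i + ε) % 2 = 0 then κ (S.om (rr x)) K else κ (S.om (rr x)) (K + 1)) = _
      split_ifs with h1
      · exact per_mod (hper _) le_rfl hj (by omega)
      · exact per_mod (hper _) (by omega) hj (by omega)
  refine ⟨v, κ, sg, ?_⟩
  constructor
  · intro x
    rw [hv x _ (hRt x)]
    exact (hP x).vτ x
  · exact fun x => (hP x).v0 x
  · exact hsg1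
  · exact hsgE
  · intro x
    by_cases hx : R x
    · exact hcase x hx
    · have h1 := hcase (S.om x) (hup x hx).1
      rw [om_om] at h1
      exact h1.symm
  · intro d inst
    have h1 := (hP d).sum d (hin d)
    show _ = 2 * (q (rr d) (a (rr d))).2.2 d
    rw [← h1]
    refine Finset.sum_congr ?_ ?_
    · ext x
      simp
    · intro x hx
      have hx' : S.E.SameCycle d x := by simpa using hx
      exact hv d x (hRcyc d x hx')
  · exact hpb
  · exact htts
  · exact hper
  · intro x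
    by_cases hx : R x
    · exact ⟨rr x, Or.inl (hroot x hx), hmat x hx⟩
    · exact ⟨rr (S.om x), Or.inr (hroot _ (hup x hx).1), hmat _ (hup x hx).1⟩
  · intro u T ρ hT hρ hdeep
    obtain ⟨c, hc⟩ := (hP u).conn v T ρ (fun x hx => hv u x (hRg.trans (hrr u) hx)) hT hρ (by
      intro x hx hxr j hj
      apply hdeep x (hRg.trans (hrr u) hx) _ j hj
      intro hRx
      exact hxr (hRb x (rr u) hRx (hrrR u) (hRg.symm hx)))
    exact ⟨c, fun x hx => hc x (hRg.trans (hin u) hx)⟩

end Pool.Agent.MP42.EO
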