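import Pool.Agent.MP42.EO.GF6
import Pool.Agent.MP42.EO.RTree
import Pool.Agent.MP42.EO.RTree0
import Pool.Agent.MP42.EO.Rec
import Pool.Agent.MP42.EO.Flow55
import Pool.Agent.MP42.EO.Region
import Pool.Agent.MP42.EO.Glob

/-!
# Assembly: from the local facts to an edge unfolding
-/

set_option autoImplicit false

namespace Pool.Agent.MP42.EO

open Pool.Agent.Helper55.UNF Pool.Agent.Helper55.UNF.GridSolid Pool.Agent.MP42.NE Pool.Agent.MP42

/-- Connected typed flows with at least `B` and at most `C` strands. -/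
def Out {D : Type*} (S : Sys D) (ok : D → Bool → Bool → Bool → Prop) (B C : ℕ) : Prop :=
  ∃ (e : D → ℕ) (v : D → ℤ) (g : D → ℕ → Bool), S.Fl e v ∧ S.FConn e v ∧
    (∀ x, S.ta x = x → v x = 0) ∧ (∀ x, |v x| ≤ C) ∧ (∀ x, B ≤ e x) ∧ (∀ x, e x ≤ C) ∧
    (∀ (d : D) (j : ℕ), j < e d →
      g d ((v d).toNat + j) = g (S.E d) ((-v (S.E d)).toNat + j)) ∧
    (∀ (d : D) (t : ℕ), t < S.cnt e v d → g (S.r d) t = g d (S.cnt e v d - 1 - t)) ∧
    (∀ (d : D) (j : ℕ), (j : ℤ) < v d → ok d true (g d j)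
      (g (S.N d) ((-v (S.N d)).toNat + e (S.r (S.N d)) + j))) ∧
    (∀ (d : D) (j : ℕ), (j : ℤ) < -v d → ok d false (g d j)
      (g (S.N d) ((v (S.N d)).toNat + e (S.N d) + j)))

/-- a ring separates -/
def SepRing {D : Type*} (S : Sys D) : Prop :=
  ∀ x, ¬ Relation.EqvGen (fun a b => b = S.E a ∨ b = S.ta a ∨
    (b = S.om a ∧ ¬ (S.E.SameCycle x a ∨ S.E.SameCycle (S.om x) a))) x (S.om x)

/-- solutions on all regions -/
def Pieces {D : Type*} [Fintype D] (S : Sys D) (ok : D → Bool → Bool → Bool → Prop) (K : ℕ) :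
    Prop :=
  ∀ (r : D) (s : ℤ), (s = 1 ∨ s = -1) → ∀ t0 t1 : Bool,
    ∃ v κ sg, Piece S ok K (Reg S.E S.ta r) r s t0 t1 v κ sg

/-- **from the regions to a connected typed flow** -/
theorem out_of_pieces {D : Type*} [Fintype D] [DecidableEq D] [Nonempty D] {S : Sys D}
    {ok : D → Bool → Bool → Bool → Prop} {K : ℕ} (hP : Pieces S ok K)
    (hr : ∀ x, S.r x ≠ x) (ho : ∀ x, S.r (S.E x) ≠ x) (htr : S.Trans) (hsep : SepRing S) :
    Out S ok (4 * K + 4) (24 * K + 24) := by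
  obtain ⟨R, rk, h1, h2, h3, h4, h5, h6⟩ := ring_tree htr hsep
  have hRg : Equivalence (Reg S.E S.ta) :=
    ⟨fun x => Reg.refl x, fun h => Reg.symm h, fun h h' => Reg.trans h h'⟩
  obtain ⟨v, κ, sg, W⟩ := exists_whole S (ok := ok) (K := K) hRg (fun x => reg_E x)
    (fun x => reg_τ x) h1 h3 (fun x y hx hy hxy => h4 x y hxy hx hy) h2
    (fun x hx => ⟨h5 x hx, h6 x hx⟩) (fun r _ s hs t0 t1 => hP r s hs t0 t1)
  have hsum : ∀ d, ∑ x ∈ Finset.univ.filter (fun x => S.E.SameCycle d x), v x = 2 * sg d :=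
    fun d => W.sum d _
  obtain ⟨e, g, hF, f1, f2, f3, f4, f5, f6, f7⟩ := exists_flow_types_sg S hr ho W.vτ W.pb W.sgo
    hsum W.tts W.per W.mat (4 * K + 4)
  refine ⟨e, v, g, hF, ?_, W.v0, ?_, f1, ?_, f4, f5, f6, f7⟩
  · exact RTree.fconn S hF f2 W.pb W.sg1 hsum htr hRg (fun x => reg_E x) (fun x => reg_τ x) h1
      h2 h6 W.conn
  · intro x
    have := W.pb x 1 (fun i h1 h2 => by omega)
    simp only [Finset.sum_range_one, pow_zero, Equiv.Perm.one_apply] at this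
    push_cast
    linarith
  · intro x
    have := f3 x
    omega

/-- **typed flows on the spine system give an edge unfolding** -/
theorem unfold_of_out {P : GridSolid} {a b : Fin 3} (hab : a ≠ b) (F : P.Facet) {B C : ℕ}
    (hB : 0 < B) (h : Out (sysH P a b hab) (okH b) B C) {n : ℕ} (hn : 0 < n)
    (hnC : n = 2 * (5 * (C + 1) + 1) + 1) : (P.refine n hn).HasEdgeUnfolding := by
  obtain ⟨e, v, g, hF, hC, h0, hv, h1, h2, h3, h4, h5, h6⟩ := h
  subst hnC
  refine hasEdgeUnfolding_of_typed hF hC ?_ (fun x => lt_of_lt_of_le hB (h1 x)) g h3 h4 h5 h6 F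
    h2 hv hn
  intro x hx
  apply h0
  by_contra hc
  exact hx ((ta_ne_iff hab x).1 hc)

/-- **from the regions to an edge unfolding** -/
theorem unfold_of_pieces {P : GridSolid} {a b : Fin 3} (hab : a ≠ b)
    (hP : P.IsOrthogonalPolyhedron) (hpc : Pieces (sysH P a b hab) (okH b) 4)
    (hsep : SepRing (sysH P a b hab)) (hn : 0 < 1213) :
    (P.refine 1213 hn).HasEdgeUnfolding := by
  classical
  obtain ⟨F⟩ := hP.2.nonempty
  have := nonempty_HD a hP.2
  refine unfold_of_out hab F (B := 4 * 4 + 4) (C := 24 * 4 + 24) (by norm_num) ?_ hn (by norm_num)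
  exact out_of_pieces hpc (sysH_r_ne hab) (sysH_rE_ne hab) (trans_sysH hab hP.1 hP.2) hsep

/-- the local facts give the solutions on all regions -/
theorem pieces_of_loc {D : Type*} [Fintype D] {S : Sys D} {A : D → Prop}
    {ok : D → Bool → Bool → Bool → Prop} {MR : {x // A x} → Prop}
    (hA : ∀ x, A x → A (S.ta x)) (hdead : ∀ x, ¬ A x → S.ta x = x)
    (hex : ∀ x, ∃ y, S.E.SameCycle x y ∧ A y)
    (L : Loc (ret S.E A) (fun x => ⟨S.ta x.1, hA x.1 x.2⟩) (fun x => ok x.1) MR) :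
    Pieces S ok 4 :=
  fun r _ hs t0 t1 => exists_piece hA hdead hex L r hs t0 t1

end Pool.Agent.MP42.EO
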