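import Pool.Agent.MP42.NE.TS

/-!
# Insertion trees of three-valent vertices, on the used units of one region

`Net`: the darts `Q` are the sides of the units that carry strands.  `E` = next unit to the east on
the same face, `τ` = other side of the unit.  Every unit except the root unit `{r0, τ r0}` belongs
to one used vertex; `In x` = the vertex is at the east end of `x` (= the unit `x` is before the
corner).  A used vertex has the three darts `c`, `ν c`, `ν (ν c)` with `ν x = τ (E x)` (corners,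
`x` = corner after the unit `x`); `D c` marks one of them:

* `cp c` (popping child): child corner `ν (ν c)` (letter `1`), host corner `c`, pass corner `ν c`,
  `v c = 1`, `v (ν c) = -1`, `v (ν (ν c)) = 1`;
* `¬ cp c` (pushing child): child corner `c` (letter `-1`), host corner `ν (ν c)`, pass corner
  `ν c`, `v c = -1`, `v (ν c) = -1`, `v (ν (ν c)) = 1`.

In both cases `c` is the direct unit between child and host, `ν c` and `ν (ν c)` are the way round
the third corner.  The root unit has `v = 2` (`s`) or `v = -2` (`¬ s`).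
-/

set_option autoImplicit false

namespace Pool.Agent.MP42.EO

open Pool.Agent.MP42.NE

/-- induction along a cycle -/
lemma cyc_ind {Q : Type*} [Finite Q] {E : Equiv.Perm Q} {z : Q} {R : Q → Prop} (h0 : R (E z))
    (hs : ∀ y, E.SameCycle z y → y ≠ z → R y → R (E y)) {x : Q} (hx : E.SameCycle z x) : R x := by
  have hx' : E.SameCycle (E z) x := by rwa [Equiv.Perm.sameCycle_apply_left]
  obtain ⟨n, hn⟩ := hx'.exists_nat_pow_eq
  clear hx'
  induction n using Nat.strong_induction_on generalizing x with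
  | _ n ih =>
    rcases Nat.eq_zero_or_pos n with h | h
    · subst h
      have : E z = x := by simpa using hn
      rw [← this]; exact h0
    · obtain ⟨m, rfl⟩ : ∃ m, n = m + 1 := ⟨n - 1, by omega⟩
      have e1 : x = E ((E ^ m) (E z)) := by
        rw [← hn, pow_succ']; rfl
      by_cases hz : (E ^ m) (E z) = z
      · rw [e1, hz]; exact h0
      · rw [e1]
        have hc : E.SameCycle z ((E ^ m) (E z)) :=
          ⟨((m + 1 : ℕ) : ℤ), by rw [zpow_natCast, pow_succ]; rfl⟩
        exact hs _ hc hz (ih m (by omega) hc rfl)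

/-- the used units of one region -/
structure Net (Q : Type*) where
  E : Equiv.Perm Q
  τ : Q → Q
  v : Q → ℤ
  In : Q → Prop
  D : Q → Prop
  cp : Q → Prop
  r0 : Q
  s : Prop
  ττ : ∀ x, τ (τ x) = x
  vτ : ∀ x, v (τ x) = v x
  inE : ∀ x, In x → In (τ (E x))
  n3 : ∀ x, In x → τ (E (τ (E (τ (E x))))) = x
  inτ : ∀ x, x ≠ r0 → x ≠ τ r0 → (In (τ x) ↔ ¬ In x)
  r0i : ¬ In r0
  r0j : ¬ In (τ r0)
  DI : ∀ x, D x → In x
  cov : ∀ x, In x → D x ∨ D (τ (E x)) ∨ D (τ (E (τ (E x))))
  v0 : ∀ x, D x → cp x → v x = 1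
  v0' : ∀ x, D x → ¬ cp x → v x = -1
  v1 : ∀ x, D x → v (τ (E x)) = -1
  v2 : ∀ x, D x → v (τ (E (τ (E x)))) = 1
  vr : s → v r0 = 2
  vr' : ¬ s → v r0 = -2

namespace Net

variable {Q : Type*} (N : Net Q)

/-- rotation about the vertex at the east end -/
def ν (x : Q) : Q := N.τ (N.E x)

open Classical in
/-- the corner on the face of the child -/
noncomputable def cc (c : Q) : Q := if N.cp c then N.ν (N.ν c) else c

open Classical in
/-- the corner on the face of the host -/
noncomputable def hh (c : Q) : Q := if N.cp c then c else N.ν (N.ν c)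

/-- the tree of the faces -/
structure Tree : Prop where
  dep : ∃ f : Q → ℕ, (∀ x, f (N.E x) = f x) ∧ ∀ c, N.D c → f (N.hh c) < f (N.cc c)
  chU : ∀ c c', N.D c → N.D c' → N.E.SameCycle (N.cc c) (N.cc c') → c = c'
  chR : ∀ c, N.D c → ¬ N.E.SameCycle (N.cc c) N.r0
  chR' : ∀ c, N.D c → ¬ N.E.SameCycle (N.cc c) (N.τ N.r0)
  chE : ∀ x, ¬ N.E.SameCycle x N.r0 → ¬ N.E.SameCycle x (N.τ N.r0) →
    ∃ c, N.D c ∧ N.E.SameCycle x (N.cc c)
  rr : ¬ N.E.SameCycle N.r0 (N.τ N.r0)

variable {N}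

lemma cc_pos {c : Q} (h : N.cp c) : N.cc c = N.ν (N.ν c) := if_pos h
lemma cc_neg {c : Q} (h : ¬ N.cp c) : N.cc c = c := if_neg h
lemma hh_pos {c : Q} (h : N.cp c) : N.hh c = c := if_pos h
lemma hh_neg {c : Q} (h : ¬ N.cp c) : N.hh c = N.ν (N.ν c) := if_neg h

lemma E_eq (x : Q) : N.E x = N.τ (N.ν x) := (N.ττ _).symm

lemma in_ν {x : Q} (h : N.In x) : N.In (N.ν x) := N.inE x h

lemma ν3 {x : Q} (h : N.In x) : N.ν (N.ν (N.ν x)) = x := N.n3 x h

lemma symm_τν (x : Q) : N.E.symm (N.τ (N.ν x)) = x := by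
  rw [← E_eq, Equiv.symm_apply_apply]

lemma symm_τ {x : Q} (h : N.In x) : N.E.symm (N.τ x) = N.ν (N.ν x) := by
  have := symm_τν (N := N) (N.ν (N.ν x))
  rwa [ν3 h] at this

lemma not_in_E {x : Q} (h : N.In x) : ¬ N.In (N.E x) := by
  rw [E_eq]
  have h1 : N.ν x ≠ N.r0 := fun h' => N.r0i (h' ▸ in_ν h)
  have h2 : N.ν x ≠ N.τ N.r0 := fun h' => N.r0j (h' ▸ in_ν h)
  rw [N.inτ _ h1 h2]
  exact fun h' => h' (in_ν h)

/-- a dart that is not `In` and whose successor is not `In` is before a root dart -/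
lemma root_of {x : Q} (h : ¬ N.In x) (h' : ¬ N.In (N.E x)) : N.E x = N.r0 ∨ N.E x = N.τ N.r0 := by
  by_contra hc
  rw [not_or] at hc
  have h1 : N.In (N.ν x) := (N.inτ _ hc.1 hc.2).2 h'
  have h2 : N.In (N.ν (N.ν (N.ν x))) := in_ν (in_ν h1)
  -- `E x = τ (ν x)` and `x = E.symm (τ (ν x)) = ν (ν (ν x))`
  have h3 := symm_τ h1
  rw [symm_τν] at h3
  rw [← h3] at h2
  exact h h2

lemma not_in_symm_root {z : Q} (h : N.E z = N.r0 ∨ N.E z = N.τ N.r0) : ¬ N.In z := by
  intro hz
  have h1 := in_ν hz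
  rcases h with h | h
  · have : N.ν z = N.τ N.r0 := by unfold ν; rw [h]
    rw [this] at h1; exact N.r0j h1
  · have : N.ν z = N.r0 := by unfold ν; rw [h, N.ττ]
    rw [this] at h1; exact N.r0i h1

/-! ## Untyped stacks -/

section Conn

variable {T : Q → ℕ → Prop} (hT : TS N.E N.τ N.v T)

open Classical in
/-- the stack in the middle of the edge at or before the dart -/
noncomputable def W (N : Net Q) (T : Q → ℕ → Prop) (y : Q) (j : ℕ) : Prop :=
  if N.In y then T (N.E.symm y) j else T y j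

lemma W_in {y : Q} (h : N.In y) (j : ℕ) : N.W T y j ↔ T (N.E.symm y) j := by
  unfold W; rw [if_pos h]

lemma W_not {y : Q} (h : ¬ N.In y) (j : ℕ) : N.W T y j ↔ T y j := by
  unfold W; rw [if_neg h]

lemma W_E {y : Q} (h : N.In y) (j : ℕ) : N.W T (N.E y) j ↔ T (N.E y) j := W_not (not_in_E h) j

lemma W_step {y : Q} (h : ¬ N.In y) (h' : N.In (N.E y)) (j : ℕ) :
    N.W T (N.E y) j ↔ N.W T y j := by
  rw [W_in h', W_not h, Equiv.symm_apply_apply]

include hT

/-- the stack over a corner -/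
lemma T_corner {y : Q} (h : N.In y) {j k : ℕ} (hk : (k : ℤ) = N.v y + j) :
    T y j ↔ N.W T y k := by
  have := hT.st (N.E.symm y) j k (by rw [Equiv.apply_symm_apply]; exact hk)
  rw [Equiv.apply_symm_apply] at this
  rw [this, W_in h]

/-- the stack after a corner -/
lemma W_corner {y : Q} (h : N.In y) {j k : ℕ} (hk : (k : ℤ) = N.v (N.ν y) + j) :
    N.W T (N.E y) j ↔ T y k := by
  rw [W_E h]
  refine hT.st y j k ?_
  have : N.v (N.E y) = N.v (N.ν y) := by rw [E_eq, N.vτ]
  rw [this]; exact hk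

/-- crossing the unit of the corner, popping -/
lemma pop_in {y : Q} (h : N.In y) (hv : N.v y = 1) : N.W T y 0 ↔ T (N.ν (N.ν y)) 0 := by
  have := hT.pop y 0 0 (by rw [hv]; rfl)
  rw [symm_τ h] at this
  rw [W_in h]; exact this

/-- crossing the unit of the corner, pushing -/
lemma push_in {y : Q} (h : N.In y) (hv : N.v y = -1) :
    T y 0 ↔ N.W T (N.E (N.ν (N.ν y))) 0 := by
  have := hT.push y 0 0 (by rw [hv]; rfl)
  rw [W_E (in_ν (in_ν h)), E_eq, ν3 h]
  exact this

/-- the pass corner -/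
lemma pass {c : Q} (h : N.D c) (j : ℕ) : N.W T (N.E (N.ν c)) j ↔ N.W T (N.ν c) j := by
  have hi := in_ν (N.DI c h)
  rw [W_corner hT hi (j := j) (k := j + 1) (by rw [show N.v (N.ν (N.ν c)) = 1 from N.v2 c h]; push_cast; ring),
    T_corner hT hi (j := j + 1) (k := j) (by rw [show N.v (N.ν c) = -1 from N.v1 c h]; push_cast; ring)]

/-- the popping child: the stack before and after the corner -/
lemma child_pos {c : Q} (h : N.D c) (hc : N.cp c) (j : ℕ) :
    N.W T (N.E (N.cc c)) j ↔ N.W T (N.cc c) (j + 2) := by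
  rw [cc_pos hc]
  have hi := in_ν (in_ν (N.DI c h))
  rw [W_corner hT hi (j := j) (k := j + 1) (by
      rw [ν3 (N.DI c h), N.v0 c h hc]; push_cast; ring),
    T_corner hT hi (j := j + 1) (k := j + 2) (by
      rw [show N.v (N.ν (N.ν c)) = 1 from N.v2 c h]; push_cast; ring)]

/-- the pushing child -/
lemma child_neg {c : Q} (h : N.D c) (hc : ¬ N.cp c) (j : ℕ) :
    N.W T (N.E (N.cc c)) (j + 2) ↔ N.W T (N.cc c) j := by
  rw [cc_neg hc]
  have hi := N.DI c h
  rw [W_corner hT hi (j := j + 2) (k := j + 1) (by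
      rw [show N.v (N.ν c) = -1 from N.v1 c h]; push_cast; ring),
    T_corner hT hi (j := j + 1) (k := j) (by rw [N.v0' c h hc]; push_cast; ring)]

/-- the host corner -/
lemma host {c : Q} (h : N.D c) (j : ℕ) :
    N.W T (N.E (N.hh c)) (j + 1) ↔ N.W T (N.hh c) (j + 1) := by
  by_cases hc : N.cp c
  · rw [hh_pos hc]
    have hi := N.DI c h
    rw [W_corner hT hi (j := j + 1) (k := j) (by
        rw [show N.v (N.ν c) = -1 from N.v1 c h]; push_cast; ring),
      T_corner hT hi (j := j) (k := j + 1) (by rw [N.v0 c h hc]; push_cast; ring)]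
  · rw [hh_neg hc]
    have hi := in_ν (in_ν (N.DI c h))
    rw [W_corner hT hi (j := j + 1) (k := j) (by
        rw [ν3 (N.DI c h), N.v0' c h hc]; push_cast; ring),
      T_corner hT hi (j := j) (k := j + 1) (by
        rw [show N.v (N.ν (N.ν c)) = 1 from N.v2 c h]; push_cast; ring)]

/-- the top strand of the host before the corner -/
lemma link_before {c : Q} (h : N.D c) : (N.cp c → (N.W T (N.hh c) 0 ↔ N.W T (N.cc c) 1)) ∧
    (¬ N.cp c → (N.W T (N.hh c) 0 ↔ N.W T (N.E (N.cc c)) 0)) := by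
  have hi := N.DI c h
  constructor
  · intro hc
    rw [hh_pos hc, cc_pos hc, pop_in hT hi (N.v0 c h hc)]
    exact T_corner hT (in_ν (in_ν hi)) (by
      rw [show N.v (N.ν (N.ν c)) = 1 from N.v2 c h]; rfl)
  · intro hc
    rw [hh_neg hc, cc_neg hc, pop_in hT (in_ν (in_ν hi)) (N.v2 c h), ν3 hi,
      push_in hT (in_ν hi) (N.v1 c h), ν3 hi]

/-- the top strand of the host after the corner -/
lemma link_after {c : Q} (h : N.D c) :
    (N.cp c → (N.W T (N.E (N.hh c)) 0 ↔ N.W T (N.cc c) 0)) ∧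
    (¬ N.cp c → (N.W T (N.E (N.hh c)) 0 ↔ N.W T (N.E (N.cc c)) 1)) := by
  have hi := N.DI c h
  constructor
  · intro hc
    rw [hh_pos hc, cc_pos hc, pop_in hT (in_ν (in_ν hi)) (N.v2 c h), ν3 hi,
      push_in hT (in_ν hi) (N.v1 c h), ν3 hi]
  · intro hc
    rw [hh_neg hc, cc_neg hc, ← push_in hT hi (N.v0' c h hc)]
    refine (W_corner hT hi ?_).symm
    rw [show N.v (N.ν c) = -1 from N.v1 c h]; rfl

/-- the root unit -/
lemma root_step {z : Q} (h : N.E z = N.r0 ∨ N.E z = N.τ N.r0) (j : ℕ) :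
    (N.s → (N.W T (N.E z) j ↔ N.W T z (j + 2))) ∧
    (¬ N.s → (N.W T (N.E z) (j + 2) ↔ N.W T z j)) := by
  have h1 : ¬ N.In z := not_in_symm_root h
  have h2 : ¬ N.In (N.E z) := by
    rcases h with h | h <;> rw [h]
    · exact N.r0i
    · exact N.r0j
  have h3 : N.v (N.E z) = N.v N.r0 := by
    rcases h with h | h <;> rw [h]
    exact N.vτ _
  constructor
  · intro hs
    rw [W_not h2, W_not h1]
    exact hT.st z j (j + 2) (by rw [h3, N.vr hs]; push_cast; ring)
  · intro hs
    rw [W_not h2, W_not h1]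
    exact hT.st z (j + 2) j (by rw [h3, N.vr' hs]; push_cast; ring)

end Conn

/-- the kinds of the steps along a face -/
lemma step_or (y : Q) : (N.E y = N.r0 ∨ N.E y = N.τ N.r0) ∨ (∃ c, N.D c ∧ y = N.cc c) ∨
    (¬ N.In y ∧ N.In (N.E y)) ∨ (∃ c, N.D c ∧ y = N.ν c) ∨ (∃ c, N.D c ∧ y = N.hh c) := by
  by_cases h : N.In y
  · have key : ∀ c, N.D c → (y = c ∨ y = N.ν (N.ν c)) →
        (∃ c, N.D c ∧ y = N.cc c) ∨ (∃ c, N.D c ∧ y = N.hh c) := by
      intro c hc hy
      by_cases hp : N.cp c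
      · rcases hy with hy | hy
        · exact Or.inr ⟨c, hc, by rw [hh_pos hp, hy]⟩
        · exact Or.inl ⟨c, hc, by rw [cc_pos hp, hy]⟩
      · rcases hy with hy | hy
        · exact Or.inl ⟨c, hc, by rw [cc_neg hp, hy]⟩
        · exact Or.inr ⟨c, hc, by rw [hh_neg hp, hy]⟩
    rcases N.cov y h with h1 | h1 | h1
    · rcases key y h1 (Or.inl rfl) with h2 | h2
      · exact Or.inr (Or.inl h2)
      · exact Or.inr (Or.inr (Or.inr (Or.inr h2)))
    · rcases key _ h1 (Or.inr (ν3 h).symm) with h2 | h2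
      · exact Or.inr (Or.inl h2)
      · exact Or.inr (Or.inr (Or.inr (Or.inr h2)))
    · exact Or.inr (Or.inr (Or.inr (Or.inl ⟨_, h1, (ν3 h).symm⟩)))
  · by_cases h' : N.In (N.E y)
    · exact Or.inr (Or.inr (Or.inl ⟨h, h'⟩))
    · exact Or.inl (root_of h h')

lemma v_in {y : Q} (h : N.In y) : N.v y = 1 ∨ N.v y = -1 := by
  rcases N.cov y h with h1 | h1 | h1
  · by_cases hc : N.cp y
    · exact Or.inl (N.v0 y h1 hc)
    · exact Or.inr (N.v0' y h1 hc)
  · left
    have h2 : N.v (N.ν (N.ν (N.ν y))) = 1 := N.v2 _ h1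
    rwa [ν3 h] at h2
  · right
    have h2 : N.v (N.ν (N.ν (N.ν y))) = -1 := N.v1 _ h1
    rwa [ν3 h] at h2

lemma D_cc_hh {c : Q} (h : N.D c) : N.In (N.cc c) ∧ N.In (N.hh c) := by
  have hi := N.DI c h
  by_cases hc : N.cp c
  · rw [cc_pos hc, hh_pos hc]; exact ⟨in_ν (in_ν hi), hi⟩
  · rw [cc_neg hc, hh_neg hc]; exact ⟨hi, in_ν (in_ν hi)⟩

/-- the stack of a face is constant up to the shift place -/
lemma face_const [Finite Q] {T : Q → ℕ → Prop} (hT : TS N.E N.τ N.v T) {z : Q}
    (hz : ∀ y, N.E.SameCycle z y → y ≠ z → ¬ (N.E y = N.r0 ∨ N.E y = N.τ N.r0) ∧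
      ∀ c, N.D c → y ≠ N.cc c)
    (hk : ∀ c, N.D c → N.E.SameCycle z (N.hh c) →
      (N.W T (N.E (N.hh c)) 0 ↔ N.W T (N.hh c) 0)) {x : Q} (hx : N.E.SameCycle z x) (j : ℕ) :
    N.W T x j ↔ N.W T (N.E z) j := by
  revert j
  refine cyc_ind (R := fun y => ∀ j, N.W T y j ↔ N.W T (N.E z) j) (fun j => Iff.rfl) ?_ hx
  intro y hy hyz ih j
  rw [← ih j]
  obtain ⟨h1, h2⟩ := hz y hy hyz
  rcases step_or (N := N) y with h | ⟨c, hc, rfl⟩ | ⟨h, h'⟩ | ⟨c, hc, rfl⟩ | ⟨c, hc, rfl⟩
  · exact absurd h h1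
  · exact absurd rfl (h2 c hc)
  · exact W_step h h' j
  · exact pass hT hc j
  · rcases j with _ | j
    · exact hk c hc hy
    · exact host hT hc j

/-- a function with period two that is constant at infinity is constant -/
lemma per_const {w : ℕ → Prop} {a : Prop} {K : ℕ} (h : ∀ j, w j ↔ w (j + 2))
    (hK : ∀ j, K ≤ j → (w j ↔ a)) (j : ℕ) : w j ↔ a := by
  have key : ∀ n j, w j ↔ w (j + 2 * n) := by
    intro n
    induction n with
    | zero => intro j; rfl
    | succ n ih => intro j; rw [ih j, h]; rfl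
  rw [key K j]
  exact hK _ (by omega)

variable (N)

/-- the shift place of a face that is not the face of the root -/
lemma exists_shift (hTr : N.Tree) {x : Q} (hx : ¬ N.E.SameCycle x N.r0) :
    ∃ z, N.E.SameCycle z x ∧ ((∃ c, N.D c ∧ z = N.cc c) ∨ N.E z = N.τ N.r0) ∧
      ∀ y, N.E.SameCycle z y → y ≠ z → ¬ (N.E y = N.r0 ∨ N.E y = N.τ N.r0) ∧
        ∀ c, N.D c → y ≠ N.cc c := by
  have hE : ∀ {a b : Q}, N.E.SameCycle a b → ∀ {c}, N.E b = c → N.E.SameCycle a c := by
    intro a b h c hc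
    rw [← hc, Equiv.Perm.sameCycle_apply_right]; exact h
  by_cases ht : N.E.SameCycle x (N.τ N.r0)
  · refine ⟨N.E.symm (N.τ N.r0), ?_, Or.inr (Equiv.apply_symm_apply _ _), ?_⟩
    · have h1 : N.E.SameCycle (N.E (N.E.symm (N.τ N.r0))) x := by
        rw [Equiv.apply_symm_apply]; exact ht.symm
      rwa [Equiv.Perm.sameCycle_apply_left] at h1
    · intro y hy hyz
      have hy' : N.E.SameCycle (N.τ N.r0) y := by
        have := (Equiv.Perm.sameCycle_apply_left (f := N.E)).2 hy
        rwa [Equiv.apply_symm_apply] at this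
      refine ⟨?_, ?_⟩
      · rintro (h | h)
        · exact hTr.rr ((hE hy' h).symm)
        · exact hyz (by rw [← h, Equiv.symm_apply_apply])
      · rintro c hc rfl
        exact hTr.chR' c hc hy'.symm
  · obtain ⟨c, hc, hxc⟩ := hTr.chE x hx ht
    refine ⟨N.cc c, hxc.symm, Or.inl ⟨c, hc, rfl⟩, ?_⟩
    intro y hy hyz
    refine ⟨?_, ?_⟩
    · rintro (h | h)
      · exact hx (hxc.trans (hE hy h))
      · exact ht (hxc.trans (hE hy h))
    · rintro c' hc' rfl
      exact hyz (by rw [hTr.chU c c' hc hc' hy])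

/-- **Connectedness.** -/
theorem conn [Finite Q] (hTr : N.Tree) {T : Q → ℕ → Prop} (hT : TS N.E N.τ N.v T)
    {ρ : Q → Prop} (hρ : ∀ x, ρ (N.E x) ↔ ρ x) {K : ℕ}
    (hK : ∀ x, ¬ N.E.SameCycle x N.r0 → ∀ j, K ≤ j → (T x j ↔ ρ x)) :
    ∃ c : Prop, ∀ x j, T x j ↔ c := by
  classical
  obtain ⟨f, hfE, hfc⟩ := hTr.dep
  have cyc : ∀ {α : Type} (g : Q → α), (∀ x, g (N.E x) = g x) → ∀ {x y : Q},
      N.E.SameCycle x y → g y = g x := by
    intro α g hg x y hxy
    obtain ⟨n, hn⟩ := hxy.exists_nat_pow_eq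
    rw [← hn]
    clear hn hxy
    induction n with
    | zero => rfl
    | succ n ih => rw [pow_succ', Equiv.Perm.mul_apply, hg, ih]
  have hf : ∀ {x y : Q}, N.E.SameCycle x y → f y = f x := fun h => cyc f hfE h
  have hρc : ∀ {x y : Q}, N.E.SameCycle x y → (ρ y ↔ ρ x) := fun {x y} h => by
    rw [cyc (fun x => ρ x) (fun x => propext (hρ x)) h]
  obtain ⟨M, hM⟩ : ∃ M, ∀ x, f x ≤ M := by
    obtain ⟨M, hM⟩ := (Set.finite_range f).bddAbove
    exact ⟨M, fun x => hM ⟨x, rfl⟩⟩
  -- deep strands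
  have deep : ∀ x, ¬ N.E.SameCycle x N.r0 → ∀ j, K ≤ j → (N.W T x j ↔ ρ x) := by
    intro x hx j hj
    by_cases h : N.In x
    · rw [W_in h]
      have h1 : N.E.SameCycle (N.E.symm x) x := by
        have := Equiv.Perm.SameCycle.refl N.E (N.E.symm x)
        have := (Equiv.Perm.sameCycle_apply_right (f := N.E)).2 this
        rwa [Equiv.apply_symm_apply] at this
      rw [hK _ (fun h' => hx (h1.symm.trans h')) j hj, ← hρ (N.E.symm x),
        Equiv.apply_symm_apply]
    · rw [W_not h]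
      exact hK x hx j hj
  -- the claim for the faces below
  have claim : ∀ (n : ℕ) (x : Q), M - f x < n → ¬ N.E.SameCycle x N.r0 →
      ∀ j, N.W T x j ↔ ρ x := by
    intro n
    induction n with
    | zero => intro x h; omega
    | succ n ih =>
      intro x hn hx
      obtain ⟨z, hzx, hz1, hz2⟩ := N.exists_shift hTr hx
      have hkid : ∀ c, N.D c → N.E.SameCycle z (N.hh c) →
          (N.W T (N.E (N.hh c)) 0 ↔ N.W T (N.hh c) 0) := by
        intro c hc hzc
        have h1 := hfc c hc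
        have h2 : f (N.hh c) = f x := by rw [hf hzc, hf hzx]
        have h3 := hM (N.cc c)
        have h4 := ih (N.cc c) (by omega) (hTr.chR c hc)
        have h5 := ih (N.E (N.cc c)) (by rw [hfE]; omega) (by
          rw [Equiv.Perm.sameCycle_apply_left]; exact hTr.chR c hc)
        obtain ⟨a1, a2⟩ := link_before hT hc
        obtain ⟨b1, b2⟩ := link_after hT hc
        by_cases hp : N.cp c
        · rw [a1 hp, b1 hp, h4, h4]
        · rw [a2 hp, b2 hp, h5, h5]
      have hconst : ∀ {x}, N.E.SameCycle z x → ∀ j, N.W T x j ↔ N.W T (N.E z) j :=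
        fun hx j => face_const hT hz2 hkid hx j
      have hshift : ∀ j, N.W T (N.E z) j ↔ N.W T (N.E z) (j + 2) := by
        intro j
        have h0 : ∀ j, N.W T z j ↔ N.W T (N.E z) j :=
          fun j => hconst (Equiv.Perm.SameCycle.refl _ _) j
        rcases hz1 with ⟨c, hc, rfl⟩ | h
        · by_cases hp : N.cp c
          · rw [child_pos hT hc hp j]; exact h0 _
          · rw [child_neg hT hc hp j]; exact (h0 _).symm
        · by_cases hp : N.s
          · rw [(root_step hT (Or.inr h) j).1 hp]; exact h0 _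
          · rw [(root_step hT (Or.inr h) j).2 hp]; exact (h0 _).symm
      have hEz : ¬ N.E.SameCycle (N.E z) N.r0 := by
        rw [Equiv.Perm.sameCycle_apply_left]
        exact fun h => hx (hzx.symm.trans h)
      intro j
      rw [hconst hzx j, per_const hshift (fun j hj => deep _ hEz j hj) j, hρ, hρc hzx]
  have all1 : ∀ x, ¬ N.E.SameCycle x N.r0 → ∀ j, N.W T x j ↔ ρ x :=
    fun x => claim _ x (Nat.lt_succ_self _)
  -- the face of the root
  set C := ρ (N.τ N.r0) with hC
  have hkid : ∀ c, N.D c → (N.W T (N.E (N.hh c)) 0 ↔ N.W T (N.hh c) 0) ∧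
      (N.W T (N.hh c) 0 ↔ ρ (N.cc c)) := by
    intro c hc
    have h4 := all1 (N.cc c) (hTr.chR c hc)
    have h5 := all1 (N.E (N.cc c)) (by
      rw [Equiv.Perm.sameCycle_apply_left]; exact hTr.chR c hc)
    obtain ⟨a1, a2⟩ := link_before hT hc
    obtain ⟨b1, b2⟩ := link_after hT hc
    by_cases hp : N.cp c
    · rw [a1 hp, b1 hp, h4, h4]; exact ⟨Iff.rfl, Iff.rfl⟩
    · rw [a2 hp, b2 hp, h5, h5, hρ]; exact ⟨Iff.rfl, Iff.rfl⟩
  set z := N.E.symm N.r0 with hz
  have hEz : N.E z = N.r0 := Equiv.apply_symm_apply _ _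
  have hzr : N.E.SameCycle z N.r0 := by
    rw [← hEz, Equiv.Perm.sameCycle_apply_right]
  have hrt : ¬ N.E.SameCycle (N.τ N.r0) N.r0 := fun h => hTr.rr h.symm
  have hconst : ∀ x, N.E.SameCycle z x → ∀ j, N.W T x j ↔ N.W T (N.E z) j := by
    intro x hx
    refine face_const hT ?_ (fun c hc _ => (hkid c hc).1) hx
    intro y hy hyz
    refine ⟨?_, ?_⟩
    · rintro (h | h)
      · exact hyz (by rw [hz, ← h, Equiv.symm_apply_apply])
      · apply hrt
        rw [← h, Equiv.Perm.sameCycle_apply_left]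
        exact hy.symm.trans hzr
    · rintro c hc rfl
      exact hTr.chR c hc (hy.symm.trans hzr)
  have hz' : ¬ N.E.SameCycle (N.E.symm (N.τ N.r0)) N.r0 := by
    intro h
    apply hrt
    have := (Equiv.Perm.sameCycle_apply_left (f := N.E)).2 h
    rwa [Equiv.apply_symm_apply] at this
  have hρz' : ρ (N.E.symm (N.τ N.r0)) ↔ C := by
    rw [← hρ (N.E.symm (N.τ N.r0)), Equiv.apply_symm_apply]
  have nz : ¬ N.In z := not_in_symm_root (Or.inl hEz)
  have nz' : ¬ N.In (N.E.symm (N.τ N.r0)) :=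
    not_in_symm_root (Or.inr (Equiv.apply_symm_apply _ _))
  have base : ∀ i, i < 2 → (N.W T (N.E z) i ↔ C) := by
    intro i hi
    by_cases hp : N.s
    · have h0 : N.W T z i ↔ C := by
        rw [W_not nz]
        have h1 := hT.pop N.r0 i (1 - i) (by rw [N.vr hp]; omega)
        rw [← hz] at h1
        rw [h1, ← W_not nz' (T := T), all1 _ hz', hρz']
      rw [← hconst z (Equiv.Perm.SameCycle.refl _ _) i]
      exact h0
    · rw [hEz, W_not N.r0i]
      have h1 := hT.push N.r0 i (1 - i) (by rw [N.vr' hp]; omega)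
      rw [h1, ← W_not N.r0j (T := T), all1 _ hrt]
  have hper : ∀ j, N.W T (N.E z) (j + 2) ↔ N.W T (N.E z) j := by
    intro j
    have h0 : ∀ j, N.W T z j ↔ N.W T (N.E z) j := hconst z (Equiv.Perm.SameCycle.refl _ _)
    by_cases hp : N.s
    · rw [(root_step hT (Or.inl hEz) j).1 hp]; exact (h0 _).symm
    · rw [(root_step hT (Or.inl hEz) j).2 hp]; exact h0 _
  have root_all : ∀ x, N.E.SameCycle x N.r0 → ∀ j, N.W T x j ↔ C := by
    intro x hx j
    rw [hconst x (hzr.trans hx.symm) j]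
    induction j using Nat.strong_induction_on with
    | _ j ih =>
      rcases Nat.lt_or_ge j 2 with h | h
      · exact base j h
      · obtain ⟨k, rfl⟩ := Nat.exists_eq_add_of_le h
        rw [show 2 + k = k + 2 by omega, hper]
        exact ih k (by omega)
  -- all values are the same
  have allρ : ∀ (n : ℕ) (x : Q), f x < n → ¬ N.E.SameCycle x N.r0 → (ρ x ↔ C) := by
    intro n
    induction n with
    | zero => intro x h; omega
    | succ n ih =>
      intro x hn hx
      by_cases ht : N.E.SameCycle x (N.τ N.r0)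
      · exact (hρc ht).symm
      · obtain ⟨c, hc, hxc⟩ := hTr.chE x hx ht
        rw [← hρc hxc, ← (hkid c hc).2]
        by_cases hr : N.E.SameCycle (N.hh c) N.r0
        · exact root_all _ hr 0
        · rw [all1 _ hr]
          have h1 := hfc c hc
          have h2 := hf hxc
          exact ih _ (by omega) hr
  have W_all : ∀ x j, N.W T x j ↔ C := by
    intro x j
    by_cases hx : N.E.SameCycle x N.r0
    · exact root_all x hx j
    · rw [all1 x hx]
      exact allρ _ x (Nat.lt_succ_self _) hx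
  refine ⟨C, fun x j => ?_⟩
  by_cases hx : N.In x
  · rcases v_in hx with hv | hv
    · rw [T_corner hT hx (j := j) (k := j + 1) (by rw [hv]; push_cast; ring)]
      exact W_all _ _
    · rcases j with _ | j
      · rw [push_in hT hx hv]; exact W_all _ _
      · rw [T_corner hT hx (j := j + 1) (k := j) (by rw [hv]; push_cast; ring)]
        exact W_all _ _
  · rw [← W_not (T := T) hx]; exact W_all _ _

end Net

end Pool.Agent.MP42.EO
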