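import Pool.Agent.MP42.EO.TTS
import Pool.Agent.MP42.EO.PB
import Pool.Agent.MP42.NE.Stk

/-!
# The solution on one region, as a statement about the whole system
-/

set_option autoImplicit false

namespace Pool.Agent.MP42.EO

open Pool.Agent.MP42.NE

open Classical in
/-- A solution on the region `G` with the root side `r`, the letter `s` and the types `t0`, `t1` of
the deep strands of the root side.  `v` = signed strands, `κ` = types, `sg` = letters. -/
structure Piece {D : Type*} [Fintype D] (S : Sys D) (ok : D → Bool → Bool → Bool → Prop) (K : ℕ)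
    (G : D → Prop) (r : D) (s : ℤ) (t0 t1 : Bool) (v : D → ℤ) (κ : D → ℕ → Bool) (sg : D → ℤ) :
    Prop where
  vτ : ∀ x, v (S.ta x) = v x
  vG : ∀ x, ¬ G x → v x = 0
  v0 : ∀ x, S.ta x = x → v x = 0
  sg1 : ∀ x, sg x = 1 ∨ sg x = -1
  sgE : ∀ x, sg (S.E x) = sg x
  sgr : sg r = s
  sum : ∀ d, G d → ∑ x ∈ Finset.univ.filter (fun x => S.E.SameCycle d x), v x = 2 * sg d
  pb : PB S.E v K
  tts : TTS S.E S.ta v ok κ
  per : ∀ x j, K ≤ j → κ x (j + 2) = κ x j
  κG : ∀ x j, ¬ G x → κ x j = false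
  deep : ∃ ε : ℕ, ∀ j, K ≤ j → κ r j = if (j + ε) % 2 = 0 then t0 else t1
  conn : ∀ (v' : D → ℤ) (T : D → ℕ → Prop) (ρ : D → Prop), (∀ x, G x → v' x = v x) →
    TS S.E S.ta v' T → (∀ x, ρ (S.E x) ↔ ρ x) →
    (∀ x, G x → ¬ S.E.SameCycle x r → ∀ j, K ≤ j → (T x j ↔ ρ x)) →
    ∃ c : Prop, ∀ x, G x → ∀ j, T x j ↔ c

end Pool.Agent.MP42.EO
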