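import Pool.Agent.MP42.EO.If

/-!
# A region with one face has a pole

`(J)`: every even set of ribbons is the boundary of a set of faces.  If all darts of a region lie on
one cycle of `E`, then some vertex of the region has only one ribbon: otherwise a walk that never
turns back closes up to a nonempty even set of ribbons, whose two sides would be different.
-/

set_option autoImplicit false

namespace Pool.Agent.MP42.EO

open Pool.Agent.MP42.NE

theorem exists_pole {P : Type*} [Finite P] {E : Equiv.Perm P} {τ : P → P}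
    (ττ : ∀ x, τ (τ x) = x) (ne : ∀ x, τ x ≠ x)
    (hJ : ∀ C : P → Prop, (∀ x, C (τ x) ↔ C x) →
      (∀ x, Even {y | (∃ k : ℕ, (nu E τ)^[k] x = y) ∧ C y}.ncard) →
      ∃ F : P → Prop, (∀ x, F (E x) ↔ F x) ∧ ∀ x, ((F (τ x) ↔ F x) ↔ ¬ C x))
    (x : P) (hx : ∀ y, Reg E τ x y → E.SameCycle x y) :
    ∃ y, Reg E τ x y ∧ nu E τ y = y := by
  classical
  by_contra hno
  push Not at hno
  -- the permutation of the darts at the vertices
  obtain ⟨ν, hν⟩ : ∃ ν : Equiv.Perm P, ∀ z, ν z = nu E τ z :=
    ⟨E.trans ⟨τ, τ, ττ, ττ⟩, fun _ => rfl⟩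
  have hνk : ∀ (k : ℕ) (z : P), (ν ^ k) z = (nu E τ)^[k] z := by
    intro k z
    rw [← Equiv.Perm.iterate_eq_pow]
    have : (ν : P → P) = nu E τ := funext hν
    rw [this]
  have horb : ∀ z w, (∃ k : ℕ, (nu E τ)^[k] z = w) ↔ ν.SameCycle z w := by
    intro z w
    constructor
    · rintro ⟨k, rfl⟩
      exact ⟨(k : ℤ), by rw [zpow_natCast, hνk]⟩
    · intro h
      obtain ⟨k, hk⟩ := h.exists_nat_pow_eq
      exact ⟨k, by rw [← hνk, hk]⟩
  -- the region
  have hRE : ∀ z, Reg E τ x z → Reg E τ x (E z) := fun z h =>
    Relation.EqvGen.trans _ _ _ h (Relation.EqvGen.rel _ _ (Or.inl rfl))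
  have hRt : ∀ z, Reg E τ x z → Reg E τ x (τ z) := fun z h =>
    Relation.EqvGen.trans _ _ _ h (Relation.EqvGen.rel _ _ (Or.inr rfl))
  -- the walk
  let y : ℕ → P := fun n => (fun z => nu E τ (τ z))^[n] x
  have hy1 : ∀ n, y (n + 1) = nu E τ (τ (y n)) := fun n => Function.iterate_succ_apply' _ _ _
  have hyR : ∀ n, Reg E τ x (y n) := by
    intro n
    induction n with
    | zero => exact Relation.EqvGen.refl _
    | succ n ih =>
      rw [hy1]
      exact hRt _ (hRE _ (hRt _ ih))
  have hyc : ∀ n, ν.SameCycle (τ (y n)) (y (n + 1)) := by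
    intro n
    rw [hy1, ← hν]
    exact (Equiv.Perm.sameCycle_apply_right).2 (Equiv.Perm.SameCycle.refl _ _)
  have hyne : ∀ n, y (n + 1) ≠ τ (y n) := by
    intro n
    rw [hy1]
    exact hno _ (hRt _ (hyR n))
  -- the first repetition
  have hex : ∃ j : ℕ, ∃ i < j, ν.SameCycle (y i) (y j) := by
    obtain ⟨i, j, hij, h⟩ := Finite.exists_ne_map_eq_of_infinite y
    rcases lt_or_gt_of_ne hij with h1 | h1
    · exact ⟨j, i, h1, by rw [h]⟩
    · exact ⟨i, j, h1, by rw [h]⟩
  obtain ⟨i, hi, hij⟩ := Nat.find_spec hex
  have hmin : ∀ m, m < Nat.find hex → ∀ l < m, ¬ ν.SameCycle (y l) (y m) := by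
    intro m hm l hl h
    exact Nat.find_min hex hm ⟨l, hl, h⟩
  generalize Nat.find hex = j at hi hij hmin
  have hinj : ∀ m l, m < j → l < j → ν.SameCycle (y m) (y l) → m = l := by
    intro m l hm hl h
    rcases lt_trichotomy m l with h1 | h1 | h1
    · exact (hmin l hl m h1 h).elim
    · exact h1
    · exact (hmin m hm l h1 h.symm).elim
  -- the closed walk
  obtain ⟨F, hFE, hF⟩ := hJ (fun z => ∃ m, i ≤ m ∧ m < j ∧ (z = y m ∨ z = τ (y m))) (by
    intro z
    constructor
    · rintro ⟨m, h1, h2, h3 | h3⟩
      · refine ⟨m, h1, h2, Or.inr ?_⟩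
        rw [← h3, ττ]
      · refine ⟨m, h1, h2, Or.inl ?_⟩
        rw [← ττ z, h3, ττ]
    · rintro ⟨m, h1, h2, h3 | h3⟩
      · exact ⟨m, h1, h2, Or.inr (by rw [h3])⟩
      · exact ⟨m, h1, h2, Or.inl (by rw [h3, ττ])⟩) (by
    intro w
    by_cases hw : ∃ m, i ≤ m ∧ m < j ∧ ν.SameCycle w (y m)
    · obtain ⟨m, h1, h2, h3⟩ := hw
      -- the dart by which the walk arrives
      obtain ⟨m', h4, h5, h6, h7⟩ : ∃ m', i ≤ m' ∧ m' < j ∧ y m ≠ τ (y m') ∧
          (ν.SameCycle w (τ (y m')) ∧ ∀ l, i ≤ l → l < j → ν.SameCycle w (τ (y l)) → l = m') := by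
        rcases Nat.lt_or_ge i m with h8 | h8
        · refine ⟨m - 1, by omega, by omega, ?_, ?_, ?_⟩
          · have := hyne (m - 1)
            rwa [show m - 1 + 1 = m by omega] at this
          · have := hyc (m - 1)
            rw [show m - 1 + 1 = m by omega] at this
            exact h3.trans this.symm
          · intro l hl1 hl2 hl3
            have h9 := (h3.symm.trans hl3).trans (hyc l)
            by_cases h10 : l + 1 < j
            · have := hinj m (l + 1) h2 h10 h9
              omega
            · have h11 : l + 1 = j := by omega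
              rw [h11] at h9
              have := hinj m i h2 (by omega) (h9.trans hij.symm)
              omega
        · have h9 : m = i := by omega
          subst h9
          refine ⟨j - 1, by omega, by omega, ?_, ?_, ?_⟩
          · intro h10
            have h11 : τ (y m) = y (j - 1) := by rw [h10, ττ]
            have h12 := hyc m
            rw [h11] at h12
            by_cases h13 : m + 1 < j
            · have h14 := hinj (j - 1) (m + 1) (by omega) h13 h12
              apply hyne m
              rw [h11, h14]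
            · have h14 : m = j - 1 := by omega
              rw [← h14] at h11
              exact ne _ h11
          · have := hyc (j - 1)
            rw [show j - 1 + 1 = j by omega] at this
            exact (h3.trans hij).trans this.symm
          · intro l hl1 hl2 hl3
            have h9 := (h3.symm.trans hl3).trans (hyc l)
            by_cases h10 : l + 1 < j
            · have := hinj m (l + 1) h2 h10 h9
              omega
            · omega
      have hset : {z | (∃ k : ℕ, (nu E τ)^[k] w = z) ∧
          ∃ m, i ≤ m ∧ m < j ∧ (z = y m ∨ z = τ (y m))} = {y m, τ (y m')} := by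
        ext z
        rw [Set.mem_setOf_eq, horb, Set.mem_insert_iff, Set.mem_singleton_iff]
        constructor
        · rintro ⟨h8, l, h9, h10, h11 | h11⟩
          · left
            rw [h11] at h8
            rw [h11, hinj m l h2 h10 (h3.symm.trans h8)]
          · right
            rw [h11] at h8
            rw [h11, h7.2 l h9 h10 h8]
        · rintro (h8 | h8)
          · exact ⟨by rw [h8]; exact h3, m, h1, h2, Or.inl h8⟩
          · exact ⟨by rw [h8]; exact h7.1, m', h4, h5, Or.inr h8⟩
      rw [hset, Set.ncard_pair h6]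
      exact even_two
    · have hset : {z | (∃ k : ℕ, (nu E τ)^[k] w = z) ∧
          ∃ m, i ≤ m ∧ m < j ∧ (z = y m ∨ z = τ (y m))} = ∅ := by
        ext z
        rw [Set.mem_setOf_eq, horb]
        simp only [Set.mem_empty_iff_false, iff_false]
        rintro ⟨h8, l, h9, h10, h11 | h11⟩
        · rw [h11] at h8
          exact hw ⟨l, h9, h10, h8⟩
        · rw [h11] at h8
          have h12 := h8.trans (hyc l)
          by_cases h13 : l + 1 < j
          · exact hw ⟨l + 1, by omega, h13, h12⟩
          · have h14 : l + 1 = j := by omega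
            rw [h14] at h12
            exact hw ⟨i, le_rfl, hi, h12.trans hij.symm⟩
      rw [hset, Set.ncard_empty]
      exact Even.zero)
  -- the two sides of a ribbon of the walk
  have hconst : ∀ z, E.SameCycle x z → (F x ↔ F z) := by
    intro z hz
    obtain ⟨n, rfl⟩ := hz.exists_nat_pow_eq
    clear hz
    induction n with
    | zero => exact Iff.rfl
    | succ n ih =>
      rw [pow_succ', Equiv.Perm.mul_apply, hFE]
      exact ih
  have h1 := hconst _ (hx _ (hyR i))
  have h2 := hconst _ (hx _ (hRt _ (hyR i)))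
  exact ((hF (y i)).1 (h2.symm.trans h1)) ⟨i, le_rfl, hi, Or.inl rfl⟩

end Pool.Agent.MP42.EO
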