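import Pool.Agent.MP42.EO.InsL
import Pool.Agent.MP42.EO.SH
import Pool.Agent.MP42.K.Genus
import Pool.Agent.MP42.NE.Lay
import Pool.Agent.MP42.NE.Stk
import Pool.Agent.MP42.Ret

/-!
# Genus zero: even sets of ribbons are boundaries

On a grid solid of genus zero every set of ribbons of the spine system with an even number of
ribbons at every vertex is the boundary of a set of faces (`sysH_J`).
-/

set_option autoImplicit false
set_option linter.unusedSectionVars false

namespace Pool.Agent.MP42.EO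

open Pool.Agent.Helper55.UNF Pool.Agent.Helper55.UNF.GridSolid Pool.Agent.MP42.NE
open Pool.Agent.MP42 Pool.Agent.MP42K

/-! ## Even unions of cycles -/

private lemma even_union {X : Type*} [Finite X] (π : Equiv.Perm X) (C : X → Prop)
    (h : ∀ x, Even {y | π.SameCycle x y ∧ C y}.ncard) :
    ∀ (n : ℕ) (A : Set X), A.ncard = n → (∀ x y, π.SameCycle x y → x ∈ A → y ∈ A) →
      Even {y | y ∈ A ∧ C y}.ncard := by
  intro n
  induction n using Nat.strong_induction_on with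
  | _ n ih =>
    intro A hn hA
    rcases A.eq_empty_or_nonempty with h0 | ⟨x, hx⟩
    · subst h0
      have : {y : X | y ∈ (∅ : Set X) ∧ C y} = ∅ := by
        ext y
        constructor
        · intro hy; exact hy.1.elim
        · intro hy; exact hy.elim
      rw [this, Set.ncard_empty]
      exact Even.zero
    · have h1 : Even {y | y ∈ A \ {y | π.SameCycle x y} ∧ C y}.ncard := by
        refine ih (A \ {y | π.SameCycle x y}).ncard ?_ _ rfl ?_
        · rw [← hn]
          refine Set.ncard_lt_ncard ?_ (Set.toFinite A)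
          refine ⟨Set.sdiff_subset, fun hs => ?_⟩
          exact (hs hx).2 (Equiv.Perm.SameCycle.refl _ _)
        · rintro y z hyz ⟨hy1, hy2⟩
          exact ⟨hA y z hyz hy1, fun hz => hy2 (Equiv.Perm.SameCycle.trans hz hyz.symm)⟩
      have h2 : {y | y ∈ A ∧ C y} =
          {y | y ∈ A \ {y | π.SameCycle x y} ∧ C y} ∪ {y | π.SameCycle x y ∧ C y} := by
        ext y
        constructor
        · rintro ⟨hy1, hy2⟩
          by_cases hy : π.SameCycle x y
          · exact Or.inr ⟨hy, hy2⟩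
          · exact Or.inl ⟨⟨hy1, hy⟩, hy2⟩
        · rintro (⟨⟨hy1, _⟩, hy2⟩ | ⟨hy1, hy2⟩)
          · exact ⟨hy1, hy2⟩
          · exact ⟨hA x y hy1 hx, hy2⟩
      rw [h2, Set.ncard_union_eq ?_ (Set.toFinite _) (Set.toFinite _)]
      · exact h1.add (h x)
      · rw [Set.disjoint_left]
        rintro y ⟨⟨_, hy⟩, _⟩ ⟨hy', _⟩
        exact hy hy'

section

variable {Q : GridSolid} {a b : Fin 3}

/-- the other side of a ribbon is a ribbon -/
lemma rib_ta_J (hab : a ≠ b) (x : HD Q a) (h : Rib b x) : Rib b ((sysH Q a b hab).ta x) := by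
  rintro ⟨h1, h2⟩
  have h1' : (hr a b (hN a x.1)).1.d.1 = a := h1
  have h2' : (hr a b (hN a x.1)).1.e.1 = b := h2
  by_cases h3 : x.1.1.d.1 = a
  · have h4 : ¬ x.1.1.e.1 = b := fun h4 => h ⟨h3, h4⟩
    rw [hN_cap h3, hr_non (t := x.1.rL) h3 ((rL_b hab h3).2 h4), FSt.rL_rL] at h2'
    exact h4 h2'
  · have h4 : x.1.1.e.1 = a := x.2.resolve_left h3
    have h5 := wall_stN h4
    rw [hN_wall h3, hr_wall h5] at h1'
    exact h5 h1'

/-- the other side of a ribbon -/
private lemma ta_cap (hab : a ≠ b) {x : HD Q a} (h : x.1.1.d.1 = a) (h' : ¬ x.1.1.e.1 = b) :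
    ((sysH Q a b hab).ta x).1 = x.1.r2 := by
  show hr a b (hN a x.1) = x.1.r2
  rw [hN_cap h, hr_non (t := x.1.rL) h ((rL_b hab h).2 h'), FSt.rL_rL]

private lemma ta_wall (hab : a ≠ b) {x : HD Q a} (h : ¬ x.1.1.d.1 = a) :
    ((sysH Q a b hab).ta x).1 = x.1.stN.r2 := by
  show hr a b (hN a x.1) = x.1.stN.r2
  rw [hN_wall h, hr_wall (wall_stN (x.2.resolve_left h))]

private lemma stN_r2 (t : Q.FSt) : t.stN.r2 = pK t.rL := by
  show t.rL.stE.rR.r2 = t.rL.stE.rL
  rw [FSt.rR_r2]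

/-- one step of a ring -/
private lemma step_cases (hab : a ≠ b) (x : HD Q a) :
    (Rib b ((sysH Q a b hab).E x) ∧
      pK.SameCycle x.1 ((sysH Q a b hab).ta ((sysH Q a b hab).E x)).1) ∨
    (¬ Rib b ((sysH Q a b hab).E x) ∧ ((sysH Q a b hab).E x).1 = pK x.1) := by
  have hE0 : ((sysH Q a b hab).E x).1 = hfx a b x.1.stE := rfl
  have hd : IsD a x.1.stE := isD_stE x.2
  by_cases h1 : x.1.stE.1.d.1 = a
  · by_cases h2 : x.1.stE.1.e.1 = b
    · left
      have h3 : ((sysH Q a b hab).E x).1 = x.1.stE.rR := by rw [hE0, hfx_non h1 h2]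
      have h4 : ((sysH Q a b hab).E x).1.1.d.1 = a := by rw [h3]; exact h1
      have h5 : ¬ ((sysH Q a b hab).E x).1.1.e.1 = b := by
        rw [h3, rR_b hab h1]; exact not_not.2 h2
      refine ⟨fun h => h5 h.2, ?_⟩
      rw [ta_cap hab h4 h5, h3, FSt.rR_r2]
      exact Equiv.Perm.sameCycle_apply_right.2 (Equiv.Perm.SameCycle.refl _ _)
    · right
      have h3 : ((sysH Q a b hab).E x).1 = x.1.stE.rL := by rw [hE0, hfx_nom h1 h2]
      refine ⟨?_, h3⟩
      unfold Rib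
      rw [not_not, h3]
      exact ⟨h1, (rL_b hab h1).2 h2⟩
  · left
    have h3 : ((sysH Q a b hab).E x).1 = x.1.stE := by rw [hE0, hfx_wall h1]
    have h4 : ¬ ((sysH Q a b hab).E x).1.1.d.1 = a := by rw [h3]; exact h1
    refine ⟨fun h => h4 h.1, ?_⟩
    rw [ta_wall hab h4, h3, stN_r2]
    refine Equiv.Perm.sameCycle_apply_right.2 ?_
    show pK.SameCycle x.1 (pK x.1)
    exact Equiv.Perm.sameCycle_apply_right.2 (Equiv.Perm.SameCycle.refl _ _)

private lemma same_pow (hab : a ≠ b) : ∀ (m : ℕ) (x : HD Q a),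
    Rib b (((sysH Q a b hab).E ^ (m + 1)) x) →
    (∀ j < m, ¬ Rib b (((sysH Q a b hab).E ^ (j + 1)) x)) →
    pK.SameCycle x.1 ((sysH Q a b hab).ta (((sysH Q a b hab).E ^ (m + 1)) x)).1 := by
  intro m
  induction m with
  | zero =>
    intro x h1 _
    rw [zero_add, pow_one] at h1 ⊢
    rcases step_cases hab x with h | h
    · exact h.2
    · exact absurd h1 h.1
  | succ m ih =>
    intro x h1 h2
    have e : ∀ k : ℕ, ((sysH Q a b hab).E ^ (k + 1)) x =
        ((sysH Q a b hab).E ^ k) ((sysH Q a b hab).E x) := fun k => by rw [pow_succ]; rfl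
    have h3 := h2 0 (Nat.succ_pos m)
    rw [zero_add, pow_one] at h3
    rcases step_cases hab x with h | h
    · exact absurd h.1 h3
    · rw [e] at h1 ⊢
      have h4 := ih ((sysH Q a b hab).E x) h1 (fun j hj => by
        have := h2 (j + 1) (Nat.succ_lt_succ hj)
        rwa [e] at this)
      rw [h.2] at h4
      exact Equiv.Perm.sameCycle_apply_left.1 h4

private lemma same_ret (hab : a ≠ b) (x : {x : HD Q a // Rib b x}) :
    pK.SameCycle x.1.1
      ((sysH Q a b hab).ta (ret (sysH Q a b hab).E (Rib b) x).1).1 := by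
  rw [ret_val]
  have h1 : Rib b (retFun (sysH Q a b hab).E (Rib b) x.1) :=
    retFun_spec ⟨0, by simpa using x.2⟩
  rw [retFun_eq] at h1 ⊢
  exact same_pow hab _ x.1 h1 (fun j hj => retN_not hj)

/-! ## The set of ribbons on the frames -/

section

variable {C : {x : HD Q a // Rib b x} → Prop}

/-- the set of ribbons on the frames -/
private def Cp (C : {x : HD Q a // Rib b x} → Prop) (s : Q.FSt) : Prop :=
  ∃ (h : IsD a s) (h' : Rib b ⟨s, h⟩), C ⟨⟨s, h⟩, h'⟩

private lemma cp_iff (x : {x : HD Q a // Rib b x}) : Cp C x.1.1 ↔ C x :=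
  ⟨fun ⟨_, _, h⟩ => h, fun h => ⟨x.1.2, x.2, h⟩⟩

private lemma cp_non {s : Q.FSt} (h : s.1.d.1 = a) (h' : s.1.e.1 = b) : ¬ Cp C s :=
  fun ⟨_, h2, _⟩ => h2 ⟨h, h'⟩

private lemma cp_wall {s : Q.FSt} (h : ¬ s.1.d.1 = a) (hC : Cp C s) : s.1.e.1 = a :=
  hC.choose.resolve_left h

variable (hab : a ≠ b)
  (hC : ∀ x : {x : HD Q a // Rib b x}, C ⟨(sysH Q a b hab).ta x.1, rib_ta_J hab x.1 x.2⟩ ↔ C x)

include hC

private lemma cp_r2 {s : Q.FSt} (h : s.1.d.1 = a) (h' : ¬ s.1.e.1 = b) : Cp C s.r2 ↔ Cp C s := by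
  have h0 : Rib b (⟨s, Or.inl h⟩ : HD Q a) := fun h1 => h' h1.2
  have h1 := hC ⟨⟨s, Or.inl h⟩, h0⟩
  have h2 := cp_iff (C := C) ⟨⟨s, Or.inl h⟩, h0⟩
  have h3 := cp_iff (C := C) ⟨(sysH Q a b hab).ta ⟨s, Or.inl h⟩, rib_ta_J hab _ h0⟩
  have h4 : ((sysH Q a b hab).ta ⟨s, Or.inl h⟩).1 = s.r2 := ta_cap hab h h'
  have h5 : Cp C ((sysH Q a b hab).ta ⟨s, Or.inl h⟩).1 ↔ Cp C s := h3.trans (h1.trans h2.symm)
  rwa [h4] at h5

private lemma cp_stN {s : Q.FSt} (h : s.1.e.1 = a) : Cp C s.stN.r2 ↔ Cp C s := by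
  have hd : ¬ s.1.d.1 = a := fun h1 => s.2.2 (h1.trans h.symm)
  have h0 : Rib b (⟨s, Or.inr h⟩ : HD Q a) := fun h1 => hd h1.1
  have h1 := hC ⟨⟨s, Or.inr h⟩, h0⟩
  have h2 := cp_iff (C := C) ⟨⟨s, Or.inr h⟩, h0⟩
  have h3 := cp_iff (C := C) ⟨(sysH Q a b hab).ta ⟨s, Or.inr h⟩, rib_ta_J hab _ h0⟩
  have h4 : ((sysH Q a b hab).ta ⟨s, Or.inr h⟩).1 = s.stN.r2 := ta_wall hab hd
  have h5 : Cp C ((sysH Q a b hab).ta ⟨s, Or.inr h⟩).1 ↔ Cp C s := h3.trans (h1.trans h2.symm)
  rwa [h4] at h5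

end

/-- the top frame of a cap -/
private def Top (a b : Fin 3) (t : Q.FSt) : Prop :=
  t.1.d.1 = a ∧ ¬ t.1.e.1 = b ∧ t.1.e.2 = true

private lemma top_r2 {t : Q.FSt} (h : t.1.d.1 = a) (h' : ¬ t.1.e.1 = b) :
    Top a b t.r2 ↔ ¬ Top a b t := by
  have e : t.r2.1.e.2 = !t.1.e.2 := rfl
  unfold Top
  rw [e]
  have hd : t.r2.1.d.1 = a := h
  have he : ¬ t.r2.1.e.1 = b := h'
  cases h1 : t.1.e.2
  · exact ⟨fun _ h2 => absurd h2.2.2 (by decide), fun _ => ⟨hd, he, rfl⟩⟩
  · exact ⟨fun h2 => absurd h2.2.2 (by decide), fun h2 => absurd ⟨h, h', rfl⟩ h2⟩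

private lemma not_top_non {t : Q.FSt} (h' : t.1.e.1 = b) : ¬ Top a b t := fun h => h.2.1 h'

private lemma not_top_wall {t : Q.FSt} (h' : ¬ t.1.d.1 = a) : ¬ Top a b t := fun h => h' h.1

/-- the half of a cap on the east side of a frame -/
private def ph (C : {x : HD Q a // Rib b x} → Prop) (t : Q.FSt) : Prop :=
  (Top a b t ∧ Cp C t) ∨ (Top a b t.rL ∧ Cp C t.rL)

section

variable {C : {x : HD Q a // Rib b x} → Prop}

private lemma ph_wall {t : Q.FSt} (h : ¬ t.1.d.1 = a) : ¬ ph C t := by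
  rintro (h1 | h1)
  · exact h h1.1.1
  · exact h h1.1.1

private lemma ph_nom (hab : a ≠ b) {t : Q.FSt} (h : t.1.d.1 = a) (h' : ¬ t.1.e.1 = b) :
    ph C t ↔ (Top a b t ∧ Cp C t) := by
  constructor
  · rintro (h1 | h1)
    · exact h1
    · exact absurd h1.1 (not_top_non ((rL_b hab h).2 h'))
  · exact Or.inl

private lemma ph_non {t : Q.FSt} (h' : t.1.e.1 = b) :
    ph C t ↔ (Top a b t.rL ∧ Cp C t.rL) := by
  constructor
  · rintro (h1 | h1)
    · exact absurd h1.1 (not_top_non h')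
    · exact h1
  · exact Or.inr

/-- the edges -/
private def ee (C : {x : HD Q a // Rib b x} → Prop) (s : Q.FSt) : Prop :=
  (s.1.n.1 = a ∧ Cp C s.rR) ∨ (¬ s.1.n.1 = a ∧ ¬ (ph C s ↔ ph C s.stE.r2))

private lemma rR_e1 (s : Q.FSt) : s.rR.1.e.1 = s.1.n.1 := rfl

private lemma n_r2' (s : Q.FSt) : s.r2.1.n.1 = s.1.n.1 := by
  show (cross s.1.d (opp s.1.e)).1 = (cross s.1.d s.1.e).1
  have h := s.2.2
  generalize s.1.d = d at *
  generalize s.1.e = e at *
  revert d e
  decide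

private lemma rR_stN_r2 (s : Q.FSt) : s.rR.stN.r2 = s.stE.rL := by
  show s.rR.rL.stE.rR.r2 = s.stE.rL
  rw [FSt.rR_rL, FSt.rR_r2]

private lemma ee_sym (hab : a ≠ b)
    (hC : ∀ x : {x : HD Q a // Rib b x},
      C ⟨(sysH Q a b hab).ta x.1, rib_ta_J hab x.1 x.2⟩ ↔ C x) (s : Q.FSt) :
    ee C s.stE.r2 ↔ ee C s := by
  have hn : s.stE.r2.1.n.1 = s.1.n.1 := by rw [n_r2', stE_n']
  unfold ee
  rw [hn]
  by_cases h : s.1.n.1 = a
  · have h1 := cp_stN hab hC (s := s.rR) h
    rw [rR_stN_r2] at h1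
    rw [FSt.r2_rR, h1]
    simp [h]
  · rw [FSt.stE_inv, FSt.r2_r2]
    simp only [h, false_and, not_false_eq_true, true_and, false_or]
    exact not_congr ⟨fun h => h.symm, fun h => h.symm⟩

private lemma wall_of_n {s : Q.FSt} (h : s.1.n.1 = a) : ¬ s.1.d.1 = a := fun h1 =>
  (dn_axis s).1 (h.trans h1.symm)

/-- the edge on the east side of a frame in terms of the next frame of the vertex -/
private lemma ee_pK (hab : a ≠ b)
    (hC : ∀ x : {x : HD Q a // Rib b x},
      C ⟨(sysH Q a b hab).ta x.1, rib_ta_J hab x.1 x.2⟩ ↔ C x) (t : Q.FSt) :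
    ee C t ↔ (((pK t).1.e.1 = a ∧ Cp C (pK t)) ∨
      (¬ (pK t).1.e.1 = a ∧ ¬ (ph C t ↔ ph C (pK t).rL))) := by
  have h1 : (pK t).1.e.1 = t.1.n.1 := by
    show t.stE.rL.1.e.1 = t.1.n.1
    rw [← stE_n' t]
    rfl
  have h2 : (pK t).rL = t.stE.r2 := by
    show t.stE.rL.rL = t.stE.r2
    rw [FSt.rL_rL]
  unfold ee
  rw [h1, h2]
  by_cases h : t.1.n.1 = a
  · have h3 := cp_stN hab hC (s := t.rR) h
    rw [rR_stN_r2] at h3
    show _ ↔ (t.1.n.1 = a ∧ Cp C t.stE.rL) ∨ _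
    rw [h3]
  · simp only [h, false_and, false_or]

open Classical in
private lemma even_iff {X : Type*} [Fintype X] (O p : X → Prop) :
    Even {t | O t ∧ p t}.ncard ↔
      ∑ t ∈ Finset.univ.filter O, (if p t then (1 : ZMod 2) else 0) = 0 := by
  rw [Finset.sum_boole, ZMod.natCast_eq_zero_iff_even]
  have : {t | O t ∧ p t} = (((Finset.univ.filter O).filter p : Finset X) : Set X) := by
    ext t
    simp
  rw [this, Set.ncard_coe_finset]

open Classical in
private lemma even_ee (hab : a ≠ b)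
    (hC : ∀ x : {x : HD Q a // Rib b x},
      C ⟨(sysH Q a b hab).ta x.1, rib_ta_J hab x.1 x.2⟩ ↔ C x)
    (s : Q.FSt) (hev : Even {t | pK.SameCycle s t ∧ Cp C t}.ncard) :
    Even {t | pK.SameCycle s t ∧ ee C t}.ncard := by
  have : Fintype Q.FSt := Fintype.ofFinite _
  have hO : ∀ t, pK.SameCycle s (pK t) ↔ pK.SameCycle s t := fun t =>
    Equiv.Perm.sameCycle_apply_right
  generalize pK.SameCycle s = O at hO hev ⊢
  rw [even_iff] at hev ⊢
  refine Eq.trans ?_ hev
  have hre : ∀ f : Q.FSt → ZMod 2,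
      ∑ t ∈ Finset.univ.filter O, f (pK t) =
        ∑ t ∈ Finset.univ.filter O, f t := by
    intro f
    refine Finset.sum_equiv pK ?_ (fun _ _ => rfl)
    intro t
    simp only [Finset.mem_filter, Finset.mem_univ, true_and]
    exact (hO t).symm
  have h1 : ∀ t : Q.FSt, (if ee C t then (1 : ZMod 2) else 0) =
      (if ph C t then 1 else 0) + ((if (pK t).1.e.1 = a ∧ Cp C (pK t) then 1 else 0) +
        (if ph C (pK t).rL then 1 else 0)) := by
    intro t
    have h2 := ee_pK hab hC t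
    by_cases h : (pK t).1.e.1 = a
    · have h3 : ¬ (pK t).1.d.1 = a := fun h3 => (pK t).2.2 (h3.trans h.symm)
      have h4 : ¬ ph C (pK t).rL := ph_wall (t := (pK t).rL) h3
      have h5 : ¬ ph C t := by
        refine ph_wall (wall_of_n ?_)
        rw [← stE_n' t]
        exact h
      simp only [h, true_and, not_true_eq_false, false_and, or_false] at h2
      simp only [h2, h, true_and, h4, h5, if_false, zero_add, add_zero]
    · simp only [h, false_and, not_false_eq_true, true_and, false_or] at h2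
      simp only [h2, h, false_and, if_false, zero_add]
      by_cases h3 : ph C t <;> by_cases h4 : ph C (pK t).rL <;> simp only [h3, h4] <;> decide
  have h2 : ∀ x : Q.FSt, (if ph C x then (1 : ZMod 2) else 0) +
      ((if x.1.e.1 = a ∧ Cp C x then 1 else 0) + (if ph C x.rL then 1 else 0)) =
      (if Cp C x then 1 else 0) := by
    intro x
    by_cases h : x.1.d.1 = a
    · have hx : ¬ x.1.e.1 = a := fun h3 => x.2.2 (h.trans h3.symm)
      simp only [hx, false_and, if_false, zero_add]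
      by_cases h' : x.1.e.1 = b
      · have e1 := ph_non (C := C) h'
        have e2 := ph_nom (C := C) hab (t := x.rL) h (by rw [rL_b hab h]; exact not_not.2 h')
        have e3 := cp_non (C := C) h h'
        have e4 : ph C x ↔ ph C x.rL := e1.trans e2.symm
        simp only [e4, e3, if_false]
        by_cases h4 : ph C x.rL <;> simp only [h4] <;> decide
      · have e1 := ph_nom (C := C) hab h h'
        have e2 := ph_non (C := C) (t := x.rL) ((rL_b hab h).2 h')
        rw [FSt.rL_rL, top_r2 h h', cp_r2 hab hC h h'] at e2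
        simp only [e1, e2]
        by_cases h3 : Top a b x <;> by_cases h4 : Cp C x <;> simp only [h3, h4] <;> decide
    · have e1 := ph_wall (C := C) h
      have e2 : ¬ ph C x.rL := ph_wall (t := x.rL) h
      simp only [e1, e2, if_false, zero_add, add_zero]
      by_cases h4 : Cp C x
      · simp only [h4, cp_wall h h4, and_self]
      · simp only [h4, and_false]
  obtain ⟨g, hg⟩ : ∃ g : Q.FSt → ZMod 2, ∀ x, g x = ((if x.1.e.1 = a ∧ Cp C x then 1 else 0) +
      (if ph C x.rL then 1 else 0)) := ⟨_, fun _ => rfl⟩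
  have h1' : ∀ t : Q.FSt, (if ee C t then (1 : ZMod 2) else 0) =
      (if ph C t then 1 else 0) + g (pK t) := fun t => (h1 t).trans (by rw [hg])
  have h2' : ∀ x : Q.FSt, (if ph C x then (1 : ZMod 2) else 0) + g x =
      (if Cp C x then 1 else 0) := fun x => by rw [hg]; exact h2 x
  rw [Finset.sum_congr rfl fun t _ => h1' t, Finset.sum_add_distrib, hre g,
    ← Finset.sum_add_distrib]
  exact Finset.sum_congr rfl fun t _ => h2' t

/-- the colouring -/
private def Ft (C : {x : HD Q a // Rib b x} → Prop) (F₀ : Q.Facet → Prop) (t : Q.FSt) : Prop :=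
  ¬ (F₀ t.facet ↔ ph C t)

private lemma ft_hr (hab : a ≠ b) (F₀ : Q.Facet → Prop) (t : Q.FSt) :
    Ft C F₀ (hr a b t) ↔ Ft C F₀ t := by
  unfold Ft
  have hf : (hr a b t).facet = t.facet := by
    unfold hr
    split_ifs <;> rfl
  have hp : ph C (hr a b t) ↔ ph C t := by
    by_cases h : t.1.d.1 = a
    · by_cases h' : t.1.e.1 = b
      · rw [hr_non h h', ph_non (C := C) h',
          ph_nom (C := C) hab (t := t.rL) h (by rw [rL_b hab h]; exact not_not.2 h')]
      · rw [hr_nom h h', ph_nom (C := C) hab h h',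
          ph_non (C := C) (t := t.rR) ((rR_b hab h).2 h'), FSt.rR_rL]
    · rw [hr_wall h]
      exact ⟨fun h1 => absurd h1 (ph_wall (t := t.r2) h), fun h1 => absurd h1 (ph_wall h)⟩
  rw [hf, hp]

private lemma ft_hE (hab : a ≠ b) {F₀ : Q.Facet → Prop}
    (hF : ∀ s, ee C s ↔ ¬ (F₀ s.facet ↔ F₀ s.stE.facet)) {t : Q.FSt} (ht : IsD a t) :
    Ft C F₀ (hE a b t) ↔ Ft C F₀ t := by
  rw [← ft_hr hab F₀ (hE a b t)]
  have h1 : hr a b (hE a b t) = t.stE.r2 := hr_hfx hab t.stE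
  rw [h1]
  have hn : ¬ t.1.n.1 = a := by
    intro h
    rcases ht with h2 | h2
    · exact (dn_axis t).1 (h.trans h2.symm)
    · exact (dn_axis t).2 (h.trans h2.symm)
  have h2 := hF t
  unfold ee at h2
  simp only [hn, false_and, not_false_eq_true, true_and, false_or] at h2
  unfold Ft
  rw [FSt.facet_r2]
  tauto

end

end

/-- **even sets of ribbons are boundaries** -/
theorem sysH_J {Q : GridSolid} (hG : GenusZero Q) {a b : Fin 3} (hab : a ≠ b)
    (C : {x : HD Q a // Rib b x} → Prop)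
    (hC : ∀ x, C ⟨(sysH Q a b hab).ta x.1, rib_ta_J hab x.1 x.2⟩ ↔ C x)
    (hev : ∀ x, Even {y | (∃ k : ℕ, (nu (ret (sysH Q a b hab).E (Rib b))
      (fun x => ⟨(sysH Q a b hab).ta x.1, rib_ta_J hab x.1 x.2⟩))^[k] x = y) ∧ C y}.ncard) :
    ∃ F : {x : HD Q a // Rib b x} → Prop,
      (∀ x, F (ret (sysH Q a b hab).E (Rib b) x) ↔ F x) ∧
      ∀ x, ((F ⟨(sysH Q a b hab).ta x.1, rib_ta_J hab x.1 x.2⟩ ↔ F x) ↔ ¬ C x) := by
  classical
  have htt : ∀ x : {x : HD Q a // Rib b x},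
      (⟨(sysH Q a b hab).ta ((sysH Q a b hab).ta x.1),
        rib_ta_J hab _ (rib_ta_J hab x.1 x.2)⟩ : {x : HD Q a // Rib b x}) = x :=
    fun x => Subtype.ext ((sysH Q a b hab).ta_ta x.1)
  -- the turn round a vertex as a permutation
  let tp : Equiv.Perm {x : HD Q a // Rib b x} :=
    ⟨fun x => ⟨(sysH Q a b hab).ta x.1, rib_ta_J hab x.1 x.2⟩,
      fun x => ⟨(sysH Q a b hab).ta x.1, rib_ta_J hab x.1 x.2⟩, htt, htt⟩
  let N : Equiv.Perm {x : HD Q a // Rib b x} := tp * ret (sysH Q a b hab).E (Rib b)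
  have hN : ∀ (k : ℕ) (x : {x : HD Q a // Rib b x}),
      (nu (ret (sysH Q a b hab).E (Rib b))
        (fun x => ⟨(sysH Q a b hab).ta x.1, rib_ta_J hab x.1 x.2⟩))^[k] x = (N ^ k) x := by
    intro k x
    rw [← Equiv.Perm.iterate_eq_pow]
    rfl
  have hev' : ∀ x, Even {y | N.SameCycle x y ∧ C y}.ncard := by
    intro x
    have h1 := hev x
    have h2 : {y | N.SameCycle x y ∧ C y} = {y | (∃ k : ℕ, (nu (ret (sysH Q a b hab).E (Rib b))
        (fun x => ⟨(sysH Q a b hab).ta x.1, rib_ta_J hab x.1 x.2⟩))^[k] x = y) ∧ C y} := by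
      ext y
      constructor
      · rintro ⟨hy, hy'⟩
        obtain ⟨k, hk⟩ := hy.exists_nat_pow_eq
        exact ⟨⟨k, (hN k x).trans hk⟩, hy'⟩
      · rintro ⟨⟨k, hk⟩, hy'⟩
        exact ⟨⟨k, by rw [zpow_natCast, ← hN]; exact hk⟩, hy'⟩
    rw [h2]
    exact h1
  have hsame : ∀ x y : {x : HD Q a // Rib b x}, N.SameCycle x y → pK.SameCycle x.1.1 y.1.1 := by
    intro x y hxy
    obtain ⟨k, rfl⟩ := hxy.exists_nat_pow_eq
    clear hxy
    induction k with
    | zero => exact Equiv.Perm.SameCycle.refl _ _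
    | succ k ih =>
      rw [pow_succ', Equiv.Perm.mul_apply]
      exact ih.trans (same_ret hab ((N ^ k) x))
  have hcp : ∀ s, Even {t | pK.SameCycle s t ∧ Cp C t}.ncard := by
    intro s
    have h1 := even_union N C hev' _ {y | pK.SameCycle s y.1.1} rfl
      (fun x y hxy hx => Equiv.Perm.SameCycle.trans hx (hsame x y hxy))
    have h2 : {t | pK.SameCycle s t ∧ Cp C t} = (fun y : {x : HD Q a // Rib b x} => y.1.1) ''
        {y | y ∈ {y : {x : HD Q a // Rib b x} | pK.SameCycle s y.1.1} ∧ C y} := by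
      ext t
      constructor
      · rintro ⟨ht, h3, h4, h5⟩
        exact ⟨⟨⟨t, h3⟩, h4⟩, ⟨ht, h5⟩, rfl⟩
      · rintro ⟨y, ⟨hy1, hy2⟩, rfl⟩
        exact ⟨hy1, (cp_iff y).2 hy2⟩
    rw [h2, Set.ncard_image_of_injective _ (fun x y h => Subtype.ext (Subtype.ext h))]
    exact h1
  obtain ⟨F₀, hF⟩ := hG (ee C) (ee_sym hab hC) (fun s => even_ee hab hC s (hcp s))
  refine ⟨fun x => Ft C F₀ x.1.1, ?_, ?_⟩
  · intro x
    have key : ∀ (n : ℕ) (z : HD Q a),
        Ft C F₀ (((sysH Q a b hab).E ^ n) z).1 ↔ Ft C F₀ z.1 := by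
      intro n
      induction n with
      | zero => intro z; exact Iff.rfl
      | succ n ih =>
        intro z
        rw [pow_succ', Equiv.Perm.mul_apply, sysH_E, ft_hE hab hF (((sysH Q a b hab).E ^ n) z).2]
        exact ih z
    show Ft C F₀ (retFun (sysH Q a b hab).E (Rib b) x.1).1 ↔ Ft C F₀ x.1.1
    rw [retFun_eq]
    exact key _ _
  · intro x
    show ((Ft C F₀ ((sysH Q a b hab).ta x.1).1 ↔ Ft C F₀ x.1.1) ↔ ¬ C x)
    rw [← cp_iff (C := C) x]
    by_cases h : x.1.1.1.d.1 = a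
    · have h' : ¬ x.1.1.1.e.1 = b := fun h1 => x.2 ⟨h, h1⟩
      rw [ta_cap hab h h']
      unfold Ft
      rw [FSt.facet_r2, ph_nom (C := C) hab h h',
        ph_nom (C := C) hab (t := x.1.1.r2) h h', top_r2 h h', cp_r2 hab hC h h']
      tauto
    · rw [ta_wall hab h]
      have he : x.1.1.1.e.1 = a := x.1.2.resolve_left h
      have h1 := hF x.1.1.rL
      have hn : x.1.1.rL.1.n.1 = a := by
        have h2 := rR_e1 x.1.1.rL
        rw [FSt.rL_rR] at h2
        rw [← h2]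
        exact he
      unfold ee at h1
      rw [FSt.rL_rR] at h1
      simp only [hn, true_and, not_true_eq_false, false_and, or_false] at h1
      have h2 : x.1.1.stN.r2.facet = x.1.1.rL.stE.facet := rfl
      have h3 : ¬ ph C x.1.1.stN.r2 := ph_wall (t := x.1.1.stN.r2) (wall_stN he)
      have h4 : ¬ ph C x.1.1 := ph_wall h
      unfold Ft
      rw [h2]
      rw [FSt.facet_rL] at h1
      tauto

end Pool.Agent.MP42.EO
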