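import Pool.Agent.MP42.EO.InsL

/-!
# Connectedness of one region

`a p` = signed number of strands at the ribbon `p` that belong to its end at the corner `p`
(`v p = a p + a (τ p)`); the vertex of the corner `x` uses the ribbon `x` with `a x` and the ribbon
`E x` with `a (nu x)`.
-/

set_option autoImplicit false

namespace Pool.Agent.MP42.EO

open Pool.Agent.MP42.NE

variable {P : Type*}

/-- insertion data of a region with two letters -/
structure RegL (E : Equiv.Perm P) (τ : P → P) (a q sg : P → ℤ) (Ch : P → Prop)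
    (rk : P → ℕ) : Prop where
  qh : ∀ x, q x = 0 ∨ (q x = 1 ∧ a x = -1 ∧ a (nu E τ x) = 1) ∨
    (q x = -1 ∧ a x = 1 ∧ a (nu E τ x) = -1)
  q0 : ∀ x, q x = 0 → (a x = 0 ∨ a x = sg x) ∧ (a (nu E τ x) = 0 ∨ a (nu E τ x) = sg x)
  sg1 : ∀ x, sg x = 1 ∨ sg x = -1
  sgE : ∀ x, sg (E x) = sg x
  reset : ∀ x, ∃ y, E.SameCycle x y ∧ q y = 0 ∧ (a y ≠ 0 ∨ a (nu E τ y) ≠ 0)
  ch : ∀ b, Ch b → q b = 0 ∧ a b ≠ 0 ∧ a (nu E τ b) ≠ 0
  rkE : ∀ x, rk (E x) = rk x
  host : ∀ h, q h = -1 → ∃ n : ℕ, (nu E τ)^[n + 1] h = h ∧ ∀ k < n,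
    q ((nu E τ)^[k + 1] h) = 1 ∨ (Ch ((nu E τ)^[k + 1] h) ∧ rk h < rk ((nu E τ)^[k + 1] h))
  par : ∀ x, (q x = 1 ∨ Ch x) → ∃ (h : P) (n : ℕ), q h = -1 ∧ (nu E τ)^[n + 1] h = x ∧
    ∀ k < n + 1,
      q ((nu E τ)^[k + 1] h) = 1 ∨ (Ch ((nu E τ)^[k + 1] h) ∧ rk h < rk ((nu E τ)^[k + 1] h))

namespace RegL

variable {E : Equiv.Perm P} {τ : P → P} {a q sg : P → ℤ} {Ch : P → Prop} {rk : P → ℕ}

lemma nu_sp_true (E : Equiv.Perm P) (τ : P → P) (x : P) :
    nu (TS.spE E) (TS.spτ τ) (x, true) = (nu E τ x, true) := rfl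

lemma nu_sp_iter (E : Equiv.Perm P) (τ : P → P) (n : ℕ) (x : P) :
    (nu (TS.spE E) (TS.spτ τ))^[n] (x, true) = ((nu E τ)^[n] x, true) := by
  induction n generalizing x with
  | zero => rfl
  | succ n ih => rw [Function.iterate_succ_apply, Function.iterate_succ_apply, nu_sp_true, ih]

/-- the change of the face -/
def cc (E : Equiv.Perm P) (τ : P → P) (a q : P → ℤ) (x : P × Bool) : ℤ :=
  if x.2 then a x.1 + q x.1 else a (τ x.1) - q (E.symm x.1)

lemma spE_symm_cyc (E : Equiv.Perm P) (x : P) : (TS.spE E).SameCycle (x, false) (x, true) :=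
  ⟨1, by simp⟩

lemma sp_cyc (E : Equiv.Perm P) [Finite P] {x y : P} (h : E.SameCycle x y) :
    (TS.spE E).SameCycle (x, true) (y, true) := by
  refine TS.cyc_ind (f := E) (Q := fun z => (TS.spE E).SameCycle (x, true) (z, true))
    (fun z hz => hz.trans ?_) h (Equiv.Perm.SameCycle.refl _ _)
  have h1 : (TS.spE E).SameCycle (z, true) (E z, false) := ⟨1, by simp⟩
  exact h1.trans (spE_symm_cyc E (E z))

lemma cyc_sp (E : Equiv.Perm P) [Finite P] {x y : P × Bool} (h : (TS.spE E).SameCycle x y) :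
    E.SameCycle x.1 y.1 := by
  refine TS.cyc_ind (f := TS.spE E) (Q := fun z => E.SameCycle x.1 z.1)
    (fun z hz => hz.trans ?_) h (Equiv.Perm.SameCycle.refl _ _)
  rcases z with ⟨z, b⟩
  cases b
  · exact Equiv.Perm.SameCycle.refl _ _
  · exact ⟨1, by simp⟩

/-- the insertion data of the halves -/
theorem insL [Finite P] (h : RegL E τ a q sg Ch rk) :
    InsL (TS.spE E) (TS.spτ τ) (TS.spv τ a) (fun x => if x.2 then q x.1 else 0) (cc E τ a q)
      (fun x => sg x.1) (fun x => x.2 = true ∧ Ch x.1) (fun x => rk x.1) where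
  v_eq := by
    rintro ⟨x, b⟩
    cases b
    · simp [cc]
    · simp [cc]
  qb := by
    rintro ⟨x, b⟩
    cases b
    · simp
    · have := h.qh x
      simp only [if_true]
      omega
  qq := by
    rintro ⟨x, b⟩
    cases b <;> simp
  cq := by
    rintro ⟨x, b⟩ hc
    cases b
    · refine ⟨by simp, ?_⟩
      simp only [TS.spE_false, cc, if_true] at hc ⊢
      have := h.qh x
      omega
    · refine ⟨?_, by simp⟩
      simp only [TS.spE_true, cc, Bool.false_eq_true, if_false, if_true,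
        Equiv.symm_apply_apply] at hc ⊢
      have h1 := h.qh x
      have h2 : nu E τ x = τ (E x) := rfl
      rw [h2] at h1
      omega
  sg1 := fun x => h.sg1 x.1
  sgE := by
    rintro ⟨x, b⟩
    cases b
    · rfl
    · exact h.sgE x
  cs := by
    rintro ⟨x, b⟩
    cases b
    · obtain ⟨z, rfl⟩ := E.surjective x
      simp only [cc, Bool.false_eq_true, if_false, Equiv.symm_apply_apply]
      have h1 := h.qh z
      have h2 : nu E τ z = τ (E z) := rfl
      rcases h1 with h1 | h1 | h1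
      · have h3 := (h.q0 z h1).2
        rw [h2] at h3
        rw [h1, h.sgE, sub_zero]
        exact h3
      · rw [h2] at h1
        left; omega
      · rw [h2] at h1
        left; omega
    · simp only [cc, if_true]
      have h1 := h.qh x
      rcases h1 with h1 | h1 | h1
      · have h3 := (h.q0 x h1).1
        rw [h1, add_zero]
        exact h3
      · left; omega
      · left; omega
  reset := by
    rintro ⟨x, b⟩
    obtain ⟨y, h1, h2, h3⟩ := h.reset x
    have h4 : (TS.spE E).SameCycle (x, b) (y, true) := by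
      have h5 := sp_cyc E h1
      cases b
      · exact (spE_symm_cyc E x).trans h5
      · exact h5
    rcases h3 with h3 | h3
    · refine ⟨(y, true), h4, ?_⟩
      simp only [cc, if_true]
      omega
    · refine ⟨(E y, false), h4.trans ⟨1, by simp⟩, ?_⟩
      simp only [cc, Bool.false_eq_true, if_false, Equiv.symm_apply_apply]
      have h5 : nu E τ y = τ (E y) := rfl
      rw [h5] at h3
      omega
  ch := by
    rintro ⟨x, b⟩ ⟨hb, hc⟩
    cases b
    · exact absurd hb (by simp)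
    · obtain ⟨h1, h2, h3⟩ := h.ch x hc
      have h5 : nu E τ x = τ (E x) := rfl
      rw [h5] at h3
      simp only [TS.spE_true, cc, if_true, Bool.false_eq_true, if_false, Equiv.symm_apply_apply]
      constructor <;> omega
  rkE := by
    rintro ⟨x, b⟩
    cases b
    · rfl
    · exact h.rkE x
  host := by
    rintro ⟨x, b⟩ hq
    cases b
    · exact absurd hq (by simp)
    · obtain ⟨n, h1, h2⟩ := h.host x (by simpa using hq)
      refine ⟨n, ?_, ?_⟩
      · rw [nu_sp_iter, h1]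
      · intro k hk
        rw [nu_sp_iter]
        rcases h2 k hk with h3 | h3
        · left; simpa using h3
        · right; exact ⟨⟨rfl, h3.1⟩, h3.2⟩
  par := by
    rintro ⟨x, b⟩ hx
    cases b
    · exact absurd hx (by simp)
    · obtain ⟨u, n, h1, h2, h3⟩ := h.par x (by simpa using hx)
      refine ⟨(u, true), n, by simpa using h1, ?_, ?_⟩
      · rw [nu_sp_iter, h2]
      · intro k hk
        rw [nu_sp_iter]
        rcases h3 k hk with h4 | h4
        · left; simpa using h4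
        · right; exact ⟨⟨rfl, h4.1⟩, h4.2⟩

/-- **connectedness of one region**: `Rt` = the root face, `p` = the root ribbon -/
theorem conn [Finite P] {v : P → ℤ} {T : P → ℕ → Prop} (h : RegL E τ a q sg Ch rk)
    (hT : TS E τ v T) (hv : ∀ p, v p = a p + a (τ p)) {Rt ρ : P → Prop} {K : ℕ} {p : P}
    (hR : ∀ x, Rt x ↔ E.SameCycle p x) (hρ : ∀ x, ρ (E x) ↔ ρ x)
    (hK : ∀ x j, ¬ Rt x → K ≤ j → (T x j ↔ ρ x)) (hne : ∀ b, Ch b → ¬ Rt b)
    (face : ∀ x, ¬ Rt x → (∃ b, E.SameCycle x b ∧ Ch b) ∨ E.SameCycle x (τ p))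
    (hroot : ((∀ x, Rt x) ∧ (∀ x, q x = 0) ∧ a p ≠ 0 ∧ ∀ y, a y ≠ 0 → y = p) ∨
      (¬ Rt (τ p) ∧ a p ≠ 0 ∧ a (τ p) ≠ 0 ∧ q p = 0 ∧ q (τ p) = 0 ∧ q (E.symm p) = 0 ∧
        q (E.symm (τ p)) = 0 ∧ ∀ y, Rt y →
          (a y + q y ≠ 0 → y = p) ∧ (a (τ y) ≠ q (E.symm y) → y = p))) :
    ∃ w : Prop, (∀ x j, T x j ↔ w) ∧ ∀ x, ¬ Rt x → (ρ x ↔ w) := by
  have hI := h.insL
  have hS := TS.split hT hv
  have hRE : ∀ x, Rt (E x) ↔ Rt x := by
    intro x
    rw [hR, hR]
    exact ⟨fun h => h.trans ⟨-1, by simp⟩, fun h => h.trans ⟨1, by simp⟩⟩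
  have hab : ∀ x, a x ≤ 2 ∧ -2 ≤ a x := by
    intro x
    have h1 := h.qh x
    rcases h1 with h1 | h1 | h1
    · have h2 := (h.q0 x h1).1
      have h3 := h.sg1 x
      omega
    · omega
    · omega
  suffices main : ∃ w : Prop, (∀ x j, TS.spT E τ a T x j ↔ w) ∧
      ∀ x : P × Bool, ¬ Rt x.1 → (ρ x.1 ↔ w) by
    obtain ⟨w, hw1, hw2⟩ := main
    exact ⟨w, fun x j => hw1 (x, true) j, fun x hx => hw2 (x, true) hx⟩
  refine InsL.conn (x₀ := (p, true)) (Rt := fun x => Rt x.1)
    (ρ := fun x => ρ x.1) (K := K + 4) hI hS ?_ ?_ ?_ ?_ ?_ ?_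
  · rintro ⟨x, b⟩
    show Rt x ↔ _
    rw [hR]
    constructor
    · intro h1
      have h2 := sp_cyc E h1
      cases b
      · exact h2.trans (spE_symm_cyc E x).symm
      · exact h2
    · intro h1
      exact cyc_sp E h1
  · rintro ⟨x, b⟩
    cases b
    · exact Iff.rfl
    · exact hρ x
  · rintro ⟨x, b⟩ j hx hj
    cases b
    · show TS.mid E τ a T x j ↔ ρ x
      obtain ⟨k, hk⟩ : ∃ k : ℕ, (k : ℤ) + a x = j := ⟨((j : ℤ) - a x).toNat, by
        have := hab x; omega⟩
      rw [TS.mid_ge hk]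
      exact hK x k hx (by have := hab x; omega)
    · exact hK x j hx (by omega)
  · rintro ⟨x, b⟩ ⟨_, h2⟩
    exact hne x h2
  · rintro ⟨x, b⟩ hx
    have hb : (TS.spE E).SameCycle (x, b) (x, true) := by
      cases b
      · exact spE_symm_cyc E x
      · exact Equiv.Perm.SameCycle.refl _ _
    rcases face x hx with ⟨y, h1, h2⟩ | h1
    · left
      exact ⟨(y, true), hb.trans (sp_cyc E h1), rfl, h2⟩
    · right
      rcases hroot with ⟨h2, -⟩ | ⟨h2, h3, h4, h5, h6, h7, h8, h9⟩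
      · exact absurd (h2 x) hx
      · refine ⟨(p, false), (hR p).2 (Equiv.Perm.SameCycle.refl _ _), ?_, ?_⟩
        · show a (τ p) - q (E.symm p) ≠ 0
          rw [h7, sub_zero]; exact h4
        · exact hb.trans (sp_cyc E h1)
  · rcases hroot with ⟨h2, h3, h4, h5⟩ | ⟨h2, h3, h4, h5, h6, h7, h8, h9⟩
    · left
      refine ⟨(p, true), h2 _, h2 _, ?_, ?_⟩
      · show a p + q p ≠ 0
        rw [h3, add_zero]; exact h4
      · rintro ⟨y, b⟩ _ hc
        cases b
        · right
          have h6 : a (τ y) - q (E.symm y) ≠ 0 := hc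
          rw [h3, sub_zero] at h6
          have h7 := h5 _ h6
          show (y, false) = (τ p, false)
          rw [← h7, hT.tt]
        · left
          have h6 : a y + q y ≠ 0 := hc
          rw [h3, add_zero] at h6
          rw [h5 _ h6]
    · right
      refine ⟨(τ p, true), h2, ?_⟩
      rintro ⟨y, b⟩ hy hc
      cases b
      · have h10 : a (τ y) - q (E.symm y) ≠ 0 := hc
        have h11 := (h9 y hy).2 (fun h => h10 (by rw [h]; ring))
        subst h11
        refine ⟨?_, Equiv.Perm.SameCycle.refl _ _⟩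
        show a (τ y) + q (τ y) ≠ 0
        rw [h6, add_zero]; exact h4
      · have h10 : a y + q y ≠ 0 := hc
        have h11 := (h9 y hy).1 h10
        subst h11
        refine ⟨?_, (spE_symm_cyc E (τ y)).symm⟩
        show a (τ (τ y)) - q (E.symm (τ y)) ≠ 0
        rw [hT.tt, h8, sub_zero]; exact h3

end RegL

end Pool.Agent.MP42.EO
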