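import Pool.Agent.MP42.EO.Bfs

/-!
# The selection of the E/O scheme

Every tree ribbon (a middle real unit) joins a pushing face (side `c`, `Dc c`) and a popping face
(side `τ c`); it uses the first big corner `bb c` at or after `c`.
-/

set_option autoImplicit false
set_option linter.unusedSectionVars false

namespace Pool.Agent.MP42.EO

open Pool.Agent.MP42.NE

variable {P : Type*} {E : Equiv.Perm P} {τ : P → P} {ok : P → Bool → Bool → Bool → Prop}
  {MR : P → Prop}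

/-! ## Big corners -/

section Big

variable (L : Loc E τ ok MR)

include L

lemma nu_inj {x y : P} (h : nu E τ x = nu E τ y) : x = y := by
  have h1 := congrArg τ h
  unfold nu at h1
  rw [L.ττ, L.ττ] at h1
  exact E.injective h1

lemma big_nu {x : P} (h : Big E τ x) : Big E τ (nu E τ x) := by
  have h3 := L.n3 x h
  refine ⟨fun h' => ?_, fun h' => ?_⟩
  · have := nu_inj L h'
    exact h.1 this
  · rw [h3] at h'
    exact h.1 h'.symm

lemma big_of_nu {x : P} (h : Big E τ (nu E τ x)) : Big E τ x := by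
  refine ⟨fun h' => ?_, fun h' => ?_⟩
  · exact h.1 (by rw [h', h'])
  · apply h.2
    rw [h']

lemma E_nu (x : P) : E x = τ (nu E τ x) := (L.ττ _).symm

end Big

/-- the number of units to the big corner -/
noncomputable def kk (E : Equiv.Perm P) (τ : P → P) (c : P) : ℕ := sInf {k | Big E τ ((E ^ k) c)}

/-- the big corner -/
noncomputable def bb (E : Equiv.Perm P) (τ : P → P) (c : P) : P := (E ^ (kk E τ c)) c

/-- the data of the selection -/
structure Sl (E : Equiv.Perm P) (τ : P → P) (ok : P → Bool → Bool → Bool → Prop) (MR : P → Prop)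
    where
  r : P
  dep : P → ℕ
  Pd : P → Prop
  yt : P
  s : Prop
  L : Loc E τ ok MR
  B : Bfs E τ MR r dep Pd
  hyt : Pd yt
  dyt : dep yt = 1

namespace Sl

variable (S : Sl E τ ok MR)

/-- the popping class -/
def pop (x : P) : Prop := S.dep x % 2 = 1 ↔ S.s

/-- the tree darts on the pushing side -/
def Dc (c : P) : Prop :=
  ∃ y, S.Pd y ∧ y ≠ S.yt ∧ ((¬ S.pop y ∧ c = y) ∨ (S.pop y ∧ c = τ y))

variable {S}

lemma popE (x : P) : S.pop (E x) ↔ S.pop x := by
  unfold pop; rw [S.B.dE]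

lemma dyp {y : P} (h : S.Pd y) : 0 < S.dep y := by
  have := S.B.p1' y h; omega

lemma pop_τ {y : P} (h : S.Pd y) : S.pop (τ y) ↔ ¬ S.pop y := by
  have h1 := S.B.p1' y h
  unfold pop
  by_cases h2 : S.dep y % 2 = 1
  · have h3 : ¬ S.dep (τ y) % 2 = 1 := by omega
    simp only [h2, h3, true_iff, false_iff]
  · have h3 : S.dep (τ y) % 2 = 1 := by omega
    simp only [h2, h3, true_iff, false_iff, not_not]

/-- the child dart -/
lemma Dc.child {c : P} (h : S.Dc c) : (S.Pd c ∧ ¬ S.Pd (τ c) ∧ c ≠ S.yt ∧ S.dep (τ c) + 1 = S.dep c)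
    ∨ (S.Pd (τ c) ∧ ¬ S.Pd c ∧ τ c ≠ S.yt ∧ S.dep c + 1 = S.dep (τ c)) := by
  obtain ⟨y, h1, h2, ⟨h3, h4⟩ | ⟨h3, h4⟩⟩ := h
  · left
    rw [h4]
    have h5 := S.B.p1' y h1
    refine ⟨h1, fun h6 => ?_, h2, h5⟩
    have h7 := S.B.p1' _ h6
    rw [S.L.ττ] at h7
    omega
  · right
    rw [h4, S.L.ττ]
    have h5 := S.B.p1' y h1
    refine ⟨h1, fun h6 => ?_, h2, h5⟩
    have h7 := S.B.p1' _ h6
    rw [S.L.ττ] at h7
    omega

lemma Dc.np {c : P} (h : S.Dc c) : ¬ S.pop c := by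
  obtain ⟨y, h1, h2, ⟨h3, h4⟩ | ⟨h3, h4⟩⟩ := h
  · rw [h4]; exact h3
  · rw [h4, pop_τ h1]; exact not_not.2 h3

lemma Dc.pt {c : P} (h : S.Dc c) : S.pop (τ c) := by
  obtain ⟨y, h1, h2, ⟨h3, h4⟩ | ⟨h3, h4⟩⟩ := h
  · rw [h4, pop_τ h1]; exact h3
  · rw [h4, S.L.ττ]; exact h3

lemma Dc.mr {c : P} (h : S.Dc c) : MR c ∧ MR (τ c) := by
  obtain ⟨y, h1, h2, ⟨h3, h4⟩ | ⟨h3, h4⟩⟩ := h
  · rw [h4]; exact ⟨S.B.p1 y h1, S.L.MRτ y (S.B.p1 y h1)⟩
  · rw [h4, S.L.ττ]; exact ⟨S.L.MRτ y (S.B.p1 y h1), S.B.p1 y h1⟩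

lemma Dc.nb {c : P} (h : S.Dc c) : ¬ Big E τ c ∧ ¬ Big E τ (τ c) :=
  ⟨S.L.MRb c h.mr.1, S.L.MRb _ h.mr.2⟩

lemma Dc.reg {c : P} (h : S.Dc c) : Reg E τ S.r c := by
  obtain ⟨y, h1, h2, ⟨h3, h4⟩ | ⟨h3, h4⟩⟩ := h
  · rw [h4]; exact S.B.pG y h1
  · rw [h4]; exact Reg.τ_iff.2 (S.B.pG y h1)

variable [Finite P]

lemma dcyc {x y : P} (h : E.SameCycle x y) : S.dep y = S.dep x := cyc_eq S.B.dE h

lemma popcyc {x y : P} (h : E.SameCycle x y) : S.pop y ↔ S.pop x := cyc_iff (fun x => popE x) h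

lemma Dc.ne {c : P} (h : S.Dc c) : ¬ E.SameCycle c (τ c) := fun h' =>
  h.np ((popcyc h').1 h.pt)

/-- a tree dart is determined by its two faces -/
lemma Dc.eq {c c' : P} (h : S.Dc c) (h' : S.Dc c') (h1 : E.SameCycle c c')
    (h2 : E.SameCycle (τ c) (τ c')) : c = c' := by
  have e1 := dcyc (S := S) h1
  have e2 := dcyc (S := S) h2
  rcases h.child with ⟨a1, a2, a3, a4⟩ | ⟨a1, a2, a3, a4⟩
  · rcases h'.child with ⟨b1, b2, b3, b4⟩ | ⟨b1, b2, b3, b4⟩
    · exact S.B.p2 _ _ a1 b1 h1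
    · omega
  · rcases h'.child with ⟨b1, b2, b3, b4⟩ | ⟨b1, b2, b3, b4⟩
    · omega
    · have := S.B.p2 _ _ a1 b1 h2
      rw [← S.L.ττ c, this, S.L.ττ]

/-- a tree dart is not on the two root faces in this order -/
lemma Dc.not_root {c : P} (h : S.Dc c) : ¬ (E.SameCycle c S.yt ∧ E.SameCycle (τ c) (τ S.yt)) ∧
    ¬ (E.SameCycle c (τ S.yt) ∧ E.SameCycle (τ c) S.yt) := by
  have d1 := S.dyt
  have d2 := S.B.p1' _ S.hyt
  refine ⟨fun ⟨h1, h2⟩ => ?_, fun ⟨h1, h2⟩ => ?_⟩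
  · have e1 := dcyc (S := S) h1
    have e2 := dcyc (S := S) h2
    rcases h.child with ⟨a1, a2, a3, a4⟩ | ⟨a1, a2, a3, a4⟩
    · exact a3 (S.B.p2 _ _ a1 S.hyt h1)
    · omega
  · have e1 := dcyc (S := S) h1
    have e2 := dcyc (S := S) h2
    rcases h.child with ⟨a1, a2, a3, a4⟩ | ⟨a1, a2, a3, a4⟩
    · omega
    · exact a3 (S.B.p2 _ _ a1 S.hyt h2)

/-- one step over a corner that is not big -/
lemma step_nb (L : Loc E τ ok MR) {x : P} (h : ¬ Big E τ x) (hne : ¬ E.SameCycle x (τ x)) :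
    E (τ (E x)) = τ x := by
  unfold Big at h
  have h1 : nu E τ x ≠ x := by
    intro h'
    apply hne
    have h2 : E x = τ x := by
      have := congrArg τ h'
      rwa [show τ (nu E τ x) = E x from L.ττ _] at this
    rw [← h2, sE]
  have h2 : nu E τ (nu E τ x) = x := by
    by_contra hc
    exact h ⟨h1, hc⟩
  have h3 := congrArg τ h2
  rwa [show τ (nu E τ (nu E τ x)) = E (τ (E x)) from L.ττ _] at h3

/-- the other side of the composite ribbon -/
lemma walk (L : Loc E τ ok MR) {c : P} (hne : ¬ E.SameCycle c (τ c)) {k : ℕ}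
    (hk : ∀ i < k, ¬ Big E τ ((E ^ i) c)) : ∀ i ≤ k, E.SameCycle (τ c) (τ ((E ^ i) c)) ∧
      ∀ j < i, E (τ ((E ^ (j + 1)) c)) = τ ((E ^ j) c) := by
  intro i
  induction i with
  | zero => intro _; exact ⟨sR _, fun j hj => absurd hj (Nat.not_lt_zero j)⟩
  | succ i ih =>
    intro hi
    obtain ⟨h1, h2⟩ := ih (by omega)
    have h3 : ¬ E.SameCycle ((E ^ i) c) (τ ((E ^ i) c)) := by
      intro h'
      exact hne (((s_pow i c).trans h').trans h1.symm)
    have h4 := step_nb L (hk i (by omega)) h3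
    have h5 : E (τ ((E ^ (i + 1)) c)) = τ ((E ^ i) c) := by
      rw [pow_succ']; exact h4
    refine ⟨?_, ?_⟩
    · rw [← sE, h5]; exact h1
    · intro j hj
      rcases Nat.lt_or_ge j i with h | h
      · exact h2 j h
      · have : j = i := by omega
        rw [this]; exact h5

/-- every tree dart leads to a big corner -/
lemma Dc.exbig {c : P} (h : S.Dc c) : ∃ k, Big E τ ((E ^ k) c) := by
  by_contra hc
  rw [not_exists] at hc
  have hw := fun i => (walk S.L h.ne (k := i) (fun j _ => hc j)) i le_rfl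
  -- the other face
  have hback : ∀ (j : ℕ) (z : P), (E ^ j) z = τ c → z = τ ((E ^ j) c) := by
    intro j
    induction j with
    | zero => intro z hz; exact hz
    | succ j ih =>
      intro z hz
      have h1 := ih (E z) (by rw [← hz, pow_succ]; rfl)
      have h2 := (hw (j + 1)).2 j (by omega)
      rw [← h2] at h1
      exact E.injective h1
  have key : ∀ x, Reg E τ S.r x → (E.SameCycle c x ∨ E.SameCycle (τ c) x) := by
    intro x hx
    have hcx : Reg E τ c x := h.reg.symm.trans hx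
    refine (S.L.inv hcx (ψ := fun x => E.SameCycle c x ∨ E.SameCycle (τ c) x) ?_ ?_).1
      (Or.inl (sR c))
    · intro x; rw [sE, sE]
    · rintro x _ (hx | hx)
      · right
        obtain ⟨n, rfl⟩ := hx.exists_nat_pow_eq
        exact (hw n).1
      · left
        obtain ⟨n, hn⟩ := hx.symm.exists_nat_pow_eq
        rw [hback n x hn, S.L.ττ]
        exact s_pow n c
  have d1 := S.dyt
  have k1 := key S.r (Reg.refl _)
  have k2 := key S.yt (S.B.pG _ S.hyt)
  have hr : S.dep S.r = 0 := (S.B.d0 _ (Reg.refl _)).2 (sR _)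
  rcases h.child with ⟨a1, a2, a3, a4⟩ | ⟨a1, a2, a3, a4⟩
  · rcases k2 with k2 | k2
    · exact a3 (S.B.p2 _ _ a1 S.hyt k2)
    · have e1 := dcyc (S := S) k2
      rcases k1 with k1 | k1
      · have e2 := dcyc (S := S) k1; omega
      · have e2 := dcyc (S := S) k1; omega
  · rcases k2 with k2 | k2
    · have e1 := dcyc (S := S) k2
      rcases k1 with k1 | k1
      · have e2 := dcyc (S := S) k1; omega
      · have e2 := dcyc (S := S) k1; omega
    · exact a3 (S.B.p2 _ _ a1 S.hyt k2)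

lemma Dc.isbig {c : P} (h : S.Dc c) : Big E τ (bb E τ c) :=
  Nat.sInf_mem (s := {k | Big E τ ((E ^ k) c)}) h.exbig

lemma not_bb {c : P} {i : ℕ} (h : i < kk E τ c) : ¬ Big E τ ((E ^ i) c) := fun h' =>
  Nat.notMem_of_lt_sInf (s := {k | Big E τ ((E ^ k) c)}) h h'

lemma Dc.kpos {c : P} (h : S.Dc c) : 0 < kk E τ c := by
  rcases Nat.eq_zero_or_pos (kk E τ c) with h0 | h0
  · have := h.isbig
    unfold EO.bb at this
    rw [h0] at this
    exact absurd this h.nb.1
  · exact h0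

lemma Dc.walks {c : P} (h : S.Dc c) {i : ℕ} (hi : i ≤ kk E τ c) :
    E.SameCycle (τ c) (τ ((E ^ i) c)) ∧ ∀ j < i, E (τ ((E ^ (j + 1)) c)) = τ ((E ^ j) c) :=
  Sl.walk S.L h.ne (fun _ hj => not_bb hj) i hi

lemma Dc.bb_same {c : P} (h : S.Dc c) : E.SameCycle c (bb E τ c) ∧ E.SameCycle (τ c) (τ (bb E τ c)) :=
  ⟨s_pow _ _, (h.walks le_rfl).1⟩

/-- the popping face at the big corner -/
lemma Dc.nn_same {c : P} (h : S.Dc c) : E.SameCycle (nu E τ (nu E τ (bb E τ c))) (τ c) := by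
  rw [← Es, E_nu S.L, S.L.n3 _ h.isbig]
  exact h.bb_same.2.symm

lemma Dc.nn_pop {c : P} (h : S.Dc c) : S.pop (nu E τ (nu E τ (bb E τ c))) :=
  (popcyc h.nn_same.symm).2 h.pt

lemma Dc.bb_np {c : P} (h : S.Dc c) : ¬ S.pop (bb E τ c) := fun h' =>
  h.np ((popcyc h.bb_same.1).1 h')

variable (S)

/-- corners before the used vertices -/
def In0 (x : P) : Prop := S.Dc x
/-- pass corners -/
def In1 (x : P) : Prop := ∃ c, S.Dc c ∧ x = nu E τ (bb E τ c)
/-- the third corners -/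
def In2 (x : P) : Prop := ∃ c, S.Dc c ∧ x = nu E τ (nu E τ (bb E τ c))
/-- darts with a used vertex at the east end -/
def Inn (x : P) : Prop := S.In0 x ∨ S.In1 x ∨ S.In2 x
/-- active darts -/
def Act (x : P) : Prop := S.Inn x ∨ S.Inn (τ x) ∨ x = τ S.yt ∨ x = S.yt

variable {S}

lemma In0.nb {x : P} (h : S.In0 x) : ¬ Big E τ x ∧ ¬ Big E τ (τ x) := Dc.nb h

lemma In1.big {x : P} (h : S.In1 x) : Big E τ x := by
  obtain ⟨c, hc, rfl⟩ := h
  exact big_nu S.L hc.isbig

lemma In2.big {x : P} (h : S.In2 x) : Big E τ x := by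
  obtain ⟨c, hc, rfl⟩ := h
  exact big_nu S.L (big_nu S.L hc.isbig)

lemma bb_ne {c c' : P} (h : S.Dc c) (h' : S.Dc c') : bb E τ c ≠ nu E τ (bb E τ c') ∧
    bb E τ c ≠ nu E τ (nu E τ (bb E τ c')) := by
  refine ⟨fun e => ?_, fun e => ?_⟩
  · have h1 := h.nn_pop
    rw [e, S.L.n3 _ h'.isbig] at h1
    exact h'.bb_np h1
  · have h1 := h.bb_np
    rw [e] at h1
    exact h1 h'.nn_pop

lemma In1.not2 {x : P} (h : S.In1 x) : ¬ S.In2 x := by
  obtain ⟨c, hc, rfl⟩ := h
  rintro ⟨c', hc', e⟩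
  exact (bb_ne hc hc').1 (nu_inj S.L e)

lemma Inn.not {x : P} (h : S.Inn x) : ¬ S.Inn (τ x) := by
  rintro h'
  rcases h with h | h
  · rcases h' with h' | h'
    · exact (Dc.np h') (Dc.pt h)
    · have : Big E τ (τ x) := by
        rcases h' with h' | h'
        · exact h'.big
        · exact h'.big
      exact (Dc.nb h).2 this
  · have hb : Big E τ x := by
      rcases h with h | h
      · exact h.big
      · exact h.big
    rcases h' with h' | h'
    · have := (Dc.nb h').2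
      rw [S.L.ττ] at this
      exact this hb
    · have : Big E τ (τ x) := by
        rcases h' with h' | h'
        · exact h'.big
        · exact h'.big
      exact S.L.g3 x ⟨hb, this⟩

lemma root_not : ¬ S.Inn S.yt ∧ ¬ S.Inn (τ S.yt) := by
  have hm := S.B.p1 _ S.hyt
  have hm' := S.L.MRτ _ hm
  refine ⟨?_, ?_⟩
  · rintro (h | h | h)
    · exact (Dc.not_root h).1 ⟨sR _, sR _⟩
    · exact S.L.MRb _ hm h.big
    · exact S.L.MRb _ hm h.big
  · rintro (h | h | h)
    · refine (Dc.not_root h).2 ⟨sR _, ?_⟩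
      rw [S.L.ττ]
    · exact S.L.MRb _ hm' h.big
    · exact S.L.MRb _ hm' h.big

lemma Act.τ_iff {x : P} : S.Act (τ x) ↔ S.Act x := by
  unfold Act
  rw [S.L.ττ]
  have e1 : τ x = τ S.yt ↔ x = S.yt := by
    constructor
    · intro h; rw [← S.L.ττ x, h, S.L.ττ]
    · intro h; rw [h]
  have e2 : τ x = S.yt ↔ x = τ S.yt := by
    constructor
    · intro h; rw [← h, S.L.ττ]
    · intro h; rw [h, S.L.ττ]
  rw [e1, e2]
  tauto

/-- the units between the tree ribbon and its big corner are not active -/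
lemma not_act {c : P} (h : S.Dc c) {i : ℕ} (h0 : 0 < i) (hi : i ≤ kk E τ c) :
    ¬ S.Act ((E ^ i) c) := by
  have h1 : E.SameCycle c ((E ^ i) c) := s_pow i c
  have h2 := (h.walks hi).1
  have h3 : ¬ Big E τ (τ ((E ^ i) c)) := by
    obtain ⟨j, rfl⟩ : ∃ j, i = j + 1 := ⟨i - 1, by omega⟩
    have e : τ ((E ^ (j + 1)) c) = nu E τ ((E ^ j) c) := by
      rw [pow_succ']; rfl
    rw [e]
    intro h'
    exact not_bb (by omega) (big_of_nu S.L h')
  have hik : Big E τ ((E ^ i) c) → i = kk E τ c := by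
    intro h'
    by_contra hc
    exact not_bb (c := c) (i := i) (by omega) h'
  rintro ((h' | h' | h') | (h' | h' | h') | h' | h')
  · have e := h.eq h' h1 h2
    have h4 := h.isbig
    unfold EO.bb at h4
    rw [show kk E τ c = (kk E τ c - i) + i by omega, pow_add, Equiv.Perm.mul_apply, ← e] at h4
    exact not_bb (by omega) h4
  · have hb := hik h'.big
    obtain ⟨c', hc', e⟩ := h'
    refine (bb_ne h hc').1 ?_
    rw [← e, hb]; rfl
  · have hb := hik h'.big
    obtain ⟨c', hc', e⟩ := h'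
    refine (bb_ne h hc').2 ?_
    rw [← e, hb]; rfl
  · have h5 := Dc.pt h'
    rw [S.L.ττ] at h5
    exact h.np ((popcyc h1).1 h5)
  · exact h3 h'.big
  · exact h3 h'.big
  · refine (Dc.not_root h).2 ⟨?_, ?_⟩
    · rw [← h']; exact h1
    · rw [h', S.L.ττ] at h2; exact h2
  · refine (Dc.not_root h).1 ⟨?_, ?_⟩
    · rw [← h']; exact h1
    · rw [h'] at h2; exact h2

end Sl

end Pool.Agent.MP42.EO
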