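import Pool.Agent.MP42.EO.TRes
import Pool.Agent.MP42.EO.Piece
import Pool.Agent.MP42.EO.SelNet

/-!
# Solutions on a region, and their extension from the active positions
-/

set_option autoImplicit false
set_option linter.unusedSectionVars false

namespace Pool.Agent.MP42.EO

open Pool.Agent.Helper55.UNF Pool.Agent.MP42 Pool.Agent.MP42.NE

open Classical in
/-- a solution on the region `G` with the root side `r` -/
structure Sol {D : Type*} [Fintype D] (E : Equiv.Perm D) (τ : D → D)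
    (ok : D → Bool → Bool → Bool → Prop) (K : ℕ) (G : D → Prop) (r : D) (s : ℤ) (t0 t1 : Bool)
    (v : D → ℤ) (κ : D → ℕ → Bool) (sg : D → ℤ) : Prop where
  vτ : ∀ x, v (τ x) = v x
  vG : ∀ x, ¬ G x → v x = 0
  sg1 : ∀ x, sg x = 1 ∨ sg x = -1
  sgE : ∀ x, sg (E x) = sg x
  sgr : ∀ x, E.SameCycle r x → sg x = s
  sum : ∀ d, G d → ∑ x ∈ Finset.univ.filter (fun x => E.SameCycle d x), v x = 2 * sg d
  pb : PB E v K
  tts : TTS E τ v ok κ
  per : ∀ x j, K ≤ j → κ x (j + 2) = κ x j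
  κG : ∀ x j, ¬ G x → κ x j = false
  deep : ∀ x, E.SameCycle r x → ∃ ε : ℕ, ∀ j, K ≤ j → κ x j = if (j + ε) % 2 = 0 then t0 else t1
  conn : ∀ (v' : D → ℤ) (T : D → ℕ → Prop) (ρ : D → Prop), (∀ x, G x → v' x = v x) →
    TS E τ v' T → (∀ x, ρ (E x) ↔ ρ x) →
    (∀ x, G x → ¬ E.SameCycle x r → ∀ j, K ≤ j → (T x j ↔ ρ x)) →
    ∃ c : Prop, ∀ x, G x → ∀ j, T x j ↔ c

section Lift

variable {D : Type*} [Fintype D] {E : Equiv.Perm D} {τ : D → D}
  {ok : D → Bool → Bool → Bool → Prop} {A : D → Prop}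

/-- the last active position -/
lemma exists_prev {κ : {x // A x} → ℕ → Bool} {κ' : D → ℕ → Bool}
    (h1 : ∀ x : {x // A x}, κ' x.1 = κ x) (h2 : ∀ x, ¬ A (E x) → κ' (E x) = κ' x) {x : D}
    (hx : ∃ y : {x // A x}, E.SameCycle x y.1) :
    ∃ y : {x // A x}, E.SameCycle x y.1 ∧ κ' x = κ y := by
  obtain ⟨y, hy⟩ := hx
  obtain ⟨n, hn⟩ := hy.symm.exists_nat_pow_eq
  have key : ∀ n : ℕ, ∃ z : {x // A x}, E.SameCycle ((E ^ n) y.1) z.1 ∧ κ' ((E ^ n) y.1) = κ z := by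
    intro n
    induction n with
    | zero => exact ⟨y, sR _, h1 y⟩
    | succ n ih =>
      obtain ⟨z, hz1, hz2⟩ := ih
      have e : (E ^ (n + 1)) y.1 = E ((E ^ n) y.1) := by rw [pow_succ']; rfl
      rw [e]
      by_cases hA : A (E ((E ^ n) y.1))
      · exact ⟨⟨_, hA⟩, sR _, h1 ⟨_, hA⟩⟩
      · refine ⟨z, (Es _ _).2 hz1, ?_⟩
        rw [h2 _ hA, hz2]
  rw [← hn]
  exact key n

open Classical in
/-- **extension of a solution from the active positions** -/
theorem Sol.lift {K : ℕ} {G' : {x // A x} → Prop} {r' : {x // A x}} {s : ℤ} {t0 t1 : Bool}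
    {v' : {x // A x} → ℤ} {κ : {x // A x} → ℕ → Bool} {sg : {x // A x} → ℤ}
    (hττ : ∀ x, τ (τ x) = x) (hA : ∀ x, A x → A (τ x))
    (h : Sol (ret E A) (fun x => ⟨τ x.1, hA x.1 x.2⟩) (fun x => ok x.1) K G' r' s t0 t1 v' κ sg)
    {G : D → Prop} (hG : ∀ x, G x ↔ ∃ y : {x // A x}, E.SameCycle x y.1 ∧ G' y)
    (hGτ : ∀ x, G (τ x) ↔ G x)
    (hG'c : ∀ x y : {x // A x}, E.SameCycle x.1 y.1 → G' x → G' y)
    {r : D} (hr : E.SameCycle r r'.1) :
    ∃ (κ'' : D → ℕ → Bool) (sg'' : D → ℤ), Sol E τ ok K G r s t0 t1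
      (fun x => if hx : A x then v' ⟨x, hx⟩ else 0) κ'' sg'' := by
  set v : D → ℤ := fun x => if hx : A x then v' ⟨x, hx⟩ else 0 with hv
  have v0 : ∀ x, ¬ A x → v x = 0 := fun x hx => by simp only [hv]; rw [dif_neg hx]
  have vA : ∀ x : {x // A x}, v x.1 = v' x := fun x => by
    simp only [hv]; rw [dif_pos x.2]
  have vsub : (fun x : {x // A x} => v x.1) = v' := funext vA
  have hGE : ∀ x, G (E x) ↔ G x := by
    intro x
    rw [hG, hG]
    simp only [Es]
  have tts' : TTS (ret E A) (fun x => ⟨τ x.1, hA x.1 x.2⟩) (fun x => v x.1)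
      (fun x => ok x.1) κ := by rw [vsub]; exact h.tts
  obtain ⟨κ'', k1, k2, k3, k4⟩ := TTS.extend hA v0 tts'
  -- letters
  set sg'' : D → ℤ := fun x => if hx : ∃ y : {x // A x}, E.SameCycle x y.1 then sg hx.choose
    else 1 with hsg
  have sgc : ∀ {x y : {x // A x}}, E.SameCycle x.1 y.1 → sg y = sg x := fun hxy =>
    cyc_eq h.sgE (ret_same_iff.2 hxy)
  have sgA : ∀ {x : D} {y : {x // A x}}, E.SameCycle x y.1 → sg'' x = sg y := by
    intro x y hxy
    have hx : ∃ y : {x // A x}, E.SameCycle x y.1 := ⟨y, hxy⟩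
    simp only [hsg]
    rw [dif_pos hx]
    exact sgc (hxy.symm.trans hx.choose_spec)
  refine ⟨κ'', sg'', ?_, ?_, ?_, ?_, ?_, ?_, ?_, ?_, ?_, ?_, ?_, ?_⟩
  · intro x
    by_cases hx : A x
    · rw [vA ⟨x, hx⟩]
      have h1 := vA ⟨τ x, hA x hx⟩
      rw [h1]
      exact h.vτ ⟨x, hx⟩
    · have h1 : ¬ A (τ x) := fun h' => hx (by have := hA _ h'; rwa [hττ] at this)
      rw [v0 _ hx, v0 _ h1]
  · intro x hx
    by_cases hA' : A x
    · rw [vA ⟨x, hA'⟩]
      apply h.vG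
      intro h'
      exact hx ((hG x).2 ⟨⟨x, hA'⟩, sR _, h'⟩)
    · exact v0 x hA'
  · intro x
    simp only [hsg]
    split_ifs with hx
    · exact h.sg1 _
    · exact Or.inl rfl
  · intro x
    by_cases hx : ∃ y : {x // A x}, E.SameCycle x y.1
    · obtain ⟨y, hy⟩ := hx
      rw [sgA hy, sgA ((Es _ _).2 hy)]
    · have hx' : ¬ ∃ y : {x // A x}, E.SameCycle (E x) y.1 := by
        rintro ⟨y, hy⟩; exact hx ⟨y, (Es _ _).1 hy⟩
      simp only [hsg]
      rw [dif_neg hx, dif_neg hx']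
  · intro x hx
    rw [sgA (hx.symm.trans hr)]
    exact h.sgr r' (sR _)
  · intro d hd
    obtain ⟨y, hy, hy'⟩ := (hG d).1 hd
    rw [sgA hy, sum_cycle_congr (E := E) (v := v) hy, sum_cycle_ret (E := E) (v := v) v0 y]
    have h1 := h.sum y hy'
    rw [← h1]
    refine Finset.sum_congr ?_ (fun x _ => vA x)
    ext x; simp only [Finset.mem_filter]
  · apply PB.of_ret v0
    rw [vsub]; exact h.pb
  · exact k1
  · intro x j hj
    by_cases hx : ∃ y : {x // A x}, E.SameCycle x y.1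
    · obtain ⟨y, hy, hy'⟩ := exists_prev k2 k3 hx
      rw [hy']; exact h.per y j hj
    · have hx' : ∀ y, E.SameCycle x y → ¬ A y := fun y hy hA' => hx ⟨⟨y, hA'⟩, hy⟩
      rw [k4 x hx', k4 x hx']
  · intro x j hx
    by_cases hx' : ∃ y : {x // A x}, E.SameCycle x y.1
    · obtain ⟨y, hy, hy'⟩ := exists_prev k2 k3 hx'
      rw [hy']
      exact h.κG y j (fun hG' => hx ((hG x).2 ⟨y, hy, hG'⟩))
    · exact k4 x (fun y hy hA' => hx' ⟨⟨y, hA'⟩, hy⟩) j
  · intro x hx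
    have hx' : ∃ y : {x // A x}, E.SameCycle x y.1 := ⟨r', hx.symm.trans hr⟩
    obtain ⟨y, hy, hy'⟩ := exists_prev k2 k3 hx'
    obtain ⟨ε, hε⟩ := h.deep y (ret_same_iff.2 ((hr.symm.trans hx).trans hy))
    exact ⟨ε, fun j hj => by rw [hy']; exact hε j hj⟩
  · intro w T ρ hw hT hρ hdeep
    have hT1 := TS.region hT hGE hGτ
    set w' : D → ℤ := fun x => if G x then w x else 0 with hw'
    set T' : D → ℕ → Prop := fun x j => if G x then T x j else True with hT'
    have w0 : ∀ x, ¬ A x → w' x = 0 := by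
      intro x hx
      simp only [hw']
      split_ifs with hGx
      · rw [hw x hGx]; exact v0 x hx
      · rfl
    have hT2 := Sys.TS.restrict hT1 hA w0
    have hT'G : ∀ x, G x → ∀ j, T' x j ↔ T x j := by
      intro x hx j
      simp only [hT']; rw [if_pos hx]
    have hG'G : ∀ y : {x // A x}, G' y → G y.1 := fun y hy => (hG y.1).2 ⟨y, sR _, hy⟩
    obtain ⟨c, hc⟩ := h.conn (fun x => w' x.1) (fun x j => T' x.1 j) (fun x => ρ x.1) (by
      intro y hy
      have h1 := hG'G y hy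
      simp only [hw']
      rw [if_pos h1, hw _ h1, vA]) hT2 (by
      intro x
      show ρ (retFun E A x.1) ↔ ρ x.1
      rw [retFun_eq]
      exact cyc_iff hρ (s_pow _ _)) (by
      intro x hx hxr j hj
      have h1 := hG'G x hx
      show T' x.1 j ↔ ρ x.1
      rw [hT'G _ h1]
      refine hdeep x.1 h1 (fun h' => hxr (ret_same_iff.2 (h'.trans hr))) j hj)
    refine ⟨c, ?_⟩
    have key : ∀ (m : ℕ) (y : {x // A x}), G' y → ∀ j, T ((E ^ m) y.1) j ↔ c := by
      intro m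
      induction m with
      | zero =>
        intro y hy j
        rw [pow_zero, Equiv.Perm.one_apply, ← hT'G _ (hG'G y hy)]
        exact hc y hy j
      | succ m ih =>
        intro y hy j
        have hGm : G ((E ^ (m + 1)) y.1) := (hG _).2 ⟨y, (s_pow _ _).symm, hy⟩
        by_cases hz : A ((E ^ (m + 1)) y.1)
        · obtain ⟨z, hz1, hz2⟩ := (hG _).1 hGm
          rw [← hT'G _ hGm]
          exact hc ⟨_, hz⟩ (hG'c z ⟨_, hz⟩ hz1.symm hz2) j
        · rw [← ih y hy j]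
          have e : (E ^ (m + 1)) y.1 = E ((E ^ m) y.1) := by rw [pow_succ']; rfl
          rw [e] at hz hGm ⊢
          exact hT.st ((E ^ m) y.1) j j (by rw [hw _ hGm, v0 _ hz]; ring)
    intro x hx j
    obtain ⟨y, h1, h2⟩ := (hG x).1 hx
    obtain ⟨n, hn⟩ := h1.symm.exists_nat_pow_eq
    rw [← hn]
    exact key n y h2 j

end Lift

end Pool.Agent.MP42.EO
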