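import Pool.Agent.MP42.EO.TTS
import Pool.Agent.MP42.EO.PB
import Pool.Agent.MP42.NE.BrA

/-!
# Restriction to the active positions

* `TTS.extend`: typed stacks on the active positions extend to all positions;
* `sum_cycle_ret`: the sum over a cycle is the sum over the cycle of the first return;
* `PB.of_ret`: the interval sums inside one period;
* `TS.region`: restriction to a region.
-/

set_option autoImplicit false

namespace Pool.Agent.MP42.EO

open Pool.Agent.Helper55.UNF Pool.Agent.MP42 Pool.Agent.MP42.NE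

variable {D : Type*} {E : Equiv.Perm D} {τ : D → D} {v : D → ℤ}

/-! ## Stacks on a region -/

open Classical in
/-- **restriction to a region** -/
theorem TS.region {T : D → ℕ → Prop} (h : TS E τ v T) {G : D → Prop} (hE : ∀ x, G (E x) ↔ G x)
    (hτ : ∀ x, G (τ x) ↔ G x) :
    TS E τ (fun x => if G x then v x else 0) (fun x j => if G x then T x j else True) where
  tt := h.tt
  vt := fun x => by
    by_cases hx : G x
    · rw [if_pos hx, if_pos ((hτ x).2 hx), h.vt]
    · rw [if_neg hx, if_neg (fun h' => hx ((hτ x).1 h'))]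
  st := fun x j k hk => by
    by_cases hx : G x
    · rw [if_pos ((hE x).2 hx)] at hk
      rw [if_pos ((hE x).2 hx), if_pos hx]
      exact h.st x j k hk
    · rw [if_neg (fun h' => hx ((hE x).1 h')), if_neg hx]
  pop := fun x i j hij => by
    have h1 : G (E.symm x) ↔ G x := by
      rw [← hE, Equiv.apply_symm_apply]
    have h2 : G (E.symm (τ x)) ↔ G x := by
      rw [← hE, Equiv.apply_symm_apply, hτ]
    by_cases hx : G x
    · rw [if_pos hx] at hij
      rw [if_pos (h1.2 hx), if_pos (h2.2 hx)]
      exact h.pop x i j hij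
    · rw [if_neg (fun h' => hx (h1.1 h')), if_neg (fun h' => hx (h2.1 h'))]
  push := fun x i j hij => by
    by_cases hx : G x
    · rw [if_pos hx] at hij
      rw [if_pos hx, if_pos ((hτ x).2 hx)]
      exact h.push x i j hij
    · rw [if_neg hx, if_neg (fun h' => hx ((hτ x).1 h'))]

/-- a predicate closed under a permutation of a finite type is invariant -/
lemma closed_iff [Finite D] {G : D → Prop} (h : ∀ x, G x → G (E x)) (x : D) : G (E x) ↔ G x := by
  refine ⟨fun hx => ?_, h x⟩
  have key : ∀ n : ℕ, G ((E ^ n) (E x)) := by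
    intro n
    induction n with
    | zero => exact hx
    | succ n ih =>
      rw [pow_succ', Equiv.Perm.mul_apply]
      exact h _ ih
  have h1 : (E ^ (orderOf E - 1)) (E x) = x := by
    have h2 : (E ^ (orderOf E - 1)) (E x) = (E ^ orderOf E) x := by
      conv_rhs => rw [← Nat.sub_add_cancel (orderOf_pos E), pow_succ]
      rfl
    rw [h2, pow_orderOf_eq_one]; rfl
  rw [← h1]
  exact key _

/-- the same for an involution -/
lemma closed_iff' {G : D → Prop} (tt : ∀ x, τ (τ x) = x) (h : ∀ x, G x → G (τ x)) (x : D) :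
    G (τ x) ↔ G x :=
  ⟨fun hx => by have := h _ hx; rwa [tt] at this, h x⟩

/-! ## Extension of typed stacks -/

section Ext

variable [Finite D] {A : D → Prop} {ok : D → Bool → Bool → Bool → Prop}

/-- there is an active position at `x` or before it -/
def TResB (E : Equiv.Perm D) (A : D → Prop) (x : D) : Prop := ∃ j : ℕ, A ((E.symm ^ j) x)

open Classical in
/-- the extension -/
noncomputable def tex (E : Equiv.Perm D) (A : D → Prop) (κ : {x // A x} → ℕ → Bool) (x : D) :
    ℕ → Bool :=
  if h : TResB E A x then κ ⟨(E.symm ^ (srch E.symm A x)) x, srch_spec h⟩ else fun _ => false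

omit [Finite D] in
lemma tex_act {κ : {x // A x} → ℕ → Bool} (x : {x // A x}) : tex E A κ x.1 = κ x := by
  have h : TResB E A x.1 := ⟨0, x.2⟩
  unfold tex
  rw [dif_pos h]
  congr 1
  apply Subtype.ext
  show (E.symm ^ (srch E.symm A x.1)) x.1 = x.1
  rw [srch_zero x.2]; rfl

omit [Finite D] in
lemma tex_not {κ : {x // A x} → ℕ → Bool} {x : D} (h : ¬ A (E x)) :
    tex E A κ (E x) = tex E A κ x := by
  have h1 : ∀ j : ℕ, (E.symm ^ (j + 1)) (E x) = (E.symm ^ j) x := by
    intro j
    rw [pow_succ, Equiv.Perm.mul_apply, Equiv.symm_apply_apply]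
  have h2 : TResB E A (E x) ↔ TResB E A x := by
    constructor
    · rintro ⟨j, hj⟩
      rcases j with _ | j
      · exact absurd hj h
      · exact ⟨j, by rwa [h1] at hj⟩
    · rintro ⟨j, hj⟩
      exact ⟨j + 1, by rwa [h1]⟩
  by_cases h3 : TResB E A x
  · have h4 := h2.2 h3
    unfold tex
    rw [dif_pos h3, dif_pos h4]
    congr 1
    apply Subtype.ext
    show (E.symm ^ (srch E.symm A (E x))) (E x) = (E.symm ^ (srch E.symm A x)) x
    rw [srch_step h h4, Equiv.symm_apply_apply, h1]
  · have h4 : ¬ TResB E A (E x) := fun h' => h3 (h2.1 h')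
    unfold tex
    rw [dif_neg h3, dif_neg h4]

omit [Finite D] in
lemma tex_pow {κ : {x // A x} → ℕ → Bool} (n : ℕ) (x : D) :
    (∀ i < n, ¬ A ((E ^ (i + 1)) x)) → tex E A κ ((E ^ n) x) = tex E A κ x := by
  induction n with
  | zero => intro _; rfl
  | succ n ih =>
    intro hx
    rw [← ih (fun i hi => hx i (by omega))]
    have h1 := hx n (by omega)
    rw [pow_succ', Equiv.Perm.mul_apply] at h1 ⊢
    exact tex_not h1

/-- the value before an active position -/
lemma tex_symm {κ : {x // A x} → ℕ → Bool} (x : {x // A x}) :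
    tex E A κ (E.symm x.1) = κ ((ret E A).symm x) := by
  obtain ⟨n, h1, h2⟩ := Sys.ret_symm (A := A) E x
  have h3 : E.symm x.1 = (E ^ n) ((ret E A).symm x).1 := by
    rw [Equiv.symm_apply_eq, ← h1, pow_succ', Equiv.Perm.mul_apply]
  rw [h3, tex_pow n _ h2, tex_act]

/-- **extension of typed stacks** -/
theorem TTS.extend (hA : ∀ x, A x → A (τ x)) (h0 : ∀ x, ¬ A x → v x = 0)
    {κ : {x // A x} → ℕ → Bool}
    (h : TTS (ret E A) (fun x => ⟨τ x.1, hA x.1 x.2⟩) (fun x => v x.1) (fun x => ok x.1) κ) :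
    ∃ κ' : D → ℕ → Bool, TTS E τ v ok κ' ∧ (∀ x : {x // A x}, κ' x.1 = κ x) ∧
      (∀ x, ¬ A (E x) → κ' (E x) = κ' x) ∧
      (∀ x, (∀ y, E.SameCycle x y → ¬ A y) → ∀ j, κ' x j = false) := by
  refine ⟨tex E A κ, ⟨?_, ?_, ?_⟩, tex_act, fun x hx => tex_not hx, ?_⟩
  · intro x j k hk
    by_cases hx : A (E x)
    · have h1 := h.st ((ret E A).symm ⟨E x, hx⟩) j k (by
        rw [Equiv.apply_symm_apply]
        exact hk)
      rw [Equiv.apply_symm_apply, ← tex_act (κ := κ) (E := E), ← tex_symm (κ := κ)] at h1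
      rwa [show E.symm (⟨E x, hx⟩ : {x // A x}).1 = x from E.symm_apply_apply x] at h1
    · rw [tex_not hx]
      have h1 := h0 _ hx
      rw [show k = j by omega]
  · intro x i j hij
    have hx : A x := by
      by_contra hx
      have := h0 x hx
      omega
    have h1 := h.pop ⟨x, hx⟩ i j hij
    rw [← tex_symm (κ := κ), ← tex_symm (κ := κ)] at h1
    exact h1
  · intro x i j hij
    have hx : A x := by
      by_contra hx
      have := h0 x hx
      omega
    have h1 := h.push ⟨x, hx⟩ i j hij
    rw [← tex_act (κ := κ) (E := E), ← tex_act (κ := κ) (E := E)] at h1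
    exact h1
  · intro x hx j
    unfold tex
    rw [dif_neg]
    rintro ⟨n, hn⟩
    refine hx _ ?_ hn
    exact ⟨-(n : ℤ), by rw [zpow_neg, zpow_natCast, ← inv_pow]; rfl⟩

end Ext

/-! ## Sums -/

section Sum

variable {A : D → Prop}

/-- **the sum over a cycle** -/
theorem sum_cycle_ret [Fintype D] [Fintype {x // A x}] (h0 : ∀ x, ¬ A x → v x = 0)
    (d : {x // A x}) [DecidablePred fun x => E.SameCycle d.1 x]
    [DecidablePred fun x => (ret E A).SameCycle d x] :
    ∑ x ∈ Finset.univ.filter (fun x => E.SameCycle d.1 x), v x =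
      ∑ x ∈ Finset.univ.filter (fun x => (ret E A).SameCycle d x), v x.1 := by
  classical
  have e1 : ∑ x ∈ Finset.univ.filter (fun x => E.SameCycle d.1 x), v x =
      ∑ x ∈ Finset.univ.filter (fun x => E.SameCycle d.1 x ∧ A x), v x := by
    symm
    apply Finset.sum_subset
    · intro x hx
      simp only [Finset.mem_filter, Finset.mem_univ, true_and] at hx ⊢
      exact hx.1
    · intro x hx hx'
      simp only [Finset.mem_filter, Finset.mem_univ, true_and] at hx hx'
      exact h0 x (fun h' => hx' ⟨hx, h'⟩)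
  rw [e1]
  symm
  apply Finset.sum_bij (fun (x : {x // A x}) _ => x.1)
  · intro x hx
    simp only [Finset.mem_filter, Finset.mem_univ, true_and] at hx ⊢
    refine ⟨?_, x.2⟩
    obtain ⟨n, hn⟩ := hx.exists_nat_pow_eq
    have hall : ∀ n : ℕ, E.SameCycle d.1 ((ret E A ^ n) d).1 := by
      intro n
      induction n with
      | zero => exact Equiv.Perm.SameCycle.refl _ _
      | succ n ih =>
        rw [pow_succ', Equiv.Perm.mul_apply, ret_val, retFun_eq]
        exact ih.trans ⟨((retN E A ((ret E A ^ n) d).1 + 1 : ℕ) : ℤ), by rw [zpow_natCast]⟩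
    rw [← hn]
    exact hall n
  · intro x _ x' _ hxx
    exact Subtype.ext hxx
  · intro x hx
    simp only [Finset.mem_filter, Finset.mem_univ, true_and] at hx
    refine ⟨⟨x, hx.2⟩, ?_, rfl⟩
    simp only [Finset.mem_filter, Finset.mem_univ, true_and]
    exact ret_sameCycle hx.1
  · intro x _; rfl

/-- cycles without active positions -/
theorem sum_cycle_zero [Fintype D] (h0 : ∀ x, ¬ A x → v x = 0) (d : D)
    [DecidablePred fun x => E.SameCycle d x] (hd : ∀ x, E.SameCycle d x → ¬ A x) :
    ∑ x ∈ Finset.univ.filter (fun x => E.SameCycle d x), v x = 0 := by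
  apply Finset.sum_eq_zero
  intro x hx
  simp only [Finset.mem_filter, Finset.mem_univ, true_and] at hx
  exact h0 x (hd x hx)

/-- the sum depends on the cycle only -/
theorem sum_cycle_congr [Fintype D] {d d' : D} (h : E.SameCycle d d')
    [DecidablePred fun x => E.SameCycle d x] [DecidablePred fun x => E.SameCycle d' x] :
    ∑ x ∈ Finset.univ.filter (fun x => E.SameCycle d x), v x =
      ∑ x ∈ Finset.univ.filter (fun x => E.SameCycle d' x), v x := by
  apply Finset.sum_congr _ (fun _ _ => rfl)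
  ext x
  simp only [Finset.mem_filter, Finset.mem_univ, true_and]
  exact ⟨fun h' => h.symm.trans h', fun h' => h.trans h'⟩

/-- the active positions among the first `n` -/
lemma act_count [Finite D] (h0 : ∀ x, ¬ A x → v x = 0) (x : {x // A x}) (n : ℕ) :
    ∃ m c : ℕ, m ≤ n ∧ n ≤ c ∧ ((ret E A ^ m) x).1 = (E ^ c) x.1 ∧
      (∀ i, n ≤ i → i < c → ¬ A ((E ^ i) x.1)) ∧
      (∀ i < m, ∃ b < n, i ≤ b ∧ ((ret E A ^ i) x).1 = (E ^ b) x.1) ∧
      ∑ i ∈ Finset.range n, v ((E ^ i) x.1) = ∑ i ∈ Finset.range m, v ((ret E A ^ i) x).1 := by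
  induction n with
  | zero => exact ⟨0, 0, le_rfl, le_rfl, rfl, fun i _ hi => by omega, fun i hi => by omega, rfl⟩
  | succ n ih =>
    obtain ⟨m, c, h1, h2, h3, h4, h5, h6⟩ := ih
    by_cases hc : c = n
    · subst hc
      refine ⟨m + 1, c + (retN E A ((E ^ c) x.1) + 1), by omega, by omega, ?_, ?_, ?_, ?_⟩
      · rw [pow_succ', Equiv.Perm.mul_apply, ret_val, retFun_eq, h3, ← Equiv.Perm.mul_apply,
          ← pow_add, Nat.add_comm]
      · intro i hi hi'
        have h7 := retN_not (π := E) (p := A) (x := (E ^ c) x.1) (j := i - c - 1) (by omega)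
        rw [← Equiv.Perm.mul_apply, ← pow_add, show i - c - 1 + 1 + c = i by omega] at h7
        exact h7
      · intro i hi
        by_cases hi' : i = m
        · subst hi'
          exact ⟨c, by omega, h1, h3⟩
        · obtain ⟨b, b1, b2, b3⟩ := h5 i (by omega)
          exact ⟨b, by omega, b2, b3⟩
      · rw [Finset.sum_range_succ, Finset.sum_range_succ, h6, h3]
    · refine ⟨m, c, by omega, by omega, h3, fun i hi hi' => h4 i (by omega) hi', ?_, ?_⟩
      · intro i hi
        obtain ⟨b, b1, b2, b3⟩ := h5 i hi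
        exact ⟨b, by omega, b2, b3⟩
      · rw [Finset.sum_range_succ, h6, h0 _ (h4 n le_rfl (by omega)), add_zero]

/-- **bounded interval sums** -/
theorem PB.of_ret [Finite D] (h0 : ∀ x, ¬ A x → v x = 0) {K : ℕ}
    (h : PB (ret E A) (fun x => v x.1) K) : PB E v K := by
  have key : ∀ (x : {x // A x}) (n : ℕ), (∀ i, 0 < i → i < n → (E ^ i) x.1 ≠ x.1) →
      |∑ i ∈ Finset.range n, v ((E ^ i) x.1)| ≤ K := by
    intro x n hn
    obtain ⟨m, c, h1, h2, h3, h4, h5, h6⟩ := act_count (v := v) h0 x n (E := E)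
    rw [h6]
    apply h x m
    intro i hi hi' hcon
    obtain ⟨b, b1, b2, b3⟩ := h5 i hi'
    rw [hcon] at b3
    exact hn b (by omega) b1 b3.symm
  intro x n hn
  by_cases hex : ∃ a < n, A ((E ^ a) x)
  · classical
    have ha := Nat.find_spec hex
    have hmin : ∀ i < Nat.find hex, ¬ A ((E ^ i) x) := by
      intro i hi hA
      exact Nat.find_min hex hi ⟨by omega, hA⟩
    revert ha hmin
    generalize Nat.find hex = a
    rintro ⟨ha, hA⟩ hmin
    have h1 : ∑ i ∈ Finset.range n, v ((E ^ i) x) =
        ∑ i ∈ Finset.range (n - a), v ((E ^ i) ((E ^ a) x)) := by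
      rw [← Finset.sum_range_add_sum_Ico _ ha.le]
      rw [Finset.sum_eq_zero (fun i hi => h0 _ (hmin i (Finset.mem_range.1 hi))), zero_add,
        Finset.sum_Ico_eq_sum_range]
      apply Finset.sum_congr rfl
      intro i _
      rw [← Equiv.Perm.mul_apply, ← pow_add, Nat.add_comm]
    rw [h1]
    apply key ⟨_, hA⟩
    intro i hi hi' hcon
    refine hn i hi (by omega) ?_
    have h2 : (E ^ a) ((E ^ i) x) = (E ^ a) x := by
      rw [← Equiv.Perm.mul_apply, ← pow_add, Nat.add_comm, pow_add, Equiv.Perm.mul_apply]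
      exact hcon
    exact (E ^ a).injective h2
  · simp only [not_exists, not_and] at hex
    rw [Finset.sum_eq_zero (fun i hi => h0 _ (hex i (Finset.mem_range.1 hi))), abs_zero]
    positivity

/-- restriction of the interval sums to a region -/
lemma PB.of_zero {K : ℕ} {G : D → Prop} (hE : ∀ x, G (E x) ↔ G x) (h0 : ∀ x, ¬ G x → v x = 0)
    (h : ∀ (x : D) (n : ℕ), G x → (∀ i, 0 < i → i < n → (E ^ i) x ≠ x) →
      |∑ i ∈ Finset.range n, v ((E ^ i) x)| ≤ K) : PB E v K := by
  intro x n hn
  by_cases hx : G x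
  · exact h x n hx hn
  · have h1 : ∀ i : ℕ, ¬ G ((E ^ i) x) := by
      intro i
      induction i with
      | zero => exact hx
      | succ i ih =>
        rw [pow_succ', Equiv.Perm.mul_apply, hE]
        exact ih
    rw [Finset.sum_eq_zero (fun i _ => h0 _ (h1 i)), abs_zero]
    positivity

end Sum

end Pool.Agent.MP42.EO
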