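import Pool.Agent.MP42.EO.VM

/-!
# Coordinates of the ribbons (owner helper70)
-/

set_option autoImplicit false
set_option linter.unusedSectionVars false

namespace Pool.Agent.MP42.EO

open Pool.Agent.Helper55.UNF Pool.Agent.Helper55.UNF.GridSolid Pool.Agent.MP42.NE
open Pool.Agent.MP42.Geo Pool.Agent.MP42NG Pool.Agent.MP42
open Loc8

variable {Q : GridSolid} {a b : Fin 3}

/-- the unit vector of a direction -/
def vec (d : Dir) (i : Fin 3) : ℤ := if i = d.1 then (if d.2 then 1 else -1) else 0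

lemma cor_rR_aux : ∀ d e : Dir, d.1 ≠ e.1 → ∀ i : Fin 3,
    offE d (opp (cross d e)) i + (if (i, true) = cross d (opp (cross d e)) then 1 else 0) =
      offE d e i + (if (i, true) = cross d e then 1 else 0) - vec (cross d e) i := by
  unfold offE vec; decide

lemma cor_rR (s : Q.FSt) (i : Fin 3) : cor s.rR.1 i = cor s.1 i - vec s.1.n i := by
  have h := cor_rR_aux s.1.d s.1.e s.2.2 i
  show s.1.c i + offE s.1.d (opp (cross s.1.d s.1.e)) i +
    (if (i, true) = cross s.1.d (opp (cross s.1.d s.1.e)) then 1 else 0) =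
    s.1.c i + offE s.1.d s.1.e i + (if (i, true) = cross s.1.d s.1.e then 1 else 0) -
      vec (cross s.1.d s.1.e) i
  rw [add_assoc, h]; ring

lemma rR_n (s : Q.FSt) : s.rR.1.n = s.1.e := cross_opp_cross s.1.d s.1.e s.2.2

lemma cor_r2 (s : Q.FSt) (i : Fin 3) : cor s.r2.1 i = cor s.1 i - vec s.1.e i - vec s.1.n i := by
  rw [← FSt.rR_rR, cor_rR, cor_rR, rR_n]; ring

lemma cor_stN_rR (s : Q.FSt) : cor s.stN.rR.1 = cor s.1 := by
  have h1 : kappa s.stN.rR = s := by
    show s.stN.rR.stE.rL = s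
    have h2 : s.stN.rR.stE = s.rR := by
      show (s.rL.stE.rR.rR).stE = s.rR
      rw [FSt.rR_rR, FSt.stE_inv, FSt.rL_r2]
    rw [h2, FSt.rR_rL]
  rw [← kappa_cor s.stN.rR, h1]

lemma cor_stN_r2 (s : Q.FSt) (i : Fin 3) : cor s.stN.r2.1 i = cor s.1 i - vec s.1.e i := by
  rw [← FSt.rR_rR, cor_rR, cor_stN_rR, rR_n]
  have h : s.stN.1.e = s.1.e := FSt.stN_e s
  rw [h]

/-- the sign of the east direction of a wall dart -/
def up (x : RD Q a b) : Bool := x.1.1.1.e.2

lemma bit_wall (x : RD Q a b) (h : x.1.1.1.e.1 = a) :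
    (lo x % 8).testBit (a : ℕ) = !(up x) := by
  have h1 := cr_e x.1.1.1.d x.1.1.1.e x.1.1.2.2
  have h2 : ((x.1.1.1.e.1 : Fin 3) : ℕ) = (a : ℕ) := congrArg Fin.val h
  unfold lo up
  rw [loc_mod]
  rwa [h2] at h1

lemma lo_div (x : RD Q a b) : lo x / 8 = (x.1.1.1.d.1 : ℕ) := loc_div _

lemma wall_or_cap (x : RD Q a b) : x.1.1.1.e.1 = a ∨ x.1.1.1.d.1 = a := x.1.2.symm

lemma tH_wall (hab : a ≠ b) {x : RD Q a b} (h : x.1.1.1.e.1 = a) :
    (tH hab x).1.1.1.e.1 = a ∧ up (tH hab x) = !(up x) ∧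
      ∀ i, pt (tH hab x) i = pt x i - vec (a, up x) i := by
  have h1 : ¬ x.1.1.1.d.1 = a := fun h' => x.1.1.2.2 (h'.trans h.symm)
  have h2 : (tH hab x).1.1 = x.1.1.stN.r2 := by
    rw [tH_val]; unfold taF; rw [if_neg h1]
  have h3 : x.1.1.1.e = (a, up x) := Prod.ext h rfl
  unfold up pt
  rw [h2]
  refine ⟨?_, ?_, ?_⟩
  · show x.1.1.stN.1.e.1 = a
    rw [FSt.stN_e]; exact h
  · show (!x.1.1.stN.1.e.2) = !x.1.1.1.e.2
    rw [FSt.stN_e]
  · intro i
    rw [cor_stN_r2, h3]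

lemma tH_cap (hab : a ≠ b) {x : RD Q a b} (h : x.1.1.1.d.1 = a) :
    (tH hab x).1.1 = x.1.1.r2 := by
  rw [tH_val]; unfold taF; rw [if_pos h]

lemma vec_cap_aux : ∀ d e : Dir, d.1 ≠ e.1 → ∀ i : Fin 3, i ≠ d.1 →
    vec e i + vec (cross d e) i = if (cr d e).testBit (i : ℕ) then -1 else 1 := by
  unfold vec; decide

lemma pt_tH_cap (hab : a ≠ b) {x : RD Q a b} (h : x.1.1.1.d.1 = a) {i : Fin 3} (hi : i ≠ a) :
    pt (tH hab x) i = pt x i - (if (lo x % 8).testBit (i : ℕ) then -1 else 1) := by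
  have h1 := vec_cap_aux x.1.1.1.d x.1.1.1.e x.1.1.2.2 i (by rw [h]; exact hi)
  unfold pt
  rw [tH_cap hab h, cor_r2]
  unfold lo
  rw [loc_mod, ← h1]
  show _ = cor x.1.1.1 i - (vec x.1.1.1.e i + vec x.1.1.1.n i)
  ring

lemma flip_aux : ∀ d e : Dir, d.1 ≠ e.1 → ∀ i : Fin 3, i ≠ d.1 →
    (cr d (opp e)).testBit (i : ℕ) = !(cr d e).testBit (i : ℕ) := by decide

lemma bit_tH_cap (hab : a ≠ b) {x : RD Q a b} (h : x.1.1.1.d.1 = a) {i : Fin 3} (hi : i ≠ a) :
    (lo (tH hab x) % 8).testBit (i : ℕ) = !(lo x % 8).testBit (i : ℕ) := by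
  have h1 := flip_aux x.1.1.1.d x.1.1.1.e x.1.1.2.2 i (by rw [h]; exact hi)
  unfold lo
  rw [loc_mod, loc_mod, tH_cap hab h]
  exact h1

lemma tH_cap_d (hab : a ≠ b) {x : RD Q a b} (h : x.1.1.1.d.1 = a) :
    (tH hab x).1.1.1.d.1 = a := by
  rw [tH_cap hab h]; exact h

/-! ## Refinement -/

lemma shx_of_bits : ∀ m < 256, ∀ i < 3, (∀ j < 8, m.testBit (j ^^^ 2 ^ i) = m.testBit j) →
    shx i m = m := by decide +kernel

variable {P : GridSolid} {n : ℕ}

lemma div_pred {n : ℕ} (hn : 0 < n) {z : ℤ} (h : ¬ (n : ℤ) ∣ z) :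
    (z - 1) / (n : ℤ) = z / (n : ℤ) := by
  have hn' : (0 : ℤ) < n := by exact_mod_cast hn
  have h1 := Int.mul_ediv_add_emod z n
  have h2 := Int.emod_nonneg z hn'.ne'
  have h3 := Int.emod_lt_of_pos z hn'
  have h4 : z % n ≠ 0 := fun h4 => h (Int.dvd_of_emod_eq_zero h4)
  have e : z - 1 = (z % n - 1) + n * (z / n) := by linarith
  rw [e, Int.add_mul_ediv_left _ _ hn'.ne', Int.ediv_eq_zero_of_lt (by omega) (by omega), zero_add]

/-- off the old grid planes the pattern does not depend on the coordinate -/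
lemma pat_sym (hn : 0 < n) (v : Fin 3 → ℤ) (i : Fin 3) (h : ¬ (n : ℤ) ∣ v i) :
    shx (i : ℕ) (pat (P.refine n hn) v) = pat (P.refine n hn) v := by
  apply shx_of_bits _ (pat_lt _) _ i.2
  intro j hj
  rw [pat_bit _ _ (xor_lt j hj i), pat_bit _ _ hj, decide_eq_decide, mem_refine, mem_refine]
  have e : (fun k => corner v (bits (j ^^^ 2 ^ (i : ℕ))) k / (n : ℤ)) =
      fun k => corner v (bits j) k / (n : ℤ) := by
    rw [bits_xor j hj]
    funext k
    by_cases hk : k = i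
    · subst hk
      unfold corner
      rw [Function.update_self]
      cases bits j k
      · simp [div_pred hn h]
      · simp [div_pred hn h]
    · unfold corner
      rw [Function.update_of_ne hk]
  rw [e]

/-- on the old grid points the pattern is the old one -/
lemma pat_old (hn : 0 < n) (v : Fin 3 → ℤ) (h : ∀ i, (n : ℤ) ∣ v i) :
    pat (P.refine n hn) v = pat P (fun i => v i / n) := by
  have hn' : (0 : ℤ) < n := by exact_mod_cast hn
  apply Nat.eq_of_testBit_eq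
  intro j
  by_cases hj : j < 8
  · rw [pat_bit _ _ hj, pat_bit _ _ hj, decide_eq_decide, mem_refine]
    have e : (fun k => corner v (bits j) k / (n : ℤ)) = corner (fun i => v i / n) (bits j) := by
      funext k
      obtain ⟨w, hw⟩ := h k
      have h1 : v k / (n : ℤ) = w := by rw [hw]; exact Int.mul_ediv_cancel_left _ hn'.ne'
      unfold corner
      show (if bits j k = true then v k else v k - 1) / (n : ℤ) =
        if bits j k = true then v k / (n : ℤ) else v k / (n : ℤ) - 1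
      rw [h1]
      cases bits j k
      · simp only [Bool.false_eq_true, if_false]
        rw [hw, show (n : ℤ) * w - 1 = (n - 1) + n * (w - 1) by ring,
          Int.add_mul_ediv_left _ _ hn'.ne', Int.ediv_eq_zero_of_lt (by omega) (by omega), zero_add]
      · simp only [if_true]
        exact h1
    rw [e]
  · have h8 : 2 ^ 8 ≤ 2 ^ j := Nat.pow_le_pow_right (by norm_num) (by omega)
    rw [Nat.testBit_lt_two_pow (lt_of_lt_of_le (pat_lt _) h8),
      Nat.testBit_lt_two_pow (lt_of_lt_of_le (pat_lt _) h8)]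

end Pool.Agent.MP42.EO
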