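import Pool.Agent.MP42.EO.VC
import Pool.Agent.MP42.EO.Bfs
import Pool.Agent.MP42.H.Refine

/-!
# The local facts of the spine system of a refinement (owner helper70)
-/

set_option autoImplicit false
set_option linter.unusedSectionVars false

namespace Pool.Agent.MP42.EO

open Pool.Agent.Helper55.UNF Pool.Agent.Helper55.UNF.GridSolid Pool.Agent.MP42.NE
open Pool.Agent.MP42.Geo Pool.Agent.MP42NG Pool.Agent.MP42 Pool.Agent.MP42H
open Loc8

section Abs

variable {X : Type*} {E : Equiv.Perm X} {τ : X → X}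

/-- if the other ribbons at a point are good, the last one is good -/
lemma vert_good (ττ : ∀ x, τ (τ x) = x)
    (n3 : ∀ x, Big E τ x → nu E τ (nu E τ (nu E τ x)) = x) {ψ : X → Prop}
    (hE : ∀ x, ψ (E x) ↔ ψ x) (x : X)
    (h1 : nu E τ x ≠ x → (ψ (τ (nu E τ x)) ↔ ψ (nu E τ x)))
    (h2 : nu E τ (nu E τ x) ≠ x → (ψ (τ (nu E τ (nu E τ x))) ↔ ψ (nu E τ (nu E τ x)))) :
    ψ (τ x) ↔ ψ x := by
  have step : ∀ z, ψ (τ (nu E τ z)) ↔ ψ z := by
    intro z
    unfold nu
    rw [ττ]; exact hE z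
  by_cases c1 : nu E τ x = x
  · have := step x
    rwa [c1] at this
  · by_cases c2 : nu E τ (nu E τ x) = x
    · have h3 := step (nu E τ x)
      rw [c2] at h3
      rw [h3, ← h1 c1]
      exact step x
    · have h3 := n3 x ⟨c1, c2⟩
      have h4 := step (nu E τ (nu E τ x))
      rw [h3] at h4
      rw [h4, ← h2 c2, step (nu E τ x), ← h1 c1]
      exact step x

end Abs

variable {P : GridSolid} {n : ℕ} {hn : 0 < n} {a b : Fin 3}

/-! ## Big points are old grid points -/

lemma big_dvd (hM : (P.refine n hn).IsManifold) (hab : a ≠ b) (x : RD (P.refine n hn) a b)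
    (h : Big (EH hab) (tH hab) x) (i : Fin 3) : (n : ℤ) ∣ pt x i := by
  by_contra hi
  have h1 := pat_sym (P := P) hn (pt x) i hi
  have h2 := x.fact f1_all hM hab
  unfold f1 at h2
  rw [(big_iff hab x).1 h] at h2
  simp only [Bool.and_eq_true, Bool.not_true, Bool.false_or, List.all_eq_true,
    List.mem_range] at h2
  have h3 := h2.1.2 i i.2
  have h4 : shx (i : ℕ) (pa x) = pa x := h1
  rw [h4] at h3
  simp at h3

lemma vec_a (s : Bool) : vec (a, s) a = if s then 1 else -1 := if_pos rfl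

/-- **no unit has two big ends** -/
theorem g3H (hn2 : 2 ≤ n) (hM : (P.refine n hn).IsManifold) (hab : a ≠ b)
    (x : RD (P.refine n hn) a b) :
    ¬ (Big (EH hab) (tH hab) x ∧ Big (EH hab) (tH hab) (tH hab x)) := by
  rintro ⟨h1, h2⟩
  have key : ∀ i : Fin 3, ∀ z : ℤ, (z = 1 ∨ z = -1) → pt (tH hab x) i = pt x i - z → False := by
    intro i z hz h3
    have h4 := big_dvd hM hab x h1 i
    have h5 := big_dvd hM hab _ h2 i
    rw [h3] at h5
    have h6 : (n : ℤ) ∣ z := (dvd_sub_right h4).1 h5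
    have h7 : (n : ℤ) ∣ 1 := by
      rcases hz with rfl | rfl
      · exact h6
      · exact (dvd_neg).1 h6
    have h8 := Int.le_of_dvd (by norm_num) h7
    omega
  rcases wall_or_cap x with h | h
  · obtain ⟨-, -, h3⟩ := tH_wall hab h
    refine key a (vec (a, up x) a) ?_ (h3 a)
    rw [vec_a]
    cases up x <;> simp
  · refine key b _ ?_ (pt_tH_cap hab h hab.symm)
    cases (lo x % 8).testBit (b : ℕ) <;> simp

/-! ## Middle real units -/

/-- middle real units -/
def MR (hab : a ≠ b) (x : RD (P.refine n hn) a b) : Prop :=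
  Real x.1 ∧ ¬ Big (EH hab) (tH hab) x ∧ ¬ Big (EH hab) (tH hab) (tH hab x)

/-- next to a big end there is a middle real unit -/
lemma next_MR (hn3 : 3 ≤ n) (hM : (P.refine n hn).IsManifold) (hab : a ≠ b)
    (x : RD (P.refine n hn) a b) (hr : Real x.1) (hx : Big (EH hab) (tH hab) x) :
    MR hab (nu (EH hab) (tH hab) (tH hab x)) ∧
      nu (EH hab) (tH hab) (nu (EH hab) (tH hab) (tH hab x)) = tH hab x := by
  have hr' : x.1.1.1.d.1 = a := hr
  set w := tH hab x with hw
  set y := nu (EH hab) (tH hab) w with hy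
  have hwd : w.1.1.1.d.1 = a := tH_cap_d hab hr'
  have hd : ∀ i, (n : ℤ) ∣ pt x i := big_dvd hM hab x hx
  have c_lt : thd (a : ℕ) b < 3 := (thd_lt a a.2 b b.2 (fun h => hab (Fin.ext h))).1
  set c : Fin 3 := ⟨thd (a : ℕ) b, c_lt⟩ with hc
  have hca : c ≠ a := fun h => (thd_lt a a.2 b b.2 (fun h => hab (Fin.ext h))).2.1
    (congrArg Fin.val h)
  have hpw : ∀ i : Fin 3, i ≠ a → pt w i = pt x i - (if (lo x % 8).testBit (i : ℕ) then -1 else 1) :=
    fun i hi => pt_tH_cap hab hr' hi
  have hndvd : ∀ (z t : ℤ), (n : ℤ) ∣ z → (t = 1 ∨ t = -1 ∨ t = 2 ∨ t = -2) →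
      ¬ (n : ℤ) ∣ z - t := by
    intro z t h1 ht h2
    have h3 : (n : ℤ) ∣ t := (dvd_sub_right h1).1 h2
    have h4 : (n : ℤ) ∣ 2 := by
      rcases ht with rfl | rfl | rfl | rfl
      · exact h3.trans ⟨2, by norm_num⟩
      · exact ((dvd_neg).1 h3).trans ⟨2, by norm_num⟩
      · exact h3
      · exact (dvd_neg).1 h3
    have := Int.le_of_dvd (by norm_num) h4
    omega
  have hsymw : ∀ i : Fin 3, i ≠ a → shx (i : ℕ) (pa w) = pa w := by
    intro i hi
    apply pat_sym hn
    rw [hpw i hi]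
    apply hndvd _ _ (hd i)
    cases (lo x % 8).testBit (i : ℕ) <;> simp
  have hpy : pt y = pt w := pt_nu hab w
  have hay : pa y = pa w := pa_nu hab w
  -- the interior of the facet
  have hflip : ∀ z : RD (P.refine n hn) a b, pa z = pa w → z.1.1.1.d.1 = a →
      lo (nu (EH hab) (tH hab) z) = (lo z % 8 ^^^ 2 ^ (b : ℕ) ^^^ 2 ^ thd (a : ℕ) b) + 8 * a := by
    intro z hz hzd
    have h1 := z.fact f1_all hM hab
    unfold f1 at h1
    rw [Bool.and_eq_true] at h1
    have h2 := h1.2
    rw [hz, hsymw b hab.symm] at h2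
    have h3 : shx (thd (a : ℕ) b) (pa w) = pa w := hsymw c hca
    rw [h3, lo_div, hzd] at h2
    simp only [beq_self_eq_true, Bool.not_true, Bool.false_or, beq_iff_eq] at h2
    rw [lo_nu, hz]
    exact h2
  have hloy := hflip w rfl hwd
  have h8 : ∀ q < 8, (q ^^^ 2 ^ (b : ℕ) ^^^ 2 ^ thd (a : ℕ) b) < 8 := fun q hq =>
    (flip_flip q hq b b.2 _ c_lt).1
  have hlow8 : lo w % 8 < 8 := Nat.mod_lt _ (by norm_num)
  have hloy8 : lo y % 8 = lo w % 8 ^^^ 2 ^ (b : ℕ) ^^^ 2 ^ thd (a : ℕ) b := by
    rw [hloy]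
    have := h8 _ hlow8
    omega
  have hyd : y.1.1.1.d.1 = a := by
    have h1 : lo y / 8 = (a : ℕ) := by
      rw [hloy]
      have := h8 _ hlow8
      omega
    rw [lo_div] at h1
    exact Fin.ext h1
  have hbit : ∀ i : Fin 3, i ≠ a → (lo y % 8).testBit (i : ℕ) = (lo x % 8).testBit (i : ℕ) := by
    intro i hi
    rw [hloy8, flip2 a b i hab hi _ hlow8, bit_tH_cap hab hr' hi, Bool.not_not]
  have hba : b ≠ a := hab.symm
  refine ⟨⟨hyd, ?_, ?_⟩, ?_⟩
  · intro hbig
    have h1 := big_dvd hM hab y hbig b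
    rw [hpy, hpw b hba] at h1
    refine hndvd _ _ (hd b) ?_ h1
    cases (lo x % 8).testBit (b : ℕ) <;> simp
  · intro hbig
    have h1 := big_dvd hM hab _ hbig b
    rw [pt_tH_cap hab hyd hba, hpy, hpw b hba, hbit b hba, sub_sub] at h1
    refine hndvd _ _ (hd b) ?_ h1
    cases (lo x % 8).testBit (b : ℕ) <;> norm_num
  · rw [eq_iff_lo (by rw [pt_nu, hpy])]
    rw [hflip y hay hyd, hloy8, (flip_flip _ hlow8 b b.2 _ c_lt).2]
    have h1 : lo w / 8 = (a : ℕ) := by rw [lo_div, hwd]
    omega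

/-! ## The two faces of a ribbon are connected -/

section Conn

variable (hn3 : 3 ≤ n) (hM : (P.refine n hn).IsManifold) (hab : a ≠ b)
  (hB : ∀ v, noB a b (pat (P.refine n hn) v) = true) {ψ : RD (P.refine n hn) a b → Prop}
  (hE : ∀ x, ψ (EH hab x) ↔ ψ x) (hψ : ∀ x, MR hab x → (ψ (tH hab x) ↔ ψ x))

include hn3 hM hB hE hψ

lemma good_real (x : RD (P.refine n hn) a b) (hr : Real x.1) : ψ (tH hab x) ↔ ψ x := by
  have key : ∀ x : RD (P.refine n hn) a b, Real x.1 → Big (EH hab) (tH hab) x →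
      (ψ (tH hab x) ↔ ψ x) := by
    intro x hr hx
    obtain ⟨h1, h2⟩ := next_MR hn3 hM hab x hr hx
    have h3 := vert_good (tH_tH hab) (n3H hab hB) hE (tH hab x) (fun _ => hψ _ h1)
      (fun h => absurd h2 h)
    rw [tH_tH] at h3
    exact h3.symm
  by_cases h1 : Big (EH hab) (tH hab) x
  · exact key x hr h1
  · by_cases h2 : Big (EH hab) (tH hab) (tH hab x)
    · have h3 := key _ (show Real (tH hab x).1 from tH_cap_d hab hr) h2
      rw [tH_tH] at h3
      exact h3.symm
    · exact hψ x ⟨hr, h1, h2⟩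

theorem connH (x : RD (P.refine n hn) a b) : ψ (tH hab x) ↔ ψ x := by
  classical
  -- the walls with the direction `up`
  have hup : ∀ x : RD (P.refine n hn) a b, x.1.1.1.e.1 = a → up x = true →
      (ψ (tH hab x) ↔ ψ x) := by
    by_contra hcon
    push Not at hcon
    obtain ⟨x1, hx1, hx1', hx1''⟩ := hcon
    let B := {x : RD (P.refine n hn) a b // x.1.1.1.e.1 = a ∧ up x = true ∧
      ¬ (ψ (tH hab x) ↔ ψ x)}
    have : Nonempty B := ⟨⟨x1, hx1, hx1', by rw [not_iff]; tauto⟩⟩
    obtain ⟨x0, hmin⟩ := Finite.exists_min (fun x : B => pt x.1 a)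
    obtain ⟨he, hu, hbad⟩ := x0.2
    obtain ⟨hw1, hw2, hw3⟩ := tH_wall hab he
    apply hbad
    set w := tH hab x0.1 with hw
    have hpw : pt w a < pt x0.1 a := by
      rw [hw3 a, vec_a, hu]; simp
    have hwup : up w = false := by rw [hw2, hu]; rfl
    have hbw : (lo w % 8).testBit (a : ℕ) = true := by rw [bit_wall w hw1, hwup]; rfl
    have hwl : wl a (lo w) = true := by
      unfold wl
      rw [beq_iff_eq]
      show eax (loc w.1.1 % 8) (loc w.1.1 / 8) = _
      rw [eax_loc]
      exact congrArg Fin.val hw1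
    -- the other ribbons at the point
    have good : ∀ y : RD (P.refine n hn) a b, pt y = pt w → y ≠ w →
        (wl a (lo y) = true → lo y = lo w ∨ ¬ (lo w % 8).testBit (a : ℕ) =
          (lo y % 8).testBit (a : ℕ)) → (ψ (tH hab y) ↔ ψ y) := by
      intro y hy hyw hbit
      rcases wall_or_cap y with hyd | hyd
      · have hyl : wl a (lo y) = true := by
          unfold wl
          rw [beq_iff_eq]
          show eax (loc y.1.1 % 8) (loc y.1.1 / 8) = _
          rw [eax_loc]
          exact congrArg Fin.val hyd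
        rcases hbit hyl with h1 | h1
        · exact absurd ((eq_iff_lo hy).2 h1) hyw
        · have h2 : up y = true := by
            rw [hbw, bit_wall y hyd] at h1
            revert h1
            cases up y <;> simp
          by_contra hng
          have h3 := hmin ⟨y, hyd, h2, hng⟩
          have h4 : pt x0.1 a ≤ pt y a := h3
          rw [hy] at h4
          omega
      · exact good_real hn3 hM hab hB hE hψ y hyd
    have hf := w.fact f2_all hM hab
    unfold f2 at hf
    rw [hwl, Bool.and_eq_true] at hf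
    have h3 := vert_good (tH_tH hab) (n3H hab hB) hE w
      (fun hne => good _ (pt_nu hab w) hne (fun hl => by
        rw [lo_nu] at hl ⊢
        have h4 := hf.1
        rw [hl] at h4
        simp only [Bool.not_true, Bool.false_or, Bool.or_eq_true, beq_iff_eq,
          Bool.not_eq_true', beq_eq_false_iff_ne, ne_eq] at h4
        exact h4))
      (fun hne => good _ (by rw [pt_nu, pt_nu]) hne (fun hl => by
        rw [lo_nu, pa_nu, lo_nu] at hl ⊢
        have h4 := hf.2
        rw [hl] at h4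
        simp only [Bool.not_true, Bool.false_or, Bool.or_eq_true, beq_iff_eq,
          Bool.not_eq_true', beq_eq_false_iff_ne, ne_eq] at h4
        exact h4))
    rw [hw, tH_tH] at h3
    exact h3.symm
  rcases wall_or_cap x with h | h
  · by_cases h1 : up x = true
    · exact hup x h h1
    · obtain ⟨hw1, hw2, -⟩ := tH_wall hab h
      have h2 := hup (tH hab x) hw1 (by
        rw [hw2]
        revert h1
        cases up x <;> simp)
      rw [tH_tH] at h2
      exact h2.symm
  · exact good_real hn3 hM hab hB hE hψ x h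

end Conn

end Pool.Agent.MP42.EO
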