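import Pool.Agent.MP42.EO.VG
import Pool.Agent.MP42.EO.GF6

/-!
# The ribbon darts as a rotation system (owner helper70)
-/

set_option autoImplicit false
set_option linter.unusedSectionVars false

namespace Pool.Agent.MP42.EO

open Pool.Agent.Helper55.UNF Pool.Agent.Helper55.UNF.GridSolid Pool.Agent.MP42.NE
open Pool.Agent.MP42.Geo Pool.Agent.MP42NG Pool.Agent.MP42
open Loc8

variable {Q : GridSolid} {a b : Fin 3}

/-- the ribbon darts -/
abbrev RD (Q : GridSolid) (a b : Fin 3) : Type := {t : HD Q a // Rib b t}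

lemma rib_ta (hab : a ≠ b) (t : HD Q a) (h : Rib b t) : Rib b ((sysH Q a b hab).ta t) := by
  rw [ribF_iff hab, ta_val hab h]
  exact taF_rib ((ribF_iff hab).1 h)

/-- the next ribbon dart of the face -/
noncomputable abbrev EH (hab : a ≠ b) : Equiv.Perm (RD Q a b) := ret (sysH Q a b hab).E (Rib b)

/-- the other side of the ribbon -/
abbrev tH (hab : a ≠ b) : RD Q a b → RD Q a b :=
  fun x => ⟨(sysH Q a b hab).ta x.1, rib_ta hab x.1 x.2⟩

lemma RD.ext {x y : RD Q a b} (h : x.1.1 = y.1.1) : x = y := Subtype.ext (Subtype.ext h)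

lemma RD.rib (hab : a ≠ b) (x : RD Q a b) : RibF a b x.1.1 := (ribF_iff hab).1 x.2

lemma tH_val (hab : a ≠ b) (x : RD Q a b) : (tH hab x).1.1 = taF a x.1.1 := ta_val hab x.2

lemma nuH_val (hab : a ≠ b) (x : RD Q a b) : (nu (EH hab) (tH hab) x).1.1 = nuF a b x.1.1 :=
  nu_val hab x

lemma tH_tH (hab : a ≠ b) (x : RD Q a b) : tH hab (tH hab x) = x := by
  apply RD.ext
  rw [tH_val, tH_val, taF_taF (x.rib hab)]

lemma tH_ne (hab : a ≠ b) (x : RD Q a b) : tH hab x ≠ x := by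
  intro h
  have h1 := congrArg (fun y : RD Q a b => y.1.1) h
  simp only at h1
  rw [tH_val] at h1
  exact taF_ne h1

/-- the grid point at the east end -/
def pt (x : RD Q a b) : Fin 3 → ℤ := cor x.1.1.1

/-- the pattern at the east end -/
def pa (x : RD Q a b) : ℕ := pat Q (pt x)

/-- the local state at the east end -/
def lo (x : RD Q a b) : ℕ := loc x.1.1

lemma pt_nu (hab : a ≠ b) (x : RD Q a b) : pt (nu (EH hab) (tH hab) x) = pt x := by
  unfold pt
  rw [nuH_val, nuF_cor]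

lemma pa_nu (hab : a ≠ b) (x : RD Q a b) : pa (nu (EH hab) (tH hab) x) = pa x := by
  unfold pa; rw [pt_nu]

lemma lo_nu (hab : a ≠ b) (x : RD Q a b) :
    lo (nu (EH hab) (tH hab) x) = nuL a b (pa x) (lo x) := by
  unfold lo
  rw [nuH_val, nuF_loc]; rfl

lemma eq_iff_lo {x y : RD Q a b} (h : pt x = pt y) : x = y ↔ lo x = lo y :=
  ⟨fun h' => by rw [h'], fun h' => RD.ext (loc_inj _ _ h h')⟩

lemma nu_eq_iff (hab : a ≠ b) (x : RD Q a b) :
    nu (EH hab) (tH hab) x = x ↔ nuL a b (pa x) (lo x) = lo x := by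
  rw [eq_iff_lo (pt_nu hab x), lo_nu]

lemma nu2_eq_iff (hab : a ≠ b) (x : RD Q a b) :
    nu (EH hab) (tH hab) (nu (EH hab) (tH hab) x) = x ↔
      nuL a b (pa x) (nuL a b (pa x) (lo x)) = lo x := by
  rw [eq_iff_lo (by rw [pt_nu, pt_nu]), lo_nu, pa_nu, lo_nu]

lemma nu3_eq_iff (hab : a ≠ b) (x : RD Q a b) :
    nu (EH hab) (tH hab) (nu (EH hab) (tH hab) (nu (EH hab) (tH hab) x)) = x ↔
      nuL a b (pa x) (nuL a b (pa x) (nuL a b (pa x) (lo x))) = lo x := by
  rw [eq_iff_lo (by rw [pt_nu, pt_nu, pt_nu]), lo_nu, pa_nu, pa_nu, lo_nu, pa_nu, lo_nu]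

lemma big_iff (hab : a ≠ b) (x : RD Q a b) :
    Big (EH hab) (tH hab) x ↔ bg a b (pa x) (lo x) = true := by
  unfold Big bg
  rw [ne_eq, ne_eq, nu_eq_iff, nu2_eq_iff]
  simp only [Bool.and_eq_true, Bool.not_eq_true', beq_eq_false_iff_ne, ne_eq]

/-- reading off a local fact -/
lemma RD.fact {f : ℕ → ℕ → ℕ → ℕ → Bool} (hf : ∀ m < 256, allT f m = true) (hM : Q.IsManifold)
    (hab : a ≠ b) (x : RD Q a b) : f a b (pa x) (lo x) = true :=
  EO.fact hf hM hab (x.rib hab)

lemma lo_lt (x : RD Q a b) : lo x < 24 := loc_lt _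

lemma rd_lo (hab : a ≠ b) (x : RD Q a b) : rd a b (pa x) (lo x) = true := rd_loc (x.rib hab)

/-- **valence at most three** -/
theorem n3H (hab : a ≠ b) (hB : ∀ v, noB a b (pat Q v) = true) (x : RD Q a b)
    (hx : Big (EH hab) (tH hab) x) :
    nu (EH hab) (tH hab) (nu (EH hab) (tH hab) (nu (EH hab) (tH hab) x)) = x := by
  rw [nu3_eq_iff]
  have h := hB (pt x)
  unfold noB at h
  rw [List.all_eq_true] at h
  have h1 := h (lo x) (List.mem_range.2 (lo_lt x))
  have h2 := (big_iff hab x).1 hx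
  change (!(rd a b (pa x) (lo x)) || !(bg a b (pa x) (lo x)) || _) = true at h1
  rw [rd_lo hab, h2] at h1
  have h3 : nuL a b (pat Q (pt x)) (nuL a b (pat Q (pt x)) (nuL a b (pat Q (pt x)) (lo x))) =
    lo x := by simpa using h1
  exact h3

/-! ## Types -/

/-- the axis of the facet over the north side -/
lemma kpi_loc (s : Q.FSt) : kpi (pat Q (cor s.1)) (loc s) / 8 = (s.stN.1.d.1 : ℕ) := by
  set u := s.stN.rR with hu
  have h1 : kappa u = s := by
    show u.stE.rL = s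
    have h2 : u.stE = s.rR := by
      show (s.rL.stE.rR.rR).stE = s.rR
      rw [FSt.rR_rR, FSt.stE_inv, FSt.rL_r2]
    rw [h2, FSt.rR_rL]
  have h2 := kpi_all _ (pat_lt (P := Q) (cor u.1))
  rw [List.all_eq_true] at h2
  have h3 := h2 (loc u) (List.mem_range.2 (loc_lt u))
  rw [loc_mem u] at h3
  have h4 : kpi (pat Q (cor u.1)) (kap (pat Q (cor u.1)) (loc u)) = loc u := by simpa using h3
  rw [← kap_loc u, h1] at h4
  have h5 : cor u.1 = cor s.1 := by rw [← kappa_cor u, h1]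
  rw [h5] at h4
  rw [h4, loc_div]
  rfl

lemma okF_iff (s : Q.FSt) (σ t t' : Bool) :
    okF a b s σ t t' ↔ okL a b (pat Q (cor s.1)) (loc s) σ t t' = true := by
  unfold okF okL
  rw [kpi_loc, loc_div]
  simp only [beq_eq_decide, Fin.val_inj, cond_eq_ite, decide_eq_true_eq]
  by_cases h1 : s.1.d.1 = a
  · rw [if_pos h1, if_pos h1, decide_eq_true_iff]
  · rw [if_neg h1, if_neg h1]
    by_cases h2 : s.1.d.1 = b
    · rw [if_pos h2, if_pos h2]
      by_cases h3 : s.stN.1.d.1 = b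
      · rw [if_pos h3, if_pos h3]
        cases σ <;> cases t <;> cases t' <;> simp
      · rw [if_neg h3, if_neg h3]
        cases t <;> cases t' <;> simp
    · rw [if_neg h2, if_neg h2]
      by_cases h3 : s.stN.1.d.1 = b
      · rw [if_pos h3, if_pos h3]
        cases t <;> cases t' <;> simp
      · rw [if_neg h3, if_neg h3]
        cases σ <;> cases t <;> cases t' <;> simp

lemma okH_iff (x : RD Q a b) (σ t t' : Bool) :
    okH b x.1 σ t t' ↔ okL a b (pa x) (lo x) σ t t' = true := okF_iff _ _ _ _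

/-- **the way round the third corner** -/
theorem g2H (hab : a ≠ b) (hK : ∀ v, noK a b (pat Q v) = true) (x : RD Q a b)
    (hx : Big (EH hab) (tH hab) x) :
    ∃ t1 t2 t3, okH b (nu (EH hab) (tH hab) x).1 false t2 t1 ∧
      okH b (nu (EH hab) (tH hab) (nu (EH hab) (tH hab) x)).1 true t3 t2 := by
  have h := hK (pt x)
  unfold noK at h
  rw [List.all_eq_true] at h
  have h1 := h (lo x) (List.mem_range.2 (lo_lt x))
  have h2 := (big_iff hab x).1 hx
  change (!(rd a b (pa x) (lo x)) || !(bg a b (pa x) (lo x)) || _) = true at h1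
  rw [rd_lo hab, h2] at h1
  have h3 : way a b (pat Q (pt x)) (lo x) = true := by simpa using h1
  unfold way at h3
  simp only [List.any_eq_true] at h3
  obtain ⟨t1, -, t2, -, t3, -, h4⟩ := h3
  refine ⟨t1, t2, t3, ?_, ?_⟩
  · rw [okH_iff, pa_nu, lo_nu]
    rw [Bool.and_eq_true] at h4
    exact h4.1
  · rw [okH_iff, pa_nu, pa_nu, lo_nu, pa_nu, lo_nu]
    rw [Bool.and_eq_true] at h4
    exact h4.2

end Pool.Agent.MP42.EO
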